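import Mathlib
import Pool.Agent.Helper948.Ent.A1

set_option autoImplicit false

/-!
# Projections of sets of short sums over a set with a ratio property

`U` is a set of nonzero rational numbers, `W i` increasing finite sets of vectors and `F i` finite
sets of numbers such that in every vanishing sum `∑ c j * u j`, `u j ∈ U`, whose coefficients are
nonzero values `± p(w)`, `w ∈ W i`, of the linear forms `p ∈ T`, every term has a partner with ratio
in `F i`, and `W (i + 1)` contains `x w + w'` for `x ∈ F i`, `w, w' ∈ W i`.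
Then a finite set `A` of points `∑ λ_b w_b`, `λ_b ∈ U`, `w_b ∈ W 0`, satisfies
`|A| ^ (m - 1) ≤ C ∏ |π_p(A)|` for the `m` pairwise independent linear forms of `T`.
-/

namespace Pool.Agent.TH539.MQ

open Finset

/-- the linear form with coefficients `p` -/
def lf (p w : ℚ × ℚ) : ℚ := p.1 * w.1 + p.2 * w.2

lemma lf_add (p w w' : ℚ × ℚ) : lf p (w + w') = lf p w + lf p w' := by
  simp only [lf, Prod.fst_add, Prod.snd_add]; ring

lemma lf_smul (p w : ℚ × ℚ) (c : ℚ) : lf p (c • w) = c * lf p w := by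
  simp only [lf, Prod.smul_fst, Prod.smul_snd, smul_eq_mul]; ring

lemma lf_zero (p : ℚ × ℚ) : lf p 0 = 0 := by simp [lf]

lemma lf_sum {κ : Type} (p : ℚ × ℚ) (B : Finset κ) (f : κ → ℚ × ℚ) :
    lf p (∑ b ∈ B, f b) = ∑ b ∈ B, lf p (f b) := by
  classical
  induction B using Finset.induction_on with
  | empty => simp [lf_zero]
  | insert a s ha ih => rw [Finset.sum_insert ha, Finset.sum_insert ha, lf_add, ih]

variable {κ : Type} [Fintype κ] [DecidableEq κ]

/-- representations with `i` mergings -/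
def Rep (U : Set ℚ) (W : ℕ → Finset (ℚ × ℚ)) (z : ℚ × ℚ) (i : ℕ)
    (B : Finset κ) (lam : κ → ℚ) (w : κ → ℚ × ℚ) : Prop :=
  B.card + i ≤ Fintype.card κ ∧ (∀ b ∈ B, lam b ∈ U ∧ w b ∈ W i) ∧
    (∀ b, b ∉ B → lam b = 0 ∧ w b = 0) ∧ z = ∑ b ∈ B, lam b • w b

lemma good (U : Set ℚ) (h0 : (0 : ℚ) ∉ U) (W : ℕ → Finset (ℚ × ℚ)) (F : ℕ → Finset ℚ)
    (hmono1 : ∀ i, W i ⊆ W (i + 1))
    (hmerge : ∀ i, ∀ x ∈ F i, ∀ w ∈ W i, ∀ w' ∈ W i, x • w + w' ∈ W (i + 1)) (z : ℚ × ℚ)
    (h : ∃ (B : Finset κ) (lam : κ → ℚ) (w : κ → ℚ × ℚ), Rep U W z 0 B lam w) :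
    ∃ (i : ℕ) (B : Finset κ) (lam : κ → ℚ) (w : κ → ℚ × ℚ), Rep U W z i B lam w ∧
      (∀ b ∈ B, w b ≠ 0) ∧
      ∀ b ∈ B, ∀ b' ∈ B, b ≠ b' → lam b / lam b' ∉ F i := by
  classical
  let P : ℕ → Prop := fun i => ∃ (B : Finset κ) (lam : κ → ℚ) (w : κ → ℚ × ℚ),
    Rep U W z i B lam w
  have hP0 : P 0 := h
  have hspec : P (Nat.findGreatest P (Fintype.card κ)) := Nat.findGreatest_spec (Nat.zero_le _) hP0
  set i := Nat.findGreatest P (Fintype.card κ) with hi
  have hmax : ¬ P (i + 1) := by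
    intro hh
    have h1 : i + 1 ≤ Fintype.card κ := by
      obtain ⟨B, lam, w, h2, _⟩ := hh
      omega
    have h2 : i + 1 ≤ i := Nat.le_findGreatest h1 hh
    omega
  obtain ⟨B, lam, w, h1, h2, h3, h4⟩ := hspec
  have hmono : ∀ x ∈ W i, x ∈ W (i + 1) := fun x hx => hmono1 i hx
  refine ⟨i, B, lam, w, ⟨h1, h2, h3, h4⟩, ?_, ?_⟩
  · intro b hb hw
    apply hmax
    refine ⟨B.erase b, fun x => if x = b then 0 else lam x, w, ?_, ?_, ?_, ?_⟩
    · rw [Finset.card_erase_of_mem hb]
      have := Finset.card_pos.2 ⟨b, hb⟩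
      omega
    · intro x hx
      rw [Finset.mem_erase] at hx
      simp only [if_neg hx.1]
      exact ⟨(h2 x hx.2).1, hmono _ (h2 x hx.2).2⟩
    · intro x hx
      rw [Finset.mem_erase, not_and_or, not_not] at hx
      by_cases hxb : x = b
      · beta_reduce
        rw [if_pos hxb]
        exact ⟨rfl, hxb ▸ hw⟩
      · beta_reduce
        rw [if_neg hxb]
        exact h3 x (hx.resolve_left hxb)
    · rw [h4, ← Finset.add_sum_erase B _ hb, hw, smul_zero, zero_add]
      refine Finset.sum_congr rfl fun x hx => ?_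
      rw [Finset.mem_erase] at hx
      beta_reduce
      rw [if_neg hx.1]
  · intro b hb b' hb' hbb hF
    apply hmax
    have hlb : lam b' ≠ 0 := fun h => h0 (h ▸ (h2 b' hb').1)
    refine ⟨B.erase b, fun x => if x = b then 0 else lam x,
      fun x => if x = b then 0 else if x = b' then (lam b / lam b') • w b + w b' else w x,
      ?_, ?_, ?_, ?_⟩
    · rw [Finset.card_erase_of_mem hb]
      have := Finset.card_pos.2 ⟨b, hb⟩
      omega
    · intro x hx
      rw [Finset.mem_erase] at hx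
      simp only [if_neg hx.1]
      refine ⟨(h2 x hx.2).1, ?_⟩
      split_ifs with hxb
      · exact hmerge i _ hF _ (h2 b hb).2 _ (h2 b' hb').2
      · exact hmono _ (h2 x hx.2).2
    · intro x hx
      rw [Finset.mem_erase, not_and_or, not_not] at hx
      by_cases hxb : x = b
      · beta_reduce
        rw [if_pos hxb, if_pos hxb]
        exact ⟨rfl, rfl⟩
      · have h5 := hx.resolve_left hxb
        have h6 : x ≠ b' := fun h => h5 (h ▸ hb')
        beta_reduce
        rw [if_neg hxb, if_neg hxb, if_neg h6]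
        exact h3 x h5
    · have hb'' : b' ∈ B.erase b := Finset.mem_erase.2 ⟨hbb.symm, hb'⟩
      rw [h4, ← Finset.add_sum_erase B _ hb, ← Finset.add_sum_erase (B.erase b) _ hb'',
        ← Finset.add_sum_erase (B.erase b) _ hb'']
      simp only [if_neg hbb.symm, if_true]
      rw [smul_add, smul_smul, mul_div_cancel₀ _ hlb, add_assoc]
      congr 2
      refine Finset.sum_congr rfl fun x hx => ?_
      rw [Finset.mem_erase, Finset.mem_erase] at hx
      rw [if_neg hx.2.1, if_neg hx.2.1, if_neg hx.1]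

/-- number of patterns -/
def pc (κ : Type) [Fintype κ] (W : ℕ → Finset (ℚ × ℚ)) : ℕ :=
  (Fintype.card κ + 1) * (2 ^ Fintype.card κ * ((W (Fintype.card κ)).card + 1) ^ Fintype.card κ)

/-- number of points in a fibre -/
def fc (κ : Type) [Fintype κ] (F : ℕ → Finset ℚ) : ℕ :=
  ((∑ i ∈ Finset.range (Fintype.card κ + 1), (F i).card) * Fintype.card κ + 1) ^ Fintype.card κ

theorem core (U : Set ℚ) (h0 : (0 : ℚ) ∉ U) (T : Finset (ℚ × ℚ))
    (hT : ∀ p ∈ T, ∀ q ∈ T, p ≠ q → p.1 * q.2 - p.2 * q.1 ≠ 0)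
    (W : ℕ → Finset (ℚ × ℚ)) (F : ℕ → Finset ℚ)
    (hmono1 : ∀ i, W i ⊆ W (i + 1))
    (hmerge : ∀ i, ∀ x ∈ F i, ∀ w ∈ W i, ∀ w' ∈ W i, x • w + w' ∈ W (i + 1))
    (hrat : ∀ i, ∀ (A : Finset (Bool × κ)) (c u : Bool × κ → ℚ),
      (∀ j ∈ A, c j ≠ 0 ∧ ∃ p ∈ T, ∃ w ∈ W i, c j = lf p w ∨ c j = - lf p w) →
      (∀ j ∈ A, u j ∈ U) → ∑ j ∈ A, c j * u j = 0 →
      ∀ j ∈ A, ∃ j' ∈ A, j' ≠ j ∧ u j / u j' ∈ F i)
    (A : Finset (ℚ × ℚ)) (hA : A.Nonempty)
    (hrep : ∀ z ∈ A, ∃ (lam : κ → ℚ) (w : κ → ℚ × ℚ), (∀ b, lam b ∈ U ∧ w b ∈ W 0) ∧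
        z = ∑ b, lam b • w b) :
    A.card ^ (T.card - 1) ≤ (pc κ W ^ (T.card - 1) * fc κ F ^ T.card) *
      ∏ p ∈ T, (A.image (lf p)).card := by
  classical
  have Ws_mono : ∀ {i j : ℕ}, i ≤ j → W i ⊆ W j := by
    intro i j h
    induction j, h using Nat.le_induction with
    | base => exact Finset.Subset.refl _
    | succ j _ ih => exact ih.trans (hmono1 j)
  let K := Fintype.card κ
  let Fs : Finset ℚ := (Finset.range (K + 1)).biUnion fun i => F i
  let M : ℕ := (Fs.card * K + 1) ^ K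
  let Pset : Finset (ℕ × Finset κ × (κ → ℚ × ℚ)) :=
    (Finset.range (K + 1)) ×ˢ ((Finset.univ : Finset (Finset κ)) ×ˢ
      Fintype.piFinset (fun _ : κ => insert 0 (W K)))
  have hPsetc : Pset.card ≤ pc κ W := by
    simp only [Pset]
    rw [Finset.card_product, Finset.card_product, Finset.card_range, Fintype.card_piFinset,
      Finset.prod_const, Finset.card_univ, Finset.card_univ, Fintype.card_finset, pc]
    refine Nat.mul_le_mul_left _ (Nat.mul_le_mul_left _ (Nat.pow_le_pow_left ?_ _))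
    exact Finset.card_insert_le _ _
  have hMc : M ≤ fc κ F := by
    simp only [M, fc]
    refine Nat.pow_le_pow_left (Nat.add_le_add_right (Nat.mul_le_mul_right _ ?_) 1) _
    exact Finset.card_biUnion_le
  suffices hmain : A.card ^ (T.card - 1) ≤
      Pset.card ^ (T.card - 1) * M ^ T.card * ∏ p ∈ T, (A.image (lf p)).card by
    refine hmain.trans (Nat.mul_le_mul_right _ ?_)
    exact Nat.mul_le_mul (Nat.pow_le_pow_left hPsetc _) (Nat.pow_le_pow_left hMc _)
  -- choose good representations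
  have hgood : ∀ z : ℚ × ℚ, ∃ (q : ℕ × Finset κ × (κ → ℚ × ℚ)) (lam : κ → ℚ), z ∈ A →
      Rep U W z q.1 q.2.1 lam q.2.2 ∧ (∀ b ∈ q.2.1, q.2.2 b ≠ 0) ∧
      ∀ b ∈ q.2.1, ∀ b' ∈ q.2.1, b ≠ b' → lam b / lam b' ∉ F q.1 := by
    intro z
    by_cases hz : z ∈ A
    · obtain ⟨lam, w, h1, h2⟩ := hrep z hz
      obtain ⟨i, B, lam', w', h3⟩ := good U h0 W F hmono1 hmerge z
        ⟨Finset.univ, lam, w, by simp, fun b _ => h1 b,
          fun b hb => absurd (Finset.mem_univ b) hb, h2⟩
      exact ⟨(i, B, w'), lam', fun _ => h3⟩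
    · exact ⟨(0, ∅, fun _ => 0), fun _ => 0, fun h => absurd h hz⟩
  choose q lam hq using hgood
  have hqP : ∀ z ∈ A, q z ∈ Pset := by
    intro z hz
    obtain ⟨⟨h1, h2, h3, _⟩, _, _⟩ := hq z hz
    refine Finset.mem_product.2 ⟨Finset.mem_range.2 ?_, Finset.mem_product.2
      ⟨Finset.mem_univ _, Fintype.mem_piFinset.2 fun b => ?_⟩⟩
    · have : (q z).1 ≤ K := by
        have := h1
        omega
      omega
    · by_cases hb : b ∈ (q z).2.1
      · refine Finset.mem_insert_of_mem (Ws_mono ?_ (h2 b hb).2)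
        have := h1
        omega
      · rw [(h3 b hb).2]
        exact Finset.mem_insert_self _ _
  -- the most popular pattern
  have hPne : Pset.Nonempty := by
    obtain ⟨z, hz⟩ := hA
    exact ⟨q z, hqP z hz⟩
  obtain ⟨q0, _, hmax⟩ := Finset.exists_max_image Pset
    (fun x => (A.filter (fun z => q z = x)).card) hPne
  set Aq := A.filter (fun z => q z = q0) with hAq
  have hcard : A.card ≤ Pset.card * Aq.card := by
    rw [Finset.card_eq_sum_card_fiberwise (f := q) (t := Pset) (fun z hz => hqP z hz)]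
    refine (Finset.sum_le_card_nsmul _ _ _ fun x hx => hmax x hx).trans ?_
    rw [smul_eq_mul]
  have hAqne : Aq.Nonempty := by
    rw [← Finset.card_pos]
    have := Finset.card_pos.2 hA
    by_contra hh
    push Not at hh
    have h1 : Aq.card = 0 := by omega
    rw [h1, mul_zero] at hcard
    omega
  obtain ⟨i, B, w⟩ := q0
  have hdat : ∀ z ∈ Aq, Rep U W z i B (lam z) w ∧ (∀ b ∈ B, w b ≠ 0) ∧
      ∀ b ∈ B, ∀ b' ∈ B, b ≠ b' → lam z b / lam z b' ∉ F i := by
    intro z hz
    rw [hAq, Finset.mem_filter] at hz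
    have h1 := hq z hz.1
    rw [hz.2] at h1
    exact h1
  have hw0 : ∀ b ∈ B, w b ≠ 0 := by
    obtain ⟨z, hz⟩ := hAqne
    exact (hdat z hz).2.1
  have hiK : i ≤ K := by
    obtain ⟨z, hz⟩ := hAqne
    have := (hdat z hz).1.1
    omega
  have hinj : Set.InjOn lam (Aq : Set (ℚ × ℚ)) := by
    intro z hz z' hz' hzz
    rw [(hdat z hz).1.2.2.2, (hdat z' hz').1.2.2.2, hzz]
  let Fam : Finset (κ → ℚ) := Aq.image lam
  have hFam : Fam.card = Aq.card := Finset.card_image_of_injOn hinj
  let S : {p // p ∈ T} → Finset κ := fun p =>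
    Finset.univ.filter (fun b => ¬ (b ∈ B ∧ lf p.1 (w b) = 0))
  have hsh := Pool.Agent.Helper948.Ent.A1.shearer Fam (hAqne.image _) S (T.card - 1) (by
    intro t
    have h1 : (Finset.univ.filter (fun p : {p // p ∈ T} => ¬ t ∈ S p)).card ≤ 1 := by
      rw [Finset.card_le_one]
      intro p hp p' hp'
      simp only [S, Finset.mem_filter, Finset.mem_univ, true_and, not_not] at hp hp'
      by_contra hne
      have hne' : p.1 ≠ p'.1 := fun h => hne (Subtype.ext h)
      have h2 := hT p.1 p.2 p'.1 p'.2 hne'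
      have h3 := hp.2
      have h4 := hp'.2
      simp only [lf] at h3 h4
      apply hw0 t hp.1
      have h5 : (p.1.1 * p'.1.2 - p.1.2 * p'.1.1) * (w t).1 = 0 := by
        linear_combination p'.1.2 * h3 - p.1.2 * h4
      have h6 : (p.1.1 * p'.1.2 - p.1.2 * p'.1.1) * (w t).2 = 0 := by
        linear_combination p.1.1 * h4 - p'.1.1 * h3
      exact Prod.ext ((mul_eq_zero.1 h5).resolve_left h2) ((mul_eq_zero.1 h6).resolve_left h2)
    have h2 : (Finset.univ.filter (fun p : {p // p ∈ T} => t ∈ S p)).card +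
        (Finset.univ.filter (fun p : {p // p ∈ T} => ¬ t ∈ S p)).card = T.card := by
      rw [Finset.card_filter_add_card_filter_not, Finset.card_univ, Fintype.card_coe]
    convert (by omega : T.card - 1 ≤
      (Finset.univ.filter (fun p : {p // p ∈ T} => t ∈ S p)).card) using 2
    ext p
    simp only [Finset.mem_filter, Finset.mem_univ, true_and])
  -- the fibres
  have hfib : ∀ p : {p // p ∈ T},
      (Fam.image (fun x => fun t : {t // t ∈ S p} => x t.1)).card ≤
        (A.image (lf p.1)).card * M := by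
    intro p
    let ρ : ℚ × ℚ → ({t // t ∈ S p} → ℚ) := fun z => fun t => lam z t.1
    have h1 : Fam.image (fun x => fun t : {t // t ∈ S p} => x t.1) ⊆
        (A.image (lf p.1)).biUnion
          (fun v => (Aq.filter (fun z => lf p.1 z = v)).image ρ) := by
      intro x hx
      simp only [Fam, Finset.mem_image, exists_exists_and_eq_and] at hx
      obtain ⟨z, hz, rfl⟩ := hx
      refine Finset.mem_biUnion.2 ⟨lf p.1 z, Finset.mem_image.2 ⟨z, ?_, rfl⟩,
        Finset.mem_image.2 ⟨z, Finset.mem_filter.2 ⟨hz, rfl⟩, rfl⟩⟩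
      exact (Finset.mem_filter.1 hz).1
    refine (Finset.card_le_card h1).trans (Finset.card_biUnion_le_card_mul _ _ _ ?_)
    intro v _
    rcases (Aq.filter (fun z => lf p.1 z = v)).eq_empty_or_nonempty with he | ⟨z0, hz0⟩
    · rw [he, Finset.image_empty, Finset.card_empty]
      exact Nat.zero_le _
    rw [Finset.mem_filter] at hz0
    let Y : Finset ℚ := (Fs ×ˢ (Finset.univ : Finset κ)).image (fun x => x.1 * lam z0 x.2)
    have hY : Y.card ≤ Fs.card * K := by
      refine Finset.card_image_le.trans ?_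
      rw [Finset.card_product, Finset.card_univ]
    have h2 : (Aq.filter (fun z => lf p.1 z = v)).image ρ ⊆
        Fintype.piFinset (fun _ : {t // t ∈ S p} => insert 0 Y) := by
      intro x hx
      rw [Finset.mem_image] at hx
      obtain ⟨z, hz, rfl⟩ := hx
      rw [Finset.mem_filter] at hz
      refine Fintype.mem_piFinset.2 fun t => ?_
      obtain ⟨⟨_, hz2, hz3, hz4⟩, _, hz6⟩ := hdat z hz.1
      obtain ⟨⟨_, hy2, _, hy4⟩, _, _⟩ := hdat z0 hz0.1
      by_cases htB : t.1 ∈ B
      swap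
      · simp only [ρ]
        rw [(hz3 t.1 htB).1]
        exact Finset.mem_insert_self _ _
      refine Finset.mem_insert_of_mem ?_
      -- the vanishing sum
      let Bp : Finset κ := B.filter (fun b => lf p.1 (w b) ≠ 0)
      let I : Finset (Bool × κ) := (Finset.univ : Finset Bool) ×ˢ Bp
      let c : Bool × κ → ℚ := fun x => if x.1 then lf p.1 (w x.2) else - lf p.1 (w x.2)
      let u : Bool × κ → ℚ := fun x => if x.1 then lam z x.2 else lam z0 x.2
      have hlin : ∀ y : ℚ × ℚ, ∀ l : κ → ℚ, y = ∑ b ∈ B, l b • w b →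
          lf p.1 y = ∑ b ∈ Bp, lf p.1 (w b) * l b := by
        intro y l hy
        rw [hy, lf_sum, Finset.sum_filter]
        refine Finset.sum_congr rfl fun b _ => ?_
        rw [lf_smul]
        split_ifs with hne
        · ring
        · rw [not_not] at hne
          rw [hne, mul_zero]
      have hsum : ∑ x ∈ I, c x * u x = 0 := by
        simp only [I]
        rw [Finset.sum_product, Fintype.sum_bool]
        simp only [c, u, if_true]
        have h3 := hlin z (lam z) hz4
        have h4 := hlin z0 (lam z0) hy4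
        rw [hz.2] at h3
        rw [hz0.2] at h4
        rw [← h3]
        simp only [Bool.false_eq_true, if_false, neg_mul, Finset.sum_neg_distrib]
        rw [← h4]
        ring
      have htp : t.1 ∈ Bp := by
        refine Finset.mem_filter.2 ⟨htB, fun h => ?_⟩
        have h5 := t.2
        simp only [S, Finset.mem_filter, Finset.mem_univ, true_and] at h5
        exact h5 ⟨htB, h⟩
      obtain ⟨x, hxI, hxne, hxF⟩ := hrat i I c u (by
          intro x hx
          have hx2 : x.2 ∈ Bp := (Finset.mem_product.1 hx).2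
          have hx3 := Finset.mem_filter.1 hx2
          have hxw := (hz2 x.2 hx3.1).2
          simp only [c]
          split_ifs with h
          · exact ⟨hx3.2, p.1, p.2, w x.2, hxw, Or.inl rfl⟩
          · exact ⟨neg_ne_zero.2 hx3.2, p.1, p.2, w x.2, hxw, Or.inr rfl⟩)
        (by
          intro x hx
          have hx2 : x.2 ∈ Bp := (Finset.mem_product.1 hx).2
          have hx3 := Finset.mem_filter.1 hx2
          simp only [u]
          split_ifs
          · exact (hz2 x.2 hx3.1).1
          · exact (hy2 x.2 hx3.1).1) hsum (true, t.1)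
        (Finset.mem_product.2 ⟨Finset.mem_univ _, htp⟩)
      have hxB : x.2 ∈ B := (Finset.mem_filter.1 (Finset.mem_product.1 hxI).2).1
      obtain ⟨β, b'⟩ := x
      cases β with
      | true =>
        exfalso
        simp only [u, if_true] at hxF
        refine hz6 t.1 htB b' hxB (fun h => hxne ?_) hxF
        rw [h]
      | false =>
        simp only [u, if_true, Bool.false_eq_true, if_false] at hxF
        have hne0 : lam z0 b' ≠ 0 := fun h => h0 (h ▸ (hy2 b' hxB).1)
        refine Finset.mem_image.2 ⟨(lam z t.1 / lam z0 b', b'), Finset.mem_product.2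
          ⟨Finset.mem_biUnion.2 ⟨i, Finset.mem_range.2 (by omega), hxF⟩, Finset.mem_univ _⟩, ?_⟩
        simp only [ρ]
        rw [div_mul_cancel₀ _ hne0]
    refine (Finset.card_le_card h2).trans ?_
    rw [Fintype.card_piFinset, Finset.prod_const, Finset.card_univ]
    have h3 : (insert 0 Y).card ≤ Fs.card * K + 1 := (Finset.card_insert_le _ _).trans (by omega)
    have h4 : Fintype.card {t // t ∈ S p} ≤ K := Fintype.card_subtype_le _
    calc (insert 0 Y).card ^ Fintype.card {t // t ∈ S p}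
        ≤ (Fs.card * K + 1) ^ Fintype.card {t // t ∈ S p} := Nat.pow_le_pow_left h3 _
      _ ≤ (Fs.card * K + 1) ^ K := Nat.pow_le_pow_right (by omega) h4
  have hprod : Aq.card ^ (T.card - 1) ≤ M ^ T.card * ∏ p ∈ T, (A.image (lf p)).card := by
    rw [← hFam]
    refine hsh.trans ?_
    have h1 : ∏ j : {p // p ∈ T},
        (Fam.image (fun x => fun t : {t // t ∈ S j} => x t.1)).card ≤
        ∏ j : {p // p ∈ T}, ((A.image (lf j.1)).card * M) :=
      Finset.prod_le_prod' fun j _ => hfib j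
    refine le_trans (le_of_eq ?_) (h1.trans ?_)
    · refine Finset.prod_congr rfl fun j _ => ?_
      congr 1
      ext x
      simp only [Finset.mem_image]
    · rw [Finset.prod_mul_distrib, Finset.prod_const, Finset.card_univ, Fintype.card_coe,
        Finset.prod_coe_sort T (fun p => (A.image (lf p)).card), mul_comm]
  calc A.card ^ (T.card - 1) ≤ (Pset.card * Aq.card) ^ (T.card - 1) :=
        Nat.pow_le_pow_left hcard _
    _ = Pset.card ^ (T.card - 1) * Aq.card ^ (T.card - 1) := mul_pow _ _ _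
    _ ≤ Pset.card ^ (T.card - 1) * (M ^ T.card * ∏ p ∈ T, (A.image (lf p)).card) :=
        Nat.mul_le_mul_left _ hprod
    _ = _ := by ring

end Pool.Agent.TH539.MQ
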