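import Mathlib
import Pool.Agent.TH551.SU.CS
import Pool.Agent.TH551.SU.Sui

set_option autoImplicit false

/-!
# Vanishing sums of S-units with coefficients of height at most `h`

In a vanishing sum `∑ c i * u i` of `S`-units with nonzero coefficients of height at most `h` every
term has a partner such that the ratio of the two units has height at most `C h ^ C`.
-/

namespace Pool.Agent.TH539.MQ

open Filter Topology Pool.Agent.TH932.Germs Pool.Agent.TH551.SU Pool.Agent.TH551.SU.SUI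
  Pool.Agent.TH551.SU.CS

/-- rationals with numerator and denominator at most `n` -/
noncomputable def box (n : ℕ) : Finset ℚ :=
  ((Finset.Icc (-(n : ℤ)) n) ×ˢ (Finset.Icc 1 n : Finset ℕ)).image
    (fun p => (p.1 : ℚ) / (p.2 : ℚ))

lemma mem_box {n : ℕ} {x : ℚ} (h1 : |(x.num : ℝ)| ≤ n) (h2 : (x.den : ℝ) ≤ n) : x ∈ box n := by
  unfold box
  rw [Finset.mem_image]
  refine ⟨(x.num, x.den), ?_, Rat.num_div_den x⟩
  rw [Finset.mem_product, Finset.mem_Icc, Finset.mem_Icc]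
  have h3 : |x.num| ≤ (n : ℤ) := by exact_mod_cast h1
  have h4 := abs_le.1 h3
  exact ⟨⟨h4.1, h4.2⟩, x.den_pos, by exact_mod_cast h2⟩

lemma box_num {n : ℕ} {x : ℚ} (h : x ∈ box n) : |(x.num : ℝ)| ≤ n ∧ (x.den : ℝ) ≤ n := by
  unfold box at h
  rw [Finset.mem_image] at h
  obtain ⟨⟨a, d⟩, h1, rfl⟩ := h
  rw [Finset.mem_product, Finset.mem_Icc, Finset.mem_Icc] at h1
  obtain ⟨⟨h2, h3⟩, h4, h5⟩ := h1
  simp only at h2 h3 h4 h5
  have hd : (d : ℤ) ≠ 0 := by omega
  have e1 : ((a : ℚ) / (d : ℚ)) = Rat.divInt a d := by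
    rw [Rat.divInt_eq_div]
    push_cast
    rfl
  constructor
  · by_cases ha : a = 0
    · subst ha
      simp
    · have h6 := Rat.num_dvd a hd
      rw [← e1] at h6
      refine (abs_le_of_dvd h6 ha).trans ?_
      have h7 : |a| ≤ (n : ℤ) := abs_le.2 ⟨h2, h3⟩
      exact_mod_cast h7
  · have h6 := Rat.den_dvd a (d : ℤ)
    rw [← e1] at h6
    have h7 := Int.le_of_dvd (by omega) h6
    have h8 : (((a : ℚ) / (d : ℚ)).den : ℤ) ≤ (n : ℤ) := h7.trans (by exact_mod_cast h5)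
    exact_mod_cast h8

lemma box_mono {n m : ℕ} (h : n ≤ m) : box n ⊆ box m := by
  intro x hx
  obtain ⟨h1, h2⟩ := box_num hx
  have h3 : (n : ℝ) ≤ m := by exact_mod_cast h
  exact mem_box (h1.trans h3) (h2.trans h3)

lemma mem_box' {n : ℕ} (a : ℤ) (d : ℕ) (h1 : |a| ≤ n) (h2 : 1 ≤ d) (h3 : d ≤ n) :
    ((a : ℚ) / (d : ℚ)) ∈ box n := by
  unfold box
  rw [Finset.mem_image]
  refine ⟨(a, d), ?_, rfl⟩
  rw [Finset.mem_product, Finset.mem_Icc, Finset.mem_Icc]
  exact ⟨abs_le.1 h1, h2, h3⟩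

lemma box_rep {n : ℕ} {x : ℚ} (h : x ∈ box n) :
    ∃ (a : ℤ) (d : ℕ), |a| ≤ n ∧ 1 ≤ d ∧ d ≤ n ∧ x = (a : ℚ) / (d : ℚ) := by
  unfold box at h
  rw [Finset.mem_image] at h
  obtain ⟨⟨a, d⟩, h1, rfl⟩ := h
  rw [Finset.mem_product, Finset.mem_Icc, Finset.mem_Icc] at h1
  exact ⟨a, d, abs_le.2 h1.1, h1.2.1, h1.2.2, rfl⟩

lemma box_mul {n m : ℕ} {x y : ℚ} (hx : x ∈ box n) (hy : y ∈ box m) : x * y ∈ box (n * m) := by
  obtain ⟨a, d, h1, h2, h3, rfl⟩ := box_rep hx
  obtain ⟨a', d', h1', h2', h3', rfl⟩ := box_rep hy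
  have e : ((a : ℚ) / (d : ℚ)) * ((a' : ℚ) / (d' : ℚ)) = ((a * a' : ℤ) : ℚ) / ((d * d' : ℕ) : ℚ) := by
    push_cast
    exact div_mul_div_comm _ _ _ _
  rw [e]
  refine mem_box' _ _ ?_ (Nat.mul_pos h2 h2') (Nat.mul_le_mul h3 h3')
  rw [abs_mul]
  push_cast
  exact mul_le_mul h1 h1' (abs_nonneg _) (by positivity)

lemma box_add {n m : ℕ} {x y : ℚ} (hx : x ∈ box n) (hy : y ∈ box m) : x + y ∈ box (2 * (n * m)) := by
  obtain ⟨a, d, h1, h2, h3, rfl⟩ := box_rep hx
  obtain ⟨a', d', h1', h2', h3', rfl⟩ := box_rep hy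
  have hd : (d : ℚ) ≠ 0 := by positivity
  have hd' : (d' : ℚ) ≠ 0 := by positivity
  have e : ((a : ℚ) / (d : ℚ)) + ((a' : ℚ) / (d' : ℚ)) =
      ((a * d' + a' * d : ℤ) : ℚ) / ((d * d' : ℕ) : ℚ) := by
    push_cast
    field_simp
  rw [e]
  have h4 : (d : ℤ) ≤ n := by exact_mod_cast h3
  have h4' : (d' : ℤ) ≤ m := by exact_mod_cast h3'
  refine mem_box' _ _ ?_ (Nat.mul_pos h2 h2') ?_
  · refine (abs_add_le _ _).trans ?_
    rw [abs_mul, abs_mul, Nat.abs_cast, Nat.abs_cast]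
    have h5 : |a| * (d' : ℤ) ≤ n * m := mul_le_mul h1 h4' (by positivity) (by positivity)
    have h6 : |a'| * (d : ℤ) ≤ m * n := mul_le_mul h1' h4 (by positivity) (by positivity)
    push_cast
    linarith [mul_comm (m : ℤ) (n : ℤ)]
  · have := Nat.mul_le_mul h3 h3'
    omega

lemma box_neg {n : ℕ} {x : ℚ} (hx : x ∈ box n) : -x ∈ box n := by
  obtain ⟨h1, h2⟩ := box_num hx
  refine mem_box ?_ (by simpa using h2)
  simpa using h1

lemma box_card (n : ℕ) : (box n).card ≤ (2 * n + 1) * n := by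
  unfold box
  refine Finset.card_image_le.trans ?_
  rw [Finset.card_product, Int.card_Icc, Nat.card_Icc]
  refine Nat.mul_le_mul ?_ ?_ <;> omega

lemma zero_mem_box {n : ℕ} (h : 1 ≤ n) : (0 : ℚ) ∈ box n := by
  refine mem_box (by simp) ?_
  simpa using (by exact_mod_cast h : (1 : ℝ) ≤ n)

lemma sum_gm {ι : Type} (A : Finset ι) (f : ι → ℕ → ℚ) :
    ∑ i ∈ A, gm (f i) = gm (fun n => ∑ i ∈ A, f i n) := by
  classical
  induction A using Finset.induction_on with
  | empty => simp only [Finset.sum_empty]; exact gm_zero.symm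
  | insert a s ha ih =>
    simp only [Finset.sum_insert ha]
    rw [ih, gm_add]

lemma isSU_one {s : ℕ} (b : Fin s → ℕ) : IsSU b 1 :=
  ⟨1, 0, Or.inl rfl, by simp⟩

lemma isSU_ne {s : ℕ} (b : Fin s → ℕ) (hb : ∀ v, (b v).Prime) {x : ℚ} (h : IsSU b x) : x ≠ 0 := by
  obtain ⟨σ, e, hσ, rfl⟩ := h
  refine mul_ne_zero ?_ (Finset.prod_ne_zero_iff.2 fun v _ => zpow_ne_zero _ ?_)
  · rcases hσ with rfl | rfl <;> simp
  · exact_mod_cast (hb v).ne_zero

theorem ratio {s : ℕ} (b : Fin s → ℕ) (hb : ∀ v, (b v).Prime) (hbi : Function.Injective b)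
    (ι : Type) [Fintype ι] :
    ∃ C : ℕ, ∀ h : ℕ, 1 ≤ h → ∀ (A : Finset ι) (c u : ι → ℚ), (∀ i ∈ A, c i ≠ 0 ∧ c i ∈ box h) →
      (∀ i ∈ A, IsSU b (u i)) →
      ∑ i ∈ A, c i * u i = 0 → ∀ i ∈ A, ∃ j ∈ A, j ≠ i ∧ u i / u j ∈ box (C * h ^ C) := by
  classical
  by_contra hcon
  push Not at hcon
  choose h hh A c u hc hu hsum i hi hbad using fun n : ℕ => hcon (n + 1)
  obtain ⟨⟨A0, i0⟩, hconst⟩ := const_of_ev (ι := Finset ι × ι)
    (p := fun q n => A n = q.1 ∧ i n = q.2) (Eventually.of_forall fun n => ⟨(A n, i n), rfl, rfl⟩)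
  simp only at hconst
  let L : ℕ → ℝ := fun n => Real.log (((n + 1 : ℕ) : ℝ) * (h n : ℝ) ^ (n + 1))
  have hh1 : ∀ n, (1 : ℝ) ≤ h n := fun n => by exact_mod_cast hh n
  have hLe : ∀ n, L n = Real.log ((n + 1 : ℕ) : ℝ) + (n + 1 : ℕ) * Real.log (h n) := by
    intro n
    simp only [L]
    rw [Real.log_mul (by positivity) (by have := hh1 n; positivity), Real.log_pow]
  have hlh : ∀ n, 0 ≤ Real.log (h n) := fun n => Real.log_nonneg (hh1 n)
  have hL : Tendsto L atTop atTop := by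
    have h1 : Tendsto (fun n : ℕ => Real.log ((n + 1 : ℕ) : ℝ)) atTop atTop :=
      (Real.tendsto_log_atTop.comp tendsto_natCast_atTop_atTop).comp (tendsto_add_atTop_nat 1)
    refine tendsto_atTop_mono (fun n => ?_) h1
    rw [hLe]
    have := hlh n
    have h2 : (0 : ℝ) ≤ ((n + 1 : ℕ) : ℝ) * Real.log (h n) := by positivity
    linarith
  have hexp : ∀ n, Real.exp (L n) = ((n + 1 : ℕ) : ℝ) * (h n : ℝ) ^ (n + 1) := by
    intro n
    simp only [L]
    exact Real.exp_log (by have := hh1 n; positivity)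
  let c' : ι → ℕ → ℚ := fun j n => if A n = A0 ∧ j ∈ A0 then c n j else 0
  let u' : ι → ℕ → ℚ := fun j n => if A n = A0 ∧ j ∈ A0 then u n j else 1
  have hi0 : i0 ∈ A0 := by
    obtain ⟨n, h1, h2⟩ := hconst.exists
    rw [← h1, ← h2]
    exact hi n
  have hu' : ∀ j n, IsSU b (u' j n) := by
    intro j n
    simp only [u']
    split_ifs with h
    · exact hu n j (h.1 ▸ h.2)
    · exact isSU_one b
  -- the coefficients are negligible
  have hKK : ∀ j, gm (c' j) ∈ KK L hL := by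
    intro j
    rw [mem_KK_iff hL]
    have hmem : ∀ n, c' j n ∈ box (h n) := by
      intro n
      simp only [c']
      split_ifs with h
      · exact (hc n j (h.1 ▸ h.2)).2
      · exact zero_mem_box (hh n)
    have hbig : ∀ ε : ℝ, 0 < ε → ∀ᶠ n : ℕ in (UU : Filter ℕ), (h n : ℝ) ≤ Real.exp (ε * L n) := by
      intro ε hε
      apply ev_of_atTop
      obtain ⟨N, hN⟩ := exists_nat_gt (1 / ε)
      filter_upwards [eventually_ge_atTop N] with n hn
      have h1 : (1 : ℝ) ≤ ε * ((n + 1 : ℕ) : ℝ) := by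
        have h2 : (1 / ε) < ((n + 1 : ℕ) : ℝ) := by
          refine hN.trans_le ?_
          exact_mod_cast (by omega : N ≤ n + 1)
        rw [div_lt_iff₀ hε] at h2
        linarith
      rw [← Real.log_le_iff_le_exp (by linarith [hh1 n]), hLe]
      have h3 := hlh n
      have h4 : (0 : ℝ) ≤ Real.log ((n + 1 : ℕ) : ℝ) := Real.log_nonneg (by push_cast; linarith [(Nat.cast_nonneg n : (0 : ℝ) ≤ n)])
      have h5 : Real.log (h n) ≤ (ε * ((n + 1 : ℕ) : ℝ)) * Real.log (h n) := by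
        nlinarith
      have h6 : 0 ≤ ε * Real.log ((n + 1 : ℕ) : ℝ) := by positivity
      linarith [mul_assoc ε ((n + 1 : ℕ) : ℝ) (Real.log (h n))]
    constructor
    · intro ε hε
      filter_upwards [hbig ε hε] with n hn
      exact (box_num (hmem n)).1.trans hn
    · intro ε hε
      filter_upwards [hbig ε hε] with n hn
      have h1 := (box_num (hmem n)).2.trans hn
      push_cast
      rw [abs_of_nonneg (Nat.cast_nonneg _)]
      exact h1
  -- the ratios with the bad unit are not negligible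
  have hnot : ∀ j ∈ A0, j ≠ i0 → gm (u' i0) / gm (u' j) ∉ KK L hL := by
    intro j hj hji hmem
    rw [gm_div, mem_KK_iff hL] at hmem
    have h1 := hmem.1 1 one_pos
    have h2 := hmem.2 1 one_pos
    obtain ⟨n, h1, h2, h4, h5⟩ := (h1.and (h2.and hconst)).exists
    rw [one_mul, hexp] at h1 h2
    have h7 : u' i0 n = u n i0 := by simp only [u']; rw [if_pos ⟨h4, hi0⟩]
    have h8 : u' j n = u n j := by simp only [u']; rw [if_pos ⟨h4, hj⟩]
    have h1 : |(((u' i0 n / u' j n).num : ℤ) : ℝ)| ≤ ((n + 1 : ℕ) : ℝ) * (h n : ℝ) ^ (n + 1) := h1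
    have h2 : |((((u' i0 n / u' j n).den : ℤ)) : ℝ)| ≤
      ((n + 1 : ℕ) : ℝ) * (h n : ℝ) ^ (n + 1) := h2
    rw [h7, h8] at h1 h2
    have h9 : u n i0 / u n j ∈ box ((n + 1) * (h n) ^ (n + 1)) := by
      refine mem_box ?_ ?_
      · push_cast at h1 ⊢
        exact h1
      · push_cast at h2 ⊢
        rwa [abs_of_nonneg (Nat.cast_nonneg _)] at h2
    refine hbad n j (h4 ▸ hj) (by rw [h5]; exact hji) ?_
    rw [h5]
    exact h9
  have hzero : ∑ j ∈ A0, ((⟨gm (c' j), hKK j⟩ : KK L hL) : GG) *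
      gm (u' j) = 0 := by
    simp only [gm_mul]
    rw [sum_gm, ← gm_zero, gm_eq]
    filter_upwards [hconst] with n hn
    rw [← hsum n, hn.1]
    refine Finset.sum_congr rfl fun j hj => ?_
    simp only [c', u']
    rw [if_pos ⟨hn.1, hj⟩, if_pos ⟨hn.1, hj⟩]
  have hcs := cs sui s b hb hbi L hL ι A0
    (fun j => ⟨gm (c' j), hKK j⟩) (fun j => gm (u' j)) (fun j => if j = i0 then 1 else 0)
    (fun j _ => ⟨u' j, rfl, hu' j⟩) (by
      intro x hx y hy hxy
      by_cases h1 : x = i0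
      · by_cases h2 : y = i0
        · rw [h1, h2]
        · exact absurd (h1 ▸ hxy) (hnot y hy h2)
      · by_cases h2 : y = i0
        · refine absurd ?_ (hnot x hx h1)
          have h3 := (KK L hL).inv_mem hxy
          rw [inv_div, h2] at h3
          exact h3
        · rw [if_neg h1, if_neg h2]) hzero
  have hcoef := congrArg (fun p : Polynomial GG => p.coeff 1) hcs
  simp only [Polynomial.finsetSum_coeff, Polynomial.coeff_C_mul, Polynomial.coeff_X_pow,
    Polynomial.coeff_zero] at hcoef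
  rw [Finset.sum_eq_single i0] at hcoef
  · rw [if_pos rfl, if_pos rfl, mul_one] at hcoef
    rcases mul_eq_zero.1 hcoef with h1 | h1
    · have h1' : gm (c' i0) = gm (fun _ => 0) := by rw [gm_zero]; exact h1
      rw [gm_eq] at h1'
      obtain ⟨n, h2, h3⟩ := (h1'.and hconst).exists
      simp only [c'] at h2
      rw [if_pos ⟨h3.1, hi0⟩] at h2
      exact (hc n i0 (h3.1 ▸ hi0)).1 h2
    · have h1' : gm (u' i0) = gm (fun _ => 0) := by rw [gm_zero]; exact h1
      rw [gm_eq] at h1'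
      obtain ⟨n, h2⟩ := h1'.exists
      exact isSU_ne b hb (hu' i0 n) h2
  · intro j _ hj
    rw [if_neg hj]
    simp
  · intro h
    exact absurd hi0 h

end Pool.Agent.TH539.MQ
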