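import Mathlib
import Pool.Agent.TH539.MQRatio
import Pool.Agent.TH539.MQCore

set_option autoImplicit false

/-!
# Projections of sets of short sums of S-units: polynomial dependence on the height of the digits
-/

namespace Pool.Agent.TH539.MQ

open Finset Pool.Agent.TH551.SU

/-- polynomially bounded -/
def PB (f : ℕ → ℕ) : Prop := ∃ E : ℕ, ∀ h : ℕ, 1 ≤ h → f h ≤ E * h ^ E

lemma PB.mono {f g : ℕ → ℕ} (hg : PB g) (h : ∀ n, f n ≤ g n) : PB f := by
  obtain ⟨E, hE⟩ := hg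
  exact ⟨E, fun n hn => (h n).trans (hE n hn)⟩

lemma PB.const (c : ℕ) : PB (fun _ => c) := by
  refine ⟨c, fun h hh => ?_⟩
  exact Nat.le_mul_of_pos_right _ (Nat.pow_pos hh)

lemma PB.id : PB (fun h => h) := ⟨1, fun h _ => by simp⟩

lemma PB.add {f g : ℕ → ℕ} (hf : PB f) (hg : PB g) : PB (fun h => f h + g h) := by
  obtain ⟨E, hE⟩ := hf
  obtain ⟨E', hE'⟩ := hg
  refine ⟨E + E', fun h hh => ?_⟩
  have h1 : h ^ E ≤ h ^ (E + E') := Nat.pow_le_pow_right hh (by omega)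
  have h2 : h ^ E' ≤ h ^ (E + E') := Nat.pow_le_pow_right hh (by omega)
  calc f h + g h ≤ E * h ^ E + E' * h ^ E' := Nat.add_le_add (hE h hh) (hE' h hh)
    _ ≤ E * h ^ (E + E') + E' * h ^ (E + E') :=
        Nat.add_le_add (Nat.mul_le_mul_left _ h1) (Nat.mul_le_mul_left _ h2)
    _ = (E + E') * h ^ (E + E') := by ring

lemma PB.mul {f g : ℕ → ℕ} (hf : PB f) (hg : PB g) : PB (fun h => f h * g h) := by
  obtain ⟨E, hE⟩ := hf
  obtain ⟨E', hE'⟩ := hg
  refine ⟨E * E' + (E + E'), fun h hh => ?_⟩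
  have h1 : h ^ (E + E') ≤ h ^ (E * E' + (E + E')) := Nat.pow_le_pow_right hh (by omega)
  calc f h * g h ≤ (E * h ^ E) * (E' * h ^ E') := Nat.mul_le_mul (hE h hh) (hE' h hh)
    _ = (E * E') * h ^ (E + E') := by rw [pow_add]; ring
    _ ≤ (E * E' + (E + E')) * h ^ (E * E' + (E + E')) := Nat.mul_le_mul (by omega) h1

lemma PB.pow {f : ℕ → ℕ} (hf : PB f) (n : ℕ) : PB (fun h => f h ^ n) := by
  induction n with
  | zero => simpa using PB.const 1
  | succ n ih => simpa only [pow_succ] using ih.mul hf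

lemma PB.sum {f : ℕ → ℕ → ℕ} (n : ℕ) (hf : ∀ i, PB (f i)) :
    PB (fun h => ∑ i ∈ Finset.range n, f i h) := by
  induction n with
  | zero => simpa using PB.const 0
  | succ n ih => simpa only [Finset.sum_range_succ] using ih.add (hf n)

/-- bound for the values of the forms -/
def G (t N : ℕ) : ℕ := 2 * ((t * N) * (t * N))

/-- bound for the ratios -/
def R (t C N : ℕ) : ℕ := C * (G t N) ^ C

/-- bound for the vectors after `i` mergings -/
def Nn (t C h : ℕ) : ℕ → ℕ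
  | 0 => h
  | i + 1 => Nn t C h i + 2 * ((R t C (Nn t C h i) * Nn t C h i) * Nn t C h i)

lemma Nn_pb (t C i : ℕ) : PB (fun h => Nn t C h i) := by
  induction i with
  | zero => exact PB.id
  | succ i ih =>
    have hG : PB (fun h => G t (Nn t C h i)) :=
      (PB.const 2).mul (((PB.const t).mul ih).mul ((PB.const t).mul ih))
    have hR : PB (fun h => R t C (Nn t C h i)) := (PB.const C).mul (hG.pow C)
    exact ih.add ((PB.const 2).mul ((hR.mul ih).mul ih))

lemma R_pb (t C i : ℕ) : PB (fun h => R t C (Nn t C h i)) := by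
  have ih := Nn_pb t C i
  have hG : PB (fun h => G t (Nn t C h i)) :=
    (PB.const 2).mul (((PB.const t).mul ih).mul ((PB.const t).mul ih))
  exact (PB.const C).mul (hG.pow C)

lemma box_pb {f : ℕ → ℕ} (hf : PB f) : PB (fun h => (box (f h)).card) :=
  (((PB.const 2).mul hf).add (PB.const 1)).mul hf |>.mono fun _ => box_card _

lemma Nn_ge (t C h i : ℕ) : h ≤ Nn t C h i := by
  induction i with
  | zero => exact le_rfl
  | succ i ih =>
    rw [Nn]
    omega

/-- the vectors after `i` mergings -/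
noncomputable def Wv (t C h i : ℕ) : Finset (ℚ × ℚ) := box (Nn t C h i) ×ˢ box (Nn t C h i)

/-- the ratios -/
noncomputable def Fr (t C h i : ℕ) : Finset ℚ := box (R t C (Nn t C h i))

lemma pc_pb (κ : Type) [Fintype κ] (t C : ℕ) : PB (fun h => pc κ (Wv t C h)) := by
  have h1 : PB (fun h => (Wv t C h (Fintype.card κ)).card) := by
    simp only [Wv, Finset.card_product]
    exact (box_pb (Nn_pb t C _)).mul (box_pb (Nn_pb t C _))
  exact (PB.const _).mul ((PB.const _).mul ((h1.add (PB.const 1)).pow _))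

lemma fc_pb (κ : Type) [Fintype κ] (t C : ℕ) : PB (fun h => fc κ (Fr t C h)) := by
  have h1 : PB (fun h => ∑ i ∈ Finset.range (Fintype.card κ + 1), (Fr t C h i).card) :=
    PB.sum _ fun i => box_pb (R_pb t C i)
  exact ((h1.mul (PB.const _)).add (PB.const 1)).pow _

lemma exists_box (T : Finset (ℚ × ℚ)) :
    ∃ t : ℕ, 1 ≤ t ∧ ∀ p ∈ T, p.1 ∈ box t ∧ p.2 ∈ box t := by
  have h1 : ∀ x : ℚ, x ∈ box (x.num.natAbs + x.den) := by
    intro x
    refine mem_box ?_ ?_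
    · have h3 : |x.num| ≤ ((x.num.natAbs + x.den : ℕ) : ℤ) := by
        push_cast
        omega
      have h4 : (((|x.num| : ℤ)) : ℝ) ≤ ((((x.num.natAbs + x.den : ℕ) : ℤ)) : ℝ) :=
        Int.cast_le.2 h3
      rw [Int.cast_abs, Int.cast_natCast] at h4
      exact h4
    · push_cast
      linarith [abs_nonneg (x.num : ℝ)]
  refine ⟨∑ p ∈ T, ((p.1.num.natAbs + p.1.den) + (p.2.num.natAbs + p.2.den)) + 1, by omega,
    fun p hp => ?_⟩
  have h2 : (p.1.num.natAbs + p.1.den) + (p.2.num.natAbs + p.2.den) ≤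
      ∑ p ∈ T, ((p.1.num.natAbs + p.1.den) + (p.2.num.natAbs + p.2.den)) :=
    Finset.single_le_sum (f := fun p : ℚ × ℚ =>
      (p.1.num.natAbs + p.1.den) + (p.2.num.natAbs + p.2.den)) (fun _ _ => Nat.zero_le _) hp
  exact ⟨box_mono (by omega) (h1 p.1), box_mono (by omega) (h1 p.2)⟩

theorem poly {s : ℕ} (b : Fin s → ℕ) (hb : ∀ v, (b v).Prime) (hbi : Function.Injective b)
    (κ : Type) [Fintype κ] [DecidableEq κ] (T : Finset (ℚ × ℚ))
    (hT : ∀ p ∈ T, ∀ q ∈ T, p ≠ q → p.1 * q.2 - p.2 * q.1 ≠ 0) :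
    ∃ C : ℕ, ∀ h : ℕ, 1 ≤ h → ∀ A : Finset (ℚ × ℚ), A.Nonempty →
      (∀ z ∈ A, ∃ (lam : κ → ℚ) (w : κ → ℚ × ℚ),
        (∀ i, IsSU b (lam i) ∧ (w i).1 ∈ box h ∧ (w i).2 ∈ box h) ∧ z = ∑ i, lam i • w i) →
      A.card ^ (T.card - 1) ≤ (C * h ^ C) * ∏ p ∈ T, (A.image (lf p)).card := by
  classical
  obtain ⟨C0, hC0⟩ := ratio b hb hbi (Bool × κ)
  obtain ⟨t, ht1, ht⟩ := exists_box T
  obtain ⟨E, hE⟩ : PB (fun h => pc κ (Wv t C0 h) ^ (T.card - 1) * fc κ (Fr t C0 h) ^ T.card) :=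
    ((pc_pb κ t C0).pow _).mul ((fc_pb κ t C0).pow _)
  refine ⟨E, fun h hh A hA hrep => ?_⟩
  refine (core {x | IsSU b x} (fun h => isSU_ne b hb h rfl) T hT (Wv t C0 h) (Fr t C0 h)
    ?_ ?_ ?_ A hA ?_).trans (Nat.mul_le_mul_right _ (hE h hh))
  · intro i
    have h1 : box (Nn t C0 h i) ⊆ box (Nn t C0 h (i + 1)) := box_mono (by rw [Nn]; omega)
    exact Finset.product_subset_product h1 h1
  · intro i x hx w hw w' hw'
    simp only [Wv, Fr, Finset.mem_product] at hx hw hw' ⊢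
    have h1 : 2 * ((R t C0 (Nn t C0 h i) * Nn t C0 h i) * Nn t C0 h i) ≤ Nn t C0 h (i + 1) := by
      rw [Nn]
      omega
    constructor
    · rw [Prod.fst_add, Prod.smul_fst, smul_eq_mul]
      exact box_mono h1 (box_add (box_mul hx hw.1) hw'.1)
    · rw [Prod.snd_add, Prod.smul_snd, smul_eq_mul]
      exact box_mono h1 (box_add (box_mul hx hw.2) hw'.2)
  · intro i A' c u hc hu hsum
    have hN : 1 ≤ Nn t C0 h i := hh.trans (Nn_ge t C0 h i)
    have hG : 1 ≤ G t (Nn t C0 h i) := by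
      have h1 : 1 ≤ t * Nn t C0 h i := Nat.mul_pos ht1 hN
      have h2 : 1 ≤ (t * Nn t C0 h i) * (t * Nn t C0 h i) := Nat.mul_pos h1 h1
      rw [G]
      omega
    refine hC0 (G t (Nn t C0 h i)) hG A' c u (fun j hj => ⟨(hc j hj).1, ?_⟩) hu hsum
    obtain ⟨_, p, hp, w, hw, h3⟩ := hc j hj
    simp only [Wv, Finset.mem_product] at hw
    have h4 : lf p w ∈ box (G t (Nn t C0 h i)) :=
      box_add (box_mul (ht p hp).1 hw.1) (box_mul (ht p hp).2 hw.2)
    rcases h3 with h3 | h3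
    · rw [h3]
      exact h4
    · rw [h3]
      exact box_neg h4
  · intro z hz
    obtain ⟨lam, w, h1, h2⟩ := hrep z hz
    exact ⟨lam, w, fun i => ⟨(h1 i).1, Finset.mem_product.2 (h1 i).2⟩, h2⟩

end Pool.Agent.TH539.MQ
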