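import Mathlib

set_option autoImplicit false

/-!
# Sets of short sums of powers of two with small projections in given directions
-/

namespace Pool.Agent.TH539.MQ

open Finset

/-- the projection with slope `r` -/
def prj (r : ℚ) (A : Finset (ℤ × ℤ)) : Finset ℚ :=
  A.image (fun p : ℤ × ℤ => (p.1 : ℚ) + r * (p.2 : ℚ))

/-- the projection with slope `∞` -/
def prjInf (A : Finset (ℤ × ℤ)) : Finset ℚ := A.image (fun p : ℤ × ℤ => (p.2 : ℚ))

/-- an integral vector killed by `x + r y` -/
def kv (r : ℚ) : ℤ × ℤ := (-r.num, r.den)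

lemma kv_zero (r : ℚ) : ((kv r).1 : ℚ) + r * ((kv r).2 : ℚ) = 0 := by
  have h1 : (r.den : ℚ) ≠ 0 := by exact_mod_cast r.den_ne_zero
  simp only [kv]
  push_cast
  nth_rewrite 2 [← Rat.num_div_den r]
  rw [div_mul_cancel₀ _ h1]
  ring

lemma kv_ne {r : ℚ} (h : r ≠ -1) : (kv r).1 - (kv r).2 ≠ 0 := by
  intro h1
  simp only [kv] at h1
  apply h
  have h2 : r.num = -(r.den : ℤ) := by omega
  have h3 : (r.den : ℚ) ≠ 0 := by exact_mod_cast r.den_ne_zero
  rw [← Rat.num_div_den r, h2]
  push_cast
  rw [neg_div, div_self h3]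

theorem sharp0 (m : ℕ) (hm : 1 ≤ m) (S : Finset ℚ) : (-1 : ℚ) ∉ S → ∃ A : Finset (ℤ × ℤ),
    A.card ≤ m ^ (S.card + 1) ∧ (prj (-1) A).card = m ^ (S.card + 1) ∧
    (prjInf A).card ≤ m ^ S.card ∧ (∀ r ∈ S, (prj r A).card ≤ m ^ S.card) ∧
    ∀ z ∈ A, ∃ (e : ℕ) (f : ℚ → ℕ), z.1 = 2 ^ e + ∑ r ∈ S, (kv r).1 * 2 ^ (f r) ∧
      z.2 = ∑ r ∈ S, (kv r).2 * 2 ^ (f r) := by
  classical
  induction S using Finset.induction_on with
  | empty =>
    intro _
    refine ⟨(Finset.range m).image (fun j : ℕ => ((2 : ℤ) ^ j, (0 : ℤ))), ?_, ?_, ?_, ?_, ?_⟩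
    · simpa using Finset.card_image_le (s := Finset.range m)
        (f := (fun j : ℕ => ((2 : ℤ) ^ j, (0 : ℤ))))
    · rw [prj, Finset.image_image, Finset.card_image_of_injective]
      · simp
      · intro i j hij
        simp only [Function.comp, Int.cast_pow, Int.cast_ofNat, Int.cast_zero, mul_zero,
          add_zero] at hij
        exact pow_right_injective₀ (by norm_num) (by norm_num) hij
    · rw [prjInf, Finset.image_image, Finset.card_empty, pow_zero, Finset.card_le_one]
      intro x hx y hy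
      obtain ⟨_, _, rfl⟩ := Finset.mem_image.1 hx
      obtain ⟨_, _, rfl⟩ := Finset.mem_image.1 hy
      rfl
    · intro r hr
      exact absurd hr (Finset.notMem_empty r)
    · intro z hz
      obtain ⟨j, _, rfl⟩ := Finset.mem_image.1 hz
      exact ⟨j, fun _ => 0, by simp, by simp⟩
  | insert r0 S hr0 ih =>
    intro hS
    rw [Finset.mem_insert, not_or] at hS
    obtain ⟨A, h1, h2, h3, h4, h5⟩ := ih hS.2
    rw [Finset.card_insert_of_notMem hr0]
    set a : ℤ := (kv r0).1 - (kv r0).2 with ha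
    have ha0 : a ≠ 0 := kv_ne (fun h => hS.1 h.symm)
    have haq : (a : ℚ) ≠ 0 := by exact_mod_cast ha0
    -- the threshold
    obtain ⟨N, hN⟩ : ∃ N : ℕ, ∀ x ∈ prj (-1) A, 2 * |x| < 2 ^ N := by
      obtain ⟨B, hB⟩ : ∃ B : ℕ, ∀ x ∈ prj (-1) A, 2 * |x| ≤ B := by
        refine ⟨⌈∑ x ∈ prj (-1) A, 2 * |x|⌉₊, fun x hx => ?_⟩
        refine le_trans ?_ (Nat.le_ceil _)
        exact Finset.single_le_sum (f := fun x : ℚ => 2 * |x|) (fun y _ => by positivity) hx
      refine ⟨B, fun x hx => (hB x hx).trans_lt ?_⟩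
      exact_mod_cast Nat.lt_two_pow_self
    let g : (ℤ × ℤ) × ℕ → ℤ × ℤ := fun q => q.1 + ((2 : ℤ) ^ (N + q.2)) • kv r0
    let A' := (A ×ˢ Finset.range m).image g
    have hcard : A'.card ≤ A.card * m := by
      refine Finset.card_image_le.trans ?_
      rw [Finset.card_product, Finset.card_range]
    have hval : ∀ r : ℚ, ∀ q : (ℤ × ℤ) × ℕ, ((g q).1 : ℚ) + r * ((g q).2 : ℚ) =
        ((q.1.1 : ℚ) + r * (q.1.2 : ℚ)) + 2 ^ (N + q.2) * (((kv r0).1 : ℚ) + r * (kv r0).2) := by
      intro r q
      simp only [g, Prod.fst_add, Prod.snd_add, Prod.smul_fst, Prod.smul_snd, smul_eq_mul]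
      push_cast
      ring
    have hsub : ∀ r : ℚ, prj r A' ⊆ ((prj r A) ×ˢ Finset.range m).image
        (fun q : ℚ × ℕ => q.1 + 2 ^ (N + q.2) * (((kv r0).1 : ℚ) + r * (kv r0).2)) := by
      intro r x hx
      obtain ⟨z, hz, rfl⟩ := Finset.mem_image.1 hx
      obtain ⟨q, hq, rfl⟩ := Finset.mem_image.1 hz
      rw [Finset.mem_product] at hq
      refine Finset.mem_image.2 ⟨((q.1.1 : ℚ) + r * (q.1.2 : ℚ), q.2),
        Finset.mem_product.2 ⟨Finset.mem_image.2 ⟨q.1, hq.1, rfl⟩, hq.2⟩, ?_⟩
      exact (hval r q).symm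
    refine ⟨A', ?_, ?_, ?_, ?_, ?_⟩
    · calc A'.card ≤ A.card * m := hcard
        _ ≤ m ^ (S.card + 1) * m := Nat.mul_le_mul_right _ h1
        _ = _ := by ring
    · have e1 : prj (-1) A' = ((prj (-1) A) ×ˢ Finset.range m).image
          (fun q : ℚ × ℕ => q.1 + 2 ^ (N + q.2) * (a : ℚ)) := by
        have e2 : (((kv r0).1 : ℚ) + (-1) * (kv r0).2) = (a : ℚ) := by
          rw [ha]
          push_cast
          ring
        refine Finset.Subset.antisymm ?_ ?_
        · have := hsub (-1)
          rw [e2] at this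
          exact this
        · intro x hx
          obtain ⟨q, hq, rfl⟩ := Finset.mem_image.1 hx
          rw [Finset.mem_product] at hq
          obtain ⟨z, hz, hz2⟩ := Finset.mem_image.1 hq.1
          refine Finset.mem_image.2 ⟨g (z, q.2), Finset.mem_image.2 ⟨(z, q.2),
            Finset.mem_product.2 ⟨hz, hq.2⟩, rfl⟩, ?_⟩
          rw [hval, e2]
          rw [← hz2]
      rw [e1, Finset.card_image_of_injOn, Finset.card_product, h2, Finset.card_range]
      · ring
      · -- injectivity
        have key : ∀ x ∈ prj (-1) A, ∀ y ∈ prj (-1) A, ∀ i j : ℕ, i < j →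
            x + 2 ^ (N + i) * (a : ℚ) ≠ y + 2 ^ (N + j) * (a : ℚ) := by
          intro x hx y hy i j hij heq
          have h6 := hN x hx
          have h7 := hN y hy
          have h8 : x - y = (2 ^ (N + j) - 2 ^ (N + i)) * (a : ℚ) := by linear_combination heq
          have h9 : (1 : ℚ) ≤ |(a : ℚ)| := by
            have : (1 : ℤ) ≤ |a| := Int.one_le_abs ha0
            exact_mod_cast this
          have h10 : (2 : ℚ) ^ N ≤ 2 ^ (N + j) - 2 ^ (N + i) := by
            have h11 : (2 : ℚ) ^ (N + (i + 1)) ≤ 2 ^ (N + j) :=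
              pow_le_pow_right₀ (by norm_num) (by omega)
            have h12 : (2 : ℚ) ^ N ≤ 2 ^ (N + i) := pow_le_pow_right₀ (by norm_num) (by omega)
            have h13 : (2 : ℚ) ^ (N + (i + 1)) = 2 ^ (N + i) + 2 ^ (N + i) := by ring
            linarith
          have h14 : (2 : ℚ) ^ N ≤ |x - y| := by
            rw [h8, abs_mul, abs_of_nonneg (le_trans (by positivity) h10)]
            have h15 : (0 : ℚ) < 2 ^ N := by positivity
            nlinarith
          have h16 := abs_sub x y
          linarith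
        intro q hq q' hq' heq
        rw [Finset.mem_coe, Finset.mem_product] at hq hq'
        simp only at heq
        rcases lt_trichotomy q.2 q'.2 with hlt | he | hgt
        · exact absurd heq (key _ hq.1 _ hq'.1 _ _ hlt)
        · rw [he] at heq
          exact Prod.ext (by linarith) he
        · exact absurd heq.symm (key _ hq'.1 _ hq.1 _ _ hgt)
    · have e1 : prjInf A' ⊆ ((prjInf A) ×ˢ Finset.range m).image
          (fun q : ℚ × ℕ => q.1 + 2 ^ (N + q.2) * ((kv r0).2 : ℚ)) := by
        intro x hx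
        obtain ⟨z, hz, rfl⟩ := Finset.mem_image.1 hx
        obtain ⟨q, hq, rfl⟩ := Finset.mem_image.1 hz
        rw [Finset.mem_product] at hq
        refine Finset.mem_image.2 ⟨((q.1.2 : ℚ), q.2),
          Finset.mem_product.2 ⟨Finset.mem_image.2 ⟨q.1, hq.1, rfl⟩, hq.2⟩, ?_⟩
        simp only [g, Prod.snd_add, Prod.smul_snd, smul_eq_mul]
        push_cast
        ring
      refine (Finset.card_le_card e1).trans (Finset.card_image_le.trans ?_)
      rw [Finset.card_product, Finset.card_range, pow_succ]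
      exact Nat.mul_le_mul_right _ h3
    · intro r hr
      rcases Finset.mem_insert.1 hr with rfl | hr
      · refine le_trans ?_ h1
        refine le_trans (Finset.card_le_card (?_ : prj r A' ⊆ prj r A)) Finset.card_image_le
        intro x hx
        obtain ⟨z, hz, rfl⟩ := Finset.mem_image.1 hx
        obtain ⟨q, hq, rfl⟩ := Finset.mem_image.1 hz
        rw [Finset.mem_product] at hq
        rw [hval, kv_zero, mul_zero, add_zero]
        exact Finset.mem_image.2 ⟨q.1, hq.1, rfl⟩
      · refine (Finset.card_le_card (hsub r)).trans (Finset.card_image_le.trans ?_)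
        rw [Finset.card_product, Finset.card_range, pow_succ]
        exact Nat.mul_le_mul_right _ (h4 r hr)
    · intro z hz
      obtain ⟨q, hq, rfl⟩ := Finset.mem_image.1 hz
      rw [Finset.mem_product] at hq
      obtain ⟨e, f, h6, h7⟩ := h5 q.1 hq.1
      refine ⟨e, fun r => if r = r0 then N + q.2 else f r, ?_, ?_⟩
      · rw [Finset.sum_insert hr0]
        beta_reduce
        rw [if_pos rfl]
        simp only [g, Prod.fst_add, Prod.smul_fst, smul_eq_mul]
        rw [h6]
        have e1 : ∑ r ∈ S, (kv r).1 * 2 ^ (if r = r0 then N + q.2 else f r) =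
            ∑ r ∈ S, (kv r).1 * 2 ^ (f r) := Finset.sum_congr rfl fun r hr => by
          have hne : r ≠ r0 := fun h => hr0 (h ▸ hr)
          rw [if_neg hne]
        rw [e1]
        ring
      · rw [Finset.sum_insert hr0]
        beta_reduce
        rw [if_pos rfl]
        simp only [g, Prod.snd_add, Prod.smul_snd, smul_eq_mul]
        rw [h7]
        have e1 : ∑ r ∈ S, (kv r).2 * 2 ^ (if r = r0 then N + q.2 else f r) =
            ∑ r ∈ S, (kv r).2 * 2 ^ (f r) := Finset.sum_congr rfl fun r hr => by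
          have hne : r ≠ r0 := fun h => hr0 (h ▸ hr)
          rw [if_neg hne]
        rw [e1]
        ring

end Pool.Agent.TH539.MQ
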