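import Mathlib

set_option autoImplicit false

/-!
Sets whose images under several homomorphisms lie in sets of small doubling are contained in sets
of small doubling.
-/

open Finset
open scoped Pointwise

namespace Pool.Agent.TH539.StrProj

section Group

variable {H : Type*} [AddCommGroup H] [DecidableEq H]

/-- `2 D - 2 D` -/
def two (D : Finset H) : Finset H := (D + D) - (D + D)

/-- `4 D - 4 D` -/
def four (D : Finset H) : Finset H := ((D + D) + (D + D)) - ((D + D) + (D + D))

theorem pr {D : Finset H} (hD : D.Nonempty) {K : ℝ} (h : ((D + D).card : ℝ) ≤ K * D.card)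
    (m n : ℕ) : (((nsmulRec m D - nsmulRec n D : Finset H)).card : ℝ) ≤ K ^ (m + n) * D.card := by
  have h0 := Finset.pluennecke_ruzsa_inequality_nsmul_sub_nsmul_add hD D m n
  have hc : (0 : ℝ) < D.card := by exact_mod_cast hD.card_pos
  have h1 : (((nsmulRec m D - nsmulRec n D : Finset H)).card : ℝ) ≤
      (((D + D).card : ℝ) / D.card) ^ (m + n) * D.card := by
    have h2 : (((nsmulRec m D - nsmulRec n D : Finset H)).card : ℚ≥0) ≤
      (((D + D).card : ℚ≥0) / D.card) ^ (m + n) * D.card := h0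
    have h3 := (NNRat.cast_le (K := ℝ)).2 h2
    push_cast at h3
    exact h3
  refine h1.trans ?_
  apply mul_le_mul_of_nonneg_right _ hc.le
  apply pow_le_pow_left₀ (by positivity)
  rwa [div_le_iff₀ hc]

theorem rec_succ (D : Finset H) (m : ℕ) : nsmulRec (m + 1) D = nsmulRec m D + D := rfl

theorem rec_zero (D : Finset H) : nsmulRec 0 D = ({0} : Finset H) := rfl

theorem rec_one (D : Finset H) : nsmulRec 1 D = D := by
  rw [show (1 : ℕ) = 0 + 1 from rfl, rec_succ, rec_zero]
  exact zero_add D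

theorem rec_two (D : Finset H) : nsmulRec 2 D = D + D := by
  rw [show (2 : ℕ) = 1 + 1 from rfl, rec_succ, rec_one]

theorem rec_four (D : Finset H) : nsmulRec 4 D = (D + D) + (D + D) := by
  rw [show (4 : ℕ) = 3 + 1 from rfl, rec_succ, show (3 : ℕ) = 2 + 1 from rfl, rec_succ, rec_two]
  abel

theorem rec_five (D : Finset H) : nsmulRec 5 D = ((D + D) + (D + D)) + D := by
  rw [show (5 : ℕ) = 4 + 1 from rfl, rec_succ, rec_four]

theorem card_two {D : Finset H} (hD : D.Nonempty) {K : ℝ}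
    (h : ((D + D).card : ℝ) ≤ K * D.card) : ((two D).card : ℝ) ≤ K ^ 4 * D.card := by
  have := pr hD h 2 2
  rw [rec_two] at this
  exact this

theorem cover {D : Finset H} (hD : D.Nonempty) {K : ℝ}
    (h : ((D + D).card : ℝ) ≤ K * D.card) :
    ∃ F : Finset H, ((F.card : ℕ) : ℝ) ≤ K ^ 9 ∧ ∀ x ∈ four D, ∃ f ∈ F, x - f ∈ D - D := by
  have h1 := pr hD h 5 4
  rw [rec_five, rec_four] at h1
  have h2 : (((four D + D : Finset H)).card : ℝ) ≤ K ^ 9 * D.card := by
    refine le_trans ?_ h1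
    have : four D + D = ((D + D) + (D + D)) + D - ((D + D) + (D + D)) := by
      unfold four; rw [sub_add_eq_add_sub]
    rw [this]
  obtain ⟨F, -, hF, hsub⟩ := ruzsa_covering_add hD h2
  refine ⟨F, hF, fun x hx => ?_⟩
  obtain ⟨f, hf, y, hy, hfy⟩ := Finset.mem_add.1 (hsub hx)
  exact ⟨f, hf, by rw [← hfy, add_sub_cancel_left]; exact hy⟩

end Group

/-- The common preimage of sets of small doubling has small doubling. -/
theorem inter {G H ι : Type*} [AddCommGroup G] [DecidableEq G] [AddCommGroup H] [DecidableEq H]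
    [Fintype ι] [DecidableEq ι] (p : ι → G →+ H) (D : ι → Finset H) (hD : ∀ i, (D i).Nonempty)
    {K : ℝ} (hK : ∀ i, ((D i + D i).card : ℝ) ≤ K * (D i).card) (B2 B4 : Finset G)
    (h2 : ∀ v, v ∈ B2 ↔ ∀ i, p i v ∈ two (D i)) (h4 : ∀ v, v ∈ B4 ↔ ∀ i, p i v ∈ four (D i)) :
    ((B2 + B2).card : ℝ) ≤ (K ^ 9) ^ Fintype.card ι * B2.card := by
  classical
  choose F hF hcov using fun i => cover (hD i) (hK i)
  have hch : ∀ v : G, ∃ t : ι → H, v ∈ B4 → ∀ i, t i ∈ F i ∧ p i v - t i ∈ D i - D i := by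
    intro v
    by_cases hv : v ∈ B4
    · choose t ht1 ht2 using fun i => hcov i (p i v) ((h4 v).1 hv i)
      exact ⟨t, fun _ i => ⟨ht1 i, ht2 i⟩⟩
    · exact ⟨fun _ => 0, fun h => absurd h hv⟩
  choose φ hφ using hch
  have hrep : ∀ t : ι → H, ∃ g : G, (∃ v ∈ B4, φ v = t) → g ∈ B4 ∧ φ g = t := by
    intro t
    by_cases h : ∃ v ∈ B4, φ v = t
    · obtain ⟨v, hv, hvt⟩ := h
      exact ⟨v, fun _ => ⟨hv, hvt⟩⟩
    · exact ⟨0, fun h' => absurd h' h⟩
  choose rep hrep using hrep
  have hsub : B2 + B2 ⊆ B4 := by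
    intro v hv
    obtain ⟨a, ha, b, hb, rfl⟩ := Finset.mem_add.1 hv
    rw [h4]
    intro i
    have h5 := (h2 a).1 ha i
    have h6 := (h2 b).1 hb i
    obtain ⟨x, hx, y, hy, hxy⟩ := Finset.mem_sub.1 h5
    obtain ⟨x', hx', y', hy', hxy'⟩ := Finset.mem_sub.1 h6
    refine Finset.mem_sub.2 ⟨x + x', Finset.add_mem_add hx hx', y + y',
      Finset.add_mem_add hy hy', ?_⟩
    rw [map_add, ← hxy, ← hxy']
    abel
  have hcard : B4.card ≤ (Fintype.piFinset F).card * B2.card := by
    rw [← Finset.card_product]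
    apply Finset.card_le_card_of_injOn (fun v => (φ v, v - rep (φ v)))
    · intro v hv
      have hv' : v ∈ B4 := hv
      obtain ⟨hr1, hr2⟩ := hrep (φ v) ⟨v, hv', rfl⟩
      have h7 := hφ v hv'
      have h8 := hφ _ hr1
      rw [Finset.mem_coe, Finset.mem_product]
      refine ⟨Fintype.mem_piFinset.2 (fun i => (h7 i).1), ?_⟩
      rw [h2]
      intro i
      obtain ⟨x, hx, y, hy, hxy⟩ := Finset.mem_sub.1 (h7 i).2
      obtain ⟨x', hx', y', hy', hxy'⟩ := Finset.mem_sub.1 (h8 i).2
      refine Finset.mem_sub.2 ⟨x + y', Finset.add_mem_add hx hy', y + x',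
        Finset.add_mem_add hy hx', ?_⟩
      rw [map_sub]
      have h9 : p i v - p i (rep (φ v)) = (x - y) - (x' - y') := by
        rw [hxy, hxy', hr2]; abel
      rw [h9]; abel
    · intro v hv w hw h
      simp only [Prod.mk.injEq] at h
      obtain ⟨h9, h10⟩ := h
      rw [h9] at h10
      exact sub_left_injective h10
  have hprod : (((Fintype.piFinset F).card : ℕ) : ℝ) ≤ (K ^ 9) ^ Fintype.card ι := by
    rw [Fintype.card_piFinset]
    push_cast
    calc ∏ i, ((F i).card : ℝ) ≤ ∏ _i : ι, K ^ 9 :=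
          Finset.prod_le_prod (fun _ _ => Nat.cast_nonneg _) (fun i _ => hF i)
      _ = (K ^ 9) ^ Fintype.card ι := by rw [Finset.prod_const, Finset.card_univ]
  calc ((B2 + B2).card : ℝ) ≤ (B4.card : ℝ) := by exact_mod_cast Finset.card_le_card hsub
    _ ≤ ((Fintype.piFinset F).card : ℝ) * B2.card := by exact_mod_cast hcard
    _ ≤ _ := mul_le_mul_of_nonneg_right hprod (Nat.cast_nonneg _)

/-- The common preimage as a finite set. -/
theorem exists_preimage {G H ι : Type*} [AddCommGroup G] [AddCommGroup H] [DecidableEq H]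
    [Fintype ι] [DecidableEq ι] (p : ι → G →+ H)
    (hp : Function.Injective (fun v : G => fun i => p i v)) (X : ι → Finset H) :
    ∃ B : Finset G, ∀ v, v ∈ B ↔ ∀ i, p i v ∈ X i := by
  have hfin : Set.Finite ((fun v : G => fun i => p i v) ⁻¹' (Fintype.piFinset X : Set (ι → H))) :=
    Set.Finite.preimage hp.injOn (Finset.finite_toSet _)
  refine ⟨hfin.toFinset, fun v => ?_⟩
  rw [Set.Finite.mem_toFinset, Set.mem_preimage, Finset.mem_coe, Fintype.mem_piFinset]

end Pool.Agent.TH539.StrProj
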