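import Mathlib
import Pool.Agent.TH539.StrProj
import Pool.Agent.H217R3.AK.Final
import Pool.Agent.H217R3.AK.Sharp

set_option autoImplicit false

/-! Arithmetic Kakeya for sets with structured projections. -/

open Finset
open scoped Pointwise

namespace Pool.Agent.TH539.StrProj

open Pool.Agent.H217R3.AK (proj projInf big part1)

/-- `P` is covered by at most `L` sets `D` with `|D + D| ≤ K |D|` and `|D| ≤ M`. -/
def Structured (K L M : ℝ) (P : Finset ℚ) : Prop :=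
  ∃ 𝒟 : Finset (Finset ℚ), (𝒟.card : ℝ) ≤ L ∧
    (∀ D ∈ 𝒟, ((D + D).card : ℝ) ≤ K * D.card ∧ (D.card : ℝ) ≤ M) ∧
    ∀ x ∈ P, ∃ D ∈ 𝒟, x ∈ D

/-- the projections as homomorphisms -/
def ph (r : ℚ) : ℤ × ℤ →+ ℚ where
  toFun v := (v.1 : ℚ) + r * (v.2 : ℚ)
  map_zero' := by simp
  map_add' u v := by push_cast [Prod.fst_add, Prod.snd_add]; ring

/-- the projection to the second coordinate -/
def pinf : ℤ × ℤ →+ ℚ where
  toFun v := (v.2 : ℚ)
  map_zero' := by simp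
  map_add' u v := by push_cast [Prod.snd_add]; ring

/-- all projections -/
def pp (S : Finset ℚ) : Option S → (ℤ × ℤ →+ ℚ)
  | none => pinf
  | some r => ph r

theorem pp_inj {S : Finset ℚ} (hS : S.Nonempty) :
    Function.Injective (fun v : ℤ × ℤ => fun i => pp S i v) := by
  obtain ⟨r, hr⟩ := hS
  intro u v h
  have h1 : pp S none u = pp S none v := congrFun h none
  have h2 : pp S (some ⟨r, hr⟩) u = pp S (some ⟨r, hr⟩) v := congrFun h (some ⟨r, hr⟩)
  simp only [pp, ph, pinf, AddMonoidHom.coe_mk, ZeroHom.coe_mk] at h1 h2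
  have h3 : u.2 = v.2 := by exact_mod_cast h1
  rw [h3] at h2
  have h4 : (u.1 : ℚ) = v.1 := by linarith
  have h5 : u.1 = v.1 := by exact_mod_cast h4
  exact Prod.ext h5 h3

theorem one_le_of {D : Finset ℚ} (hD : D.Nonempty) {K : ℝ}
    (h : ((D + D).card : ℝ) ≤ K * D.card) : 1 ≤ K := by
  have h1 : D.card ≤ (D + D).card := Finset.card_le_card_add_right hD
  have h2 : (D.card : ℝ) ≤ ((D + D).card : ℝ) := by exact_mod_cast h1
  have h3 : (0 : ℝ) < D.card := by exact_mod_cast hD.card_pos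
  have h4 : 1 * (D.card : ℝ) ≤ K * D.card := by linarith
  exact le_of_mul_le_mul_right h4 h3

theorem cell (S : Finset ℚ) (hS : (-1 : ℚ) ∉ S) (hne : S.Nonempty) :
    ∃ C : ℕ, ∀ (A : Finset (ℤ × ℤ)), A.Nonempty → ∀ (K M : ℝ) (D : Option S → Finset ℚ),
      (∀ i, ((D i + D i).card : ℝ) ≤ K * (D i).card) → (∀ i, ((D i).card : ℝ) ≤ M) →
      (∀ v ∈ A, ∀ i, pp S i v ∈ D i) →
      ((proj (-1) A).card : ℝ) ^ S.card ≤ K ^ C * M ^ (S.card + 1) := by
  obtain ⟨C₀, hC₀⟩ := part1 S hS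
  refine ⟨9 * (S.card + 1) * C₀ + 4 * (S.card + 1), ?_⟩
  intro A hA K M D hK hM hAD
  obtain ⟨a0, ha0⟩ := hA
  have hDne : ∀ i, (D i).Nonempty := fun i => ⟨_, hAD a0 ha0 i⟩
  have hK1 : 1 ≤ K := one_le_of (hDne none) (hK none)
  have hK0 : 0 ≤ K := by linarith
  have hM0 : 0 ≤ M := le_trans (Nat.cast_nonneg _) (hM none)
  obtain ⟨B2, hB2⟩ := exists_preimage (pp S) (pp_inj hne) (fun i => two (D i))
  obtain ⟨B4, hB4⟩ := exists_preimage (pp S) (pp_inj hne) (fun i => four (D i))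
  have hdouble := inter (pp S) D hDne hK B2 B4 hB2 hB4
  have hcardι : Fintype.card (Option S) = S.card + 1 := by
    rw [Fintype.card_option, Fintype.card_coe]
  rw [hcardι, ← pow_mul] at hdouble
  have hsubB : ∀ v ∈ A, v - a0 ∈ B2 := by
    intro v hv
    rw [hB2]
    intro i
    have h1 := hAD v hv i
    have h2 := hAD a0 ha0 i
    refine Finset.mem_sub.2 ⟨pp S i v + pp S i v, Finset.add_mem_add h1 h1,
      pp S i a0 + pp S i v, Finset.add_mem_add h2 h1, ?_⟩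
    rw [map_sub]; abel
  have hB2ne : B2.Nonempty := ⟨_, hsubB a0 ha0⟩
  have hmain := hC₀ B2 hB2ne _ hdouble
  have hle : ((proj (-1) A).card : ℝ) ≤ ((proj (-1) B2).card : ℝ) := by
    have : (proj (-1) A).card ≤ (proj (-1) B2).card := by
      apply Finset.card_le_card_of_injOn
        (fun t => t - ((a0.1 : ℚ) + (-1) * (a0.2 : ℚ)))
      · intro t ht
        rw [Finset.mem_coe] at ht ⊢
        obtain ⟨v, hv, rfl⟩ := Finset.mem_image.1 ht
        refine Finset.mem_image.2 ⟨v - a0, hsubB v hv, ?_⟩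
        push_cast [Prod.fst_sub, Prod.snd_sub]
        ring
      · intro s _ t _ h
        exact sub_left_injective h
    exact_mod_cast this
  have htwo : ∀ i, ((two (D i)).card : ℝ) ≤ K ^ 4 * M := fun i =>
    (card_two (hDne i) (hK i)).trans (mul_le_mul_of_nonneg_left (hM i) (by positivity))
  have hinf : ((projInf B2).card : ℝ) ≤ K ^ 4 * M := by
    refine le_trans ?_ (htwo none)
    have : projInf B2 ⊆ two (D none) := by
      intro t ht
      obtain ⟨v, hv, rfl⟩ := Finset.mem_image.1 ht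
      exact (hB2 v).1 hv none
    exact_mod_cast Finset.card_le_card this
  have hr : ∀ r ∈ S, ((proj r B2).card : ℝ) ≤ K ^ 4 * M := by
    intro r hr
    refine le_trans ?_ (htwo (some ⟨r, hr⟩))
    have : proj r B2 ⊆ two (D (some ⟨r, hr⟩)) := by
      intro t ht
      obtain ⟨v, hv, rfl⟩ := Finset.mem_image.1 ht
      exact (hB2 v).1 hv (some ⟨r, hr⟩)
    exact_mod_cast Finset.card_le_card this
  have hprod : ∏ r ∈ S, ((proj r B2).card : ℝ) ≤ (K ^ 4 * M) ^ S.card := by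
    calc ∏ r ∈ S, ((proj r B2).card : ℝ) ≤ ∏ _r ∈ S, (K ^ 4 * M) :=
          Finset.prod_le_prod (fun _ _ => Nat.cast_nonneg _) hr
      _ = _ := Finset.prod_const _
  calc ((proj (-1) A).card : ℝ) ^ S.card ≤ ((proj (-1) B2).card : ℝ) ^ S.card :=
        pow_le_pow_left₀ (Nat.cast_nonneg _) hle _
    _ ≤ (K ^ (9 * (S.card + 1))) ^ C₀ * ((projInf B2).card * ∏ r ∈ S, ((proj r B2).card : ℝ)) :=
        hmain
    _ ≤ (K ^ (9 * (S.card + 1))) ^ C₀ * ((K ^ 4 * M) * (K ^ 4 * M) ^ S.card) := by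
        apply mul_le_mul_of_nonneg_left _ (by positivity)
        exact mul_le_mul hinf hprod (Finset.prod_nonneg fun _ _ => Nat.cast_nonneg _)
          (by positivity)
    _ = K ^ (9 * (S.card + 1) * C₀ + 4 * (S.card + 1)) * M ^ (S.card + 1) := by
        rw [pow_add, pow_mul, pow_mul K 4, mul_pow (K ^ 4) M S.card, pow_succ, pow_succ M]
        ring

theorem Structured.one_le {K L M : ℝ} {P : Finset ℚ} (hP : P.Nonempty)
    (h : Structured K L M P) : 1 ≤ K ∧ 1 ≤ L ∧ 1 ≤ M := by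
  obtain ⟨𝒟, h1, h2, h3⟩ := h
  obtain ⟨x, hx⟩ := hP
  obtain ⟨D, hD, hxD⟩ := h3 x hx
  obtain ⟨h4, h5⟩ := h2 D hD
  have hDne : D.Nonempty := ⟨x, hxD⟩
  refine ⟨one_le_of hDne h4, le_trans ?_ h1, le_trans ?_ h5⟩
  · exact_mod_cast (Finset.card_pos.2 ⟨D, hD⟩)
  · exact_mod_cast hDne.card_pos

theorem main1 (S : Finset ℚ) (hS : (-1 : ℚ) ∉ S) :
    ∃ C : ℕ, ∀ (A : Finset (ℤ × ℤ)), A.Nonempty → ∀ (K L M : ℝ),
      Structured K L M (projInf A) → (∀ r ∈ S, Structured K L M (proj r A)) →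
      ((proj (-1) A).card : ℝ) ^ S.card ≤ (K * L) ^ C * M ^ (S.card + 1) := by
  classical
  rcases S.eq_empty_or_nonempty with rfl | hne
  · refine ⟨0, fun A hA K L M h1 _ => ?_⟩
    have h2 := (h1.one_le (hA.image _)).2.2
    simpa using h2
  obtain ⟨C₁, hC₁⟩ := cell S hS hne
  refine ⟨C₁ + (S.card + 1) * S.card, ?_⟩
  intro A hA K L M hinf hr
  obtain ⟨hK1, hL1, hM1⟩ := hinf.one_le (hA.image _)
  have hall : ∀ i : Option S, ∃ 𝒟 : Finset (Finset ℚ), (𝒟.card : ℝ) ≤ L ∧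
      (∀ D ∈ 𝒟, ((D + D).card : ℝ) ≤ K * D.card ∧ (D.card : ℝ) ≤ M) ∧
      ∀ v ∈ A, ∃ D ∈ 𝒟, pp S i v ∈ D := by
    intro i
    cases i with
    | none =>
      obtain ⟨𝒟, h1, h2, h3⟩ := hinf
      exact ⟨𝒟, h1, h2, fun v hv => h3 _ (Finset.mem_image.2 ⟨v, hv, rfl⟩)⟩
    | some r =>
      obtain ⟨𝒟, h1, h2, h3⟩ := hr r r.2
      exact ⟨𝒟, h1, h2, fun v hv => h3 _ (Finset.mem_image.2 ⟨v, hv, rfl⟩)⟩
  choose 𝒟 h1 h2 h3 using hall
  set T : Finset (Option S → Finset ℚ) := Fintype.piFinset 𝒟 with hT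
  set AD : (Option S → Finset ℚ) → Finset (ℤ × ℤ) := fun D => A.filter (fun v => ∀ i, pp S i v ∈ D i)
    with hAD
  have hcov : ∀ v ∈ A, ∃ D ∈ T, v ∈ AD D := by
    intro v hv
    choose D hD1 hD2 using fun i => h3 i v hv
    exact ⟨D, Fintype.mem_piFinset.2 hD1, Finset.mem_filter.2 ⟨hv, hD2⟩⟩
  have hTne : T.Nonempty := by
    obtain ⟨v, hv⟩ := hA
    obtain ⟨D, hD, _⟩ := hcov v hv
    exact ⟨D, hD⟩
  obtain ⟨D₀, hD₀, hmax⟩ := Finset.exists_max_image T (fun D => (proj (-1) (AD D)).card) hTne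
  have hunion : (proj (-1) A).card ≤ T.card * (proj (-1) (AD D₀)).card := by
    have hsub : proj (-1) A ⊆ T.biUnion (fun D => proj (-1) (AD D)) := by
      intro t ht
      obtain ⟨v, hv, rfl⟩ := Finset.mem_image.1 ht
      obtain ⟨D, hD, hvD⟩ := hcov v hv
      exact Finset.mem_biUnion.2 ⟨D, hD, Finset.mem_image.2 ⟨v, hvD, rfl⟩⟩
    calc (proj (-1) A).card ≤ _ := Finset.card_le_card hsub
      _ ≤ ∑ D ∈ T, (proj (-1) (AD D)).card := Finset.card_biUnion_le
      _ ≤ ∑ _D ∈ T, (proj (-1) (AD D₀)).card := Finset.sum_le_sum hmax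
      _ = _ := by rw [Finset.sum_const, smul_eq_mul]
  have hTcard : (T.card : ℝ) ≤ L ^ (S.card + 1) := by
    rw [hT, Fintype.card_piFinset]
    push_cast
    calc ∏ i, ((𝒟 i).card : ℝ) ≤ ∏ _i : Option S, L :=
          Finset.prod_le_prod (fun _ _ => Nat.cast_nonneg _) (fun i _ => h1 i)
      _ = L ^ (S.card + 1) := by
        rw [Finset.prod_const, Finset.card_univ, Fintype.card_option, Fintype.card_coe]
  have hcell : ((proj (-1) (AD D₀)).card : ℝ) ^ S.card ≤ K ^ C₁ * M ^ (S.card + 1) := by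
    rcases (AD D₀).eq_empty_or_nonempty with he | he
    · have h0 : (proj (-1) (AD D₀)).card = 0 := by
        rw [he]; rfl
      rw [h0, Nat.cast_zero, zero_pow (Finset.card_pos.2 hne).ne']
      positivity
    · refine hC₁ (AD D₀) he K M D₀ (fun i => ?_) (fun i => ?_) (fun v hv i => ?_)
      · exact (h2 i _ (Fintype.mem_piFinset.1 hD₀ i)).1
      · exact (h2 i _ (Fintype.mem_piFinset.1 hD₀ i)).2
      · exact (Finset.mem_filter.1 hv).2 i
  have hL0 : 0 ≤ L := by linarith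
  have hK0 : 0 ≤ K := by linarith
  have hM0 : 0 ≤ M := by linarith
  calc ((proj (-1) A).card : ℝ) ^ S.card
      ≤ ((T.card : ℝ) * ((proj (-1) (AD D₀)).card : ℝ)) ^ S.card := by
        apply pow_le_pow_left₀ (Nat.cast_nonneg _)
        exact_mod_cast hunion
    _ = (T.card : ℝ) ^ S.card * ((proj (-1) (AD D₀)).card : ℝ) ^ S.card := mul_pow _ _ _
    _ ≤ (L ^ (S.card + 1)) ^ S.card * (K ^ C₁ * M ^ (S.card + 1)) := by
        apply mul_le_mul _ hcell (by positivity) (by positivity)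
        exact pow_le_pow_left₀ (Nat.cast_nonneg _) hTcard _
    _ = (K ^ C₁ * L ^ ((S.card + 1) * S.card)) * M ^ (S.card + 1) := by
        rw [← pow_mul]; ring
    _ ≤ (K ^ (C₁ + (S.card + 1) * S.card) * L ^ (C₁ + (S.card + 1) * S.card)) *
          M ^ (S.card + 1) := by
        apply mul_le_mul_of_nonneg_right _ (by positivity)
        apply mul_le_mul (pow_le_pow_right₀ hK1 (by omega)) (pow_le_pow_right₀ hL1 (by omega))
          (by positivity) (by positivity)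
    _ = _ := by rw [mul_pow]

theorem main2 (ε : ℝ) (hε : 0 < ε) (S : Finset ℚ) (hS : (-1 : ℚ) ∉ S) (hSε : 1 / ε < S.card) :
    ∃ δ : ℝ, 0 < δ ∧ ∀ A : Finset (ℤ × ℤ),
      Structured ((big S A : ℝ) ^ δ) ((big S A : ℝ) ^ δ) ((big S A : ℝ) ^ (1 + δ)) (projInf A) →
      (∀ r ∈ S, Structured ((big S A : ℝ) ^ δ) ((big S A : ℝ) ^ δ)
        ((big S A : ℝ) ^ (1 + δ)) (proj r A)) →
      ((proj (-1) A).card : ℝ) ≤ (big S A : ℝ) ^ (1 + ε) := by
  obtain ⟨C, hC⟩ := main1 S hS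
  have hn0 : (0 : ℝ) < S.card := lt_trans (by positivity) hSε
  have hgap : 0 < ε * S.card - 1 := by
    rw [div_lt_iff₀ hε] at hSε
    linarith
  set n : ℕ := S.card with hn
  set δ : ℝ := (ε * n - 1) / (2 * C + n + 1) with hδ
  have hden : (0 : ℝ) < 2 * C + n + 1 := by positivity
  have hδ0 : 0 < δ := div_pos hgap hden
  refine ⟨δ, hδ0, fun A hinf hr => ?_⟩
  rcases A.eq_empty_or_nonempty with rfl | hA
  · have : (proj (-1) (∅ : Finset (ℤ × ℤ))).card = 0 := rfl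
    rw [this, Nat.cast_zero]
    positivity
  have hm1 : (1 : ℝ) ≤ (big S A : ℝ) := by
    exact_mod_cast Pool.Agent.H217R3.AK.big_pos hA
  set m : ℝ := (big S A : ℝ) with hm
  have hm0 : (0 : ℝ) < m := by linarith
  have h := hC A hA _ _ _ hinf hr
  have hrw : (m ^ δ * m ^ δ) ^ C * (m ^ (1 + δ)) ^ (n + 1) = m ^ ((1 + ε) * n) := by
    rw [← Real.rpow_add hm0, ← Real.rpow_natCast (m ^ (δ + δ)) C, ← Real.rpow_mul hm0.le,
      ← Real.rpow_natCast (m ^ (1 + δ)) (n + 1), ← Real.rpow_mul hm0.le, ← Real.rpow_add hm0]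
    congr 1
    push_cast
    have : δ * (2 * C + n + 1) = ε * n - 1 := by
      rw [hδ]; field_simp
    linear_combination this
  rw [hrw] at h
  have hx : (0 : ℝ) ≤ ((proj (-1) A).card : ℝ) := Nat.cast_nonneg _
  have h2 : ((proj (-1) A).card : ℝ) ^ n ≤ (m ^ (1 + ε)) ^ n := by
    rw [← Real.rpow_natCast (m ^ (1 + ε)) n, ← Real.rpow_mul hm0.le]
    exact h
  have hn' : n ≠ 0 := by
    intro h0
    rw [h0] at hn0
    simp at hn0
  exact (pow_le_pow_iff_left₀ hx (by positivity) hn').1 h2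

end Pool.Agent.TH539.StrProj
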