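import Mathlib
import Pool.Agent.TH539.StrProjMain

set_option autoImplicit false

/-! Sharpness: projections of generalised progressions have small doubling. -/

open Finset
open scoped Pointwise

namespace Pool.Agent.TH539.StrProj

open Pool.Agent.H217R3.AK

theorem sharp2 {n : ℕ} (e : Fin (n + 1) → ℤ × ℤ) (hpsi : ∀ i, psi (e i) ≠ 0) (m : ℕ) (hm : 1 ≤ m) :
    ∃ A X : Finset (ℤ × ℤ), A.Nonempty ∧ X.card ≤ 2 ^ (n + 1) ∧ A + A ⊆ A + X ∧
      (A.image psi).card = m ^ (n + 1) ∧
      ∀ j, (A.image (det (e j))).card ≤ m ^ n := by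
  classical
  set f : (Fin (n + 1) → Fin m) → ℤ × ℤ := fun t => gap e m (fun i => (t i : ℕ)) with hf
  have hD : ∏ l, psi (e l) ≠ 0 := Finset.prod_ne_zero_iff.2 fun l _ => hpsi l
  have hinj : Function.Injective (fun t => psi (f t)) := by
    intro t s h
    simp only [hf] at h
    rw [psi_gap, psi_gap] at h
    have h1 := mul_right_cancel₀ hD h
    have h2 : (∑ i, (t i : ℕ) * m ^ (i : ℕ)) = ∑ i, (s i : ℕ) * m ^ (i : ℕ) := by exact_mod_cast h1
    have h3 : finFunctionFinEquiv t = finFunctionFinEquiv s := by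
      apply Fin.ext
      rw [finFunctionFinEquiv_apply, finFunctionFinEquiv_apply]
      exact h2
    exact finFunctionFinEquiv.injective h3
  set X : Finset (ℤ × ℤ) := (univ : Finset (Fin (n + 1) → Fin 2)).image
    (fun ε => gap e m (fun i => m * (ε i : ℕ))) with hX
  refine ⟨univ.image f, X, ?_, ?_, ?_, ?_, ?_⟩
  · exact ⟨f (fun _ => ⟨0, hm⟩), mem_image.2 ⟨_, mem_univ _, rfl⟩⟩
  · calc X.card ≤ (univ : Finset (Fin (n + 1) → Fin 2)).card := Finset.card_image_le
      _ = 2 ^ (n + 1) := by
        rw [Finset.card_univ, Fintype.card_fun, Fintype.card_fin, Fintype.card_fin]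
  · intro z hz
    obtain ⟨u, hu, v, hv, rfl⟩ := Finset.mem_add.1 hz
    obtain ⟨t, _, rfl⟩ := mem_image.1 hu
    obtain ⟨s, _, rfl⟩ := mem_image.1 hv
    have hlt : ∀ i, ((t i : ℕ) + (s i : ℕ)) % m < m := fun i => Nat.mod_lt _ hm
    have hdiv : ∀ i, ((t i : ℕ) + (s i : ℕ)) / m < 2 := by
      intro i
      rw [Nat.div_lt_iff_lt_mul hm]
      have h1 := (t i).2
      have h2 := (s i).2
      omega
    refine Finset.mem_add.2 ⟨f (fun i => ⟨((t i : ℕ) + (s i : ℕ)) % m, hlt i⟩),
      mem_image.2 ⟨_, mem_univ _, rfl⟩,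
      gap e m (fun i => m * (((t i : ℕ) + (s i : ℕ)) / m)),
      mem_image.2 ⟨fun i => ⟨((t i : ℕ) + (s i : ℕ)) / m, hdiv i⟩, mem_univ _, rfl⟩, ?_⟩
    simp only [hf]
    rw [gap_add, gap_add]
    congr 1
    funext i
    exact Nat.mod_add_div _ _
  · rw [Finset.image_image]
    have : Function.Injective (psi ∘ f) := hinj
    rw [Finset.card_image_of_injective _ this, Finset.card_univ, Fintype.card_fun, Fintype.card_fin,
      Fintype.card_fin]
  · intro j
    set z0 : Fin m := ⟨0, hm⟩ with hz0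
    have hsub : (univ.image f).image (det (e j)) ⊆
        (univ : Finset (Fin n → Fin m)).image (fun t' => det (e j)
          (f (Fin.insertNth (α := fun _ => Fin m) j z0 t'))) := by
      intro z hz
      rw [Finset.image_image] at hz
      obtain ⟨t, _, rfl⟩ := mem_image.1 hz
      refine mem_image.2 ⟨fun i => t (j.succAbove i), mem_univ _, ?_⟩
      simp only [hf, Function.comp]
      apply det_gap
      intro i hi
      obtain ⟨k, rfl⟩ := Fin.exists_succAbove_eq hi
      rw [Fin.insertNth_apply_succAbove]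
    calc _ ≤ _ := Finset.card_le_card hsub
      _ ≤ (univ : Finset (Fin n → Fin m)).card := Finset.card_image_le
      _ = m ^ n := by
        rw [Finset.card_univ, Fintype.card_fun, Fintype.card_fin, Fintype.card_fin]

theorem double_of {A X : Finset (ℤ × ℤ)} (h : A + A ⊆ A + X) {N : ℕ} (hX : X.card ≤ N)
    (p : ℤ × ℤ →+ ℚ) : (A.image p + A.image p).card ≤ N * (A.image p).card := by
  have h1 : A.image p + A.image p ⊆ A.image p + X.image p := by
    rw [← Finset.image_add p, ← Finset.image_add p]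
    exact Finset.image_subset_image h
  calc (A.image p + A.image p).card ≤ (A.image p + X.image p).card := Finset.card_le_card h1
    _ ≤ (A.image p).card * (X.image p).card := Finset.card_add_le
    _ ≤ (A.image p).card * N := Nat.mul_le_mul_left _ (Finset.card_image_le.trans hX)
    _ = _ := Nat.mul_comm _ _

theorem main3 (S : Finset ℚ) (hS : (-1 : ℚ) ∉ S) (m : ℕ) (hm : 1 ≤ m) :
    ∃ A : Finset (ℤ × ℤ), A.Nonempty ∧ (proj (-1) A).card = m ^ (S.card + 1) ∧
      (projInf A).card ≤ m ^ S.card ∧ (∀ r ∈ S, (proj r A).card ≤ m ^ S.card) ∧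
      (projInf A + projInf A).card ≤ 2 ^ (S.card + 1) * (projInf A).card ∧
      ∀ r ∈ S, (proj r A + proj r A).card ≤ 2 ^ (S.card + 1) * (proj r A).card := by
  classical
  set n := S.card with hn
  set g : Fin n ≃ S := (S.equivFin).symm with hg
  set e : Fin (n + 1) → ℤ × ℤ := Fin.cons (1, 0) (fun i => dir (g i : ℚ)) with he
  have he0 : e 0 = (1, 0) := rfl
  have hes : ∀ i : Fin n, e i.succ = dir (g i : ℚ) := fun i => rfl
  have hpsi : ∀ i, psi (e i) ≠ 0 := by
    intro i
    refine Fin.cases ?_ (fun i => ?_) i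
    · rw [he0]; simp [psi]
    · rw [hes]
      intro h
      simp only [psi, dir] at h
      apply hS
      have h1 : (g i : ℚ) = -1 := by
        rw [← Rat.num_div_den (g i : ℚ)]
        have h2 : ((g i : ℚ).den : ℚ) ≠ 0 := by
          exact_mod_cast (g i : ℚ).den_nz
        rw [div_eq_iff h2]
        have h3 : (g i : ℚ).num = -((g i : ℚ).den : ℤ) := by linarith
        rw [h3]; push_cast; ring
      rw [← h1]
      exact (g i).2
  obtain ⟨A, X, h1, h2, h3, h4, h5⟩ := sharp2 e hpsi m hm
  refine ⟨A, h1, by rw [← card_psi]; exact h4, ?_, ?_, ?_, ?_⟩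
  · have := h5 0
    rw [he0] at this
    exact (card_projInf_le A).trans this
  · intro r hr
    have h6 := h5 (g.symm ⟨r, hr⟩).succ
    rw [hes, Equiv.apply_symm_apply] at h6
    exact (card_proj_le r A).trans h6
  · exact double_of h3 h2 pinf
  · intro r _
    exact double_of h3 h2 (ph r)

end Pool.Agent.TH539.StrProj
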