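import Mathlib
import Pool.Agent.TH397.EX1

/-!
Three numbers with all sums and products of one colour, for finite colourings which depend
arbitrarily on the primes that are inert in a quadratic field.
-/

set_option autoImplicit false

namespace TH539.QF

attribute [local instance] Ultrafilter.addSemigroup

/-- `u > 0`, `u ≡ 1 (mod q)` and `D` is a square modulo every prime factor of `u`. -/
def Spl (D : ℤ) (q u : ℕ) : Prop :=
  0 < u ∧ u ≡ 1 [MOD q] ∧ ∀ p : ℕ, p.Prime → p ∣ u → IsSquare (D : ZMod p)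

theorem Spl.mul {D : ℤ} {q u v : ℕ} (hu : Spl D q u) (hv : Spl D q v) : Spl D q (u * v) := by
  refine ⟨Nat.mul_pos hu.1 hv.1, by simpa using hu.2.1.mul hv.2.1, ?_⟩
  intro p hp h
  rcases (Nat.Prime.dvd_mul hp).1 h with h | h
  · exact hu.2.2 p hp h
  · exact hv.2.2 p hp h

theorem spl_of {D : ℤ} {q Q u : ℕ} (hqQ : q ∣ Q) (T n : ℤ) (hu0 : 0 < u)
    (hu : (u : ℤ) = T ^ 2 - D * n ^ 2) (hT : (Q : ℤ) ∣ T ^ 2 - 1) (hn : (Q : ℤ) ∣ n)
    (hco : ∀ p : ℕ, p.Prime → (p : ℤ) ∣ T → (p : ℤ) ∣ n → False) : Spl D q u := by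
  refine ⟨hu0, ?_, ?_⟩
  · have h1 : (Q : ℤ) ∣ (u : ℤ) - 1 := by
      have e : (u : ℤ) - 1 = (T ^ 2 - 1) - n * (D * n) := by rw [hu]; ring
      rw [e]
      exact dvd_sub hT (Dvd.dvd.mul_right hn _)
    have h2 : (q : ℤ) ∣ (u : ℤ) - 1 := (Int.natCast_dvd_natCast.2 hqQ).trans h1
    have h3 : (u : ℤ) ≡ ((1 : ℕ) : ℤ) [ZMOD (q : ℤ)] := by
      have := (Int.modEq_iff_dvd (n := (q : ℤ)) (a := ((1 : ℕ) : ℤ)) (b := (u : ℤ))).2
        (by simpa using h2)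
      exact this.symm
    exact (Int.natCast_modEq_iff).1 h3
  · intro p hp hpu
    have : Fact p.Prime := ⟨hp⟩
    have h0 : ((u : ℤ) : ZMod p) = 0 := by
      have := (ZMod.natCast_eq_zero_iff u p).2 hpu
      simpa using this
    rw [hu] at h0
    push_cast at h0
    by_cases hn0 : ((n : ℤ) : ZMod p) = 0
    · exfalso
      have h1 : ((T : ℤ) : ZMod p) = 0 := by
        rw [hn0] at h0
        have : ((T : ZMod p)) ^ 2 = 0 := by linear_combination h0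
        exact pow_eq_zero_iff (two_ne_zero) |>.1 this
      exact hco p hp ((ZMod.intCast_zmod_eq_zero_iff_dvd T p).1 h1)
        ((ZMod.intCast_zmod_eq_zero_iff_dvd n p).1 hn0)
    · refine ⟨(T : ZMod p) / (n : ZMod p), ?_⟩
      field_simp
      linear_combination -h0

/-- Chinese remainder theorem for a finite set of primes. -/
theorem crt (Q : ℕ) (_hQ : 0 < Q) (t : ℕ → ℕ) (S : Finset ℕ) :
    (∀ p ∈ S, p.Prime) → (∀ p ∈ S, ¬ p ∣ Q) →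
    ∃ T : ℕ, T ≡ 1 [MOD Q] ∧ ∀ p ∈ S, T ≡ t p [MOD p] := by
  classical
  induction S using Finset.induction_on with
  | empty =>
    intro _ _
    exact ⟨1, rfl, by simp⟩
  | insert p S hpS ih =>
    intro hP hN
    obtain ⟨T, hT1, hT2⟩ := ih (fun r hr => hP r (Finset.mem_insert_of_mem hr))
      (fun r hr => hN r (Finset.mem_insert_of_mem hr))
    have hp := hP p (Finset.mem_insert_self p S)
    have hcop : Nat.Coprime (Q * ∏ r ∈ S, r) p := by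
      apply Nat.Coprime.mul_left
      · exact ((Nat.Prime.coprime_iff_not_dvd hp).2 (hN p (Finset.mem_insert_self p S))).symm
      · apply Nat.Coprime.prod_left
        intro r hr
        have hr' := hP r (Finset.mem_insert_of_mem hr)
        rw [Nat.coprime_primes hr' hp]
        rintro rfl
        exact hpS hr
    obtain ⟨k, hk1, hk2⟩ := Nat.chineseRemainder hcop T (t p)
    refine ⟨k, ?_, ?_⟩
    · exact (hk1.of_mul_right _).trans hT1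
    · intro r hr
      rcases Finset.mem_insert.1 hr with rfl | hr
      · exact hk2
      · have h1 : r ∣ ∏ r ∈ S, r := Finset.dvd_prod_of_mem _ hr
        have h2 : r ∣ Q * ∏ r ∈ S, r := Dvd.dvd.mul_left h1 _
        exact (hk1.of_dvd h2).trans (hT2 r hr)

theorem crt_large (Q : ℕ) (hQ : 0 < Q) (t : ℕ → ℕ) (S : Finset ℕ) (hP : ∀ p ∈ S, p.Prime)
    (hN : ∀ p ∈ S, ¬ p ∣ Q) (B : ℕ) :
    ∃ T : ℕ, B < T ∧ T ≡ 1 [MOD Q] ∧ ∀ p ∈ S, T ≡ t p [MOD p] := by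
  obtain ⟨T, h1, h2⟩ := crt Q hQ t S hP hN
  have hpos : 0 < ∏ r ∈ S, r := Finset.prod_pos fun r hr => (hP r hr).pos
  refine ⟨T + Q * (∏ r ∈ S, r) * (B + 1), ?_, ?_, ?_⟩
  · have : 1 ≤ Q * (∏ r ∈ S, r) := Nat.mul_pos hQ hpos
    nlinarith
  · have h3 : Q * (∏ r ∈ S, r) * (B + 1) ≡ 0 [MOD Q] :=
      (Nat.modEq_zero_iff_dvd).2 ⟨(∏ r ∈ S, r) * (B + 1), by ring⟩
    simpa using h1.add h3
  · intro p hp
    have h3 : Q * (∏ r ∈ S, r) * (B + 1) ≡ 0 [MOD p] := by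
      rw [Nat.modEq_zero_iff_dvd]
      have h4 : p ∣ ∏ r ∈ S, r := Finset.dvd_prod_of_mem _ hp
      exact Dvd.dvd.mul_right (Dvd.dvd.mul_left h4 _) _
    simpa using (h2 p hp).add h3

theorem sq_card (p : ℕ) [Fact p.Prime] (a : ZMod p) :
    (Finset.univ.filter fun t : ZMod p => t ^ 2 = a).card ≤ 2 := by
  classical
  by_cases h : ∃ s : ZMod p, s ^ 2 = a
  · obtain ⟨s, hs⟩ := h
    refine (Finset.card_le_card (t := {s, -s}) ?_).trans Finset.card_le_two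
    intro t ht
    simp only [Finset.mem_filter, Finset.mem_univ, true_and] at ht
    have h1 : (t - s) * (t + s) = 0 := by linear_combination ht - hs
    rcases mul_eq_zero.1 h1 with h | h
    · simp [sub_eq_zero.1 h]
    · simp [eq_neg_of_add_eq_zero_left h]
  · push Not at h
    rw [Finset.filter_false_of_mem]
    · simp
    · intro t _
      exact h t

/-- a residue `t ≠ 0` with `c (t² - d) ≠ ±1` modulo a prime `p ≥ 7` -/
theorem exists_residue (p : ℕ) [Fact p.Prime] (hp : 5 < p) (c d : ZMod p) (hc : c ≠ 0) :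
    ∃ t : ℕ, (t : ZMod p) ≠ 0 ∧ c * ((t : ZMod p) ^ 2 - d) ≠ 1 ∧
      c * ((t : ZMod p) ^ 2 - d) ≠ -1 := by
  classical
  by_contra hcon
  push Not at hcon
  have hsub : (Finset.univ : Finset (ZMod p)) ⊆
      ({0} ∪ (Finset.univ.filter fun t : ZMod p => t ^ 2 = d + c⁻¹)) ∪
        (Finset.univ.filter fun t : ZMod p => t ^ 2 = d - c⁻¹) := by
    intro t _
    have ht : ((t.val : ℕ) : ZMod p) = t := ZMod.natCast_zmod_val t
    have h := hcon t.val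
    rw [ht] at h
    by_cases h0 : t = 0
    · simp [h0]
    by_cases h1 : c * (t ^ 2 - d) = 1
    · have : t ^ 2 = d + c⁻¹ := by
        field_simp
        linear_combination h1
      simp [this]
    · have h2 := h h0 h1
      have : t ^ 2 = d - c⁻¹ := by
        field_simp
        linear_combination h2
      simp [this]
  have hcard := Finset.card_le_card hsub
  rw [Finset.card_univ, ZMod.card] at hcard
  have h1 := Finset.card_union_le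
    ({0} ∪ (Finset.univ.filter fun t : ZMod p => t ^ 2 = d + c⁻¹))
    (Finset.univ.filter fun t : ZMod p => t ^ 2 = d - c⁻¹)
  have h2 := Finset.card_union_le ({0} : Finset (ZMod p))
    (Finset.univ.filter fun t : ZMod p => t ^ 2 = d + c⁻¹)
  have h3 := sq_card p (d + c⁻¹)
  have h4 := sq_card p (d - c⁻¹)
  rw [Finset.card_singleton] at h2
  omega

/-- Three numbers in increasing order whose nonempty sums all have one colour. -/
theorem three_sums {κ : Type} [Finite κ] (f : ℕ → κ) (K : ℕ) :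
    ∃ s₁ s₂ s₃ : ℕ, K ≤ s₁ ∧ s₁ < s₂ ∧ s₂ < s₃ ∧ ∃ a : κ,
      f s₁ = a ∧ f s₂ = a ∧ f s₃ = a ∧ f (s₁ + s₂) = a ∧ f (s₁ + s₃) = a ∧
      f (s₂ + s₃) = a ∧ f (s₁ + s₂ + s₃) = a := by
  obtain ⟨U, hU, hR⟩ := Pool.Agent.TH397.EX.exists_idem
  have h0 : ∃ a : κ, ∀ᶠ m in (U : Filter ℕ), f m = a := by
    by_contra hcon
    push Not at hcon
    have h1 : ∀ a : κ, ∀ᶠ m in (U : Filter ℕ), f m ≠ a := by
      intro a
      exact hcon a
    have h2 : ∀ᶠ m in (U : Filter ℕ), ∀ a : κ, f m ≠ a := by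
      rw [Filter.eventually_all]
      exact h1
    obtain ⟨m, hm⟩ := h2.exists
    exact hm (f m) rfl
  obtain ⟨a, ha⟩ := h0
  have hadd : ∀ P : ℕ → Prop, (∀ᶠ m in (U : Filter ℕ), P m) →
      ∀ᶠ m in (U : Filter ℕ), ∀ᶠ m' in (U : Filter ℕ), P (m + m') := by
    intro P hP
    rw [← hU] at hP
    exact (Ultrafilter.eventually_add _ _ _).1 hP
  obtain ⟨s₁, h11, h12, h13⟩ := ((ha.and ((hadd _ ha).and (hR K)))).exists
  obtain ⟨s₂, h21, h22, h23, h24, h25⟩ :=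
    (ha.and (h12.and ((hadd _ ha).and ((hadd _ h12).and (hR (s₁ + 1)))))).exists
  obtain ⟨s₃, h31, h32, h33, h34, h35⟩ :=
    (ha.and (h12.and (h23.and (h24.and (hR (s₂ + 1)))))).exists
  refine ⟨s₁, s₂, s₃, h13, h25, h35, a, h11, h21, h31, h22, h32, h33, ?_⟩
  rw [add_assoc]
  exact h34

/-- The number theoretic core: the two larger numbers (up to powers of `G`) and the sums. -/
theorem core (D : ℤ) (hD : D ≠ 0) (q : ℕ) (hq : 0 < q) (i l G : ℕ)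
    (hG : G = 4 * (30 * q * D.natAbs) ^ 3) :
    ∃ Y Z : ℕ, G ^ (l + 1) < Y ∧ G ^ (i + 1) * Y < Z ∧
      Spl D q Y ∧ Spl D q (Y + G ^ (l + 1)) ∧ Spl D q Z ∧ Spl D q (Z + G ^ (i + 1) * Y) ∧
      Spl D q (Z + G ^ (i + l + 2)) ∧ Spl D q (Z + G ^ (i + 1) * Y + G ^ (i + l + 2)) := by
  classical
  have hDn : 0 < D.natAbs := Int.natAbs_pos.2 hD
  obtain ⟨Q, hQ⟩ : ∃ Q : ℕ, Q = 30 * q * D.natAbs := ⟨_, rfl⟩
  obtain ⟨Q', hQ'⟩ : ∃ Q' : ℤ, Q' = 30 * q * D.sign := ⟨_, rfl⟩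
  have hDQ : D * Q' = Q := by
    rw [hQ, hQ']
    push_cast
    have := Int.mul_sign_self D
    rw [Int.natCast_natAbs] at this
    linear_combination (30 * (q : ℤ)) * this
  rw [← hQ] at hG
  have hQ0 : 0 < Q := by rw [hQ]; positivity
  have hqQ : q ∣ Q := ⟨30 * D.natAbs, by rw [hQ]; ring⟩
  have h30 : 30 ∣ Q := ⟨q * D.natAbs, by rw [hQ]; ring⟩
  have h30' : (30 : ℤ) ∣ Q' := ⟨q * D.sign, by rw [hQ']; ring⟩
  have hG0 : 0 < G := by rw [hG]; positivity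
  obtain ⟨g, hg⟩ : ∃ g : ℕ, g = G ^ l := ⟨_, rfl⟩
  obtain ⟨h, hh⟩ : ∃ h : ℕ, h = G ^ i := ⟨_, rfl⟩
  have hg0 : 0 < g := by rw [hg]; positivity
  have hh0 : 0 < h := by rw [hh]; positivity
  have e1 : G ^ (l + 1) = 4 * Q ^ 3 * g := by rw [hg, pow_succ, ← hG]; ring
  have e2 : G ^ (i + 1) = 4 * Q ^ 3 * h := by rw [hh, pow_succ, ← hG]; ring
  have e3 : G ^ (i + l + 2) = 4 * Q ^ 3 * (4 * Q ^ 3 * g * h) := by
    rw [hg, hh, show i + l + 2 = i + (l + 1) + 1 by ring, pow_succ, pow_add, pow_succ, ← hG]; ring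
  rw [e1, e2, e3]
  -- the four numbers
  obtain ⟨n₁, hn₁⟩ : ∃ n₁ : ℤ, n₁ = Q * (g * Q' + 1) := ⟨_, rfl⟩
  obtain ⟨n₂, hn₂⟩ : ∃ n₂ : ℤ, n₂ = Q * (g * Q' - 1) := ⟨_, rfl⟩
  obtain ⟨N₁, hN₁⟩ : ∃ N₁ : ℤ, N₁ = Q * (4 * Q ^ 3 * g * h * Q' + 1) := ⟨_, rfl⟩
  obtain ⟨N₂, hN₂⟩ : ∃ N₂ : ℤ, N₂ = Q * (4 * Q ^ 3 * g * h * Q' - 1) := ⟨_, rfl⟩
  have key1 : ∀ a : ℤ, (Q : ℤ) * (a * Q' + 1) ≠ 0 := by
    intro a h0
    rcases mul_eq_zero.1 h0 with h0 | h0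
    · exact hQ0.ne' (by exact_mod_cast h0)
    · have : (30 : ℤ) ∣ 1 := by
        have h1 : (1 : ℤ) = -(a * Q') := by linear_combination h0
        rw [h1]
        exact (Dvd.dvd.mul_left h30' a).neg_right
      norm_num at this
  have key2 : ∀ a : ℤ, (Q : ℤ) * (a * Q' - 1) ≠ 0 := by
    intro a h0
    rcases mul_eq_zero.1 h0 with h0 | h0
    · exact hQ0.ne' (by exact_mod_cast h0)
    · have : (30 : ℤ) ∣ 1 := by
        have h1 : (1 : ℤ) = a * Q' := by linear_combination -h0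
        rw [h1]
        exact (Dvd.dvd.mul_left h30' a)
      norm_num at this
  have hW : n₁ * n₂ * N₁ * N₂ ≠ 0 := by
    rw [hn₁, hn₂, hN₁, hN₂]
    exact mul_ne_zero (mul_ne_zero (mul_ne_zero (key1 _) (key2 _)) (key1 _)) (key2 _)
  obtain ⟨W, hWd⟩ : ∃ W : ℤ, W = n₁ * n₂ * N₁ * N₂ := ⟨_, rfl⟩
  rw [← hWd] at hW
  have hn₁W : n₁ ∣ W := ⟨n₂ * N₁ * N₂, by rw [hWd]; ring⟩
  have hn₂W : n₂ ∣ W := ⟨n₁ * N₁ * N₂, by rw [hWd]; ring⟩
  have hN₁W : N₁ ∣ W := ⟨n₁ * n₂ * N₂, by rw [hWd]; ring⟩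
  have hN₂W : N₂ ∣ W := ⟨n₁ * n₂ * N₁, by rw [hWd]; ring⟩
  -- residues
  have hres : ∀ p : ℕ, ∃ t : ℕ, p.Prime → ¬ p ∣ Q →
      ((t : ZMod p) ≠ 0 ∧ ((Q ^ 3 * h : ℕ) : ZMod p) * ((t : ZMod p) ^ 2 - ((D * n₁ ^ 2 : ℤ) : ZMod p)) ≠ 1 ∧
      ((Q ^ 3 * h : ℕ) : ZMod p) * ((t : ZMod p) ^ 2 - ((D * n₁ ^ 2 : ℤ) : ZMod p)) ≠ -1) := by
    intro p
    by_cases hp : p.Prime
    · by_cases hpQ : p ∣ Q
      · exact ⟨0, fun _ h => absurd hpQ h⟩
      · have : Fact p.Prime := ⟨hp⟩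
        have hp5 : 5 < p := by
          by_contra hcon
          have h5 : p ≤ 5 := not_lt.1 hcon
          have h2 := hp.two_le
          apply hpQ
          refine Dvd.dvd.trans ?_ h30
          interval_cases p
          · norm_num
          · norm_num
          · exact absurd hp (by norm_num)
          · norm_num
        have hc : ((Q ^ 3 * h : ℕ) : ZMod p) ≠ 0 := by
          rw [Ne, ZMod.natCast_eq_zero_iff]
          intro hd
          rcases (Nat.Prime.dvd_mul hp).1 hd with hd | hd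
          · exact hpQ (hp.dvd_of_dvd_pow hd)
          · rw [hh] at hd
            have h4 := hp.dvd_of_dvd_pow hd
            rw [hG] at h4
            rcases (Nat.Prime.dvd_mul hp).1 h4 with h4 | h4
            · have : p ≤ 4 := Nat.le_of_dvd (by norm_num) h4
              omega
            · exact hpQ (hp.dvd_of_dvd_pow h4)
        obtain ⟨t, ht⟩ := exists_residue p hp5 _ ((D * n₁ ^ 2 : ℤ) : ZMod p) hc
        exact ⟨t, fun _ _ => ht⟩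
    · exact ⟨0, fun h => absurd h hp⟩
  choose t ht using hres
  obtain ⟨T, hTB, hT1, hT2⟩ := crt_large Q hQ0 t (W.natAbs.primeFactors.filter fun p => ¬ p ∣ Q)
    (fun p hp => Nat.prime_of_mem_primeFactors (Finset.mem_filter.1 hp).1)
    (fun p hp => (Finset.mem_filter.1 hp).2)
    (D.natAbs * n₁.natAbs ^ 2 + D.natAbs * N₁.natAbs ^ 2 + 4 * Q ^ 3 * g + 10)
  have hTQ : (Q : ℤ) ∣ (T : ℤ) - 1 := by
    have := (Int.modEq_iff_dvd (n := (Q : ℤ)) (a := ((1 : ℕ) : ℤ)) (b := (T : ℤ))).1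
      ((Int.natCast_modEq_iff).2 hT1.symm)
    simpa using this
  have hclaimA : ∀ p : ℕ, p.Prime → (p : ℤ) ∣ (T : ℤ) → (p : ℤ) ∣ W → False := by
    intro p hp hpT hpW
    by_cases hpQ : p ∣ Q
    · have h1 : (p : ℤ) ∣ (T : ℤ) - 1 := (Int.natCast_dvd_natCast.2 hpQ).trans hTQ
      have h2 : (p : ℤ) ∣ 1 := by
        have := dvd_sub hpT h1
        simpa using this
      have h3 : p ∣ 1 := by exact_mod_cast h2
      exact hp.one_lt.ne' (Nat.dvd_one.1 h3)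
    · have hmem : p ∈ W.natAbs.primeFactors.filter fun p => ¬ p ∣ Q := by
        rw [Finset.mem_filter, Nat.mem_primeFactors]
        exact ⟨⟨hp, Int.natCast_dvd.1 hpW, by simpa using hW⟩, hpQ⟩
      have h1 := hT2 p hmem
      have h2 := (ht p hp hpQ).1
      apply h2
      rw [← (ZMod.natCast_eq_natCast_iff _ _ _).2 h1, ZMod.natCast_eq_zero_iff]
      exact_mod_cast hpT
  obtain ⟨F, hF⟩ : ∃ F : ℤ, F = Q ^ 3 * h * ((T : ℤ) ^ 2 - D * n₁ ^ 2) := ⟨_, rfl⟩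
  have hQF : (Q : ℤ) ∣ F := ⟨Q ^ 2 * h * ((T : ℤ) ^ 2 - D * n₁ ^ 2), by rw [hF]; ring⟩
  have hclaimB : ∀ p : ℕ, p.Prime → (p : ℤ) ∣ W → ¬ (p : ℤ) ∣ F - 1 ∧ ¬ (p : ℤ) ∣ F + 1 := by
    intro p hp hpW
    by_cases hpQ : p ∣ Q
    · have h1 : (p : ℤ) ∣ F := (Int.natCast_dvd_natCast.2 hpQ).trans hQF
      constructor
      · intro h2
        have h3 : (p : ℤ) ∣ 1 := by
          have := dvd_sub h1 h2
          simpa using this
        have h3 : p ∣ 1 := by exact_mod_cast h3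
        exact hp.one_lt.ne' (Nat.dvd_one.1 h3)
      · intro h2
        have h3 : (p : ℤ) ∣ 1 := by
          have := dvd_sub h2 h1
          simpa using this
        have h3 : p ∣ 1 := by exact_mod_cast h3
        exact hp.one_lt.ne' (Nat.dvd_one.1 h3)
    · have hmem : p ∈ W.natAbs.primeFactors.filter fun p => ¬ p ∣ Q := by
        rw [Finset.mem_filter, Nat.mem_primeFactors]
        exact ⟨⟨hp, Int.natCast_dvd.1 hpW, by simpa using hW⟩, hpQ⟩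
      have h1 := hT2 p hmem
      have h2 := (ht p hp hpQ).2
      rw [← (ZMod.natCast_eq_natCast_iff _ _ _).2 h1] at h2
      have hFp : ((F : ℤ) : ZMod p) =
          ((Q ^ 3 * h : ℕ) : ZMod p) * ((T : ZMod p) ^ 2 - ((D * n₁ ^ 2 : ℤ) : ZMod p)) := by
        rw [hF]; push_cast; ring
      rw [← hFp] at h2
      constructor
      · intro h3
        apply h2.1
        have h4 := (ZMod.intCast_zmod_eq_zero_iff_dvd (F - 1) p).2 h3
        push_cast at h4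
        exact sub_eq_zero.1 h4
      · intro h3
        apply h2.2
        have h4 := (ZMod.intCast_zmod_eq_zero_iff_dvd (F + 1) p).2 h3
        push_cast at h4
        exact eq_neg_of_add_eq_zero_left h4
  -- sizes
  have hTB' : |D| * n₁ ^ 2 + |D| * N₁ ^ 2 + 4 * (Q : ℤ) ^ 3 * g + 10 < T := by
    have : ((D.natAbs * n₁.natAbs ^ 2 + D.natAbs * N₁.natAbs ^ 2 + 4 * Q ^ 3 * g + 10 : ℕ) : ℤ) < T := by
      exact_mod_cast hTB
    push_cast at this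
    simpa [Int.natCast_natAbs, sq_abs] using this
  have hDn1 : D * n₁ ^ 2 ≤ |D| * n₁ ^ 2 := mul_le_mul_of_nonneg_right (le_abs_self D) (sq_nonneg _)
  have hDN1 : D * N₁ ^ 2 ≤ |D| * N₁ ^ 2 := mul_le_mul_of_nonneg_right (le_abs_self D) (sq_nonneg _)
  have hp1 : 0 ≤ |D| * n₁ ^ 2 := mul_nonneg (abs_nonneg _) (sq_nonneg _)
  have hp2 : 0 ≤ |D| * N₁ ^ 2 := mul_nonneg (abs_nonneg _) (sq_nonneg _)
  have hp3 : 0 < 4 * (Q : ℤ) ^ 3 * g := by positivity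
  have hT10 : (10 : ℤ) ≤ T := by linarith
  have hTT : 10 * (T : ℤ) ≤ (T : ℤ) ^ 2 := by
    have := mul_le_mul_of_nonneg_right hT10 (by linarith : (0 : ℤ) ≤ T)
    linarith [sq (T : ℤ)]
  have hYT : (T : ℤ) ≤ (T : ℤ) ^ 2 - D * n₁ ^ 2 := by linarith
  obtain ⟨Y, hY⟩ : ∃ Y : ℕ, (Y : ℤ) = (T : ℤ) ^ 2 - D * n₁ ^ 2 :=
    ⟨((T : ℤ) ^ 2 - D * n₁ ^ 2).toNat, Int.toNat_of_nonneg (by linarith)⟩
  rw [← hY] at hYT hF
  have hFY : (Y : ℤ) ≤ F := by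
    rw [hF]
    have h1 : (1 : ℤ) ≤ (Q : ℤ) ^ 3 * h := by
      have : 0 < Q ^ 3 * h := by positivity
      exact_mod_cast this
    have h2 := mul_le_mul_of_nonneg_right h1 (by linarith : (0 : ℤ) ≤ Y)
    linarith
  have hFF : 10 * F ≤ F ^ 2 := by
    have := mul_le_mul_of_nonneg_right (by linarith : (10 : ℤ) ≤ F) (by linarith : (0 : ℤ) ≤ F)
    linarith [sq F]
  have hFF2 : (F - 1) ^ 2 = F ^ 2 - 2 * F + 1 := by ring
  have hZ0 : 4 * F < (F - 1) ^ 2 - D * N₁ ^ 2 := by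
    rw [hFF2]
    linarith
  obtain ⟨Z, hZ⟩ : ∃ Z : ℕ, (Z : ℤ) = (F - 1) ^ 2 - D * N₁ ^ 2 :=
    ⟨((F - 1) ^ 2 - D * N₁ ^ 2).toNat, Int.toNat_of_nonneg (by linarith)⟩
  rw [← hZ] at hZ0
  have hQ1 : (Q : ℤ) ∣ (T : ℤ) ^ 2 - 1 := by
    have : (T : ℤ) ^ 2 - 1 = ((T : ℤ) - 1) * (T + 1) := by ring
    rw [this]
    exact Dvd.dvd.mul_right hTQ _
  have hQM1 : (Q : ℤ) ∣ (F - 1) ^ 2 - 1 := by
    have : (F - 1) ^ 2 - 1 = F * (F - 2) := by ring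
    rw [this]
    exact Dvd.dvd.mul_right hQF _
  have hQM2 : (Q : ℤ) ∣ (F + 1) ^ 2 - 1 := by
    have : (F + 1) ^ 2 - 1 = F * (F + 2) := by ring
    rw [this]
    exact Dvd.dvd.mul_right hQF _
  have hYlt : 4 * Q ^ 3 * g < Y := by
    have : (4 * (Q : ℤ) ^ 3 * g) < Y := by linarith
    exact_mod_cast this
  have hZlt : 4 * Q ^ 3 * h * Y < Z := by
    have : (4 * (Q : ℤ) ^ 3 * h * Y) < Z := by rw [hF] at hZ0; linarith
    exact_mod_cast this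
  refine ⟨Y, Z, hYlt, hZlt, ?_, ?_, ?_, ?_, ?_, ?_⟩
  · exact spl_of hqQ T n₁ (by omega) hY hQ1 ⟨_, hn₁⟩
      (fun p hp h1 h2 => hclaimA p hp h1 (h2.trans hn₁W))
  · refine spl_of hqQ T n₂ (by omega) ?_ hQ1 ⟨_, hn₂⟩
      (fun p hp h1 h2 => hclaimA p hp h1 (h2.trans hn₂W))
    push_cast
    rw [hY, hn₁, hn₂]
    linear_combination (-4 * (Q : ℤ) ^ 2 * g) * hDQ
  · exact spl_of hqQ (F - 1) N₁ (by omega) hZ hQM1 ⟨_, hN₁⟩
      (fun p hp h1 h2 => (hclaimB p hp (h2.trans hN₁W)).1 h1)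
  · refine spl_of hqQ (F + 1) N₁ (by omega) ?_ hQM2 ⟨_, hN₁⟩
      (fun p hp h1 h2 => (hclaimB p hp (h2.trans hN₁W)).2 h1)
    push_cast
    rw [hZ]
    linear_combination (-4) * hF
  · refine spl_of hqQ (F - 1) N₂ (by omega) ?_ hQM1 ⟨_, hN₂⟩
      (fun p hp h1 h2 => (hclaimB p hp (h2.trans hN₂W)).1 h1)
    push_cast
    rw [hZ, hN₁, hN₂]
    linear_combination (-4 * (Q : ℤ) ^ 2 * (4 * Q ^ 3 * g * h)) * hDQ
  · refine spl_of hqQ (F + 1) N₂ (by omega) ?_ hQM2 ⟨_, hN₂⟩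
      (fun p hp h1 h2 => (hclaimB p hp (h2.trans hN₂W)).2 h1)
    push_cast
    rw [hZ, hN₁, hN₂]
    linear_combination (-4) * hF + (-4 * (Q : ℤ) ^ 2 * (4 * Q ^ 3 * g * h)) * hDQ

/-- The main theorem. -/
theorem main (D : ℤ) (hD : D ≠ 0) (q : ℕ) (hq : 0 < q) {κ : Type} [Finite κ] (c : ℕ → κ)
    (hc : ∀ n u : ℕ, 0 < n → Spl D q u → c (n * u) = c n) (K : ℕ) :
    ∃ x y z : ℕ, K < x ∧ x < y ∧ y < z ∧ ∃ a : κ, c x = a ∧ c y = a ∧ c z = a ∧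
      c (x + y) = a ∧ c (x + z) = a ∧ c (y + z) = a ∧ c (x + y + z) = a ∧
      c (x * y) = a ∧ c (x * z) = a ∧ c (y * z) = a ∧ c (x * y * z) = a := by
  obtain ⟨G, hG⟩ : ∃ G : ℕ, G = 4 * (30 * q * D.natAbs) ^ 3 := ⟨_, rfl⟩
  have hG2 : 2 ≤ G := by
    have hDn : 0 < D.natAbs := Int.natAbs_pos.2 hD
    have : 0 < (30 * q * D.natAbs) ^ 3 := by positivity
    omega
  have hG0 : 0 < G := by omega
  obtain ⟨s₁, s₂, s₃, hK, h12, h23, a, f1, f2, f3, f12, f13, f23, f123⟩ :=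
    three_sums (fun s => c (G ^ s)) K
  obtain ⟨i, hi⟩ : ∃ i, s₂ = s₁ + (i + 1) := ⟨s₂ - s₁ - 1, by omega⟩
  obtain ⟨l, hl⟩ : ∃ l, s₃ = s₂ + (l + 1) := ⟨s₃ - s₂ - 1, by omega⟩
  obtain ⟨Y, Z, hY, hZ, cY, cY1, cZ, cZ1, cZ2, cZ3⟩ := core D hD q hq i l G hG
  have hpow : ∀ s, 0 < G ^ s := fun s => Nat.pow_pos hG0
  have e1 : G ^ s₃ = G ^ s₂ * G ^ (l + 1) := by rw [hl, pow_add]
  have e2 : G ^ s₂ = G ^ s₁ * G ^ (i + 1) := by rw [hi, pow_add]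
  have e3 : G ^ s₃ = G ^ s₁ * G ^ (i + l + 2) := by
    rw [hl, hi, ← pow_add]; congr 1; ring
  refine ⟨G ^ s₃, G ^ s₂ * Y, G ^ s₁ * Z, ?_, ?_, ?_, a, f3, ?_, ?_, ?_, ?_, ?_, ?_, ?_, ?_, ?_, ?_⟩
  · have : s₃ < G ^ s₃ := Nat.lt_pow_self (by omega)
    omega
  · rw [e1]
    exact Nat.mul_lt_mul_of_pos_left hY (hpow _)
  · rw [e2, mul_assoc]
    exact Nat.mul_lt_mul_of_pos_left hZ (hpow _)
  · rw [hc _ _ (hpow _) cY, f2]
  · rw [hc _ _ (hpow _) cZ, f1]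
  · have : G ^ s₃ + G ^ s₂ * Y = G ^ s₂ * (Y + G ^ (l + 1)) := by rw [e1]; ring
    rw [this, hc _ _ (hpow _) cY1, f2]
  · have : G ^ s₃ + G ^ s₁ * Z = G ^ s₁ * (Z + G ^ (i + l + 2)) := by rw [e3]; ring
    rw [this, hc _ _ (hpow _) cZ2, f1]
  · have : G ^ s₂ * Y + G ^ s₁ * Z = G ^ s₁ * (Z + G ^ (i + 1) * Y) := by rw [e2]; ring
    rw [this, hc _ _ (hpow _) cZ1, f1]
  · have : G ^ s₃ + G ^ s₂ * Y + G ^ s₁ * Z =
        G ^ s₁ * (Z + G ^ (i + 1) * Y + G ^ (i + l + 2)) := by rw [e3, e2]; ring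
    rw [this, hc _ _ (hpow _) cZ3, f1]
  · have : G ^ s₃ * (G ^ s₂ * Y) = G ^ (s₂ + s₃) * Y := by rw [pow_add]; ring
    rw [this, hc _ _ (hpow _) cY, f23]
  · have : G ^ s₃ * (G ^ s₁ * Z) = G ^ (s₁ + s₃) * Z := by rw [pow_add]; ring
    rw [this, hc _ _ (hpow _) cZ, f13]
  · have : G ^ s₂ * Y * (G ^ s₁ * Z) = G ^ (s₁ + s₂) * (Y * Z) := by rw [pow_add]; ring
    rw [this, hc _ _ (hpow _) (cY.mul cZ), f12]
  · have : G ^ s₃ * (G ^ s₂ * Y) * (G ^ s₁ * Z) = G ^ (s₁ + s₂ + s₃) * (Y * Z) := by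
      rw [pow_add, pow_add]; ring
    rw [this, hc _ _ (hpow _) (cY.mul cZ), f123]

end TH539.QF
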