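import Mathlib

set_option autoImplicit false

/-!
Points of algebraic sets on generic lines: the algebraic core.
-/

open MvPolynomial

namespace Pool.Agent.TH539.AlgProg

universe u

section defs

variable {F : Type u} [Field F] {n : ℕ}

/-- `R` is Zariski dense in affine space. -/
def ZDense (R : Set (Fin n → F)) : Prop :=
  ∀ p : MvPolynomial (Fin n) F, (∀ r ∈ R, eval r p = 0) → p = 0

/-- The Zariski closure of `V` has dimension at most `d`: any `d + 1` coordinates satisfy on `V` a
nontrivial polynomial relation. -/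
def DimLE (d : ℕ) (V : Set (Fin n → F)) : Prop :=
  ∀ s : Finset (Fin n), s.card = d + 1 →
    ∃ p : MvPolynomial (Fin n) F, p ≠ 0 ∧ p.vars ⊆ s ∧ ∀ x ∈ V, eval x p = 0

end defs

section pd

variable {F : Type u} [Field F] {n : ℕ}

theorem mem_support_of_pderiv {i : Fin n} {p : MvPolynomial (Fin n) F} {m : Fin n →₀ ℕ}
    (h : m ∈ (pderiv i p).support) : m + Finsupp.single i 1 ∈ p.support := by
  rw [mem_support_iff, coeff_pderiv] at h
  rw [mem_support_iff]
  exact left_ne_zero_of_mul h

theorem vars_pderiv {i : Fin n} {p : MvPolynomial (Fin n) F} : (pderiv i p).vars ⊆ p.vars := by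
  intro j hj
  rw [mem_vars_iff_mem_support] at hj ⊢
  obtain ⟨m, hm, hjm⟩ := hj
  refine ⟨_, mem_support_of_pderiv hm, ?_⟩
  rw [Finsupp.mem_support_iff] at hjm ⊢
  rw [Finsupp.add_apply]
  omega

theorem totalDegree_pderiv {i : Fin n} {p : MvPolynomial (Fin n) F} (h : pderiv i p ≠ 0) :
    (pderiv i p).totalDegree < p.totalDegree := by
  have hsup : (pderiv i p).support.Nonempty := by
    rw [Finset.nonempty_iff_ne_empty]
    intro h0
    exact h (support_eq_empty.1 h0)
  unfold totalDegree
  rw [Finset.sup_lt_iff]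
  · intro m hm
    have h1 := mem_support_of_pderiv hm
    have h2 := Finset.le_sup (f := fun s : Fin n →₀ ℕ => s.sum fun _ e => e) h1
    refine lt_of_lt_of_le ?_ h2
    rw [Finsupp.sum_add_index' (fun _ => rfl) (fun _ _ _ => rfl), Finsupp.sum_single_index rfl]
    omega
  · obtain ⟨m, hm⟩ := hsup
    have h1 := mem_support_of_pderiv hm
    have h2 := Finset.le_sup (f := fun s : Fin n →₀ ℕ => s.sum fun _ e => e) h1
    refine lt_of_lt_of_le ?_ h2
    rw [Finsupp.sum_add_index' (fun _ => rfl) (fun _ _ _ => rfl), Finsupp.sum_single_index rfl]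
    exact Nat.succ_pos _

theorem exists_pderiv_ne [CharZero F] {p : MvPolynomial (Fin n) F}
    (h : ∀ c : F, p ≠ C c) : ∃ i, pderiv i p ≠ 0 := by
  by_contra hno
  push Not at hno
  apply h (coeff 0 p)
  ext m
  rw [coeff_C]
  split_ifs with hm
  · rw [← hm]
  · obtain ⟨i, hi⟩ : ∃ i, m i ≠ 0 := by
      by_contra h0
      push Not at h0
      exact hm (Finsupp.ext (fun i => (h0 i).symm))
    have h1 := coeff_pderiv (i := i) p (m - Finsupp.single i 1)
    rw [hno i, coeff_zero] at h1
    have h2 : m - Finsupp.single i 1 + Finsupp.single i 1 = m := by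
      apply tsub_add_cancel_of_le
      rw [Finsupp.single_le_iff]
      omega
    rw [h2] at h1
    exact (mul_eq_zero.1 h1.symm).resolve_right (Nat.cast_add_one_ne_zero _)

end pd

section jac

variable {F : Type u} [Field F] {n : ℕ} {K : Type u} [Field K] [Algebra F K]

theorem chain (D : Derivation F K K) (x : Fin n → K) (p : MvPolynomial (Fin n) F) :
    D (aeval x p) = ∑ m, aeval x (pderiv m p) * D (x m) := by
  classical
  induction p using MvPolynomial.induction_on with
  | C c =>
    simp
  | add p q hp hq =>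
    simp only [map_add, hp, hq, add_mul, Finset.sum_add_distrib]
  | mul_X p i hp =>
    rw [map_mul, aeval_X, Derivation.leibniz, hp]
    simp only [Derivation.leibniz, pderiv_X, map_add, smul_eq_mul, map_mul, aeval_X, add_mul,
      Finset.sum_add_distrib]
    have h1 : ∑ m, (aeval x) p * (aeval x) (Pi.single (M := fun _ => MvPolynomial (Fin n) F) i 1 m) *
        D (x m) = (aeval x) p * D (x i) := by
      rw [Finset.sum_eq_single i]
      · simp
      · intro b _ hb
        rw [Pi.single_eq_of_ne hb]
        simp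
      · simp
    rw [Finset.mul_sum]
    congr 1
    · rw [← h1]
      refine Finset.sum_congr rfl fun m _ => ?_
      congr 2
      rw [Pi.single_comm]
    · refine Finset.sum_congr rfl fun m _ => ?_
      ring

theorem dep [CharZero F] (x : Fin n → K) (s : Finset (Fin n)) :
    ∀ (N : ℕ) (p : MvPolynomial (Fin n) F), p.totalDegree ≤ N → p ≠ 0 → p.vars ⊆ s →
      aeval x p = 0 → ∃ c : Fin n → K, (∃ m, c m ≠ 0) ∧ (∀ m, m ∉ s → c m = 0) ∧
        ∀ D : Derivation F K K, ∑ m, c m * D (x m) = 0 := by
  intro N
  induction N using Nat.strong_induction_on with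
  | _ N ih =>
    intro p hpN hp0 hvars hpx
    by_cases hall : ∃ m, aeval x (pderiv m p) ≠ 0
    · refine ⟨fun m => aeval x (pderiv m p), hall, ?_, ?_⟩
      · intro m hm
        change aeval x (pderiv m p) = 0
        rw [pderiv_eq_zero_of_notMem_vars (fun h => hm (hvars h)), map_zero]
      · intro D
        rw [← chain, hpx, map_zero]
    · push Not at hall
      have hnc : ∀ c : F, p ≠ C c := by
        rintro c rfl
        rw [aeval_C, map_eq_zero] at hpx
        exact hp0 (by rw [hpx, map_zero])
      obtain ⟨i, hi⟩ := exists_pderiv_ne hnc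
      have hlt := totalDegree_pderiv hi
      exact ih (pderiv i p).totalDegree (lt_of_lt_of_le hlt hpN) _ le_rfl hi
        (vars_pderiv.trans hvars) (hall i)

/-- rank bound from dependencies between coordinates -/
theorem rank_le {d : ℕ} (M : Matrix (Fin n) (Fin n) K)
    (h : ∀ s : Finset (Fin n), s.card = d + 1 → ∃ c : Fin n → K, (∃ m, c m ≠ 0) ∧
      (∀ m, m ∉ s → c m = 0) ∧ ∀ i, ∑ m, c m * M m i = 0) : M.rank ≤ d := by
  by_contra hlt
  push Not at hlt
  rw [Matrix.rank_eq_finrank_span_row] at hlt
  obtain ⟨b, hb1, hb2, hb3⟩ := exists_linearIndependent K (Set.range M.row)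
  have hfin : b.Finite := (Set.finite_range M.row).subset hb1
  rw [← hb2] at hlt
  have := hfin.fintype
  have hcard : Module.finrank K (Submodule.span K b) = b.toFinset.card := by
    exact finrank_span_set_eq_card hb3
  rw [hcard] at hlt
  -- choose indices
  choose g hg using fun v : b => hb1 v.2
  have hginj : Function.Injective g := by
    intro v w hvw
    apply Subtype.ext
    rw [← hg v, ← hg w, hvw]
  obtain ⟨t, ht1, ht2⟩ : ∃ t : Finset b, t.card = d + 1 ∧ True := by
    have : d + 1 ≤ (Finset.univ : Finset b).card := by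
      rw [Finset.card_univ, ← Set.toFinset_card]
      exact hlt
    obtain ⟨t, -, ht⟩ := Finset.exists_subset_card_eq this
    exact ⟨t, ht, trivial⟩
  obtain ⟨c, ⟨m0, hm0⟩, hc2, hc3⟩ := h (t.map ⟨g, hginj⟩) (by rw [Finset.card_map, ht1])
  have hli : LinearIndependent K (fun v : b => (v : Fin n → K)) := hb3
  have hsum : ∑ v ∈ t, c (g v) • (v : Fin n → K) = 0 := by
    funext i
    rw [Finset.sum_apply, Pi.zero_apply, ← hc3 i]
    have h1 : ∑ m, c m * M m i = ∑ m ∈ t.map ⟨g, hginj⟩, c m * M m i := by
      symm
      apply Finset.sum_subset (Finset.subset_univ _)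
      intro m _ hm
      rw [hc2 m hm, zero_mul]
    rw [h1, Finset.sum_map]
    refine Finset.sum_congr rfl fun v _ => ?_
    rw [Pi.smul_apply, smul_eq_mul]
    congr 1
    have := congrFun (hg v) i
    exact this.symm
  have hzero := (linearIndependent_iff'.1 hli) t (fun v => c (g v)) hsum
  have hm0t : m0 ∈ t.map ⟨g, hginj⟩ := by
    by_contra hno
    exact hm0 (hc2 m0 hno)
  obtain ⟨v, hv, hvm⟩ := Finset.mem_map.1 hm0t
  apply hm0
  rw [← hvm]
  exact hzero v hv

theorem sum_eigen (f : Module.End K (Fin n → K)) (T : Finset K) :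
    ∑ t ∈ T, Module.finrank K (f.eigenspace t) ≤ n := by
  classical
  have key : ∑ t ∈ T, Module.finrank K (f.eigenspace t) =
      Module.finrank K (⨆ t ∈ T, f.eigenspace t : Submodule K (Fin n → K)) := by
    induction T using Finset.induction_on with
    | empty =>
      rw [Finset.sum_empty]
      have : (⨆ t ∈ (∅ : Finset K), f.eigenspace t : Submodule K (Fin n → K)) = ⊥ := by simp
      rw [this, finrank_bot]
    | insert a T ha ih =>
      rw [Finset.sum_insert ha, ih, Finset.iSup_insert]
      have h1 := Submodule.finrank_sup_add_finrank_inf_eq (f.eigenspace a)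
        (⨆ t ∈ T, f.eigenspace t)
      have h2 : f.eigenspace a ⊓ (⨆ t ∈ T, f.eigenspace t) = ⊥ := by
        rw [← disjoint_iff]
        exact f.eigenspaces_iSupIndep.disjoint_biSup (y := (T : Set K)) (by simpa using ha)
      rw [h2, finrank_bot, add_zero] at h1
      exact h1.symm
  rw [key]
  calc _ ≤ Module.finrank K (Fin n → K) := Submodule.finrank_le _
    _ = n := by rw [Module.finrank_fintype_fun_eq_card, Fintype.card_fin]

/-- The linear algebra. -/
theorem linear {T : Finset F} {d : F → ℕ} (N : Matrix (Fin n) (Fin n) K)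
    (h : ∀ t ∈ T, (N + (algebraMap F K t) • (1 : Matrix (Fin n) (Fin n) K)).rank ≤ d t) :
    ∑ t ∈ T, (n - d t) ≤ n := by
  classical
  have hinj : Function.Injective (fun t : F => - algebraMap F K t) := by
    intro a b hab
    exact (algebraMap F K).injective (neg_injective hab)
  have h1 := sum_eigen (Matrix.toLin' N) (T.map ⟨_, hinj⟩)
  rw [Finset.sum_map] at h1
  refine le_trans (Finset.sum_le_sum fun t ht => ?_) h1
  have h2 := h t ht
  have h3 := LinearMap.finrank_range_add_finrank_ker
    (Matrix.toLin' (N + (algebraMap F K t) • (1 : Matrix (Fin n) (Fin n) K)))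
  rw [Module.finrank_fintype_fun_eq_card, Fintype.card_fin] at h3
  have h4 : Module.finrank K (LinearMap.range
      (Matrix.toLin' (N + (algebraMap F K t) • (1 : Matrix (Fin n) (Fin n) K)))) ≤ d t := by
    exact h2
  have h5 : LinearMap.ker (Matrix.toLin' (N + (algebraMap F K t) • (1 : Matrix (Fin n) (Fin n) K)))
      = Module.End.eigenspace (Matrix.toLin' N) (- algebraMap F K t) := by
    rw [Module.End.eigenspace_def]
    congr 1
    rw [map_add, map_smul, Matrix.toLin'_one]
    ext v
    simp [Module.algebraMap_end_apply]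
  rw [h5] at h3
  change n - d t ≤ Module.finrank K (Module.End.eigenspace (Matrix.toLin' N) (- algebraMap F K t))
  omega

end jac

end Pool.Agent.TH539.AlgProg
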