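import Mathlib
import Pool.Agent.TH539.AlgProg

set_option autoImplicit false

/-!
Points of algebraic sets on generic lines: the generic point and its derivations.
-/

open MvPolynomial TensorProduct

namespace Pool.Agent.TH539.AlgProg

universe u

variable {F : Type u} [Field F] {n : ℕ}

/-- the polynomial ring in the differences -/
abbrev PA (F : Type u) [Field F] (n : ℕ) := MvPolynomial (Fin n) F

/-- substitution of `a + t r` -/
noncomputable def sub (t : F) : MvPolynomial (Fin n) F →ₐ[F] MvPolynomial (Fin n) (PA F n) :=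
  aeval (fun m => (X m : MvPolynomial (Fin n) (PA F n)) + C (C t * X m))

/-- derivations from a formally étale extension of a polynomial ring -/
theorem exists_derivations {K : Type u} [Field K] [Algebra F K] [Algebra (PA F n) K]
    [IsScalarTower F (PA F n) K] [Algebra.FormallyEtale (PA F n) K] :
    ∃ D : Fin n → Derivation F K K, ∀ i m, D i (algebraMap (PA F n) K (X m)) =
      if i = m then 1 else 0 := by
  classical
  let e := KaehlerDifferential.tensorKaehlerEquivOfFormallyEtale F (PA F n) K
  let b := (KaehlerDifferential.mvPolynomialBasis F (Fin n)).baseChange K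
  refine ⟨fun i => (b.coord i ∘ₗ e.symm.toLinearMap).compDer (KaehlerDifferential.D F K), ?_⟩
  intro i m
  have h1 : e.symm (KaehlerDifferential.D F K (algebraMap (PA F n) K (X m))) =
      1 ⊗ₜ KaehlerDifferential.D F (PA F n) (X m) :=
    KaehlerDifferential.tensorKaehlerEquivOfFormallyEtale_symm_D_algebraMap F (PA F n) K (X m)
  have h2 : KaehlerDifferential.D F (PA F n) (X m) =
      KaehlerDifferential.mvPolynomialBasis F (Fin n) m := by
    apply (KaehlerDifferential.mvPolynomialBasis F (Fin n)).repr.injective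
    rw [KaehlerDifferential.mvPolynomialBasis_repr_D_X, Module.Basis.repr_self]
  have h3 : (1 : K) ⊗ₜ[PA F n] KaehlerDifferential.mvPolynomialBasis F (Fin n) m = b m := by
    rw [Module.Basis.baseChange_apply]
  change b.coord i (e.symm (KaehlerDifferential.D F K (algebraMap (PA F n) K (X m)))) = _
  rw [h1, h2, h3, Module.Basis.coord_apply, Module.Basis.repr_self, Finsupp.single_apply]
  by_cases h : m = i
  · simp [h]
  · rw [if_neg h, if_neg (fun h' => h h'.symm)]

theorem generic_point [CharZero F] (T : Finset F) (V : F → Set (Fin n → F))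
    {R : Set (Fin n → F)} (hR : ZDense R)
    (h : ∀ r ∈ R, ∃ a : Fin n → F, ∀ t ∈ T, (fun m => a m + t * r m) ∈ V t) :
    ∃ (K : Type u) (_ : Field K) (_ : Algebra F K) (r a : Fin n → K)
      (D : Fin n → Derivation F K K), (∀ i m, D i (r m) = if i = m then 1 else 0) ∧
      ∀ t ∈ T, ∀ p : MvPolynomial (Fin n) F, (∀ x ∈ V t, eval x p = 0) →
        aeval (fun m => a m + algebraMap F K t * r m) p = 0 := by
  classical
  set J0 : Ideal (MvPolynomial (Fin n) (PA F n)) :=
    Ideal.span {q | ∃ t ∈ T, ∃ p : MvPolynomial (Fin n) F, (∀ x ∈ V t, eval x p = 0) ∧ q = sub t p}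
    with hJ0
  have hker : ∀ q : PA F n, C q ∈ J0 → q = 0 := by
    intro q hq
    apply hR
    intro r hr
    obtain ⟨a, ha⟩ := h r hr
    let ev : MvPolynomial (Fin n) (PA F n) →+* F := eval₂Hom (eval r) a
    have hle : J0 ≤ RingHom.ker ev := by
      rw [hJ0, Ideal.span_le]
      rintro _ ⟨t, ht, p, hp, rfl⟩
      rw [SetLike.mem_coe, RingHom.mem_ker]
      have h1 : ev.comp (sub t).toRingHom = eval (fun m => a m + t * r m) := by
        apply MvPolynomial.ringHom_ext
        · intro c
          have h2 : (sub (n := n) t) (C c) = C (C c) := by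
            rw [sub, aeval_C]; rfl
          change ev (sub t (C c)) = _
          rw [h2]
          simp [ev]
        · intro m
          change ev (sub t (X m)) = _
          rw [sub, aeval_X]
          simp [ev]
      have h3 : ev (sub t p) = eval (fun m => a m + t * r m) p := by
        rw [← h1]; rfl
      rw [h3]
      exact hp _ (ha t ht)
    have h4 := hle hq
    rw [RingHom.mem_ker] at h4
    simpa [ev] using h4
  let L := FractionRing (PA F n)
  let _ : Algebra (MvPolynomial (Fin n) (PA F n)) (MvPolynomial (Fin n) L) :=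
    algebraMvPolynomial
  have hloc : IsLocalization ((nonZeroDivisors (PA F n)).map
      (C : PA F n →+* MvPolynomial (Fin n) (PA F n))) (MvPolynomial (Fin n) L) :=
    MvPolynomial.isLocalization (nonZeroDivisors (PA F n)) L
  have hdis : Disjoint (((nonZeroDivisors (PA F n)).map
      (C : PA F n →+* MvPolynomial (Fin n) (PA F n)) :
        Submonoid (MvPolynomial (Fin n) (PA F n))) : Set (MvPolynomial (Fin n) (PA F n)))
      (J0 : Set (MvPolynomial (Fin n) (PA F n))) := by
    rw [Set.disjoint_left]
    rintro x hx hxJ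
    obtain ⟨q, hq, rfl⟩ := Submonoid.mem_map.1 hx
    have := hker q hxJ
    rw [this] at hq
    exact zero_notMem_nonZeroDivisors hq
  have hne : J0.map (algebraMap (MvPolynomial (Fin n) (PA F n)) (MvPolynomial (Fin n) L)) ≠ ⊤ :=
    (IsLocalization.map_algebraMap_ne_top_iff_disjoint _ _ J0).2 hdis
  obtain ⟨𝔪, hmax, hle⟩ := Ideal.exists_le_maximal _ hne
  let _ : Field (MvPolynomial (Fin n) L ⧸ 𝔪) := Ideal.Quotient.field 𝔪
  have hft : Algebra.FiniteType L (MvPolynomial (Fin n) L ⧸ 𝔪) := inferInstance
  have hfin : Module.Finite L (MvPolynomial (Fin n) L ⧸ 𝔪) :=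
    finite_of_finite_type_of_isJacobsonRing L _
  have hchar : CharZero L := algebraRat.charZero L |> fun _ => by
    exact charZero_of_injective_algebraMap (R := F) (FaithfulSMul.algebraMap_injective F L)
  have hsep : Algebra.IsSeparable L (MvPolynomial (Fin n) L ⧸ 𝔪) := inferInstance
  have het1 : Algebra.FormallyEtale L (MvPolynomial (Fin n) L ⧸ 𝔪) :=
    Algebra.FormallyEtale.of_isSeparable L _
  have het2 : Algebra.FormallyEtale (PA F n) L :=
    Algebra.FormallyEtale.of_isLocalization (nonZeroDivisors (PA F n))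
  have het : Algebra.FormallyEtale (PA F n) (MvPolynomial (Fin n) L ⧸ 𝔪) :=
    Algebra.FormallyEtale.comp (PA F n) L _
  obtain ⟨D, hD⟩ := exists_derivations (F := F) (n := n) (K := MvPolynomial (Fin n) L ⧸ 𝔪)
  refine ⟨MvPolynomial (Fin n) L ⧸ 𝔪, inferInstance, inferInstance,
    fun m => algebraMap (PA F n) _ (X m), fun m => Ideal.Quotient.mk 𝔪 (X m), D, hD, ?_⟩
  intro t ht p hp
  have h1 : sub t p ∈ J0 := Ideal.subset_span ⟨t, ht, p, hp, rfl⟩
  have h2 := hle (Ideal.mem_map_of_mem (algebraMap _ (MvPolynomial (Fin n) L)) h1)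
  have h3 := Ideal.Quotient.eq_zero_iff_mem.2 h2
  rw [← h3]
  let g1 : MvPolynomial (Fin n) F →+* (MvPolynomial (Fin n) L ⧸ 𝔪) :=
    ((Ideal.Quotient.mk 𝔪).comp (algebraMap (MvPolynomial (Fin n) (PA F n))
      (MvPolynomial (Fin n) L))).comp (sub t).toRingHom
  let g2 : MvPolynomial (Fin n) F →+* (MvPolynomial (Fin n) L ⧸ 𝔪) :=
    (aeval (R := F) (fun m => (Ideal.Quotient.mk 𝔪 (X m)) +
      algebraMap F (MvPolynomial (Fin n) L ⧸ 𝔪) t *
        algebraMap (PA F n) (MvPolynomial (Fin n) L ⧸ 𝔪) (X m))).toRingHom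
  have h4 : g2 = g1 := by
    apply MvPolynomial.ringHom_ext
    · intro c
      have h5 : (sub (n := n) t) (C c) = C (C c) := by
        rw [sub, aeval_C]; rfl
      have h6 : g1 (C c) = Ideal.Quotient.mk 𝔪 (algebraMap (MvPolynomial (Fin n) (PA F n))
          (MvPolynomial (Fin n) L) (sub t (C c))) := rfl
      have h7 : g2 (C c) = algebraMap F (MvPolynomial (Fin n) L ⧸ 𝔪) c := by
        change aeval _ (C c) = _
        rw [aeval_C]
      rw [h6, h7, h5, algebraMap_def, map_C]
      rfl
    · intro m
      have h5 : (sub (n := n) t) (X m) = X m + C (C t * X m) := by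
        rw [sub, aeval_X]
      have h6 : g1 (X m) = Ideal.Quotient.mk 𝔪 (algebraMap (MvPolynomial (Fin n) (PA F n))
          (MvPolynomial (Fin n) L) (sub t (X m))) := rfl
      have h7 : g2 (X m) = (Ideal.Quotient.mk 𝔪 (X m)) +
          algebraMap F (MvPolynomial (Fin n) L ⧸ 𝔪) t *
          algebraMap (PA F n) (MvPolynomial (Fin n) L ⧸ 𝔪) (X m) := by
        change aeval _ (X m) = _
        rw [aeval_X]
      rw [h6, h7, h5, algebraMap_def, map_add, map_X, map_C, map_add, map_mul (algebraMap (PA F n) L),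
        C_mul, map_mul (Ideal.Quotient.mk 𝔪)]
      rfl
  change g2 p = g1 p
  rw [h4]

end Pool.Agent.TH539.AlgProg
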