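import Mathlib
import Pool.Agent.TH539.AlgProgGen

set_option autoImplicit false

/-!
Progressions in algebraic sets: the exact dimension threshold.
-/

open MvPolynomial

namespace Pool.Agent.TH539.AlgProg

universe u

variable {F : Type u} [Field F] {n : ℕ}

/-- The lower bound. -/
theorem lower [CharZero F] (T : Finset F) (d : F → ℕ) (V : F → Set (Fin n → F))
    (hV : ∀ t ∈ T, DimLE (d t) (V t)) {R : Set (Fin n → F)} (hR : ZDense R)
    (h : ∀ r ∈ R, ∃ a : Fin n → F, ∀ t ∈ T, (fun m => a m + t * r m) ∈ V t) :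
    ∑ t ∈ T, (n - d t) ≤ n := by
  classical
  obtain ⟨K, _, _, r, a, D, hD, hp⟩ := generic_point T V hR h
  apply linear (K := K) (Matrix.of (fun m i => D i (a m)))
  intro t ht
  apply rank_le
  intro s hs
  obtain ⟨p, hp0, hps, hpV⟩ := hV t ht s hs
  have hpx := hp t ht p hpV
  obtain ⟨c, hc1, hc2, hc3⟩ := dep (fun m => a m + algebraMap F K t * r m) s _ p le_rfl hp0 hps hpx
  refine ⟨c, hc1, hc2, fun i => ?_⟩
  rw [← hc3 (D i)]
  refine Finset.sum_congr rfl fun m _ => ?_
  congr 1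
  rw [map_add, Derivation.leibniz, Derivation.map_algebraMap, hD, smul_zero, add_zero,
    Matrix.add_apply, Matrix.of_apply, Matrix.smul_apply, Matrix.one_apply]
  congr 2
  by_cases him : m = i
  · simp [him]
  · rw [if_neg him, if_neg (fun h' => him h'.symm)]

/-- Distribution of the coordinates over the parameters. -/
theorem exists_tau (T : Finset F) (d : F → ℕ) (h : ∑ t ∈ T, (n - d t) ≤ n) :
    ∃ τ : Fin n → F, (∀ i, τ i ∈ T ∨ τ i = 0) ∧
      ∀ t ∈ T, ∃ S : Finset (Fin n), S.card = n - d t ∧ ∀ i ∈ S, τ i = t := by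
  classical
  have hcard : Fintype.card (Σ t : T, Fin (n - d t)) ≤ Fintype.card (Fin n) := by
    rw [Fintype.card_sigma, Fintype.card_fin]
    simp only [Fintype.card_fin]
    rw [Finset.sum_coe_sort T (fun t => n - d t)]
    exact h
  obtain ⟨g⟩ := Function.Embedding.nonempty_of_card_le hcard
  refine ⟨fun i => if hi : ∃ y, g y = i then ((hi.choose.1 : T) : F) else 0, ?_, ?_⟩
  · intro i
    by_cases hi : ∃ y, g y = i
    · left
      simp only [dif_pos hi]
      exact hi.choose.1.2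
    · right
      simp only [dif_neg hi]
  · intro t ht
    refine ⟨(Finset.univ : Finset (Fin (n - d t))).map
      ⟨fun u => g ⟨⟨t, ht⟩, u⟩, fun u v huv => by
        have := g.injective huv
        simpa using this⟩, by rw [Finset.card_map, Finset.card_univ, Fintype.card_fin], ?_⟩
    intro i hi
    obtain ⟨u, -, rfl⟩ := Finset.mem_map.1 hi
    have hex : ∃ y, g y = g ⟨⟨t, ht⟩, u⟩ := ⟨_, rfl⟩
    change (if hi : ∃ y, g y = g ⟨⟨t, ht⟩, u⟩ then ((hi.choose.1 : T) : F) else 0) = t
    rw [dif_pos hex]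
    have h1 := hex.choose_spec
    have h2 := g.injective h1
    rw [h2]

theorem zdense_univ [CharZero F] : ZDense (Set.univ : Set (Fin n → F)) := by
  intro p hp
  apply MvPolynomial.funext
  intro x
  rw [hp x (Set.mem_univ x), map_zero]

theorem dimLE_coord {d : ℕ} (hd : d ≤ n) (S : Finset (Fin n)) (hS : S.card = n - d) :
    DimLE d {x : Fin n → F | ∀ i ∈ S, x i = 0} := by
  classical
  intro s hs
  have hne : (s ∩ S).Nonempty := by
    rw [← Finset.card_pos]
    have h1 := Finset.card_union_add_card_inter s S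
    have h2 : (s ∪ S).card ≤ n := by
      calc (s ∪ S).card ≤ (Finset.univ : Finset (Fin n)).card :=
            Finset.card_le_card (Finset.subset_univ _)
        _ = n := by rw [Finset.card_univ, Fintype.card_fin]
    omega
  obtain ⟨i, hi⟩ := hne
  rw [Finset.mem_inter] at hi
  refine ⟨X i, X_ne_zero i, ?_, ?_⟩
  · rw [vars_X]
    exact Finset.singleton_subset_iff.2 hi.1
  · intro x hx
    rw [eval_X]
    exact hx i hi.2

theorem DimLE.mono {d : ℕ} {V W : Set (Fin n → F)} (h : DimLE d W) (hVW : V ⊆ W) : DimLE d V := by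
  intro s hs
  obtain ⟨p, h1, h2, h3⟩ := h s hs
  exact ⟨p, h1, h2, fun x hx => h3 x (hVW hx)⟩

theorem DimLE.biUnion {ι : Type*} {d : ℕ} (T : Finset ι) {V : ι → Set (Fin n → F)}
    (h : ∀ t ∈ T, DimLE d (V t)) : DimLE d (⋃ t ∈ T, V t) := by
  classical
  intro s hs
  choose! p h1 h2 h3 using fun t ht => h t ht s hs
  refine ⟨∏ t ∈ T, p t, Finset.prod_ne_zero_iff.2 h1, ?_, ?_⟩
  · refine (vars_prod p).trans ?_
    intro i hi
    obtain ⟨t, ht, hit⟩ := Finset.mem_biUnion.1 hi
    exact h2 t ht hit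
  · intro x hx
    obtain ⟨t, ht, hxt⟩ := Set.mem_iUnion₂.1 hx
    rw [map_prod]
    exact Finset.prod_eq_zero ht (h3 t ht x hxt)

theorem layers [CharZero F] (T : Finset F) (d : F → ℕ) (hd : ∀ t ∈ T, d t ≤ n) :
    (∃ (V : F → Set (Fin n → F)) (R : Set (Fin n → F)), ZDense R ∧ (∀ t ∈ T, DimLE (d t) (V t)) ∧
      ∀ r ∈ R, ∃ a : Fin n → F, ∀ t ∈ T, (fun m => a m + t * r m) ∈ V t) ↔
    ∑ t ∈ T, (n - d t) ≤ n := by
  constructor
  · rintro ⟨V, R, hR, hV, h⟩
    exact lower T d V hV hR h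
  · intro h
    obtain ⟨τ, -, hτ⟩ := exists_tau T d h
    choose! S hS1 hS2 using hτ
    refine ⟨fun t => {x | ∀ i ∈ S t, x i = 0}, Set.univ, zdense_univ, ?_, ?_⟩
    · intro t ht
      exact dimLE_coord (hd t ht) _ (hS1 t ht)
    · intro r _
      refine ⟨fun i => - (τ i * r i), fun t ht i hi => ?_⟩
      change - (τ i * r i) + t * r i = 0
      rw [hS2 t ht i hi]
      ring

/-- progressions with every difference in the unit cube -/
def Prog (k : ℕ) (B : Set (Fin n → ℝ)) : Prop :=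
  ∀ r : Fin n → ℝ, (∀ i, r i ∈ Set.Icc (0 : ℝ) 1) →
    ∃ a : Fin n → ℝ, ∀ j : ℕ, j < k → a + (j : ℝ) • r ∈ B

theorem zdense_cube : ZDense {r : Fin n → ℝ | ∀ i, r i ∈ Set.Icc (0 : ℝ) 1} := by
  intro p hp
  apply MvPolynomial.funext_set (s := fun _ => Set.Icc (0 : ℝ) 1)
  · intro i
    exact Set.Icc_infinite one_pos
  · intro x hx
    rw [hp x (fun i => hx i (Set.mem_univ i)), map_zero]

theorem prog_lower {k d : ℕ} {B : Set (Fin n → ℝ)} (hB : DimLE d B) (h : Prog k B) :
    k * (n - d) ≤ n := by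
  classical
  have h1 := lower (n := n) ((Finset.range k).map ⟨fun j : ℕ => (j : ℝ), Nat.cast_injective⟩)
    (fun _ => d) (fun _ => B) (fun _ _ => hB) zdense_cube (fun r hr => ?_)
  · rw [Finset.sum_const, Finset.card_map, Finset.card_range, smul_eq_mul] at h1
    exact h1
  · obtain ⟨a, ha⟩ := h r hr
    refine ⟨a, fun t ht => ?_⟩
    obtain ⟨j, hj, rfl⟩ := Finset.mem_map.1 ht
    exact ha j (Finset.mem_range.1 hj)

theorem progressions (n k : ℕ) (hk : 1 ≤ k) :
    IsLeast {d : ℕ | ∃ B : Set (Fin n → ℝ), Bornology.IsBounded B ∧ DimLE d B ∧ Prog k B}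
      (n - n / k) := by
  classical
  constructor
  · set T : Finset ℝ := (Finset.range k).map ⟨fun j : ℕ => (j : ℝ), Nat.cast_injective⟩ with hT
    have hsum : ∑ t ∈ T, (n - (n - n / k)) ≤ n := by
      rw [Finset.sum_const, hT, Finset.card_map, Finset.card_range, smul_eq_mul]
      have h1 : n - (n - n / k) = n / k := by
        have := Nat.div_le_self n k
        exact Nat.sub_sub_self this
      rw [h1]
      exact Nat.mul_div_le n k
    obtain ⟨τ, hτ1, hτ⟩ := exists_tau (n := n) T (fun _ => n - n / k) hsum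
    choose! S hS1 hS2 using hτ
    refine ⟨⋃ t ∈ T, ({x | ∀ i ∈ S t, x i = 0} ∩ {x | ∀ i, |x i| ≤ k}), ?_, ?_, ?_⟩
    · have hsub : (⋃ t ∈ T, ({x : Fin n → ℝ | ∀ i ∈ S t, x i = 0} ∩ {x | ∀ i, |x i| ≤ k})) ⊆
          Metric.closedBall 0 k := by
        intro x hx
        obtain ⟨t, -, hxt⟩ := Set.mem_iUnion₂.1 hx
        rw [mem_closedBall_zero_iff, pi_norm_le_iff_of_nonneg (Nat.cast_nonneg k)]
        intro i
        rw [Real.norm_eq_abs]
        exact hxt.2 i
      exact Metric.isBounded_closedBall.subset hsub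
    · apply DimLE.biUnion
      intro t ht
      exact (dimLE_coord (Nat.sub_le _ _) _ (hS1 t ht)).mono Set.inter_subset_left
    · intro r hr
      refine ⟨fun i => - (τ i * r i), fun j hj => ?_⟩
      have hjT : (j : ℝ) ∈ T := Finset.mem_map.2 ⟨j, Finset.mem_range.2 hj, rfl⟩
      refine Set.mem_iUnion₂.2 ⟨(j : ℝ), hjT, ?_, ?_⟩
      · intro i hi
        rw [Pi.add_apply, Pi.smul_apply, hS2 _ hjT i hi, smul_eq_mul]
        ring
      · intro i
        rw [Pi.add_apply, Pi.smul_apply, smul_eq_mul]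
        obtain ⟨l, hl, hτl⟩ : ∃ l : ℕ, l ≤ k ∧ τ i = l := by
          rcases hτ1 i with h | h
          · obtain ⟨l, hl, hl'⟩ := Finset.mem_map.1 h
            exact ⟨l, (Finset.mem_range.1 hl).le, hl'.symm⟩
          · exact ⟨0, Nat.zero_le _, by rw [h, Nat.cast_zero]⟩
        rw [hτl]
        have h0 := (hr i).1
        have h1 := (hr i).2
        have h2 : (l : ℝ) ≤ k := by exact_mod_cast hl
        have h3 : (j : ℝ) ≤ k := by exact_mod_cast hj.le
        have h4 : (0 : ℝ) ≤ l := Nat.cast_nonneg _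
        have h5 : (0 : ℝ) ≤ j := Nat.cast_nonneg _
        rw [abs_le]
        constructor
        · nlinarith
        · nlinarith
  · rintro d ⟨B, -, hB, hp⟩
    have h1 := prog_lower hB hp
    have h2 : n - d ≤ n / k := by
      rw [Nat.le_div_iff_mul_le hk, mul_comm]
      exact h1
    generalize n / k = q at *
    omega

end Pool.Agent.TH539.AlgProg
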