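import Mathlib
import Pool.Agent.TH539.AlgProgMain
import Pool.Agent.H581R2.SARun

set_option autoImplicit false

/-!
Projections of semialgebraic sets (with real coefficients), interior points, covering numbers.
-/

open MvPolynomial

namespace Pool.Agent.TH539.AlgProg

open Pool.Agent.H581R2 (PF SA SAP)

/-- `B` is semialgebraic: membership in `B` depends only on the signs of finitely many real
polynomials. -/
def SemiR {n : ℕ} (B : Set (Fin n → ℝ)) : Prop :=
  ∃ Q : Finset (MvPolynomial (Fin n) ℝ), ∀ x y : Fin n → ℝ,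
    (∀ q ∈ Q, SignType.sign (eval x q) = SignType.sign (eval y q)) → x ∈ B → y ∈ B

section proj

variable {n e : ℕ}

/-- the index set of the coefficients -/
abbrev JJ (Q : Finset (MvPolynomial (Fin n) ℝ)) : Type :=
  Σ q : {q // q ∈ Q}, {m // m ∈ q.1.support}

/-- the polynomial with coefficients replaced by variables -/
noncomputable def til (Q : Finset (MvPolynomial (Fin n) ℝ)) (q : {q // q ∈ Q}) :
    MvPolynomial (Fin n ⊕ JJ Q) ℚ :=
  ∑ m : {m // m ∈ q.1.support}, X (Sum.inr ⟨q, m⟩) * ∏ i, X (Sum.inl i) ^ (m.1 i)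

theorem aeval_til (Q : Finset (MvPolynomial (Fin n) ℝ)) (q : {q // q ∈ Q}) (x : Fin n → ℝ) :
    aeval (Sum.elim x (fun j : JJ Q => coeff j.2.1 j.1.1)) (til Q q) = eval x q.1 := by
  unfold til
  rw [map_sum, MvPolynomial.eval_eq']
  rw [← Finset.sum_coe_sort q.1.support (fun d => coeff d q.1 * ∏ i, x i ^ d i)]
  refine Finset.sum_congr rfl fun m _ => ?_
  simp only [map_mul, map_prod, map_pow, aeval_X, Sum.elim_inr, Sum.elim_inl]

theorem semi_proj {B : Set (Fin n → ℝ)} (hB : SemiR B) (σ : Fin e → Fin n) :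
    SemiR {y : Fin e → ℝ | ∃ x ∈ B, ∀ i, x (σ i) = y i} := by
  classical
  obtain ⟨Q, hQ⟩ := hB
  let P : (Fin n ⊕ JJ Q → ℝ) → Prop := fun v =>
    ∃ x ∈ B, ∀ q : {q // q ∈ Q}, SignType.sign (eval x q.1) = SignType.sign (aeval v (til Q q))
  have hP : SAP P := by
    refine ⟨Finset.univ.image (til Q), fun v w hvw hv => ?_⟩
    obtain ⟨x, hx, hxv⟩ := hv
    refine ⟨x, hx, fun q => ?_⟩
    rw [hxv q]
    exact hvw _ (Finset.mem_image.2 ⟨q, Finset.mem_univ _, rfl⟩)
  let c : JJ Q → ℝ := fun j => coeff j.2.1 j.1.1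
  have hPc : ∀ x : Fin n → ℝ, P (Sum.elim x c) ↔ x ∈ B := by
    intro x
    constructor
    · rintro ⟨x', hx', h⟩
      refine hQ x' x (fun q hq => ?_) hx'
      rw [h ⟨q, hq⟩, aeval_til]
    · intro hx
      exact ⟨x, hx, fun q => by rw [aeval_til]⟩
  let p : ((JJ Q ⊕ Fin e) ⊕ Fin n → ℝ) → Prop := fun u =>
    P (Sum.elim (fun i => u (Sum.inr i)) (fun j => u (Sum.inl (Sum.inl j)))) ∧
      ∀ i : Fin e, u (Sum.inr (σ i)) = u (Sum.inl (Sum.inr i))
  have hp : SAP p := by
    refine SAP.and ?_ ?_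
    · refine hP.preimage (φ := fun u : ((JJ Q ⊕ Fin e) ⊕ Fin n → ℝ) =>
        Sum.elim (fun i => u (Sum.inr i)) (fun j => u (Sum.inl (Sum.inl j)))) ?_
      rintro (i | j)
      · exact PF.coord _
      · exact PF.coord _
    · refine SAP.congr (SAP.forall_mem (Finset.univ : Finset (Fin e))
        (p := fun i u => u (Sum.inr (σ i)) = u (Sum.inl (Sum.inr i)))
        (fun i _ => SAP.eq (PF.coord _) (PF.coord _))) (fun v => ?_)
      simp
  have hex := SAP.exists_block n hp
  obtain ⟨Q', hQ'⟩ := hex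
  refine ⟨Q'.image (fun q => bind₁ (Sum.elim (fun j => C (c j)) (fun i => X i) :
    JJ Q ⊕ Fin e → MvPolynomial (Fin e) ℝ) (MvPolynomial.map (algebraMap ℚ ℝ) q)), ?_⟩
  intro y z hyz hy
  have hev : ∀ (y : Fin e → ℝ) (q : MvPolynomial (JJ Q ⊕ Fin e) ℚ),
      eval y (bind₁ (Sum.elim (fun j => C (c j)) (fun i => X i) :
        JJ Q ⊕ Fin e → MvPolynomial (Fin e) ℝ) (MvPolynomial.map (algebraMap ℚ ℝ) q)) =
      aeval (Sum.elim c y) q := by
    intro y q
    rw [← MvPolynomial.coe_aeval_eq_eval, RingHom.coe_coe, aeval_bind₁]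
    have h1 : (fun i => (aeval y) ((Sum.elim (fun j => C (c j)) (fun i => X i) :
        JJ Q ⊕ Fin e → MvPolynomial (Fin e) ℝ) i)) = Sum.elim c y := by
      funext i
      rcases i with j | i
      · simp
      · simp
    rw [h1, aeval_map_algebraMap]
  have hW : ∀ y : Fin e → ℝ, (∃ x : Fin n → ℝ, p (Sum.elim (Sum.elim c y) x)) ↔
      ∃ x ∈ B, ∀ i, x (σ i) = y i := by
    intro y
    constructor
    · rintro ⟨x, hx1, hx2⟩
      exact ⟨x, (hPc x).1 hx1, fun i => hx2 i⟩
    · rintro ⟨x, hx1, hx2⟩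
      exact ⟨x, (hPc x).2 hx1, fun i => hx2 i⟩
  have h2 := hQ' (Sum.elim c y) (Sum.elim c z) (fun q hq => ?_) ((hW y).2 hy)
  · exact (hW z).1 h2
  · have h3 := hyz _ (Finset.mem_image.2 ⟨q, hq, rfl⟩)
    rw [hev, hev] at h3
    exact h3

end proj

/-- Zariski dense semialgebraic sets have interior points. -/
theorem exists_ball {e : ℕ} {W : Set (Fin e → ℝ)} (hW : SemiR W) (hd : ZDense W) :
    ∃ (w : Fin e → ℝ) (ρ : ℝ), 0 < ρ ∧ Metric.closedBall w ρ ⊆ W := by
  classical
  obtain ⟨Q, hQ⟩ := hW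
  have hne : ∏ q ∈ Q.filter (· ≠ 0), q ≠ 0 := by
    rw [Finset.prod_ne_zero_iff]
    intro q hq
    exact (Finset.mem_filter.1 hq).2
  obtain ⟨w, hw, hwp⟩ : ∃ w ∈ W, eval w (∏ q ∈ Q.filter (· ≠ 0), q) ≠ 0 := by
    by_contra hno
    push Not at hno
    exact hne (hd _ hno)
  have hopen : ∀ᶠ y in nhds w, ∀ q ∈ Q, SignType.sign (eval w q) = SignType.sign (eval y q) := by
    rw [Filter.eventually_all_finset]
    intro q hq
    by_cases h0 : q = 0
    · simp [h0]
    · have h1 : eval w q ≠ 0 := by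
        intro h
        apply hwp
        rw [map_prod]
        exact Finset.prod_eq_zero (Finset.mem_filter.2 ⟨hq, h0⟩) h
      have hc : Continuous (fun y : Fin e → ℝ => eval y q) := MvPolynomial.continuous_eval q
      rcases lt_or_gt_of_ne h1 with h | h
      · filter_upwards [hc.continuousAt.eventually (gt_mem_nhds h)] with y hy
        rw [sign_neg h, sign_neg hy]
      · filter_upwards [hc.continuousAt.eventually (lt_mem_nhds h)] with y hy
        rw [sign_pos h, sign_pos hy]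
  obtain ⟨ρ, hρ, hball⟩ := Metric.nhds_basis_closedBall.eventually_iff.1 hopen
  exact ⟨w, ρ, hρ, fun y hy => hQ w y (hball hy) hw⟩

/-- The projection given by a set of coordinates on which no polynomial relation holds. -/
theorem not_dimLE {n d : ℕ} {B : Set (Fin n → ℝ)} (h : ¬ DimLE d B) :
    ∃ σ : Fin (d + 1) → Fin n, ZDense {y : Fin (d + 1) → ℝ | ∃ x ∈ B, ∀ i, x (σ i) = y i} := by
  classical
  unfold DimLE at h
  push Not at h
  obtain ⟨s, hs, hp⟩ := h
  set σ := s.orderEmbOfFin hs with hσ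
  refine ⟨σ, fun p hpW => ?_⟩
  by_contra hp0
  have h1 : rename σ p ≠ 0 := by
    intro h0
    apply hp0
    apply rename_injective σ σ.injective
    rw [h0, map_zero]
  have h2 : (rename σ p).vars ⊆ s := by
    refine (vars_rename σ p).trans ?_
    intro i hi
    obtain ⟨j, -, rfl⟩ := Finset.mem_image.1 hi
    exact Finset.orderEmbOfFin_mem s hs j
  obtain ⟨x, hx, hx0⟩ := hp (rename σ p) h1 h2
  apply hx0
  rw [eval_rename]
  exact hpW _ ⟨x, hx, fun i => rfl⟩

end Pool.Agent.TH539.AlgProg
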