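import Mathlib
import Pool.Agent.TH539.AlgProgSA

set_option autoImplicit false

/-!
Minkowski dimension of semialgebraic sets containing progressions.
-/

open MvPolynomial Filter Topology MeasureTheory

namespace Pool.Agent.TH539.AlgProg

/-- The least number of sets of diameter at most `δ` covering `B` (for bounded `B`). -/
noncomputable def coverNum {n : ℕ} (B : Set (EuclideanSpace ℝ (Fin n))) (δ : ℝ) : ℕ :=
  sInf {N | ∃ U : Fin N → Set (EuclideanSpace ℝ (Fin n)),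
    (∀ i, ∀ x ∈ U i, ∀ y ∈ U i, dist x y ≤ δ) ∧ B ⊆ ⋃ i, U i}

/-- Upper Minkowski dimension (upper box-counting dimension). -/
noncomputable def upperMinkowski {n : ℕ} (B : Set (EuclideanSpace ℝ (Fin n))) : EReal :=
  limsup (fun δ : ℝ => ((Real.log (coverNum B δ) / Real.log (1 / δ) : ℝ) : EReal)) (𝓝[>] 0)

/-- `B` contains a `k`-term progression with every common difference in `[0,1]^n`. -/
def HasProgressions {n : ℕ} (k : ℕ) (B : Set (EuclideanSpace ℝ (Fin n))) : Prop :=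
  ∀ r : EuclideanSpace ℝ (Fin n), (∀ i, r i ∈ Set.Icc (0 : ℝ) 1) →
    ∃ a : EuclideanSpace ℝ (Fin n), ∀ j : ℕ, j < k → a + (j : ℝ) • r ∈ B

/-- semialgebraic sets -/
def Semialgebraic {n : ℕ} (B : Set (EuclideanSpace ℝ (Fin n))) : Prop :=
  ∃ Q : Finset (MvPolynomial (Fin n) ℝ), ∀ x y : EuclideanSpace ℝ (Fin n),
    (∀ q ∈ Q, SignType.sign (eval (fun i => x i) q) = SignType.sign (eval (fun i => y i) q)) →
      x ∈ B → y ∈ B

theorem cover_nonempty {n : ℕ} {B : Set (EuclideanSpace ℝ (Fin n))} (hB : Bornology.IsBounded B)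
    {δ : ℝ} (hδ : 0 < δ) : {N | ∃ U : Fin N → Set (EuclideanSpace ℝ (Fin n)),
    (∀ i, ∀ x ∈ U i, ∀ y ∈ U i, dist x y ≤ δ) ∧ B ⊆ ⋃ i, U i}.Nonempty := by
  obtain ⟨t, ht, hcov⟩ := Metric.totallyBounded_iff.mp
    (TotallyBounded.subset subset_closure hB.isCompact_closure.totallyBounded) (δ / 2) (by positivity)
  obtain ⟨m, f, hf⟩ := ht.fin_param
  refine ⟨m, fun i => Metric.ball (f i) (δ / 2), ?_, ?_⟩
  · intro i x hx y hy
    have h1 := Metric.mem_ball.mp hx
    have h2 := Metric.mem_ball'.mp hy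
    have := dist_triangle x (f i) y
    linarith
  · refine hcov.trans ?_
    intro x hx
    rw [Set.mem_iUnion₂] at hx
    obtain ⟨y, hy, hxy⟩ := hx
    rw [← hf.2] at hy
    obtain ⟨i, rfl⟩ := hy
    exact Set.mem_iUnion.mpr ⟨i, hxy⟩

theorem le_dim {n : ℕ} {B : Set (EuclideanSpace ℝ (Fin n))} {s κ : ℝ} (hκ : 0 < κ)
    (hcount : ∀ δ : ℝ, 0 < δ → κ * δ ^ (-s) ≤ (coverNum B δ : ℝ)) :
    (s : EReal) ≤ upperMinkowski B := by
  refine le_of_forall_lt fun x hx => ?_
  obtain ⟨y, hxy, hy⟩ := EReal.lt_iff_exists_real_btwn.mp hx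
  refine lt_of_lt_of_le hxy ?_
  have hy' : y < s := by exact_mod_cast hy
  refine le_limsup_of_frequently_le (Eventually.frequently ?_) (by isBoundedDefault)
  set ε := s - y with hε
  have hεpos : 0 < ε := by rw [hε]; linarith
  have hlog : Tendsto Real.log (𝓝[>] 0) atBot := Real.tendsto_log_nhdsGT_zero
  have h1 : ∀ᶠ δ : ℝ in 𝓝[>] (0 : ℝ), Real.log δ < -(|Real.log κ| / ε + 1) :=
    hlog.eventually (eventually_lt_atBot _)
  have hsmall : ∀ᶠ δ : ℝ in 𝓝[>] (0 : ℝ), 0 < δ ∧ δ < 1 := Ioo_mem_nhdsGT one_pos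
  filter_upwards [h1, hsmall] with δ h1 h2
  have habs : 0 ≤ |Real.log κ| / ε := by positivity
  have hneg : Real.log δ < 0 := by linarith
  rw [EReal.coe_le_coe_iff, one_div, Real.log_inv, le_div_iff₀ (by linarith)]
  have hpos : 0 < κ * δ ^ (-s) := by
    have := h2.1
    positivity
  have h5 := Real.log_le_log hpos (hcount δ h2.1)
  rw [Real.log_mul hκ.ne' (by have := h2.1; positivity), Real.log_rpow h2.1] at h5
  have h6 : ε * Real.log δ ≤ Real.log κ := by
    have h7 : |Real.log κ| / ε < -Real.log δ := by linarith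
    rw [div_lt_iff₀ hεpos] at h7
    have := neg_abs_le (Real.log κ)
    nlinarith
  have h8 : y * -Real.log δ = -s * Real.log δ + ε * Real.log δ := by rw [hε]; ring
  rw [h8]
  linarith

theorem dim_le {n : ℕ} {B : Set (EuclideanSpace ℝ (Fin n))} {s C : ℝ} (hC : 1 ≤ C) (hs : 0 ≤ s)
    (hcount : ∀ δ : ℝ, 0 < δ → δ < 1 → (coverNum B δ : ℝ) ≤ C * δ ^ (-s)) :
    upperMinkowski B ≤ (s : EReal) := by
  refine le_of_forall_gt fun x hx => ?_
  obtain ⟨y, hy, hyx⟩ := EReal.lt_iff_exists_real_btwn.mp hx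
  refine lt_of_le_of_lt ?_ hyx
  have hy' : s < y := by exact_mod_cast hy
  refine limsup_le_of_le (by isBoundedDefault) ?_
  set ε := y - s with hε
  have hεpos : 0 < ε := by rw [hε]; linarith
  have hlog : Tendsto Real.log (𝓝[>] 0) atBot := Real.tendsto_log_nhdsGT_zero
  have h1 : ∀ᶠ δ : ℝ in 𝓝[>] (0 : ℝ), Real.log δ < -(|Real.log C| / ε + 1) :=
    hlog.eventually (eventually_lt_atBot _)
  have hsmall : ∀ᶠ δ : ℝ in 𝓝[>] (0 : ℝ), 0 < δ ∧ δ < 1 := Ioo_mem_nhdsGT one_pos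
  filter_upwards [h1, hsmall] with δ h1 h2
  have habs : 0 ≤ |Real.log C| / ε := by positivity
  have hneg : Real.log δ < 0 := by linarith
  rw [EReal.coe_le_coe_iff, one_div, Real.log_inv, div_le_iff₀ (by linarith)]
  have hone : 1 ≤ C * δ ^ (-s) := by
    have h3 : 1 ≤ δ ^ (-s) := Real.one_le_rpow_of_pos_of_le_one_of_nonpos h2.1 h2.2.le (by linarith)
    nlinarith
  have h5 : Real.log (coverNum B δ) ≤ Real.log (C * δ ^ (-s)) := by
    rcases Nat.eq_zero_or_pos (coverNum B δ) with h0 | h0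
    · rw [h0, Nat.cast_zero, Real.log_zero]
      exact Real.log_nonneg hone
    · exact Real.log_le_log (by exact_mod_cast h0) (hcount δ h2.1 h2.2)
  rw [Real.log_mul (by linarith) (by have := h2.1; positivity), Real.log_rpow h2.1] at h5
  have h6 : Real.log C ≤ ε * -Real.log δ := by
    have h7 : |Real.log C| / ε < -Real.log δ := by linarith
    rw [div_lt_iff₀ hεpos] at h7
    have := le_abs_self (Real.log C)
    nlinarith
  have h8 : y * -Real.log δ = -s * Real.log δ + ε * -Real.log δ := by rw [hε]; ring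
  rw [h8]
  linarith

/-- coordinates -/
def crd {n : ℕ} (B : Set (EuclideanSpace ℝ (Fin n))) : Set (Fin n → ℝ) :=
  {x | WithLp.toLp 2 x ∈ B}

theorem semi_crd {n : ℕ} {B : Set (EuclideanSpace ℝ (Fin n))} (h : Semialgebraic B) :
    SemiR (crd B) := by
  obtain ⟨Q, hQ⟩ := h
  exact ⟨Q, fun x y hxy hx => hQ (WithLp.toLp 2 x) (WithLp.toLp 2 y) hxy hx⟩

theorem volume_count {n e : ℕ} {B : Set (EuclideanSpace ℝ (Fin n))} (σ : Fin e → Fin n)
    {w : Fin e → ℝ} {ρ : ℝ} (hρ : 0 < ρ)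
    (hball : Metric.closedBall w ρ ⊆ {y : Fin e → ℝ | ∃ x ∈ crd B, ∀ i, x (σ i) = y i})
    {δ : ℝ} (hδ : 0 < δ) {N : ℕ} (U : Fin N → Set (EuclideanSpace ℝ (Fin n)))
    (hU : ∀ i, ∀ x ∈ U i, ∀ y ∈ U i, dist x y ≤ δ) (hB : B ⊆ ⋃ i, U i) :
    ρ ^ e * δ ^ (-(e : ℝ)) ≤ N := by
  classical
  let P : Fin N → Set (Fin e → ℝ) := fun i => {y | ∃ x ∈ U i, ∀ l, x (σ l) = y l}
  have hcov : Metric.closedBall w ρ ⊆ ⋃ i, P i := by
    intro y hy
    obtain ⟨x, hx, hxy⟩ := hball hy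
    obtain ⟨i, hi⟩ := Set.mem_iUnion.1 (hB hx)
    exact Set.mem_iUnion.2 ⟨i, WithLp.toLp 2 x, hi, hxy⟩
  have hP : ∀ i, volume (P i) ≤ ENNReal.ofReal ((2 * δ) ^ e) := by
    intro i
    rcases (P i).eq_empty_or_nonempty with h | ⟨y0, hy0⟩
    · rw [h, measure_empty]; exact bot_le
    · have hsub : P i ⊆ Metric.closedBall y0 δ := by
        intro y hy
        obtain ⟨x, hx, hxy⟩ := hy
        obtain ⟨x0, hx0, hxy0⟩ := hy0
        rw [Metric.mem_closedBall, dist_pi_le_iff hδ.le]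
        intro l
        rw [← hxy l, ← hxy0 l, Real.dist_eq]
        have h1 := hU i x hx x0 hx0
        rw [dist_eq_norm] at h1
        have h2 := PiLp.norm_apply_le (x - x0) (σ l)
        rw [PiLp.sub_apply, Real.norm_eq_abs] at h2
        exact h2.trans h1
      calc volume (P i) ≤ volume (Metric.closedBall y0 δ) := measure_mono hsub
        _ = ENNReal.ofReal ((2 * δ) ^ e) := by
          rw [Real.volume_pi_closedBall _ hδ.le, Fintype.card_fin]
  have h1 : ENNReal.ofReal ((2 * ρ) ^ e) ≤ ENNReal.ofReal (N * (2 * δ) ^ e) := by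
    calc ENNReal.ofReal ((2 * ρ) ^ e) = volume (Metric.closedBall w ρ) := by
          rw [Real.volume_pi_closedBall _ hρ.le, Fintype.card_fin]
      _ ≤ volume (⋃ i, P i) := measure_mono hcov
      _ ≤ ∑ i, volume (P i) := measure_iUnion_fintype_le _ _
      _ ≤ ∑ _i : Fin N, ENNReal.ofReal ((2 * δ) ^ e) := Finset.sum_le_sum fun i _ => hP i
      _ = ENNReal.ofReal (N * (2 * δ) ^ e) := by
        rw [Finset.sum_const, Finset.card_univ, Fintype.card_fin, nsmul_eq_mul,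
          ENNReal.ofReal_mul (Nat.cast_nonneg _), ENNReal.ofReal_natCast]
  have h2 : (2 * ρ) ^ e ≤ N * (2 * δ) ^ e := by
    rwa [ENNReal.ofReal_le_ofReal_iff (by positivity)] at h1
  rw [mul_pow, mul_pow] at h2
  have h3 : ρ ^ e ≤ N * δ ^ e := by
    have h4 : (0 : ℝ) < 2 ^ e := by positivity
    nlinarith
  rw [Real.rpow_neg hδ.le, Real.rpow_natCast, ← div_eq_mul_inv, div_le_iff₀ (by positivity)]
  exact h3

/-- The lower bound. -/
theorem lower_cover {n k : ℕ} (hk : 1 ≤ k) {B : Set (EuclideanSpace ℝ (Fin n))}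
    (hB : Semialgebraic B) {R : Set (EuclideanSpace ℝ (Fin n))}
    (hR : ∀ p : MvPolynomial (Fin n) ℝ, (∀ r ∈ R, eval (fun i => r i) p = 0) → p = 0)
    (h : ∀ r ∈ R, ∃ a : EuclideanSpace ℝ (Fin n), ∀ j : ℕ, j < k → a + (j : ℝ) • r ∈ B) :
    ∃ κ : ℝ, 0 < κ ∧ ∀ δ : ℝ, 0 < δ → ∀ (N : ℕ) (U : Fin N → Set (EuclideanSpace ℝ (Fin n))),
      (∀ i, ∀ x ∈ U i, ∀ y ∈ U i, dist x y ≤ δ) → B ⊆ ⋃ i, U i →
      κ * δ ^ (-((n - n / k : ℕ) : ℝ)) ≤ N := by
  classical
  have hRne : R.Nonempty := by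
    by_contra hno
    rw [Set.not_nonempty_iff_eq_empty] at hno
    have := hR 1 (by rw [hno]; intro r hr; exact absurd hr (Set.notMem_empty r))
    exact one_ne_zero this
  rcases Nat.eq_zero_or_pos (n - n / k) with he | he
  · refine ⟨1, one_pos, fun δ hδ N U hU hcov => ?_⟩
    rw [he, Nat.cast_zero, neg_zero, Real.rpow_zero, mul_one]
    obtain ⟨r, hr⟩ := hRne
    obtain ⟨a, ha⟩ := h r hr
    obtain ⟨i, -⟩ := Set.mem_iUnion.1 (hcov (ha 0 hk))
    have : 1 ≤ N := by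
      have := i.isLt
      omega
    exact_mod_cast this
  · have hnot : ¬ DimLE (n - n / k - 1) (crd B) := by
      intro hdim
      have hden : ZDense ((fun r : EuclideanSpace ℝ (Fin n) => (fun i => r i)) '' R) := by
        intro p hp
        exact hR p (fun r hr => hp _ ⟨r, hr, rfl⟩)
      have h1 := lower (n := n) ((Finset.range k).map ⟨fun j : ℕ => (j : ℝ), Nat.cast_injective⟩)
        (fun _ => n - n / k - 1) (fun _ => crd B) (fun _ _ => hdim) hden (fun r hr => ?_)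
      · rw [Finset.sum_const, Finset.card_map, Finset.card_range, smul_eq_mul] at h1
        have h2 : n - (n - n / k - 1) ≤ n / k := by
          rw [Nat.le_div_iff_mul_le hk, mul_comm]
          exact h1
        generalize n / k = q at *
        omega
      · obtain ⟨r', hr', rfl⟩ := hr
        obtain ⟨a, ha⟩ := h r' hr'
        refine ⟨fun i => a i, fun t ht => ?_⟩
        obtain ⟨j, hj, rfl⟩ := Finset.mem_map.1 ht
        exact ha j (Finset.mem_range.1 hj)
    obtain ⟨σ, hσ⟩ := not_dimLE hnot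
    obtain ⟨w, ρ, hρ, hball⟩ := exists_ball (semi_proj (semi_crd hB) σ) hσ
    have he' : n - n / k - 1 + 1 = n - n / k := Nat.sub_add_cancel he
    refine ⟨ρ ^ (n - n / k), by positivity, fun δ hδ N U hU hcov => ?_⟩
    have h3 := volume_count σ hρ hball hδ U hU hcov
    rw [he'] at h3
    exact h3

end Pool.Agent.TH539.AlgProg
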