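import Mathlib
import Pool.Agent.TH539.AlgProgDim

set_option autoImplicit false

/-!
The sharp example and the exact dimension threshold for semialgebraic sets.
-/

open MvPolynomial Filter Topology MeasureTheory

namespace Pool.Agent.TH539.AlgProg

/-- The example. -/
def Ex {n : ℕ} (k : ℕ) (S : ℕ → Finset (Fin n)) : Set (EuclideanSpace ℝ (Fin n)) :=
  {x | ∃ j < k, (∀ i ∈ S j, x i = 0) ∧ ∀ i, |x i| ≤ k}

theorem Ex.bounded {n k : ℕ} (S : ℕ → Finset (Fin n)) : Bornology.IsBounded (Ex k S) := by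
  rw [Metric.isBounded_iff_subset_closedBall (0 : EuclideanSpace ℝ (Fin n))]
  refine ⟨n * k, fun x hx => ?_⟩
  obtain ⟨j, -, -, hx⟩ := hx
  rw [mem_closedBall_zero_iff, EuclideanSpace.norm_eq]
  apply Real.sqrt_le_iff.2 ⟨by positivity, ?_⟩
  calc ∑ i, ‖x i‖ ^ 2 ≤ ∑ _i : Fin n, (k : ℝ) ^ 2 := by
        apply Finset.sum_le_sum
        intro i _
        rw [Real.norm_eq_abs]
        exact pow_le_pow_left₀ (abs_nonneg _) (hx i) 2
    _ = n * (k : ℝ) ^ 2 := by
        rw [Finset.sum_const, Finset.card_univ, Fintype.card_fin, nsmul_eq_mul]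
    _ ≤ (n * k : ℝ) ^ 2 := by
        rw [mul_pow]
        apply mul_le_mul_of_nonneg_right _ (by positivity)
        rcases Nat.eq_zero_or_pos n with h | h
        · rw [h]; norm_num
        · have : (1 : ℝ) ≤ n := by exact_mod_cast h
          nlinarith

theorem Ex.semialgebraic {n k : ℕ} (S : ℕ → Finset (Fin n)) : Semialgebraic (Ex k S) := by
  classical
  refine ⟨Finset.univ.biUnion (fun i : Fin n =>
    ({X i, X i - C (k : ℝ), X i + C (k : ℝ)} : Finset (MvPolynomial (Fin n) ℝ))), ?_⟩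
  intro x y hxy hx
  have hmem : ∀ (i : Fin n) (q : MvPolynomial (Fin n) ℝ), q = X i ∨ q = X i - C (k : ℝ) ∨
      q = X i + C (k : ℝ) → q ∈ Finset.univ.biUnion (fun i : Fin n =>
    ({X i, X i - C (k : ℝ), X i + C (k : ℝ)} : Finset (MvPolynomial (Fin n) ℝ))) := by
    intro i q hq
    rw [Finset.mem_biUnion]
    refine ⟨i, Finset.mem_univ i, ?_⟩
    simpa using hq
  obtain ⟨j, hj, h1, h2⟩ := hx
  refine ⟨j, hj, fun i hi => ?_, fun i => ?_⟩
  · have h3 := hxy (X i) (hmem i _ (Or.inl rfl))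
    rw [eval_X, eval_X, h1 i hi, sign_zero] at h3
    exact sign_eq_zero_iff.1 h3.symm
  · have h4 := abs_le.1 (h2 i)
    have h3 := hxy (X i - C (k : ℝ)) (hmem i _ (Or.inr (Or.inl rfl)))
    have h5 := hxy (X i + C (k : ℝ)) (hmem i _ (Or.inr (Or.inr rfl)))
    rw [eval_sub, eval_sub, eval_X, eval_X, eval_C, eval_C] at h3
    rw [eval_add, eval_add, eval_X, eval_X, eval_C, eval_C] at h5
    have h6 : SignType.sign (x i - k) ≤ 0 := sign_nonpos_iff.2 (by linarith)
    have h7 : 0 ≤ SignType.sign (x i + k) := sign_nonneg_iff.2 (by linarith)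
    rw [h3] at h6
    rw [h5] at h7
    have h8 := sign_nonpos_iff.1 h6
    have h9 := sign_nonneg_iff.1 h7
    rw [abs_le]
    constructor <;> linarith

theorem Ex.count {n k e : ℕ} (hk : 1 ≤ k) (S : ℕ → Finset (Fin n))
    (hS : ∀ j < k, n - (S j).card = e) {δ : ℝ} (hδ : 0 < δ) (hδ1 : δ < 1) :
    (coverNum (Ex k S) δ : ℝ) ≤ (k * (2 * k * (n + 1) + 3) ^ e) * δ ^ (-(e : ℝ)) := by
  classical
  set h : ℝ := δ / (n + 1) with hh
  have hpos : 0 < h := by positivity
  have hhδ : h * (n + 1) = δ := by rw [hh]; field_simp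
  set K : ℕ := ⌈(k : ℝ) / h⌉₊ with hK
  have hK1 : (k : ℝ) / h ≤ K := Nat.le_ceil _
  have hK2 : (K : ℝ) ≤ k / h + 1 := (Nat.ceil_lt_add_one (by positivity)).le
  let I : ℕ → Finset (Fin n → ℤ) := fun j =>
    Fintype.piFinset (fun i => if i ∈ S j then ({0} : Finset ℤ) else Finset.Icc (-(K : ℤ)) K)
  let J : Finset (Fin n → ℤ) := (Finset.range k).biUnion I
  let W : (Fin n → ℤ) → Set (EuclideanSpace ℝ (Fin n)) := fun c =>
    {x | ∀ i, (c i : ℝ) * h ≤ x i ∧ x i ≤ (c i + 1) * h}
  have hcardI : ∀ j < k, (I j).card = (2 * K + 1) ^ e := by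
    intro j hj
    rw [Fintype.card_piFinset]
    have h1 : ∀ i : Fin n, (if i ∈ S j then ({0} : Finset ℤ) else Finset.Icc (-(K : ℤ)) K).card =
        if i ∈ S j then 1 else 2 * K + 1 := by
      intro i
      split_ifs
      · rfl
      · rw [Int.card_Icc]; omega
    rw [Finset.prod_congr rfl fun i _ => h1 i, Finset.prod_ite, Finset.prod_const_one, one_mul,
      Finset.prod_const, ← hS j hj]
    congr 1
    rw [← Finset.compl_filter, Finset.card_compl, Fintype.card_fin, Finset.filter_mem_eq_inter,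
      Finset.univ_inter]
  have hcardJ : J.card ≤ k * (2 * K + 1) ^ e := by
    calc J.card ≤ ∑ j ∈ Finset.range k, (I j).card := Finset.card_biUnion_le
      _ = ∑ _j ∈ Finset.range k, (2 * K + 1) ^ e :=
        Finset.sum_congr rfl fun j hj => hcardI j (Finset.mem_range.1 hj)
      _ = k * (2 * K + 1) ^ e := by rw [Finset.sum_const, Finset.card_range, smul_eq_mul]
  have hcov : coverNum (Ex k S) δ ≤ J.card := by
    apply Nat.sInf_le
    refine ⟨fun l => W (J.equivFin.symm l), ?_, ?_⟩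
    · intro l x hx y hy
      rw [EuclideanSpace.dist_eq]
      apply Real.sqrt_le_iff.2 ⟨hδ.le, ?_⟩
      calc ∑ i, dist (x i) (y i) ^ 2 ≤ ∑ _i : Fin n, h ^ 2 := by
            apply Finset.sum_le_sum
            intro i _
            apply pow_le_pow_left₀ dist_nonneg
            rw [Real.dist_eq, abs_le]
            have h1 := hx i
            have h2 := hy i
            constructor <;> linarith [h1.1, h1.2, h2.1, h2.2]
        _ = n * h ^ 2 := by
            rw [Finset.sum_const, Finset.card_univ, Fintype.card_fin, nsmul_eq_mul]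
        _ ≤ δ ^ 2 := by
            rw [← hhδ, mul_pow, mul_comm]
            apply mul_le_mul_of_nonneg_left _ (by positivity)
            have : (0 : ℝ) ≤ n := Nat.cast_nonneg n
            nlinarith
    · intro x hx
      obtain ⟨j, hj, h1, h2⟩ := hx
      have hc : (fun i => ⌊x i / h⌋) ∈ J := by
        rw [Finset.mem_biUnion]
        refine ⟨j, Finset.mem_range.2 hj, ?_⟩
        rw [Fintype.mem_piFinset]
        intro i
        by_cases hi : i ∈ S j
        · rw [if_pos hi, Finset.mem_singleton, h1 i hi, zero_div, Int.floor_zero]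
        · rw [if_neg hi, Finset.mem_Icc]
          have h3 := abs_le.1 (h2 i)
          constructor
          · rw [Int.le_floor]
            push_cast
            rw [le_div_iff₀ hpos]
            have h4 := (div_le_iff₀ hpos).1 hK1
            linarith [h3.1]
          · have h5 : ((⌊x i / h⌋ : ℤ) : ℝ) ≤ K :=
              (Int.floor_le _).trans ((div_le_div_of_nonneg_right h3.2 hpos.le).trans hK1)
            exact_mod_cast h5
      refine Set.mem_iUnion.2 ⟨J.equivFin ⟨_, hc⟩, ?_⟩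
      rw [Equiv.symm_apply_apply]
      intro i
      constructor
      · have h6 := Int.floor_le (x i / h)
        exact (le_div_iff₀ hpos).1 h6
      · have h6 := (Int.lt_floor_add_one (x i / h)).le
        exact (div_le_iff₀ hpos).1 h6
  have h7 : (2 * K + 1 : ℝ) ≤ (2 * k * (n + 1) + 3) * δ⁻¹ := by
    have h8 : (k : ℝ) / h = k * (n + 1) * δ⁻¹ := by
      rw [hh]; field_simp
    have h9 : 1 ≤ δ⁻¹ := (one_le_inv₀ hδ).2 hδ1.le
    rw [h8] at hK2
    nlinarith
  calc (coverNum (Ex k S) δ : ℝ) ≤ (J.card : ℝ) := by exact_mod_cast hcov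
    _ ≤ k * (2 * K + 1 : ℝ) ^ e := by exact_mod_cast hcardJ
    _ ≤ k * ((2 * k * (n + 1) + 3) * δ⁻¹) ^ e := by
        apply mul_le_mul_of_nonneg_left _ (Nat.cast_nonneg k)
        exact pow_le_pow_left₀ (by positivity) h7 e
    _ = (k * (2 * k * (n + 1) + 3) ^ e) * δ ^ (-(e : ℝ)) := by
        rw [Real.rpow_neg hδ.le, Real.rpow_natCast, mul_pow, inv_pow]
        ring

theorem upper {n k : ℕ} (hk : 1 ≤ k) :
    ∃ B : Set (EuclideanSpace ℝ (Fin n)), Bornology.IsBounded B ∧ Semialgebraic B ∧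
      HasProgressions k B ∧ upperMinkowski B ≤ (((n - n / k : ℕ) : ℝ) : EReal) := by
  classical
  set T : Finset ℝ := (Finset.range k).map ⟨fun j : ℕ => (j : ℝ), Nat.cast_injective⟩ with hT
  have hsum : ∑ t ∈ T, (n - (n - n / k)) ≤ n := by
    rw [Finset.sum_const, hT, Finset.card_map, Finset.card_range, smul_eq_mul]
    have h1 : n - (n - n / k) = n / k := by
      have := Nat.div_le_self n k
      exact Nat.sub_sub_self this
    rw [h1]
    exact Nat.mul_div_le n k
  obtain ⟨τ, hτ1, hτ⟩ := exists_tau (n := n) T (fun _ => n - n / k) hsum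
  choose! S hS1 hS2 using hτ
  have hmemT : ∀ j < k, (j : ℝ) ∈ T := fun j hj => Finset.mem_map.2 ⟨j, Finset.mem_range.2 hj, rfl⟩
  refine ⟨Ex k (fun j => S (j : ℝ)), Ex.bounded _, Ex.semialgebraic _, ?_, ?_⟩
  · intro r hr
    refine ⟨WithLp.toLp 2 (fun i => - (τ i * r i)), fun j hj => ⟨j, hj, ?_, ?_⟩⟩
    · intro i hi
      change - (τ i * r i) + (j : ℝ) * r i = 0
      rw [hS2 _ (hmemT j hj) i hi]
      ring
    · intro i
      change |- (τ i * r i) + (j : ℝ) * r i| ≤ k
      obtain ⟨l, hl, hτl⟩ : ∃ l : ℕ, l ≤ k ∧ τ i = l := by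
        rcases hτ1 i with h | h
        · obtain ⟨l, hl, hl'⟩ := Finset.mem_map.1 h
          exact ⟨l, (Finset.mem_range.1 hl).le, hl'.symm⟩
        · exact ⟨0, Nat.zero_le _, by rw [h, Nat.cast_zero]⟩
      rw [hτl]
      have h0 := (hr i).1
      have h1 := (hr i).2
      have h2 : (l : ℝ) ≤ k := by exact_mod_cast hl
      have h3 : (j : ℝ) ≤ k := by exact_mod_cast hj.le
      have h4 : (0 : ℝ) ≤ l := Nat.cast_nonneg _
      have h5 : (0 : ℝ) ≤ j := Nat.cast_nonneg _
      rw [abs_le]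
      constructor
      · nlinarith
      · nlinarith
  · have hcard : ∀ j < k, n - (S (j : ℝ)).card = n - n / k := by
      intro j hj
      rw [hS1 _ (hmemT j hj)]
      have := Nat.div_le_self n k
      rw [Nat.sub_sub_self this]
    refine dim_le (C := k * (2 * k * (n + 1) + 3) ^ (n - n / k)) ?_ (Nat.cast_nonneg _) ?_
    · have h1 : (1 : ℝ) ≤ k := by exact_mod_cast hk
      have h2 : (1 : ℝ) ≤ (2 * k * (n + 1) + 3) ^ (n - n / k) := by
        apply one_le_pow₀
        have : (0 : ℝ) ≤ 2 * k * (n + 1) := by positivity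
        linarith
      nlinarith
    · intro δ hδ hδ1
      exact Ex.count hk _ hcard hδ hδ1

/-- the lower bound, dimension form -/
theorem lower_dim {n k : ℕ} (hk : 1 ≤ k) {B : Set (EuclideanSpace ℝ (Fin n))}
    (hBb : Bornology.IsBounded B) (hB : Semialgebraic B)
    {R : Set (EuclideanSpace ℝ (Fin n))}
    (hR : ∀ p : MvPolynomial (Fin n) ℝ, (∀ r ∈ R, eval (fun i => r i) p = 0) → p = 0)
    (h : ∀ r ∈ R, ∃ a : EuclideanSpace ℝ (Fin n), ∀ j : ℕ, j < k → a + (j : ℝ) • r ∈ B) :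
    (((n - n / k : ℕ) : ℝ) : EReal) ≤ upperMinkowski B := by
  obtain ⟨κ, hκ, hcov⟩ := lower_cover hk hB hR h
  refine le_dim hκ fun δ hδ => ?_
  obtain ⟨U, hU, hBU⟩ := Nat.sInf_mem (cover_nonempty hBb hδ)
  exact hcov δ hδ _ U hU hBU

theorem cube_dense {n : ℕ} (p : MvPolynomial (Fin n) ℝ)
    (hp : ∀ r ∈ {r : EuclideanSpace ℝ (Fin n) | ∀ i, r i ∈ Set.Icc (0 : ℝ) 1},
      eval (fun i => r i) p = 0) : p = 0 :=
  zdense_cube p (fun r hr => hp (WithLp.toLp 2 r) hr)

theorem least {n k : ℕ} (hk : 1 ≤ k) :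
    IsLeast {D : EReal | ∃ B : Set (EuclideanSpace ℝ (Fin n)), Bornology.IsBounded B ∧
      Semialgebraic B ∧ HasProgressions k B ∧ upperMinkowski B = D}
      (((n - n / k : ℕ) : ℝ) : EReal) := by
  constructor
  · obtain ⟨B, h1, h2, h3, h4⟩ := upper (n := n) hk
    exact ⟨B, h1, h2, h3, le_antisymm h4 (lower_dim hk h1 h2 cube_dense (fun r hr => h3 r hr))⟩
  · rintro D ⟨B, h1, h2, h3, rfl⟩
    exact lower_dim hk h1 h2 cube_dense (fun r hr => h3 r hr)

end Pool.Agent.TH539.AlgProg
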