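import Mathlib
import Pool.Agent.H458.Sp.AllBase
import Pool.Agent.H458.Sp.Digits

set_option autoImplicit false

/-! # Sparse integral points on hyperelliptic curves: a bound polynomial in the coefficients -/

namespace Pool.Agent.TH539.HLSparse

open Pool.Agent.H458.Sp

open Polynomial in
/-- A polynomial without repeated roots of degree at least two takes square values at constant
polynomials only. -/
theorem no_curveQ (F P Q : Polynomial ℚ) (hs : F.Separable) (hd : 2 ≤ F.natDegree)
    (h : Q ^ 2 = F.comp P) : P.natDegree = 0 := by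
  obtain ⟨a, b, hab⟩ := hs
  have h1 : (a.comp P) * (F.comp P) + (b.comp P) * ((derivative F).comp P) = 1 := by
    have := congrArg (fun g : Polynomial ℚ => g.comp P) hab
    simpa [add_comp, mul_comp] using this
  have hcop : IsCoprime Q ((derivative F).comp P) := by
    refine ⟨a.comp P * Q, b.comp P, ?_⟩
    calc a.comp P * Q * Q + b.comp P * (derivative F).comp P
        = a.comp P * Q ^ 2 + b.comp P * (derivative F).comp P := by ring
      _ = 1 := by rw [h, h1]
  have h2 : Q * (2 * derivative Q) = (derivative F).comp P * derivative P := by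
    have := congrArg derivative h
    rw [derivative_comp, derivative_pow] at this
    simp only [Nat.cast_ofNat, Nat.add_one_sub_one, pow_one] at this
    have e : (C (2 : ℚ) : Polynomial ℚ) = 2 := rfl
    rw [e] at this
    calc Q * (2 * derivative Q) = 2 * Q * derivative Q := by ring
      _ = derivative P * (derivative F).comp P := this
      _ = _ := by ring
  have h3 : Q ∣ derivative P := hcop.dvd_of_dvd_mul_left ⟨_, h2.symm⟩
  by_contra hP
  have hP1 : 1 ≤ P.natDegree := Nat.one_le_iff_ne_zero.2 hP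
  have hP' : derivative P ≠ 0 := by
    intro h0
    exact hP (derivative_eq_zero.1 h0)
  have h4 : Q.natDegree ≤ (derivative P).natDegree := natDegree_le_of_dvd h3 hP'
  have h5 : (derivative P).natDegree < P.natDegree := natDegree_derivative_lt hP
  have h6 : 2 * Q.natDegree = F.natDegree * P.natDegree := by
    rw [← natDegree_comp, ← h, natDegree_pow]
  nlinarith

open Polynomial in
/-- the same for polynomials with a common denominator -/
theorem no_curve (f p w : Polynomial ℤ) (d q : ℕ) (hq : 1 ≤ q) (hfd : f.natDegree ≤ d)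
    (hs : (f.map (Int.castRingHom ℚ)).Separable) (hd : 2 ≤ f.natDegree)
    (h : (q : Polynomial ℤ) ^ (d - 2) * w ^ 2 =
      ∑ i ∈ Finset.range (d + 1), C (f.coeff i) * (q : Polynomial ℤ) ^ (d - i) * p ^ i) :
    p.natDegree = 0 ∧ w.natDegree = 0 := by
  have hinj : Function.Injective (Int.castRingHom ℚ) := (Int.castRingHom ℚ).injective_int
  have hqQ : (q : ℚ) ≠ 0 := by
    have : q ≠ 0 := by omega
    exact_mod_cast this
  set F := f.map (Int.castRingHom ℚ) with hF
  set P : Polynomial ℚ := C ((q : ℚ)⁻¹) * p.map (Int.castRingHom ℚ) with hP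
  set Q : Polynomial ℚ := C ((q : ℚ)⁻¹) * w.map (Int.castRingHom ℚ) with hQ
  have hqP : p.map (Int.castRingHom ℚ) = C (q : ℚ) * P := by
    rw [hP, ← mul_assoc, ← C_mul, mul_inv_cancel₀ hqQ, C_1, one_mul]
  have hqW : w.map (Int.castRingHom ℚ) = C (q : ℚ) * Q := by
    rw [hQ, ← mul_assoc, ← C_mul, mul_inv_cancel₀ hqQ, C_1, one_mul]
  have hFd : F.natDegree = f.natDegree := natDegree_map_eq_of_injective hinj _
  have hcq : (C (q : ℚ) : Polynomial ℚ) ≠ 0 := by simpa using hqQ
  have h1 : C (q : ℚ) ^ d * Q ^ 2 = C (q : ℚ) ^ d * F.comp P := by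
    have h2 := congrArg (Polynomial.map (Int.castRingHom ℚ)) h
    simp only [Polynomial.map_mul, Polynomial.map_pow, Polynomial.map_natCast,
      Polynomial.map_sum, Polynomial.map_C] at h2
    rw [hqP, hqW] at h2
    rw [Polynomial.comp, Polynomial.eval₂_eq_sum_range' _ (Nat.lt_succ_of_le (hFd.le.trans hfd)),
      Finset.mul_sum]
    have e1 : ((q : Polynomial ℚ)) = C (q : ℚ) := by simp
    rw [e1] at h2
    calc C (q : ℚ) ^ d * Q ^ 2 = C (q : ℚ) ^ (d - 2) * (C (q : ℚ) * Q) ^ 2 := by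
          have e3 : (C (q : ℚ) : Polynomial ℚ) ^ d = C (q : ℚ) ^ (d - 2) * C (q : ℚ) ^ 2 := by
            rw [← pow_add]
            congr 1
            omega
          rw [e3]
          ring
      _ = _ := h2
      _ = _ := by
          refine Finset.sum_congr rfl fun i hi => ?_
          have hi' : i ≤ d := Nat.lt_succ_iff.1 (Finset.mem_range.1 hi)
          have e2 : C (q : ℚ) ^ d = C (q : ℚ) ^ (d - i) * C (q : ℚ) ^ i := by
            rw [← pow_add]
            congr 1
            omega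
          rw [hF, coeff_map, mul_pow, e2]
          ring
  have h3 : Q ^ 2 = F.comp P := mul_left_cancel₀ (pow_ne_zero d hcq) h1
  have h4 := no_curveQ F P Q hs (by rw [hFd]; exact hd) h3
  have h5 : Q.natDegree = 0 := by
    have h6 := congrArg natDegree h3
    rw [natDegree_pow, natDegree_comp, h4, mul_zero] at h6
    omega
  have hci : ((q : ℚ)⁻¹) ≠ 0 := inv_ne_zero hqQ
  constructor
  · rw [hP, natDegree_C_mul hci, natDegree_map_eq_of_injective hinj] at h4
    exact h4
  · rw [hQ, natDegree_C_mul hci, natDegree_map_eq_of_injective hinj] at h5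
    exact h5

open MvPolynomial in
/-- the equation satisfied by `(q x, q y)` if `y ^ 2 = f(x)` -/
noncomputable def eqn (f : Polynomial ℤ) (d q : ℕ) : MvPolynomial (Fin 2) ℤ :=
  C ((q : ℤ) ^ (d - 2)) * X 1 ^ 2 -
    ∑ i ∈ Finset.range (d + 1), C (f.coeff i * (q : ℤ) ^ (d - i)) * X 0 ^ i

open MvPolynomial in
theorem eqn_eval (f : Polynomial ℤ) (d q : ℕ) (hd2 : 2 ≤ d) (hd : f.natDegree ≤ d) (x y : ℤ)
    (h : y ^ 2 = f.eval x) :
    eval ![(q : ℤ) * x, (q : ℤ) * y] (eqn f d q) = 0 := by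
  rw [Polynomial.eval_eq_sum_range' (Nat.lt_succ_of_le hd)] at h
  unfold eqn
  have h1 : (q : ℤ) ^ (d - 2) * ((q : ℤ) * y) ^ 2 = (q : ℤ) ^ d * y ^ 2 := by
    rw [mul_pow, ← mul_assoc, ← pow_add]
    congr 2
    omega
  simp only [map_sub, map_mul, map_pow, eval_C, eval_X, map_sum, Matrix.cons_val_zero,
    Matrix.cons_val_one]
  rw [h1, h, Finset.mul_sum, ← Finset.sum_sub_distrib]
  refine Finset.sum_eq_zero fun i hi => ?_
  have hi' : i ≤ d := Nat.lt_succ_iff.1 (Finset.mem_range.1 hi)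
  have e2 : (q : ℤ) ^ d = (q : ℤ) ^ (d - i) * (q : ℤ) ^ i := by
    rw [← pow_add]
    congr 1
    omega
  rw [mul_pow, e2]
  ring

open MvPolynomial in
theorem eqn_aeval (f : Polynomial ℤ) (d q : ℕ) (p : Fin 2 → Polynomial ℤ)
    (h : aeval p (eqn f d q) = 0) :
    (q : Polynomial ℤ) ^ (d - 2) * p 1 ^ 2 = ∑ i ∈ Finset.range (d + 1),
      Polynomial.C (f.coeff i) * (q : Polynomial ℤ) ^ (d - i) * p 0 ^ i := by
  unfold eqn at h
  rw [map_sub, sub_eq_zero] at h
  simpa using h

open MvPolynomial in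
theorem eqn_degree (f : Polynomial ℤ) (d q : ℕ) (hd : 2 ≤ d) :
    (eqn f d q).totalDegree ≤ d := by
  unfold eqn
  refine (totalDegree_sub _ _).trans (max_le ?_ ?_)
  · refine (totalDegree_mul _ _).trans ?_
    rw [totalDegree_C, totalDegree_X_pow, zero_add]
    exact hd
  · refine totalDegree_finsetSum_le fun i hi => ?_
    refine (totalDegree_mul _ _).trans ?_
    rw [totalDegree_C, totalDegree_X_pow, zero_add]
    exact Nat.lt_succ_iff.1 (Finset.mem_range.1 hi)

open MvPolynomial in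
theorem eqn_nz (f : Polynomial ℤ) (d q : ℕ) (hq : 1 ≤ q) :
    nz (eqn f d q) ≤ (q : ℤ) ^ d * (1 + ∑ i ∈ Finset.range (d + 1), |f.coeff i|) := by
  unfold eqn
  rw [sub_eq_add_neg]
  refine (nz_add _ _).trans ?_
  rw [nz_neg, mul_add, Finset.mul_sum]
  have hq1 : (1 : ℤ) ≤ q := by exact_mod_cast hq
  refine add_le_add ?_ ((nz_sum _ _).trans (Finset.sum_le_sum fun i _ => ?_))
  · rw [X_pow_eq_monomial, C_mul_monomial, mul_one]
    refine (nz_monomial _ _).trans ?_
    rw [abs_of_nonneg (by positivity), mul_one]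
    exact pow_le_pow_right₀ hq1 (by omega)
  · rw [X_pow_eq_monomial, C_mul_monomial, mul_one]
    refine (nz_monomial _ _).trans ?_
    rw [abs_mul, abs_of_nonneg (by positivity : (0 : ℤ) ≤ (q : ℤ) ^ (d - i)), mul_comm]
    exact mul_le_mul_of_nonneg_right (pow_le_pow_right₀ hq1 (by omega)) (abs_nonneg _)

/-- **Sparse integral points on `y ^ 2 = f(x)`**, `f` without repeated roots. -/
theorem sparse_hyper (f : Polynomial ℤ) (d : ℕ) (hd2 : 2 ≤ f.natDegree) (hfd : f.natDegree ≤ d)
    (hsep : (f.map (Int.castRingHom ℚ)).Separable) (A : ℕ)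
    (b r B q : ℕ) (hb : 2 ≤ b) (hq : 1 ≤ q)
    (hA : (q : ℤ) ^ d * (1 + ∑ i ∈ Finset.range (d + 1), |f.coeff i|) ≤ (A : ℤ))
    (x y : ℤ) (hS : SparsePair b r B ((q : ℤ) * x) ((q : ℤ) * y)) (h : y ^ 2 = f.eval x) :
    |x| ≤ ((r * B * ((1 + A) * (r * B) ^ d) ^ (4 * (4 * d) ^ r) : ℕ) : ℤ) ∧
    |y| ≤ ((r * B * ((1 + A) * (r * B) ^ d) ^ (4 * (4 * d) ^ r) : ℕ) : ℤ) := by
  obtain ⟨e, c, c', hc, hc', hx, hy⟩ := hS
  have hq1 : (1 : ℤ) ≤ q := by exact_mod_cast hq
  have hA1 : 1 ≤ A := by
    have h1 : (0 : ℤ) ≤ ∑ i ∈ Finset.range (d + 1), |f.coeff i| :=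
      Finset.sum_nonneg fun _ _ => abs_nonneg _
    have h3 : (1 : ℤ) ≤ (q : ℤ) ^ d := one_le_pow₀ hq1
    have h2 : (1 : ℤ) ≤ A := by nlinarith
    exact_mod_cast h2
  rcases affine_dichotomy_all {eqn f d q} d (by omega) A hA1
    (by rintro F rfl; exact eqn_degree f d q (by omega))
    (by rintro F rfl; exact (eqn_nz f d q hq).trans hA) b hb B e ![c, c']
    (by
      intro i j
      fin_cases i
      · exact hc j
      · exact hc' j) ![(q : ℤ) * x, (q : ℤ) * y]
    (by
      intro i
      fin_cases i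
      · exact hx
      · exact hy)
    (by
      rintro F rfl
      exact eqn_eval f d q (by omega) hfd x y h) with ⟨p, hp, hpe, i, hi⟩ | hsmall
  · exfalso
    have h2 := no_curve f (p 0) (p 1) d q hq hfd hsep hd2 (eqn_aeval f d q p (hp _ rfl))
    fin_cases i
    · exact hi h2.1
    · exact hi h2.2
  · have hle : ∀ z : ℤ, |z| ≤ |(q : ℤ) * z| := by
      intro z
      rw [abs_mul, abs_of_nonneg (by linarith : (0 : ℤ) ≤ q)]
      nlinarith [abs_nonneg z]
    exact ⟨(hle x).trans (hsmall 0), (hle y).trans (hsmall 1)⟩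

end Pool.Agent.TH539.HLSparse
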