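import Mathlib
import Pool.Agent.TH539.HLSparse

set_option autoImplicit false

/-! # Digit changes, and the final bounds for sparse integral points -/

namespace Pool.Agent.TH539.HLSparse

open Pool.Agent.H458.Sp

/-- the number of places at which the base `b` digits of `|x|` and of `b ^ k * |x|` differ -/
noncomputable def digitChanges (b k : ℕ) (x : ℤ) : ℕ :=
  Set.ncard {i : ℕ | x.natAbs / b ^ i % b ≠ b ^ k * x.natAbs / b ^ i % b}

theorem mod_sum (b n : ℕ) : ∀ N : ℕ, n % b ^ N = ∑ i ∈ Finset.range N, n / b ^ i % b * b ^ i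
  | 0 => by simp [Nat.mod_one]
  | N + 1 => by
    rw [Finset.sum_range_succ, ← mod_sum b n N, Nat.mod_pow_succ, mul_comm (b ^ N)]

theorem digit_sum (b n N : ℕ) (h : n < b ^ N) :
    (n : ℤ) = ∑ i ∈ Finset.range N, ((n / b ^ i % b : ℕ) : ℤ) * (b : ℤ) ^ i := by
  have h1 := mod_sum b n N
  rw [Nat.mod_eq_of_lt h] at h1
  have h2 : ((n : ℕ) : ℤ) = ((∑ i ∈ Finset.range N, n / b ^ i % b * b ^ i : ℕ) : ℤ) :=
    congrArg _ h1
  rw [h2]
  push_cast
  rfl

theorem changes_nat (b k n : ℕ) (hb : 2 ≤ b) :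
    ∃ (e : Fin (Set.ncard {i : ℕ | n / b ^ i % b ≠ b ^ k * n / b ^ i % b}) → ℕ)
      (c : Fin (Set.ncard {i : ℕ | n / b ^ i % b ≠ b ^ k * n / b ^ i % b}) → ℤ),
      (∀ j, |c j| ≤ b) ∧ ((b : ℤ) ^ k - 1) * n = ∑ j, c j * (b : ℤ) ^ (e j) := by
  classical
  set N := b ^ k * n with hN
  have h1 : b ^ k * n < b ^ N := Nat.lt_pow_self (by omega)
  have hk1 : 1 ≤ b ^ k := Nat.one_le_pow _ _ (by omega)
  have h2 : n < b ^ N := lt_of_le_of_lt (Nat.le_mul_of_pos_left _ hk1) h1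
  set S := (Finset.range N).filter (fun i => n / b ^ i % b ≠ b ^ k * n / b ^ i % b) with hS
  have hset : {i : ℕ | n / b ^ i % b ≠ b ^ k * n / b ^ i % b} = (S : Set ℕ) := by
    ext i
    simp only [Set.mem_ofPred_eq, hS, Finset.coe_filter, Finset.mem_range]
    refine ⟨fun h => ⟨?_, h⟩, fun h => h.2⟩
    by_contra hcon
    have h3 : b ^ N ≤ b ^ i := Nat.pow_le_pow_right (by omega) (by omega)
    apply h
    rw [Nat.div_eq_of_lt (lt_of_lt_of_le h2 h3), Nat.div_eq_of_lt (lt_of_lt_of_le h1 h3)]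
  have hcard : Set.ncard {i : ℕ | n / b ^ i % b ≠ b ^ k * n / b ^ i % b} = S.card := by
    rw [hset, Set.ncard_coe_finset]
  rw [hcard]
  refine ⟨fun j => ((S.equivFin.symm j : S) : ℕ), fun j =>
    ((b ^ k * n / b ^ ((S.equivFin.symm j : S) : ℕ) % b : ℕ) : ℤ) -
      ((n / b ^ ((S.equivFin.symm j : S) : ℕ) % b : ℕ) : ℤ), ?_, ?_⟩
  · intro j
    have h3 := Nat.mod_lt (b ^ k * n / b ^ ((S.equivFin.symm j : S) : ℕ)) (by omega : 0 < b)
    have h4 := Nat.mod_lt (n / b ^ ((S.equivFin.symm j : S) : ℕ)) (by omega : 0 < b)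
    show |((b ^ k * n / b ^ ((S.equivFin.symm j : S) : ℕ) % b : ℕ) : ℤ) -
      ((n / b ^ ((S.equivFin.symm j : S) : ℕ) % b : ℕ) : ℤ)| ≤ b
    generalize b ^ k * n / b ^ ((S.equivFin.symm j : S) : ℕ) % b = u at h3 ⊢
    generalize n / b ^ ((S.equivFin.symm j : S) : ℕ) % b = v at h4 ⊢
    rw [abs_le]
    constructor <;> omega
  · have h5 : ∑ j : Fin S.card, (((b ^ k * n / b ^ ((S.equivFin.symm j : S) : ℕ) % b : ℕ) : ℤ) -
        ((n / b ^ ((S.equivFin.symm j : S) : ℕ) % b : ℕ) : ℤ)) *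
          (b : ℤ) ^ ((S.equivFin.symm j : S) : ℕ) =
        ∑ i ∈ S, (((b ^ k * n / b ^ i % b : ℕ) : ℤ) - ((n / b ^ i % b : ℕ) : ℤ)) * (b : ℤ) ^ i := by
      rw [← Finset.sum_coe_sort S]
      exact Equiv.sum_comp S.equivFin.symm (fun i : S =>
        (((b ^ k * n / b ^ (i : ℕ) % b : ℕ) : ℤ) - ((n / b ^ (i : ℕ) % b : ℕ) : ℤ)) *
          (b : ℤ) ^ (i : ℕ))
    rw [h5, hS, Finset.sum_filter_of_ne]
    · have h6 := digit_sum b (b ^ k * n) N h1
      have h7 := digit_sum b n N h2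
      calc ((b : ℤ) ^ k - 1) * n = ((b ^ k * n : ℕ) : ℤ) - (n : ℤ) := by push_cast; ring
        _ = _ := by
          conv_lhs => rw [h6, h7]
          rw [← Finset.sum_sub_distrib]
          exact Finset.sum_congr rfl fun i _ => by ring
    · intro i _ h8 h9
      apply h8
      rw [h9, sub_self, zero_mul]

theorem changes_rep (b k : ℕ) (hb : 2 ≤ b) (x : ℤ) :
    ∃ (e : Fin (digitChanges b k x) → ℕ) (c : Fin (digitChanges b k x) → ℤ),
      (∀ j, |c j| ≤ b) ∧ ((b : ℤ) ^ k - 1) * x = ∑ j, c j * (b : ℤ) ^ (e j) := by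
  obtain ⟨e, c, h1, h2⟩ := changes_nat b k x.natAbs hb
  rcases Int.natAbs_eq x with hx | hx
  · refine ⟨e, c, h1, ?_⟩
    conv_lhs => rw [hx]
    exact h2
  · refine ⟨e, fun j => - c j, fun j => by rw [abs_neg]; exact h1 j, ?_⟩
    have h3 : ((b : ℤ) ^ k - 1) * x = - (((b : ℤ) ^ k - 1) * (x.natAbs : ℤ)) := by
      conv_lhs => rw [hx]
      ring
    rw [h3, h2, ← Finset.sum_neg_distrib]
    exact Finset.sum_congr rfl fun j _ => by ring

/-- integers with few digit changes, multiplied by `b ^ k - 1`, form sparse pairs -/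
theorem sparsePair_changes (b k : ℕ) (hb : 2 ≤ b) (x y : ℤ) :
    SparsePair b (digitChanges b k x + digitChanges b k y) b
      (((b ^ k - 1 : ℕ) : ℤ) * x) (((b ^ k - 1 : ℕ) : ℤ) * y) := by
  have hk1 : 1 ≤ b ^ k := Nat.one_le_pow _ _ (by omega)
  rw [Nat.cast_sub hk1]
  push_cast
  obtain ⟨e1, c1, h1, h2⟩ := changes_rep b k hb x
  obtain ⟨e2, c2, h3, h4⟩ := changes_rep b k hb y
  refine ⟨Fin.append e1 e2, Fin.append c1 (fun _ => 0), Fin.append (fun _ => 0) c2, ?_, ?_, ?_, ?_⟩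
  · intro j
    refine Fin.addCases (fun i => ?_) (fun i => ?_) j
    · simpa using h1 i
    · simp
  · intro j
    refine Fin.addCases (fun i => ?_) (fun i => ?_) j
    · simp
    · simpa using h3 i
  · rw [Fin.sum_univ_add]
    simpa using h2
  · rw [Fin.sum_univ_add]
    simpa using h4

/-- `y ^ 2 = f(x)` with `f` of degree `2 ≤ deg f ≤ d` without repeated roots and coefficients of
absolute value at most `M`, `q x` and `q y` sparse. -/
theorem hyper_bound (f : Polynomial ℤ) (d : ℕ) (hd2 : 2 ≤ f.natDegree) (hfd : f.natDegree ≤ d)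
    (hsep : (f.map (Int.castRingHom ℚ)).Separable) (M : ℕ) (hM : ∀ i, |f.coeff i| ≤ (M : ℤ))
    (b r B q : ℕ) (hb : 2 ≤ b) (hq : 1 ≤ q) (x y : ℤ)
    (hS : SparsePair b r B ((q : ℤ) * x) ((q : ℤ) * y)) (h : y ^ 2 = f.eval x) :
    max |x| |y| ≤ ((((d + 3) * (r * B * q) ^ d * M) ^ (5 * (4 * d) ^ r) : ℕ) : ℤ) := by
  have hM1 : 1 ≤ M := by
    by_contra hcon
    have h0 : M = 0 := by omega
    have h1 : f = 0 := Polynomial.ext fun i => by
      have := hM i
      rw [h0] at this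
      simpa using this
    rw [h1, Polynomial.natDegree_zero] at hd2
    omega
  have hsum : ∑ i ∈ Finset.range (d + 1), |f.coeff i| ≤ ((d + 1 : ℕ) : ℤ) * M := by
    refine (Finset.sum_le_sum fun i _ => hM i).trans ?_
    rw [Finset.sum_const, Finset.card_range, nsmul_eq_mul]
  have key := sparse_hyper f d hd2 hfd hsep (q ^ d * (1 + (d + 1) * M)) b r B q hb hq (by
    push_cast
    push_cast at hsum
    exact mul_le_mul_of_nonneg_left (by linarith) (by positivity)) x y hS h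
  have hfin : r * B * ((1 + q ^ d * (1 + (d + 1) * M)) * (r * B) ^ d) ^ (4 * (4 * d) ^ r) ≤
      ((d + 3) * (r * B * q) ^ d * M) ^ (5 * (4 * d) ^ r) := by
    rcases Nat.eq_zero_or_pos (r * B) with h0 | h0
    · rw [h0, zero_mul]
      exact Nat.zero_le _
    have hqd : 1 ≤ q ^ d := Nat.one_le_pow _ _ hq
    have h1 : (1 + q ^ d * (1 + (d + 1) * M)) * (r * B) ^ d ≤ (d + 3) * (r * B * q) ^ d * M := by
      have h2 : 1 + q ^ d * (1 + (d + 1) * M) ≤ (d + 3) * q ^ d * M := by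
        have h3 : 1 ≤ q ^ d * M := Nat.one_le_iff_ne_zero.2 (by positivity)
        have h4 : q ^ d ≤ q ^ d * M := Nat.le_mul_of_pos_right _ hM1
        calc 1 + q ^ d * (1 + (d + 1) * M) = 1 + q ^ d + (d + 1) * (q ^ d * M) := by ring
          _ ≤ q ^ d * M + q ^ d * M + (d + 1) * (q ^ d * M) := by gcongr
          _ = (d + 3) * q ^ d * M := by ring
      calc (1 + q ^ d * (1 + (d + 1) * M)) * (r * B) ^ d
          ≤ ((d + 3) * q ^ d * M) * (r * B) ^ d := Nat.mul_le_mul_right _ h2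
        _ = (d + 3) * (r * B * q) ^ d * M := by rw [mul_pow (r * B) q]; ring
    have h5 : r * B ≤ (d + 3) * (r * B * q) ^ d * M := by
      have h6 : r * B ≤ (r * B * q) ^ d := by
        calc r * B ≤ r * B * q := Nat.le_mul_of_pos_right _ (by omega)
          _ ≤ (r * B * q) ^ d := Nat.le_self_pow (by omega) _
      calc r * B ≤ (r * B * q) ^ d := h6
        _ = 1 * (r * B * q) ^ d * 1 := by ring
        _ ≤ (d + 3) * (r * B * q) ^ d * M := by gcongr; omega
    have h7 : 1 ≤ (d + 3) * (r * B * q) ^ d * M := le_trans h0 h5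
    calc r * B * ((1 + q ^ d * (1 + (d + 1) * M)) * (r * B) ^ d) ^ (4 * (4 * d) ^ r)
        ≤ ((d + 3) * (r * B * q) ^ d * M) * ((d + 3) * (r * B * q) ^ d * M) ^ (4 * (4 * d) ^ r) := by
          gcongr
      _ = ((d + 3) * (r * B * q) ^ d * M) ^ (4 * (4 * d) ^ r + 1) := by rw [pow_succ, mul_comm]
      _ ≤ _ := by
          refine Nat.pow_le_pow_right h7 ?_
          have : 1 ≤ (4 * d) ^ r := Nat.one_le_pow _ _ (by omega)
          omega
  exact max_le (key.1.trans (by exact_mod_cast hfin)) (key.2.trans (by exact_mod_cast hfin))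

open Polynomial in
/-- the cubic `X ^ 3 + A X + D` -/
noncomputable def cubic (A D : ℤ) : Polynomial ℤ := X ^ 3 + C A * X + C D

open Polynomial in
theorem cubic_natDegree (A D : ℤ) : (cubic A D).natDegree = 3 := by
  unfold cubic
  compute_degree!

open Polynomial in
theorem cubic_eval (A D x : ℤ) : (cubic A D).eval x = x ^ 3 + A * x + D := by
  unfold cubic
  simp

open Polynomial in
theorem cubic_sum (A D : ℤ) : ∑ i ∈ Finset.range (3 + 1), |(cubic A D).coeff i| =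
    1 + |A| + |D| := by
  have h0 : (cubic A D).coeff 0 = D := by
    unfold cubic
    simp only [coeff_add, coeff_X_pow, coeff_C_mul, coeff_X, coeff_C]
    norm_num
  have h1 : (cubic A D).coeff 1 = A := by
    unfold cubic
    simp only [coeff_add, coeff_X_pow, coeff_C_mul, coeff_X, coeff_C]
    norm_num
  have h2 : (cubic A D).coeff 2 = 0 := by
    unfold cubic
    simp only [coeff_add, coeff_X_pow, coeff_C_mul, coeff_X, coeff_C]
    norm_num
  have h3 : (cubic A D).coeff 3 = 1 := by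
    unfold cubic
    simp only [coeff_add, coeff_X_pow, coeff_C_mul, coeff_X, coeff_C]
    norm_num
  simp only [Finset.sum_range_succ, Finset.sum_range_zero, h0, h1, h2, h3]
  norm_num
  ring

open Polynomial in
theorem cubic_separable (A D : ℤ) (h : 4 * A ^ 3 + 27 * D ^ 2 ≠ 0) :
    ((cubic A D).map (Int.castRingHom ℚ)).Separable := by
  have hQ : (4 * (A : ℚ) ^ 3 + 27 * (D : ℚ) ^ 2) ≠ 0 := by exact_mod_cast h
  have hmap : (cubic A D).map (Int.castRingHom ℚ) = X ^ 3 + C (A : ℚ) * X + C (D : ℚ) := by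
    unfold cubic
    simp
  have hder : derivative (X ^ 3 + C (A : ℚ) * X + C (D : ℚ)) = 3 * X ^ 2 + C (A : ℚ) := by
    rw [derivative_add, derivative_add, derivative_C, derivative_mul, derivative_C, derivative_X,
      derivative_X_pow]
    have e3 : (C ((3 : ℕ) : ℚ) : Polynomial ℚ) = 3 := by
      rw [Nat.cast_ofNat]
      rfl
    rw [e3]
    ring
  rw [hmap]
  unfold Polynomial.Separable
  rw [hder]
  refine ⟨C ((4 * (A : ℚ) ^ 3 + 27 * (D : ℚ) ^ 2)⁻¹) * (C (-18 * (A : ℚ)) * X + C (27 * (D : ℚ))),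
    C ((4 * (A : ℚ) ^ 3 + 27 * (D : ℚ) ^ 2)⁻¹) * (C (6 * (A : ℚ)) * X ^ 2 + C (-9 * (D : ℚ)) * X +
      C (4 * (A : ℚ) ^ 2)), ?_⟩
  have key : (C (-18 * (A : ℚ)) * X + C (27 * (D : ℚ))) * (X ^ 3 + C (A : ℚ) * X + C (D : ℚ)) +
      (C (6 * (A : ℚ)) * X ^ 2 + C (-9 * (D : ℚ)) * X + C (4 * (A : ℚ) ^ 2)) *
        (3 * X ^ 2 + C (A : ℚ)) = C (4 * (A : ℚ) ^ 3 + 27 * (D : ℚ) ^ 2) := by
    simp only [map_mul, map_pow, map_add, map_neg, map_ofNat]
    ring
  calc _ = C ((4 * (A : ℚ) ^ 3 + 27 * (D : ℚ) ^ 2)⁻¹) *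
      ((C (-18 * (A : ℚ)) * X + C (27 * (D : ℚ))) * (X ^ 3 + C (A : ℚ) * X + C (D : ℚ)) +
      (C (6 * (A : ℚ)) * X ^ 2 + C (-9 * (D : ℚ)) * X + C (4 * (A : ℚ) ^ 2)) *
        (3 * X ^ 2 + C (A : ℚ))) := by ring
    _ = 1 := by rw [key, ← C_mul, inv_mul_cancel₀ hQ, C_1]

/-- the Hall–Lang bound for sparse points -/
theorem elliptic_bound (b r B q : ℕ) (hb : 2 ≤ b) (hq : 1 ≤ q) (A D x y : ℤ)
    (hD : 4 * A ^ 3 + 27 * D ^ 2 ≠ 0) (hE : y ^ 2 = x ^ 3 + A * x + D)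
    (hS : SparsePair b r B ((q : ℤ) * x) ((q : ℤ) * y)) :
    max |x| |y| ≤ (5 * (r * B * q : ℕ) ^ 3 * max |A| |D|) ^ (5 * 12 ^ r) := by
  set H := (max |A| |D|).toNat with hH
  have hH0 : (H : ℤ) = max |A| |D| := Int.toNat_of_nonneg (le_trans (abs_nonneg A) (le_max_left _ _))
  have hH1 : 1 ≤ H := by
    by_contra hcon
    have h0 : H = 0 := by omega
    rw [h0] at hH0
    have hA : A = 0 := abs_eq_zero.1 (le_antisymm (by
      have := le_max_left |A| |D|
      rw [← hH0] at this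
      simpa using this) (abs_nonneg _))
    have hD' : D = 0 := abs_eq_zero.1 (le_antisymm (by
      have := le_max_right |A| |D|
      rw [← hH0] at this
      simpa using this) (abs_nonneg _))
    apply hD
    rw [hA, hD']
    norm_num
  have hAH : |A| ≤ (H : ℤ) := by rw [hH0]; exact le_max_left _ _
  have hDH : |D| ≤ (H : ℤ) := by rw [hH0]; exact le_max_right _ _
  have key := sparse_hyper (cubic A D) 3 (by rw [cubic_natDegree]; norm_num)
    (by rw [cubic_natDegree]) (cubic_separable A D hD) (q ^ 3 * (2 + 2 * H)) b r B q hb hq (by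
      rw [cubic_sum]
      push_cast
      exact mul_le_mul_of_nonneg_left (by linarith) (by positivity)) x y hS
    (by rw [cubic_eval]; exact hE)
  have hfin : r * B * ((1 + q ^ 3 * (2 + 2 * H)) * (r * B) ^ 3) ^ (4 * (4 * 3) ^ r) ≤
      (5 * (r * B * q) ^ 3 * H) ^ (5 * 12 ^ r) := by
    rcases Nat.eq_zero_or_pos (r * B) with h0 | h0
    · rw [h0, zero_mul]
      exact Nat.zero_le _
    have hqd : 1 ≤ q ^ 3 := Nat.one_le_pow _ _ hq
    have h1 : (1 + q ^ 3 * (2 + 2 * H)) * (r * B) ^ 3 ≤ 5 * (r * B * q) ^ 3 * H := by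
      have h2 : 1 + q ^ 3 * (2 + 2 * H) ≤ 5 * q ^ 3 * H := by
        have h3 : 1 ≤ q ^ 3 * H := Nat.one_le_iff_ne_zero.2 (by positivity)
        have h4 : q ^ 3 ≤ q ^ 3 * H := Nat.le_mul_of_pos_right _ hH1
        calc 1 + q ^ 3 * (2 + 2 * H) = 1 + 2 * q ^ 3 + 2 * (q ^ 3 * H) := by ring
          _ ≤ q ^ 3 * H + 2 * (q ^ 3 * H) + 2 * (q ^ 3 * H) := by gcongr
          _ = 5 * q ^ 3 * H := by ring
      calc (1 + q ^ 3 * (2 + 2 * H)) * (r * B) ^ 3
          ≤ (5 * q ^ 3 * H) * (r * B) ^ 3 := Nat.mul_le_mul_right _ h2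
        _ = 5 * (r * B * q) ^ 3 * H := by rw [mul_pow (r * B) q]; ring
    have h5 : r * B ≤ 5 * (r * B * q) ^ 3 * H := by
      have h6 : r * B ≤ (r * B * q) ^ 3 := by
        calc r * B ≤ r * B * q := Nat.le_mul_of_pos_right _ (by omega)
          _ ≤ (r * B * q) ^ 3 := Nat.le_self_pow (by omega) _
      calc r * B ≤ (r * B * q) ^ 3 := h6
        _ = 1 * (r * B * q) ^ 3 * 1 := by ring
        _ ≤ 5 * (r * B * q) ^ 3 * H := by gcongr; omega
    have h7 : 1 ≤ 5 * (r * B * q) ^ 3 * H := le_trans h0 h5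
    have e12 : (4 * 3) ^ r = 12 ^ r := by norm_num
    rw [e12]
    calc r * B * ((1 + q ^ 3 * (2 + 2 * H)) * (r * B) ^ 3) ^ (4 * 12 ^ r)
        ≤ (5 * (r * B * q) ^ 3 * H) * (5 * (r * B * q) ^ 3 * H) ^ (4 * 12 ^ r) := by
          gcongr
      _ = (5 * (r * B * q) ^ 3 * H) ^ (4 * 12 ^ r + 1) := (pow_succ' _ _).symm
      _ ≤ _ := by
          refine Nat.pow_le_pow_right h7 ?_
          have : 1 ≤ 12 ^ r := Nat.one_le_pow _ _ (by omega)
          omega
  rw [← hH0]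
  exact max_le (key.1.trans (by exact_mod_cast hfin)) (key.2.trans (by exact_mod_cast hfin))

end Pool.Agent.TH539.HLSparse
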