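import Pool.Agent.TH539.SAPiece

set_option autoImplicit false

/-!
Pieces and scaling.
-/

open MeasureTheory Set ENNReal NNReal Filter

namespace Pool.Agent.TH539.SA

variable {d : ℕ}

theorem totalDegree_bind_le {g : Fin d → MvPolynomial (Fin d) ℝ} (hg : ∀ l, (g l).totalDegree ≤ 1)
    (p : MvPolynomial (Fin d) ℝ) : (MvPolynomial.bind₁ g p).totalDegree ≤ p.totalDegree := by
  classical
  have h : MvPolynomial.bind₁ g p = ∑ m ∈ p.support, MvPolynomial.C (MvPolynomial.coeff m p) *
      ∏ l, g l ^ (m l) := by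
    rw [MvPolynomial.bind₁, MvPolynomial.aeval_def, MvPolynomial.eval₂_eq']
    rfl
  rw [h]
  apply MvPolynomial.totalDegree_finsetSum_le
  intro m hm
  refine (MvPolynomial.totalDegree_mul _ _).trans ?_
  rw [MvPolynomial.totalDegree_C, zero_add]
  refine (MvPolynomial.totalDegree_finsetProd _ _).trans ?_
  calc ∑ l, (g l ^ (m l)).totalDegree
      ≤ ∑ l, m l := by
        apply Finset.sum_le_sum
        intro l _
        refine (MvPolynomial.totalDegree_pow _ _).trans ?_
        calc m l * _ ≤ m l * 1 := Nat.mul_le_mul_left _ (hg l)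
          _ = m l := mul_one _
    _ = m.sum (fun _ e => e) := by rw [Finsupp.sum_fintype _ _ (fun _ => rfl)]
    _ ≤ _ := MvPolynomial.le_totalDegree hm

theorem eval_bind {g : Fin d → MvPolynomial (Fin d) ℝ} (p : MvPolynomial (Fin d) ℝ)
    (x : Fin d → ℝ) : MvPolynomial.eval x (MvPolynomial.bind₁ g p) =
      MvPolynomial.eval (fun l => MvPolynomial.eval x (g l)) p := by
  rw [← MvPolynomial.aeval_eq_eval, MvPolynomial.aeval_bind₁, MvPolynomial.aeval_eq_eval]

/-- Preimages of basic sets under polynomial maps of degree at most `1`. -/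
theorem Basic.preimage {D : ℕ} {B : Set (Fin d → ℝ)} (hB : Basic D B)
    {g : Fin d → MvPolynomial (Fin d) ℝ} (hg : ∀ l, (g l).totalDegree ≤ 1) :
    Basic D ((fun x l => MvPolynomial.eval x (g l)) ⁻¹' B) := by
  obtain ⟨a, b, P, Q, hD, rfl⟩ := hB
  refine ⟨a, b, fun i => MvPolynomial.bind₁ g (P i), fun j => MvPolynomial.bind₁ g (Q j), ?_, ?_⟩
  · refine le_trans (add_le_add (Finset.sum_le_sum fun i _ => totalDegree_bind_le hg _)
      (Finset.sum_le_sum fun i _ => totalDegree_bind_le hg _)) hD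
  · ext x
    simp only [mem_preimage, mem_ofPred_eq, eval_bind]

theorem Piece.scale {D : ℕ} {B : Set (Fin d → ℝ)} (hB : Piece D B) (S : ℝ) :
    Piece D ((fun y => S • y) ⁻¹' B) := by
  unfold Piece at hB ⊢
  split_ifs with h
  · rw [if_pos h] at hB
    exact hB.smul_preimage S
  · rw [if_neg h] at hB
    have h1 := hB.preimage (g := fun l => MvPolynomial.C S * MvPolynomial.X l) (by
      intro l
      refine (MvPolynomial.totalDegree_mul _ _).trans ?_
      rw [MvPolynomial.totalDegree_C, MvPolynomial.totalDegree_X])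
    have h2 : (fun (x : Fin d → ℝ) l => MvPolynomial.eval x
        (MvPolynomial.C S * MvPolynomial.X l : MvPolynomial (Fin d) ℝ)) = fun y => S • y := by
      funext x l
      simp
    rwa [h2] at h1

theorem cover_scale (N D : ℕ) (M : ℝ≥0∞) (A : Set (Fin d → ℝ)) (S : ℝ) (hS : S ≠ 0)
    (h : Cover N D (M * volume A) A) :
    Cover N D (M * volume ((fun y => S • y) ⁻¹' A)) ((fun y => S • y) ⁻¹' A) := by
  obtain ⟨C, hC, hAC, hv⟩ := h
  refine ⟨fun j => (fun y => S • y) ⁻¹' (C j), fun j => (hC j).scale S, ?_, ?_⟩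
  · intro y hy
    have := hAC hy
    rw [mem_iUnion] at this ⊢
    exact this
  · have h1 : ∀ s : Set (Fin d → ℝ), volume ((fun y => S • y) ⁻¹' s) =
        ENNReal.ofReal |(S ^ Module.finrank ℝ (Fin d → ℝ))⁻¹| * volume s :=
      fun s => Measure.addHaar_preimage_smul volume hS s
    simp_rw [h1]
    rw [← Finset.mul_sum]
    calc ENNReal.ofReal |(S ^ Module.finrank ℝ (Fin d → ℝ))⁻¹| * ∑ j, volume (C j)
        ≤ ENNReal.ofReal |(S ^ Module.finrank ℝ (Fin d → ℝ))⁻¹| * (M * volume A) := by gcongr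
      _ = _ := by ring

end Pool.Agent.TH539.SA
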