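import Pool.Agent.TH539.Seg
import Pool.Agent.H742R2.Kk.Sphere

set_option autoImplicit false

/-!
Averages of segment integrals, selections, tubes.
-/

open MeasureTheory Set ENNReal NNReal Metric
open scoped Pointwise

namespace Pool.Agent.TH539

variable {d : ℕ}

/-- Both half shells. -/
lemma full_shell {f : EuclideanSpace ℝ (Fin (d + 1)) → ℝ} (hf : Measurable f) (hf0 : ∀ x, 0 ≤ f x)
    {N : ℕ} {M : ℝ≥0∞} (hcov : ConvexSliced N M f)
    {b : EuclideanSpace ℝ (Fin (d + 1)) → EuclideanSpace ℝ (Fin (d + 1))} (hb : Measurable b)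
    {θ : ℝ} (hθ : 0 < θ) {p : ℝ} (hp : qq d θ < p) {τ : ℝ} (hτ : 0 < τ) :
    ∫⁻ e in {e : sphere (0 : EuclideanSpace ℝ (Fin (d + 1))) 1 |
      τ / 2 ≤ |(e : EuclideanSpace ℝ (Fin (d + 1))) 0| ∧
      |(e : EuclideanSpace ℝ (Fin (d + 1))) 0| ≤ τ},
        (∫⁻ s in Icc (-(1 / 2) : ℝ) (1 / 2),
          ENNReal.ofReal (f (b e + s • (e : EuclideanSpace ℝ (Fin (d + 1)))))) ^ p
        ∂(surf (d + 1)) ≤
      4 * (d + 1) * 2 ^ p * (cP d θ p * (N:ℝ≥0∞) ^ d * M * ∫⁻ x, ENNReal.ofReal (f x ^ p)) := by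
  set G : sphere (0 : EuclideanSpace ℝ (Fin (d + 1))) 1 → ℝ≥0∞ := fun e =>
    ({x : EuclideanSpace ℝ (Fin (d + 1)) | τ / 2 ≤ |x 0|}.indicator
          (fun x => (∫⁻ s in Icc (-(1 / 2) : ℝ) (1 / 2), ENNReal.ofReal (f (b x + s • x))) ^ p)
          (e : EuclideanSpace ℝ (Fin (d + 1)))) with hG
  set T : ℝ → Set (sphere (0 : EuclideanSpace ℝ (Fin (d + 1))) 1) := fun ε =>
    {e | 0 < ε * (e : EuclideanSpace ℝ (Fin (d + 1))) 0 ∧
      |(e : EuclideanSpace ℝ (Fin (d + 1))) 0| ≤ τ} with hT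
  have e1 : Measurable fun e : sphere (0 : EuclideanSpace ℝ (Fin (d + 1))) 1 =>
      |(e : EuclideanSpace ℝ (Fin (d + 1))) 0| := by fun_prop
  have hSm : MeasurableSet {e : sphere (0 : EuclideanSpace ℝ (Fin (d + 1))) 1 |
      τ / 2 ≤ |(e : EuclideanSpace ℝ (Fin (d + 1))) 0| ∧
      |(e : EuclideanSpace ℝ (Fin (d + 1))) 0| ≤ τ} :=
    (measurableSet_le measurable_const e1).inter (measurableSet_le e1 measurable_const)
  have hsub : {e : sphere (0 : EuclideanSpace ℝ (Fin (d + 1))) 1 |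
      τ / 2 ≤ |(e : EuclideanSpace ℝ (Fin (d + 1))) 0| ∧
      |(e : EuclideanSpace ℝ (Fin (d + 1))) 0| ≤ τ} ⊆ T 1 ∪ T (-1) := by
    rintro e ⟨he1, he2⟩
    have h0 : 0 < |(e : EuclideanSpace ℝ (Fin (d + 1))) 0| := by linarith
    rcases lt_or_gt_of_ne (abs_pos.1 h0) with h | h
    · right; exact ⟨by linarith, he2⟩
    · left; exact ⟨by linarith, he2⟩
  calc ∫⁻ e in {e : sphere (0 : EuclideanSpace ℝ (Fin (d + 1))) 1 |
      τ / 2 ≤ |(e : EuclideanSpace ℝ (Fin (d + 1))) 0| ∧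
      |(e : EuclideanSpace ℝ (Fin (d + 1))) 0| ≤ τ},
        (∫⁻ s in Icc (-(1 / 2) : ℝ) (1 / 2),
          ENNReal.ofReal (f (b e + s • (e : EuclideanSpace ℝ (Fin (d + 1)))))) ^ p
        ∂(surf (d + 1))
      = ∫⁻ e in {e : sphere (0 : EuclideanSpace ℝ (Fin (d + 1))) 1 |
      τ / 2 ≤ |(e : EuclideanSpace ℝ (Fin (d + 1))) 0| ∧
      |(e : EuclideanSpace ℝ (Fin (d + 1))) 0| ≤ τ}, G e ∂(surf (d + 1)) := by
        refine setLIntegral_congr_fun hSm fun e he => ?_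
        simp only [hG]
        rw [indicator_of_mem (show (e : EuclideanSpace ℝ (Fin (d + 1))) ∈
              {x : EuclideanSpace ℝ (Fin (d + 1)) | τ / 2 ≤ |x 0|} from he.1)]
    _ ≤ ∫⁻ e in T 1 ∪ T (-1), G e ∂(surf (d + 1)) := lintegral_mono_set hsub
    _ ≤ (∫⁻ e in T 1, G e ∂(surf (d + 1))) + ∫⁻ e in T (-1), G e ∂(surf (d + 1)) :=
        lintegral_union_le _ _ _
    _ ≤ 2 * (d + 1) * 2 ^ p * (cP d θ p * (N:ℝ≥0∞) ^ d * M * ∫⁻ x, ENNReal.ofReal (f x ^ p)) +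
        2 * (d + 1) * 2 ^ p * (cP d θ p * (N:ℝ≥0∞) ^ d * M * ∫⁻ x, ENNReal.ofReal (f x ^ p)) :=
        add_le_add (half_shell hf hf0 hcov hb hθ hp hτ (Or.inl rfl))
          (half_shell hf hf0 hcov hb hθ hp hτ (Or.inr rfl))
    _ = _ := by ring

lemma lintegral_biUnion_le' {α : Type*} [MeasurableSpace α] (μ : Measure α) (s : Finset ℕ)
    (T : ℕ → Set α) (g : α → ℝ≥0∞) :
    ∫⁻ x in ⋃ j ∈ s, T j, g x ∂μ ≤ ∑ j ∈ s, ∫⁻ x in T j, g x ∂μ := by
  classical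
  induction s using Finset.induction_on with
  | empty => simp
  | insert a s ha ih =>
    rw [Finset.set_biUnion_insert, Finset.sum_insert ha]
    exact (lintegral_union_le _ _ _).trans (add_le_add le_rfl ih)

/-- The number of shells. -/
noncomputable def nsh (κ : ℝ) : ℕ := ⌈Real.logb 2 (1 / κ)⌉₊ + 1

lemma exists_shell {κ x : ℝ} (hκ : 0 < κ) (hx : κ ≤ x) (hx1 : x ≤ 1) :
    ∃ j ∈ Finset.range (nsh κ), (1 / 2 : ℝ) ^ j / 2 ≤ x ∧ x ≤ (1 / 2 : ℝ) ^ j := by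
  have hx0 : 0 < x := hκ.trans_le hx
  set L : ℝ := Real.logb 2 (1 / x) with hL
  have hL0 : 0 ≤ L := Real.logb_nonneg (by norm_num) (by rw [le_div_iff₀ hx0]; linarith)
  have hLκ : L ≤ Real.logb 2 (1 / κ) :=
    Real.logb_le_logb_of_le (by norm_num) (by positivity) (one_div_le_one_div_of_le hκ hx)
  have hxL : x = (1 / 2 : ℝ) ^ L := by
    have h1 : (2:ℝ) ^ L = 1 / x := Real.rpow_logb (by norm_num) (by norm_num) (by positivity)
    rw [one_div, Real.inv_rpow (by norm_num), h1]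
    simp
  refine ⟨⌊L⌋₊, ?_, ?_, ?_⟩
  · rw [Finset.mem_range, nsh]
    have h2 : ⌊L⌋₊ ≤ ⌈Real.logb 2 (1 / κ)⌉₊ :=
      (Nat.floor_mono hLκ).trans (Nat.floor_le_ceil _)
    omega
  · have h3 : L ≤ (⌊L⌋₊ : ℝ) + 1 := (Nat.lt_floor_add_one L).le
    calc (1 / 2 : ℝ) ^ ⌊L⌋₊ / 2 = (1 / 2 : ℝ) ^ ((⌊L⌋₊ : ℝ) + 1) := by
          rw [Real.rpow_add_one (by norm_num), Real.rpow_natCast]; ring
      _ ≤ (1 / 2 : ℝ) ^ L := Real.rpow_le_rpow_of_exponent_ge (by norm_num) (by norm_num) h3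
      _ = x := hxL.symm
  · have h3 : (⌊L⌋₊ : ℝ) ≤ L := Nat.floor_le hL0
    calc x = (1 / 2 : ℝ) ^ L := hxL
      _ ≤ (1 / 2 : ℝ) ^ ((⌊L⌋₊ : ℝ)) :=
          Real.rpow_le_rpow_of_exponent_ge (by norm_num) (by norm_num) h3
      _ = _ := Real.rpow_natCast _ _

lemma nsh_le {κ : ℝ} (hκ : 0 < κ) (hκ1 : κ ≤ 1) : (nsh κ : ℝ) ≤ 2 * (1 + Real.log (1 / κ)) := by
  have hlog : 0 ≤ Real.log (1 / κ) := Real.log_nonneg (by rw [le_div_iff₀ hκ]; linarith)
  have h0 : 0 ≤ Real.logb 2 (1 / κ) := Real.logb_nonneg (by norm_num) (by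
    rw [le_div_iff₀ hκ]; linarith)
  have h1 : (⌈Real.logb 2 (1 / κ)⌉₊ : ℝ) < Real.logb 2 (1 / κ) + 1 := Nat.ceil_lt_add_one h0
  have h2 : Real.logb 2 (1 / κ) ≤ 2 * Real.log (1 / κ) := by
    unfold Real.logb
    rw [div_le_iff₀ (Real.log_pos (by norm_num))]
    have := Real.log_two_gt_d9
    nlinarith
  unfold nsh
  push_cast
  linarith

/-- All directions with `κ ≤ |e 0|`. -/
lemma steep_seg {f : EuclideanSpace ℝ (Fin (d + 1)) → ℝ} (hf : Measurable f) (hf0 : ∀ x, 0 ≤ f x)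
    {N : ℕ} {M : ℝ≥0∞} (hcov : ConvexSliced N M f)
    {b : EuclideanSpace ℝ (Fin (d + 1)) → EuclideanSpace ℝ (Fin (d + 1))} (hb : Measurable b)
    {θ : ℝ} (hθ : 0 < θ) {p : ℝ} (hp : qq d θ < p) {κ : ℝ} (hκ : 0 < κ) :
    ∫⁻ e in {e : sphere (0 : EuclideanSpace ℝ (Fin (d + 1))) 1 |
      κ ≤ |(e : EuclideanSpace ℝ (Fin (d + 1))) 0|},
        (∫⁻ s in Icc (-(1 / 2) : ℝ) (1 / 2),
          ENNReal.ofReal (f (b e + s • (e : EuclideanSpace ℝ (Fin (d + 1)))))) ^ p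
        ∂(surf (d + 1)) ≤
      (nsh κ : ℝ≥0∞) * (4 * (d + 1) * 2 ^ p *
        (cP d θ p * (N:ℝ≥0∞) ^ d * M * ∫⁻ x, ENNReal.ofReal (f x ^ p))) := by
  set T : ℕ → Set (sphere (0 : EuclideanSpace ℝ (Fin (d + 1))) 1) := fun j =>
    {e | (1 / 2 : ℝ) ^ j / 2 ≤ |(e : EuclideanSpace ℝ (Fin (d + 1))) 0| ∧
      |(e : EuclideanSpace ℝ (Fin (d + 1))) 0| ≤ (1 / 2 : ℝ) ^ j} with hT
  have hsub : {e : sphere (0 : EuclideanSpace ℝ (Fin (d + 1))) 1 |
      κ ≤ |(e : EuclideanSpace ℝ (Fin (d + 1))) 0|} ⊆ ⋃ j ∈ Finset.range (nsh κ), T j := by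
    intro e he
    have hnorm : ‖(e : EuclideanSpace ℝ (Fin (d + 1)))‖ = 1 := by simp
    have he1 : |(e : EuclideanSpace ℝ (Fin (d + 1))) 0| ≤ 1 := by
      have := PiLp.norm_apply_le (e : EuclideanSpace ℝ (Fin (d + 1))) 0
      rw [hnorm] at this
      simpa using this
    obtain ⟨j, hj, h1, h2⟩ := exists_shell hκ he he1
    exact mem_biUnion hj ⟨h1, h2⟩
  calc _ ≤ ∫⁻ e in ⋃ j ∈ Finset.range (nsh κ), T j,
        (∫⁻ s in Icc (-(1 / 2) : ℝ) (1 / 2),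
          ENNReal.ofReal (f (b e + s • (e : EuclideanSpace ℝ (Fin (d + 1)))))) ^ p
        ∂(surf (d + 1)) := lintegral_mono_set hsub
    _ ≤ ∑ j ∈ Finset.range (nsh κ), ∫⁻ e in T j,
        (∫⁻ s in Icc (-(1 / 2) : ℝ) (1 / 2),
          ENNReal.ofReal (f (b e + s • (e : EuclideanSpace ℝ (Fin (d + 1)))))) ^ p
        ∂(surf (d + 1)) := lintegral_biUnion_le' _ _ _ _
    _ ≤ ∑ _j ∈ Finset.range (nsh κ), (4 * (d + 1) * 2 ^ p *
        (cP d θ p * (N:ℝ≥0∞) ^ d * M * ∫⁻ x, ENNReal.ofReal (f x ^ p))) :=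
        Finset.sum_le_sum fun j _ => full_shell hf hf0 hcov hb hθ hp (by positivity)
    _ = _ := by
        rw [Finset.sum_const, Finset.card_range, nsmul_eq_mul]

lemma add_three_rpow {p : ℝ} (hp : 0 ≤ p) (x y z : ℝ≥0∞) :
    (x + y + z) ^ p ≤ 3 ^ p * (x ^ p + y ^ p + z ^ p) := by
  set w := max x (max y z) with hw
  have h1 : x + y + z ≤ 3 * w := by
    calc x + y + z ≤ w + w + w := by
          gcongr
          · exact le_max_left _ _
          · exact (le_max_left _ _).trans (le_max_right _ _)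
          · exact (le_max_right _ _).trans (le_max_right _ _)
      _ = 3 * w := by ring
  have h2 : w ^ p ≤ x ^ p + y ^ p + z ^ p := by
    rcases max_cases x (max y z) with ⟨h, -⟩ | ⟨h, -⟩
    · rw [hw, h, add_assoc]; exact le_self_add
    · rcases max_cases y z with ⟨h', -⟩ | ⟨h', -⟩
      · rw [hw, h, h', add_assoc]
        exact le_self_add.trans le_add_self
      · rw [hw, h, h']; exact le_add_self
  calc (x + y + z) ^ p ≤ (3 * w) ^ p := ENNReal.rpow_le_rpow h1 hp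
    _ = 3 ^ p * w ^ p := ENNReal.mul_rpow_of_nonneg _ _ hp
    _ ≤ _ := by gcongr

/-- Longer segments. -/
lemma steep_long {f : EuclideanSpace ℝ (Fin (d + 1)) → ℝ} (hf : Measurable f) (hf0 : ∀ x, 0 ≤ f x)
    {N : ℕ} {M : ℝ≥0∞} (hcov : ConvexSliced N M f)
    {b : EuclideanSpace ℝ (Fin (d + 1)) → EuclideanSpace ℝ (Fin (d + 1))} (hb : Measurable b)
    {θ : ℝ} (hθ : 0 < θ) {p : ℝ} (hp : qq d θ < p) {κ : ℝ} (hκ : 0 < κ) :
    ∫⁻ e in {e : sphere (0 : EuclideanSpace ℝ (Fin (d + 1))) 1 |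
      κ ≤ |(e : EuclideanSpace ℝ (Fin (d + 1))) 0|},
        (∫⁻ s in Icc (-(3 / 2) : ℝ) (3 / 2),
          ENNReal.ofReal (f (b e + s • (e : EuclideanSpace ℝ (Fin (d + 1)))))) ^ p
        ∂(surf (d + 1)) ≤
      3 ^ p * (3 * ((nsh κ : ℝ≥0∞) * (4 * (d + 1) * 2 ^ p *
        (cP d θ p * (N:ℝ≥0∞) ^ d * M * ∫⁻ x, ENNReal.ofReal (f x ^ p))))) := by
  have hq : 0 < qq d θ := by unfold qq; positivity
  have hp0 : 0 < p := hq.trans hp
  set W : ℝ → sphere (0 : EuclideanSpace ℝ (Fin (d + 1))) 1 → ℝ≥0∞ := fun j e =>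
    ∫⁻ s in Icc (-(1 / 2) : ℝ) (1 / 2), ENNReal.ofReal
      (f ((b e + j • (e : EuclideanSpace ℝ (Fin (d + 1)))) +
        s • (e : EuclideanSpace ℝ (Fin (d + 1))))) with hW
  have hWm : ∀ j, Measurable (W j) := by
    intro j
    have h1 : Measurable fun z : sphere (0 : EuclideanSpace ℝ (Fin (d + 1))) 1 × ℝ =>
        ENNReal.ofReal (f ((b z.1 + j • (z.1 : EuclideanSpace ℝ (Fin (d + 1)))) +
          z.2 • (z.1 : EuclideanSpace ℝ (Fin (d + 1))))) := by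
      have hc : Measurable fun z : sphere (0 : EuclideanSpace ℝ (Fin (d + 1))) 1 × ℝ =>
        (z.1 : EuclideanSpace ℝ (Fin (d + 1))) := measurable_subtype_coe.comp measurable_fst
      exact (hf.comp (((hb.comp hc).add (hc.const_smul j)).add
        (measurable_snd.smul hc))).ennreal_ofReal
    exact h1.lintegral_prod_right' (ν := volume.restrict (Icc (-(1 / 2) : ℝ) (1 / 2)))
  have hshift : ∀ (j : ℝ) (e : sphere (0 : EuclideanSpace ℝ (Fin (d + 1))) 1),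
      ∫⁻ s in Icc (j - 1 / 2) (j + 1 / 2),
        ENNReal.ofReal (f (b e + s • (e : EuclideanSpace ℝ (Fin (d + 1))))) = W j e := by
    intro j e
    have h1 := (measurePreserving_add_left (volume : Measure ℝ) j).setLIntegral_comp_preimage
      (measurableSet_Icc (a := j - 1 / 2) (b := j + 1 / 2))
      (f := fun s => ENNReal.ofReal (f (b e + s • (e : EuclideanSpace ℝ (Fin (d + 1))))))
      ((hf.comp (by fun_prop)).ennreal_ofReal)
    rw [← h1]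
    simp only [hW]
    have h2 : (j + ·) ⁻¹' Icc (j - 1 / 2) (j + 1 / 2) = Icc (-(1 / 2) : ℝ) (1 / 2) := by
      ext s
      simp only [mem_preimage, mem_Icc]
      constructor
      · rintro ⟨h, h'⟩; constructor <;> linarith
      · rintro ⟨h, h'⟩; constructor <;> linarith
    rw [h2]
    refine lintegral_congr fun s => ?_
    rw [add_smul, add_assoc]
  have hpt : ∀ e : sphere (0 : EuclideanSpace ℝ (Fin (d + 1))) 1,
      (∫⁻ s in Icc (-(3 / 2) : ℝ) (3 / 2),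
          ENNReal.ofReal (f (b e + s • (e : EuclideanSpace ℝ (Fin (d + 1)))))) ^ p ≤
        3 ^ p * (W (-1) e ^ p + W 0 e ^ p + W 1 e ^ p) := by
    intro e
    refine le_trans (ENNReal.rpow_le_rpow ?_ hp0.le) (add_three_rpow hp0.le _ _ _)
    rw [← hshift, ← hshift, ← hshift]
    have hun : Icc (-(3 / 2) : ℝ) (3 / 2) ⊆ (Icc ((-1:ℝ) - 1 / 2) (-1 + 1 / 2) ∪
        Icc ((0:ℝ) - 1 / 2) (0 + 1 / 2)) ∪ Icc ((1:ℝ) - 1 / 2) (1 + 1 / 2) := by
      intro s hs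
      simp only [mem_union, mem_Icc] at hs ⊢
      by_cases h1 : s ≤ -1 / 2
      · left; left; constructor <;> linarith [hs.1]
      · by_cases h2 : s ≤ 1 / 2
        · left; right; constructor <;> linarith
        · right; constructor <;> linarith [hs.2]
    calc _ ≤ _ := lintegral_mono_set hun
      _ ≤ _ := lintegral_union_le _ _ _
      _ ≤ _ := add_le_add (lintegral_union_le _ _ _) le_rfl
  have hone : ∀ j : ℝ, ∫⁻ e in {e : sphere (0 : EuclideanSpace ℝ (Fin (d + 1))) 1 |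
      κ ≤ |(e : EuclideanSpace ℝ (Fin (d + 1))) 0|}, W j e ^ p ∂(surf (d + 1)) ≤
      (nsh κ : ℝ≥0∞) * (4 * (d + 1) * 2 ^ p *
        (cP d θ p * (N:ℝ≥0∞) ^ d * M * ∫⁻ x, ENNReal.ofReal (f x ^ p))) := by
    intro j
    exact steep_seg hf hf0 hcov (b := fun x => b x + j • x) (hb.add (measurable_id.const_smul j))
      hθ hp hκ
  calc _ ≤ ∫⁻ e in {e : sphere (0 : EuclideanSpace ℝ (Fin (d + 1))) 1 |
      κ ≤ |(e : EuclideanSpace ℝ (Fin (d + 1))) 0|},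
        3 ^ p * (W (-1) e ^ p + W 0 e ^ p + W 1 e ^ p) ∂(surf (d + 1)) :=
        lintegral_mono hpt
    _ = 3 ^ p * ((∫⁻ e in {e : sphere (0 : EuclideanSpace ℝ (Fin (d + 1))) 1 |
      κ ≤ |(e : EuclideanSpace ℝ (Fin (d + 1))) 0|}, W (-1) e ^ p ∂(surf (d + 1))) +
        (∫⁻ e in {e : sphere (0 : EuclideanSpace ℝ (Fin (d + 1))) 1 |
      κ ≤ |(e : EuclideanSpace ℝ (Fin (d + 1))) 0|}, W 0 e ^ p ∂(surf (d + 1))) +
        ∫⁻ e in {e : sphere (0 : EuclideanSpace ℝ (Fin (d + 1))) 1 |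
      κ ≤ |(e : EuclideanSpace ℝ (Fin (d + 1))) 0|}, W 1 e ^ p ∂(surf (d + 1))) := by
        have m1 : Measurable fun e => W (-1) e ^ p := (hWm (-1)).pow_const p
        have m2 : Measurable fun e => W 0 e ^ p := (hWm 0).pow_const p
        have m3 : Measurable fun e => W 1 e ^ p := (hWm 1).pow_const p
        have m12 : Measurable fun e => W (-1) e ^ p + W 0 e ^ p := m1.add m2
        have m123 : Measurable fun e => W (-1) e ^ p + W 0 e ^ p + W 1 e ^ p := m12.add m3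
        rw [lintegral_const_mul _ m123, lintegral_add_left m12, lintegral_add_left m1]
    _ ≤ _ := by
        gcongr
        calc _ ≤ _ := add_le_add (add_le_add (hone (-1)) (hone 0)) (hone 1)
          _ = _ := by ring

end Pool.Agent.TH539
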