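import Pool.Agent.TH539.Simplex

set_option autoImplicit false

/-!
A set of vectors all of whose simplices have determinant at most `R` has volume at most `4 ^ d R`.
-/

open MeasureTheory Set ENNReal NNReal Matrix
open scoped Pointwise

namespace Pool.Agent.TH539

variable {d : ℕ}

/-- A set whose simplices (with a fixed vertex) are all degenerate is null. -/
lemma volume_eq_zero_of_det_eq_zero {X : Set (Fin d → ℝ)} (v0 : Fin d → ℝ)
    (h : ∀ v : Fin d → (Fin d → ℝ), (∀ j, v j ∈ X) →
      (Matrix.of fun j : Fin d => v j - v0).det = 0) : volume X = 0 := by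
  classical
  set Y : Set (Fin d → ℝ) := (fun x => x - v0) '' X with hY
  have hspan : Submodule.span ℝ Y ≠ ⊤ := by
    intro htop
    obtain ⟨b, hbY, hbspan, hbli⟩ := exists_linearIndependent ℝ Y
    rw [htop] at hbspan
    have hbasis : Module.Basis b ℝ (Fin d → ℝ) := Module.Basis.mk hbli (by
      rw [Subtype.range_coe, hbspan])
    have hfin : Finite b := Module.Finite.finite_basis hbasis
    have : Fintype b := Fintype.ofFinite b
    have hcard : Fintype.card b = d := by
      have := Module.finrank_eq_card_basis hbasis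
      rw [Module.finrank_fin_fun] at this
      exact this.symm
    let e : Fin d ≃ b := (Fintype.equivFinOfCardEq hcard).symm
    have hli : LinearIndependent ℝ (fun j : Fin d => ((e j : b) : Fin d → ℝ)) :=
      hbli.comp e e.injective
    have hmem : ∀ j : Fin d, ∃ x ∈ X, x - v0 = ((e j : b) : Fin d → ℝ) := by
      intro j
      exact hbY (e j).2
    choose v hvX hv using hmem
    have h0 := h v hvX
    have hli' : LinearIndependent ℝ (Matrix.of fun j : Fin d => v j - v0).row := by
      have : (Matrix.of fun j : Fin d => v j - v0).row =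
          (fun j : Fin d => ((e j : b) : Fin d → ℝ)) := by
        funext j
        exact hv j
      rw [this]; exact hli
    rw [Matrix.linearIndependent_rows_iff_isUnit, Matrix.isUnit_iff_isUnit_det, h0] at hli'
    exact not_isUnit_zero hli'
  have hX : X ⊆ v0 +ᵥ (Submodule.span ℝ Y : Set (Fin d → ℝ)) := by
    intro x hx
    refine ⟨x - v0, Submodule.subset_span ⟨x, hx, rfl⟩, ?_⟩
    simp
  refine measure_mono_null hX ?_
  rw [measure_vadd]
  exact Measure.addHaar_submodule volume _ hspan

/-- If all simplices with vertices in `X` have `|det| ≤ R` then `|X| ≤ 4 ^ d R`. -/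
lemma volume_le_of_det_le {X : Set (Fin d → ℝ)} {R : ℝ}
    (h : ∀ v : Fin (d + 1) → (Fin d → ℝ), (∀ j, v j ∈ X) →
      |(Matrix.of fun j : Fin d => v j.succ - v 0).det| ≤ R) :
    volume X ≤ ENNReal.ofReal (4 ^ d * R) := by
  classical
  rcases X.eq_empty_or_nonempty with rfl | ⟨v0, hv0⟩
  · simp
  -- the set of values
  set D : Set ℝ := {r | ∃ v : Fin d → (Fin d → ℝ), (∀ j, v j ∈ X) ∧
    r = |(Matrix.of fun j : Fin d => v j - v0).det|} with hD
  have hDbd : ∀ r ∈ D, r ≤ R := by
    rintro r ⟨v, hv, rfl⟩
    have := h (Fin.cons v0 v) (by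
      intro j
      refine Fin.cases ?_ (fun j => ?_) j
      · simpa using hv0
      · simpa using hv j)
    simpa using this
  by_cases hzero : ∀ v : Fin d → (Fin d → ℝ), (∀ j, v j ∈ X) →
      (Matrix.of fun j : Fin d => v j - v0).det = 0
  · rw [volume_eq_zero_of_det_eq_zero v0 hzero]; exact zero_le
  push Not at hzero
  obtain ⟨w, hwX, hw⟩ := hzero
  have hne : D.Nonempty := ⟨_, w, hwX, rfl⟩
  have hbdd : BddAbove D := ⟨R, hDbd⟩
  have hpos : 0 < sSup D := lt_of_lt_of_le (abs_pos.2 hw) (le_csSup hbdd ⟨w, hwX, rfl⟩)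
  obtain ⟨r, ⟨v, hvX, rfl⟩, hv⟩ := exists_lt_of_lt_csSup hne (show sSup D / 2 < sSup D by linarith)
  set U : Matrix (Fin d) (Fin d) ℝ := Matrix.of fun j : Fin d => v j - v0 with hU
  have hUpos : 0 < |U.det| := lt_trans (by linarith) hv
  have hUne : U.det ≠ 0 := abs_pos.1 hUpos
  have hsub : X ⊆ (fun y : Fin d → ℝ => v0 + Uᵀ *ᵥ y) '' (Set.pi univ (fun _ => Icc (-2:ℝ) 2)) := by
    intro x hx
    refine ⟨(U.det)⁻¹ • Matrix.cramer Uᵀ (x - v0), ?_, ?_⟩
    · intro j _
      have h1 : Matrix.cramer Uᵀ (x - v0) j =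
          (Matrix.of fun i : Fin d => (Function.update v j x) i - v0).det := by
        rw [Matrix.cramer_transpose_apply]
        congr 1
        ext a b
        by_cases hab : a = j
        · subst hab; simp
        · simp [Matrix.updateRow_apply, hab, hU]
      have h2 : |Matrix.cramer Uᵀ (x - v0) j| ≤ sSup D := by
        rw [h1]
        refine le_csSup hbdd ⟨Function.update v j x, ?_, rfl⟩
        intro i
        by_cases hij : i = j
        · subst hij; simpa using hx
        · rw [Function.update_of_ne hij]; exact hvX i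
      have h3 : |(U.det)⁻¹ • Matrix.cramer Uᵀ (x - v0) j| ≤ 2 := by
        rw [smul_eq_mul, abs_mul, abs_inv, inv_mul_le_iff₀ hUpos]
        linarith
      rw [abs_le] at h3
      exact ⟨by simpa using h3.1, by simpa using h3.2⟩
    · simp only [Matrix.mulVec_smul, Matrix.mulVec_cramer, Matrix.det_transpose, smul_smul]
      rw [inv_mul_cancel₀ hUne, one_smul]
      simp
  calc volume X ≤ _ := measure_mono hsub
    _ = ENNReal.ofReal |U.det| * ENNReal.ofReal (2 - (-2)) ^ d := volume_image_cube _ _ _ _
    _ ≤ ENNReal.ofReal R * ENNReal.ofReal 4 ^ d := by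
        gcongr
        · exact hDbd _ ⟨v, hvX, rfl⟩
        · norm_num
    _ = ENNReal.ofReal (4 ^ d * R) := by
        rw [ENNReal.ofReal_mul (by positivity), ENNReal.ofReal_pow (by norm_num), mul_comm]

end Pool.Agent.TH539
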