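import Pool.Agent.TH539.Kmax

set_option autoImplicit false

/-!
Caps of the sphere and the volume of tubes.  (After `Pool.Agent.W770.SA.Count2` and `Count3`.)
-/

open MeasureTheory Set ENNReal NNReal Metric
open scoped Pointwise

namespace Pool.Agent.TH539

/-- a part of the cone over the cap of radius `δ/2` around `e` -/
def capSet {n : ℕ} (δ : ℝ) (e : EuclideanSpace ℝ (Fin (n + 1))) :
    Set (EuclideanSpace ℝ (Fin (n + 1))) :=
  (fun y => (2:ℝ) • y) ⁻¹' tube (δ / 16) e e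

theorem volume_capSet {n : ℕ} (δ : ℝ) (e : EuclideanSpace ℝ (Fin (n + 1))) :
    volume (capSet δ e) = ENNReal.ofReal ((2 ^ (n + 1))⁻¹) * volume (tube (δ / 16) e e) := by
  unfold capSet
  rw [Measure.addHaar_preimage_smul _ (by norm_num : (2:ℝ) ≠ 0), finrank_euclideanSpace_fin,
    abs_of_pos (by positivity)]

theorem capSet_sub {n : ℕ} {δ : ℝ} (hδ : 0 < δ) (hδ1 : δ ≤ 1)
    {e y : EuclideanSpace ℝ (Fin (n + 1))} (he : ‖e‖ = 1)
    (hy : y ∈ capSet δ e) : 0 < ‖y‖ ∧ ‖y‖ < 1 ∧ ‖‖y‖⁻¹ • y - e‖ < δ / 2 := by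
  obtain ⟨h1, h2⟩ := hy
  set s : ℝ := inner ℝ y e with hs
  have h3 : inner ℝ ((2:ℝ) • y - e) e = 2 * s - 1 := by
    rw [inner_sub_left, inner_smul_left, real_inner_self_eq_norm_sq, he]
    simp [hs]
  have h4 : ((2:ℝ) • y - e) - (inner ℝ ((2:ℝ) • y - e) e : ℝ) • e = (2:ℝ) • (y - s • e) := by
    rw [h3, smul_sub, smul_smul, sub_smul, one_smul]; abel
  simp only at h1 h2
  rw [h3, abs_le] at h1
  rw [h4, norm_smul, Real.norm_eq_abs, abs_of_pos (by norm_num : (0:ℝ) < 2)] at h2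
  have h5 : ‖y - s • e‖ ≤ δ / 32 := by linarith
  have hs1 : 1 / 4 ≤ s := by linarith
  have hs2 : s ≤ 3 / 4 := by linarith
  have hse : ‖s • e‖ = s := by
    rw [norm_smul, he, mul_one, Real.norm_eq_abs, abs_of_pos (by linarith)]
  have h6 : |‖y‖ - s| ≤ δ / 32 := by
    have := abs_norm_sub_norm_le y (s • e)
    rw [hse] at this
    linarith
  have h6' := abs_le.1 h6
  have hy0 : 0 < ‖y‖ := by linarith [h6'.1]
  refine ⟨hy0, by linarith [h6'.2], ?_⟩
  have h7 : ‖y‖⁻¹ • y - e = ‖y‖⁻¹ • ((y - s • e) + (s - ‖y‖) • e) := by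
    rw [smul_add, smul_sub, sub_smul, smul_sub, smul_smul ‖y‖⁻¹ ‖y‖ e, inv_mul_cancel₀ hy0.ne',
      one_smul]
    abel
  rw [h7, norm_smul, norm_inv, norm_norm]
  have h8 : ‖(y - s • e) + (s - ‖y‖) • e‖ ≤ δ / 16 := by
    calc _ ≤ ‖y - s • e‖ + ‖(s - ‖y‖) • e‖ := norm_add_le _ _
      _ ≤ δ / 32 + δ / 32 := by
          rw [norm_smul, he, mul_one, Real.norm_eq_abs, abs_sub_comm]
          exact add_le_add h5 h6
      _ = δ / 16 := by ring
  have h9 : 1 / 5 ≤ ‖y‖ := by linarith [h6'.1]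
  calc ‖y‖⁻¹ * ‖(y - s • e) + (s - ‖y‖) • e‖ ≤ (1/5)⁻¹ * (δ / 16) := by
        gcongr
    _ < δ / 2 := by linarith

/-- The cap of radius `s/2`. -/
def cap {n : ℕ} (s : ℝ) (e : EuclideanSpace ℝ (Fin (n + 1))) :
    Set (sphere (0 : EuclideanSpace ℝ (Fin (n + 1))) 1) :=
  {u | ‖(u : EuclideanSpace ℝ (Fin (n + 1))) - e‖ < s / 2}

lemma measurableSet_cap {n : ℕ} (s : ℝ) (e : EuclideanSpace ℝ (Fin (n + 1))) :
    MeasurableSet (cap s e) := by
  have h : Continuous fun u : sphere (0 : EuclideanSpace ℝ (Fin (n + 1))) 1 =>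
    ‖(u : EuclideanSpace ℝ (Fin (n + 1))) - e‖ := by fun_prop
  exact (isOpen_lt h continuous_const).measurableSet

/-- Lower bound for the measure of a cap. -/
theorem cap_ge (m : ℕ) : ∃ c : ℝ, 0 < c ∧ ∀ (s : ℝ) (e : EuclideanSpace ℝ (Fin (m + 1))),
    0 < s → s ≤ 1 → ‖e‖ = 1 → ENNReal.ofReal (c * s ^ m) ≤ surf (m + 1) (cap s e) := by
  obtain ⟨c, hc, hvol⟩ := Pool.Agent.H742R2.Kk.volume_tube m
  refine ⟨(2 ^ (m + 1))⁻¹ * (c * (1 / 16) ^ m), by positivity, ?_⟩
  intro s e hs hs1 he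
  have hsub : capSet s e ⊆ Ioo (0:ℝ) 1 •
      ((↑) '' cap s e : Set (EuclideanSpace ℝ (Fin (m + 1)))) := by
    intro y hy
    obtain ⟨h1, h2, h3⟩ := capSet_sub hs hs1 he hy
    have hu : ‖‖y‖⁻¹ • y‖ = 1 := by
      rw [norm_smul, norm_inv, norm_norm, inv_mul_cancel₀ h1.ne']
    rw [Set.mem_smul]
    refine ⟨‖y‖, ⟨h1, h2⟩, ‖y‖⁻¹ • y, ⟨⟨‖y‖⁻¹ • y, by rw [mem_sphere_zero_iff_norm]; exact hu⟩,
      h3, rfl⟩, ?_⟩
    rw [smul_smul, mul_inv_cancel₀ h1.ne', one_smul]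
  calc ENNReal.ofReal ((2 ^ (m + 1))⁻¹ * (c * (1 / 16) ^ m) * s ^ m)
      = ENNReal.ofReal ((2 ^ (m + 1))⁻¹) * ENNReal.ofReal (c * (s / 16) ^ m) := by
        rw [← ENNReal.ofReal_mul (by positivity)]
        congr 1
        rw [div_pow, div_pow, one_pow]
        ring
    _ ≤ ENNReal.ofReal ((2 ^ (m + 1))⁻¹) * volume (tube (s / 16) e e) := by
        gcongr
        exact hvol _ _ _ (by positivity) he
    _ = volume (capSet s e) := (volume_capSet s e).symm
    _ ≤ volume (Ioo (0:ℝ) 1 • ((↑) '' cap s e : Set (EuclideanSpace ℝ (Fin (m + 1))))) :=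
        measure_mono hsub
    _ ≤ surf (m + 1) (cap s e) := by
        unfold surf
        rw [Measure.toSphere_apply' _ (measurableSet_cap s e), finrank_euclideanSpace_fin]
        have : (1:ℝ≥0∞) ≤ ((m + 1 : ℕ) : ℝ≥0∞) := by
          exact_mod_cast Nat.succ_le_succ (Nat.zero_le m)
        calc volume (Ioo (0:ℝ) 1 • ((↑) '' cap s e : Set (EuclideanSpace ℝ (Fin (m + 1)))))
            = 1 * volume (Ioo (0:ℝ) 1 •
              ((↑) '' cap s e : Set (EuclideanSpace ℝ (Fin (m + 1))))) := (one_mul _).symm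
          _ ≤ _ := by gcongr

/-- Upper bound for the volume of a tube. -/
theorem volume_tube_le {m : ℕ} {δ : ℝ} {e a : EuclideanSpace ℝ (Fin (m + 1))} (hδ : 0 < δ)
    (he : ‖e‖ = 1) : volume (tube δ e a) ≤ ENNReal.ofReal ((2 * δ) ^ m) := by
  have hon : Orthonormal ℝ (({0} : Set (Fin (m + 1))).domRestrict (fun _ => e)) := by
    rw [orthonormal_iff_ite]
    rintro ⟨i, hi⟩ ⟨j, hj⟩
    simp only [mem_singleton_iff] at hi hj
    subst hi; subst hj
    change (inner ℝ e e : ℝ) = _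
    rw [real_inner_self_eq_norm_sq, he]
    simp
  obtain ⟨b, hb⟩ := hon.exists_orthonormalBasis_extension_of_card_eq (by simp)
  have hb0 : b 0 = e := hb 0 rfl
  set r : Fin (m + 1) → ℝ := Fin.cons (1 / 2) (fun _ => δ) with hr
  set B : Set (Fin (m + 1) → ℝ) := Set.pi univ (fun i => Icc (-(r i)) (r i)) with hB
  have hBm : MeasurableSet B := MeasurableSet.univ_pi (fun i => measurableSet_Icc)
  have hvolB : volume B = ENNReal.ofReal ((2 * δ) ^ m) := by
    rw [hB, volume_pi_pi]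
    simp only [Real.volume_Icc]
    rw [Fin.prod_univ_succ]
    simp only [hr, Fin.cons_zero, Fin.cons_succ, Finset.prod_const, Finset.card_univ,
      Fintype.card_fin]
    have hnn : 0 ≤ δ - -δ := by linarith
    rw [← ENNReal.ofReal_pow hnn, ← ENNReal.ofReal_mul (by norm_num)]
    congr 1
    norm_num
    congr 1
    ring
  have hmp : MeasurePreserving (fun y : EuclideanSpace ℝ (Fin (m + 1)) =>
      (b.repr (y - a)).ofLp) volume volume := by
    have h1 : MeasurePreserving (fun y : EuclideanSpace ℝ (Fin (m + 1)) => y - a) volume volume :=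
      measurePreserving_sub_right volume a
    have h2 := b.measurePreserving_repr
    have h3 := PiLp.volume_preserving_ofLp (Fin (m + 1))
    exact h3.comp (h2.comp h1)
  rw [← hvolB, ← hmp.measure_preimage hBm.nullMeasurableSet]
  apply measure_mono
  rintro y ⟨h1, h2⟩
  simp only [mem_preimage, hB, mem_univ_pi, mem_Icc]
  set v := y - a with hv
  have hv0 : (inner ℝ v e : ℝ) = b.repr v 0 := by
    rw [b.repr_apply_apply, hb0, real_inner_comm]
  intro i
  rw [← abs_le]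
  refine Fin.cases ?_ (fun j => ?_) i
  · rw [← hv0]; simpa [hr] using h1
  · have h3 : b.repr v j.succ = inner ℝ (b j.succ) (v - (inner ℝ v e : ℝ) • e) := by
      rw [inner_sub_right, inner_smul_right, ← hb0, b.inner_eq_zero (Fin.succ_ne_zero j), mul_zero,
        sub_zero, b.repr_apply_apply]
    rw [h3]
    refine (abs_real_inner_le_norm _ _).trans ?_
    rw [b.norm_eq_one, one_mul]
    simpa [hr] using h2

end Pool.Agent.TH539
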