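import Pool.Agent.TH539.Tuple

set_option autoImplicit false

/-!
Lines whose points at all heights of an interval lie in slices covered by convex sets.
-/

open MeasureTheory Set ENNReal NNReal

namespace Pool.Agent.TH539

variable {d : ℕ}

/-- In a set of outer measure at least `τ` there is a point where `m` is at most `2 / τ` times
its integral. -/
lemma exists_point_le {J P : Set ℝ} (hPJ : P ⊆ J) {τ : ℝ} (hτ : 0 < τ)
    (hP : ENNReal.ofReal τ ≤ volume P) {m : ℝ → ℝ≥0∞} (hm : Measurable m) :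
    ∃ t ∈ P, ENNReal.ofReal τ * m t ≤ 2 * ∫⁻ s in J, m s := by
  by_contra hcon
  push Not at hcon
  set M := ∫⁻ s in J, m s with hM
  have hτ0 : ENNReal.ofReal τ ≠ 0 := by simpa using hτ
  have hPne : P.Nonempty := by
    rw [nonempty_iff_ne_empty]
    rintro rfl
    simp at hP
    linarith
  obtain ⟨t0, ht0⟩ := hPne
  have hMtop : M ≠ ∞ := by
    intro h
    have := hcon t0 ht0
    rw [h, ENNReal.mul_top (by norm_num)] at this
    exact absurd this (by simp)
  set B : Set ℝ := {t | 2 * M ≤ ENNReal.ofReal τ * m t} with hB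
  have hmeas : Measurable fun t => ENNReal.ofReal τ * m t := hm.const_mul _
  by_cases hM0 : M = 0
  · have hae : m =ᵐ[volume.restrict J] 0 := (lintegral_eq_zero_iff hm).1 hM0
    have hnull : volume (J ∩ {t | m t ≠ 0}) = 0 := by
      have h1 := ae_iff.1 hae
      have hms : MeasurableSet {a | ¬m a = 0} := (measurableSet_eq_fun hm measurable_const).compl
      have h2 : (volume.restrict J) {a | ¬m a = 0} = 0 := h1
      rw [Measure.restrict_apply hms] at h2
      rw [inter_comm]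
      exact h2
    have hsub : P ⊆ J ∩ {t | m t ≠ 0} := by
      intro t ht
      refine ⟨hPJ ht, ?_⟩
      intro h0
      have := hcon t ht
      rw [h0, mul_zero, hM0, mul_zero] at this
      exact lt_irrefl _ this
    have := hP.trans (measure_mono hsub)
    rw [hnull] at this
    exact hτ0 (le_antisymm this zero_le)
  · have h1 := mul_meas_ge_le_lintegral (μ := volume.restrict J) hmeas (2 * M)
    rw [Measure.restrict_apply (measurableSet_le measurable_const hmeas),
      lintegral_const_mul _ hm] at h1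
    have hsub : P ⊆ B ∩ J := fun t ht => ⟨(hcon t ht).le, hPJ ht⟩
    have h2 : 2 * M * ENNReal.ofReal τ ≤ ENNReal.ofReal τ * M :=
      le_trans (by gcongr; exact hP.trans (measure_mono hsub)) h1
    have h3 : 2 * (M * ENNReal.ofReal τ) ≤ 1 * (M * ENNReal.ofReal τ) := by
      calc 2 * (M * ENNReal.ofReal τ) = 2 * M * ENNReal.ofReal τ := by ring
        _ ≤ ENNReal.ofReal τ * M := h2
        _ = 1 * (M * ENNReal.ofReal τ) := by ring
    have h4 := (ENNReal.mul_le_mul_iff_left (mul_ne_zero hM0 hτ0)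
      (ENNReal.mul_ne_top hMtop ENNReal.ofReal_ne_top)).1 h3
    norm_num at h4

/-- The distribution function of the outer measure on `G`. -/
lemma distr_add (G : Set ℝ) {a x y : ℝ} (hax : a ≤ x) (hxy : x ≤ y) :
    (volume (G ∩ Ioc a y)).toReal = (volume (G ∩ Ioc a x)).toReal + (volume (G ∩ Ioc x y)).toReal := by
  have h := measure_inter_add_sdiff (μ := volume) (G ∩ Ioc a y) (measurableSet_Ioc (a := a) (b := x))
  have h1 : G ∩ Ioc a y ∩ Ioc a x = G ∩ Ioc a x := by
    ext t; simp only [mem_inter_iff, mem_Ioc]; constructor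
    · rintro ⟨⟨h1, h2⟩, h3⟩; exact ⟨h1, h3⟩
    · rintro ⟨h1, h3⟩; exact ⟨⟨h1, h3.1, h3.2.trans hxy⟩, h3⟩
  have h2 : (G ∩ Ioc a y) \ Ioc a x = G ∩ Ioc x y := by
    ext t; simp only [mem_inter_iff, mem_Ioc, mem_sdiff, not_and, not_le]; constructor
    · rintro ⟨⟨h1, h2, h3⟩, h4⟩; exact ⟨h1, h4 h2, h3⟩
    · rintro ⟨h1, h3, h4⟩; exact ⟨⟨h1, lt_of_le_of_lt hax h3, h4⟩, fun _ => h3⟩
  rw [h1, h2] at h
  have hfin : ∀ u w : ℝ, volume (G ∩ Ioc u w) ≠ ∞ := fun u w =>
    ne_top_of_le_ne_top (by rw [Real.volume_Ioc]; exact ENNReal.ofReal_ne_top)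
      (measure_mono inter_subset_right)
  rw [← h, ENNReal.toReal_add (hfin _ _) (hfin _ _)]

lemma distr_le (G : Set ℝ) {x y : ℝ} (hxy : x ≤ y) : (volume (G ∩ Ioc x y)).toReal ≤ y - x := by
  have : volume (G ∩ Ioc x y) ≤ ENNReal.ofReal (y - x) := by
    rw [← Real.volume_Ioc]; exact measure_mono inter_subset_right
  exact ENNReal.toReal_le_of_le_ofReal (by linarith) this

lemma distr_continuousOn (G : Set ℝ) (a b : ℝ) :
    ContinuousOn (fun x => (volume (G ∩ Ioc a x)).toReal) (Icc a b) := by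
  have hkey : ∀ x ∈ Icc a b, ∀ y ∈ Icc a b, x ≤ y →
      dist ((volume (G ∩ Ioc a x)).toReal) ((volume (G ∩ Ioc a y)).toReal) ≤ 1 * dist x y := by
    intro x hx y hy hxy
    have h1 := distr_add G hx.1 hxy
    have h2 := distr_le G hxy
    have h3 : 0 ≤ (volume (G ∩ Ioc x y)).toReal := ENNReal.toReal_nonneg
    rw [Real.dist_eq, Real.dist_eq, abs_sub_comm, abs_sub_comm x y, abs_of_nonneg (by linarith),
      abs_of_nonneg (by linarith)]
    linarith
  have : LipschitzOnWith 1 (fun x => (volume (G ∩ Ioc a x)).toReal) (Icc a b) := by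
    refine LipschitzOnWith.of_dist_le_mul fun x hx y hy => ?_
    rcases le_total x y with h | h
    · simpa using hkey x hx y hy h
    · rw [dist_comm, dist_comm x y]; simpa using hkey y hy x hx h
  exact this.continuousOn

/-- `d + 1` separated pieces of `G`. -/
lemma exists_pieces (G : Set ℝ) {a b : ℝ} (hab : a ≤ b) {θ : ℝ} (hθ : 0 < θ)
    (hG : ENNReal.ofReal θ ≤ volume (G ∩ Ioc a b)) (d : ℕ) :
    ∃ P : Fin (d + 1) → Set ℝ, (∀ i, P i ⊆ G ∩ Ioc a b) ∧
      (∀ i, ENNReal.ofReal (θ / (2 * d + 1)) ≤ volume (P i)) ∧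
      (∀ i k, i ≠ k → ∀ s ∈ P i, ∀ t ∈ P k, θ / (2 * d + 1) ≤ |s - t|) ∧
      (MeasurableSet G → ∀ i, MeasurableSet (P i)) := by
  set f : ℝ → ℝ := fun x => (volume (G ∩ Ioc a x)).toReal with hf
  have hd : (0:ℝ) < 2 * d + 1 := by positivity
  set τ := θ / (2 * d + 1) with hτ
  have hτpos : 0 < τ := by positivity
  have hfin : ∀ u w : ℝ, volume (G ∩ Ioc u w) ≠ ∞ := fun u w =>
    ne_top_of_le_ne_top (by rw [Real.volume_Ioc]; exact ENNReal.ofReal_ne_top)
      (measure_mono inter_subset_right)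
  have hfa : f a = 0 := by simp [hf]
  have hfb : θ ≤ f b := (ENNReal.ofReal_le_iff_le_toReal (hfin a b)).1 hG
  have hivt := intermediate_value_Icc hab (distr_continuousOn G a b)
  have hx : ∀ j : ℕ, j ≤ 2 * d + 1 → ∃ x ∈ Icc a b, f x = j * τ := by
    intro j hj
    have hj' : (j:ℝ) ≤ 2 * d + 1 := by exact_mod_cast hj
    have : (j:ℝ) * τ ∈ Icc (f a) (f b) := by
      rw [hfa]
      refine ⟨by positivity, le_trans ?_ hfb⟩
      calc (j:ℝ) * τ ≤ (2 * d + 1) * τ := by gcongr
        _ = θ := by rw [hτ]; field_simp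
    exact hivt this
  choose x hxI hxf using hx
  have hmono : ∀ {u w : ℝ}, u ∈ Icc a b → w ∈ Icc a b → f u < f w → u < w := by
    intro u w hu hw h
    by_contra hcon
    push Not at hcon
    have := distr_add G hw.1 hcon
    have h3 : 0 ≤ (volume (G ∩ Ioc w u)).toReal := ENNReal.toReal_nonneg
    simp only [hf] at h
    linarith
  refine ⟨fun i => G ∩ Ioc (x (2 * i) (by have := i.isLt; omega)) (x (2 * i + 1) (by have := i.isLt; omega)),
    ?_, ?_, ?_, fun hGm i => hGm.inter measurableSet_Ioc⟩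
  · intro i
    have h1 := (hxI (2 * i) (by have := i.isLt; omega)).1
    have h2 := (hxI (2 * i + 1) (by have := i.isLt; omega)).2
    exact inter_subset_inter_right _ (Ioc_subset_Ioc h1 h2)
  · intro i
    have hlt : x (2 * i) (by have := i.isLt; omega) < x (2 * i + 1) (by have := i.isLt; omega) := by
      apply hmono (hxI _ _) (hxI _ _)
      rw [hxf, hxf]
      push_cast
      nlinarith
    have h1 := distr_add G (hxI (2 * i) (by have := i.isLt; omega)).1 hlt.le
    have h2 := hxf (2 * i) (by have := i.isLt; omega)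
    have h3 := hxf (2 * i + 1) (by have := i.isLt; omega)
    simp only [hf] at h2 h3
    rw [h2, h3] at h1
    push_cast at h1
    refine (ENNReal.ofReal_le_iff_le_toReal (hfin _ _)).2 ?_
    nlinarith
  · have main : ∀ i k : Fin (d + 1), i < k →
        ∀ s ∈ G ∩ Ioc (x (2 * i) (by have := i.isLt; omega)) (x (2 * i + 1) (by have := i.isLt; omega)),
        ∀ t ∈ G ∩ Ioc (x (2 * k) (by have := k.isLt; omega)) (x (2 * k + 1) (by have := k.isLt; omega)),
        τ ≤ t - s := by
      intro i k hik s hs t ht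
      have hik' : (i:ℕ) + 1 ≤ k := hik
      have hki : ((i:ℕ):ℝ) + 1 ≤ ((k:ℕ):ℝ) := by exact_mod_cast hik'
      have hlt : x (2 * i + 1) (by have := i.isLt; omega) < x (2 * k) (by have := k.isLt; omega) := by
        apply hmono (hxI _ _) (hxI _ _)
        rw [hxf, hxf]
        push_cast
        nlinarith
      have h1 := distr_add G (hxI (2 * i + 1) (by have := i.isLt; omega)).1 hlt.le
      have h2 := hxf (2 * i + 1) (by have := i.isLt; omega)
      have h3 := hxf (2 * k) (by have := k.isLt; omega)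
      have h4 := distr_le G hlt.le
      simp only [hf] at h2 h3
      rw [h2, h3] at h1
      push_cast at h1
      have h5 := hs.2.2
      have h6 := ht.2.1
      nlinarith
    intro i k hik s hs t ht
    rcases lt_or_gt_of_ne hik with h | h
    · rw [abs_sub_comm]
      exact (main i k h s hs t ht).trans (le_abs_self _)
    · exact (main k i h t ht s hs).trans (le_abs_self _)

/-- The constant of the cell lemma. -/
noncomputable def cst (d : ℕ) : ℝ≥0∞ := 2 * (d + 1) * 4 ^ d * (d:ℝ≥0∞) ^ d * (2 * d + 1) ^ (d + 1)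

lemma cst_ne_top (d : ℕ) : cst d ≠ ∞ := by
  unfold cst
  have h : ((d:ℝ≥0∞)) ≠ ∞ := ENNReal.natCast_ne_top d
  refine ENNReal.mul_ne_top (ENNReal.mul_ne_top (ENNReal.mul_ne_top (ENNReal.mul_ne_top ?_ ?_) ?_) ?_) ?_
  · norm_num
  · finiteness
  · finiteness
  · finiteness
  · finiteness

/-- **Cell lemma.** -/
lemma volume_cell_le {K : ℝ → Set (Fin d → ℝ)} {G : Set ℝ} {a b : ℝ} (hab : a ≤ b) {θ : ℝ}
    (hθ : 0 < θ) (hG : ENNReal.ofReal θ ≤ volume (G ∩ Ioc a b)) {N : ℕ} {m : ℝ → ℝ≥0∞}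
    (hm : Measurable m) (hcov : ∀ t ∈ G, ConvexCover N (m t) (K t)) :
    volume {v : Fin d → ℝ | ∃ q : Fin d → ℝ, ∀ t ∈ Ioc a b, q + t • v ∈ K t} ≤
      cst d * ENNReal.ofReal (θ⁻¹) ^ (d + 1) * (N:ℝ≥0∞) ^ d * ∫⁻ t in Ioc a b, m t := by
  obtain ⟨P, hPG, hPvol, hPgap, -⟩ := exists_pieces G hab hθ hG d
  have hd : (0:ℝ) < 2 * d + 1 := by positivity
  set τ := θ / (2 * d + 1) with hτ
  have hτpos : 0 < τ := by positivity
  have hex : ∀ i, ∃ t ∈ P i, ENNReal.ofReal τ * m t ≤ 2 * ∫⁻ s in Ioc a b, m s := fun i =>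
    exists_point_le ((hPG i).trans inter_subset_right) hτpos (hPvol i) hm
  choose t htP htm using hex
  have h1 := volume_velocities_cover_le (t := t) (N := N) (m := fun i => m (t i))
    (A := fun i => K (t i)) hτpos
    (fun i k hik => hPgap i k hik _ (htP i) _ (htP k)) (fun i => hcov _ (hPG i (htP i)).1)
  have hsub : {v : Fin d → ℝ | ∃ q : Fin d → ℝ, ∀ t ∈ Ioc a b, q + t • v ∈ K t} ⊆
      {v : Fin d → ℝ | ∃ q : Fin d → ℝ, ∀ i, q + t i • v ∈ K (t i)} := by
    rintro v ⟨q, hq⟩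
    exact ⟨q, fun i => hq _ (hPG i (htP i)).2⟩
  have hτinv : ENNReal.ofReal (τ⁻¹) = ENNReal.ofReal (θ⁻¹) * (2 * d + 1) := by
    rw [hτ, inv_div, div_eq_mul_inv, mul_comm, ENNReal.ofReal_mul (by positivity)]
    congr 1
    rw [ENNReal.ofReal_add (by positivity) (by positivity), ENNReal.ofReal_mul (by norm_num)]
    simp
  have hmt : ∀ i, m (t i) ≤ ENNReal.ofReal (τ⁻¹) * (2 * ∫⁻ s in Ioc a b, m s) := by
    intro i
    calc m (t i) = ENNReal.ofReal (τ⁻¹) * (ENNReal.ofReal τ * m (t i)) := by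
          rw [← mul_assoc, ← ENNReal.ofReal_mul (by positivity), inv_mul_cancel₀ hτpos.ne']
          simp
      _ ≤ _ := mul_le_mul_right (htm i) _
  calc volume {v : Fin d → ℝ | ∃ q : Fin d → ℝ, ∀ t ∈ Ioc a b, q + t • v ∈ K t}
      ≤ _ := measure_mono hsub
    _ ≤ _ := h1
    _ ≤ 4 ^ d * (d:ℝ≥0∞) ^ d * (N:ℝ≥0∞) ^ d * ENNReal.ofReal (τ⁻¹) ^ d *
        ∑ _i : Fin (d + 1), ENNReal.ofReal (τ⁻¹) * (2 * ∫⁻ s in Ioc a b, m s) := by
        gcongr with i _
        exact hmt i
    _ = _ := by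
        rw [Finset.sum_const, Finset.card_univ, Fintype.card_fin, nsmul_eq_mul, hτinv, cst, mul_pow]
        push_cast
        ring

end Pool.Agent.TH539
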