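import Pool.Agent.H170R2.PC.Asym

/-!
Covering by residue classes: finite inequalities for structured choices of classes.
-/

open Finset

namespace Pool.Agent.TH539.CovS

open Pool.Agent.H170R2.PC

/-- an integer `0 < |z| < Y^h` has at most `h` prime factors in a set of primes `≥ Y` -/
lemma card_prime_dvd {D : Finset ℕ} {Y h : ℕ} (hD : ∀ p ∈ D, p.Prime ∧ Y ≤ p)
    {z : ℤ} (hz : z ≠ 0) (hlt : z.natAbs < Y ^ h) :
    (D.filter fun p : ℕ => (p : ℤ) ∣ z).card ≤ h := by
  classical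
  set T := D.filter fun p : ℕ => (p : ℤ) ∣ z with hT
  have hdvd : (∏ p ∈ T, p) ∣ z.natAbs := by
    refine Finset.prod_primes_dvd _ ?_ ?_
    · intro p hp
      exact (hD p (mem_filter.mp hp).1).1.prime
    · intro p hp
      exact Int.natCast_dvd.mp (mem_filter.mp hp).2
  have hle : Y ^ T.card ≤ ∏ p ∈ T, p := by
    rw [← Finset.prod_const]
    exact Finset.prod_le_prod' fun p hp => (hD p (mem_filter.mp hp).1).2
  have h1 : Y ^ T.card ≤ z.natAbs := hle.trans (Nat.le_of_dvd (Int.natAbs_pos.mpr hz) hdvd)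
  by_contra hcon
  push Not at hcon
  have hY : 1 ≤ Y := by
    rcases Nat.eq_zero_or_pos Y with h0 | h0
    · exfalso
      subst h0
      rcases Nat.eq_zero_or_pos h with hh | hh
      · subst hh
        simp at hlt
        exact hz hlt
      · rw [zero_pow hh.ne'] at hlt
        omega
    · exact h0
  have h2 : Y ^ h ≤ Y ^ T.card := Nat.pow_le_pow_right hY hcon.le
  omega

/-- **algebraic choices, finite form** -/
theorem algebraic {D Q : Finset ℕ} {a : (p : ℕ) → ZMod p} {Y N c K h : ℕ}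
    (hQD : Q ⊆ D) (hD : ∀ p ∈ D, p.Prime ∧ Y ≤ p ∧ p ≤ 2 * Y)
    (F : Polynomial ℤ) (hF : 1 ≤ F.natDegree)
    (hQ : ∀ p ∈ Q, ∃ e : ℤ, |e| ≤ K ∧
      (F.map (Int.castRingHom (ZMod p))).eval (a p) = (e : ZMod p))
    (hval : ∀ n ∈ Icc 1 N, ∀ e : ℤ, |e| ≤ K → (F.eval (n : ℤ) - e).natAbs < Y ^ h)
    (hc : ∀ p ∈ D, c ≤ (Cl N a p).card) :
    c * Q.card ≤ (Cov D a N).card * ((2 * K + 1) * h)
      + (2 * K + 1) * F.natDegree * Q.card := by
  classical
  choose! e he1 he2 using hQ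
  -- incidences
  have hinc : ∀ n ∈ Icc 1 N, ∀ p ∈ Dn Q a n, (p : ℤ) ∣ F.eval (n : ℤ) - e p := by
    intro n hn p hp
    rw [Dn, mem_filter] at hp
    have h1 := he2 p hp.1
    rw [← hp.2] at h1
    have h2 : ((F.eval (n : ℤ) : ℤ) : ZMod p) = (e p : ZMod p) := by
      rw [← h1]
      have := Polynomial.eval_intCast_map (Int.castRingHom (ZMod p)) F (n : ℤ)
      simp only [Int.cast_natCast, eq_intCast] at this
      rw [this]
    have h3 := (ZMod.intCast_eq_intCast_iff_dvd_sub _ _ p).mp h2.symm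
    exact h3
  set Bad : Finset ℕ := (Icc 1 N).filter fun n : ℕ => |F.eval (n : ℤ)| ≤ K with hBad
  have hBadcard : Bad.card ≤ (2 * K + 1) * F.natDegree := by
    have h1 : Bad ⊆ (Icc (-(K : ℤ)) K).biUnion fun e =>
        Bad.filter fun n : ℕ => F.eval (n : ℤ) = e := by
      intro n hn
      have h2 := (mem_filter.mp hn).2
      rw [mem_biUnion]
      exact ⟨F.eval (n : ℤ), by rw [mem_Icc]; exact abs_le.mp h2, by rw [mem_filter]; exact ⟨hn, rfl⟩⟩
    refine (card_le_card h1).trans ?_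
    refine (card_biUnion_le_card_mul _ _ F.natDegree fun e _ => ?_).trans ?_
    · have hne : F - Polynomial.C e ≠ 0 := by
        intro h0
        have : F.natDegree = 0 := by
          rw [sub_eq_zero.mp h0]
          exact Polynomial.natDegree_C e
        omega
      have h3 : (Bad.filter fun n : ℕ => F.eval (n : ℤ) = e).card ≤ (F - Polynomial.C e).roots.toFinset.card := by
        refine card_le_card_of_injOn (fun n => (n : ℤ)) ?_ ?_
        · intro n hn
          rw [mem_coe, mem_filter] at hn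
          rw [mem_coe, Multiset.mem_toFinset, Polynomial.mem_roots hne]
          simp [Polynomial.IsRoot, hn.2]
        · intro x _ y _ hxy
          have hxy' : (x : ℤ) = (y : ℤ) := hxy
          exact_mod_cast hxy'
      refine h3.trans ((Multiset.toFinset_card_le _).trans ?_)
      refine (Polynomial.card_roots' _).trans ?_
      exact Polynomial.natDegree_sub_C.le
    · rw [Int.card_Icc]
      have : ((K : ℤ) + 1 - -(K : ℤ)).toNat = 2 * K + 1 := by omega
      rw [this]
  have hmult : ∀ n ∈ Icc 1 N, n ∉ Bad → (Dn Q a n).card ≤ (2 * K + 1) * h := by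
    intro n hn hnB
    have hnB' : ¬ |F.eval (n : ℤ)| ≤ K := by
      intro h0
      exact hnB (mem_filter.mpr ⟨hn, h0⟩)
    have h1 : Dn Q a n ⊆ (Icc (-(K : ℤ)) K).biUnion fun e =>
        D.filter fun p : ℕ => (p : ℤ) ∣ F.eval (n : ℤ) - e := by
      intro p hp
      have hpQ : p ∈ Q := (mem_filter.mp (by rwa [Dn] at hp)).1
      rw [mem_biUnion]
      exact ⟨e p, by rw [mem_Icc]; exact abs_le.mp (he1 p hpQ),
        mem_filter.mpr ⟨hQD hpQ, hinc n hn p hp⟩⟩
    refine (card_le_card h1).trans ?_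
    refine (card_biUnion_le_card_mul _ _ h fun e he => ?_).trans ?_
    · have he' : |e| ≤ K := abs_le.mpr (mem_Icc.mp he)
      refine card_prime_dvd (fun p hp => ⟨(hD p hp).1, (hD p hp).2.1⟩) ?_ (hval n hn e he')
      intro h0
      apply hnB'
      rw [sub_eq_zero.mp h0]
      exact he'
    · rw [Int.card_Icc]
      have : ((K : ℤ) + 1 - -(K : ℤ)).toNat = 2 * K + 1 := by omega
      rw [this]
  have hsum : c * Q.card ≤ ∑ n ∈ Icc 1 N, (Dn Q a n).card := by
    rw [sum_card_Dn, mul_comm, ← smul_eq_mul]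
    exact card_nsmul_le_sum _ _ _ fun p hp => hc p (hQD hp)
  refine hsum.trans ?_
  have hsplit : ∑ n ∈ Icc 1 N, (Dn Q a n).card ≤
      ∑ n ∈ Icc 1 N, ((if n ∈ Cov D a N then (2 * K + 1) * h else 0) +
        (if n ∈ Bad then Q.card else 0)) := by
    refine sum_le_sum fun n hn => ?_
    by_cases hB : n ∈ Bad
    · rw [if_pos hB]
      refine le_trans ?_ (Nat.le_add_left _ _)
      rw [Dn]
      exact card_filter_le _ _
    · rw [if_neg hB, add_zero]
      by_cases hC : n ∈ Cov D a N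
      · rw [if_pos hC]
        exact hmult n hn hB
      · rw [if_neg hC]
        have h0 := Dn_eq_empty hn hC
        have : Dn Q a n ⊆ Dn D a n := by
          intro p hp
          rw [Dn, mem_filter] at hp ⊢
          exact ⟨hQD hp.1, hp.2⟩
        rw [h0] at this
        rw [subset_empty.mp this]
        simp
  refine hsplit.trans ?_
  rw [sum_add_distrib, ← sum_filter, ← sum_filter, sum_const, sum_const, smul_eq_mul, smul_eq_mul]
  have e1 : ((Icc 1 N).filter fun n => n ∈ Cov D a N).card ≤ (Cov D a N).card :=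
    card_le_card fun n hn => (mem_filter.mp hn).2
  have e2 : ((Icc 1 N).filter fun n => n ∈ Bad).card ≤ Bad.card :=
    card_le_card fun n hn => (mem_filter.mp hn).2
  exact Nat.add_le_add (Nat.mul_le_mul_right _ e1)
    ((Nat.mul_le_mul_right _ (e2.trans hBadcard)))

/-- integer parameter of `n` on the progression through `b p` -/
def tt (b : ℕ → ℤ) (p n : ℕ) : ℤ := ((n : ℤ) - b p) / p

open Classical in
/-- the part of the chosen class away from the two exceptional parameters -/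
noncomputable def B (a : (p : ℕ) → ZMod p) (N : ℕ) (b : ℕ → ℤ) (θ : ℝ) (p : ℕ) : Finset ℕ :=
  (Cl N a p).filter fun n => 1 ≤ |(tt b p n : ℝ) + θ|

lemma tt_eq {a : (p : ℕ) → ZMod p} {N : ℕ} {b : ℕ → ℤ} {p n : ℕ}
    (hb : (b p : ZMod p) = a p) (hn : n ∈ Cl N a p) : (n : ℤ) = b p + p * tt b p n := by
  classical
  rw [Cl, mem_filter] at hn
  have h1 : ((n : ℤ) : ZMod p) = ((b p : ℤ) : ZMod p) := by
    rw [hb]
    push_cast
    exact hn.2
  have h2 : (p : ℤ) ∣ (n : ℤ) - b p := (ZMod.intCast_eq_intCast_iff_dvd_sub _ _ p).mp h1.symm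
  have h3 := Int.mul_ediv_cancel' h2
  rw [tt]
  linarith

/-- **near-affine choices, finite form** -/
theorem affine {D Q : Finset ℕ} {a : (p : ℕ) → ZMod p} {Y N c K h : ℕ}
    (hQD : Q ⊆ D) (hD : ∀ p ∈ D, p.Prime ∧ Y ≤ p ∧ p ≤ 2 * Y) (b : ℕ → ℤ) (θ β : ℝ)
    (hb : ∀ p ∈ Q, (b p : ZMod p) = a p) (hab : ∀ p ∈ Q, |(b p : ℝ) - θ * p - β| ≤ K)
    (hβ : |β| ≤ N) (hK : K ≤ N) (hY : 1 ≤ Y) (hYN : Y ≤ N) (hh : 9 * N < Y ^ h) (hh1 : 1 ≤ h)
    (hc : ∀ p ∈ D, c + 2 ≤ (Cl N a p).card) :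
    (c * Q.card) ^ 2 ≤ (Cov D a N).card * ((4 * K + 1) * (35 * N * h)) := by
  classical
  have hYR : (0 : ℝ) < Y := by exact_mod_cast hY
  have hNR : (0 : ℝ) < N := by exact_mod_cast (hY.trans hYN)
  -- the bound for `p (t + θ)`
  have hpt : ∀ p ∈ Q, ∀ n ∈ Cl N a p, |(p : ℝ) * ((tt b p n : ℝ) + θ)| ≤ 3 * N := by
    intro p hp n hn
    have h1 := tt_eq (hb p hp) hn
    have h2 : (n : ℝ) = b p + p * tt b p n := by exact_mod_cast h1
    have h3 : (p : ℝ) * ((tt b p n : ℝ) + θ) = n - β - ((b p : ℝ) - θ * p - β) := by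
      rw [h2]; ring
    rw [h3]
    have h4 := abs_le.mp (hab p hp)
    have h5 := abs_le.mp hβ
    have h6 : (n : ℝ) ≤ N := by
      rw [Cl, mem_filter, mem_Icc] at hn
      exact_mod_cast hn.1.2
    have h7 : (0 : ℝ) ≤ n := Nat.cast_nonneg _
    have h8 : (K : ℝ) ≤ N := by exact_mod_cast hK
    rw [abs_le]
    constructor <;> linarith
  set t0 : ℤ := ⌈-θ - 3 * N / Y⌉ with ht0
  set t1 : ℤ := ⌊-θ + 3 * N / Y⌋ with ht1
  have htt : ∀ p ∈ Q, ∀ n ∈ Cl N a p, tt b p n ∈ Icc t0 t1 := by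
    intro p hp n hn
    have h1 := hpt p hp n hn
    have h2 : (Y : ℝ) ≤ p := by exact_mod_cast (hD p (hQD hp)).2.1
    have h3 : |(tt b p n : ℝ) + θ| ≤ 3 * N / Y := by
      rw [abs_mul, abs_of_nonneg (Nat.cast_nonneg p)] at h1
      rw [le_div_iff₀ hYR]
      calc |(tt b p n : ℝ) + θ| * Y ≤ |(tt b p n : ℝ) + θ| * p := by gcongr
        _ = p * |(tt b p n : ℝ) + θ| := mul_comm _ _
        _ ≤ 3 * N := h1
    have h4 := abs_le.mp h3
    rw [mem_Icc]
    constructor
    · rw [ht0, Int.ceil_le]; linarith [h4.1]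
    · rw [ht1, Int.le_floor]; linarith [h4.2]
  set τ : ℕ := (Icc t0 t1).card with hτ
  have hτY : (τ : ℝ) * Y ≤ 7 * N := by
    have h1 : (τ : ℝ) ≤ 6 * N / Y + 1 := by
      rw [hτ, Int.card_Icc]
      have h2 : ((t1 + 1 - t0).toNat : ℝ) ≤ max ((t1 + 1 - t0 : ℤ) : ℝ) 0 := by
        rcases le_total 0 (t1 + 1 - t0) with h0 | h0
        · have : (((t1 + 1 - t0).toNat : ℤ) : ℝ) = ((t1 + 1 - t0 : ℤ) : ℝ) := by
            rw [Int.toNat_of_nonneg h0]
          rw [← this]
          push_cast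
          exact le_max_left _ _
        · rw [Int.toNat_of_nonpos h0]
          simp
      refine h2.trans (max_le ?_ (by positivity))
      push_cast
      have h3 : (t1 : ℝ) ≤ -θ + 3 * N / Y := Int.floor_le _
      have h4 : -θ - 3 * N / Y ≤ (t0 : ℝ) := Int.le_ceil _
      have h5 : (6 : ℝ) * N / Y = 3 * N / Y + 3 * N / Y := by ring
      linarith
    calc (τ : ℝ) * Y ≤ (6 * N / Y + 1) * Y := by gcongr
      _ = 6 * N + Y := by field_simp
      _ ≤ 7 * N := by
        have : (Y : ℝ) ≤ N := by exact_mod_cast hYN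
        linarith
  have hτYn : τ * Y ≤ 7 * N := by exact_mod_cast hτY
  set BB := B a N b θ with hBB
  have hBsub : ∀ p, BB p ⊆ Cl N a p := fun p => filter_subset _ _
  have htinj : ∀ p ∈ Q, Set.InjOn (fun n => tt b p n) (Cl N a p : Set ℕ) := by
    intro p hp x hx y hy hxy
    have h1 := tt_eq (hb p hp) (mem_coe.mp hx)
    have h2 := tt_eq (hb p hp) (mem_coe.mp hy)
    have h3 : tt b p x = tt b p y := hxy
    rw [h3] at h1
    have : (x : ℤ) = (y : ℤ) := h1.trans h2.symm
    exact_mod_cast this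
  -- lower bound for `B`
  have hBlow : ∀ p ∈ Q, c ≤ (BB p).card := by
    intro p hp
    have h1 : (Cl N a p \ BB p).card ≤ 2 := by
      have h2 : (Cl N a p \ BB p).card ≤ (Icc (⌊-θ⌋) (⌊-θ⌋ + 1)).card := by
        refine card_le_card_of_injOn (fun n => tt b p n) ?_ ?_
        · intro n hn
          rw [mem_coe, mem_sdiff] at hn
          have h3 : ¬ (1 ≤ |(tt b p n : ℝ) + θ|) := by
            intro h0
            exact hn.2 (mem_filter.mpr ⟨hn.1, h0⟩)
          push Not at h3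
          have h4 := abs_lt.mp h3
          rw [mem_coe, mem_Icc]
          constructor
          · have h5 : ((⌊-θ⌋ : ℤ) : ℝ) - 1 < (tt b p n : ℝ) := by
              have := Int.floor_le (-θ)
              linarith [h4.1]
            have h6 : ⌊-θ⌋ - 1 < tt b p n := by exact_mod_cast h5
            change ⌊-θ⌋ ≤ tt b p n
            omega
          · have h5 : (tt b p n : ℝ) < ((⌊-θ⌋ : ℤ) : ℝ) + 2 := by
              have := Int.lt_floor_add_one (-θ)
              linarith [h4.2]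
            have h6 : tt b p n < ⌊-θ⌋ + 2 := by exact_mod_cast h5
            change tt b p n ≤ ⌊-θ⌋ + 1
            omega
        · intro x hx y hy hxy
          exact htinj p hp (mem_coe.mpr (mem_sdiff.mp (mem_coe.mp hx)).1)
            (mem_coe.mpr (mem_sdiff.mp (mem_coe.mp hy)).1) hxy
      refine h2.trans ?_
      rw [Int.card_Icc]
      omega
    have h2 := card_sdiff_add_card_eq_card (hBsub p)
    have h3 := hc p (hQD hp)
    omega
  have hBup : ∀ p ∈ Q, (BB p).card ≤ τ := by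
    intro p hp
    rw [hτ]
    refine card_le_card_of_injOn (fun n => tt b p n) ?_ ?_
    · intro n hn
      exact mem_coe.mpr (htt p hp n (hBsub p (mem_coe.mp hn)))
    · intro x hx y hy hxy
      exact htinj p hp (mem_coe.mpr (hBsub p (mem_coe.mp hx))) (mem_coe.mpr (hBsub p (mem_coe.mp hy))) hxy
  have hQcard : Q.card ≤ Y + 1 := by
    have : Q ⊆ Icc Y (2 * Y) := fun p hp => mem_Icc.mpr (hD p (hQD hp)).2
    refine (card_le_card this).trans ?_
    rw [Nat.card_Icc]
    omega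
  set I := ∑ p ∈ Q, (BB p).card with hI
  have hIlow : c * Q.card ≤ I := by
    rw [hI, mul_comm, ← smul_eq_mul]
    exact card_nsmul_le_sum _ _ _ hBlow
  have hIup : I ≤ 14 * N := by
    have h1 : I ≤ Q.card * τ := by
      rw [hI, ← smul_eq_mul]
      exact sum_le_card_nsmul _ _ _ hBup
    calc I ≤ Q.card * τ := h1
      _ ≤ (Y + 1) * τ := Nat.mul_le_mul_right _ hQcard
      _ ≤ (2 * Y) * τ := Nat.mul_le_mul_right _ (by omega)
      _ = 2 * (τ * Y) := by ring
      _ ≤ 2 * (7 * N) := Nat.mul_le_mul_left _ hτYn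
      _ = 14 * N := by ring
  -- the energy
  set W : Finset (ℕ × ℕ × ℕ) := (Q ×ˢ Q ×ˢ Icc 1 N).filter
    fun x => x.2.2 ∈ BB x.1 ∧ x.2.2 ∈ BB x.2.1 with hW
  set W1 := W.filter fun x => |(x.1 : ℤ) - x.2.1| ≤ 2 * K with hW1
  set W2 := W.filter fun x => ¬ |(x.1 : ℤ) - x.2.1| ≤ 2 * K with hW2
  have hWsplit : W.card = W1.card + W2.card := (card_filter_add_card_filter_not _).symm
  have hW1card : W1.card ≤ I * (4 * K + 1) := by
    have h1 : W1.card ≤ ((Q.sigma fun p => BB p) ×ˢ Icc (-(2 * K : ℤ)) (2 * K)).card := by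
      refine card_le_card_of_injOn (fun x => (⟨x.1, x.2.2⟩, (x.1 : ℤ) - x.2.1)) ?_ ?_
      · rintro ⟨p, q, n⟩ hx
        rw [mem_coe, hW1, mem_filter, hW, mem_filter, mem_product, mem_product] at hx
        obtain ⟨⟨⟨hp, hq, hn⟩, hnp, hnq⟩, hd⟩ := hx
        rw [mem_coe, mem_product, mem_sigma, mem_Icc]
        exact ⟨⟨hp, hnp⟩, abs_le.mp hd⟩
      · rintro ⟨p, q, n⟩ _ ⟨p', q', n'⟩ _ hxy
        simp only [Prod.mk.injEq, Sigma.mk.injEq, heq_eq_eq] at hxy
        obtain ⟨⟨h1, h2⟩, h3⟩ := hxy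
        subst h1 h2
        have : (q : ℤ) = q' := by linarith
        have : q = q' := by exact_mod_cast this
        rw [this]
    refine h1.trans ?_
    rw [card_product, card_sigma, Int.card_Icc]
    have : (2 * (K : ℤ) + 1 - -(2 * (K : ℤ))).toNat = 4 * K + 1 := by omega
    rw [this]
  set T : Finset (Σ _ : ℤ, Σ _ : ℤ, Σ _ : ℤ, ℕ) := (Icc (-(Y : ℤ)) Y).sigma fun k =>
    (Icc ⌈θ * k - 2 * K⌉ ⌊θ * k + 2 * K⌋).sigma fun m => (Icc t0 t1).sigma fun t =>
      D.filter fun p : ℕ => m + k * t ≠ 0 ∧ (m + k * t).natAbs < Y ^ h ∧ (p : ℤ) ∣ m + k * t with hT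
  have hTcard : T.card ≤ (2 * Y + 1) * ((4 * K + 1) * (τ * h)) := by
    rw [hT, card_sigma]
    have hk : (Icc (-(Y : ℤ)) Y).card = 2 * Y + 1 := by
      rw [Int.card_Icc]; omega
    rw [← hk, ← smul_eq_mul]
    refine sum_le_card_nsmul _ _ _ fun k _ => ?_
    rw [card_sigma]
    have hm : (Icc ⌈θ * k - 2 * K⌉ ⌊θ * k + 2 * K⌋).card ≤ 4 * K + 1 := by
      rw [Int.card_Icc]
      have h1 : (⌊θ * k + 2 * K⌋ : ℝ) ≤ θ * k + 2 * K := Int.floor_le _
      have h2 : θ * k - 2 * K ≤ (⌈θ * k - 2 * K⌉ : ℝ) := Int.le_ceil _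
      have h3 : ((⌊θ * k + 2 * K⌋ - ⌈θ * k - 2 * K⌉ : ℤ) : ℝ) ≤ ((4 * K : ℤ) : ℝ) := by
        push_cast; linarith
      have h4 : ⌊θ * k + 2 * K⌋ - ⌈θ * k - 2 * K⌉ ≤ 4 * (K : ℤ) := by exact_mod_cast h3
      omega
    refine le_trans ?_ (Nat.mul_le_mul_right _ hm)
    rw [← smul_eq_mul]
    refine sum_le_card_nsmul _ _ _ fun m _ => ?_
    rw [card_sigma, hτ, ← smul_eq_mul]
    refine sum_le_card_nsmul _ _ _ fun t _ => ?_
    by_cases hz : m + k * t ≠ 0 ∧ (m + k * t).natAbs < Y ^ h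
    · refine le_trans (card_le_card ?_) (card_prime_dvd (D := D) (Y := Y) (h := h)
        (fun p hp => ⟨(hD p hp).1, (hD p hp).2.1⟩) hz.1 hz.2)
      intro p hp
      rw [mem_filter] at hp ⊢
      exact ⟨hp.1, hp.2.2.2⟩
    · rw [filter_false_of_mem]
      · simp
      · intro p _ h0
        exact hz ⟨h0.1, h0.2.1⟩
  have hW2card : W2.card ≤ T.card := by
    refine card_le_card_of_injOn (fun x => ⟨(x.2.1 : ℤ) - x.1, b x.2.1 - b x.1,
      tt b x.2.1 x.2.2, x.1⟩) ?_ ?_
    · rintro ⟨p, q, n⟩ hx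
      rw [mem_coe, hW2, mem_filter, hW, mem_filter, mem_product, mem_product] at hx
      obtain ⟨⟨⟨hp, hq, hn⟩, hnp, hnq⟩, hd⟩ := hx
      dsimp only at hp hq hn hnp hnq hd
      have hnp' := hBsub p hnp
      have hnq' := hBsub q hnq
      have e1 := tt_eq (hb p hp) hnp'
      have e2 := tt_eq (hb q hq) hnq'
      have hpY := (hD p (hQD hp)).2
      have hqY := (hD q (hQD hq)).2
      have hz : b q - b p + ((q : ℤ) - p) * tt b q n = p * (tt b p n - tt b q n) := by
        have : b p + p * tt b p n = b q + q * tt b q n := e1.symm.trans e2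
        linear_combination (-1 : ℤ) * this
      have a1 := abs_le.mp (hab p hp)
      have a2 := abs_le.mp (hab q hq)
      -- the parameters differ
      have hne : tt b p n ≠ tt b q n := by
        intro heq
        rw [heq, sub_self, mul_zero] at hz
        have h1 : (((b q : ℤ) : ℝ) - b p) + ((q : ℝ) - p) * (tt b q n : ℝ) = 0 := by
          exact_mod_cast hz
        have h2 : 1 ≤ |(tt b q n : ℝ) + θ| := (mem_filter.mp hnq).2
        have h3 : ((q : ℝ) - p) * ((tt b q n : ℝ) + θ)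
            = ((b p : ℝ) - θ * p - β) - ((b q : ℝ) - θ * q - β) := by
          linear_combination h1
        have h4 : |(q : ℝ) - p| * |(tt b q n : ℝ) + θ| ≤ 2 * K := by
          rw [← abs_mul, h3, abs_le]
          constructor <;> linarith [a1.1, a1.2, a2.1, a2.2]
        have h5 : |(q : ℝ) - p| ≤ 2 * K := by
          refine le_trans ?_ h4
          exact le_mul_of_one_le_right (abs_nonneg _) h2
        apply hd
        rw [abs_sub_comm]
        exact_mod_cast h5
      have hzne : b q - b p + ((q : ℤ) - p) * tt b q n ≠ 0 := by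
        rw [hz]
        refine mul_ne_zero ?_ (sub_ne_zero.mpr hne)
        have : 0 < p := by omega
        exact_mod_cast this.ne'
      have hzabs : (b q - b p + ((q : ℤ) - p) * tt b q n).natAbs < Y ^ h := by
        refine lt_of_le_of_lt ?_ hh
        have h1 := hpt p hp n hnp'
        have h2 := hpt q hq n hnq'
        have h3 : |(p : ℝ) * ((tt b q n : ℝ) + θ)| ≤ 6 * N := by
          rw [abs_mul, abs_of_nonneg (Nat.cast_nonneg _)] at h2 ⊢
          have h4 : (p : ℝ) ≤ 2 * q := by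
            have : p ≤ 2 * q := by omega
            exact_mod_cast this
          calc (p : ℝ) * |(tt b q n : ℝ) + θ| ≤ (2 * q) * |(tt b q n : ℝ) + θ| := by gcongr
            _ = 2 * (q * |(tt b q n : ℝ) + θ|) := by ring
            _ ≤ 6 * N := by linarith
        have h5 : |(((b q - b p + ((q : ℤ) - p) * tt b q n : ℤ)) : ℝ)| ≤ 9 * N := by
          rw [hz]
          push_cast
          have h6 : (p : ℝ) * ((tt b p n : ℝ) - tt b q n)
              = (p : ℝ) * ((tt b p n : ℝ) + θ) - (p : ℝ) * ((tt b q n : ℝ) + θ) := by ring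
          rw [h6]
          refine (abs_sub _ _).trans ?_
          linarith
        have h7 : (((b q - b p + ((q : ℤ) - p) * tt b q n).natAbs : ℕ) : ℝ) ≤ ((9 * N : ℕ) : ℝ) := by
          rw [Nat.cast_natAbs]
          push_cast at h5 ⊢
          exact h5
        exact_mod_cast h7
      rw [mem_coe, hT, mem_sigma, mem_sigma, mem_sigma, mem_filter]
      refine ⟨?_, ?_, htt q hq n hnq', hQD hp, hzne, hzabs, ?_⟩
      · rw [mem_Icc]
        change -(Y : ℤ) ≤ (q : ℤ) - p ∧ (q : ℤ) - p ≤ Y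
        omega
      · rw [mem_Icc]
        change ⌈θ * (((q : ℤ) - p : ℤ) : ℝ) - 2 * K⌉ ≤ b q - b p ∧
          b q - b p ≤ ⌊θ * (((q : ℤ) - p : ℤ) : ℝ) + 2 * K⌋
        rw [Int.ceil_le, Int.le_floor]
        push_cast
        constructor <;> linarith [a1.1, a1.2, a2.1, a2.2]
      · change (p : ℤ) ∣ b q - b p + ((q : ℤ) - p) * tt b q n
        rw [hz]
        exact dvd_mul_right _ _
    · rintro ⟨p, q, n⟩ hx ⟨p', q', n'⟩ hx' hxy
      simp only [Sigma.mk.injEq, heq_eq_eq] at hxy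
      obtain ⟨h1, h2, h3, h4⟩ := hxy
      subst h4
      have hqq : (q : ℤ) = q' := by linarith
      have hqq' : q = q' := by exact_mod_cast hqq
      subst hqq'
      rw [mem_coe, hW2, mem_filter, hW, mem_filter, mem_product, mem_product] at hx hx'
      have f1 := htinj q hx.1.1.2.1 (mem_coe.mpr (hBsub q hx.1.2.2))
        (mem_coe.mpr (hBsub q hx'.1.2.2)) h3
      dsimp only at f1
      rw [f1]
  have hWcard : W.card ≤ (4 * K + 1) * (35 * N * h) := by
    have h1 : (2 * Y + 1) * ((4 * K + 1) * (τ * h)) ≤ (4 * K + 1) * (21 * N * h) := by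
      calc (2 * Y + 1) * ((4 * K + 1) * (τ * h)) ≤ (3 * Y) * ((4 * K + 1) * (τ * h)) :=
            Nat.mul_le_mul_right _ (by omega)
        _ = (4 * K + 1) * (3 * (τ * Y) * h) := by ring
        _ ≤ (4 * K + 1) * (3 * (7 * N) * h) := by gcongr
        _ = _ := by ring
    have h2 : I * (4 * K + 1) ≤ (4 * K + 1) * (14 * N * h) := by
      calc I * (4 * K + 1) ≤ (14 * N) * (4 * K + 1) := Nat.mul_le_mul_right _ hIup
        _ = (4 * K + 1) * (14 * N * 1) := by ring
        _ ≤ (4 * K + 1) * (14 * N * h) := by gcongr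
    rw [hWsplit]
    calc W1.card + W2.card ≤ (4 * K + 1) * (14 * N * h) + (4 * K + 1) * (21 * N * h) :=
          Nat.add_le_add (hW1card.trans h2) (hW2card.trans (hTcard.trans h1))
      _ = _ := by ring
  -- Cauchy-Schwarz
  set d : ℕ → ℕ := fun n => (Q.filter fun p => n ∈ BB p).card with hd
  have hBIcc : ∀ p, BB p ⊆ Icc 1 N := fun p n hn => by
    have := hBsub p hn
    rw [Cl, mem_filter] at this
    exact this.1
  have hsum1 : ∑ n ∈ Icc 1 N, d n = I := by
    simp only [hd, card_filter]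
    rw [sum_comm, hI]
    refine sum_congr rfl fun p _ => ?_
    rw [← card_filter]
    congr 1
    ext n
    rw [mem_filter]
    exact ⟨fun h => h.2, fun h => ⟨hBIcc p h, h⟩⟩
  have hsum2 : ∑ n ∈ Icc 1 N, d n ^ 2 = W.card := by
    rw [hW, card_filter, sum_product, ]
    simp only [sum_product]
    have : ∀ n, d n ^ 2 = ∑ p ∈ Q, ∑ q ∈ Q, if n ∈ BB p ∧ n ∈ BB q then 1 else 0 := by
      intro n
      simp only [hd, card_filter, sq, sum_mul_sum]
      refine sum_congr rfl fun p _ => sum_congr rfl fun q _ => ?_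
      by_cases h1 : n ∈ BB p <;> by_cases h2 : n ∈ BB q <;> simp [h1, h2]
    simp only [this]
    rw [sum_comm]
    refine sum_congr rfl fun p _ => ?_
    rw [sum_comm]
  have hd0 : ∀ n ∈ Icc 1 N, n ∉ Cov D a N → d n = 0 := by
    intro n hn hC
    have h0 := Dn_eq_empty hn hC
    rw [hd, card_eq_zero, filter_eq_empty_iff]
    intro p hp hnp
    have h1 := hBsub p hnp
    rw [Cl, mem_filter] at h1
    have : p ∈ Dn D a n := by
      rw [Dn, mem_filter]
      exact ⟨hQD hp, h1.2⟩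
    rw [h0] at this
    simp at this
  have hCovIcc : Cov D a N ⊆ Icc 1 N := filter_subset _ _
  have hs1 : ∑ n ∈ Cov D a N, d n = I := by
    rw [← hsum1]
    exact sum_subset hCovIcc fun n hn hC => hd0 n hn hC
  have hs2 : ∑ n ∈ Cov D a N, d n ^ 2 ≤ W.card := by
    rw [← hsum2]
    exact sum_le_sum_of_subset hCovIcc
  have hcs : I ^ 2 ≤ (Cov D a N).card * W.card := by
    have h1 := sq_sum_le_card_mul_sum_sq (s := Cov D a N) (f := fun n => (d n : ℝ))
    have h2 : ((I ^ 2 : ℕ) : ℝ) ≤ (((Cov D a N).card * W.card : ℕ) : ℝ) := by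
      push_cast
      calc (I : ℝ) ^ 2 = (∑ n ∈ Cov D a N, (d n : ℝ)) ^ 2 := by rw [← hs1]; push_cast; rfl
        _ ≤ (Cov D a N).card * ∑ n ∈ Cov D a N, (d n : ℝ) ^ 2 := h1
        _ ≤ (Cov D a N).card * (W.card : ℝ) := by
          gcongr
          exact_mod_cast hs2
    exact_mod_cast h2
  calc (c * Q.card) ^ 2 ≤ I ^ 2 := Nat.pow_le_pow_left hIlow 2
    _ ≤ (Cov D a N).card * W.card := hcs
    _ ≤ _ := Nat.mul_le_mul_left _ hWcard

end Pool.Agent.TH539.CovS
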