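import Pool.Agent.TH539.Kmax

set_option autoImplicit false

/-!
Constants, the strong type for `p > n`, and auxiliary estimates for `p = n`.
-/

open MeasureTheory Set ENNReal NNReal Metric
open scoped Pointwise

namespace Pool.Agent.TH539

variable {d : ℕ}

lemma cP_ne_top {d : ℕ} {θ p : ℝ} (hθ : 0 < θ) : cP d θ p ≠ ∞ := by
  unfold cP
  have h : ((d:ℝ≥0∞)) ≠ ∞ := ENNReal.natCast_ne_top d
  have hq : 0 ≤ qq d θ := by unfold qq; positivity
  have h1 : (2 * (d:ℝ≥0∞) + 1) ^ (qq d θ) ≠ ∞ :=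
    ENNReal.rpow_ne_top_of_nonneg hq (by finiteness)
  refine ENNReal.mul_ne_top (ENNReal.mul_ne_top ENNReal.ofReal_ne_top h1) ?_
  finiteness

/-- The choice of `θ`. -/
noncomputable def th (d : ℕ) (p : ℝ) : ℝ := (p - (d + 1)) / (2 * ((d + 1) * d))

lemma th_pos {d : ℕ} (hd : 1 ≤ d) {p : ℝ} (hp : (d:ℝ) + 1 < p) : 0 < th d p := by
  unfold th
  have : (1:ℝ) ≤ d := by exact_mod_cast hd
  have h2 : 0 < p - (d + 1) := by linarith
  positivity

lemma qq_th {d : ℕ} (hd : 1 ≤ d) (p : ℝ) : qq d (th d p) = ((d + 1) + p) / 2 := by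
  unfold qq th
  have : (1:ℝ) ≤ d := by exact_mod_cast hd
  field_simp
  ring

/-- Explicit constant. -/
noncomputable def Kd (d : ℕ) : ℝ :=
  (2 * (d + 2)) ^ (d + 2) * (2 * d + 1) ^ (d + 2) * (4 ^ d * (d:ℝ) ^ d * (d + 1) *
    (4 * ((d + 1) * d)) ^ d)

lemma Kd_pos {d : ℕ} (hd : 1 ≤ d) : 0 < Kd d := by
  unfold Kd
  have : (1:ℝ) ≤ d := by exact_mod_cast hd
  positivity

lemma cP_le {d : ℕ} (hd : 1 ≤ d) {η : ℝ} (hη : 0 < η) (hη1 : η ≤ 1) :
    cP d (th d (d + 1 + η)) (d + 1 + η) ≤ ENNReal.ofReal (Kd d * (1 / η) ^ (2 * d + 2)) := by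
  have hd1 : (1:ℝ) ≤ d := by exact_mod_cast hd
  set p : ℝ := d + 1 + η with hp
  have hqq : qq d (th d p) = d + 1 + η / 2 := by rw [qq_th hd, hp]; ring
  have hpq : p - qq d (th d p) = η / 2 := by rw [hqq, hp]; ring
  have h1η : 1 ≤ 1 / η := by rw [le_div_iff₀ hη]; linarith
  -- first factor
  have hb : p / (p - qq d (th d p)) ≤ 2 * (d + 2) * (1 / η) := by
    rw [hpq, div_le_iff₀ (by positivity)]
    have : 2 * ((d:ℝ) + 2) * (1 / η) * (η / 2) = d + 2 := by field_simp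
    rw [this, hp]; linarith
  have hb1 : 1 ≤ 2 * ((d:ℝ) + 2) * (1 / η) := by nlinarith
  have hb0 : 0 ≤ p / (p - qq d (th d p)) := by rw [hpq]; positivity
  have hf1 : (p / (p - qq d (th d p))) ^ p ≤ (2 * (d + 2) * (1 / η)) ^ (d + 2) := by
    calc (p / (p - qq d (th d p))) ^ p ≤ (2 * (d + 2) * (1 / η)) ^ p :=
          Real.rpow_le_rpow hb0 hb (by rw [hp]; positivity)
      _ ≤ (2 * (d + 2) * (1 / η)) ^ ((d:ℝ) + 2) :=
          Real.rpow_le_rpow_of_exponent_le hb1 (by rw [hp]; linarith)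
      _ = _ := by
          rw [← Real.rpow_natCast]; push_cast; rfl
  -- second factor
  have hf2 : (2 * (d:ℝ≥0∞) + 1) ^ (qq d (th d p)) ≤ ENNReal.ofReal ((2 * d + 1) ^ (d + 2)) := by
    calc (2 * (d:ℝ≥0∞) + 1) ^ (qq d (th d p)) ≤ (2 * (d:ℝ≥0∞) + 1) ^ (((d + 2 : ℕ)) : ℝ) := by
          refine ENNReal.rpow_le_rpow_of_exponent_le ?_ ?_
          · exact le_add_self
          · rw [hqq]; push_cast; linarith
      _ = ENNReal.ofReal ((2 * d + 1) ^ (d + 2)) := by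
          rw [ENNReal.rpow_natCast, ENNReal.ofReal_pow (by positivity)]
          congr 1
          rw [ENNReal.ofReal_add (by positivity) (by norm_num), ENNReal.ofReal_mul (by norm_num)]
          simp
  -- third factor
  have hth : 2 / th d p = 4 * ((d + 1) * d) * (1 / η) := by
    unfold th
    rw [hp]
    have : (d:ℝ) + 1 + η - (d + 1) = η := by ring
    rw [this]
    field_simp
    ring
  have hf3 : (4 ^ d * (d:ℝ≥0∞) ^ d * (d + 1) * ENNReal.ofReal (2 / th d p) ^ d) =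
      ENNReal.ofReal (4 ^ d * (d:ℝ) ^ d * (d + 1) * (4 * ((d + 1) * d) * (1 / η)) ^ d) := by
    have e0 : ENNReal.ofReal (4 ^ d * (d:ℝ) ^ d * (d + 1)) = 4 ^ d * (d:ℝ≥0∞) ^ d * (d + 1) := by
      rw [ENNReal.ofReal_mul (by positivity), ENNReal.ofReal_mul (by positivity),
        ENNReal.ofReal_pow (by positivity), ENNReal.ofReal_pow (by positivity),
        ENNReal.ofReal_add (by positivity) (by norm_num)]
      simp
    rw [hth, ENNReal.ofReal_mul (p := 4 ^ d * (d:ℝ) ^ d * (d + 1)) (by positivity), e0,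
      ENNReal.ofReal_pow (by positivity)]
  calc cP d (th d p) p ≤ ENNReal.ofReal ((2 * (d + 2) * (1 / η)) ^ (d + 2)) *
        ENNReal.ofReal ((2 * d + 1) ^ (d + 2)) *
        ENNReal.ofReal (4 ^ d * (d:ℝ) ^ d * (d + 1) * (4 * ((d + 1) * d) * (1 / η)) ^ d) := by
        unfold cP
        rw [hf3]
        gcongr
    _ = _ := by
        rw [← ENNReal.ofReal_mul (by positivity), ← ENNReal.ofReal_mul (by positivity)]
        congr 1
        unfold Kd
        rw [mul_pow (2 * ((d:ℝ) + 2)), mul_pow (4 * (((d:ℝ) + 1) * d))]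
        have : (1 / η) ^ (2 * d + 2) = (1 / η) ^ (d + 2) * (1 / η) ^ d := by
          rw [← pow_add]; congr 1; ring
        rw [this]
        ring

/-- The class of functions. -/
def CSliced (N : ℕ) (M : ℝ≥0∞) (f : EuclideanSpace ℝ (Fin (d + 1)) → ℝ) : Prop :=
  ∀ r : ℝ, 0 < r → ∀ᵐ t : ℝ,
    ConvexCover N (M * volume (slice {x | r < |f x|} t)) (slice {x | r < |f x|} t)

lemma kakeyaMax_abs (δ : ℝ) (f : EuclideanSpace ℝ (Fin (d + 1)) → ℝ)
    (e : EuclideanSpace ℝ (Fin (d + 1))) : kakeyaMax δ f e = kakeyaMax δ (fun x => |f x|) e := by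
  unfold kakeyaMax
  simp

/-- The strong type for `p > n`, away from the equator. -/
theorem strongP (hd : 1 ≤ d) {p : ℝ} (hp : (d:ℝ) + 1 < p) : ∃ C : ℝ, 0 < C ∧
    ∀ (f : EuclideanSpace ℝ (Fin (d + 1)) → ℝ) (N : ℕ) (M : ℝ≥0∞) (κ δ : ℝ), Measurable f →
    CSliced N M f → 0 < κ → κ ≤ 1 → 0 < δ → δ ≤ 1 →
    ∫⁻ e in {e : sphere (0 : EuclideanSpace ℝ (Fin (d + 1))) 1 |
      κ ≤ |(e : EuclideanSpace ℝ (Fin (d + 1))) 0|}, kakeyaMax δ f e ^ p ∂(surf (d + 1)) ≤
      ENNReal.ofReal (C * (1 + Real.log (1 / κ))) * ((N:ℝ≥0∞) ^ d * M * ∫⁻ x, ‖f x‖ₑ ^ p) := by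
  obtain ⟨C, hC, hmain⟩ := kakeya_strong d
  have hp0 : 0 < p := by
    have : (0:ℝ) ≤ d := by positivity
    linarith
  set K : ℝ := (cP d (th d p) p).toReal with hK
  have hKt := cP_ne_top (d := d) (p := p) (th_pos hd hp)
  have hK0 : 0 ≤ K := ENNReal.toReal_nonneg
  refine ⟨C ^ p * 2 * (K + 1), by positivity, ?_⟩
  intro f N M κ δ hf hcov hκ hκ1 hδ hδ1
  have hlog : 0 ≤ Real.log (1 / κ) := Real.log_nonneg (by rw [le_div_iff₀ hκ]; linarith)
  have h := hmain (fun x => |f x|) N M (th d p) p κ δ (measurable_norm.comp hf)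
    (fun x => abs_nonneg _) hcov (th_pos hd hp) (by rw [qq_th hd]; linarith) hκ hδ hδ1
  have hen : ∀ x, ENNReal.ofReal (|f x| ^ p) = ‖f x‖ₑ ^ p := by
    intro x
    rw [← ENNReal.ofReal_rpow_of_nonneg (abs_nonneg _) hp0.le, ← Real.enorm_eq_ofReal_abs]
  simp_rw [hen] at h
  calc ∫⁻ e in {e : sphere (0 : EuclideanSpace ℝ (Fin (d + 1))) 1 |
      κ ≤ |(e : EuclideanSpace ℝ (Fin (d + 1))) 0|}, kakeyaMax δ f e ^ p ∂(surf (d + 1))
      = ∫⁻ e in {e : sphere (0 : EuclideanSpace ℝ (Fin (d + 1))) 1 |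
      κ ≤ |(e : EuclideanSpace ℝ (Fin (d + 1))) 0|}, kakeyaMax δ (fun x => |f x|) e ^ p
        ∂(surf (d + 1)) := by
        refine lintegral_congr fun e => ?_
        rw [kakeyaMax_abs]
    _ ≤ _ := h
    _ = ENNReal.ofReal C ^ p * (nsh κ : ℝ≥0∞) * cP d (th d p) p *
        ((N:ℝ≥0∞) ^ d * M * ∫⁻ x, ‖f x‖ₑ ^ p) := by ring
    _ ≤ _ := by
        gcongr ?_ * _
        rw [← ENNReal.ofReal_toReal hKt, ← ENNReal.ofReal_natCast,
          ENNReal.ofReal_rpow_of_pos hC, ← ENNReal.ofReal_mul (by positivity),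
          ← ENNReal.ofReal_mul (by positivity)]
        refine ENNReal.ofReal_le_ofReal ?_
        have h1 := nsh_le hκ hκ1
        calc C ^ p * (nsh κ : ℝ) * (cP d (th d p) p).toReal
            ≤ C ^ p * (2 * (1 + Real.log (1 / κ))) * (K + 1) := by
              gcongr
              linarith
          _ = _ := by ring

/-- Near the equator. -/
lemma surf_equator {κ : ℝ} (hκ : 0 < κ) :
    surf (d + 1) {e | |(e : EuclideanSpace ℝ (Fin (d + 1))) 0| ≤ κ} ≤
      ENNReal.ofReal ((d + 1) * 2 ^ (d + 1) * κ) := by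
  set S' : Set (sphere (0 : EuclideanSpace ℝ (Fin (d + 1))) 1) :=
    {e | |(e : EuclideanSpace ℝ (Fin (d + 1))) 0| ≤ κ} with hS'
  have hS'm : MeasurableSet S' := by
    have e1 : Measurable fun e : sphere (0 : EuclideanSpace ℝ (Fin (d + 1))) 1 =>
        |(e : EuclideanSpace ℝ (Fin (d + 1))) 0| := by fun_prop
    exact measurableSet_le e1 measurable_const
  set Q : Set (EuclideanSpace ℝ (Fin (d + 1))) :=
    {x | |x 0| ≤ κ ∧ ∀ i : Fin d, |x i.succ| ≤ 1} with hQ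
  have hQm : MeasurableSet Q := by
    have e1 : Measurable fun x : EuclideanSpace ℝ (Fin (d + 1)) => |x 0| := by fun_prop
    have e2 : ∀ i : Fin d, Measurable fun x : EuclideanSpace ℝ (Fin (d + 1)) => |x i.succ| := by
      intro i; fun_prop
    have : Q = {x | |x 0| ≤ κ} ∩ ⋂ i : Fin d, {x | |x i.succ| ≤ 1} := by
      ext x; simp [hQ]
    rw [this]
    exact (measurableSet_le e1 measurable_const).inter
      (MeasurableSet.iInter fun i => measurableSet_le (e2 i) measurable_const)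
  have hQvol : volume Q = ENNReal.ofReal (2 * κ) * 2 ^ d := by
    rw [← volume_preserving_pt.measure_preimage hQm.nullMeasurableSet]
    have : pt ⁻¹' Q = Icc (-κ) κ ×ˢ (Set.pi univ fun _ : Fin d => Icc (-1:ℝ) 1) := by
      ext z
      simp only [hQ, mem_preimage, mem_ofPred_eq, pt_zero, pt_succ, mem_prod, mem_univ_pi, abs_le,
        mem_Icc]
    rw [this, Measure.volume_eq_prod, Measure.prod_prod, volume_pi_pi, Real.volume_Icc]
    simp only [Real.volume_Icc, Finset.prod_const, Finset.card_univ, Fintype.card_fin]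
    congr 1
    · congr 1; ring
    · norm_num
  have hcone : Ioo (0:ℝ) 1 • ((↑) '' S' : Set (EuclideanSpace ℝ (Fin (d + 1)))) ⊆ Q := by
    rintro _ ⟨r, hr, _, ⟨e, he, rfl⟩, rfl⟩
    have hnorm : ‖(e : EuclideanSpace ℝ (Fin (d + 1)))‖ = 1 := by simp
    have hc : ∀ i, |(e : EuclideanSpace ℝ (Fin (d + 1))) i| ≤ 1 := by
      intro i
      have := PiLp.norm_apply_le (e : EuclideanSpace ℝ (Fin (d + 1))) i
      rw [hnorm] at this
      simpa using this
    refine ⟨?_, fun i => ?_⟩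
    · simp only [PiLp.smul_apply, smul_eq_mul, abs_mul, abs_of_pos hr.1]
      calc r * |(e : EuclideanSpace ℝ (Fin (d + 1))) 0| ≤ 1 * κ := by
            have h2 := hr.2.le
            have h1 : |(e : EuclideanSpace ℝ (Fin (d + 1))) 0| ≤ κ := he
            gcongr
        _ = κ := one_mul κ
    · simp only [PiLp.smul_apply, smul_eq_mul, abs_mul, abs_of_pos hr.1]
      calc r * |(e : EuclideanSpace ℝ (Fin (d + 1))) i.succ| ≤ 1 * 1 := by
            have h2 := hr.2.le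
            have h1 := hc i.succ
            gcongr
        _ = 1 := one_mul 1
  calc surf (d + 1) S' = ((d + 1 : ℕ) : ℝ≥0∞) *
        volume (Ioo (0:ℝ) 1 • ((↑) '' S' : Set (EuclideanSpace ℝ (Fin (d + 1))))) := by
        unfold surf
        rw [Measure.toSphere_apply' _ hS'm, finrank_euclideanSpace_fin]
    _ ≤ ((d + 1 : ℕ) : ℝ≥0∞) * (ENNReal.ofReal (2 * κ) * 2 ^ d) := by
        rw [← hQvol]
        gcongr
    _ = _ := by
        rw [← ENNReal.ofReal_natCast, ← ENNReal.ofReal_ofNat (n := 2),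
          ← ENNReal.ofReal_pow (by norm_num), ← ENNReal.ofReal_mul (by positivity),
          ← ENNReal.ofReal_mul (by positivity)]
        congr 1
        push_cast
        ring

/-- The trivial bound. -/
lemma kakeya_trivial (hd : 1 ≤ d) : ∃ c : ℝ, 0 < c ∧ ∀ (δ : ℝ) (e : EuclideanSpace ℝ (Fin (d + 1)))
    (f : EuclideanSpace ℝ (Fin (d + 1)) → ℝ), 0 < δ → ‖e‖ = 1 → Measurable f →
    (∀ a, (volume (tube δ e a))⁻¹ ≤ ENNReal.ofReal (c * (δ ^ d)⁻¹)) ∧
    kakeyaMax δ f e ^ (d + 1) ≤ ENNReal.ofReal (c * (δ ^ d)⁻¹) * ∫⁻ x, ‖f x‖ₑ ^ (d + 1) := by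
  obtain ⟨c, hc, hvol⟩ := Pool.Agent.H742R2.Kk.volume_tube d
  refine ⟨c⁻¹, by positivity, ?_⟩
  intro δ e f hδ he hf
  have hinv : ∀ a, (volume (tube δ e a))⁻¹ ≤ ENNReal.ofReal (c⁻¹ * (δ ^ d)⁻¹) := by
    intro a
    calc (volume (tube δ e a))⁻¹ ≤ (ENNReal.ofReal (c * δ ^ d))⁻¹ :=
          ENNReal.inv_le_inv.2 (hvol δ e a hδ he)
      _ = _ := by
          rw [← ENNReal.ofReal_inv_of_pos (by positivity), mul_inv]
  refine ⟨hinv, ?_⟩
  have hp1 : (1:ℝ) < ((d + 1 : ℕ) : ℝ) := by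
    push_cast
    have : (1:ℝ) ≤ d := by exact_mod_cast hd
    linarith
  rw [← ENNReal.rpow_natCast]
  unfold kakeyaMax
  have hsup : (⨆ a : EuclideanSpace ℝ (Fin (d + 1)),
      (volume (tube δ e a))⁻¹ * ∫⁻ y in tube δ e a, ‖f y‖ₑ) ^ ((d + 1 : ℕ) : ℝ) =
      ⨆ a : EuclideanSpace ℝ (Fin (d + 1)),
      ((volume (tube δ e a))⁻¹ * ∫⁻ y in tube δ e a, ‖f y‖ₑ) ^ ((d + 1 : ℕ) : ℝ) :=
    (ENNReal.orderIsoRpow _ (by linarith)).map_iSup _
  rw [hsup]
  refine iSup_le fun a => ?_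
  have hT0 : volume (tube δ e a) ≠ 0 := by
    intro h
    have := hinv a
    rw [h, ENNReal.inv_zero] at this
    exact ENNReal.ofReal_ne_top (top_le_iff.1 this)
  by_cases hTt : volume (tube δ e a) = ∞
  · rw [hTt, ENNReal.inv_top, zero_mul, ENNReal.zero_rpow_of_pos (by linarith)]
    exact zero_le
  have h := jensen ((volume : Measure (EuclideanSpace ℝ (Fin (d + 1)))).restrict (tube δ e a)) hp1
    (g := fun y => ‖f y‖ₑ) hf.enorm.aemeasurable (by rwa [Measure.restrict_apply_univ])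
    (by rwa [Measure.restrict_apply_univ])
  rw [Measure.restrict_apply_univ] at h
  simp_rw [ENNReal.rpow_natCast] at h ⊢
  refine h.trans ?_
  gcongr
  · exact hinv a
  · exact Measure.restrict_le_self

end Pool.Agent.TH539
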