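import Pool.Agent.TH539.Fin1

set_option autoImplicit false

/-!
The critical exponent.
-/

open MeasureTheory Set ENNReal NNReal Metric
open scoped Pointwise

namespace Pool.Agent.TH539

variable {d : ℕ}

lemma add_two_pow (x y : ℝ≥0∞) (n : ℕ) : (x + y) ^ n ≤ 2 ^ n * (x ^ n + y ^ n) := by
  set w := max x y with hw
  have h1 : x + y ≤ 2 * w := by
    calc x + y ≤ w + w := add_le_add (le_max_left _ _) (le_max_right _ _)
      _ = 2 * w := by ring
  have h2 : w ^ n ≤ x ^ n + y ^ n := by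
    rcases max_cases x y with ⟨h, -⟩ | ⟨h, -⟩
    · rw [hw, h]; exact le_self_add
    · rw [hw, h]; exact le_add_self
  calc (x + y) ^ n ≤ (2 * w) ^ n := by gcongr
    _ = 2 ^ n * w ^ n := mul_pow _ _ _
    _ ≤ _ := by gcongr

lemma pow_le_add_rpow {A η : ℝ} (hA : 0 < A) (hη : 0 < η) (x : ℝ≥0∞) (n : ℕ) :
    x ^ n ≤ ENNReal.ofReal A ^ n + ENNReal.ofReal (A ^ (-η)) * x ^ ((n:ℝ) + η) := by
  rcases le_total x (ENNReal.ofReal A) with h | h
  · calc x ^ n ≤ ENNReal.ofReal A ^ n := by gcongr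
      _ ≤ _ := le_self_add
  · refine le_trans ?_ le_add_self
    by_cases hx : x = ∞
    · rw [hx, ENNReal.top_rpow_of_pos (by positivity), ENNReal.mul_top]
      · exact le_top
      · simp only [ne_eq, ENNReal.ofReal_eq_zero, not_le]; positivity
    · have hx0 : x ≠ 0 := by
        intro h0
        rw [h0] at h
        have := le_antisymm h zero_le
        rw [ENNReal.ofReal_eq_zero] at this
        linarith
      have h1 : x ^ n = x ^ (-η) * x ^ ((n:ℝ) + η) := by
        rw [← ENNReal.rpow_add _ _ hx0 hx, ← ENNReal.rpow_natCast]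
        congr 1
        ring
      rw [h1, ← ENNReal.ofReal_rpow_of_pos hA]
      gcongr ?_ * _
      rw [ENNReal.rpow_neg, ENNReal.rpow_neg]
      exact ENNReal.inv_le_inv.2 (ENNReal.rpow_le_rpow h hη.le)

/-- Splitting at the level `r₁`. -/
lemma split_le {c : ℝ} {δ : ℝ} {e : EuclideanSpace ℝ (Fin (d + 1))} (hc : 0 < c) (hδ : 0 < δ)
    (hinv : ∀ a, (volume (tube δ e a))⁻¹ ≤ ENNReal.ofReal (c * (δ ^ d)⁻¹))
    {f : EuclideanSpace ℝ (Fin (d + 1)) → ℝ} (hf : Measurable f) {A : ℝ} (hA : 0 < A)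
    (hI : ∫⁻ x, ‖f x‖ₑ ^ (d + 1) ≤ ENNReal.ofReal (A ^ (d + 1))) :
    kakeyaMax δ f e ≤ kakeyaMax δ (fun x => min |f x| (A / δ)) e + ENNReal.ofReal (c * A) := by
  set r : ℝ := A / δ with hr
  have hr0 : 0 < r := by positivity
  set g : EuclideanSpace ℝ (Fin (d + 1)) → ℝ := fun x => min |f x| r with hg
  have hgm : Measurable g := (measurable_norm.comp hf).min measurable_const
  have hpt : ∀ y, ‖f y‖ₑ ≤ ‖g y‖ₑ + ENNReal.ofReal ((r ^ d)⁻¹) * ‖f y‖ₑ ^ (d + 1) := by
    intro y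
    by_cases h : |f y| ≤ r
    · have : ‖g y‖ₑ = ‖f y‖ₑ := by
        simp only [hg]
        rw [min_eq_left h, Real.enorm_eq_ofReal_abs, Real.enorm_eq_ofReal_abs, abs_abs]
      rw [this]; exact le_self_add
    · push Not at h
      refine le_trans ?_ le_add_self
      rw [Real.enorm_eq_ofReal_abs, ← ENNReal.ofReal_pow (abs_nonneg _),
        ← ENNReal.ofReal_mul (by positivity)]
      refine ENNReal.ofReal_le_ofReal ?_
      have h1 : r ^ d ≤ |f y| ^ d := by gcongr
      have h2 : 0 < r ^ d := by positivity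
      rw [pow_succ, inv_mul_eq_div, le_div_iff₀ h2, mul_comm]
      gcongr
  unfold kakeyaMax
  refine iSup_le fun a => ?_
  calc (volume (tube δ e a))⁻¹ * ∫⁻ y in tube δ e a, ‖f y‖ₑ
      ≤ (volume (tube δ e a))⁻¹ * ∫⁻ y in tube δ e a,
          (‖g y‖ₑ + ENNReal.ofReal ((r ^ d)⁻¹) * ‖f y‖ₑ ^ (d + 1)) := by
        gcongr with y
        exact hpt y
    _ = (volume (tube δ e a))⁻¹ * (∫⁻ y in tube δ e a, ‖g y‖ₑ) + (volume (tube δ e a))⁻¹ *
          (ENNReal.ofReal ((r ^ d)⁻¹) * ∫⁻ y in tube δ e a, ‖f y‖ₑ ^ (d + 1)) := by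
        rw [lintegral_add_left hgm.enorm, mul_add, lintegral_const_mul' _ _ ENNReal.ofReal_ne_top]
    _ ≤ (⨆ a, (volume (tube δ e a))⁻¹ * ∫⁻ y in tube δ e a, ‖g y‖ₑ) +
          ENNReal.ofReal (c * (δ ^ d)⁻¹) * (ENNReal.ofReal ((r ^ d)⁻¹) *
            ENNReal.ofReal (A ^ (d + 1))) := by
        gcongr ?_ + ?_ * (_ * ?_)
        · exact le_iSup (fun a => (volume (tube δ e a))⁻¹ * ∫⁻ y in tube δ e a, ‖g y‖ₑ) a
        · exact hinv a
        · exact (setLIntegral_le_lintegral _ _).trans hI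
    _ = _ := by
        congr 1
        rw [← ENNReal.ofReal_mul (by positivity), ← ENNReal.ofReal_mul (by positivity)]
        congr 1
        rw [hr, div_pow, pow_succ]
        field_simp

lemma sliced_min {N : ℕ} {M : ℝ≥0∞} {f : EuclideanSpace ℝ (Fin (d + 1)) → ℝ} (hf : CSliced N M f)
    {r₁ : ℝ} : ConvexSliced N M (fun x => min |f x| r₁) := by
  intro r hr
  by_cases h : r < r₁
  · have : {x : EuclideanSpace ℝ (Fin (d + 1)) | r < min |f x| r₁} = {x | r < |f x|} := by
      ext x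
      simp only [mem_ofPred_eq, lt_min_iff, h, and_true]
    rw [this]
    exact hf r hr
  · have : {x : EuclideanSpace ℝ (Fin (d + 1)) | r < min |f x| r₁} = ∅ := by
      ext x
      simp only [mem_ofPred_eq, lt_min_iff, h, and_false, mem_empty_iff_false]
    rw [this]
    refine Filter.Eventually.of_forall fun t => ?_
    refine ⟨fun _ => ∅, fun _ => convex_empty, ?_, ?_⟩
    · intro y hy
      exact hy.elim
    · simp

lemma exp_bound {δ : ℝ} (hδ : 0 < δ) (hδ1 : δ < 1) :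
    δ ^ (-(1 / (1 + Real.log (1 / δ)))) ≤ 3 := by
  have hlog : 0 ≤ Real.log (1 / δ) := Real.log_nonneg (by rw [le_div_iff₀ hδ]; linarith)
  rw [Real.rpow_def_of_pos hδ]
  have h1 : Real.log δ = -Real.log (1 / δ) := by rw [one_div, Real.log_inv]; ring
  have h2 : Real.log δ * -(1 / (1 + Real.log (1 / δ))) ≤ 1 := by
    rw [h1, neg_mul_neg, mul_one_div, div_le_one (by linarith)]
    linarith
  calc Real.exp (Real.log δ * -(1 / (1 + Real.log (1 / δ)))) ≤ Real.exp 1 := Real.exp_le_exp.2 h2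
    _ ≤ 3 := Real.exp_one_lt_d9.le.trans (by norm_num)

/-- The critical exponent. -/
theorem crit (hd : 1 ≤ d) : ∃ C : ℝ, 0 < C ∧
    ∀ (f : EuclideanSpace ℝ (Fin (d + 1)) → ℝ) (N : ℕ) (M : ℝ≥0∞) (δ : ℝ), Measurable f →
    CSliced N M f → 1 ≤ N → 1 ≤ M → 0 < δ → δ < 1 →
    ∫⁻ e : sphere (0 : EuclideanSpace ℝ (Fin (d + 1))) 1, kakeyaMax δ f e ^ (d + 1)
      ∂(surf (d + 1)) ≤
      ENNReal.ofReal (C * (1 + Real.log (1 / δ)) ^ (2 * d + 3)) *
        ((N:ℝ≥0∞) ^ d * M * ∫⁻ x, ‖f x‖ₑ ^ (d + 1)) := by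
  obtain ⟨C1, hC1, hstrong⟩ := kakeya_strong d
  obtain ⟨c, hc, htriv⟩ := kakeya_trivial hd
  have hfin : IsFiniteMeasure (surf (d + 1)) := by unfold surf; infer_instance
  set σ : ℝ := (surf (d + 1) univ).toReal with hσ
  have hσ0 : 0 ≤ σ := ENNReal.toReal_nonneg
  have hσeq : surf (d + 1) univ = ENNReal.ofReal σ := (ENNReal.ofReal_toReal (measure_ne_top _ _)).symm
  set C2 : ℝ := max C1 1 with hC2
  have hC21 : 1 ≤ C2 := le_max_right _ _
  have hC12 : C1 ≤ C2 := le_max_left _ _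
  have hKd := Kd_pos hd
  set K1 : ℝ := σ + 3 * (C2 ^ (d + 2) * (2 * (d + 1)) * Kd d) with hK1
  have hK10 : 0 ≤ K1 := by positivity
  refine ⟨2 ^ (d + 1) * (K1 + c ^ (d + 1) * σ) + c * ((d + 1) * 2 ^ (d + 1)), by positivity, ?_⟩
  intro f N M δ hf hcov hN hM hδ hδ1
  have hlog : 0 ≤ Real.log (1 / δ) := Real.log_nonneg (by rw [le_div_iff₀ hδ]; linarith)
  set L : ℝ := 1 + Real.log (1 / δ) with hL
  have hL1 : 1 ≤ L := by linarith
  have hL0 : 0 < L := by linarith
  set I0 : ℝ≥0∞ := ∫⁻ x, ‖f x‖ₑ ^ (d + 1) with hI0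
  have hNM : 1 ≤ (N:ℝ≥0∞) ^ d * M := by
    calc (1:ℝ≥0∞) = 1 ^ d * 1 := by simp
      _ ≤ _ := by
          gcongr
          exact_mod_cast hN
  set C : ℝ := 2 ^ (d + 1) * (K1 + c ^ (d + 1) * σ) + c * ((d + 1) * 2 ^ (d + 1)) with hCdef
  have hCpos : 0 < C := by positivity
  by_cases hItop : I0 = ∞
  · rw [hItop, ENNReal.mul_top (by intro h; rw [h] at hNM; simp at hNM), ENNReal.mul_top]
    · exact le_top
    · simp only [ne_eq, ENNReal.ofReal_eq_zero, not_le]; positivity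
  by_cases hI00 : I0 = 0
  · have hae : (fun x => ‖f x‖ₑ ^ (d + 1)) =ᵐ[volume] 0 :=
      (lintegral_eq_zero_iff (hf.enorm.pow_const _)).1 hI00
    have hae2 : (fun x => ‖f x‖ₑ) =ᵐ[volume] 0 := by
      filter_upwards [hae] with x hx
      exact pow_eq_zero_iff (by omega) |>.1 hx
    have h0 : ∀ e, kakeyaMax δ f e = 0 := by
      intro e
      unfold kakeyaMax
      refine le_antisymm (iSup_le fun a => ?_) zero_le
      have : ∫⁻ y in tube δ e a, ‖f y‖ₑ = 0 := by
        refine le_antisymm ((setLIntegral_le_lintegral _ _).trans ?_) zero_le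
        rw [lintegral_congr_ae hae2]; simp
      rw [this, mul_zero]
    simp [h0]
  -- the main case
  set A : ℝ := I0.toReal ^ (1 / ((d:ℝ) + 1)) with hA
  have hIpos : 0 < I0.toReal := ENNReal.toReal_pos hI00 hItop
  have hApos : 0 < A := by positivity
  have hAI : A ^ (d + 1) = I0.toReal := by
    rw [hA, ← Real.rpow_natCast, ← Real.rpow_mul hIpos.le]
    push_cast
    rw [one_div_mul_cancel (by positivity), Real.rpow_one]
  have hAIe : ENNReal.ofReal (A ^ (d + 1)) = I0 := by rw [hAI, ENNReal.ofReal_toReal hItop]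
  set η : ℝ := 1 / L with hη
  have hηpos : 0 < η := by positivity
  have hη1 : η ≤ 1 := by rw [hη, div_le_one hL0]; exact hL1
  set p : ℝ := d + 1 + η with hp
  have hpd : (d:ℝ) + 1 < p := by rw [hp]; linarith
  have hp0 : 0 < p := by rw [hp]; positivity
  set g : EuclideanSpace ℝ (Fin (d + 1)) → ℝ := fun x => min |f x| (A / δ) with hg
  have hgm : Measurable g := (measurable_norm.comp hf).min measurable_const
  have hr0 : 0 < A / δ := by positivity
  have hg0 : ∀ x, 0 ≤ g x := fun x => le_min (abs_nonneg _) hr0.le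
  have hgint : ∫⁻ x, ENNReal.ofReal (g x ^ p) ≤ ENNReal.ofReal ((A / δ) ^ η) * I0 := by
    rw [hI0, ← lintegral_const_mul' _ _ ENNReal.ofReal_ne_top]
    refine lintegral_mono fun x => ?_
    rw [Real.enorm_eq_ofReal_abs, ← ENNReal.ofReal_pow (abs_nonneg _),
      ← ENNReal.ofReal_mul (by positivity)]
    refine ENNReal.ofReal_le_ofReal ?_
    have h1 : g x ≤ |f x| := min_le_left _ _
    have h2 : g x ≤ A / δ := min_le_right _ _
    rcases (hg0 x).eq_or_lt with h0 | h0
    · rw [← h0, Real.zero_rpow hp0.ne']; positivity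
    · calc g x ^ p = g x ^ η * g x ^ (d + 1) := by
            rw [← Real.rpow_natCast, ← Real.rpow_add h0, hp]
            congr 1
            push_cast; ring
        _ ≤ (A / δ) ^ η * |f x| ^ (d + 1) := by gcongr
  set κ : ℝ := δ ^ d with hκ
  have hκpos : 0 < κ := by positivity
  have hκ1 : κ ≤ 1 := pow_le_one₀ hδ.le hδ1.le
  set S : Set (sphere (0 : EuclideanSpace ℝ (Fin (d + 1))) 1) :=
    {e | κ ≤ |(e : EuclideanSpace ℝ (Fin (d + 1))) 0|} with hS
  set S' : Set (sphere (0 : EuclideanSpace ℝ (Fin (d + 1))) 1) :=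
    {e | |(e : EuclideanSpace ℝ (Fin (d + 1))) 0| ≤ κ} with hS'
  have hcover : S ∪ S' = univ := by
    ext e
    simp only [hS, hS', mem_union, mem_ofPred_eq, mem_univ, iff_true]
    exact le_total _ _
  -- the steep part
  have hsteep : ∫⁻ e in S, kakeyaMax δ g e ^ p ∂(surf (d + 1)) ≤
      ENNReal.ofReal (C2 ^ (d + 2) * (2 * (d + 1) * L) * (Kd d * L ^ (2 * d + 2)) * (A / δ) ^ η) *
        ((N:ℝ≥0∞) ^ d * M * I0) := by
    have h1 := hstrong g N M (th d p) p κ δ hgm hg0 (sliced_min hcov) (th_pos hd hpd)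
      (by rw [qq_th hd]; linarith) hκpos hδ hδ1.le
    have h2 := cP_le hd hηpos hη1
    have h3 : ENNReal.ofReal C1 ^ p ≤ ENNReal.ofReal (C2 ^ (d + 2)) := by
      calc ENNReal.ofReal C1 ^ p ≤ ENNReal.ofReal C2 ^ p :=
            ENNReal.rpow_le_rpow (ENNReal.ofReal_le_ofReal hC12) hp0.le
        _ ≤ ENNReal.ofReal C2 ^ (((d + 2 : ℕ)) : ℝ) := by
            refine ENNReal.rpow_le_rpow_of_exponent_le ?_ ?_
            · rw [← ENNReal.ofReal_one]; exact ENNReal.ofReal_le_ofReal hC21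
            · rw [hp]; push_cast; linarith
        _ = _ := by rw [ENNReal.rpow_natCast, ENNReal.ofReal_pow (by positivity)]
    have h4 : (nsh κ : ℝ≥0∞) ≤ ENNReal.ofReal (2 * (d + 1) * L) := by
      rw [← ENNReal.ofReal_natCast]
      refine ENNReal.ofReal_le_ofReal ((nsh_le hκpos hκ1).trans ?_)
      have h5 : Real.log (1 / κ) = d * Real.log (1 / δ) := by
        rw [hκ, ← one_div_pow, Real.log_pow]
      rw [h5, hL]
      have : (0:ℝ) ≤ d := by positivity
      nlinarith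
    have h6 : Kd d * (1 / η) ^ (2 * d + 2) = Kd d * L ^ (2 * d + 2) := by
      rw [hη, one_div_one_div]
    rw [h6] at h2
    calc _ ≤ _ := h1
      _ ≤ ENNReal.ofReal (C2 ^ (d + 2)) * ENNReal.ofReal (2 * (d + 1) * L) *
          (ENNReal.ofReal (Kd d * L ^ (2 * d + 2)) * (N:ℝ≥0∞) ^ d * M *
            (ENNReal.ofReal ((A / δ) ^ η) * I0)) := by
          gcongr
      _ = _ := by
          rw [ENNReal.ofReal_mul (q := (A / δ) ^ η) (by positivity),
            ENNReal.ofReal_mul (q := Kd d * L ^ (2 * d + 2)) (by positivity),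
            ENNReal.ofReal_mul (p := C2 ^ (d + 2)) (by positivity)]
          ring
  have hAδ : A ^ (-η) * (A / δ) ^ η = δ ^ (-η) := by
    rw [Real.div_rpow hApos.le hδ.le, Real.rpow_neg hApos.le, Real.rpow_neg hδ.le]
    have h1 : A ^ η ≠ 0 := by positivity
    have h2 : δ ^ η ≠ 0 := by positivity
    field_simp
  have hδη : δ ^ (-η) ≤ 3 := exp_bound hδ hδ1
  have hSσ : surf (d + 1) S ≤ ENNReal.ofReal σ := by rw [← hσeq]; exact measure_mono (subset_univ _)
  have hI0J : I0 ≤ (N:ℝ≥0∞) ^ d * M * I0 := by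
    calc I0 = 1 * I0 := (one_mul _).symm
      _ ≤ _ := by gcongr
  have hLpow : (1:ℝ) ≤ L ^ (2 * d + 3) := one_le_pow₀ hL1
  have hsteep2 : ∫⁻ e in S, kakeyaMax δ g e ^ (d + 1) ∂(surf (d + 1)) ≤
      ENNReal.ofReal (K1 * L ^ (2 * d + 3)) * ((N:ℝ≥0∞) ^ d * M * I0) := by
    calc ∫⁻ e in S, kakeyaMax δ g e ^ (d + 1) ∂(surf (d + 1))
        ≤ ∫⁻ e in S, (ENNReal.ofReal A ^ (d + 1) +
            ENNReal.ofReal (A ^ (-η)) * kakeyaMax δ g e ^ p) ∂(surf (d + 1)) := by
          refine lintegral_mono fun e => ?_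
          have := pow_le_add_rpow hApos hηpos (kakeyaMax δ g e) (d + 1)
          push_cast at this
          exact this
      _ = ENNReal.ofReal A ^ (d + 1) * surf (d + 1) S +
            ENNReal.ofReal (A ^ (-η)) * ∫⁻ e in S, kakeyaMax δ g e ^ p ∂(surf (d + 1)) := by
          rw [lintegral_add_left measurable_const, lintegral_const_mul' _ _ ENNReal.ofReal_ne_top,
            setLIntegral_const]
      _ ≤ I0 * ENNReal.ofReal σ + ENNReal.ofReal (A ^ (-η)) *
            (ENNReal.ofReal (C2 ^ (d + 2) * (2 * (d + 1) * L) * (Kd d * L ^ (2 * d + 2)) *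
              (A / δ) ^ η) * ((N:ℝ≥0∞) ^ d * M * I0)) := by
          rw [← ENNReal.ofReal_pow hApos.le, hAIe]
          gcongr
      _ ≤ ENNReal.ofReal σ * ((N:ℝ≥0∞) ^ d * M * I0) + ENNReal.ofReal
            (3 * (C2 ^ (d + 2) * (2 * (d + 1) * L) * (Kd d * L ^ (2 * d + 2)))) *
              ((N:ℝ≥0∞) ^ d * M * I0) := by
          refine add_le_add ?_ ?_
          · rw [mul_comm]
            gcongr
          · rw [← mul_assoc, ← ENNReal.ofReal_mul (by positivity)]
            refine mul_le_mul_left (ENNReal.ofReal_le_ofReal ?_) _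
            have e1 : A ^ (-η) * (C2 ^ (d + 2) * (2 * (d + 1) * L) * (Kd d * L ^ (2 * d + 2)) *
              (A / δ) ^ η) = δ ^ (-η) * (C2 ^ (d + 2) * (2 * (d + 1) * L) *
                (Kd d * L ^ (2 * d + 2))) := by
              rw [← hAδ]; ring
            rw [e1]
            gcongr
      _ ≤ _ := by
          rw [← add_mul, ← ENNReal.ofReal_add (by positivity) (by positivity)]
          refine mul_le_mul_left (ENNReal.ofReal_le_ofReal ?_) _
          have e2 : 3 * (C2 ^ (d + 2) * (2 * (d + 1) * L) * (Kd d * L ^ (2 * d + 2))) =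
              3 * (C2 ^ (d + 2) * (2 * (d + 1)) * Kd d) * L ^ (2 * d + 3) := by
            rw [show 2 * d + 3 = (2 * d + 2) + 1 by ring, pow_succ L (2 * d + 2)]; ring
          rw [e2, hK1, add_mul]
          gcongr
          exact le_mul_of_one_le_right hσ0 hLpow
  -- the steep part for `f`
  have hsteep3 : ∫⁻ e in S, kakeyaMax δ f e ^ (d + 1) ∂(surf (d + 1)) ≤
      ENNReal.ofReal (2 ^ (d + 1) * (K1 + c ^ (d + 1) * σ) * L ^ (2 * d + 3)) *
        ((N:ℝ≥0∞) ^ d * M * I0) := by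
    calc ∫⁻ e in S, kakeyaMax δ f e ^ (d + 1) ∂(surf (d + 1))
        ≤ ∫⁻ e in S, 2 ^ (d + 1) * (ENNReal.ofReal (c * A) ^ (d + 1) +
            kakeyaMax δ g e ^ (d + 1)) ∂(surf (d + 1)) := by
          refine lintegral_mono fun e => ?_
          have h1 := split_le hc hδ (htriv δ e f hδ (by simp) hf).1 hf hApos hAIe.ge
          calc kakeyaMax δ f e ^ (d + 1) ≤ (kakeyaMax δ g e + ENNReal.ofReal (c * A)) ^ (d + 1) := by
                gcongr
            _ ≤ 2 ^ (d + 1) * (kakeyaMax δ g e ^ (d + 1) + ENNReal.ofReal (c * A) ^ (d + 1)) :=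
                add_two_pow _ _ _
            _ = _ := by rw [add_comm (kakeyaMax δ g e ^ (d + 1))]
      _ = 2 ^ (d + 1) * (ENNReal.ofReal (c * A) ^ (d + 1) * surf (d + 1) S +
            ∫⁻ e in S, kakeyaMax δ g e ^ (d + 1) ∂(surf (d + 1))) := by
          rw [lintegral_const_mul' _ _ (by finiteness), lintegral_add_left measurable_const,
            setLIntegral_const]
      _ ≤ 2 ^ (d + 1) * (ENNReal.ofReal (c ^ (d + 1) * σ) * ((N:ℝ≥0∞) ^ d * M * I0) +
            ENNReal.ofReal (K1 * L ^ (2 * d + 3)) * ((N:ℝ≥0∞) ^ d * M * I0)) := by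
          gcongr 2 ^ (d + 1) * (?_ + ?_)
          · calc ENNReal.ofReal (c * A) ^ (d + 1) * surf (d + 1) S
                ≤ (ENNReal.ofReal (c ^ (d + 1)) * I0) * ENNReal.ofReal σ := by
                  rw [← ENNReal.ofReal_pow (by positivity), mul_pow,
                    ENNReal.ofReal_mul (by positivity), hAIe]
                  gcongr
              _ = ENNReal.ofReal (c ^ (d + 1) * σ) * I0 := by
                  rw [ENNReal.ofReal_mul (by positivity)]; ring
              _ ≤ _ := by gcongr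
      _ = ENNReal.ofReal (2 ^ (d + 1) * (c ^ (d + 1) * σ + K1 * L ^ (2 * d + 3))) *
            ((N:ℝ≥0∞) ^ d * M * I0) := by
          rw [← add_mul, ← ENNReal.ofReal_add (by positivity) (by positivity), ← mul_assoc,
            ENNReal.ofReal_mul (p := 2 ^ (d + 1)) (by positivity), ENNReal.ofReal_pow (by norm_num)]
          norm_num
      _ ≤ _ := by
          refine mul_le_mul_left (ENNReal.ofReal_le_ofReal ?_) _
          rw [mul_assoc (2 ^ (d + 1) : ℝ)]
          have h9 : 0 ≤ c ^ (d + 1) * σ := by positivity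
          have : c ^ (d + 1) * σ ≤ c ^ (d + 1) * σ * L ^ (2 * d + 3) :=
            le_mul_of_one_le_right h9 hLpow
          have h10 : c ^ (d + 1) * σ + K1 * L ^ (2 * d + 3) ≤
              (K1 + c ^ (d + 1) * σ) * L ^ (2 * d + 3) := by
            rw [add_mul]; linarith
          gcongr
  -- near the equator
  have hflat : ∫⁻ e in S', kakeyaMax δ f e ^ (d + 1) ∂(surf (d + 1)) ≤
      ENNReal.ofReal (c * ((d + 1) * 2 ^ (d + 1)) * L ^ (2 * d + 3)) *
        ((N:ℝ≥0∞) ^ d * M * I0) := by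
    calc ∫⁻ e in S', kakeyaMax δ f e ^ (d + 1) ∂(surf (d + 1))
        ≤ ∫⁻ _e in S', ENNReal.ofReal (c * (δ ^ d)⁻¹) * I0 ∂(surf (d + 1)) :=
          lintegral_mono fun e => (htriv δ e f hδ (by simp) hf).2
      _ = ENNReal.ofReal (c * (δ ^ d)⁻¹) * I0 * surf (d + 1) S' := by rw [setLIntegral_const]
      _ ≤ ENNReal.ofReal (c * (δ ^ d)⁻¹) * I0 * ENNReal.ofReal ((d + 1) * 2 ^ (d + 1) * κ) := by
          gcongr
          exact surf_equator hκpos
      _ = ENNReal.ofReal (c * ((d + 1) * 2 ^ (d + 1))) * I0 := by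
          rw [mul_right_comm, ← ENNReal.ofReal_mul (by positivity)]
          congr 2
          rw [hκ]
          field_simp
      _ ≤ _ := by
          refine mul_le_mul' (ENNReal.ofReal_le_ofReal ?_) hI0J
          have h9 : 0 ≤ c * (((d:ℝ) + 1) * 2 ^ (d + 1)) := by positivity
          exact le_mul_of_one_le_right h9 hLpow
  calc ∫⁻ e : sphere (0 : EuclideanSpace ℝ (Fin (d + 1))) 1, kakeyaMax δ f e ^ (d + 1)
      ∂(surf (d + 1))
      = ∫⁻ e in S ∪ S', kakeyaMax δ f e ^ (d + 1) ∂(surf (d + 1)) := by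
        rw [hcover, Measure.restrict_univ]
    _ ≤ (∫⁻ e in S, kakeyaMax δ f e ^ (d + 1) ∂(surf (d + 1))) +
        ∫⁻ e in S', kakeyaMax δ f e ^ (d + 1) ∂(surf (d + 1)) := lintegral_union_le _ _ _
    _ ≤ _ := add_le_add hsteep3 hflat
    _ = _ := by
        rw [← add_mul, ← ENNReal.ofReal_add (by positivity) (by positivity), ← add_mul]

end Pool.Agent.TH539
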