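import Pool.Agent.TH539.Dual
import Pool.Agent.H810R3.Tub.Compare

set_option autoImplicit false

/-!
Sums of boxes dual to the caps of the paraboloid.
-/

open MeasureTheory Set ENNReal NNReal Metric
open Pool.Agent.H810R3.Tub hiding tube
open Pool.Agent.TH539 (slice ConvexCover tube CSliced Gs ofReal_Gs dual ae_scale)

namespace Pool.Agent.TF539

variable {d : ℕ}

theorem norm_perp_le {n : ℕ} {w e : EuclideanSpace ℝ (Fin n)} (he : ‖e‖ = 1) (t : ℝ) :
    ‖w - (inner ℝ w e : ℝ) • e‖ ≤ ‖w - t • e‖ := by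
  have h : ∀ r : ℝ, ‖w - r • e‖ ^ 2 = ‖w‖ ^ 2 - 2 * (r * inner ℝ w e) + r ^ 2 := by
    intro r
    rw [norm_sub_sq_real, inner_smul_right, norm_smul, he, mul_one, Real.norm_eq_abs, sq_abs]
  have h1 := h (inner ℝ w e)
  have h2 := h t
  have h3 : ‖w - (inner ℝ w e : ℝ) • e‖ ^ 2 ≤ ‖w - t • e‖ ^ 2 := by
    rw [h1, h2]
    nlinarith [sq_nonneg (t - inner ℝ w e)]
  exact (pow_le_pow_iff_left₀ (norm_nonneg _) (norm_nonneg _) (by norm_num)).1 h3

/-- The directions separate the parameters. -/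
theorem dir_sep {v w : Vec d} (hv : ‖v‖ ≤ 2) (hw : ‖w‖ ≤ 2) :
    ‖v - w‖ ≤ 7 * ‖dir v - dir w‖ := by
  set p : ℝ := (√(1 + ‖v‖ ^ 2))⁻¹ with hp
  set q : ℝ := (√(1 + ‖w‖ ^ 2))⁻¹ with hq
  have hsv : √(1 + ‖v‖ ^ 2) ≤ 7 / 3 := by
    rw [Real.sqrt_le_left (by norm_num)]
    nlinarith [norm_nonneg v]
  have hv0 : 0 < √(1 + ‖v‖ ^ 2) := by positivity
  have hw0 : 0 < √(1 + ‖w‖ ^ 2) := by positivity
  have hp0 : 0 < p := inv_pos.2 hv0
  have hq0 : 0 < q := inv_pos.2 hw0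
  have hp1 : 3 / 7 ≤ p := by
    rw [hp, le_inv_comm₀ (by norm_num) hv0]
    refine hsv.trans (by norm_num)
  have h1 : (dir v - dir w).fst = p • v - q • w := by
    unfold dir
    rw [WithLp.sub_fst]
    simp [hp, hq]
  have h2 : (dir v - dir w).snd = p - q := by
    unfold dir
    rw [WithLp.sub_snd]
    simp [hp, hq]
  have h3 := norm_space_sq (dir v - dir w)
  rw [h1, h2] at h3
  set D := ‖dir v - dir w‖ with hD
  have hD0 : 0 ≤ D := norm_nonneg _
  have h4 : ‖p • v - q • w‖ ≤ D := by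
    apply le_of_sq_le_sq _ hD0
    nlinarith [sq_nonneg (p - q)]
  have h5 : |p - q| ≤ D := by
    apply le_of_sq_le_sq _ hD0
    rw [sq_abs]
    nlinarith [sq_nonneg ‖p • v - q • w‖]
  have h6 : p • (v - w) = (p • v - q • w) + (q - p) • w := by
    rw [smul_sub, sub_smul]; abel
  have h7 : p * ‖v - w‖ ≤ 3 * D := by
    calc p * ‖v - w‖ = ‖p • (v - w)‖ := by rw [norm_smul, Real.norm_eq_abs, abs_of_pos hp0]
      _ ≤ ‖p • v - q • w‖ + ‖(q - p) • w‖ := by rw [h6]; exact norm_add_le _ _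
      _ ≤ D + D * 2 := by
          rw [norm_smul, Real.norm_eq_abs, abs_sub_comm]
          gcongr
      _ = 3 * D := by ring
  have h8 : 3 / 7 * ‖v - w‖ ≤ p * ‖v - w‖ := by gcongr
  linarith

/-- Convex covers and scaling. -/
theorem cover_scale {K : ℕ} {M : ℝ≥0∞} {A : Set (Fin d → ℝ)} {S : ℝ} (hS : S ≠ 0)
    (h : ConvexCover K (M * volume A) A) :
    ConvexCover K (M * volume ((fun y => S • y) ⁻¹' A)) ((fun y => S • y) ⁻¹' A) := by
  obtain ⟨C, hC, hAC, hv⟩ := h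
  refine ⟨fun j => (fun y => S • y) ⁻¹' (C j), fun j => (hC j).smul_preimage S, ?_, ?_⟩
  · intro y hy
    have := hAC hy
    rw [mem_iUnion] at this ⊢
    exact this
  · have h1 : ∀ s : Set (Fin d → ℝ), volume ((fun y => S • y) ⁻¹' s) =
        ENNReal.ofReal |(S ^ Module.finrank ℝ (Fin d → ℝ))⁻¹| * volume s :=
      fun s => Measure.addHaar_preimage_smul volume hS s
    simp_rw [h1]
    rw [← Finset.mul_sum]
    calc ENNReal.ofReal |(S ^ Module.finrank ℝ (Fin d → ℝ))⁻¹| * ∑ j, volume (C j)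
        ≤ ENNReal.ofReal |(S ^ Module.finrank ℝ (Fin d → ℝ))⁻¹| * (M * volume A) := by gcongr
      _ = _ := by ring

/-- The section of `A` by the hyperplane at height `t`, in the coordinates given by `Φ`. -/
def sect (Φ : Space d ≃ₗᵢ[ℝ] EuclideanSpace ℝ (Fin (d + 1))) (A : Set (Space d)) (t : ℝ) :
    Set (Fin d → ℝ) :=
  {y | Φ.symm (WithLp.toLp 2 (Fin.cons t y : Fin (d + 1) → ℝ)) ∈ A}

/-- The sum of the indicators of the boxes. -/
noncomputable def bs {ι : Type} [Fintype ι] (N : ℝ) (ω : ι → Vec d)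
    (f : ι → Fin d → Space d) (a : ι → Space d) (y : Space d) : ℝ :=
  ∑ i, (box N (nor (ω i)) (f i) (a i)).indicator (fun _ => (1 : ℝ)) y

theorem bs_nat {ι : Type} [Fintype ι] (N : ℝ) (ω : ι → Vec d)
    (f : ι → Fin d → Space d) (a : ι → Space d) (y : Space d) : ∃ k : ℕ, bs N ω f a y = k := by
  classical
  refine ⟨∑ i, if y ∈ box N (nor (ω i)) (f i) (a i) then 1 else 0, ?_⟩
  unfold bs
  push_cast
  refine Finset.sum_congr rfl fun i _ => ?_
  by_cases hm : y ∈ box N (nor (ω i)) (f i) (a i)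
  · rw [indicator_of_mem hm, if_pos hm]
  · rw [indicator_of_notMem hm, if_neg hm]

/-- The scaling map. -/
noncomputable def TT (Φ : Space d ≃ₗᵢ[ℝ] EuclideanSpace ℝ (Fin (d + 1))) (S : ℝ)
    (x : EuclideanSpace ℝ (Fin (d + 1))) : Space d := S • Φ.symm x

theorem continuous_TT (Φ : Space d ≃ₗᵢ[ℝ] EuclideanSpace ℝ (Fin (d + 1))) (S : ℝ) :
    Continuous (TT Φ S) := by
  unfold TT
  exact Φ.symm.continuous.const_smul S

/-- A scaled box is contained in a tube of every nearby direction. -/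
theorem box_tube (Φ : Space d ≃ₗᵢ[ℝ] EuclideanSpace ℝ (Fin (d + 1))) {N : ℝ} (hN : 1 ≤ N)
    {e : Space d} {f : Fin d → Space d}
    (h : Orthonormal ℝ (Fin.cons e f : Fin (d + 1) → Space d)) (a : Space d)
    {u : EuclideanSpace ℝ (Fin (d + 1))} (hu : ‖u‖ = 1) (hue : ‖u - Φ e‖ ≤ 1 / (4 * N)) :
    {x | TT Φ (2 * (d + 1) * N ^ 2) x ∈ box N e f a} ⊆
      tube (1 / (2 * N)) u ((2 * (d + 1) * N ^ 2)⁻¹ • Φ a) := by
  intro x hx
  set S : ℝ := 2 * (d + 1) * N ^ 2 with hS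
  have hN0 : 0 < N := by linarith
  have hd0 : (0:ℝ) ≤ d := Nat.cast_nonneg d
  have hS0 : 0 < S := by positivity
  have he : ‖e‖ = 1 := norm_e h
  have hΦe : ‖Φ e‖ = 1 := by rw [Φ.norm_map, he]
  set b : EuclideanSpace ℝ (Fin (d + 1)) := S⁻¹ • Φ a with hb
  set z := x - b with hz
  have h1 : TT Φ S x - a = S • Φ.symm z := by
    rw [hz, map_sub, smul_sub, hb, map_smul, smul_smul, mul_inv_cancel₀ hS0.ne', one_smul,
      Φ.symm_apply_apply]
    rfl
  have hx1 : |inner ℝ e (TT Φ S x - a)| ≤ N ^ 2 / 2 := hx.1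
  have h2 : inner ℝ e (TT Φ S x - a) = S * inner ℝ z (Φ e) := by
    rw [h1, inner_smul_right]
    congr 1
    rw [← Φ.inner_map_map, Φ.apply_symm_apply, real_inner_comm]
  set s : ℝ := inner ℝ z (Φ e) with hs
  have hs1 : |s| ≤ 1 / 4 := by
    rw [h2, abs_mul, abs_of_pos hS0] at hx1
    have h3 : S * |s| ≤ S * (1 / 4) := by
      refine hx1.trans ?_
      rw [hS]
      nlinarith [sq_nonneg N, mul_nonneg hd0 (sq_nonneg N)]
    exact le_of_mul_le_mul_left h3 hS0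
  have hp := box_perp hN h hx
  have h4 : ‖(TT Φ S x - a) - (inner ℝ e (TT Φ S x - a) : ℝ) • e‖ = S * ‖z - s • Φ e‖ := by
    have h5 : S • Φ.symm z - (S * s) • e = S • (Φ.symm z - s • e) := by
      rw [smul_sub, smul_smul]
    rw [h2, h1, h5, norm_smul, Real.norm_eq_abs, abs_of_pos hS0]
    congr 1
    rw [← Φ.norm_map, map_sub, map_smul, Φ.apply_symm_apply]
  have hp1 : ‖z - s • Φ e‖ ≤ 1 / (4 * N) := by
    rw [h4] at hp
    have h5 : S * ‖z - s • Φ e‖ ≤ S * (1 / (4 * N)) := by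
      refine hp.trans ?_
      have h6 : S * (1 / (4 * N)) = (d + 1) * N / 2 := by
        rw [hS]; field_simp; ring
      rw [h6]
      nlinarith
    exact le_of_mul_le_mul_left h5 hS0
  have hN4 : 1 / (4 * N) ≤ 1 / 4 := by
    apply one_div_le_one_div_of_le (by norm_num); linarith
  have hzn : ‖z‖ ≤ 1 / 2 := by
    calc ‖z‖ = ‖s • Φ e + (z - s • Φ e)‖ := by congr 1; abel
      _ ≤ ‖s • Φ e‖ + ‖z - s • Φ e‖ := norm_add_le _ _
      _ ≤ 1 / 4 + 1 / 4 := by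
          rw [norm_smul, hΦe, mul_one, Real.norm_eq_abs]
          exact add_le_add hs1 (hp1.trans hN4)
      _ = 1 / 2 := by norm_num
  refine ⟨?_, ?_⟩
  · have h7 : inner ℝ z u = s + inner ℝ z (u - Φ e) := by
      rw [inner_sub_right, hs]; ring
    rw [← hz, h7]
    calc |s + inner ℝ z (u - Φ e)| ≤ |s| + |inner ℝ z (u - Φ e)| := abs_add_le _ _
      _ ≤ 1 / 4 + 1 / 2 * (1 / 4) := by
          refine add_le_add hs1 ((abs_real_inner_le_norm _ _).trans ?_)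
          gcongr
          exact hue.trans hN4
      _ ≤ 1 / 2 := by norm_num
  · rw [← hz]
    calc ‖z - (inner ℝ z u : ℝ) • u‖ ≤ ‖z - s • u‖ := norm_perp_le hu s
      _ = ‖(z - s • Φ e) + s • (Φ e - u)‖ := by congr 1; rw [smul_sub]; abel
      _ ≤ ‖z - s • Φ e‖ + ‖s • (Φ e - u)‖ := norm_add_le _ _
      _ ≤ 1 / (4 * N) + 1 * (1 / (4 * N)) := by
          rw [norm_smul, Real.norm_eq_abs, norm_sub_rev (Φ e)]
          gcongr
          linarith
      _ = 1 / (2 * N) := by field_simp; ring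

/-- The moment. -/
theorem moment (d : ℕ) (hd : 1 ≤ d) (σ : ℝ) (hσ : 0 < σ) (hσ1 : σ ≤ 1) :
    ∃ E : ℝ, 0 < E ∧ ∀ N : ℝ, 1 ≤ N → ∀ (ι : Type) [Fintype ι] (ω : ι → Vec d)
      (f : ι → Fin d → Space d) (a : ι → Space d)
      (Φ : Space d ≃ₗᵢ[ℝ] EuclideanSpace ℝ (Fin (d + 1))) (K : ℕ) (M : ℝ),
      (∀ i, ‖ω i‖ ≤ 1) → (∀ i j, i ≠ j → σ / N ≤ ‖ω i - ω j‖) →
      (∀ i, Orthonormal ℝ (Fin.cons (nor (ω i)) (f i) : Fin (d + 1) → Space d)) →
      1 ≤ K → 1 ≤ M →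
      (∀ k : ℕ, ∀ᵐ t : ℝ, ConvexCover K
        (ENNReal.ofReal M * volume (sect Φ {y | (k:ℝ) < bs N ω f a y} t))
        (sect Φ {y | (k:ℝ) < bs N ω f a y} t)) →
      ∫⁻ y, Fb N ω f a y ^ (((d:ℝ) + 1) / d) ≤
        ENNReal.ofReal (E * N ^ (2 * (d + 1)) *
          ((1 + Real.log N) ^ (2 * d + 3) * ((K:ℝ) ^ d * M)) ^ (1 / (d:ℝ))) := by
  have hd0 : (0:ℝ) < d := by exact_mod_cast hd
  obtain ⟨C0, hC0, hdual⟩ := dual (d := d) hd (τ := σ / 2) (by positivity) (by linarith)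
  refine ⟨(2 * (d + 1)) ^ (d + 1) * C0 * ((2:ℝ) ^ (2 * d + 3)) ^ (1 / (d:ℝ)), by positivity, ?_⟩
  intro N hN ι _ ω f a Φ K M hω hsep hf hK hM hcov
  have hN0 : 0 < N := by linarith
  have hlN : 0 ≤ Real.log N := Real.log_nonneg hN
  set S : ℝ := 2 * (d + 1) * N ^ 2 with hS
  have hS0 : 0 < S := by positivity
  set B : ι → Set (EuclideanSpace ℝ (Fin (d + 1))) :=
    fun i => {x | TT Φ S x ∈ box N (nor (ω i)) (f i) (a i)} with hB
  have hBm : ∀ i, MeasurableSet (B i) := fun i =>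
    ((box_closed _ _ _ _).preimage (continuous_TT Φ S)).measurableSet
  have hGs : ∀ x, Gs B x = bs N ω f a (TT Φ S x) := by
    intro x
    rfl
  have he1 : ∀ i, ‖Φ (nor (ω i))‖ = 1 := fun i => by rw [Φ.norm_map]; exact norm_e (hf i)
  set δ : ℝ := 1 / (2 * N) with hδ
  have hδ0 : 0 < δ := by positivity
  have hδ1 : δ < 1 := by
    rw [hδ, div_lt_one (by positivity)]; linarith
  have hsepe : ∀ i j, i ≠ j → σ / 2 * δ ≤ ‖Φ (nor (ω i)) - Φ (nor (ω j))‖ := by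
    intro i j hij
    rw [← map_sub, Φ.norm_map]
    have hn : ∀ i, ‖-(2:ℝ) • ω i‖ ≤ 2 := by
      intro i
      rw [norm_smul, norm_neg, Real.norm_ofNat]
      linarith [hω i]
    have h1 := dir_sep (hn i) (hn j)
    have h2 : ‖-(2:ℝ) • ω i - -(2:ℝ) • ω j‖ = 2 * ‖ω i - ω j‖ := by
      rw [← smul_sub, norm_smul, norm_neg, Real.norm_ofNat]
    rw [h2] at h1
    have h3 := hsep i j hij
    have h4 : σ / 2 * δ = σ / N / 4 := by rw [hδ]; field_simp; ring
    rw [h4]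
    have h5 : 0 < σ / N := by positivity
    unfold nor
    linarith
  have htube : ∀ i, ∀ u : EuclideanSpace ℝ (Fin (d + 1)), ‖u‖ = 1 →
      ‖u - Φ (nor (ω i))‖ < σ / 2 * δ / 2 → ∃ b, B i ⊆ tube δ u b := by
    intro i u hu hue
    refine ⟨_, box_tube Φ hN (hf i) (a i) hu ?_⟩
    have h1 : σ / 2 * δ / 2 ≤ 1 / (4 * N) := by
      have h2 : σ / 2 * δ / 2 = σ * (1 / (8 * N)) := by rw [hδ]; field_simp; ring
      rw [h2]
      calc σ * (1 / (8 * N)) ≤ 1 * (1 / (8 * N)) := by gcongr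
        _ ≤ 1 / (4 * N) := by
            rw [one_mul]
            apply one_div_le_one_div_of_le (by positivity); linarith
    linarith
  have hsl : CSliced K (ENNReal.ofReal M) (fun x => Gs B x ^ (1 / (d:ℝ))) := by
    intro r hr
    have hk := ae_scale hS0 (hcov ⌊r ^ d⌋₊)
    filter_upwards [hk] with t ht
    have h1 : slice {x | r < |Gs B x ^ (1 / (d:ℝ))|} t =
        (fun y => S • y) ⁻¹' (sect Φ {y | ((⌊r ^ d⌋₊ : ℕ) : ℝ) < bs N ω f a y} (S * t)) := by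
      ext y
      show r < |Gs B (WithLp.toLp 2 (Fin.cons t y : Fin (d + 1) → ℝ)) ^ (1 / (d:ℝ))| ↔
        ((⌊r ^ d⌋₊ : ℕ) : ℝ) < bs N ω f a
          (Φ.symm (WithLp.toLp 2 (Fin.cons (S * t) (S • y) : Fin (d + 1) → ℝ)))
      have h2 : WithLp.toLp 2 (Fin.cons (S * t) (S • y) : Fin (d + 1) → ℝ) =
          S • WithLp.toLp 2 (Fin.cons t y : Fin (d + 1) → ℝ) := by
        ext j
        refine Fin.cases ?_ (fun j => ?_) j
        · simp
        · simp
      have h3 : Φ.symm (WithLp.toLp 2 (Fin.cons (S * t) (S • y) : Fin (d + 1) → ℝ)) =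
          TT Φ S (WithLp.toLp 2 (Fin.cons t y : Fin (d + 1) → ℝ)) := by
        rw [h2, map_smul]; rfl
      rw [h3, ← hGs]
      set x := WithLp.toLp 2 (Fin.cons t y : Fin (d + 1) → ℝ) with hx
      obtain ⟨k, hk⟩ := bs_nat N ω f a (TT Φ S x)
      rw [← hGs] at hk
      rw [hk, abs_of_nonneg (Real.rpow_nonneg (Nat.cast_nonneg k) _), Nat.cast_lt,
        Nat.floor_lt (by positivity)]
      constructor
      · intro h4
        have h5 := pow_lt_pow_left₀ h4 hr.le (by omega : d ≠ 0)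
        rwa [← Real.rpow_natCast ((k:ℝ) ^ (1 / (d:ℝ))), ← Real.rpow_mul (Nat.cast_nonneg k),
          one_div_mul_cancel hd0.ne', Real.rpow_one] at h5
      · intro h4
        have h5 := Real.rpow_lt_rpow (by positivity) h4 (by positivity : 0 < 1 / (d:ℝ))
        rwa [← Real.rpow_natCast, ← Real.rpow_mul hr.le, mul_one_div_cancel hd0.ne',
          Real.rpow_one] at h5
    rw [h1]
    exact cover_scale hS0.ne' ht
  have key := hdual ι B (fun i => Φ (nor (ω i))) δ K M hBm he1 hδ0 hδ1 hsepe htube hK hM hsl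
  -- change of variables
  have hcv : ∫⁻ y, Fb N ω f a y ^ (((d:ℝ) + 1) / d) = ENNReal.ofReal (S ^ (d + 1)) *
      ∫⁻ x, ENNReal.ofReal (Gs B x) ^ (((d:ℝ) + 1) / d) := by
    have h1 : ∀ x, ENNReal.ofReal (Gs B x) ^ (((d:ℝ) + 1) / d) =
        Fb N ω f a (S • Φ.symm x) ^ (((d:ℝ) + 1) / d) := by
      intro x
      rw [ofReal_Gs]
      rfl
    simp_rw [h1]
    have h2 : ∫⁻ x, Fb N ω f a (S • Φ.symm x) ^ (((d:ℝ) + 1) / d) =
        ∫⁻ y, Fb N ω f a (S • y) ^ (((d:ℝ) + 1) / d) := by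
      have hmp := Φ.symm.measurePreserving
      have hm : Measurable fun y : Space d => Fb N ω f a (S • y) ^ (((d:ℝ) + 1) / d) := by
        have := (Fb_measurable N ω f a).comp (measurable_const_smul S)
        exact this.pow_const _
      exact hmp.lintegral_comp hm
    rw [h2, lint_smul volume hS0.ne' (fun y => Fb N ω f a y ^ (((d:ℝ) + 1) / d)), finrank_space,
      ← mul_assoc, ← ENNReal.ofReal_mul (by positivity), abs_of_pos (by positivity),
      mul_inv_cancel₀ (by positivity), ENNReal.ofReal_one, one_mul]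
  rw [hcv]
  have hKM : 0 ≤ (K:ℝ) ^ d * M := by positivity
  have hlog : 1 + Real.log (1 / δ) ≤ 2 * (1 + Real.log N) := by
    have h1 : 1 / δ = 2 * N := by rw [hδ]; field_simp
    rw [h1, Real.log_mul (by norm_num) hN0.ne']
    have := Real.log_two_lt_d9
    linarith
  have hlog0 : 0 ≤ 1 + Real.log (1 / δ) := by
    have h1 : 1 / δ = 2 * N := by rw [hδ]; field_simp
    rw [h1]
    have := Real.log_nonneg (by linarith : 1 ≤ 2 * N)
    linarith
  calc ENNReal.ofReal (S ^ (d + 1)) * ∫⁻ x, ENNReal.ofReal (Gs B x) ^ (((d:ℝ) + 1) / d)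
      ≤ ENNReal.ofReal (S ^ (d + 1)) * ENNReal.ofReal (C0 *
        ((1 + Real.log (1 / δ)) ^ (2 * d + 3) * ((K:ℝ) ^ d * M)) ^ (1 / (d:ℝ))) := by gcongr
    _ = ENNReal.ofReal (S ^ (d + 1) * (C0 *
        ((1 + Real.log (1 / δ)) ^ (2 * d + 3) * ((K:ℝ) ^ d * M)) ^ (1 / (d:ℝ)))) :=
        (ENNReal.ofReal_mul (by positivity)).symm
    _ ≤ _ := by
        refine ENNReal.ofReal_le_ofReal ?_
        have h1 : ((1 + Real.log (1 / δ)) ^ (2 * d + 3) * ((K:ℝ) ^ d * M)) ^ (1 / (d:ℝ)) ≤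
            ((2:ℝ) ^ (2 * d + 3)) ^ (1 / (d:ℝ)) *
              ((1 + Real.log N) ^ (2 * d + 3) * ((K:ℝ) ^ d * M)) ^ (1 / (d:ℝ)) := by
          rw [← Real.mul_rpow (by positivity) (by positivity)]
          refine Real.rpow_le_rpow (by positivity) ?_ (by positivity)
          calc (1 + Real.log (1 / δ)) ^ (2 * d + 3) * ((K:ℝ) ^ d * M)
              ≤ (2 * (1 + Real.log N)) ^ (2 * d + 3) * ((K:ℝ) ^ d * M) := by gcongr
            _ = _ := by rw [mul_pow]; ring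
        calc S ^ (d + 1) * (C0 *
            ((1 + Real.log (1 / δ)) ^ (2 * d + 3) * ((K:ℝ) ^ d * M)) ^ (1 / (d:ℝ)))
            ≤ S ^ (d + 1) * (C0 * (((2:ℝ) ^ (2 * d + 3)) ^ (1 / (d:ℝ)) *
              ((1 + Real.log N) ^ (2 * d + 3) * ((K:ℝ) ^ d * M)) ^ (1 / (d:ℝ)))) := by gcongr
          _ = _ := by
              rw [hS, mul_pow, ← pow_mul]; ring

end Pool.Agent.TF539
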