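import Pool.Agent.TH539.GMax
import Pool.Agent.TH539.TubeForm

set_option autoImplicit false

/-!
Sums of tubes with separated directions: duality, for a class with a velocity estimate.
-/

open MeasureTheory Set ENNReal NNReal Metric
open scoped Pointwise

namespace Pool.Agent.TH539.Gen

open Pool.Agent.TH539.SA (Vel)

variable {d : ℕ}

/-- **Duality.** -/
theorem dual (hd : 1 ≤ d) {τ : ℝ} (hτ : 0 < τ) (hτ1 : τ ≤ 1) : ∃ C : ℝ, 0 < C ∧
    ∀ (Cv : ℝ≥0∞ → Set (Fin d → ℝ) → Prop) (Λ : ℝ), Vel d (ENNReal.ofReal Λ) Cv → (∀ m, Cv m ∅) →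
    ∀ (ι : Type) [Fintype ι] (B : ι → Set (EuclideanSpace ℝ (Fin (d + 1))))
    (e : ι → EuclideanSpace ℝ (Fin (d + 1))) (δ : ℝ) (M : ℝ),
    (∀ i, MeasurableSet (B i)) → (∀ i, ‖e i‖ = 1) → 0 < δ → δ < 1 →
    (∀ i j, i ≠ j → τ * δ ≤ ‖e i - e j‖) →
    (∀ i, ∀ u : EuclideanSpace ℝ (Fin (d + 1)), ‖u‖ = 1 → ‖u - e i‖ < τ * δ / 2 →
      ∃ b, B i ⊆ tube δ u b) →
    1 ≤ Λ → 1 ≤ M → ASlicedBy Cv (ENNReal.ofReal M) (fun x => Gs B x ^ (1 / (d:ℝ))) →
    ∫⁻ x, ENNReal.ofReal (Gs B x) ^ (((d:ℝ) + 1) / d) ≤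
      ENNReal.ofReal (C * ((1 + Real.log (1 / δ)) ^ (2 * d + 3) * (Λ * M)) ^ (1 / (d:ℝ))) := by
  obtain ⟨C1, hC1, hcrit⟩ := crit hd
  obtain ⟨c, hc, hcap⟩ := cap_ge d
  have hfin : IsFiniteMeasure (surf (d + 1)) := by unfold surf; infer_instance
  have hd0 : (0:ℝ) < d := by exact_mod_cast hd
  set σ : ℝ := (surf (d + 1) univ).toReal with hσ
  have hσ0 : 0 ≤ σ := ENNReal.toReal_nonneg
  have hσeq : surf (d + 1) univ = ENNReal.ofReal σ :=
    (ENNReal.ofReal_toReal (measure_ne_top _ _)).symm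
  set ρ : ℝ := (2 / τ) ^ d / c with hρ
  have hρ0 : 0 < ρ := by positivity
  refine ⟨2 * ρ * (σ + 1) * (2 * ρ * C1) ^ (1 / (d:ℝ)), by positivity, ?_⟩
  intro Cv Λ hV hE ι _ B e δ M hB he hδ hδ1 hsep htube hN hM hS
  have hL0 : 0 ≤ Real.log (1 / δ) := Real.log_nonneg (by rw [le_div_iff₀ hδ]; linarith)
  set L : ℝ := (1 + Real.log (1 / δ)) ^ (2 * d + 3) with hL
  have hLpos : 0 < L := by positivity
  have hN0 : (0:ℝ) < Λ := by linarith
  have hM0 : 0 < M := by linarith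
  set X : ℝ := L * (Λ * M) with hX
  have hX0 : 0 < X := by positivity
  set f : EuclideanSpace ℝ (Fin (d + 1)) → ℝ := fun x => Gs B x ^ (1 / (d:ℝ)) with hf
  have hGm := measurable_Gs hB
  have hfm : Measurable f := by
    simp only [hf]
    exact hGm.pow_const _
  -- pointwise
  have hfe : ∀ x, ‖f x‖ₑ = ENNReal.ofReal (Gs B x) ^ (1 / (d:ℝ)) := by
    intro x
    simp only [hf]
    rw [Real.enorm_of_nonneg (Real.rpow_nonneg (Gs_nonneg B x) _),
      ← ENNReal.ofReal_rpow_of_nonneg (Gs_nonneg B x) (by positivity)]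
  have hp1 : ∀ x, ‖f x‖ₑ ^ (d + 1) = ENNReal.ofReal (Gs B x) ^ (((d:ℝ) + 1) / d) := by
    intro x
    rw [hfe, ← ENNReal.rpow_natCast, ← ENNReal.rpow_mul]
    congr 1
    push_cast
    field_simp
  have hp2 : ∀ x, ENNReal.ofReal (Gs B x) * ‖f x‖ₑ =
      ENNReal.ofReal (Gs B x) ^ (((d:ℝ) + 1) / d) := by
    intro x
    rw [hfe]
    nth_rewrite 1 [← ENNReal.rpow_one (ENNReal.ofReal (Gs B x))]
    rw [← ENNReal.rpow_add_of_nonneg _ _ (by norm_num) (by positivity)]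
    congr 1
    field_simp
  set I : ℝ≥0∞ := ∫⁻ x, ENNReal.ofReal (Gs B x) ^ (((d:ℝ) + 1) / d) with hI
  have hmax : ∫⁻ u : sphere (0 : EuclideanSpace ℝ (Fin (d + 1))) 1, kakeyaMax δ f u ^ (d + 1)
      ∂(surf (d + 1)) ≤ ENNReal.ofReal (C1 * X) * I := by
    refine (hcrit Cv _ hV hE f (ENNReal.ofReal M) δ hfm hS (by
      rw [← ENNReal.ofReal_one]; exact ENNReal.ofReal_le_ofReal hN) (by
      rw [← ENNReal.ofReal_one]; exact ENNReal.ofReal_le_ofReal hM) hδ hδ1).trans (le_of_eq ?_)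
    simp_rw [hp1]
    rw [← hI, ← mul_assoc]
    congr 1
    rw [← ENNReal.ofReal_mul (by positivity), ← ENNReal.ofReal_mul (by positivity)]
    congr 1
    rw [hX, hL]; ring
  -- finiteness
  have hBvol : ∀ i, volume (B i) < ∞ := by
    intro i
    obtain ⟨b, hb⟩ := htube i (e i) (he i) (by rw [sub_self, norm_zero]; positivity)
    exact (measure_mono hb).trans_lt ((volume_tube_le hδ (he i)).trans_lt ENNReal.ofReal_lt_top)
  have hIfin : I ≠ ∞ := by
    have h1 : I ≤ (Fintype.card ι : ℝ≥0∞) ^ (((d:ℝ) + 1) / d) * volume (⋃ i, B i) := by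
      calc I ≤ ∫⁻ x in ⋃ i, B i, (Fintype.card ι : ℝ≥0∞) ^ (((d:ℝ) + 1) / d) := by
            rw [hI, ← lintegral_indicator (MeasurableSet.iUnion hB)]
            refine lintegral_mono fun x => ?_
            by_cases hx : x ∈ ⋃ i, B i
            · simp only
              rw [indicator_of_mem hx, ofReal_Gs]
              refine ENNReal.rpow_le_rpow ?_ (by positivity)
              calc ∑ i, (B i).indicator (fun _ => (1:ℝ≥0∞)) x ≤ ∑ _i : ι, 1 :=
                    Finset.sum_le_sum fun i _ => indicator_le_self' (fun _ _ => zero_le_one) x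
                _ = Fintype.card ι := by simp
            · simp only
              rw [indicator_of_notMem hx, ofReal_Gs]
              have h2 : ∑ i, (B i).indicator (fun _ => (1:ℝ≥0∞)) x = 0 := by
                apply Finset.sum_eq_zero
                intro i _
                exact indicator_of_notMem (fun h => hx (mem_iUnion.2 ⟨i, h⟩)) _
              rw [h2, ENNReal.zero_rpow_of_pos (by positivity)]
        _ = _ := by rw [setLIntegral_const]
    refine ne_top_of_le_ne_top (ENNReal.mul_ne_top ?_ ?_) h1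
    · exact ENNReal.rpow_ne_top_of_nonneg (by positivity) (ENNReal.natCast_ne_top _)
    · refine ((measure_iUnion_fintype_le _ _).trans_lt ?_).ne
      exact ENNReal.sum_lt_top.2 fun i _ => hBvol i
  -- the sum over the tubes
  have hsplit : I = ∑ i, ∫⁻ x in B i, ‖f x‖ₑ := by
    rw [hI]
    simp_rw [← hp2, ofReal_Gs, Finset.sum_mul]
    rw [lintegral_finsetSum]
    · refine Finset.sum_congr rfl fun i _ => ?_
      rw [← lintegral_indicator (hB i)]
      refine lintegral_congr fun x => ?_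
      by_cases hx : x ∈ B i
      · rw [indicator_of_mem hx, indicator_of_mem hx, one_mul]
      · rw [indicator_of_notMem hx, indicator_of_notMem hx, zero_mul]
    · intro i _
      exact (measurable_const.indicator (hB i)).mul hfm.enorm
  have hτδ : 0 < τ * δ := by positivity
  have hτδ1 : τ * δ ≤ 1 := by nlinarith
  have hcapi : ∀ i, ENNReal.ofReal (c * (τ * δ) ^ d) * ∫⁻ x in B i, ‖f x‖ₑ ≤
      ENNReal.ofReal ((2 * δ) ^ d) * ∫⁻ u in cap (τ * δ) (e i), kakeyaMax δ f u ∂(surf (d + 1)) := by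
    intro i
    calc ENNReal.ofReal (c * (τ * δ) ^ d) * ∫⁻ x in B i, ‖f x‖ₑ
        ≤ surf (d + 1) (cap (τ * δ) (e i)) * ∫⁻ x in B i, ‖f x‖ₑ := by
          gcongr
          exact hcap _ _ hτδ hτδ1 (he i)
      _ = ∫⁻ _u in cap (τ * δ) (e i), (∫⁻ x in B i, ‖f x‖ₑ) ∂(surf (d + 1)) := by
          rw [setLIntegral_const, mul_comm]
      _ ≤ ∫⁻ u in cap (τ * δ) (e i), ENNReal.ofReal ((2 * δ) ^ d) * kakeyaMax δ f u
            ∂(surf (d + 1)) := by
          refine setLIntegral_mono' (measurableSet_cap _ _) fun u hu => ?_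
          have hu1 : ‖(u : EuclideanSpace ℝ (Fin (d + 1)))‖ = 1 := by simp
          obtain ⟨b, hb⟩ := htube i u hu1 hu
          have hv := volume_tube_le (a := b) hδ hu1
          have hv0 : volume (tube δ (u : EuclideanSpace ℝ (Fin (d + 1))) b) ≠ 0 := by
            obtain ⟨c', hc', hvol⟩ := Pool.Agent.H742R2.Kk.volume_tube d
            have h2 : 0 < ENNReal.ofReal (c' * δ ^ d) := ENNReal.ofReal_pos.2 (by positivity)
            exact (lt_of_lt_of_le h2 (hvol δ u b hδ hu1)).ne'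
          have hvt : volume (tube δ (u : EuclideanSpace ℝ (Fin (d + 1))) b) ≠ ∞ :=
            (hv.trans_lt ENNReal.ofReal_lt_top).ne
          calc ∫⁻ x in B i, ‖f x‖ₑ ≤ ∫⁻ x in tube δ u b, ‖f x‖ₑ := lintegral_mono_set hb
            _ = volume (tube δ (u : EuclideanSpace ℝ (Fin (d + 1))) b) *
                ((volume (tube δ (u : EuclideanSpace ℝ (Fin (d + 1))) b))⁻¹ *
                  ∫⁻ x in tube δ u b, ‖f x‖ₑ) := by
                rw [← mul_assoc, ENNReal.mul_inv_cancel hv0 hvt, one_mul]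
            _ ≤ ENNReal.ofReal ((2 * δ) ^ d) * kakeyaMax δ f u := by
                refine mul_le_mul' hv ?_
                exact le_iSup (fun a => (volume (tube δ (u : EuclideanSpace ℝ (Fin (d + 1))) a))⁻¹ *
                  ∫⁻ x in tube δ u a, ‖f x‖ₑ) b
      _ = _ := lintegral_const_mul' _ _ ENNReal.ofReal_ne_top
  have hdisj : ((Finset.univ : Finset ι) : Set ι).PairwiseDisjoint
      (fun i => cap (τ * δ) (e i)) := by
    intro i _ j _ hij
    rw [Function.onFun, Set.disjoint_left]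
    intro u hi hj
    have h1 : ‖(u : EuclideanSpace ℝ (Fin (d + 1))) - e i‖ < τ * δ / 2 := hi
    have h2 : ‖(u : EuclideanSpace ℝ (Fin (d + 1))) - e j‖ < τ * δ / 2 := hj
    have h3 : ‖e i - e j‖ < τ * δ := by
      calc ‖e i - e j‖ = ‖((u : EuclideanSpace ℝ (Fin (d + 1))) - e j) -
            ((u : EuclideanSpace ℝ (Fin (d + 1))) - e i)‖ := by congr 1; abel
        _ ≤ ‖(u : EuclideanSpace ℝ (Fin (d + 1))) - e j‖ +
            ‖(u : EuclideanSpace ℝ (Fin (d + 1))) - e i‖ := norm_sub_le _ _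
        _ < τ * δ := by linarith
    exact absurd (hsep i j hij) (not_le.2 h3)
  have hsum : ENNReal.ofReal (c * (τ * δ) ^ d) * I ≤
      ENNReal.ofReal ((2 * δ) ^ d) * ∫⁻ u, kakeyaMax δ f u ∂(surf (d + 1)) := by
    rw [hsplit, Finset.mul_sum]
    calc ∑ i, ENNReal.ofReal (c * (τ * δ) ^ d) * ∫⁻ x in B i, ‖f x‖ₑ
        ≤ ∑ i, ENNReal.ofReal ((2 * δ) ^ d) *
          ∫⁻ u in cap (τ * δ) (e i), kakeyaMax δ f u ∂(surf (d + 1)) :=
          Finset.sum_le_sum fun i _ => hcapi i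
      _ = ENNReal.ofReal ((2 * δ) ^ d) *
          ∫⁻ u in ⋃ i ∈ (Finset.univ : Finset ι), cap (τ * δ) (e i), kakeyaMax δ f u
            ∂(surf (d + 1)) := by
          rw [lintegral_biUnion_finset hdisj (fun i _ => measurableSet_cap _ _), Finset.mul_sum]
      _ ≤ _ := by
          gcongr
          exact Measure.restrict_le_self
  -- the choice of the level
  set J : ℝ := I.toReal with hJ
  have hJ0 : 0 ≤ J := ENNReal.toReal_nonneg
  have hIJ : I = ENNReal.ofReal J := (ENNReal.ofReal_toReal hIfin).symm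
  set lam : ℝ := (2 * ρ * (C1 * X)) ^ (1 / (d:ℝ)) with hlam
  have hlam0 : 0 < lam := by positivity
  have hlamd : lam ^ d = 2 * ρ * (C1 * X) := by
    rw [hlam, ← Real.rpow_natCast, ← Real.rpow_mul (by positivity), one_div_mul_cancel hd0.ne',
      Real.rpow_one]
  have hkm : ∫⁻ u : sphere (0 : EuclideanSpace ℝ (Fin (d + 1))) 1, kakeyaMax δ f u
      ∂(surf (d + 1)) ≤ ENNReal.ofReal (lam * σ + (lam ^ d)⁻¹ * (C1 * X * J)) := by
    calc ∫⁻ u : sphere (0 : EuclideanSpace ℝ (Fin (d + 1))) 1, kakeyaMax δ f u ∂(surf (d + 1))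
        ≤ ∫⁻ u : sphere (0 : EuclideanSpace ℝ (Fin (d + 1))) 1, (ENNReal.ofReal lam +
          ENNReal.ofReal ((lam ^ d)⁻¹) * kakeyaMax δ f u ^ (d + 1)) ∂(surf (d + 1)) :=
          lintegral_mono fun u => le_add_pow hlam0 _ d
      _ = ENNReal.ofReal lam * surf (d + 1) univ + ENNReal.ofReal ((lam ^ d)⁻¹) *
          ∫⁻ u : sphere (0 : EuclideanSpace ℝ (Fin (d + 1))) 1, kakeyaMax δ f u ^ (d + 1)
            ∂(surf (d + 1)) := by
          rw [lintegral_add_left measurable_const, lintegral_const,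
            lintegral_const_mul' _ _ ENNReal.ofReal_ne_top]
      _ ≤ ENNReal.ofReal lam * ENNReal.ofReal σ + ENNReal.ofReal ((lam ^ d)⁻¹) *
          (ENNReal.ofReal (C1 * X) * ENNReal.ofReal J) := by
          rw [hσeq, ← hIJ]
          gcongr
      _ = _ := by
          rw [← ENNReal.ofReal_mul (by positivity), ← ENNReal.ofReal_mul (by positivity),
            ← ENNReal.ofReal_mul (by positivity), ← ENNReal.ofReal_add (by positivity)
              (by positivity)]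
  have hreal : c * (τ * δ) ^ d * J ≤ (2 * δ) ^ d * (lam * σ + (lam ^ d)⁻¹ * (C1 * X * J)) := by
    have h1 := hsum.trans (mul_le_mul' le_rfl hkm)
    rw [hIJ, ← ENNReal.ofReal_mul (by positivity), ← ENNReal.ofReal_mul (by positivity)] at h1
    exact (ENNReal.ofReal_le_ofReal_iff (by positivity)).1 h1
  have hJle : J ≤ ρ * (lam * σ) + J / 2 := by
    have h1 : c * (τ * δ) ^ d = c * τ ^ d * δ ^ d := by rw [mul_pow]; ring
    have h2 : (2 * δ) ^ d = 2 ^ d * δ ^ d := mul_pow _ _ _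
    rw [h1, h2] at hreal
    have hδd : 0 < δ ^ d := by positivity
    have h3 : c * τ ^ d * J ≤ 2 ^ d * (lam * σ + (lam ^ d)⁻¹ * (C1 * X * J)) := by
      have h4 : (c * τ ^ d * J) * δ ^ d ≤ (2 ^ d * (lam * σ + (lam ^ d)⁻¹ * (C1 * X * J))) * δ ^ d := by
        calc (c * τ ^ d * J) * δ ^ d = c * τ ^ d * δ ^ d * J := by ring
          _ ≤ _ := hreal
          _ = _ := by ring
      exact le_of_mul_le_mul_right h4 hδd
    have h5 : J ≤ ρ * (lam * σ + (lam ^ d)⁻¹ * (C1 * X * J)) := by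
      have h6 : ρ = 2 ^ d / (c * τ ^ d) := by
        rw [hρ, div_pow]; field_simp
      rw [h6, div_mul_eq_mul_div, le_div_iff₀ (by positivity)]
      calc J * (c * τ ^ d) = c * τ ^ d * J := by ring
        _ ≤ _ := h3
    have h7 : ρ * ((lam ^ d)⁻¹ * (C1 * X * J)) = J / 2 := by
      rw [hlamd]; field_simp
    calc J ≤ ρ * (lam * σ + (lam ^ d)⁻¹ * (C1 * X * J)) := h5
      _ = ρ * (lam * σ) + ρ * ((lam ^ d)⁻¹ * (C1 * X * J)) := by ring
      _ = _ := by rw [h7]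
  rw [hIJ]
  refine ENNReal.ofReal_le_ofReal ?_
  have h8 : J ≤ 2 * ρ * σ * lam := by linarith
  have h9 : lam = (2 * ρ * C1) ^ (1 / (d:ℝ)) * X ^ (1 / (d:ℝ)) := by
    rw [hlam, ← Real.mul_rpow (by positivity) (by positivity)]
    congr 1; ring
  calc J ≤ 2 * ρ * σ * lam := h8
    _ ≤ 2 * ρ * (σ + 1) * lam := by gcongr; linarith
    _ = _ := by rw [h9]; ring

end Pool.Agent.TH539.Gen

namespace Pool.Agent.TF539.Gen

open Pool.Agent.TH539.SA (Vel)
open Pool.Agent.H810R3.Tub hiding tube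
open Pool.Agent.TH539 (slice ConvexCover tube CSliced Gs ofReal_Gs dual ae_scale)

/-- The moment. -/
theorem moment (d : ℕ) (hd : 1 ≤ d) (σ : ℝ) (hσ : 0 < σ) (hσ1 : σ ≤ 1) :
    ∃ E : ℝ, 0 < E ∧ ∀ N : ℝ, 1 ≤ N → ∀ (Cv : ℝ≥0∞ → Set (Fin d → ℝ) → Prop) (Λ : ℝ),
      Vel d (ENNReal.ofReal Λ) Cv → (∀ m, Cv m ∅) →
      (∀ (M : ℝ≥0∞) (A : Set (Fin d → ℝ)) (S : ℝ), S ≠ 0 → Cv (M * volume A) A →
        Cv (M * volume ((fun y => S • y) ⁻¹' A)) ((fun y => S • y) ⁻¹' A)) →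
      ∀ (ι : Type) [Fintype ι] (ω : ι → Vec d)
      (f : ι → Fin d → Space d) (a : ι → Space d)
      (Φ : Space d ≃ₗᵢ[ℝ] EuclideanSpace ℝ (Fin (d + 1))) (M : ℝ),
      (∀ i, ‖ω i‖ ≤ 1) → (∀ i j, i ≠ j → σ / N ≤ ‖ω i - ω j‖) →
      (∀ i, Orthonormal ℝ (Fin.cons (nor (ω i)) (f i) : Fin (d + 1) → Space d)) →
      1 ≤ Λ → 1 ≤ M →
      (∀ k : ℕ, ∀ᵐ t : ℝ, Cv
        (ENNReal.ofReal M * volume (sect Φ {y | (k:ℝ) < bs N ω f a y} t))
        (sect Φ {y | (k:ℝ) < bs N ω f a y} t)) →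
      ∫⁻ y, Fb N ω f a y ^ (((d:ℝ) + 1) / d) ≤
        ENNReal.ofReal (E * N ^ (2 * (d + 1)) *
          ((1 + Real.log N) ^ (2 * d + 3) * (Λ * M)) ^ (1 / (d:ℝ))) := by
  have hd0 : (0:ℝ) < d := by exact_mod_cast hd
  obtain ⟨C0, hC0, hdual⟩ := Pool.Agent.TH539.Gen.dual (d := d) hd (τ := σ / 2) (by positivity) (by linarith)
  refine ⟨(2 * (d + 1)) ^ (d + 1) * C0 * ((2:ℝ) ^ (2 * d + 3)) ^ (1 / (d:ℝ)), by positivity, ?_⟩
  intro N hN Cv Λ hV hE hsc ι _ ω f a Φ M hω hsep hf hK hM hcov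
  have hN0 : 0 < N := by linarith
  have hlN : 0 ≤ Real.log N := Real.log_nonneg hN
  set S : ℝ := 2 * (d + 1) * N ^ 2 with hS
  have hS0 : 0 < S := by positivity
  set B : ι → Set (EuclideanSpace ℝ (Fin (d + 1))) :=
    fun i => {x | TT Φ S x ∈ box N (nor (ω i)) (f i) (a i)} with hB
  have hBm : ∀ i, MeasurableSet (B i) := fun i =>
    ((box_closed _ _ _ _).preimage (continuous_TT Φ S)).measurableSet
  have hGs : ∀ x, Gs B x = bs N ω f a (TT Φ S x) := by
    intro x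
    rfl
  have he1 : ∀ i, ‖Φ (nor (ω i))‖ = 1 := fun i => by rw [Φ.norm_map]; exact norm_e (hf i)
  set δ : ℝ := 1 / (2 * N) with hδ
  have hδ0 : 0 < δ := by positivity
  have hδ1 : δ < 1 := by
    rw [hδ, div_lt_one (by positivity)]; linarith
  have hsepe : ∀ i j, i ≠ j → σ / 2 * δ ≤ ‖Φ (nor (ω i)) - Φ (nor (ω j))‖ := by
    intro i j hij
    rw [← map_sub, Φ.norm_map]
    have hn : ∀ i, ‖-(2:ℝ) • ω i‖ ≤ 2 := by
      intro i
      rw [norm_smul, norm_neg, Real.norm_ofNat]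
      linarith [hω i]
    have h1 := dir_sep (hn i) (hn j)
    have h2 : ‖-(2:ℝ) • ω i - -(2:ℝ) • ω j‖ = 2 * ‖ω i - ω j‖ := by
      rw [← smul_sub, norm_smul, norm_neg, Real.norm_ofNat]
    rw [h2] at h1
    have h3 := hsep i j hij
    have h4 : σ / 2 * δ = σ / N / 4 := by rw [hδ]; field_simp; ring
    rw [h4]
    have h5 : 0 < σ / N := by positivity
    unfold nor
    linarith
  have htube : ∀ i, ∀ u : EuclideanSpace ℝ (Fin (d + 1)), ‖u‖ = 1 →
      ‖u - Φ (nor (ω i))‖ < σ / 2 * δ / 2 → ∃ b, B i ⊆ tube δ u b := by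
    intro i u hu hue
    refine ⟨_, box_tube Φ hN (hf i) (a i) hu ?_⟩
    have h1 : σ / 2 * δ / 2 ≤ 1 / (4 * N) := by
      have h2 : σ / 2 * δ / 2 = σ * (1 / (8 * N)) := by rw [hδ]; field_simp; ring
      rw [h2]
      calc σ * (1 / (8 * N)) ≤ 1 * (1 / (8 * N)) := by gcongr
        _ ≤ 1 / (4 * N) := by
            rw [one_mul]
            apply one_div_le_one_div_of_le (by positivity); linarith
    linarith
  have hsl : Pool.Agent.TH539.Gen.ASlicedBy Cv (ENNReal.ofReal M) (fun x => Gs B x ^ (1 / (d:ℝ))) := by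
    intro r hr
    have hk := ae_scale hS0 (hcov ⌊r ^ d⌋₊)
    filter_upwards [hk] with t ht
    have h1 : slice {x | r < |Gs B x ^ (1 / (d:ℝ))|} t =
        (fun y => S • y) ⁻¹' (sect Φ {y | ((⌊r ^ d⌋₊ : ℕ) : ℝ) < bs N ω f a y} (S * t)) := by
      ext y
      show r < |Gs B (WithLp.toLp 2 (Fin.cons t y : Fin (d + 1) → ℝ)) ^ (1 / (d:ℝ))| ↔
        ((⌊r ^ d⌋₊ : ℕ) : ℝ) < bs N ω f a
          (Φ.symm (WithLp.toLp 2 (Fin.cons (S * t) (S • y) : Fin (d + 1) → ℝ)))
      have h2 : WithLp.toLp 2 (Fin.cons (S * t) (S • y) : Fin (d + 1) → ℝ) =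
          S • WithLp.toLp 2 (Fin.cons t y : Fin (d + 1) → ℝ) := by
        ext j
        refine Fin.cases ?_ (fun j => ?_) j
        · simp
        · simp
      have h3 : Φ.symm (WithLp.toLp 2 (Fin.cons (S * t) (S • y) : Fin (d + 1) → ℝ)) =
          TT Φ S (WithLp.toLp 2 (Fin.cons t y : Fin (d + 1) → ℝ)) := by
        rw [h2, map_smul]; rfl
      rw [h3, ← hGs]
      set x := WithLp.toLp 2 (Fin.cons t y : Fin (d + 1) → ℝ) with hx
      obtain ⟨k, hk⟩ := bs_nat N ω f a (TT Φ S x)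
      rw [← hGs] at hk
      rw [hk, abs_of_nonneg (Real.rpow_nonneg (Nat.cast_nonneg k) _), Nat.cast_lt,
        Nat.floor_lt (by positivity)]
      constructor
      · intro h4
        have h5 := pow_lt_pow_left₀ h4 hr.le (by omega : d ≠ 0)
        rwa [← Real.rpow_natCast ((k:ℝ) ^ (1 / (d:ℝ))), ← Real.rpow_mul (Nat.cast_nonneg k),
          one_div_mul_cancel hd0.ne', Real.rpow_one] at h5
      · intro h4
        have h5 := Real.rpow_lt_rpow (by positivity) h4 (by positivity : 0 < 1 / (d:ℝ))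
        rwa [← Real.rpow_natCast, ← Real.rpow_mul hr.le, mul_one_div_cancel hd0.ne',
          Real.rpow_one] at h5
    rw [h1]
    exact hsc _ _ S hS0.ne' ht
  have key := hdual Cv Λ hV hE ι B (fun i => Φ (nor (ω i))) δ M hBm he1 hδ0 hδ1 hsepe htube hK hM hsl
  -- change of variables
  have hcv : ∫⁻ y, Fb N ω f a y ^ (((d:ℝ) + 1) / d) = ENNReal.ofReal (S ^ (d + 1)) *
      ∫⁻ x, ENNReal.ofReal (Gs B x) ^ (((d:ℝ) + 1) / d) := by
    have h1 : ∀ x, ENNReal.ofReal (Gs B x) ^ (((d:ℝ) + 1) / d) =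
        Fb N ω f a (S • Φ.symm x) ^ (((d:ℝ) + 1) / d) := by
      intro x
      rw [ofReal_Gs]
      rfl
    simp_rw [h1]
    have h2 : ∫⁻ x, Fb N ω f a (S • Φ.symm x) ^ (((d:ℝ) + 1) / d) =
        ∫⁻ y, Fb N ω f a (S • y) ^ (((d:ℝ) + 1) / d) := by
      have hmp := Φ.symm.measurePreserving
      have hm : Measurable fun y : Space d => Fb N ω f a (S • y) ^ (((d:ℝ) + 1) / d) := by
        have := (Fb_measurable N ω f a).comp (measurable_const_smul S)
        exact this.pow_const _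
      exact hmp.lintegral_comp hm
    rw [h2, lint_smul volume hS0.ne' (fun y => Fb N ω f a y ^ (((d:ℝ) + 1) / d)), finrank_space,
      ← mul_assoc, ← ENNReal.ofReal_mul (by positivity), abs_of_pos (by positivity),
      mul_inv_cancel₀ (by positivity), ENNReal.ofReal_one, one_mul]
  rw [hcv]
  have hKM : 0 ≤ Λ * M := by positivity
  have hlog : 1 + Real.log (1 / δ) ≤ 2 * (1 + Real.log N) := by
    have h1 : 1 / δ = 2 * N := by rw [hδ]; field_simp
    rw [h1, Real.log_mul (by norm_num) hN0.ne']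
    have := Real.log_two_lt_d9
    linarith
  have hlog0 : 0 ≤ 1 + Real.log (1 / δ) := by
    have h1 : 1 / δ = 2 * N := by rw [hδ]; field_simp
    rw [h1]
    have := Real.log_nonneg (by linarith : 1 ≤ 2 * N)
    linarith
  calc ENNReal.ofReal (S ^ (d + 1)) * ∫⁻ x, ENNReal.ofReal (Gs B x) ^ (((d:ℝ) + 1) / d)
      ≤ ENNReal.ofReal (S ^ (d + 1)) * ENNReal.ofReal (C0 *
        ((1 + Real.log (1 / δ)) ^ (2 * d + 3) * (Λ * M)) ^ (1 / (d:ℝ))) := by gcongr
    _ = ENNReal.ofReal (S ^ (d + 1) * (C0 *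
        ((1 + Real.log (1 / δ)) ^ (2 * d + 3) * (Λ * M)) ^ (1 / (d:ℝ)))) :=
        (ENNReal.ofReal_mul (by positivity)).symm
    _ ≤ _ := by
        refine ENNReal.ofReal_le_ofReal ?_
        have h1 : ((1 + Real.log (1 / δ)) ^ (2 * d + 3) * (Λ * M)) ^ (1 / (d:ℝ)) ≤
            ((2:ℝ) ^ (2 * d + 3)) ^ (1 / (d:ℝ)) *
              ((1 + Real.log N) ^ (2 * d + 3) * (Λ * M)) ^ (1 / (d:ℝ)) := by
          rw [← Real.mul_rpow (by positivity) (by positivity)]
          refine Real.rpow_le_rpow (by positivity) ?_ (by positivity)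
          calc (1 + Real.log (1 / δ)) ^ (2 * d + 3) * (Λ * M)
              ≤ (2 * (1 + Real.log N)) ^ (2 * d + 3) * (Λ * M) := by gcongr
            _ = _ := by rw [mul_pow]; ring
        calc S ^ (d + 1) * (C0 *
            ((1 + Real.log (1 / δ)) ^ (2 * d + 3) * (Λ * M)) ^ (1 / (d:ℝ)))
            ≤ S ^ (d + 1) * (C0 * (((2:ℝ) ^ (2 * d + 3)) ^ (1 / (d:ℝ)) *
              ((1 + Real.log N) ^ (2 * d + 3) * (Λ * M)) ^ (1 / (d:ℝ)))) := by gcongr
          _ = _ := by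
              rw [hS, mul_pow, ← pow_mul]; ring

end Pool.Agent.TF539.Gen
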