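import Pool.Agent.TH539.Kak

set_option autoImplicit false

/-!
Real constants and Minkowski dimension.
-/

open MeasureTheory Set ENNReal NNReal Metric

namespace Pool.Agent.TH539

variable {d : ℕ}

/-- The real constant. -/
noncomputable def ccc (d : ℕ) : ℝ := ((cst' d).toReal)⁻¹

lemma cst'_pos (d : ℕ) : 0 < (cst' d).toReal := by
  refine ENNReal.toReal_pos ?_ (cst'_ne_top d)
  unfold cst' cst
  have h1 : ((d:ℝ≥0∞)) ^ d ≠ 0 := by
    rcases Nat.eq_zero_or_pos d with h | h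
    · subst h; simp
    · exact pow_ne_zero _ (by exact_mod_cast h.ne')
  have h2 : ((d:ℝ≥0∞)) + 1 ≠ 0 := by positivity
  have h3 : (2 * (d:ℝ≥0∞) + 1) ^ (d + 1) ≠ 0 := by positivity
  have h4 : (4:ℝ≥0∞) ^ d ≠ 0 := by positivity
  have h5 : (2:ℝ≥0∞) ≠ 0 := by norm_num
  exact mul_ne_zero (mul_ne_zero h5 h2)
    (mul_ne_zero (mul_ne_zero (mul_ne_zero (mul_ne_zero h5 h2) h4) h1) h3)

lemma ccc_pos (d : ℕ) : 0 < ccc d := inv_pos.2 (cst'_pos d)

lemma real_form {x y : ℝ≥0∞} {θ : ℝ} (hθ : 0 < θ)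
    (h : x ≤ cst' d * ENNReal.ofReal (θ⁻¹) ^ (d + 1) * y) :
    ENNReal.ofReal (ccc d * θ ^ (d + 1)) * x ≤ y := by
  have h0 := cst'_pos d
  have h1 : cst' d = ENNReal.ofReal (cst' d).toReal := (ENNReal.ofReal_toReal (cst'_ne_top d)).symm
  calc ENNReal.ofReal (ccc d * θ ^ (d + 1)) * x
      ≤ ENNReal.ofReal (ccc d * θ ^ (d + 1)) * (cst' d * ENNReal.ofReal (θ⁻¹) ^ (d + 1) * y) := by
        gcongr
    _ = ENNReal.ofReal (ccc d * θ ^ (d + 1) * ((cst' d).toReal * (θ⁻¹) ^ (d + 1))) * y := by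
        rw [ENNReal.ofReal_mul (p := ccc d * θ ^ (d + 1)) (by have := ccc_pos d; positivity),
          ENNReal.ofReal_mul (p := (cst' d).toReal) h0.le, ← h1,
          ENNReal.ofReal_pow (by positivity)]
        ring
    _ = y := by
        have : ccc d * θ ^ (d + 1) * ((cst' d).toReal * (θ⁻¹) ^ (d + 1)) = 1 := by
          unfold ccc
          rw [inv_pow]
          have h2 : θ ^ (d + 1) ≠ 0 := by positivity
          field_simp
        rw [this, ENNReal.ofReal_one, one_mul]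

/-- Minkowski lower bound. -/
theorem mink {K : Set (EuclideanSpace ℝ (Fin (d + 1)))}
    (hK : ∀ e : sphere (0 : EuclideanSpace ℝ (Fin (d + 1))) 1, ∃ z : EuclideanSpace ℝ (Fin (d + 1)),
      ∀ s ∈ Icc (0:ℝ) 1, z + s • (e : EuclideanSpace ℝ (Fin (d + 1))) ∈ K)
    {γ : ℝ} (hγ : 0 ≤ γ)
    (hA : ∃ δ₀ : ℝ, 0 < δ₀ ∧ ∀ δ : ℝ, 0 < δ → δ < δ₀ →
      ∃ (G : Set ℝ) (N : ℕ) (m : ℝ → ℝ≥0∞), Thick K (δ ^ γ) G ∧ (N:ℝ) ≤ δ ^ (-γ) ∧ Measurable m ∧
        (∀ t ∈ G, ConvexCover N (m t) (slice K t)) ∧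
        ∫⁻ t, m t ≤ ENNReal.ofReal (δ ^ (-γ)) * volume (thickening δ K)) :
    ∃ c' : ℝ, 0 < c' ∧ ∀ δ : ℝ, 0 < δ → δ < 1 →
      ENNReal.ofReal (c' * δ ^ (2 * ((d:ℝ) + 1) * γ)) ≤ volume (thickening δ K) := by
  obtain ⟨δ₀, hδ₀, hA⟩ := hA
  set κ : ℝ := 2 * ((d:ℝ) + 1) * γ with hκ
  have hκ0 : 0 ≤ κ := by positivity
  set S : Set (sphere (0 : EuclideanSpace ℝ (Fin (d + 1))) 1) :=
    {e | 1 / 2 ≤ |(e : EuclideanSpace ℝ (Fin (d + 1))) 0|} with hS
  have : IsFiniteMeasure (surf (d + 1)) := by unfold surf; infer_instance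
  set σ : ℝ := (surf (d + 1) S).toReal with hσ
  have hσpos : 0 < σ := ENNReal.toReal_pos (surf_pos d) (measure_ne_top _ _)
  have hσeq : surf (d + 1) S = ENNReal.ofReal σ := (ENNReal.ofReal_toReal (measure_ne_top _ _)).symm
  have hc := ccc_pos d
  -- small `δ`
  have small : ∀ δ : ℝ, 0 < δ → δ < δ₀ → ENNReal.ofReal (ccc d * σ * δ ^ κ) ≤
      volume (thickening δ K) := by
    intro δ hδ hδ1
    obtain ⟨G, N, m, hG, hN, hm, hcov, hint⟩ := hA δ hδ hδ1
    have hθ : 0 < δ ^ γ := by positivity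
    have h1 := main_ineq (S := S) (fun e he => he) (fun e _ => hK e) hθ hG hm hcov
    rw [mul_assoc] at h1
    have h2 := real_form hθ h1
    rw [hσeq] at h2
    have h3 : (N:ℝ≥0∞) ^ d * ∫⁻ t, m t ≤
        ENNReal.ofReal (δ ^ (-γ)) ^ d * (ENNReal.ofReal (δ ^ (-γ)) * volume (thickening δ K)) := by
      gcongr
      rw [← ENNReal.ofReal_natCast]
      exact ENNReal.ofReal_le_ofReal hN
    have h4 := h2.trans h3
    calc ENNReal.ofReal (ccc d * σ * δ ^ κ)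
        = ENNReal.ofReal (δ ^ γ) ^ (d + 1) *
          (ENNReal.ofReal (ccc d * (δ ^ γ) ^ (d + 1)) * ENNReal.ofReal σ) := by
          rw [← ENNReal.ofReal_pow (by positivity), ← ENNReal.ofReal_mul (by positivity),
            ← ENNReal.ofReal_mul (by positivity)]
          congr 1
          have : δ ^ κ = (δ ^ γ) ^ (d + 1) * (δ ^ γ) ^ (d + 1) := by
            rw [← pow_add, ← Real.rpow_natCast, ← Real.rpow_mul hδ.le]
            congr 1
            rw [hκ]; push_cast; ring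
          rw [this]; ring
      _ ≤ ENNReal.ofReal (δ ^ γ) ^ (d + 1) *
          (ENNReal.ofReal (δ ^ (-γ)) ^ d * (ENNReal.ofReal (δ ^ (-γ)) * volume (thickening δ K))) := by
          gcongr
      _ = (ENNReal.ofReal (δ ^ γ) * ENNReal.ofReal (δ ^ (-γ))) ^ (d + 1) *
          volume (thickening δ K) := by ring
      _ = volume (thickening δ K) := by
          rw [← ENNReal.ofReal_mul (by positivity), ← Real.rpow_add hδ, add_neg_cancel,
            Real.rpow_zero, ENNReal.ofReal_one, one_pow, one_mul]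
  set δ₁ : ℝ := min (δ₀ / 2) 1 with hδ₁
  have hδ₁pos : 0 < δ₁ := by rw [hδ₁]; positivity
  have hδ₁lt : δ₁ < δ₀ := lt_of_le_of_lt (min_le_left _ _) (by linarith)
  have hδ₁le : δ₁ ≤ 1 := min_le_right _ _
  have hq : 0 < ccc d * σ := by positivity
  refine ⟨ccc d * σ * δ₁ ^ κ, by positivity, ?_⟩
  intro δ hδ hδ1
  have hδκ : δ ^ κ ≤ 1 := Real.rpow_le_one hδ.le hδ1.le hκ0
  have hδ₁κ : δ₁ ^ κ ≤ 1 := Real.rpow_le_one hδ₁pos.le hδ₁le hκ0
  have hδκ0 : 0 ≤ δ ^ κ := by positivity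
  have hδ₁κ0 : 0 ≤ δ₁ ^ κ := by positivity
  rcases lt_or_ge δ δ₀ with h | h
  · refine le_trans (ENNReal.ofReal_le_ofReal ?_) (small δ hδ h)
    have : ccc d * σ * δ₁ ^ κ ≤ ccc d * σ := by nlinarith
    nlinarith [mul_le_mul_of_nonneg_right this hδκ0]
  · calc ENNReal.ofReal (ccc d * σ * δ₁ ^ κ * δ ^ κ) ≤ ENNReal.ofReal (ccc d * σ * δ₁ ^ κ) := by
          apply ENNReal.ofReal_le_ofReal
          have : 0 ≤ ccc d * σ * δ₁ ^ κ := by positivity
          nlinarith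
      _ ≤ volume (thickening δ₁ K) := small δ₁ hδ₁pos hδ₁lt
      _ ≤ volume (thickening δ K) := by
          apply measure_mono
          apply thickening_mono
          linarith

end Pool.Agent.TH539
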