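import Pool.Agent.TH539.SAPiece
import Pool.Agent.TH539.KakMink

set_option autoImplicit false

/-!
Kakeya sets whose slices belong to a class with a velocity estimate.
-/

open MeasureTheory Set ENNReal NNReal Metric
open scoped Pointwise

namespace Pool.Agent.TH539.Gen

open Pool.Agent.TH539.SA (Vel)

variable {d : ℕ}

section one

variable {Cv : ℝ≥0∞ → Set (Fin d → ℝ) → Prop} {Λ : ℝ≥0∞} (hC : Vel d Λ Cv)

include hC

/-- Velocities, for times with gaps at least `g`. -/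
lemma vel_gap {t : Fin (d + 1) → ℝ} {g : ℝ} (hg : 0 < g)
    (hgap : ∀ i k, i ≠ k → g ≤ |t i - t k|) {m : Fin (d + 1) → ℝ≥0∞}
    {A : Fin (d + 1) → Set (Fin d → ℝ)} (hA : ∀ i, Cv (m i) (A i)) :
    volume {v : Fin d → ℝ | ∃ q : Fin d → ℝ, ∀ i, q + t i • v ∈ A i} ≤
      4 ^ d * (d:ℝ≥0∞) ^ d * Λ * ENNReal.ofReal (g⁻¹) ^ d * ∑ i, m i := by
  have ht : Function.Injective t := by
    intro i k hik
    by_contra hne
    have := hgap i k hne
    rw [hik, sub_self, abs_zero] at this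
    linarith
  refine (hC t ht m A hA).trans ?_
  rw [mul_assoc (4 ^ d * (d:ℝ≥0∞) ^ d * Λ)]
  refine mul_le_mul_right ?_ _
  rw [Finset.mul_sum]
  refine Finset.sum_le_sum fun i _ => ?_
  rw [mul_comm]
  refine mul_le_mul_left ?_ _
  calc ∏ j : Fin d, (ENNReal.ofReal |t i - t (i.succAbove j)|)⁻¹
      ≤ ∏ _j : Fin d, ENNReal.ofReal (g⁻¹) := by
        refine Finset.prod_le_prod' fun j _ => ?_
        rw [ENNReal.ofReal_inv_of_pos hg]
        exact ENNReal.inv_le_inv.2 (ENNReal.ofReal_le_ofReal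
          (hgap _ _ (Fin.succAbove_ne i j).symm))
    _ = _ := by simp

/-- **Cell lemma.** -/
lemma volume_cell_le {K : ℝ → Set (Fin d → ℝ)} {G : Set ℝ} {a b : ℝ} (hab : a ≤ b) {θ : ℝ}
    (hθ : 0 < θ) (hG : ENNReal.ofReal θ ≤ volume (G ∩ Ioc a b)) {m : ℝ → ℝ≥0∞}
    (hm : Measurable m) (hcov : ∀ t ∈ G, Cv (m t) (K t)) :
    volume {v : Fin d → ℝ | ∃ q : Fin d → ℝ, ∀ t ∈ Ioc a b, q + t • v ∈ K t} ≤
      cst d * ENNReal.ofReal (θ⁻¹) ^ (d + 1) * Λ * ∫⁻ t in Ioc a b, m t := by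
  obtain ⟨P, hPG, hPvol, hPgap, -⟩ := exists_pieces G hab hθ hG d
  have hd : (0:ℝ) < 2 * d + 1 := by positivity
  set τ := θ / (2 * d + 1) with hτ
  have hτpos : 0 < τ := by positivity
  have hex : ∀ i, ∃ t ∈ P i, ENNReal.ofReal τ * m t ≤ 2 * ∫⁻ s in Ioc a b, m s := fun i =>
    exists_point_le ((hPG i).trans inter_subset_right) hτpos (hPvol i) hm
  choose t htP htm using hex
  have h1 := vel_gap hC (t := t) (m := fun i => m (t i))
    (A := fun i => K (t i)) hτpos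
    (fun i k hik => hPgap i k hik _ (htP i) _ (htP k)) (fun i => hcov _ (hPG i (htP i)).1)
  have hsub : {v : Fin d → ℝ | ∃ q : Fin d → ℝ, ∀ t ∈ Ioc a b, q + t • v ∈ K t} ⊆
      {v : Fin d → ℝ | ∃ q : Fin d → ℝ, ∀ i, q + t i • v ∈ K (t i)} := by
    rintro v ⟨q, hq⟩
    exact ⟨q, fun i => hq _ (hPG i (htP i)).2⟩
  have hτinv : ENNReal.ofReal (τ⁻¹) = ENNReal.ofReal (θ⁻¹) * (2 * d + 1) := by
    rw [hτ, inv_div, div_eq_mul_inv, mul_comm, ENNReal.ofReal_mul (by positivity)]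
    congr 1
    rw [ENNReal.ofReal_add (by positivity) (by positivity), ENNReal.ofReal_mul (by norm_num)]
    simp
  have hmt : ∀ i, m (t i) ≤ ENNReal.ofReal (τ⁻¹) * (2 * ∫⁻ s in Ioc a b, m s) := by
    intro i
    calc m (t i) = ENNReal.ofReal (τ⁻¹) * (ENNReal.ofReal τ * m (t i)) := by
          rw [← mul_assoc, ← ENNReal.ofReal_mul (by positivity), inv_mul_cancel₀ hτpos.ne']
          simp
      _ ≤ _ := mul_le_mul_right (htm i) _
  calc volume {v : Fin d → ℝ | ∃ q : Fin d → ℝ, ∀ t ∈ Ioc a b, q + t • v ∈ K t}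
      ≤ _ := measure_mono hsub
    _ ≤ _ := h1
    _ ≤ 4 ^ d * (d:ℝ≥0∞) ^ d * Λ * ENNReal.ofReal (τ⁻¹) ^ d *
        ∑ _i : Fin (d + 1), ENNReal.ofReal (τ⁻¹) * (2 * ∫⁻ s in Ioc a b, m s) := by
        gcongr with i _
        exact hmt i
    _ = _ := by
        rw [Finset.sum_const, Finset.card_univ, Fintype.card_fin, nsmul_eq_mul, hτinv, cst, mul_pow]
        push_cast
        ring

/-- **Affine form of the theorem.** -/
lemma volume_velocities_global {K : ℝ → Set (Fin d → ℝ)} {G : Set ℝ} {θ h : ℝ} (hh : 0 < h)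
    (hθ : 0 < θ)
    (hG : ∀ k : ℤ, (∀ t ∈ Icc ((k:ℝ) * h) (((k:ℝ) + 1) * h), (K t).Nonempty) →
      ENNReal.ofReal θ ≤ volume (G ∩ Ioc ((k:ℝ) * h) (((k:ℝ) + 1) * h)))
    {m : ℝ → ℝ≥0∞} (hm : Measurable m) (hcov : ∀ t ∈ G, Cv (m t) (K t))
    {V : Set (Fin d → ℝ)}
    (hV : ∀ v ∈ V, ∃ (q : Fin d → ℝ) (a : ℝ), ∀ t ∈ Icc a (a + 2 * h), q + t • v ∈ K t) :
    volume V ≤ cst d * ENNReal.ofReal (θ⁻¹) ^ (d + 1) * Λ * ∫⁻ t, m t := by
  set X : ℤ → Set (Fin d → ℝ) := fun k => {v : Fin d → ℝ | ∃ q : Fin d → ℝ,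
    ∀ t ∈ Icc ((k:ℝ) * h) (((k:ℝ) + 1) * h), q + t • v ∈ K t} with hX
  have hsub : V ⊆ ⋃ k, X k := by
    intro v hv
    obtain ⟨q, a, hqa⟩ := hV v hv
    obtain ⟨k, hk⟩ := exists_cell hh a
    exact mem_iUnion.2 ⟨k, q, fun t ht => hqa t (hk ht)⟩
  have hXk : ∀ k, volume (X k) ≤ cst d * ENNReal.ofReal (θ⁻¹) ^ (d + 1) * Λ *
      ∫⁻ t in Ioc ((k:ℝ) * h) (((k:ℝ) + 1) * h), m t := by
    intro k
    rcases (X k).eq_empty_or_nonempty with he | ⟨v, q, hq⟩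
    · rw [he, measure_empty]; exact zero_le
    · refine le_trans (measure_mono ?_) (volume_cell_le hC (a := (k:ℝ) * h) (b := ((k:ℝ) + 1) * h)
        (by nlinarith) hθ (hG k fun t ht => ⟨_, hq t ht⟩) hm hcov)
      rintro w ⟨q', hq'⟩
      exact ⟨q', fun t ht => hq' t (Ioc_subset_Icc_self ht)⟩
  calc volume V ≤ volume (⋃ k, X k) := measure_mono hsub
    _ ≤ ∑' k, volume (X k) := measure_iUnion_le _
    _ ≤ ∑' k : ℤ, cst d * ENNReal.ofReal (θ⁻¹) ^ (d + 1) * Λ *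
      ∫⁻ t in Ioc ((k:ℝ) * h) (((k:ℝ) + 1) * h), m t := ENNReal.tsum_le_tsum hXk
    _ = cst d * ENNReal.ofReal (θ⁻¹) ^ (d + 1) * Λ *
      ∑' k : ℤ, ∫⁻ t in Ioc ((k:ℝ) * h) (((k:ℝ) + 1) * h), m t := ENNReal.tsum_mul_left
    _ = _ := by
        congr 1
        have hun : (⋃ k : ℤ, Ioc ((k:ℝ) * h) (((k:ℝ) + 1) * h)) = univ := by
          have := iUnion_Ioc_zsmul (α := ℝ) hh
          simpa [zsmul_eq_mul] using this
        have hdis : Pairwise (Function.onFun Disjoint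
            fun k : ℤ => Ioc ((k:ℝ) * h) (((k:ℝ) + 1) * h)) := by
          have := pairwise_disjoint_Ioc_zsmul (α := ℝ) h
          simpa [zsmul_eq_mul] using this
        rw [← lintegral_iUnion (fun _ => measurableSet_Ioc) hdis, hun, Measure.restrict_univ]

/-- **Main inequality.** -/
theorem main_ineq {K : Set (EuclideanSpace ℝ (Fin (d + 1)))}
    {S : Set (sphere (0 : EuclideanSpace ℝ (Fin (d + 1))) 1)}
    (hS : ∀ e ∈ S, 1 / 2 ≤ |(e : EuclideanSpace ℝ (Fin (d + 1))) 0|)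
    (hK : ∀ e ∈ S, ∃ z : EuclideanSpace ℝ (Fin (d + 1)),
      ∀ s ∈ Icc (0:ℝ) 1, z + s • (e : EuclideanSpace ℝ (Fin (d + 1))) ∈ K)
    {θ : ℝ} (hθ : 0 < θ) {G : Set ℝ} (hG : Thick K θ G) {m : ℝ → ℝ≥0∞}
    (hm : Measurable m) (hcov : ∀ t ∈ G, Cv (m t) (slice K t)) :
    surf (d + 1) S ≤ cst' d * ENNReal.ofReal (θ⁻¹) ^ (d + 1) * Λ * ∫⁻ t, m t := by
  have hne : ∀ e ∈ S, (e : EuclideanSpace ℝ (Fin (d + 1))) 0 ≠ 0 := by
    intro e he h
    have := hS e he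
    rw [h, abs_zero] at this
    linarith
  have h1 := volume_velocities_global hC (K := slice K) (G := G) (h := 1 / 4) (by norm_num) hθ (by
    intro k hk
    have heq : ((k:ℝ) + 1) * (1 / 4) = (k:ℝ) * (1 / 4) + 1 / 4 := by ring
    rw [heq] at hk ⊢
    refine (hG _ hk).trans (le_of_eq ?_)
    refine measure_congr ?_
    exact (ae_eq_refl G).inter (Ioc_ae_eq_Icc (μ := volume)).symm) hm hcov
    (V := (fun e : sphere (0 : EuclideanSpace ℝ (Fin (d + 1))) 1 =>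
        vel (e : EuclideanSpace ℝ (Fin (d + 1)))) '' S) (by
    rintro _ ⟨e, he, rfl⟩
    obtain ⟨z, hz⟩ := hK e he
    exact segment_height (hS e he) hz)
  calc surf (d + 1) S ≤ _ := surf_le hne
    _ ≤ 2 * (d + 1) * (cst d * ENNReal.ofReal (θ⁻¹) ^ (d + 1) * Λ * ∫⁻ t, m t) := by
        gcongr
    _ = _ := by rw [cst']; ring

/-- Slices in the class. -/
theorem union_ineq {K : Set (EuclideanSpace ℝ (Fin (d + 1)))}
    {S : Set (sphere (0 : EuclideanSpace ℝ (Fin (d + 1))) 1)}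
    (hS : ∀ e ∈ S, 1 / 2 ≤ |(e : EuclideanSpace ℝ (Fin (d + 1))) 0|)
    (hK : ∀ e ∈ S, ∃ z : EuclideanSpace ℝ (Fin (d + 1)),
      ∀ s ∈ Icc (0:ℝ) 1, z + s • (e : EuclideanSpace ℝ (Fin (d + 1))) ∈ K)
    {θ : ℝ} (hθ : 0 < θ) {G : Set ℝ} (hG : Thick K θ G) {U : Set (Fin d → ℝ) → Prop} {M : ℝ≥0∞}
    (hU : ∀ A B, U A → A ⊆ B → Cv (M * volume B) A)
    (hcov : ∀ t ∈ G, U (slice K t)) :
    surf (d + 1) S ≤ cst' d * ENNReal.ofReal (θ⁻¹) ^ (d + 1) * (Λ * M) * volume K := by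
  set L := toMeasurable volume K with hL
  have hLm : MeasurableSet L := measurableSet_toMeasurable _ _
  obtain ⟨h1, h2⟩ := measurable_volume_slice hLm
  have h3 := main_ineq hC hS hK hθ hG (m := fun t => M * volume (slice L t))
    (h1.const_mul _) (fun t ht => hU _ _ (hcov t ht) (slice_mono (subset_toMeasurable _ _) t))
  rw [lintegral_const_mul _ h1, h2, hL, measure_toMeasurable] at h3
  refine h3.trans (le_of_eq ?_)
  ring

omit hC in
/-- Positive measure. -/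
theorem positive {ι : Type*} [Countable ι] {Cv : ι → ℝ≥0∞ → Set (Fin d → ℝ) → Prop}
    {Λ : ι → ℝ≥0∞} (hC : ∀ n, Vel d (Λ n) (Cv n)) {U : ι → Set (Fin d → ℝ) → Prop}
    {M : ι → ℝ≥0∞} (hU : ∀ n A B, U n A → A ⊆ B → Cv n (M n * volume B) A)
    {K : Set (EuclideanSpace ℝ (Fin (d + 1)))}
    {S : Set (sphere (0 : EuclideanSpace ℝ (Fin (d + 1))) 1)}
    (hS : ∀ e ∈ S, 1 / 2 ≤ |(e : EuclideanSpace ℝ (Fin (d + 1))) 0|)
    (hK : ∀ e ∈ S, ∃ z : EuclideanSpace ℝ (Fin (d + 1)),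
      ∀ s ∈ Icc (0:ℝ) 1, z + s • (e : EuclideanSpace ℝ (Fin (d + 1))) ∈ K)
    (hS0 : surf (d + 1) S ≠ 0)
    (hG : ∀ a : ℝ, (∀ t ∈ Icc a (a + 1 / 4), (slice K t).Nonempty) →
      volume ({t | ∃ n, U n (slice K t)} ∩ Icc a (a + 1 / 4)) ≠ 0) :
    volume K ≠ 0 := by
  intro hK0
  set L := toMeasurable volume K with hL
  have hLm : MeasurableSet L := measurableSet_toMeasurable _ _
  obtain ⟨h1, h2⟩ := measurable_volume_slice hLm
  rw [hL, measure_toMeasurable, hK0, ← hL] at h2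
  have hne : ∀ e ∈ S, (e : EuclideanSpace ℝ (Fin (d + 1))) 0 ≠ 0 := by
    intro e he h
    have := hS e he
    rw [h, abs_zero] at this
    linarith
  set V : Set (Fin d → ℝ) := (fun e : sphere (0 : EuclideanSpace ℝ (Fin (d + 1))) 1 =>
        vel (e : EuclideanSpace ℝ (Fin (d + 1)))) '' S with hV
  have hV0 : volume V ≠ 0 := by
    intro h
    have := surf_le hne
    rw [← hV, h, mul_zero] at this
    exact hS0 (le_antisymm this zero_le)
  set X : ℤ → Set (Fin d → ℝ) := fun k => {v : Fin d → ℝ | ∃ q : Fin d → ℝ,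
    ∀ t ∈ Icc ((k:ℝ) * (1 / 4)) ((k:ℝ) * (1 / 4) + 1 / 4), q + t • v ∈ slice K t} with hX
  have hsub : V ⊆ ⋃ k, X k := by
    rintro _ ⟨e, he, rfl⟩
    obtain ⟨z, hz⟩ := hK e he
    obtain ⟨q, a, hqa⟩ := segment_height (hS e he) hz
    obtain ⟨k, hk⟩ := exists_cell (show (0:ℝ) < 1 / 4 by norm_num) a
    have heq : ((k:ℝ) + 1) * (1 / 4) = (k:ℝ) * (1 / 4) + 1 / 4 := by ring
    rw [heq] at hk
    exact mem_iUnion.2 ⟨k, q, fun t ht => hqa t (hk ht)⟩
  have hXpos : ∃ k, volume (X k) ≠ 0 := by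
    by_contra hcon
    push Not at hcon
    have : volume (⋃ k, X k) = 0 := measure_iUnion_null hcon
    exact hV0 (measure_mono_null hsub this)
  obtain ⟨k, hk⟩ := hXpos
  obtain ⟨v, q, hq⟩ : (X k).Nonempty := by
    rw [nonempty_iff_ne_empty]
    intro h; rw [h, measure_empty] at hk; exact hk rfl
  set a : ℝ := (k:ℝ) * (1 / 4) with ha
  have hGa := hG a (fun t ht => ⟨_, hq t ht⟩)
  have hun : ({t | ∃ n, U n (slice K t)} ∩ Icc a (a + 1 / 4)) =
      ⋃ N : ι, ({t | U N (slice K t)} ∩ Icc a (a + 1 / 4)) := by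
    ext t
    simp only [mem_inter_iff, mem_iUnion]
    constructor
    · rintro ⟨⟨N, hN⟩, ht⟩; exact ⟨N, hN, ht⟩
    · rintro ⟨N, hN, ht⟩; exact ⟨⟨N, hN⟩, ht⟩
  have hN : ∃ N : ι, volume ({t | U N (slice K t)} ∩ Icc a (a + 1 / 4)) ≠ 0 := by
    by_contra hcon
    push Not at hcon
    rw [hun] at hGa
    exact hGa (measure_iUnion_null hcon)
  obtain ⟨N, hN⟩ := hN
  have hNtop : volume ({t | U N (slice K t)} ∩ Icc a (a + 1 / 4)) ≠ ∞ :=
    ne_top_of_le_ne_top (by rw [Real.volume_Icc]; exact ENNReal.ofReal_ne_top)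
      (measure_mono inter_subset_right)
  set θ : ℝ := (volume ({t | U N (slice K t)} ∩ Icc a (a + 1 / 4))).toReal with hθ
  have hθpos : 0 < θ := ENNReal.toReal_pos hN hNtop
  have hθle : ENNReal.ofReal θ ≤
      volume ({t | U N (slice K t)} ∩ Ioc a (a + 1 / 4)) := by
    rw [hθ, ENNReal.ofReal_toReal hNtop]
    refine le_of_eq (measure_congr ?_)
    exact (ae_eq_refl _).inter (Ioc_ae_eq_Icc (μ := volume)).symm
  have h4 := volume_cell_le (hC N) (K := slice K) (a := a) (b := a + 1 / 4) (by linarith) hθpos hθle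
    (m := fun t => M N * volume (slice L t)) (h1.const_mul _)
    (fun t ht => hU N _ _ ht (slice_mono (subset_toMeasurable _ _) t))
  have h5 : ∫⁻ t in Ioc a (a + 1 / 4), M N * volume (slice L t) = 0 := by
    refine le_antisymm ?_ zero_le
    calc ∫⁻ t in Ioc a (a + 1 / 4), M N * volume (slice L t)
        ≤ ∫⁻ t, M N * volume (slice L t) := setLIntegral_le_lintegral _ _
      _ = 0 := by rw [lintegral_const_mul _ h1, h2, mul_zero]
  rw [h5, mul_zero] at h4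
  have h6 : X k ⊆ {v : Fin d → ℝ | ∃ q : Fin d → ℝ, ∀ t ∈ Ioc a (a + 1 / 4), q + t • v ∈ slice K t} := by
    rintro w ⟨q', hq'⟩
    exact ⟨q', fun t ht => hq' t (Ioc_subset_Icc_self ht)⟩
  exact hk (le_antisymm ((measure_mono h6).trans h4) zero_le)

end one

/-- Minkowski lower bound. -/
theorem mink (hd : 1 ≤ d) {K : Set (EuclideanSpace ℝ (Fin (d + 1)))}
    (hK : ∀ e : sphere (0 : EuclideanSpace ℝ (Fin (d + 1))) 1, ∃ z : EuclideanSpace ℝ (Fin (d + 1)),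
      ∀ s ∈ Icc (0:ℝ) 1, z + s • (e : EuclideanSpace ℝ (Fin (d + 1))) ∈ K)
    {γ : ℝ} (hγ : 0 ≤ γ)
    (hA : ∃ δ₀ : ℝ, 0 < δ₀ ∧ ∀ δ : ℝ, 0 < δ → δ < δ₀ →
      ∃ (G : Set ℝ) (N D : ℕ) (m : ℝ → ℝ≥0∞), Thick K (δ ^ γ) G ∧ (N:ℝ) ≤ δ ^ (-γ) ∧
        (D:ℝ) ≤ δ ^ (-γ) ∧ Measurable m ∧
        (∀ t ∈ G, SA.Cover N D (m t) (slice K t)) ∧
        ∫⁻ t, m t ≤ ENNReal.ofReal (δ ^ (-γ)) * volume (thickening δ K)) :
    ∃ c' : ℝ, 0 < c' ∧ ∀ δ : ℝ, 0 < δ → δ < 1 →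
      ENNReal.ofReal (c' * δ ^ (((d:ℝ) ^ 2 + 2 * d + 2) * γ)) ≤ volume (thickening δ K) := by
  obtain ⟨δ₀', hδ₀', hA⟩ := hA
  set δ₀ : ℝ := min δ₀' 1 with hδ₀def
  have hδ₀ : 0 < δ₀ := by rw [hδ₀def]; positivity
  set κ : ℝ := ((d:ℝ) ^ 2 + 2 * d + 2) * γ with hκ
  have hκ0 : 0 ≤ κ := by positivity
  set S : Set (sphere (0 : EuclideanSpace ℝ (Fin (d + 1))) 1) :=
    {e | 1 / 2 ≤ |(e : EuclideanSpace ℝ (Fin (d + 1))) 0|} with hS
  have : IsFiniteMeasure (surf (d + 1)) := by unfold surf; infer_instance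
  set σ : ℝ := (surf (d + 1) S).toReal with hσ
  have hσpos : 0 < σ := ENNReal.toReal_pos (surf_pos d) (measure_ne_top _ _)
  have hσeq : surf (d + 1) S = ENNReal.ofReal σ := (ENNReal.ofReal_toReal (measure_ne_top _ _)).symm
  have hc := ccc_pos d
  set β : ℝ := (SA.cB d : ℝ) * 2 ^ (d * d) with hβ
  have hβpos : 0 < β := by
    rw [hβ]
    have : 0 < SA.cB d := by unfold SA.cB; positivity
    positivity
  -- small `δ`
  have small : ∀ δ : ℝ, 0 < δ → δ < δ₀ → ENNReal.ofReal (β⁻¹ * (ccc d * σ) * δ ^ κ) ≤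
      volume (thickening δ K) := by
    intro δ hδ hδ1
    obtain ⟨G, N, D, m, hG, hN, hD, hm, hcov, hint⟩ := hA δ hδ (hδ1.trans_le (min_le_left _ _))
    have hδlt1 : δ < 1 := hδ1.trans_le (min_le_right _ _)
    have hθ : 0 < δ ^ γ := by positivity
    have hone : 1 ≤ δ ^ (-γ) := Real.one_le_rpow_of_pos_of_le_one_of_nonpos hδ hδlt1.le (by linarith)
    have h1 := main_ineq (SA.cover_vel hd N D) (S := S) (fun e he => he) (fun e _ => hK e) hθ hG
      hm hcov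
    rw [mul_assoc] at h1
    have h2 := real_form hθ h1
    rw [hσeq] at h2
    have hΛ : (N:ℝ≥0∞) ^ d * (SA.lamB d D : ℝ≥0∞) ≤
        ENNReal.ofReal β * ENNReal.ofReal (δ ^ (-γ)) ^ (d + d * d) := by
      calc (N:ℝ≥0∞) ^ d * (SA.lamB d D : ℝ≥0∞)
          ≤ ENNReal.ofReal (δ ^ (-γ)) ^ d * ENNReal.ofReal (SA.cB d * (2 * δ ^ (-γ)) ^ (d * d)) := by
            gcongr
            · rw [← ENNReal.ofReal_natCast]
              exact ENNReal.ofReal_le_ofReal hN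
            · rw [← ENNReal.ofReal_natCast]
              refine ENNReal.ofReal_le_ofReal ?_
              calc ((SA.lamB d D : ℕ) : ℝ) ≤ ((SA.cB d * (D + 1) ^ (d * d) : ℕ) : ℝ) := by
                    exact_mod_cast SA.lamB_le d D
                _ = (SA.cB d : ℝ) * ((D:ℝ) + 1) ^ (d * d) := by push_cast; ring
                _ ≤ _ := by
                    gcongr
                    linarith
        _ = _ := by
            rw [mul_pow, ← mul_assoc, ← hβ, ENNReal.ofReal_mul hβpos.le,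
              ENNReal.ofReal_pow (by positivity), pow_add]
            ring
    have h3 : (N:ℝ≥0∞) ^ d * (SA.lamB d D : ℝ≥0∞) * ∫⁻ t, m t ≤
        ENNReal.ofReal β * ENNReal.ofReal (δ ^ (-γ)) ^ (d + d * d) *
          (ENNReal.ofReal (δ ^ (-γ)) * volume (thickening δ K)) := by
      gcongr
    have h4 := h2.trans h3
    calc ENNReal.ofReal (β⁻¹ * (ccc d * σ) * δ ^ κ)
        = ENNReal.ofReal β⁻¹ * (ENNReal.ofReal (δ ^ γ) ^ (d + d * d + 1) *
          (ENNReal.ofReal (ccc d * (δ ^ γ) ^ (d + 1)) * ENNReal.ofReal σ)) := by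
          rw [← ENNReal.ofReal_pow (by positivity), ← ENNReal.ofReal_mul (by positivity),
            ← ENNReal.ofReal_mul (by positivity), ← ENNReal.ofReal_mul (by positivity)]
          congr 1
          have : δ ^ κ = (δ ^ γ) ^ (d + d * d + 1) * (δ ^ γ) ^ (d + 1) := by
            rw [← pow_add, ← Real.rpow_natCast, ← Real.rpow_mul hδ.le]
            congr 1
            rw [hκ]; push_cast; ring
          rw [this]; ring
      _ ≤ ENNReal.ofReal β⁻¹ * (ENNReal.ofReal (δ ^ γ) ^ (d + d * d + 1) *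
          (ENNReal.ofReal β * ENNReal.ofReal (δ ^ (-γ)) ^ (d + d * d) *
          (ENNReal.ofReal (δ ^ (-γ)) * volume (thickening δ K)))) := by
          gcongr
      _ = (ENNReal.ofReal β⁻¹ * ENNReal.ofReal β) *
          (ENNReal.ofReal (δ ^ γ) * ENNReal.ofReal (δ ^ (-γ))) ^ (d + d * d + 1) *
          volume (thickening δ K) := by rw [mul_pow, pow_succ (ENNReal.ofReal (δ ^ (-γ)))]; ring
      _ = volume (thickening δ K) := by
          rw [← ENNReal.ofReal_mul (by positivity), ← ENNReal.ofReal_mul (by positivity),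
            ← Real.rpow_add hδ, add_neg_cancel, inv_mul_cancel₀ hβpos.ne',
            Real.rpow_zero, ENNReal.ofReal_one, one_pow, one_mul, one_mul]
  set δ₁ : ℝ := min (δ₀ / 2) 1 with hδ₁
  have hδ₁pos : 0 < δ₁ := by rw [hδ₁]; positivity
  have hδ₁lt : δ₁ < δ₀ := lt_of_le_of_lt (min_le_left _ _) (by linarith)
  have hδ₁le : δ₁ ≤ 1 := min_le_right _ _
  set q : ℝ := β⁻¹ * (ccc d * σ) with hqdef
  have hq : 0 < q := by positivity
  refine ⟨q * δ₁ ^ κ, by positivity, ?_⟩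
  intro δ hδ hδ1
  have hδκ : δ ^ κ ≤ 1 := Real.rpow_le_one hδ.le hδ1.le hκ0
  have hδ₁κ : δ₁ ^ κ ≤ 1 := Real.rpow_le_one hδ₁pos.le hδ₁le hκ0
  have hδκ0 : 0 ≤ δ ^ κ := by positivity
  have hδ₁κ0 : 0 ≤ δ₁ ^ κ := by positivity
  rcases lt_or_ge δ δ₀ with h | h
  · refine le_trans (ENNReal.ofReal_le_ofReal ?_) (small δ hδ h)
    have : q * δ₁ ^ κ ≤ q := by nlinarith
    nlinarith [mul_le_mul_of_nonneg_right this hδκ0]
  · calc ENNReal.ofReal (q * δ₁ ^ κ * δ ^ κ) ≤ ENNReal.ofReal (q * δ₁ ^ κ) := by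
          apply ENNReal.ofReal_le_ofReal
          have : 0 ≤ q * δ₁ ^ κ := by positivity
          nlinarith
      _ ≤ volume (thickening δ₁ K) := small δ₁ hδ₁pos hδ₁lt
      _ ≤ volume (thickening δ K) := by
          apply measure_mono
          apply thickening_mono
          linarith

end Pool.Agent.TH539.Gen
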