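import Pool.Agent.TH539.Fin2

set_option autoImplicit false

/-!
Measurable choices of segments.
-/

open MeasureTheory Set ENNReal NNReal Metric
open scoped Pointwise

namespace Pool.Agent.TH539

variable {d : ℕ}

/-- Measurable choices of segments, `p > n`. -/
theorem strongSeg (hd : 1 ≤ d) {p : ℝ} (hp : (d:ℝ) + 1 < p) : ∃ C : ℝ, 0 < C ∧
    ∀ (f : EuclideanSpace ℝ (Fin (d + 1)) → ℝ) (N : ℕ) (M : ℝ≥0∞) (κ : ℝ)
    (b : EuclideanSpace ℝ (Fin (d + 1)) → EuclideanSpace ℝ (Fin (d + 1))), Measurable f →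
    CSliced N M f → 0 < κ → κ ≤ 1 → Measurable b →
    ∫⁻ e in {e : sphere (0 : EuclideanSpace ℝ (Fin (d + 1))) 1 |
      κ ≤ |(e : EuclideanSpace ℝ (Fin (d + 1))) 0|},
      (∫⁻ s in Icc (-(1 / 2) : ℝ) (1 / 2),
          ‖f (b e + s • (e : EuclideanSpace ℝ (Fin (d + 1))))‖ₑ) ^ p ∂(surf (d + 1)) ≤
      ENNReal.ofReal (C * (1 + Real.log (1 / κ))) * ((N:ℝ≥0∞) ^ d * M * ∫⁻ x, ‖f x‖ₑ ^ p) := by
  have hp0 : 0 < p := by
    have : (0:ℝ) ≤ d := by positivity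
    linarith
  set K : ℝ := (cP d (th d p) p).toReal with hK
  have hKt := cP_ne_top (d := d) (p := p) (th_pos hd hp)
  have hK0 : 0 ≤ K := ENNReal.toReal_nonneg
  refine ⟨2 * (4 * (d + 1) * 2 ^ p) * (K + 1), by positivity, ?_⟩
  intro f N M κ b hf hcov hκ hκ1 hb
  have hlog : 0 ≤ Real.log (1 / κ) := Real.log_nonneg (by rw [le_div_iff₀ hκ]; linarith)
  have h := steep_seg (f := fun x => |f x|) (measurable_norm.comp hf) (fun x => abs_nonneg _) hcov
    hb (th_pos hd hp) (p := p) (by rw [qq_th hd]; linarith) hκ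
  have hen : ∀ x, ENNReal.ofReal (|f x| ^ p) = ‖f x‖ₑ ^ p := by
    intro x
    rw [← ENNReal.ofReal_rpow_of_nonneg (abs_nonneg _) hp0.le, ← Real.enorm_eq_ofReal_abs]
  have hen2 : ∀ x, ENNReal.ofReal (|f x|) = ‖f x‖ₑ := fun x => (Real.enorm_eq_ofReal_abs _).symm
  simp_rw [hen, hen2] at h
  refine h.trans ?_
  calc (nsh κ : ℝ≥0∞) * (4 * (d + 1) * 2 ^ p *
        (cP d (th d p) p * (N:ℝ≥0∞) ^ d * M * ∫⁻ x, ‖f x‖ₑ ^ p))
      = (nsh κ : ℝ≥0∞) * (4 * (d + 1) * 2 ^ p) * cP d (th d p) p *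
        ((N:ℝ≥0∞) ^ d * M * ∫⁻ x, ‖f x‖ₑ ^ p) := by ring
    _ ≤ _ := by
        gcongr ?_ * _
        have e1 : (4 * ((d:ℝ≥0∞) + 1) * 2 ^ p) = ENNReal.ofReal (4 * (d + 1) * 2 ^ p) := by
          rw [ENNReal.ofReal_mul (by positivity), ENNReal.ofReal_mul (by positivity),
            ENNReal.ofReal_add (by positivity) (by norm_num), ← ENNReal.ofReal_rpow_of_pos (by norm_num)]
          simp
        rw [e1, ← ENNReal.ofReal_toReal hKt, ← ENNReal.ofReal_natCast,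
          ← ENNReal.ofReal_mul (by positivity), ← ENNReal.ofReal_mul (by positivity)]
        refine ENNReal.ofReal_le_ofReal ?_
        have h1 := nsh_le hκ hκ1
        calc (nsh κ : ℝ) * (4 * (d + 1) * 2 ^ p) * (cP d (th d p) p).toReal
            ≤ (2 * (1 + Real.log (1 / κ))) * (4 * (d + 1) * 2 ^ p) * (K + 1) := by
              gcongr
              linarith
          _ = _ := by ring

end Pool.Agent.TH539
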