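import Pool.Agent.TH539.SAPiece
import Pool.Agent.TH539.SegFin

set_option autoImplicit false

/-!
The Kakeya maximal function on functions whose level sets have slices in a class with a velocity
estimate.
-/

open MeasureTheory Set ENNReal NNReal Metric
open scoped Pointwise

namespace Pool.Agent.TH539.Gen

open Pool.Agent.TH539.SA (Vel)

variable {d : ℕ}

/-- For every `r > 0`, almost every slice of `{f > r}` is in the class. -/
def SlicedBy (Cv : ℝ≥0∞ → Set (Fin d → ℝ) → Prop) (M : ℝ≥0∞)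
    (f : EuclideanSpace ℝ (Fin (d + 1)) → ℝ) : Prop :=
  ∀ r : ℝ, 0 < r → ∀ᵐ t : ℝ,
    Cv (M * volume (slice {x | r < f x} t)) (slice {x | r < f x} t)

/-- For every `r > 0`, almost every slice of `{|f| > r}` is in the class. -/
def ASlicedBy (Cv : ℝ≥0∞ → Set (Fin d → ℝ) → Prop) (M : ℝ≥0∞)
    (f : EuclideanSpace ℝ (Fin (d + 1)) → ℝ) : Prop :=
  ∀ r : ℝ, 0 < r → ∀ᵐ t : ℝ,
    Cv (M * volume (slice {x | r < |f x|} t)) (slice {x | r < |f x|} t)

section one

variable {Cv : ℝ≥0∞ → Set (Fin d → ℝ) → Prop} {Λ : ℝ≥0∞} (hC : Vel d Λ Cv)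

include hC

/-- The upper bound for fixed heights. -/
lemma tup_upper {A : Set (ℝ × (Fin d → ℝ))}
    {b : (Fin d → ℝ) → (Fin d → ℝ)} {c : (Fin d → ℝ) → ℝ}
    {θ : ℝ} (hθ : 0 < θ) {m : ℝ → ℝ≥0∞} {t : Fin (d + 1) → ℝ}
    (hcov : ∀ i, Cv (m (t i)) {y | (t i, y) ∈ A}) :
    ker θ t * volume {v | (v, t) ∈ tup A b c} ≤ 4 ^ d * (d:ℝ≥0∞) ^ d * Λ *
      ∑ k, m (t k) * ∏ j : Fin d, phi θ (t k - t (k.succAbove j)) := by
  by_cases hinj : Function.Injective t
  swap
  · -- the kernel vanishes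
    have : ker θ t = 0 := by
      unfold ker
      simp only [Function.Injective, not_forall] at hinj
      obtain ⟨i, k, hik, hne⟩ := hinj
      obtain ⟨j, hj⟩ := Fin.exists_succAbove_eq (Ne.symm hne)
      refine Finset.prod_eq_zero (Finset.mem_univ i) (Finset.prod_eq_zero (Finset.mem_univ j) ?_)
      rw [hj, hik, sub_self, abs_zero, ENNReal.ofReal_zero, ENNReal.zero_rpow_of_pos hθ]
    rw [this, zero_mul]; exact zero_le
  rcases ({v | (v, t) ∈ tup A b c} : Set (Fin d → ℝ)).eq_empty_or_nonempty with he | ⟨v0, hv0⟩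
  · rw [he, measure_empty, mul_zero]; exact zero_le
  have hdist : ∀ i k, |t i - t k| ≤ 1 := by
    intro i k
    have h1 := abs_le.1 (hv0 i).1
    have h2 := abs_le.1 (hv0 k).1
    exact abs_le.2 ⟨by linarith [h1.1, h2.2], by linarith [h1.2, h2.1]⟩
  have hsub : {v | (v, t) ∈ tup A b c} ⊆
      {v : Fin d → ℝ | ∃ q : Fin d → ℝ, ∀ i, q + t i • v ∈ {y | (t i, y) ∈ A}} := by
    intro v hv
    exact ⟨b v, fun i => (hv i).2⟩
  have h1 := (measure_mono hsub).trans (hC t hinj (fun i => m (t i)) _ hcov)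
  calc ker θ t * volume {v | (v, t) ∈ tup A b c}
      ≤ ker θ t * (4 ^ d * (d:ℝ≥0∞) ^ d * Λ *
        ∑ i, m (t i) * ∏ j : Fin d, (ENNReal.ofReal |t i - t (i.succAbove j)|)⁻¹) := by
        gcongr
    _ = 4 ^ d * (d:ℝ≥0∞) ^ d * Λ *
        ∑ i, m (t i) * (ker θ t * ∏ j : Fin d, (ENNReal.ofReal |t i - t (i.succAbove j)|)⁻¹) := by
        rw [mul_left_comm, Finset.mul_sum (a := ker θ t)]
        congr 1
        refine Finset.sum_congr rfl fun i _ => ?_
        ring
    _ ≤ _ := by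
        gcongr with k _
        calc ker θ t * ∏ j : Fin d, (ENNReal.ofReal |t k - t (k.succAbove j)|)⁻¹
            ≤ (∏ j : Fin d, ENNReal.ofReal |t k - t (k.succAbove j)| ^ θ) *
              ∏ j : Fin d, (ENNReal.ofReal |t k - t (k.succAbove j)|)⁻¹ := by
              gcongr
              exact ker_le hθ.le hdist k
          _ = ∏ j : Fin d, (ENNReal.ofReal |t k - t (k.succAbove j)| ^ θ *
              (ENNReal.ofReal |t k - t (k.succAbove j)|)⁻¹) := by
              rw [Finset.prod_mul_distrib]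
          _ = _ := by
              refine Finset.prod_congr rfl fun j _ => ?_
              set x := t k - t (k.succAbove j) with hx
              have hx0 : 0 < |x| := by
                rw [abs_pos, hx, sub_ne_zero]
                intro h
                exact (Fin.succAbove_ne k j) (hinj h).symm
              have hx1 : x ∈ Icc (-1:ℝ) 1 := abs_le.1 (hdist _ _)
              unfold phi
              rw [indicator_of_mem hx1, ENNReal.ofReal_rpow_of_pos hx0,
                ← ENNReal.ofReal_inv_of_pos hx0, ← ENNReal.ofReal_mul (by positivity)]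
              congr 1
              rw [Real.rpow_sub_one hx0.ne', div_eq_mul_inv]

/-- **Restricted strong type.** -/
theorem restricted {A : Set (ℝ × (Fin d → ℝ))} (hA : MeasurableSet A)
    {b : (Fin d → ℝ) → (Fin d → ℝ)} (hb : Measurable b) {c : (Fin d → ℝ) → ℝ} (hc : Measurable c)
    {θ : ℝ} (hθ : 0 < θ) {m : ℝ → ℝ≥0∞} (hm : Measurable m)
    (hcov : ∀ᵐ t : ℝ, Cv (m t) {y | (t, y) ∈ A}) :
    ∫⁻ v, (volume (hts A b c v) / (2 * d + 1)) ^ (qq d θ) ≤
      4 ^ d * (d:ℝ≥0∞) ^ d * Λ * (d + 1) * ENNReal.ofReal (2 / θ) ^ d * ∫⁻ t, m t := by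
  have hEm := measurableSet_tup hA hb hc
  have hF : Measurable fun p : (Fin d → ℝ) × (Fin (d + 1) → ℝ) =>
      (tup A b c).indicator (fun p => ker θ p.2) p :=
    ((measurable_ker θ).comp measurable_snd).indicator hEm
  have hae : ∀ᵐ t : Fin (d + 1) → ℝ, ∀ i, Cv (m (t i)) {y | (t i, y) ∈ A} := by
    rw [Filter.eventually_all]
    intro i
    exact (Measure.tendsto_eval_ae_ae (μ := fun _ : Fin (d + 1) => (volume : Measure ℝ))
      (i := i)).eventually hcov
  calc ∫⁻ v, (volume (hts A b c v) / (2 * d + 1)) ^ (qq d θ)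
      ≤ ∫⁻ v, ∫⁻ t, (tup A b c).indicator (fun p => ker θ p.2) (v, t) :=
        lintegral_mono fun v => hts_lower hA hb hc hθ.le v
    _ = ∫⁻ t, ∫⁻ v, (tup A b c).indicator (fun p => ker θ p.2) (v, t) :=
        lintegral_lintegral_swap hF.aemeasurable
    _ ≤ ∫⁻ t : Fin (d + 1) → ℝ, 4 ^ d * (d:ℝ≥0∞) ^ d * Λ *
          ∑ k, m (t k) * ∏ j : Fin d, phi θ (t k - t (k.succAbove j)) := by
        refine lintegral_mono_ae ?_
        filter_upwards [hae] with t ht
        refine le_trans (le_of_eq ?_) (tup_upper hC (b := b) (c := c) hθ ht)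
        have hsec : MeasurableSet {v | (v, t) ∈ tup A b c} :=
          hEm.preimage (measurable_prodMk_right (y := t))
        have : (fun v => (tup A b c).indicator (fun p => ker θ p.2) (v, t)) =
            {v | (v, t) ∈ tup A b c}.indicator (fun _ => ker θ t) := by
          funext v
          by_cases hv : (v, t) ∈ tup A b c
          · rw [indicator_of_mem hv, indicator_of_mem (show v ∈ {v | (v, t) ∈ tup A b c} from hv)]
          · rw [indicator_of_notMem hv,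
              indicator_of_notMem (show v ∉ {v | (v, t) ∈ tup A b c} from hv)]
        rw [this, lintegral_indicator hsec, setLIntegral_const]
    _ = 4 ^ d * (d:ℝ≥0∞) ^ d * Λ *
          ∑ k : Fin (d + 1), ∫⁻ t : Fin (d + 1) → ℝ,
            m (t k) * ∏ j : Fin d, phi θ (t k - t (k.succAbove j)) := by
        have hmk : ∀ k : Fin (d + 1), Measurable fun t : Fin (d + 1) → ℝ =>
            m (t k) * ∏ j : Fin d, phi θ (t k - t (k.succAbove j)) := by
          intro k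
          refine (hm.comp (measurable_pi_apply k)).mul (Finset.measurable_prod _ fun j _ => ?_)
          exact (measurable_phi θ).comp (by fun_prop)
        rw [lintegral_const_mul _ (Finset.measurable_sum _ fun k _ => hmk k),
          lintegral_finsetSum _ fun k _ => hmk k]
    _ = _ := by
        simp_rw [lintegral_kernel hθ hm]
        rw [Finset.sum_const, Finset.card_univ, Fintype.card_fin, nsmul_eq_mul]
        push_cast
        ring

/-- **Strong type for lines.** -/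
theorem strong_lines {f : ℝ × (Fin d → ℝ) → ℝ} (hf : Measurable f) (hf0 : ∀ z, 0 ≤ f z)
    {b : (Fin d → ℝ) → (Fin d → ℝ)} (hb : Measurable b) {c : (Fin d → ℝ) → ℝ} (hc : Measurable c)
    {θ : ℝ} (hθ : 0 < θ) {p : ℝ} (hp : qq d θ < p) {M : ℝ≥0∞}
    (hcov : ∀ r : ℝ, 0 < r → ∀ᵐ t : ℝ,
      Cv (M * volume {y | r < f (t, y)}) {y | r < f (t, y)}) :
    ∫⁻ v, (∫⁻ t in Icc (c v - 1 / 2) (c v + 1 / 2), ENNReal.ofReal (f (t, b v + t • v))) ^ p ≤
      cP d θ p * Λ * M * ∫⁻ z, ENNReal.ofReal (f z ^ p) := by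
  have hq : 0 < qq d θ := by unfold qq; positivity
  have hp0 : 0 < p := hq.trans hp
  set L : (Fin d → ℝ) → ℝ → ℝ≥0∞ := fun v r => volume (hts {z | r < f z} b c v) with hL
  have hlev : ∀ r, MeasurableSet {z | r < f z} := fun r => measurableSet_lt measurable_const hf
  -- joint measurability
  have hLm : Measurable (Function.uncurry L) := by
    have e1 : Measurable fun x : ((Fin d → ℝ) × ℝ) × ℝ => |x.2 - c x.1.1| := by fun_prop
    have e2 : Measurable fun x : ((Fin d → ℝ) × ℝ) × ℝ => (x.2, b x.1.1 + x.2 • x.1.1) := by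
      fun_prop
    have e3 : Measurable fun x : ((Fin d → ℝ) × ℝ) × ℝ => f (x.2, b x.1.1 + x.2 • x.1.1) :=
      hf.comp e2
    have e4 : Measurable fun x : ((Fin d → ℝ) × ℝ) × ℝ => x.1.2 := by fun_prop
    have hS : MeasurableSet {x : ((Fin d → ℝ) × ℝ) × ℝ | |x.2 - c x.1.1| ≤ 1 / 2 ∧
        x.1.2 < f (x.2, b x.1.1 + x.2 • x.1.1)} :=
      (measurableSet_le e1 measurable_const).inter (measurableSet_lt e4 e3)
    exact measurable_measure_prodMk_left hS
  have hcake : ∀ v, ∫⁻ t in Icc (c v - 1 / 2) (c v + 1 / 2), ENNReal.ofReal (f (t, b v + t • v)) =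
      ∫⁻ r in Ioi (0:ℝ), L v r := by
    intro v
    have hfm : Measurable fun t : ℝ => f (t, b v + t • v) := hf.comp (by fun_prop)
    rw [lintegral_eq_lintegral_meas_lt _ (Filter.Eventually.of_forall fun t => hf0 _)
      hfm.aemeasurable]
    refine lintegral_congr fun r => ?_
    rw [Measure.restrict_apply (measurableSet_lt measurable_const hfm)]
    congr 1
    ext t
    simp only [mem_inter_iff, hts, mem_Icc]
    constructor
    · rintro ⟨h1, h2, h3⟩
      exact ⟨abs_le.2 ⟨by linarith, by linarith⟩, h1⟩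
    · rintro ⟨h1, h2⟩
      have := abs_le.1 h1
      exact ⟨h2, by linarith [this.1], by linarith [this.2]⟩
  have hanti : ∀ v r s, 0 < r → r ≤ s → L v s ≤ L v r := by
    intro v r s _ hrs
    refine measure_mono ?_
    rintro t ⟨h1, h2⟩
    exact ⟨h1, lt_of_le_of_lt hrs h2⟩
  have hone : ∀ v r, L v r ≤ 1 := by
    intro v r
    calc L v r ≤ volume (Icc (c v - 1 / 2) (c v + 1 / 2)) := by
          refine measure_mono ?_
          rintro t ⟨h1, _⟩
          have := abs_le.1 h1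
          exact ⟨by linarith [this.1], by linarith [this.2]⟩
      _ = 1 := by rw [Real.volume_Icc]; ring_nf; simp
  have hD : (2 * (d:ℝ≥0∞) + 1) ≠ 0 := by positivity
  have hDt : (2 * (d:ℝ≥0∞) + 1) ≠ ∞ := by
    have h : ((d:ℝ≥0∞)) ≠ ∞ := ENNReal.natCast_ne_top d
    finiteness
  -- fixed level
  have hlevel : ∀ r : ℝ, 0 < r → ∫⁻ v, L v r ^ (qq d θ) ≤
      (2 * d + 1) ^ (qq d θ) * (4 ^ d * (d:ℝ≥0∞) ^ d * (d + 1) * ENNReal.ofReal (2 / θ) ^ d) *
        (Λ * M * volume {z | r < f z}) := by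
    intro r hr
    have hm : Measurable fun t : ℝ => M * volume {y : Fin d → ℝ | r < f (t, y)} :=
      (measurable_measure_prodMk_left (hlev r)).const_mul M
    have h := restricted hC (hlev r) hb hc hθ hm (hcov r hr)
    have hvol : ∫⁻ t, volume {y : Fin d → ℝ | r < f (t, y)} = volume {z | r < f z} := by
      rw [Measure.volume_eq_prod, Measure.prod_apply (hlev r)]
      rfl
    have hm' : Measurable fun t : ℝ => volume {y : Fin d → ℝ | r < f (t, y)} :=
      measurable_measure_prodMk_left (hlev r)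
    rw [lintegral_const_mul _ hm', hvol] at h
    calc ∫⁻ v, L v r ^ (qq d θ)
        = ∫⁻ v, (2 * d + 1) ^ (qq d θ) * (L v r / (2 * d + 1)) ^ (qq d θ) := by
          refine lintegral_congr fun v => ?_
          rw [← ENNReal.mul_rpow_of_nonneg _ _ hq.le, ENNReal.mul_div_cancel hD hDt]
      _ = (2 * d + 1) ^ (qq d θ) * ∫⁻ v, (L v r / (2 * d + 1)) ^ (qq d θ) := by
          rw [lintegral_const_mul' _ _ (ENNReal.rpow_ne_top_of_nonneg hq.le hDt)]
      _ ≤ (2 * d + 1) ^ (qq d θ) * (4 ^ d * (d:ℝ≥0∞) ^ d * Λ * (d + 1) *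
            ENNReal.ofReal (2 / θ) ^ d * (M * volume {z | r < f z})) := by
          gcongr
      _ = _ := by ring
  set C1 : ℝ≥0∞ := (2 * d + 1) ^ (qq d θ) *
    (4 ^ d * (d:ℝ≥0∞) ^ d * (d + 1) * ENNReal.ofReal (2 / θ) ^ d) with hC1
  have hrp : Measurable fun r : ℝ => ENNReal.ofReal (r ^ (p - 1)) := by fun_prop
  calc ∫⁻ v, (∫⁻ t in Icc (c v - 1 / 2) (c v + 1 / 2), ENNReal.ofReal (f (t, b v + t • v))) ^ p
      = ∫⁻ v, (∫⁻ r in Ioi (0:ℝ), L v r) ^ p := by
        refine lintegral_congr fun v => ?_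
        rw [hcake v]
    _ ≤ ∫⁻ v, ENNReal.ofReal ((p / (p - qq d θ)) ^ p) * (ENNReal.ofReal p *
          ∫⁻ r in Ioi (0:ℝ), ENNReal.ofReal (r ^ (p - 1)) * L v r ^ (qq d θ)) :=
        lintegral_mono fun v => layer_pow (hanti v) (hone v) hq hp
    _ = ENNReal.ofReal ((p / (p - qq d θ)) ^ p) * (ENNReal.ofReal p *
          ∫⁻ v, ∫⁻ r in Ioi (0:ℝ), ENNReal.ofReal (r ^ (p - 1)) * L v r ^ (qq d θ)) := by
        rw [lintegral_const_mul' _ _ ENNReal.ofReal_ne_top,
          lintegral_const_mul' _ _ ENNReal.ofReal_ne_top]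
    _ = ENNReal.ofReal ((p / (p - qq d θ)) ^ p) * (ENNReal.ofReal p *
          ∫⁻ r in Ioi (0:ℝ), ∫⁻ v, ENNReal.ofReal (r ^ (p - 1)) * L v r ^ (qq d θ)) := by
        rw [lintegral_lintegral_swap]
        refine Measurable.aemeasurable ?_
        exact (hrp.comp measurable_snd).mul (hLm.pow_const _)
    _ ≤ ENNReal.ofReal ((p / (p - qq d θ)) ^ p) * (ENNReal.ofReal p *
          ∫⁻ r in Ioi (0:ℝ), ENNReal.ofReal (r ^ (p - 1)) *
            (C1 * (Λ * M * volume {z | r < f z}))) := by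
        gcongr ENNReal.ofReal ((p / (p - qq d θ)) ^ p) * (ENNReal.ofReal p * ?_)
        refine setLIntegral_mono' measurableSet_Ioi fun r hr => ?_
        rw [lintegral_const_mul' _ _ ENNReal.ofReal_ne_top]
        gcongr
        exact hlevel r hr
    _ = ENNReal.ofReal ((p / (p - qq d θ)) ^ p) * (C1 * (Λ * M)) *
          (ENNReal.ofReal p * ∫⁻ r in Ioi (0:ℝ),
            volume {z | r < f z} * ENNReal.ofReal (r ^ (p - 1))) := by
        have e1 : ∀ r : ℝ, ENNReal.ofReal (r ^ (p - 1)) *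
            (C1 * (Λ * M * volume {z | r < f z})) =
            (C1 * (Λ * M)) * (volume {z | r < f z} * ENNReal.ofReal (r ^ (p - 1))) := by
          intro r; ring
        simp_rw [e1]
        have hvm : Measurable fun r : ℝ => volume {z | r < f z} * ENNReal.ofReal (r ^ (p - 1)) := by
          have hant : Antitone fun r : ℝ => volume {z | r < f z} := by
            intro r s hrs
            refine measure_mono ?_
            intro z hz
            exact lt_of_le_of_lt hrs hz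
          exact hant.measurable.mul hrp
        rw [lintegral_const_mul _ hvm]
        ring
    _ = ENNReal.ofReal ((p / (p - qq d θ)) ^ p) * (C1 * (Λ * M)) *
          ∫⁻ z, ENNReal.ofReal (f z ^ p) := by
        rw [lintegral_rpow_eq_lintegral_meas_lt_mul volume (Filter.Eventually.of_forall hf0)
          hf.aemeasurable hp0]
    _ = _ := by
        rw [cP, hC1]; ring

/-- Half shells. -/
lemma half_shell {f : EuclideanSpace ℝ (Fin (d + 1)) → ℝ} (hf : Measurable f) (hf0 : ∀ x, 0 ≤ f x)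
    {M : ℝ≥0∞} (hcov : SlicedBy Cv M f)
    {b : EuclideanSpace ℝ (Fin (d + 1)) → EuclideanSpace ℝ (Fin (d + 1))} (hb : Measurable b)
    {θ : ℝ} (hθ : 0 < θ) {p : ℝ} (hp : qq d θ < p) {τ ε : ℝ} (hτ : 0 < τ) (hε : ε = 1 ∨ ε = -1) :
    ∫⁻ e in {e : sphere (0 : EuclideanSpace ℝ (Fin (d + 1))) 1 |
      0 < ε * (e : EuclideanSpace ℝ (Fin (d + 1))) 0 ∧
      |(e : EuclideanSpace ℝ (Fin (d + 1))) 0| ≤ τ},
        ({x : EuclideanSpace ℝ (Fin (d + 1)) | τ / 2 ≤ |x 0|}.indicator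
          (fun x => (∫⁻ s in Icc (-(1 / 2) : ℝ) (1 / 2), ENNReal.ofReal (f (b x + s • x))) ^ p) e)
        ∂(surf (d + 1)) ≤
      2 * (d + 1) * 2 ^ p * (cP d θ p * Λ * M * ∫⁻ x, ENNReal.ofReal (f x ^ p)) := by
  have hq : 0 < qq d θ := by unfold qq; positivity
  have hp0 : 0 < p := hq.trans hp
  set H : EuclideanSpace ℝ (Fin (d + 1)) → ℝ≥0∞ :=
    {x : EuclideanSpace ℝ (Fin (d + 1)) | τ / 2 ≤ |x 0| ∧ |x 0| ≤ τ}.indicator
          (fun x => (∫⁻ s in Icc (-(1 / 2) : ℝ) (1 / 2), ENNReal.ofReal (f (b x + s • x))) ^ p) with hH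
  have hHm : Measurable H := by
    refine Measurable.indicator ?_ ?_
    · have h1 : Measurable fun z : EuclideanSpace ℝ (Fin (d + 1)) × ℝ =>
          ENNReal.ofReal (f (b z.1 + z.2 • z.1)) :=
        (hf.comp ((hb.comp measurable_fst).add (measurable_snd.smul measurable_fst))).ennreal_ofReal
      exact (h1.lintegral_prod_right' (ν := volume.restrict (Icc (-(1 / 2) : ℝ) (1 / 2)))).pow_const p
    · have e1 : Measurable fun x : EuclideanSpace ℝ (Fin (d + 1)) => |x 0| := by fun_prop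
      exact (measurableSet_le measurable_const e1).inter (measurableSet_le e1 measurable_const)
  -- the rescaled function
  set fτ : ℝ × (Fin d → ℝ) → ℝ := fun z => f (pt (τ * z.1, z.2)) with hfτ
  have hfτm : Measurable fτ := hf.comp (volume_preserving_pt.measurable.comp (by fun_prop))
  set c : (Fin d → ℝ) → ℝ := fun w => (b (dir τ ε w)) 0 / τ with hc
  have hbd : Measurable fun w : Fin d → ℝ => b (dir τ ε w) := hb.comp (measurable_dir τ ε)
  have hcm : Measurable c := by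
    have : Measurable fun x : EuclideanSpace ℝ (Fin (d + 1)) => x 0 := by fun_prop
    exact (this.comp hbd).div_const τ
  set B : (Fin d → ℝ) → (Fin d → ℝ) := fun w => (fun i => (b (dir τ ε w)) i.succ) - c w • w with hB
  have hBm : Measurable B := by
    refine Measurable.sub ?_ (hcm.smul measurable_id)
    refine measurable_pi_lambda _ fun i => ?_
    have : Measurable fun x : EuclideanSpace ℝ (Fin (d + 1)) => x i.succ := by fun_prop
    exact this.comp hbd
  have hcovτ : ∀ r : ℝ, 0 < r → ∀ᵐ t : ℝ,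
      Cv (M * volume {y | r < fτ (t, y)}) {y | r < fτ (t, y)} := by
    intro r hr
    exact ae_scale hτ (hcov r hr)
  have hpoint : ∀ w : Fin d → ℝ, H (dir τ ε w) ≤
      2 ^ p * (∫⁻ t in Icc (c w - 1 / 2) (c w + 1 / 2), ENNReal.ofReal (fτ (t, B w + t • w))) ^ p := by
    intro w
    by_cases hw : dir τ ε w ∈ {x : EuclideanSpace ℝ (Fin (d + 1)) | τ / 2 ≤ |x 0| ∧ |x 0| ≤ τ}
    swap
    · simp only [hH]
      rw [indicator_of_notMem hw]; exact zero_le
    · simp only [hH]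
      rw [indicator_of_mem hw, ← ENNReal.mul_rpow_of_nonneg _ _ hp0.le]
      refine ENNReal.rpow_le_rpow ?_ hp0.le
      set ρ : ℝ := ε * ‖pt (τ, w)‖⁻¹ with hρ
      have hd0 : (dir τ ε w) 0 = ρ * τ := rfl
      have hds : ∀ i : Fin d, (dir τ ε w) i.succ = ρ * w i := fun i => rfl
      have habs : |(dir τ ε w) 0| = |ρ| * τ := by rw [hd0, abs_mul, abs_of_pos hτ]
      have hρ1 : 1 / 2 ≤ |ρ| := by
        have := hw.1
        rw [habs] at this
        by_contra hcon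
        push Not at hcon
        nlinarith
      have hρ2 : |ρ| ≤ 1 := by
        have := hw.2
        rw [habs] at this
        by_contra hcon
        push Not at hcon
        nlinarith
      have hfm : Measurable fun t : ℝ => ENNReal.ofReal (fτ (t, B w + t • w)) :=
        (hfτm.comp (by fun_prop)).ennreal_ofReal
      refine le_trans (le_of_eq ?_) (cov_le (c := c w) hρ1 hρ2 hfm)
      refine lintegral_congr fun s => ?_
      congr 1
      simp only [hfτ]
      congr 1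
      refine ext_pt ?_ ?_
      · simp only [PiLp.add_apply, PiLp.smul_apply, smul_eq_mul, pt_zero, hd0, hc]
        field_simp
      · intro i
        simp only [PiLp.add_apply, PiLp.smul_apply, smul_eq_mul, pt_succ, hds, hB, Pi.add_apply,
          Pi.sub_apply, Pi.smul_apply]
        ring
  calc ∫⁻ e in {e : sphere (0 : EuclideanSpace ℝ (Fin (d + 1))) 1 |
      0 < ε * (e : EuclideanSpace ℝ (Fin (d + 1))) 0 ∧
      |(e : EuclideanSpace ℝ (Fin (d + 1))) 0| ≤ τ},
        ({x : EuclideanSpace ℝ (Fin (d + 1)) | τ / 2 ≤ |x 0|}.indicator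
          (fun x => (∫⁻ s in Icc (-(1 / 2) : ℝ) (1 / 2), ENNReal.ofReal (f (b x + s • x))) ^ p) e)
        ∂(surf (d + 1))
      = ∫⁻ e in {e : sphere (0 : EuclideanSpace ℝ (Fin (d + 1))) 1 |
      0 < ε * (e : EuclideanSpace ℝ (Fin (d + 1))) 0 ∧
      |(e : EuclideanSpace ℝ (Fin (d + 1))) 0| ≤ τ}, H e ∂(surf (d + 1)) := by
        have e1 : Measurable fun e : sphere (0 : EuclideanSpace ℝ (Fin (d + 1))) 1 =>
            |(e : EuclideanSpace ℝ (Fin (d + 1))) 0| := by fun_prop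
        have e2 : Measurable fun e : sphere (0 : EuclideanSpace ℝ (Fin (d + 1))) 1 =>
            ε * (e : EuclideanSpace ℝ (Fin (d + 1))) 0 := by fun_prop
        refine setLIntegral_congr_fun (MeasurableSet.inter (measurableSet_lt measurable_const e2)
          (measurableSet_le e1 measurable_const)) fun e he => ?_
        simp only [hH]
        by_cases h : τ / 2 ≤ |(e : EuclideanSpace ℝ (Fin (d + 1))) 0|
        · rw [indicator_of_mem (show (e : EuclideanSpace ℝ (Fin (d + 1))) ∈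
              {x : EuclideanSpace ℝ (Fin (d + 1)) | τ / 2 ≤ |x 0|} from h),
            indicator_of_mem (show (e : EuclideanSpace ℝ (Fin (d + 1))) ∈
              {x : EuclideanSpace ℝ (Fin (d + 1)) | τ / 2 ≤ |x 0| ∧ |x 0| ≤ τ} from ⟨h, he.2⟩)]
        · rw [indicator_of_notMem (show (e : EuclideanSpace ℝ (Fin (d + 1))) ∉
              {x : EuclideanSpace ℝ (Fin (d + 1)) | τ / 2 ≤ |x 0|} from h),
            indicator_of_notMem (show (e : EuclideanSpace ℝ (Fin (d + 1))) ∉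
              {x : EuclideanSpace ℝ (Fin (d + 1)) | τ / 2 ≤ |x 0| ∧ |x 0| ≤ τ} from
                fun h' => h h'.1)]
    _ ≤ (d + 1) * ENNReal.ofReal (2 * τ) * ∫⁻ w : Fin d → ℝ, H (dir τ ε w) :=
        lintegral_sphere_le hτ hε hHm
    _ ≤ (d + 1) * ENNReal.ofReal (2 * τ) * ∫⁻ w : Fin d → ℝ, 2 ^ p *
          (∫⁻ t in Icc (c w - 1 / 2) (c w + 1 / 2), ENNReal.ofReal (fτ (t, B w + t • w))) ^ p := by
        gcongr with w
        exact hpoint w
    _ ≤ (d + 1) * ENNReal.ofReal (2 * τ) * (2 ^ p *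
          (cP d θ p * Λ * M * ∫⁻ z, ENNReal.ofReal (fτ z ^ p))) := by
        rw [lintegral_const_mul' _ _ (ENNReal.rpow_ne_top_of_nonneg hp0.le (by norm_num))]
        gcongr
        exact strong_lines hC hfτm (fun z => hf0 _) hBm hcm hθ hp hcovτ
    _ = (d + 1) * ENNReal.ofReal (2 * τ) * (2 ^ p *
          (cP d θ p * Λ * M * (ENNReal.ofReal τ⁻¹ * ∫⁻ x, ENNReal.ofReal (f x ^ p)))) := by
        rw [← lintegral_scale hτ (F := fun x => ENNReal.ofReal (f x ^ p)) (hf.pow_const p).ennreal_ofReal]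
    _ = _ := by
        have e1 : ENNReal.ofReal (2 * τ) * ENNReal.ofReal τ⁻¹ = 2 := by
          rw [← ENNReal.ofReal_mul (by positivity), mul_assoc, mul_inv_cancel₀ hτ.ne']
          norm_num
        calc _ = (d + 1) * 2 ^ p * (cP d θ p * Λ * M *
              ∫⁻ x, ENNReal.ofReal (f x ^ p)) * (ENNReal.ofReal (2 * τ) * ENNReal.ofReal τ⁻¹) := by
              ring
          _ = _ := by rw [e1]; ring

/-- Both half shells. -/
lemma full_shell {f : EuclideanSpace ℝ (Fin (d + 1)) → ℝ} (hf : Measurable f) (hf0 : ∀ x, 0 ≤ f x)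
    {M : ℝ≥0∞} (hcov : SlicedBy Cv M f)
    {b : EuclideanSpace ℝ (Fin (d + 1)) → EuclideanSpace ℝ (Fin (d + 1))} (hb : Measurable b)
    {θ : ℝ} (hθ : 0 < θ) {p : ℝ} (hp : qq d θ < p) {τ : ℝ} (hτ : 0 < τ) :
    ∫⁻ e in {e : sphere (0 : EuclideanSpace ℝ (Fin (d + 1))) 1 |
      τ / 2 ≤ |(e : EuclideanSpace ℝ (Fin (d + 1))) 0| ∧
      |(e : EuclideanSpace ℝ (Fin (d + 1))) 0| ≤ τ},
        (∫⁻ s in Icc (-(1 / 2) : ℝ) (1 / 2),
          ENNReal.ofReal (f (b e + s • (e : EuclideanSpace ℝ (Fin (d + 1)))))) ^ p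
        ∂(surf (d + 1)) ≤
      4 * (d + 1) * 2 ^ p * (cP d θ p * Λ * M * ∫⁻ x, ENNReal.ofReal (f x ^ p)) := by
  set G : sphere (0 : EuclideanSpace ℝ (Fin (d + 1))) 1 → ℝ≥0∞ := fun e =>
    ({x : EuclideanSpace ℝ (Fin (d + 1)) | τ / 2 ≤ |x 0|}.indicator
          (fun x => (∫⁻ s in Icc (-(1 / 2) : ℝ) (1 / 2), ENNReal.ofReal (f (b x + s • x))) ^ p)
          (e : EuclideanSpace ℝ (Fin (d + 1)))) with hG
  set T : ℝ → Set (sphere (0 : EuclideanSpace ℝ (Fin (d + 1))) 1) := fun ε =>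
    {e | 0 < ε * (e : EuclideanSpace ℝ (Fin (d + 1))) 0 ∧
      |(e : EuclideanSpace ℝ (Fin (d + 1))) 0| ≤ τ} with hT
  have e1 : Measurable fun e : sphere (0 : EuclideanSpace ℝ (Fin (d + 1))) 1 =>
      |(e : EuclideanSpace ℝ (Fin (d + 1))) 0| := by fun_prop
  have hSm : MeasurableSet {e : sphere (0 : EuclideanSpace ℝ (Fin (d + 1))) 1 |
      τ / 2 ≤ |(e : EuclideanSpace ℝ (Fin (d + 1))) 0| ∧
      |(e : EuclideanSpace ℝ (Fin (d + 1))) 0| ≤ τ} :=
    (measurableSet_le measurable_const e1).inter (measurableSet_le e1 measurable_const)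
  have hsub : {e : sphere (0 : EuclideanSpace ℝ (Fin (d + 1))) 1 |
      τ / 2 ≤ |(e : EuclideanSpace ℝ (Fin (d + 1))) 0| ∧
      |(e : EuclideanSpace ℝ (Fin (d + 1))) 0| ≤ τ} ⊆ T 1 ∪ T (-1) := by
    rintro e ⟨he1, he2⟩
    have h0 : 0 < |(e : EuclideanSpace ℝ (Fin (d + 1))) 0| := by linarith
    rcases lt_or_gt_of_ne (abs_pos.1 h0) with h | h
    · right; exact ⟨by linarith, he2⟩
    · left; exact ⟨by linarith, he2⟩
  calc ∫⁻ e in {e : sphere (0 : EuclideanSpace ℝ (Fin (d + 1))) 1 |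
      τ / 2 ≤ |(e : EuclideanSpace ℝ (Fin (d + 1))) 0| ∧
      |(e : EuclideanSpace ℝ (Fin (d + 1))) 0| ≤ τ},
        (∫⁻ s in Icc (-(1 / 2) : ℝ) (1 / 2),
          ENNReal.ofReal (f (b e + s • (e : EuclideanSpace ℝ (Fin (d + 1)))))) ^ p
        ∂(surf (d + 1))
      = ∫⁻ e in {e : sphere (0 : EuclideanSpace ℝ (Fin (d + 1))) 1 |
      τ / 2 ≤ |(e : EuclideanSpace ℝ (Fin (d + 1))) 0| ∧
      |(e : EuclideanSpace ℝ (Fin (d + 1))) 0| ≤ τ}, G e ∂(surf (d + 1)) := by
        refine setLIntegral_congr_fun hSm fun e he => ?_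
        simp only [hG]
        rw [indicator_of_mem (show (e : EuclideanSpace ℝ (Fin (d + 1))) ∈
              {x : EuclideanSpace ℝ (Fin (d + 1)) | τ / 2 ≤ |x 0|} from he.1)]
    _ ≤ ∫⁻ e in T 1 ∪ T (-1), G e ∂(surf (d + 1)) := lintegral_mono_set hsub
    _ ≤ (∫⁻ e in T 1, G e ∂(surf (d + 1))) + ∫⁻ e in T (-1), G e ∂(surf (d + 1)) :=
        lintegral_union_le _ _ _
    _ ≤ 2 * (d + 1) * 2 ^ p * (cP d θ p * Λ * M * ∫⁻ x, ENNReal.ofReal (f x ^ p)) +
        2 * (d + 1) * 2 ^ p * (cP d θ p * Λ * M * ∫⁻ x, ENNReal.ofReal (f x ^ p)) :=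
        add_le_add (half_shell hC hf hf0 hcov hb hθ hp hτ (Or.inl rfl))
          (half_shell hC hf hf0 hcov hb hθ hp hτ (Or.inr rfl))
    _ = _ := by ring

/-- All directions with `κ ≤ |e 0|`. -/
lemma steep_seg {f : EuclideanSpace ℝ (Fin (d + 1)) → ℝ} (hf : Measurable f) (hf0 : ∀ x, 0 ≤ f x)
    {M : ℝ≥0∞} (hcov : SlicedBy Cv M f)
    {b : EuclideanSpace ℝ (Fin (d + 1)) → EuclideanSpace ℝ (Fin (d + 1))} (hb : Measurable b)
    {θ : ℝ} (hθ : 0 < θ) {p : ℝ} (hp : qq d θ < p) {κ : ℝ} (hκ : 0 < κ) :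
    ∫⁻ e in {e : sphere (0 : EuclideanSpace ℝ (Fin (d + 1))) 1 |
      κ ≤ |(e : EuclideanSpace ℝ (Fin (d + 1))) 0|},
        (∫⁻ s in Icc (-(1 / 2) : ℝ) (1 / 2),
          ENNReal.ofReal (f (b e + s • (e : EuclideanSpace ℝ (Fin (d + 1)))))) ^ p
        ∂(surf (d + 1)) ≤
      (nsh κ : ℝ≥0∞) * (4 * (d + 1) * 2 ^ p *
        (cP d θ p * Λ * M * ∫⁻ x, ENNReal.ofReal (f x ^ p))) := by
  set T : ℕ → Set (sphere (0 : EuclideanSpace ℝ (Fin (d + 1))) 1) := fun j =>
    {e | (1 / 2 : ℝ) ^ j / 2 ≤ |(e : EuclideanSpace ℝ (Fin (d + 1))) 0| ∧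
      |(e : EuclideanSpace ℝ (Fin (d + 1))) 0| ≤ (1 / 2 : ℝ) ^ j} with hT
  have hsub : {e : sphere (0 : EuclideanSpace ℝ (Fin (d + 1))) 1 |
      κ ≤ |(e : EuclideanSpace ℝ (Fin (d + 1))) 0|} ⊆ ⋃ j ∈ Finset.range (nsh κ), T j := by
    intro e he
    have hnorm : ‖(e : EuclideanSpace ℝ (Fin (d + 1)))‖ = 1 := by simp
    have he1 : |(e : EuclideanSpace ℝ (Fin (d + 1))) 0| ≤ 1 := by
      have := PiLp.norm_apply_le (e : EuclideanSpace ℝ (Fin (d + 1))) 0
      rw [hnorm] at this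
      simpa using this
    obtain ⟨j, hj, h1, h2⟩ := exists_shell hκ he he1
    exact mem_biUnion hj ⟨h1, h2⟩
  calc _ ≤ ∫⁻ e in ⋃ j ∈ Finset.range (nsh κ), T j,
        (∫⁻ s in Icc (-(1 / 2) : ℝ) (1 / 2),
          ENNReal.ofReal (f (b e + s • (e : EuclideanSpace ℝ (Fin (d + 1)))))) ^ p
        ∂(surf (d + 1)) := lintegral_mono_set hsub
    _ ≤ ∑ j ∈ Finset.range (nsh κ), ∫⁻ e in T j,
        (∫⁻ s in Icc (-(1 / 2) : ℝ) (1 / 2),
          ENNReal.ofReal (f (b e + s • (e : EuclideanSpace ℝ (Fin (d + 1)))))) ^ p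
        ∂(surf (d + 1)) := lintegral_biUnion_le' _ _ _ _
    _ ≤ ∑ _j ∈ Finset.range (nsh κ), (4 * (d + 1) * 2 ^ p *
        (cP d θ p * Λ * M * ∫⁻ x, ENNReal.ofReal (f x ^ p))) :=
        Finset.sum_le_sum fun j _ => full_shell hC hf hf0 hcov hb hθ hp (by positivity)
    _ = _ := by
        rw [Finset.sum_const, Finset.card_range, nsmul_eq_mul]

/-- Longer segments. -/
lemma steep_long {f : EuclideanSpace ℝ (Fin (d + 1)) → ℝ} (hf : Measurable f) (hf0 : ∀ x, 0 ≤ f x)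
    {M : ℝ≥0∞} (hcov : SlicedBy Cv M f)
    {b : EuclideanSpace ℝ (Fin (d + 1)) → EuclideanSpace ℝ (Fin (d + 1))} (hb : Measurable b)
    {θ : ℝ} (hθ : 0 < θ) {p : ℝ} (hp : qq d θ < p) {κ : ℝ} (hκ : 0 < κ) :
    ∫⁻ e in {e : sphere (0 : EuclideanSpace ℝ (Fin (d + 1))) 1 |
      κ ≤ |(e : EuclideanSpace ℝ (Fin (d + 1))) 0|},
        (∫⁻ s in Icc (-(3 / 2) : ℝ) (3 / 2),
          ENNReal.ofReal (f (b e + s • (e : EuclideanSpace ℝ (Fin (d + 1)))))) ^ p
        ∂(surf (d + 1)) ≤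
      3 ^ p * (3 * ((nsh κ : ℝ≥0∞) * (4 * (d + 1) * 2 ^ p *
        (cP d θ p * Λ * M * ∫⁻ x, ENNReal.ofReal (f x ^ p))))) := by
  have hq : 0 < qq d θ := by unfold qq; positivity
  have hp0 : 0 < p := hq.trans hp
  set W : ℝ → sphere (0 : EuclideanSpace ℝ (Fin (d + 1))) 1 → ℝ≥0∞ := fun j e =>
    ∫⁻ s in Icc (-(1 / 2) : ℝ) (1 / 2), ENNReal.ofReal
      (f ((b e + j • (e : EuclideanSpace ℝ (Fin (d + 1)))) +
        s • (e : EuclideanSpace ℝ (Fin (d + 1))))) with hW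
  have hWm : ∀ j, Measurable (W j) := by
    intro j
    have h1 : Measurable fun z : sphere (0 : EuclideanSpace ℝ (Fin (d + 1))) 1 × ℝ =>
        ENNReal.ofReal (f ((b z.1 + j • (z.1 : EuclideanSpace ℝ (Fin (d + 1)))) +
          z.2 • (z.1 : EuclideanSpace ℝ (Fin (d + 1))))) := by
      have hc : Measurable fun z : sphere (0 : EuclideanSpace ℝ (Fin (d + 1))) 1 × ℝ =>
        (z.1 : EuclideanSpace ℝ (Fin (d + 1))) := measurable_subtype_coe.comp measurable_fst
      exact (hf.comp (((hb.comp hc).add (hc.const_smul j)).add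
        (measurable_snd.smul hc))).ennreal_ofReal
    exact h1.lintegral_prod_right' (ν := volume.restrict (Icc (-(1 / 2) : ℝ) (1 / 2)))
  have hshift : ∀ (j : ℝ) (e : sphere (0 : EuclideanSpace ℝ (Fin (d + 1))) 1),
      ∫⁻ s in Icc (j - 1 / 2) (j + 1 / 2),
        ENNReal.ofReal (f (b e + s • (e : EuclideanSpace ℝ (Fin (d + 1))))) = W j e := by
    intro j e
    have h1 := (measurePreserving_add_left (volume : Measure ℝ) j).setLIntegral_comp_preimage
      (measurableSet_Icc (a := j - 1 / 2) (b := j + 1 / 2))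
      (f := fun s => ENNReal.ofReal (f (b e + s • (e : EuclideanSpace ℝ (Fin (d + 1))))))
      ((hf.comp (by fun_prop)).ennreal_ofReal)
    rw [← h1]
    simp only [hW]
    have h2 : (j + ·) ⁻¹' Icc (j - 1 / 2) (j + 1 / 2) = Icc (-(1 / 2) : ℝ) (1 / 2) := by
      ext s
      simp only [mem_preimage, mem_Icc]
      constructor
      · rintro ⟨h, h'⟩; constructor <;> linarith
      · rintro ⟨h, h'⟩; constructor <;> linarith
    rw [h2]
    refine lintegral_congr fun s => ?_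
    rw [add_smul, add_assoc]
  have hpt : ∀ e : sphere (0 : EuclideanSpace ℝ (Fin (d + 1))) 1,
      (∫⁻ s in Icc (-(3 / 2) : ℝ) (3 / 2),
          ENNReal.ofReal (f (b e + s • (e : EuclideanSpace ℝ (Fin (d + 1)))))) ^ p ≤
        3 ^ p * (W (-1) e ^ p + W 0 e ^ p + W 1 e ^ p) := by
    intro e
    refine le_trans (ENNReal.rpow_le_rpow ?_ hp0.le) (add_three_rpow hp0.le _ _ _)
    rw [← hshift, ← hshift, ← hshift]
    have hun : Icc (-(3 / 2) : ℝ) (3 / 2) ⊆ (Icc ((-1:ℝ) - 1 / 2) (-1 + 1 / 2) ∪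
        Icc ((0:ℝ) - 1 / 2) (0 + 1 / 2)) ∪ Icc ((1:ℝ) - 1 / 2) (1 + 1 / 2) := by
      intro s hs
      simp only [mem_union, mem_Icc] at hs ⊢
      by_cases h1 : s ≤ -1 / 2
      · left; left; constructor <;> linarith [hs.1]
      · by_cases h2 : s ≤ 1 / 2
        · left; right; constructor <;> linarith
        · right; constructor <;> linarith [hs.2]
    calc _ ≤ _ := lintegral_mono_set hun
      _ ≤ _ := lintegral_union_le _ _ _
      _ ≤ _ := add_le_add (lintegral_union_le _ _ _) le_rfl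
  have hone : ∀ j : ℝ, ∫⁻ e in {e : sphere (0 : EuclideanSpace ℝ (Fin (d + 1))) 1 |
      κ ≤ |(e : EuclideanSpace ℝ (Fin (d + 1))) 0|}, W j e ^ p ∂(surf (d + 1)) ≤
      (nsh κ : ℝ≥0∞) * (4 * (d + 1) * 2 ^ p *
        (cP d θ p * Λ * M * ∫⁻ x, ENNReal.ofReal (f x ^ p))) := by
    intro j
    exact steep_seg hC hf hf0 hcov (b := fun x => b x + j • x) (hb.add (measurable_id.const_smul j))
      hθ hp hκ
  calc _ ≤ ∫⁻ e in {e : sphere (0 : EuclideanSpace ℝ (Fin (d + 1))) 1 |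
      κ ≤ |(e : EuclideanSpace ℝ (Fin (d + 1))) 0|},
        3 ^ p * (W (-1) e ^ p + W 0 e ^ p + W 1 e ^ p) ∂(surf (d + 1)) :=
        lintegral_mono hpt
    _ = 3 ^ p * ((∫⁻ e in {e : sphere (0 : EuclideanSpace ℝ (Fin (d + 1))) 1 |
      κ ≤ |(e : EuclideanSpace ℝ (Fin (d + 1))) 0|}, W (-1) e ^ p ∂(surf (d + 1))) +
        (∫⁻ e in {e : sphere (0 : EuclideanSpace ℝ (Fin (d + 1))) 1 |
      κ ≤ |(e : EuclideanSpace ℝ (Fin (d + 1))) 0|}, W 0 e ^ p ∂(surf (d + 1))) +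
        ∫⁻ e in {e : sphere (0 : EuclideanSpace ℝ (Fin (d + 1))) 1 |
      κ ≤ |(e : EuclideanSpace ℝ (Fin (d + 1))) 0|}, W 1 e ^ p ∂(surf (d + 1))) := by
        have m1 : Measurable fun e => W (-1) e ^ p := (hWm (-1)).pow_const p
        have m2 : Measurable fun e => W 0 e ^ p := (hWm 0).pow_const p
        have m3 : Measurable fun e => W 1 e ^ p := (hWm 1).pow_const p
        have m12 : Measurable fun e => W (-1) e ^ p + W 0 e ^ p := m1.add m2
        have m123 : Measurable fun e => W (-1) e ^ p + W 0 e ^ p + W 1 e ^ p := m12.add m3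
        rw [lintegral_const_mul _ m123, lintegral_add_left m12, lintegral_add_left m1]
    _ ≤ _ := by
        gcongr
        calc _ ≤ _ := add_le_add (add_le_add (hone (-1)) (hone 0)) (hone 1)
          _ = _ := by ring

/-- Bound for selections. -/
lemma steep_ballAvg {f : EuclideanSpace ℝ (Fin (d + 1)) → ℝ} (hf : Measurable f)
    (hf0 : ∀ x, 0 ≤ f x) {M : ℝ≥0∞} (hcov : SlicedBy Cv M f)
    {b : EuclideanSpace ℝ (Fin (d + 1)) → EuclideanSpace ℝ (Fin (d + 1))} (hb : Measurable b)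
    {θ : ℝ} (hθ : 0 < θ) {p : ℝ} (hp : qq d θ < p) {κ : ℝ} (hκ : 0 < κ) {ρ : ℝ} (hρ : 0 < ρ) :
    ∫⁻ e in {e : sphere (0 : EuclideanSpace ℝ (Fin (d + 1))) 1 |
      κ ≤ |(e : EuclideanSpace ℝ (Fin (d + 1))) 0|},
        ballAvg ρ (fun x => ENNReal.ofReal (f x)) (b e) e ^ p ∂(surf (d + 1)) ≤
      3 ^ p * (3 * ((nsh κ : ℝ≥0∞) * (4 * (d + 1) * 2 ^ p *
        (cP d θ p * Λ * M * ∫⁻ x, ENNReal.ofReal (f x ^ p))))) := by
  have hq1 : 1 ≤ qq d θ := by
    unfold qq
    have h1 : (0:ℝ) ≤ d := by positivity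
    have h2 : 0 ≤ θ * ((d + 1) * d) := by positivity
    linarith
  have hp1 : 1 < p := by linarith
  have hp0 : 0 < p := by linarith
  set B := closedBall (0 : EuclideanSpace ℝ (Fin (d + 1))) ρ with hB
  set μ := (volume : Measure (EuclideanSpace ℝ (Fin (d + 1)))).restrict B with hμ
  have hμu : μ univ = volume B := by rw [hμ, Measure.restrict_apply_univ]
  have h0 : volume B ≠ 0 := (measure_closedBall_pos _ _ hρ).ne'
  have ht : volume B ≠ ∞ := measure_closedBall_lt_top.ne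
  set K : ℝ≥0∞ := 3 ^ p * (3 * ((nsh κ : ℝ≥0∞) * (4 * (d + 1) * 2 ^ p *
        (cP d θ p * Λ * M * ∫⁻ x, ENNReal.ofReal (f x ^ p))))) with hK
  set S : Set (sphere (0 : EuclideanSpace ℝ (Fin (d + 1))) 1) :=
    {e | κ ≤ |(e : EuclideanSpace ℝ (Fin (d + 1))) 0|} with hS
  have hc : Measurable fun z : sphere (0 : EuclideanSpace ℝ (Fin (d + 1))) 1 ×
      EuclideanSpace ℝ (Fin (d + 1)) => (z.1 : EuclideanSpace ℝ (Fin (d + 1))) :=
    measurable_subtype_coe.comp measurable_fst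
  set I : sphere (0 : EuclideanSpace ℝ (Fin (d + 1))) 1 → EuclideanSpace ℝ (Fin (d + 1)) → ℝ≥0∞ :=
    fun e x => ∫⁻ s in Icc (-(3 / 2) : ℝ) (3 / 2),
      ENNReal.ofReal (f (b e + x + s • (e : EuclideanSpace ℝ (Fin (d + 1))))) with hI
  have hIm : Measurable (Function.uncurry I) := by
    have hc2 : Measurable fun z : (sphere (0 : EuclideanSpace ℝ (Fin (d + 1))) 1 ×
      EuclideanSpace ℝ (Fin (d + 1))) × ℝ => (z.1.1 : EuclideanSpace ℝ (Fin (d + 1))) :=
      hc.comp measurable_fst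
    have h1 : Measurable fun z : (sphere (0 : EuclideanSpace ℝ (Fin (d + 1))) 1 ×
      EuclideanSpace ℝ (Fin (d + 1))) × ℝ =>
        ENNReal.ofReal (f (b z.1.1 + z.1.2 + z.2 • (z.1.1 : EuclideanSpace ℝ (Fin (d + 1))))) :=
      (hf.comp (((hb.comp hc2).add (measurable_snd.comp measurable_fst)).add
        (measurable_snd.smul hc2))).ennreal_ofReal
    exact h1.lintegral_prod_right' (ν := volume.restrict (Icc (-(3 / 2) : ℝ) (3 / 2)))
  calc ∫⁻ e in S, ballAvg ρ (fun x => ENNReal.ofReal (f x)) (b e) e ^ p ∂(surf (d + 1))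
      ≤ ∫⁻ e in S, (volume B)⁻¹ * ∫⁻ x, I e x ^ p ∂μ ∂(surf (d + 1)) := by
        refine lintegral_mono fun e => ?_
        have h := jensen μ hp1 (g := I e)
          (hIm.comp (measurable_prodMk_left (x := e))).aemeasurable (by rw [hμu]; exact h0)
          (by rw [hμu]; exact ht)
        rw [hμu] at h
        exact h
    _ = (volume B)⁻¹ * ∫⁻ e in S, ∫⁻ x, I e x ^ p ∂μ ∂(surf (d + 1)) :=
        lintegral_const_mul' _ _ (ENNReal.inv_ne_top.2 h0)
    _ = (volume B)⁻¹ * ∫⁻ x, ∫⁻ e in S, I e x ^ p ∂(surf (d + 1)) ∂μ := by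
        have : IsFiniteMeasure (surf (d + 1)) := by unfold surf; infer_instance
        rw [lintegral_lintegral_swap (hIm.pow_const p).aemeasurable]
    _ ≤ (volume B)⁻¹ * ∫⁻ _x, K ∂μ := by
        gcongr with x
        exact steep_long hC hf hf0 hcov (b := fun y => b y + x) (hb.add measurable_const) hθ hp hκ
    _ = K := by
        rw [lintegral_const, hμu, mul_comm K, ← mul_assoc, ENNReal.inv_mul_cancel h0 ht, one_mul]

/-- The supremum over a sequence of centres. -/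
lemma steep_iSup {f : EuclideanSpace ℝ (Fin (d + 1)) → ℝ} (hf : Measurable f)
    (hf0 : ∀ x, 0 ≤ f x) {M : ℝ≥0∞} (hcov : SlicedBy Cv M f)
    {θ : ℝ} (hθ : 0 < θ) {p : ℝ} (hp : qq d θ < p) {κ : ℝ} (hκ : 0 < κ) {ρ : ℝ} (hρ : 0 < ρ)
    (q : ℕ → EuclideanSpace ℝ (Fin (d + 1))) :
    ∫⁻ e in {e : sphere (0 : EuclideanSpace ℝ (Fin (d + 1))) 1 |
      κ ≤ |(e : EuclideanSpace ℝ (Fin (d + 1))) 0|},
        (⨆ k, ballAvg ρ (fun x => ENNReal.ofReal (f x)) (q k) e) ^ p ∂(surf (d + 1)) ≤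
      3 ^ p * (3 * ((nsh κ : ℝ≥0∞) * (4 * (d + 1) * 2 ^ p *
        (cP d θ p * Λ * M * ∫⁻ x, ENNReal.ofReal (f x ^ p))))) := by
  have hq : 0 < qq d θ := by unfold qq; positivity
  have hp0 : 0 < p := hq.trans hp
  have hFm : Measurable fun x => ENNReal.ofReal (f x) := hf.ennreal_ofReal
  have hBm := measurable_ballAvg (ρ := ρ) hFm
  have hc : Measurable fun e : sphere (0 : EuclideanSpace ℝ (Fin (d + 1))) 1 =>
    (e : EuclideanSpace ℝ (Fin (d + 1))) := measurable_subtype_coe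
  set Q : ℕ → sphere (0 : EuclideanSpace ℝ (Fin (d + 1))) 1 → ℝ≥0∞ := fun n e =>
    (⨆ k ∈ Iic n, ballAvg ρ (fun x => ENNReal.ofReal (f x)) (q k) e) ^ p with hQ
  have hkm : ∀ k, Measurable fun e : sphere (0 : EuclideanSpace ℝ (Fin (d + 1))) 1 =>
      ballAvg ρ (fun x => ENNReal.ofReal (f x)) (q k) (e : EuclideanSpace ℝ (Fin (d + 1))) := by
    intro k
    have h1 : Measurable fun e : sphere (0 : EuclideanSpace ℝ (Fin (d + 1))) 1 =>
      ((q k, (e : EuclideanSpace ℝ (Fin (d + 1)))) :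
        EuclideanSpace ℝ (Fin (d + 1)) × EuclideanSpace ℝ (Fin (d + 1))) :=
      measurable_const.prodMk hc
    have h2 := hBm.comp h1
    simp only [Function.comp_def] at h2
    exact h2
  have hQm : ∀ n, Measurable (Q n) := by
    intro n
    exact (Measurable.biSup (Iic n) (to_countable _) (fun k _ => hkm k)).pow_const p
  have hmono : Monotone Q := by
    intro n m hnm e
    refine ENNReal.rpow_le_rpow ?_ hp0.le
    exact biSup_mono fun k hk => le_trans hk hnm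
  have hsup : ∀ e : sphere (0 : EuclideanSpace ℝ (Fin (d + 1))) 1, (⨆ k, ballAvg ρ (fun x => ENNReal.ofReal (f x)) (q k)
      (e : EuclideanSpace ℝ (Fin (d + 1)))) ^ p = ⨆ n, Q n e := by
    intro e
    have h1 : (⨆ k, ballAvg ρ (fun x => ENNReal.ofReal (f x)) (q k)
      (e : EuclideanSpace ℝ (Fin (d + 1)))) = ⨆ n, ⨆ k ∈ Iic n,
        ballAvg ρ (fun x => ENNReal.ofReal (f x)) (q k) (e : EuclideanSpace ℝ (Fin (d + 1))) := by
      refine le_antisymm ?_ ?_
      · exact iSup_le fun k => le_iSup_of_le k (le_iSup₂_of_le k (mem_Iic.2 le_rfl) le_rfl)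
      · exact iSup_le fun n => iSup₂_le fun k _ => le_iSup (fun k =>
          ballAvg ρ (fun x => ENNReal.ofReal (f x)) (q k) (e : EuclideanSpace ℝ (Fin (d + 1)))) k
    rw [h1]
    exact (ENNReal.orderIsoRpow p hp0).map_iSup _
  simp_rw [hsup]
  rw [lintegral_iSup hQm hmono]
  refine iSup_le fun n => ?_
  obtain ⟨b, hb, hbk⟩ := exists_selection hBm q n
  refine le_trans (lintegral_mono fun e => ?_) (steep_ballAvg hC hf hf0 hcov hb hθ hp hκ hρ)
  refine ENNReal.rpow_le_rpow ?_ hp0.le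
  exact iSup₂_le fun k hk => hbk e k hk

end one

/-- Strong type for the Kakeya maximal function, with explicit constant. -/
lemma kakeya_strong (d : ℕ) : ∃ C : ℝ, 0 < C ∧ ∀ (Cv : ℝ≥0∞ → Set (Fin d → ℝ) → Prop) (Λ : ℝ≥0∞), Vel d Λ Cv →
    ∀ (f : EuclideanSpace ℝ (Fin (d + 1)) → ℝ) (M : ℝ≥0∞) (θ p κ δ : ℝ), Measurable f → (∀ x, 0 ≤ f x) → SlicedBy Cv M f →
    0 < θ → qq d θ < p → 0 < κ → 0 < δ → δ ≤ 1 →
    ∫⁻ e in {e : sphere (0 : EuclideanSpace ℝ (Fin (d + 1))) 1 |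
      κ ≤ |(e : EuclideanSpace ℝ (Fin (d + 1))) 0|}, kakeyaMax δ f e ^ p ∂(surf (d + 1)) ≤
      ENNReal.ofReal C ^ p * (nsh κ : ℝ≥0∞) *
        (cP d θ p * Λ * M * ∫⁻ x, ENNReal.ofReal (f x ^ p)) := by
  obtain ⟨C, hC, hle⟩ := kakeya_le_iSup d
  refine ⟨C * 6 * (12 * (d + 1)), by positivity, ?_⟩
  intro Cv Λ hV f M θ p κ δ hf hf0 hcov hθ hp hκ hδ hδ1
  have hq1 : 1 ≤ qq d θ := by
    unfold qq
    have h1 : (0:ℝ) ≤ d := by positivity
    have h2 : 0 ≤ θ * ((d + 1) * d) := by positivity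
    linarith
  have hp1 : 1 < p := by linarith
  have hp0 : 0 < p := by linarith
  have h1 := steep_iSup hV hf hf0 hcov hθ hp hκ (ρ := 3 * δ) (by positivity)
    (TopologicalSpace.denseSeq (EuclideanSpace ℝ (Fin (d + 1))))
  have hen : ∀ y, ‖f y‖ₑ = ENNReal.ofReal (f y) := fun y => Real.enorm_of_nonneg (hf0 y)
  calc ∫⁻ e in {e : sphere (0 : EuclideanSpace ℝ (Fin (d + 1))) 1 |
      κ ≤ |(e : EuclideanSpace ℝ (Fin (d + 1))) 0|}, kakeyaMax δ f e ^ p ∂(surf (d + 1))
      ≤ ∫⁻ e in {e : sphere (0 : EuclideanSpace ℝ (Fin (d + 1))) 1 |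
      κ ≤ |(e : EuclideanSpace ℝ (Fin (d + 1))) 0|},
        ENNReal.ofReal C ^ p * (⨆ k, ballAvg (3 * δ) (fun x => ENNReal.ofReal (f x))
          (TopologicalSpace.denseSeq (EuclideanSpace ℝ (Fin (d + 1))) k) e) ^ p
            ∂(surf (d + 1)) := by
        refine lintegral_mono fun e => ?_
        rw [← ENNReal.mul_rpow_of_nonneg _ _ hp0.le]
        refine ENNReal.rpow_le_rpow ?_ hp0.le
        have h2 := hle δ e (fun x => ENNReal.ofReal (f x)) hδ hδ1 (by simp) hf.ennreal_ofReal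
        unfold kakeyaMax
        simp_rw [hen]
        exact h2
    _ = ENNReal.ofReal C ^ p * ∫⁻ e in {e : sphere (0 : EuclideanSpace ℝ (Fin (d + 1))) 1 |
      κ ≤ |(e : EuclideanSpace ℝ (Fin (d + 1))) 0|},
        (⨆ k, ballAvg (3 * δ) (fun x => ENNReal.ofReal (f x))
          (TopologicalSpace.denseSeq (EuclideanSpace ℝ (Fin (d + 1))) k) e) ^ p
            ∂(surf (d + 1)) :=
        lintegral_const_mul' _ _ (ENNReal.rpow_ne_top_of_nonneg hp0.le ENNReal.ofReal_ne_top)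
    _ ≤ ENNReal.ofReal C ^ p * (3 ^ p * (3 * ((nsh κ : ℝ≥0∞) * (4 * (d + 1) * 2 ^ p *
        (cP d θ p * Λ * M * ∫⁻ x, ENNReal.ofReal (f x ^ p)))))) := by
        gcongr
    _ = ENNReal.ofReal C ^ p * 3 ^ p * 2 ^ p * (12 * (d + 1)) * (nsh κ : ℝ≥0∞) *
        (cP d θ p * Λ * M * ∫⁻ x, ENNReal.ofReal (f x ^ p)) := by ring
    _ ≤ ENNReal.ofReal C ^ p * 3 ^ p * 2 ^ p * (12 * (d + 1)) ^ p * (nsh κ : ℝ≥0∞) *
        (cP d θ p * Λ * M * ∫⁻ x, ENNReal.ofReal (f x ^ p)) := by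
        gcongr
        have h3 : (1:ℝ≥0∞) ≤ 12 * (d + 1) := by
          calc (1:ℝ≥0∞) = 1 * 1 := (one_mul 1).symm
            _ ≤ 12 * (d + 1) := by
                gcongr
                · norm_num
                · exact le_add_self
        calc (12 * ((d:ℝ≥0∞) + 1)) = (12 * ((d:ℝ≥0∞) + 1)) ^ (1:ℝ) := (ENNReal.rpow_one _).symm
          _ ≤ _ := ENNReal.rpow_le_rpow_of_exponent_le h3 hp1.le
    _ = _ := by
        rw [ENNReal.ofReal_mul (p := C * 6) (by positivity), ENNReal.ofReal_mul (p := C) hC.le,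
          ENNReal.mul_rpow_of_nonneg (ENNReal.ofReal C * ENNReal.ofReal 6) _ hp0.le,
          ENNReal.mul_rpow_of_nonneg (ENNReal.ofReal C) _ hp0.le]
        have e1 : ENNReal.ofReal 6 ^ p = 3 ^ p * 2 ^ p := by
          rw [← ENNReal.mul_rpow_of_nonneg _ _ hp0.le]
          norm_num
        have e2 : ENNReal.ofReal (12 * ((d:ℝ) + 1)) = 12 * (d + 1) := by
          rw [ENNReal.ofReal_mul (by norm_num), ENNReal.ofReal_add (by positivity) (by norm_num)]
          simp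
        rw [e1, e2]
        ring

/-- The strong type for `p > n`, away from the equator. -/
theorem strongP (hd : 1 ≤ d) {p : ℝ} (hp : (d:ℝ) + 1 < p) : ∃ C : ℝ, 0 < C ∧
    ∀ (Cv : ℝ≥0∞ → Set (Fin d → ℝ) → Prop) (Λ : ℝ≥0∞), Vel d Λ Cv →
    ∀ (f : EuclideanSpace ℝ (Fin (d + 1)) → ℝ) (M : ℝ≥0∞) (κ δ : ℝ), Measurable f →
    ASlicedBy Cv M f → 0 < κ → κ ≤ 1 → 0 < δ → δ ≤ 1 →
    ∫⁻ e in {e : sphere (0 : EuclideanSpace ℝ (Fin (d + 1))) 1 |
      κ ≤ |(e : EuclideanSpace ℝ (Fin (d + 1))) 0|}, kakeyaMax δ f e ^ p ∂(surf (d + 1)) ≤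
      ENNReal.ofReal (C * (1 + Real.log (1 / κ))) * (Λ * M * ∫⁻ x, ‖f x‖ₑ ^ p) := by
  obtain ⟨C, hC, hmain⟩ := kakeya_strong d
  have hp0 : 0 < p := by
    have : (0:ℝ) ≤ d := by positivity
    linarith
  set K : ℝ := (cP d (th d p) p).toReal with hK
  have hKt := cP_ne_top (d := d) (p := p) (th_pos hd hp)
  have hK0 : 0 ≤ K := ENNReal.toReal_nonneg
  refine ⟨C ^ p * 2 * (K + 1), by positivity, ?_⟩
  intro Cv Λ hV f M κ δ hf hcov hκ hκ1 hδ hδ1
  have hlog : 0 ≤ Real.log (1 / κ) := Real.log_nonneg (by rw [le_div_iff₀ hκ]; linarith)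
  have h := hmain Cv Λ hV (fun x => |f x|) M (th d p) p κ δ (measurable_norm.comp hf)
    (fun x => abs_nonneg _) hcov (th_pos hd hp) (by rw [qq_th hd]; linarith) hκ hδ hδ1
  have hen : ∀ x, ENNReal.ofReal (|f x| ^ p) = ‖f x‖ₑ ^ p := by
    intro x
    rw [← ENNReal.ofReal_rpow_of_nonneg (abs_nonneg _) hp0.le, ← Real.enorm_eq_ofReal_abs]
  simp_rw [hen] at h
  calc ∫⁻ e in {e : sphere (0 : EuclideanSpace ℝ (Fin (d + 1))) 1 |
      κ ≤ |(e : EuclideanSpace ℝ (Fin (d + 1))) 0|}, kakeyaMax δ f e ^ p ∂(surf (d + 1))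
      = ∫⁻ e in {e : sphere (0 : EuclideanSpace ℝ (Fin (d + 1))) 1 |
      κ ≤ |(e : EuclideanSpace ℝ (Fin (d + 1))) 0|}, kakeyaMax δ (fun x => |f x|) e ^ p
        ∂(surf (d + 1)) := by
        refine lintegral_congr fun e => ?_
        rw [kakeyaMax_abs]
    _ ≤ _ := h
    _ = ENNReal.ofReal C ^ p * (nsh κ : ℝ≥0∞) * cP d (th d p) p *
        (Λ * M * ∫⁻ x, ‖f x‖ₑ ^ p) := by ring
    _ ≤ _ := by
        gcongr ?_ * _
        rw [← ENNReal.ofReal_toReal hKt, ← ENNReal.ofReal_natCast,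
          ENNReal.ofReal_rpow_of_pos hC, ← ENNReal.ofReal_mul (by positivity),
          ← ENNReal.ofReal_mul (by positivity)]
        refine ENNReal.ofReal_le_ofReal ?_
        have h1 := nsh_le hκ hκ1
        calc C ^ p * (nsh κ : ℝ) * (cP d (th d p) p).toReal
            ≤ C ^ p * (2 * (1 + Real.log (1 / κ))) * (K + 1) := by
              gcongr
              linarith
          _ = _ := by ring

lemma sliced_min {Cv : ℝ≥0∞ → Set (Fin d → ℝ) → Prop} (hE : ∀ m, Cv m ∅) {M : ℝ≥0∞}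
    {f : EuclideanSpace ℝ (Fin (d + 1)) → ℝ} (hf : ASlicedBy Cv M f)
    {r₁ : ℝ} : SlicedBy Cv M (fun x => min |f x| r₁) := by
  intro r hr
  by_cases h : r < r₁
  · have : {x : EuclideanSpace ℝ (Fin (d + 1)) | r < min |f x| r₁} = {x | r < |f x|} := by
      ext x
      simp only [mem_ofPred_eq, lt_min_iff, h, and_true]
    rw [this]
    exact hf r hr
  · have : {x : EuclideanSpace ℝ (Fin (d + 1)) | r < min |f x| r₁} = ∅ := by
      ext x
      simp only [mem_ofPred_eq, lt_min_iff, h, and_false, mem_empty_iff_false]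
    rw [this]
    refine Filter.Eventually.of_forall fun t => ?_
    exact hE _

/-- The critical exponent. -/
theorem crit (hd : 1 ≤ d) : ∃ C : ℝ, 0 < C ∧
    ∀ (Cv : ℝ≥0∞ → Set (Fin d → ℝ) → Prop) (Λ : ℝ≥0∞), Vel d Λ Cv → (∀ m, Cv m ∅) →
    ∀ (f : EuclideanSpace ℝ (Fin (d + 1)) → ℝ) (M : ℝ≥0∞) (δ : ℝ), Measurable f →
    ASlicedBy Cv M f → 1 ≤ Λ → 1 ≤ M → 0 < δ → δ < 1 →
    ∫⁻ e : sphere (0 : EuclideanSpace ℝ (Fin (d + 1))) 1, kakeyaMax δ f e ^ (d + 1)
      ∂(surf (d + 1)) ≤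
      ENNReal.ofReal (C * (1 + Real.log (1 / δ)) ^ (2 * d + 3)) *
        (Λ * M * ∫⁻ x, ‖f x‖ₑ ^ (d + 1)) := by
  obtain ⟨C1, hC1, hstrong⟩ := kakeya_strong d
  obtain ⟨c, hc, htriv⟩ := kakeya_trivial hd
  have hfin : IsFiniteMeasure (surf (d + 1)) := by unfold surf; infer_instance
  set σ : ℝ := (surf (d + 1) univ).toReal with hσ
  have hσ0 : 0 ≤ σ := ENNReal.toReal_nonneg
  have hσeq : surf (d + 1) univ = ENNReal.ofReal σ := (ENNReal.ofReal_toReal (measure_ne_top _ _)).symm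
  set C2 : ℝ := max C1 1 with hC2
  have hC21 : 1 ≤ C2 := le_max_right _ _
  have hC12 : C1 ≤ C2 := le_max_left _ _
  have hKd := Kd_pos hd
  set K1 : ℝ := σ + 3 * (C2 ^ (d + 2) * (2 * (d + 1)) * Kd d) with hK1
  have hK10 : 0 ≤ K1 := by positivity
  refine ⟨2 ^ (d + 1) * (K1 + c ^ (d + 1) * σ) + c * ((d + 1) * 2 ^ (d + 1)), by positivity, ?_⟩
  intro Cv Λ hV hE f M δ hf hcov hN hM hδ hδ1
  have hlog : 0 ≤ Real.log (1 / δ) := Real.log_nonneg (by rw [le_div_iff₀ hδ]; linarith)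
  set L : ℝ := 1 + Real.log (1 / δ) with hL
  have hL1 : 1 ≤ L := by linarith
  have hL0 : 0 < L := by linarith
  set I0 : ℝ≥0∞ := ∫⁻ x, ‖f x‖ₑ ^ (d + 1) with hI0
  have hNM : 1 ≤ Λ * M := by
    calc (1:ℝ≥0∞) = 1 * 1 := (one_mul 1).symm
      _ ≤ _ := mul_le_mul' hN hM
  set C : ℝ := 2 ^ (d + 1) * (K1 + c ^ (d + 1) * σ) + c * ((d + 1) * 2 ^ (d + 1)) with hCdef
  have hCpos : 0 < C := by positivity
  by_cases hItop : I0 = ∞
  · rw [hItop, ENNReal.mul_top (by intro h; rw [h] at hNM; simp at hNM), ENNReal.mul_top]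
    · exact le_top
    · simp only [ne_eq, ENNReal.ofReal_eq_zero, not_le]; positivity
  by_cases hI00 : I0 = 0
  · have hae : (fun x => ‖f x‖ₑ ^ (d + 1)) =ᵐ[volume] 0 :=
      (lintegral_eq_zero_iff (hf.enorm.pow_const _)).1 hI00
    have hae2 : (fun x => ‖f x‖ₑ) =ᵐ[volume] 0 := by
      filter_upwards [hae] with x hx
      exact pow_eq_zero_iff (by omega) |>.1 hx
    have h0 : ∀ e, kakeyaMax δ f e = 0 := by
      intro e
      unfold kakeyaMax
      refine le_antisymm (iSup_le fun a => ?_) zero_le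
      have : ∫⁻ y in tube δ e a, ‖f y‖ₑ = 0 := by
        refine le_antisymm ((setLIntegral_le_lintegral _ _).trans ?_) zero_le
        rw [lintegral_congr_ae hae2]; simp
      rw [this, mul_zero]
    simp [h0]
  -- the main case
  set A : ℝ := I0.toReal ^ (1 / ((d:ℝ) + 1)) with hA
  have hIpos : 0 < I0.toReal := ENNReal.toReal_pos hI00 hItop
  have hApos : 0 < A := by positivity
  have hAI : A ^ (d + 1) = I0.toReal := by
    rw [hA, ← Real.rpow_natCast, ← Real.rpow_mul hIpos.le]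
    push_cast
    rw [one_div_mul_cancel (by positivity), Real.rpow_one]
  have hAIe : ENNReal.ofReal (A ^ (d + 1)) = I0 := by rw [hAI, ENNReal.ofReal_toReal hItop]
  set η : ℝ := 1 / L with hη
  have hηpos : 0 < η := by positivity
  have hη1 : η ≤ 1 := by rw [hη, div_le_one hL0]; exact hL1
  set p : ℝ := d + 1 + η with hp
  have hpd : (d:ℝ) + 1 < p := by rw [hp]; linarith
  have hp0 : 0 < p := by rw [hp]; positivity
  set g : EuclideanSpace ℝ (Fin (d + 1)) → ℝ := fun x => min |f x| (A / δ) with hg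
  have hgm : Measurable g := (measurable_norm.comp hf).min measurable_const
  have hr0 : 0 < A / δ := by positivity
  have hg0 : ∀ x, 0 ≤ g x := fun x => le_min (abs_nonneg _) hr0.le
  have hgint : ∫⁻ x, ENNReal.ofReal (g x ^ p) ≤ ENNReal.ofReal ((A / δ) ^ η) * I0 := by
    rw [hI0, ← lintegral_const_mul' _ _ ENNReal.ofReal_ne_top]
    refine lintegral_mono fun x => ?_
    rw [Real.enorm_eq_ofReal_abs, ← ENNReal.ofReal_pow (abs_nonneg _),
      ← ENNReal.ofReal_mul (by positivity)]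
    refine ENNReal.ofReal_le_ofReal ?_
    have h1 : g x ≤ |f x| := min_le_left _ _
    have h2 : g x ≤ A / δ := min_le_right _ _
    rcases (hg0 x).eq_or_lt with h0 | h0
    · rw [← h0, Real.zero_rpow hp0.ne']; positivity
    · calc g x ^ p = g x ^ η * g x ^ (d + 1) := by
            rw [← Real.rpow_natCast, ← Real.rpow_add h0, hp]
            congr 1
            push_cast; ring
        _ ≤ (A / δ) ^ η * |f x| ^ (d + 1) := by gcongr
  set κ : ℝ := δ ^ d with hκ
  have hκpos : 0 < κ := by positivity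
  have hκ1 : κ ≤ 1 := pow_le_one₀ hδ.le hδ1.le
  set S : Set (sphere (0 : EuclideanSpace ℝ (Fin (d + 1))) 1) :=
    {e | κ ≤ |(e : EuclideanSpace ℝ (Fin (d + 1))) 0|} with hS
  set S' : Set (sphere (0 : EuclideanSpace ℝ (Fin (d + 1))) 1) :=
    {e | |(e : EuclideanSpace ℝ (Fin (d + 1))) 0| ≤ κ} with hS'
  have hcover : S ∪ S' = univ := by
    ext e
    simp only [hS, hS', mem_union, mem_ofPred_eq, mem_univ, iff_true]
    exact le_total _ _
  -- the steep part
  have hsteep : ∫⁻ e in S, kakeyaMax δ g e ^ p ∂(surf (d + 1)) ≤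
      ENNReal.ofReal (C2 ^ (d + 2) * (2 * (d + 1) * L) * (Kd d * L ^ (2 * d + 2)) * (A / δ) ^ η) *
        (Λ * M * I0) := by
    have h1 := hstrong Cv Λ hV g M (th d p) p κ δ hgm hg0 (sliced_min hE hcov) (th_pos hd hpd)
      (by rw [qq_th hd]; linarith) hκpos hδ hδ1.le
    have h2 := cP_le hd hηpos hη1
    have h3 : ENNReal.ofReal C1 ^ p ≤ ENNReal.ofReal (C2 ^ (d + 2)) := by
      calc ENNReal.ofReal C1 ^ p ≤ ENNReal.ofReal C2 ^ p :=
            ENNReal.rpow_le_rpow (ENNReal.ofReal_le_ofReal hC12) hp0.le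
        _ ≤ ENNReal.ofReal C2 ^ (((d + 2 : ℕ)) : ℝ) := by
            refine ENNReal.rpow_le_rpow_of_exponent_le ?_ ?_
            · rw [← ENNReal.ofReal_one]; exact ENNReal.ofReal_le_ofReal hC21
            · rw [hp]; push_cast; linarith
        _ = _ := by rw [ENNReal.rpow_natCast, ENNReal.ofReal_pow (by positivity)]
    have h4 : (nsh κ : ℝ≥0∞) ≤ ENNReal.ofReal (2 * (d + 1) * L) := by
      rw [← ENNReal.ofReal_natCast]
      refine ENNReal.ofReal_le_ofReal ((nsh_le hκpos hκ1).trans ?_)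
      have h5 : Real.log (1 / κ) = d * Real.log (1 / δ) := by
        rw [hκ, ← one_div_pow, Real.log_pow]
      rw [h5, hL]
      have : (0:ℝ) ≤ d := by positivity
      nlinarith
    have h6 : Kd d * (1 / η) ^ (2 * d + 2) = Kd d * L ^ (2 * d + 2) := by
      rw [hη, one_div_one_div]
    rw [h6] at h2
    calc _ ≤ _ := h1
      _ ≤ ENNReal.ofReal (C2 ^ (d + 2)) * ENNReal.ofReal (2 * (d + 1) * L) *
          (ENNReal.ofReal (Kd d * L ^ (2 * d + 2)) * Λ * M *
            (ENNReal.ofReal ((A / δ) ^ η) * I0)) := by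
          gcongr
      _ = _ := by
          rw [ENNReal.ofReal_mul (q := (A / δ) ^ η) (by positivity),
            ENNReal.ofReal_mul (q := Kd d * L ^ (2 * d + 2)) (by positivity),
            ENNReal.ofReal_mul (p := C2 ^ (d + 2)) (by positivity)]
          ring
  have hAδ : A ^ (-η) * (A / δ) ^ η = δ ^ (-η) := by
    rw [Real.div_rpow hApos.le hδ.le, Real.rpow_neg hApos.le, Real.rpow_neg hδ.le]
    have h1 : A ^ η ≠ 0 := by positivity
    have h2 : δ ^ η ≠ 0 := by positivity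
    field_simp
  have hδη : δ ^ (-η) ≤ 3 := exp_bound hδ hδ1
  have hSσ : surf (d + 1) S ≤ ENNReal.ofReal σ := by rw [← hσeq]; exact measure_mono (subset_univ _)
  have hI0J : I0 ≤ Λ * M * I0 := by
    calc I0 = 1 * I0 := (one_mul _).symm
      _ ≤ _ := by gcongr
  have hLpow : (1:ℝ) ≤ L ^ (2 * d + 3) := one_le_pow₀ hL1
  have hsteep2 : ∫⁻ e in S, kakeyaMax δ g e ^ (d + 1) ∂(surf (d + 1)) ≤
      ENNReal.ofReal (K1 * L ^ (2 * d + 3)) * (Λ * M * I0) := by
    calc ∫⁻ e in S, kakeyaMax δ g e ^ (d + 1) ∂(surf (d + 1))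
        ≤ ∫⁻ e in S, (ENNReal.ofReal A ^ (d + 1) +
            ENNReal.ofReal (A ^ (-η)) * kakeyaMax δ g e ^ p) ∂(surf (d + 1)) := by
          refine lintegral_mono fun e => ?_
          have := pow_le_add_rpow hApos hηpos (kakeyaMax δ g e) (d + 1)
          push_cast at this
          exact this
      _ = ENNReal.ofReal A ^ (d + 1) * surf (d + 1) S +
            ENNReal.ofReal (A ^ (-η)) * ∫⁻ e in S, kakeyaMax δ g e ^ p ∂(surf (d + 1)) := by
          rw [lintegral_add_left measurable_const, lintegral_const_mul' _ _ ENNReal.ofReal_ne_top,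
            setLIntegral_const]
      _ ≤ I0 * ENNReal.ofReal σ + ENNReal.ofReal (A ^ (-η)) *
            (ENNReal.ofReal (C2 ^ (d + 2) * (2 * (d + 1) * L) * (Kd d * L ^ (2 * d + 2)) *
              (A / δ) ^ η) * (Λ * M * I0)) := by
          rw [← ENNReal.ofReal_pow hApos.le, hAIe]
          gcongr
      _ ≤ ENNReal.ofReal σ * (Λ * M * I0) + ENNReal.ofReal
            (3 * (C2 ^ (d + 2) * (2 * (d + 1) * L) * (Kd d * L ^ (2 * d + 2)))) *
              (Λ * M * I0) := by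
          refine add_le_add ?_ ?_
          · rw [mul_comm]
            gcongr
          · rw [← mul_assoc, ← ENNReal.ofReal_mul (by positivity)]
            refine mul_le_mul_left (ENNReal.ofReal_le_ofReal ?_) _
            have e1 : A ^ (-η) * (C2 ^ (d + 2) * (2 * (d + 1) * L) * (Kd d * L ^ (2 * d + 2)) *
              (A / δ) ^ η) = δ ^ (-η) * (C2 ^ (d + 2) * (2 * (d + 1) * L) *
                (Kd d * L ^ (2 * d + 2))) := by
              rw [← hAδ]; ring
            rw [e1]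
            gcongr
      _ ≤ _ := by
          rw [← add_mul, ← ENNReal.ofReal_add (by positivity) (by positivity)]
          refine mul_le_mul_left (ENNReal.ofReal_le_ofReal ?_) _
          have e2 : 3 * (C2 ^ (d + 2) * (2 * (d + 1) * L) * (Kd d * L ^ (2 * d + 2))) =
              3 * (C2 ^ (d + 2) * (2 * (d + 1)) * Kd d) * L ^ (2 * d + 3) := by
            rw [show 2 * d + 3 = (2 * d + 2) + 1 by ring, pow_succ L (2 * d + 2)]; ring
          rw [e2, hK1, add_mul]
          gcongr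
          exact le_mul_of_one_le_right hσ0 hLpow
  -- the steep part for `f`
  have hsteep3 : ∫⁻ e in S, kakeyaMax δ f e ^ (d + 1) ∂(surf (d + 1)) ≤
      ENNReal.ofReal (2 ^ (d + 1) * (K1 + c ^ (d + 1) * σ) * L ^ (2 * d + 3)) *
        (Λ * M * I0) := by
    calc ∫⁻ e in S, kakeyaMax δ f e ^ (d + 1) ∂(surf (d + 1))
        ≤ ∫⁻ e in S, 2 ^ (d + 1) * (ENNReal.ofReal (c * A) ^ (d + 1) +
            kakeyaMax δ g e ^ (d + 1)) ∂(surf (d + 1)) := by
          refine lintegral_mono fun e => ?_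
          have h1 := split_le hc hδ (htriv δ e f hδ (by simp) hf).1 hf hApos hAIe.ge
          calc kakeyaMax δ f e ^ (d + 1) ≤ (kakeyaMax δ g e + ENNReal.ofReal (c * A)) ^ (d + 1) := by
                gcongr
            _ ≤ 2 ^ (d + 1) * (kakeyaMax δ g e ^ (d + 1) + ENNReal.ofReal (c * A) ^ (d + 1)) :=
                add_two_pow _ _ _
            _ = _ := by rw [add_comm (kakeyaMax δ g e ^ (d + 1))]
      _ = 2 ^ (d + 1) * (ENNReal.ofReal (c * A) ^ (d + 1) * surf (d + 1) S +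
            ∫⁻ e in S, kakeyaMax δ g e ^ (d + 1) ∂(surf (d + 1))) := by
          rw [lintegral_const_mul' _ _ (by finiteness), lintegral_add_left measurable_const,
            setLIntegral_const]
      _ ≤ 2 ^ (d + 1) * (ENNReal.ofReal (c ^ (d + 1) * σ) * (Λ * M * I0) +
            ENNReal.ofReal (K1 * L ^ (2 * d + 3)) * (Λ * M * I0)) := by
          gcongr 2 ^ (d + 1) * (?_ + ?_)
          · calc ENNReal.ofReal (c * A) ^ (d + 1) * surf (d + 1) S
                ≤ (ENNReal.ofReal (c ^ (d + 1)) * I0) * ENNReal.ofReal σ := by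
                  rw [← ENNReal.ofReal_pow (by positivity), mul_pow,
                    ENNReal.ofReal_mul (by positivity), hAIe]
                  gcongr
              _ = ENNReal.ofReal (c ^ (d + 1) * σ) * I0 := by
                  rw [ENNReal.ofReal_mul (by positivity)]; ring
              _ ≤ _ := by gcongr
      _ = ENNReal.ofReal (2 ^ (d + 1) * (c ^ (d + 1) * σ + K1 * L ^ (2 * d + 3))) *
            (Λ * M * I0) := by
          rw [← add_mul, ← ENNReal.ofReal_add (by positivity) (by positivity), ← mul_assoc,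
            ENNReal.ofReal_mul (p := 2 ^ (d + 1)) (by positivity), ENNReal.ofReal_pow (by norm_num)]
          norm_num
      _ ≤ _ := by
          refine mul_le_mul_left (ENNReal.ofReal_le_ofReal ?_) _
          rw [mul_assoc (2 ^ (d + 1) : ℝ)]
          have h9 : 0 ≤ c ^ (d + 1) * σ := by positivity
          have : c ^ (d + 1) * σ ≤ c ^ (d + 1) * σ * L ^ (2 * d + 3) :=
            le_mul_of_one_le_right h9 hLpow
          have h10 : c ^ (d + 1) * σ + K1 * L ^ (2 * d + 3) ≤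
              (K1 + c ^ (d + 1) * σ) * L ^ (2 * d + 3) := by
            rw [add_mul]; linarith
          gcongr
  -- near the equator
  have hflat : ∫⁻ e in S', kakeyaMax δ f e ^ (d + 1) ∂(surf (d + 1)) ≤
      ENNReal.ofReal (c * ((d + 1) * 2 ^ (d + 1)) * L ^ (2 * d + 3)) *
        (Λ * M * I0) := by
    calc ∫⁻ e in S', kakeyaMax δ f e ^ (d + 1) ∂(surf (d + 1))
        ≤ ∫⁻ _e in S', ENNReal.ofReal (c * (δ ^ d)⁻¹) * I0 ∂(surf (d + 1)) :=
          lintegral_mono fun e => (htriv δ e f hδ (by simp) hf).2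
      _ = ENNReal.ofReal (c * (δ ^ d)⁻¹) * I0 * surf (d + 1) S' := by rw [setLIntegral_const]
      _ ≤ ENNReal.ofReal (c * (δ ^ d)⁻¹) * I0 * ENNReal.ofReal ((d + 1) * 2 ^ (d + 1) * κ) := by
          gcongr
          exact surf_equator hκpos
      _ = ENNReal.ofReal (c * ((d + 1) * 2 ^ (d + 1))) * I0 := by
          rw [mul_right_comm, ← ENNReal.ofReal_mul (by positivity)]
          congr 2
          rw [hκ]
          field_simp
      _ ≤ _ := by
          refine mul_le_mul' (ENNReal.ofReal_le_ofReal ?_) hI0J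
          have h9 : 0 ≤ c * (((d:ℝ) + 1) * 2 ^ (d + 1)) := by positivity
          exact le_mul_of_one_le_right h9 hLpow
  calc ∫⁻ e : sphere (0 : EuclideanSpace ℝ (Fin (d + 1))) 1, kakeyaMax δ f e ^ (d + 1)
      ∂(surf (d + 1))
      = ∫⁻ e in S ∪ S', kakeyaMax δ f e ^ (d + 1) ∂(surf (d + 1)) := by
        rw [hcover, Measure.restrict_univ]
    _ ≤ (∫⁻ e in S, kakeyaMax δ f e ^ (d + 1) ∂(surf (d + 1))) +
        ∫⁻ e in S', kakeyaMax δ f e ^ (d + 1) ∂(surf (d + 1)) := lintegral_union_le _ _ _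
    _ ≤ _ := add_le_add hsteep3 hflat
    _ = _ := by
        rw [← add_mul, ← ENNReal.ofReal_add (by positivity) (by positivity), ← add_mul]

/-- Measurable choices of segments, `p > n`. -/
theorem strongSeg (hd : 1 ≤ d) {p : ℝ} (hp : (d:ℝ) + 1 < p) : ∃ C : ℝ, 0 < C ∧
    ∀ (Cv : ℝ≥0∞ → Set (Fin d → ℝ) → Prop) (Λ : ℝ≥0∞), Vel d Λ Cv →
    ∀ (f : EuclideanSpace ℝ (Fin (d + 1)) → ℝ) (M : ℝ≥0∞) (κ : ℝ)
    (b : EuclideanSpace ℝ (Fin (d + 1)) → EuclideanSpace ℝ (Fin (d + 1))), Measurable f →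
    ASlicedBy Cv M f → 0 < κ → κ ≤ 1 → Measurable b →
    ∫⁻ e in {e : sphere (0 : EuclideanSpace ℝ (Fin (d + 1))) 1 |
      κ ≤ |(e : EuclideanSpace ℝ (Fin (d + 1))) 0|},
      (∫⁻ s in Icc (-(1 / 2) : ℝ) (1 / 2),
          ‖f (b e + s • (e : EuclideanSpace ℝ (Fin (d + 1))))‖ₑ) ^ p ∂(surf (d + 1)) ≤
      ENNReal.ofReal (C * (1 + Real.log (1 / κ))) * (Λ * M * ∫⁻ x, ‖f x‖ₑ ^ p) := by
  have hp0 : 0 < p := by
    have : (0:ℝ) ≤ d := by positivity
    linarith
  set K : ℝ := (cP d (th d p) p).toReal with hK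
  have hKt := cP_ne_top (d := d) (p := p) (th_pos hd hp)
  have hK0 : 0 ≤ K := ENNReal.toReal_nonneg
  refine ⟨2 * (4 * (d + 1) * 2 ^ p) * (K + 1), by positivity, ?_⟩
  intro Cv Λ hV f M κ b hf hcov hκ hκ1 hb
  have hlog : 0 ≤ Real.log (1 / κ) := Real.log_nonneg (by rw [le_div_iff₀ hκ]; linarith)
  have h := steep_seg hV (f := fun x => |f x|) (measurable_norm.comp hf) (fun x => abs_nonneg _) hcov
    hb (th_pos hd hp) (p := p) (by rw [qq_th hd]; linarith) hκ
  have hen : ∀ x, ENNReal.ofReal (|f x| ^ p) = ‖f x‖ₑ ^ p := by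
    intro x
    rw [← ENNReal.ofReal_rpow_of_nonneg (abs_nonneg _) hp0.le, ← Real.enorm_eq_ofReal_abs]
  have hen2 : ∀ x, ENNReal.ofReal (|f x|) = ‖f x‖ₑ := fun x => (Real.enorm_eq_ofReal_abs _).symm
  simp_rw [hen, hen2] at h
  refine h.trans ?_
  calc (nsh κ : ℝ≥0∞) * (4 * (d + 1) * 2 ^ p *
        (cP d (th d p) p * Λ * M * ∫⁻ x, ‖f x‖ₑ ^ p))
      = (nsh κ : ℝ≥0∞) * (4 * (d + 1) * 2 ^ p) * cP d (th d p) p *
        (Λ * M * ∫⁻ x, ‖f x‖ₑ ^ p) := by ring
    _ ≤ _ := by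
        gcongr ?_ * _
        have e1 : (4 * ((d:ℝ≥0∞) + 1) * 2 ^ p) = ENNReal.ofReal (4 * (d + 1) * 2 ^ p) := by
          rw [ENNReal.ofReal_mul (by positivity), ENNReal.ofReal_mul (by positivity),
            ENNReal.ofReal_add (by positivity) (by norm_num), ← ENNReal.ofReal_rpow_of_pos (by norm_num)]
          simp
        rw [e1, ← ENNReal.ofReal_toReal hKt, ← ENNReal.ofReal_natCast,
          ← ENNReal.ofReal_mul (by positivity), ← ENNReal.ofReal_mul (by positivity)]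
        refine ENNReal.ofReal_le_ofReal ?_
        have h1 := nsh_le hκ hκ1
        calc (nsh κ : ℝ) * (4 * (d + 1) * 2 ^ p) * (cP d (th d p) p).toReal
            ≤ (2 * (1 + Real.log (1 / κ))) * (4 * (d + 1) * 2 ^ p) * (K + 1) := by
              gcongr
              linarith
          _ = _ := by ring

end Pool.Agent.TH539.Gen
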