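import Pool.Agent.TH539.Cell

set_option autoImplicit false

/-!
Sets containing segments in many directions, in the coordinates `(height, slice)`.
-/

open MeasureTheory Set ENNReal NNReal Metric
open scoped Pointwise

namespace Pool.Agent.TH539

variable {d : ℕ}

/-- Every closed interval of length `2 h` contains a cell of the grid `h ℤ`. -/
lemma exists_cell {h : ℝ} (hh : 0 < h) (a : ℝ) :
    ∃ k : ℤ, Icc ((k:ℝ) * h) (((k:ℝ) + 1) * h) ⊆ Icc a (a + 2 * h) := by
  refine ⟨⌈a / h⌉, ?_⟩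
  have h1 : a / h ≤ (⌈a / h⌉ : ℝ) := Int.le_ceil _
  have h2 : (⌈a / h⌉ : ℝ) < a / h + 1 := Int.ceil_lt_add_one _
  rw [div_le_iff₀ hh] at h1
  have h3 : (⌈a / h⌉ : ℝ) * h < a + h := by
    calc (⌈a / h⌉ : ℝ) * h < (a / h + 1) * h := by gcongr
      _ = a + h := by field_simp
  rintro t ⟨ht1, ht2⟩
  constructor
  · linarith
  · have : ((⌈a / h⌉ : ℝ) + 1) * h = (⌈a / h⌉ : ℝ) * h + h := by ring
    linarith

/-- **Affine form of the theorem.** -/
lemma volume_velocities_global {K : ℝ → Set (Fin d → ℝ)} {G : Set ℝ} {θ h : ℝ} (hh : 0 < h)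
    (hθ : 0 < θ)
    (hG : ∀ k : ℤ, (∀ t ∈ Icc ((k:ℝ) * h) (((k:ℝ) + 1) * h), (K t).Nonempty) →
      ENNReal.ofReal θ ≤ volume (G ∩ Ioc ((k:ℝ) * h) (((k:ℝ) + 1) * h)))
    {N : ℕ} {m : ℝ → ℝ≥0∞} (hm : Measurable m) (hcov : ∀ t ∈ G, ConvexCover N (m t) (K t))
    {V : Set (Fin d → ℝ)}
    (hV : ∀ v ∈ V, ∃ (q : Fin d → ℝ) (a : ℝ), ∀ t ∈ Icc a (a + 2 * h), q + t • v ∈ K t) :
    volume V ≤ cst d * ENNReal.ofReal (θ⁻¹) ^ (d + 1) * (N:ℝ≥0∞) ^ d * ∫⁻ t, m t := by
  set X : ℤ → Set (Fin d → ℝ) := fun k => {v : Fin d → ℝ | ∃ q : Fin d → ℝ,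
    ∀ t ∈ Icc ((k:ℝ) * h) (((k:ℝ) + 1) * h), q + t • v ∈ K t} with hX
  have hsub : V ⊆ ⋃ k, X k := by
    intro v hv
    obtain ⟨q, a, hqa⟩ := hV v hv
    obtain ⟨k, hk⟩ := exists_cell hh a
    exact mem_iUnion.2 ⟨k, q, fun t ht => hqa t (hk ht)⟩
  have hXk : ∀ k, volume (X k) ≤ cst d * ENNReal.ofReal (θ⁻¹) ^ (d + 1) * (N:ℝ≥0∞) ^ d *
      ∫⁻ t in Ioc ((k:ℝ) * h) (((k:ℝ) + 1) * h), m t := by
    intro k
    rcases (X k).eq_empty_or_nonempty with he | ⟨v, q, hq⟩
    · rw [he, measure_empty]; exact zero_le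
    · refine le_trans (measure_mono ?_) (volume_cell_le (a := (k:ℝ) * h) (b := ((k:ℝ) + 1) * h)
        (by nlinarith) hθ (hG k fun t ht => ⟨_, hq t ht⟩) hm hcov)
      rintro w ⟨q', hq'⟩
      exact ⟨q', fun t ht => hq' t (Ioc_subset_Icc_self ht)⟩
  calc volume V ≤ volume (⋃ k, X k) := measure_mono hsub
    _ ≤ ∑' k, volume (X k) := measure_iUnion_le _
    _ ≤ ∑' k : ℤ, cst d * ENNReal.ofReal (θ⁻¹) ^ (d + 1) * (N:ℝ≥0∞) ^ d *
      ∫⁻ t in Ioc ((k:ℝ) * h) (((k:ℝ) + 1) * h), m t := ENNReal.tsum_le_tsum hXk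
    _ = cst d * ENNReal.ofReal (θ⁻¹) ^ (d + 1) * (N:ℝ≥0∞) ^ d *
      ∑' k : ℤ, ∫⁻ t in Ioc ((k:ℝ) * h) (((k:ℝ) + 1) * h), m t := ENNReal.tsum_mul_left
    _ = _ := by
        congr 1
        have hun : (⋃ k : ℤ, Ioc ((k:ℝ) * h) (((k:ℝ) + 1) * h)) = univ := by
          have := iUnion_Ioc_zsmul (α := ℝ) hh
          simpa [zsmul_eq_mul] using this
        have hdis : Pairwise (Function.onFun Disjoint
            fun k : ℤ => Ioc ((k:ℝ) * h) (((k:ℝ) + 1) * h)) := by
          have := pairwise_disjoint_Ioc_zsmul (α := ℝ) h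
          simpa [zsmul_eq_mul] using this
        rw [← lintegral_iUnion (fun _ => measurableSet_Ioc) hdis, hun, Measure.restrict_univ]

/-- The velocity of a direction. -/
noncomputable def vel (x : EuclideanSpace ℝ (Fin (d + 1))) : Fin d → ℝ := fun i => x i.succ / x 0

lemma measurable_vel : Measurable (vel : EuclideanSpace ℝ (Fin (d + 1)) → (Fin d → ℝ)) := by
  unfold vel
  fun_prop

lemma volume_cone_le {V : Set (Fin d → ℝ)} (hV : MeasurableSet V) :
    volume {x : EuclideanSpace ℝ (Fin (d + 1)) | |x 0| ≤ 1 ∧ x 0 ≠ 0 ∧ vel x ∈ V} ≤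
      2 * volume V := by
  set A : Set (ℝ × (Fin d → ℝ)) := {p | |p.1| ≤ 1 ∧ p.1 ≠ 0 ∧ p.1⁻¹ • p.2 ∈ V} with hA
  have hAm : MeasurableSet A := by
    have e1 : Measurable fun p : ℝ × (Fin d → ℝ) => |p.1| := by fun_prop
    have e2 : Measurable fun p : ℝ × (Fin d → ℝ) => p.1 := by fun_prop
    have e3 : Measurable fun p : ℝ × (Fin d → ℝ) => p.1⁻¹ • p.2 := by fun_prop
    refine MeasurableSet.inter (measurableSet_le e1 measurable_const)
      (MeasurableSet.inter (measurableSet_eq_fun e2 measurable_const).compl (hV.preimage e3))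
  have h1 := (PiLp.volume_preserving_ofLp (Fin (d + 1)))
  have h2 := volume_preserving_piFinSuccAbove (fun _ : Fin (d + 1) => ℝ) 0
  have h3 := h2.comp h1
  have hpre : {x : EuclideanSpace ℝ (Fin (d + 1)) | |x 0| ≤ 1 ∧ x 0 ≠ 0 ∧ vel x ∈ V} =
      (MeasurableEquiv.piFinSuccAbove (fun _ : Fin (d + 1) => ℝ) 0 ∘ @WithLp.ofLp 2 (Fin (d+1) → ℝ)) ⁻¹' A := by
    ext x
    simp only [hA, mem_ofPred_eq, mem_preimage, Function.comp_apply,
      MeasurableEquiv.piFinSuccAbove_apply]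
    have : vel x = (x 0)⁻¹ • fun j : Fin d => x j.succ := by
      ext j; simp [vel, div_eq_inv_mul]
    rw [this]
    rfl
  rw [hpre, h3.measure_preimage hAm.nullMeasurableSet]
  have hprod : volume A = ∫⁻ s, volume (Prod.mk s ⁻¹' A) := Measure.prod_apply hAm
  have hbound : ∀ s : ℝ, volume (Prod.mk s ⁻¹' A) ≤
      (Icc (-1:ℝ) 1).indicator (fun _ => volume V) s := by
    intro s
    by_cases hs : s ∈ Icc (-1:ℝ) 1
    · rw [indicator_of_mem hs]
      by_cases hs0 : s = 0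
      · have : Prod.mk s ⁻¹' A = ∅ := by
          ext y; simp [hA, hs0]
        rw [this, measure_empty]; exact zero_le
      · have hsub : Prod.mk s ⁻¹' A ⊆ (fun y : Fin d → ℝ => s⁻¹ • y) ⁻¹' V := by
          intro y hy
          exact hy.2.2
        refine (measure_mono hsub).trans ?_
        rw [Measure.addHaar_preimage_smul volume (inv_ne_zero hs0)]
        have hs1 : |s| ≤ 1 := abs_le.2 hs
        have : ENNReal.ofReal |((s⁻¹) ^ Module.finrank ℝ (Fin d → ℝ))⁻¹| ≤ 1 := by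
          rw [inv_pow, inv_inv, abs_pow]
          exact ENNReal.ofReal_le_one.2 (pow_le_one₀ (abs_nonneg _) hs1)
        calc _ ≤ 1 * volume V := by gcongr
          _ = volume V := one_mul _
    · have : Prod.mk s ⁻¹' A = ∅ := by
        ext y
        simp only [hA, mem_preimage, mem_ofPred_eq, mem_empty_iff_false, iff_false, not_and]
        intro h
        exact absurd (abs_le.1 h) hs
      rw [this, measure_empty]; exact zero_le
  rw [hprod]
  calc ∫⁻ s, volume (Prod.mk s ⁻¹' A) ≤ ∫⁻ s, (Icc (-1:ℝ) 1).indicator (fun _ => volume V) s :=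
        lintegral_mono hbound
    _ = 2 * volume V := by
        rw [lintegral_indicator measurableSet_Icc, setLIntegral_const, Real.volume_Icc, mul_comm]
        norm_num

/-- The surface measure of the unit sphere. -/
noncomputable def surf (n : ℕ) : Measure (sphere (0 : EuclideanSpace ℝ (Fin n)) 1) :=
  (volume : Measure (EuclideanSpace ℝ (Fin n))).toSphere

lemma surf_le {S : Set (sphere (0 : EuclideanSpace ℝ (Fin (d + 1))) 1)}
    (hS : ∀ e ∈ S, (e : EuclideanSpace ℝ (Fin (d + 1))) 0 ≠ 0) :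
    surf (d + 1) S ≤ 2 * (d + 1) *
      volume ((fun e : sphere (0 : EuclideanSpace ℝ (Fin (d + 1))) 1 =>
        vel (e : EuclideanSpace ℝ (Fin (d + 1)))) '' S) := by
  set V := toMeasurable volume ((fun e : sphere (0 : EuclideanSpace ℝ (Fin (d + 1))) 1 =>
        vel (e : EuclideanSpace ℝ (Fin (d + 1)))) '' S) with hV
  have hVm : MeasurableSet V := measurableSet_toMeasurable _ _
  set S' : Set (sphere (0 : EuclideanSpace ℝ (Fin (d + 1))) 1) :=
    {e | (e : EuclideanSpace ℝ (Fin (d + 1))) 0 ≠ 0 ∧ vel (e : EuclideanSpace ℝ (Fin (d + 1))) ∈ V}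
    with hS'
  have hS'm : MeasurableSet S' := by
    refine MeasurableSet.inter ?_ ?_
    · refine (measurableSet_eq_fun ?_ measurable_const).compl
      have : Measurable fun x : EuclideanSpace ℝ (Fin (d + 1)) => x 0 := by fun_prop
      exact this.comp measurable_subtype_coe
    · exact (measurable_vel.comp measurable_subtype_coe) hVm
  have hSS' : S ⊆ S' := fun e he => ⟨hS e he, subset_toMeasurable _ _ ⟨e, he, rfl⟩⟩
  have hcone : Ioo (0:ℝ) 1 • ((↑) '' S' : Set (EuclideanSpace ℝ (Fin (d + 1)))) ⊆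
      {x : EuclideanSpace ℝ (Fin (d + 1)) | |x 0| ≤ 1 ∧ x 0 ≠ 0 ∧ vel x ∈ V} := by
    rintro _ ⟨r, hr, _, ⟨e, he, rfl⟩, rfl⟩
    have hr0 : r ≠ 0 := hr.1.ne'
    have hnorm : ‖(e : EuclideanSpace ℝ (Fin (d + 1)))‖ = 1 := by simp
    have he0 : |(e : EuclideanSpace ℝ (Fin (d + 1))) 0| ≤ 1 := by
      have := PiLp.norm_apply_le (e : EuclideanSpace ℝ (Fin (d + 1))) 0
      rw [hnorm] at this
      simpa using this
    refine ⟨?_, ?_, ?_⟩
    · simp only [PiLp.smul_apply, smul_eq_mul, abs_mul, abs_of_pos hr.1]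
      calc r * |(e : EuclideanSpace ℝ (Fin (d + 1))) 0| ≤ 1 * 1 := by
            gcongr
            exact hr.2.le
        _ = 1 := one_mul 1
    · simpa using ⟨hr0, he.1⟩
    · have : vel (r • (e : EuclideanSpace ℝ (Fin (d + 1)))) =
          vel (e : EuclideanSpace ℝ (Fin (d + 1))) := by
        ext j
        simp only [vel, PiLp.smul_apply, smul_eq_mul]
        rw [mul_div_mul_left _ _ hr0]
      simp only [this]
      exact he.2
  calc surf (d + 1) S ≤ surf (d + 1) S' := measure_mono hSS'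
    _ = ((d + 1 : ℕ) : ℝ≥0∞) *
        volume (Ioo (0:ℝ) 1 • ((↑) '' S' : Set (EuclideanSpace ℝ (Fin (d + 1))))) := by
        unfold surf
        rw [Measure.toSphere_apply' _ hS'm, finrank_euclideanSpace_fin]
    _ ≤ ((d + 1 : ℕ) : ℝ≥0∞) * (2 * volume V) := by
        gcongr
        exact (measure_mono hcone).trans (volume_cone_le hVm)
    _ = _ := by
        rw [hV, measure_toMeasurable]
        push_cast
        ring

end Pool.Agent.TH539
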