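import Pool.Agent.TH539.Global

set_option autoImplicit false

/-!
Kakeya sets whose slices are covered by few convex sets.
-/

open MeasureTheory Set ENNReal NNReal Metric
open scoped Pointwise

namespace Pool.Agent.TH539

variable {d : ℕ}

/-- The slice of `K` at height `t`. -/
def slice (K : Set (EuclideanSpace ℝ (Fin (d + 1)))) (t : ℝ) : Set (Fin d → ℝ) :=
  {y | WithLp.toLp 2 (Fin.cons t y : Fin (d + 1) → ℝ) ∈ K}

/-- `G` has measure at least `θ` in every interval of length `1 / 4` over which `K` has no empty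
slice. -/
def Thick (K : Set (EuclideanSpace ℝ (Fin (d + 1)))) (θ : ℝ) (G : Set ℝ) : Prop :=
  ∀ a : ℝ, (∀ t ∈ Icc a (a + 1 / 4), (slice K t).Nonempty) →
    ENNReal.ofReal θ ≤ volume (G ∩ Icc a (a + 1 / 4))

/-- A unit segment in a direction `e` with `|e 0| ≥ 1 / 2`, parametrized by height. -/
lemma segment_height {K : Set (EuclideanSpace ℝ (Fin (d + 1)))} {e z : EuclideanSpace ℝ (Fin (d + 1))}
    (he : 1 / 2 ≤ |e 0|) (hz : ∀ s ∈ Icc (0:ℝ) 1, z + s • e ∈ K) :
    ∃ (q : Fin d → ℝ) (a : ℝ), ∀ t ∈ Icc a (a + 2 * (1 / 4)), q + t • vel e ∈ slice K t := by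
  have he0 : e 0 ≠ 0 := by
    intro h; rw [h, abs_zero] at he; linarith
  refine ⟨(fun i => z i.succ) - z 0 • vel e, min (z 0) (z 0 + e 0), ?_⟩
  intro t ht
  have hs : (t - z 0) / e 0 ∈ Icc (0:ℝ) 1 := by
    rcases lt_or_gt_of_ne he0 with hneg | hpos
    · rw [abs_of_neg hneg] at he
      rw [min_eq_right (by linarith)] at ht
      constructor
      · exact div_nonneg_of_nonpos (by linarith [ht.2]) hneg.le
      · rw [div_le_one_of_neg hneg]; linarith [ht.1]
    · rw [abs_of_pos hpos] at he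
      rw [min_eq_left (by linarith)] at ht
      constructor
      · exact div_nonneg (by linarith [ht.1]) hpos.le
      · rw [div_le_one hpos]; linarith [ht.2]
  have hmem := hz _ hs
  have heq : z + ((t - z 0) / e 0) • e = WithLp.toLp 2 (Fin.cons t
      ((fun i => z i.succ) - z 0 • vel e + t • vel e) : Fin (d + 1) → ℝ) := by
    ext i
    refine Fin.cases ?_ (fun i => ?_) i
    · simp only [PiLp.add_apply, PiLp.smul_apply, smul_eq_mul, Fin.cons_zero]
      field_simp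
      ring
    · simp only [PiLp.add_apply, PiLp.smul_apply, smul_eq_mul, Fin.cons_succ, Pi.add_apply,
        Pi.sub_apply, Pi.smul_apply, vel]
      field_simp
      ring
  rw [heq] at hmem
  exact hmem

/-- The constant of the theorem. -/
noncomputable def cst' (d : ℕ) : ℝ≥0∞ := 2 * (d + 1) * cst d

lemma cst'_ne_top (d : ℕ) : cst' d ≠ ∞ := by
  unfold cst'
  have h : ((d:ℝ≥0∞)) ≠ ∞ := ENNReal.natCast_ne_top d
  exact ENNReal.mul_ne_top (by finiteness) (cst_ne_top d)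

/-- **Main inequality.** -/
theorem main_ineq {K : Set (EuclideanSpace ℝ (Fin (d + 1)))}
    {S : Set (sphere (0 : EuclideanSpace ℝ (Fin (d + 1))) 1)}
    (hS : ∀ e ∈ S, 1 / 2 ≤ |(e : EuclideanSpace ℝ (Fin (d + 1))) 0|)
    (hK : ∀ e ∈ S, ∃ z : EuclideanSpace ℝ (Fin (d + 1)),
      ∀ s ∈ Icc (0:ℝ) 1, z + s • (e : EuclideanSpace ℝ (Fin (d + 1))) ∈ K)
    {θ : ℝ} (hθ : 0 < θ) {G : Set ℝ} (hG : Thick K θ G) {N : ℕ} {m : ℝ → ℝ≥0∞}
    (hm : Measurable m) (hcov : ∀ t ∈ G, ConvexCover N (m t) (slice K t)) :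
    surf (d + 1) S ≤ cst' d * ENNReal.ofReal (θ⁻¹) ^ (d + 1) * (N:ℝ≥0∞) ^ d * ∫⁻ t, m t := by
  have hne : ∀ e ∈ S, (e : EuclideanSpace ℝ (Fin (d + 1))) 0 ≠ 0 := by
    intro e he h
    have := hS e he
    rw [h, abs_zero] at this
    linarith
  have h1 := volume_velocities_global (K := slice K) (G := G) (h := 1 / 4) (by norm_num) hθ (by
    intro k hk
    have heq : ((k:ℝ) + 1) * (1 / 4) = (k:ℝ) * (1 / 4) + 1 / 4 := by ring
    rw [heq] at hk ⊢
    refine (hG _ hk).trans (le_of_eq ?_)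
    refine measure_congr ?_
    exact (ae_eq_refl G).inter (Ioc_ae_eq_Icc (μ := volume)).symm) hm hcov
    (V := (fun e : sphere (0 : EuclideanSpace ℝ (Fin (d + 1))) 1 =>
        vel (e : EuclideanSpace ℝ (Fin (d + 1)))) '' S) (by
    rintro _ ⟨e, he, rfl⟩
    obtain ⟨z, hz⟩ := hK e he
    exact segment_height (hS e he) hz)
  calc surf (d + 1) S ≤ _ := surf_le hne
    _ ≤ 2 * (d + 1) * (cst d * ENNReal.ofReal (θ⁻¹) ^ (d + 1) * (N:ℝ≥0∞) ^ d * ∫⁻ t, m t) := by
        gcongr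
    _ = _ := by rw [cst']; ring

/-- Volumes of slices. -/
lemma measurable_volume_slice {K : Set (EuclideanSpace ℝ (Fin (d + 1)))} (hK : MeasurableSet K) :
    Measurable (fun t => volume (slice K t)) ∧ ∫⁻ t, volume (slice K t) = volume K := by
  set F : ℝ × (Fin d → ℝ) → EuclideanSpace ℝ (Fin (d + 1)) :=
    fun p => WithLp.toLp 2 (Fin.cons p.1 p.2 : Fin (d + 1) → ℝ) with hF
  have h2 := (volume_preserving_piFinSuccAbove (fun _ : Fin (d + 1) => ℝ) 0).symm
  have h1 := PiLp.volume_preserving_toLp (Fin (d + 1))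
  have h3 := h1.comp h2
  have hFeq : (@WithLp.toLp 2 (Fin (d+1) → ℝ)) ∘
      (MeasurableEquiv.piFinSuccAbove (fun _ : Fin (d + 1) => ℝ) 0).symm = F := by
    funext p
    simp only [Function.comp_apply, hF, MeasurableEquiv.piFinSuccAbove_symm_apply]
    congr 1
    funext j
    rw [Fin.insertNthEquiv_apply, Fin.insertNth_zero']
  rw [hFeq] at h3
  have hA : MeasurableSet (F ⁻¹' K) := h3.measurable hK
  have hs : ∀ t, slice K t = Prod.mk t ⁻¹' (F ⁻¹' K) := fun t => rfl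
  constructor
  · simp_rw [hs]
    exact measurable_measure_prodMk_left hA
  · simp_rw [hs]
    rw [← h3.measure_preimage hK.nullMeasurableSet]
    exact (Measure.prod_apply hA).symm

/-- The set of directions making an angle of at most `60°` with the height axis has positive
measure. -/
lemma surf_pos (d : ℕ) : surf (d + 1) {e | 1 / 2 ≤ |(e : EuclideanSpace ℝ (Fin (d + 1))) 0|} ≠ 0 := by
  have hopen : IsOpen {e : sphere (0 : EuclideanSpace ℝ (Fin (d + 1))) 1 |
      1 / 2 < |(e : EuclideanSpace ℝ (Fin (d + 1))) 0|} := by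
    have hc : Continuous fun e : sphere (0 : EuclideanSpace ℝ (Fin (d + 1))) 1 =>
      |(e : EuclideanSpace ℝ (Fin (d + 1))) 0| := by fun_prop
    exact isOpen_lt continuous_const hc
  have hne : {e : sphere (0 : EuclideanSpace ℝ (Fin (d + 1))) 1 |
      1 / 2 < |(e : EuclideanSpace ℝ (Fin (d + 1))) 0|}.Nonempty := by
    refine ⟨⟨EuclideanSpace.single 0 1, by simp⟩, ?_⟩
    norm_num
  have hpos : 0 < surf (d + 1) {e : sphere (0 : EuclideanSpace ℝ (Fin (d + 1))) 1 |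
      1 / 2 < |(e : EuclideanSpace ℝ (Fin (d + 1))) 0|} := by
    unfold surf
    exact hopen.measure_pos _ hne
  refine (lt_of_lt_of_le hpos (measure_mono ?_)).ne'
  intro e he
  have he' : 1 / 2 < |(e : EuclideanSpace ℝ (Fin (d + 1))) 0| := he
  exact he'.le

/-- `A` is the union of `N` convex sets. -/
def UnionOfConvex (N : ℕ) (A : Set (Fin d → ℝ)) : Prop :=
  ∃ C : Fin N → Set (Fin d → ℝ), (∀ j, Convex ℝ (C j)) ∧ A = ⋃ j, C j

lemma UnionOfConvex.mono {N M : ℕ} (h : N ≤ M) {A : Set (Fin d → ℝ)} (hA : UnionOfConvex N A) :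
    UnionOfConvex M A := by
  obtain ⟨C, hC, rfl⟩ := hA
  refine ⟨fun j => if hj : (j:ℕ) < N then C ⟨j, hj⟩ else ∅, ?_, ?_⟩
  · intro j
    by_cases hj : (j:ℕ) < N
    · simp only [hj, dif_pos]; exact hC _
    · simp only [hj, dif_neg, not_false_iff]; exact convex_empty
  · ext x
    simp only [mem_iUnion]
    constructor
    · rintro ⟨j, hj⟩
      refine ⟨⟨j, lt_of_lt_of_le j.isLt h⟩, ?_⟩
      simpa using hj
    · rintro ⟨j, hj⟩
      by_cases hj' : (j:ℕ) < N
      · simp only [hj', dif_pos] at hj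
        exact ⟨_, hj⟩
      · simp [hj'] at hj

lemma UnionOfConvex.cover {N : ℕ} {A B : Set (Fin d → ℝ)} (hA : UnionOfConvex N A) (hAB : A ⊆ B) :
    ConvexCover N ((N:ℝ≥0∞) * volume B) A := by
  obtain ⟨C, hC, rfl⟩ := hA
  refine ⟨C, hC, le_refl _, ?_⟩
  calc ∑ j, volume (C j) ≤ ∑ _j : Fin N, volume B :=
        Finset.sum_le_sum fun j _ => measure_mono ((subset_iUnion C j).trans hAB)
    _ = _ := by simp

lemma slice_mono {K L : Set (EuclideanSpace ℝ (Fin (d + 1)))} (h : K ⊆ L) (t : ℝ) :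
    slice K t ⊆ slice L t := fun _ hy => h hy

/-- Slices which are unions of `N` convex sets. -/
theorem union_ineq {K : Set (EuclideanSpace ℝ (Fin (d + 1)))}
    {S : Set (sphere (0 : EuclideanSpace ℝ (Fin (d + 1))) 1)}
    (hS : ∀ e ∈ S, 1 / 2 ≤ |(e : EuclideanSpace ℝ (Fin (d + 1))) 0|)
    (hK : ∀ e ∈ S, ∃ z : EuclideanSpace ℝ (Fin (d + 1)),
      ∀ s ∈ Icc (0:ℝ) 1, z + s • (e : EuclideanSpace ℝ (Fin (d + 1))) ∈ K)
    {θ : ℝ} (hθ : 0 < θ) {G : Set ℝ} (hG : Thick K θ G) {N : ℕ}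
    (hcov : ∀ t ∈ G, UnionOfConvex N (slice K t)) :
    surf (d + 1) S ≤ cst' d * ENNReal.ofReal (θ⁻¹) ^ (d + 1) * (N:ℝ≥0∞) ^ (d + 1) * volume K := by
  set L := toMeasurable volume K with hL
  have hLm : MeasurableSet L := measurableSet_toMeasurable _ _
  obtain ⟨h1, h2⟩ := measurable_volume_slice hLm
  have h3 := main_ineq hS hK hθ hG (N := N) (m := fun t => (N:ℝ≥0∞) * volume (slice L t))
    (h1.const_mul _) (fun t ht => (hcov t ht).cover (slice_mono (subset_toMeasurable _ _) t))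
  rw [lintegral_const_mul _ h1, h2, hL, measure_toMeasurable] at h3
  refine h3.trans (le_of_eq ?_)
  ring

/-- Positive measure. -/
theorem positive {K : Set (EuclideanSpace ℝ (Fin (d + 1)))}
    {S : Set (sphere (0 : EuclideanSpace ℝ (Fin (d + 1))) 1)}
    (hS : ∀ e ∈ S, 1 / 2 ≤ |(e : EuclideanSpace ℝ (Fin (d + 1))) 0|)
    (hK : ∀ e ∈ S, ∃ z : EuclideanSpace ℝ (Fin (d + 1)),
      ∀ s ∈ Icc (0:ℝ) 1, z + s • (e : EuclideanSpace ℝ (Fin (d + 1))) ∈ K)
    (hS0 : surf (d + 1) S ≠ 0)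
    (hG : ∀ a : ℝ, (∀ t ∈ Icc a (a + 1 / 4), (slice K t).Nonempty) →
      volume ({t | ∃ N, UnionOfConvex N (slice K t)} ∩ Icc a (a + 1 / 4)) ≠ 0) :
    volume K ≠ 0 := by
  intro hK0
  set L := toMeasurable volume K with hL
  have hLm : MeasurableSet L := measurableSet_toMeasurable _ _
  obtain ⟨h1, h2⟩ := measurable_volume_slice hLm
  rw [hL, measure_toMeasurable, hK0, ← hL] at h2
  have hne : ∀ e ∈ S, (e : EuclideanSpace ℝ (Fin (d + 1))) 0 ≠ 0 := by
    intro e he h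
    have := hS e he
    rw [h, abs_zero] at this
    linarith
  set V : Set (Fin d → ℝ) := (fun e : sphere (0 : EuclideanSpace ℝ (Fin (d + 1))) 1 =>
        vel (e : EuclideanSpace ℝ (Fin (d + 1)))) '' S with hV
  have hV0 : volume V ≠ 0 := by
    intro h
    have := surf_le hne
    rw [← hV, h, mul_zero] at this
    exact hS0 (le_antisymm this zero_le)
  set X : ℤ → Set (Fin d → ℝ) := fun k => {v : Fin d → ℝ | ∃ q : Fin d → ℝ,
    ∀ t ∈ Icc ((k:ℝ) * (1 / 4)) ((k:ℝ) * (1 / 4) + 1 / 4), q + t • v ∈ slice K t} with hX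
  have hsub : V ⊆ ⋃ k, X k := by
    rintro _ ⟨e, he, rfl⟩
    obtain ⟨z, hz⟩ := hK e he
    obtain ⟨q, a, hqa⟩ := segment_height (hS e he) hz
    obtain ⟨k, hk⟩ := exists_cell (show (0:ℝ) < 1 / 4 by norm_num) a
    have heq : ((k:ℝ) + 1) * (1 / 4) = (k:ℝ) * (1 / 4) + 1 / 4 := by ring
    rw [heq] at hk
    exact mem_iUnion.2 ⟨k, q, fun t ht => hqa t (hk ht)⟩
  have hXpos : ∃ k, volume (X k) ≠ 0 := by
    by_contra hcon
    push Not at hcon
    have : volume (⋃ k, X k) = 0 := measure_iUnion_null hcon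
    exact hV0 (measure_mono_null hsub this)
  obtain ⟨k, hk⟩ := hXpos
  obtain ⟨v, q, hq⟩ : (X k).Nonempty := by
    rw [nonempty_iff_ne_empty]
    intro h; rw [h, measure_empty] at hk; exact hk rfl
  set a : ℝ := (k:ℝ) * (1 / 4) with ha
  have hGa := hG a (fun t ht => ⟨_, hq t ht⟩)
  have hun : ({t | ∃ N, UnionOfConvex N (slice K t)} ∩ Icc a (a + 1 / 4)) =
      ⋃ N : ℕ, ({t | UnionOfConvex N (slice K t)} ∩ Icc a (a + 1 / 4)) := by
    ext t
    simp only [mem_inter_iff, mem_iUnion]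
    constructor
    · rintro ⟨⟨N, hN⟩, ht⟩; exact ⟨N, hN, ht⟩
    · rintro ⟨N, hN, ht⟩; exact ⟨⟨N, hN⟩, ht⟩
  have hN : ∃ N : ℕ, volume ({t | UnionOfConvex N (slice K t)} ∩ Icc a (a + 1 / 4)) ≠ 0 := by
    by_contra hcon
    push Not at hcon
    rw [hun] at hGa
    exact hGa (measure_iUnion_null hcon)
  obtain ⟨N, hN⟩ := hN
  have hNtop : volume ({t | UnionOfConvex N (slice K t)} ∩ Icc a (a + 1 / 4)) ≠ ∞ :=
    ne_top_of_le_ne_top (by rw [Real.volume_Icc]; exact ENNReal.ofReal_ne_top)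
      (measure_mono inter_subset_right)
  set θ : ℝ := (volume ({t | UnionOfConvex N (slice K t)} ∩ Icc a (a + 1 / 4))).toReal with hθ
  have hθpos : 0 < θ := ENNReal.toReal_pos hN hNtop
  have hθle : ENNReal.ofReal θ ≤
      volume ({t | UnionOfConvex N (slice K t)} ∩ Ioc a (a + 1 / 4)) := by
    rw [hθ, ENNReal.ofReal_toReal hNtop]
    refine le_of_eq (measure_congr ?_)
    exact (ae_eq_refl _).inter (Ioc_ae_eq_Icc (μ := volume)).symm
  have h4 := volume_cell_le (K := slice K) (a := a) (b := a + 1 / 4) (by linarith) hθpos hθle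
    (N := N) (m := fun t => (N:ℝ≥0∞) * volume (slice L t)) (h1.const_mul _)
    (fun t ht => UnionOfConvex.cover ht (slice_mono (subset_toMeasurable _ _) t))
  have h5 : ∫⁻ t in Ioc a (a + 1 / 4), (N:ℝ≥0∞) * volume (slice L t) = 0 := by
    refine le_antisymm ?_ zero_le
    calc ∫⁻ t in Ioc a (a + 1 / 4), (N:ℝ≥0∞) * volume (slice L t)
        ≤ ∫⁻ t, (N:ℝ≥0∞) * volume (slice L t) := setLIntegral_le_lintegral _ _
      _ = 0 := by rw [lintegral_const_mul _ h1, h2, mul_zero]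
  rw [h5, mul_zero] at h4
  have h6 : X k ⊆ {v : Fin d → ℝ | ∃ q : Fin d → ℝ, ∀ t ∈ Ioc a (a + 1 / 4), q + t • v ∈ slice K t} := by
    rintro w ⟨q', hq'⟩
    exact ⟨q', fun t ht => hq' t (Ioc_subset_Icc_self ht)⟩
  exact hk (le_antisymm ((measure_mono h6).trans h4) zero_le)

/-- Sets of positive volume have full Hausdorff dimension. -/
lemma dimH_of_volume_ne_zero {K : Set (EuclideanSpace ℝ (Fin (d + 1)))} (h : volume K ≠ 0) :
    dimH K = d + 1 := by
  have hinst : (μH[((d + 1 : ℕ) : ℝ)] : Measure (EuclideanSpace ℝ (Fin (d + 1)))).IsAddHaarMeasure :=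
    inferInstance
  have h1 := Measure.isAddLeftInvariant_eq_smul (volume : Measure (EuclideanSpace ℝ (Fin (d + 1))))
    (μH[((d + 1 : ℕ) : ℝ)] : Measure (EuclideanSpace ℝ (Fin (d + 1))))
  have h2 : (μH[((d + 1 : ℕ) : ℝ)] : Measure (EuclideanSpace ℝ (Fin (d + 1)))) K ≠ 0 := by
    intro h0
    rw [h1, Measure.smul_apply, h0, smul_zero] at h
    exact h rfl
  refine le_antisymm ?_ ?_
  · refine (dimH_mono (subset_univ _)).trans ?_
    rw [Real.dimH_univ_eq_finrank, finrank_euclideanSpace_fin]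
    push_cast
    exact le_refl _
  · have h3 := le_dimH_of_hausdorffMeasure_ne_zero (d := ((d + 1 : ℕ) : ℝ≥0)) (s := K) (by
      simpa using h2)
    simpa using h3

end Pool.Agent.TH539
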