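import Pool.Agent.TH539.Kak

set_option autoImplicit false

/-!
Integration over tuples of heights.
-/

open MeasureTheory Set ENNReal NNReal Metric
open scoped Pointwise

namespace Pool.Agent.TH539

variable {d : ℕ}

lemma prod_erase_eq {M : Type*} [CommMonoid M] (f : Fin (d + 1) → M) (k : Fin (d + 1)) :
    ∏ j ∈ Finset.univ.erase k, f j = ∏ j : Fin d, f (k.succAbove j) := by
  classical
  have h : (Finset.univ.erase k : Finset (Fin (d + 1))) =
      Finset.univ.image (fun j : Fin d => k.succAbove j) := by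
    ext j
    simp only [Finset.mem_erase, Finset.mem_univ, and_true, Finset.mem_image, true_and]
    constructor
    · intro hj
      exact Fin.exists_succAbove_eq hj
    · rintro ⟨i, rfl⟩
      exact Fin.succAbove_ne k i
  rw [h, Finset.prod_image]
  intro a _ b _ hab
  exact Fin.succAbove_right_injective hab

/-- Refined bound for covers by `N` convex sets. -/
lemma volume_velocities_cover_le' {t : Fin (d + 1) → ℝ} (ht : Function.Injective t) {N : ℕ}
    {m : Fin (d + 1) → ℝ≥0∞} {A : Fin (d + 1) → Set (Fin d → ℝ)}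
    (hA : ∀ i, ConvexCover N (m i) (A i)) :
    volume {v : Fin d → ℝ | ∃ q : Fin d → ℝ, ∀ i, q + t i • v ∈ A i} ≤
      4 ^ d * (d:ℝ≥0∞) ^ d * (N:ℝ≥0∞) ^ d *
        ∑ i, m i * ∏ j : Fin d, (ENNReal.ofReal |t i - t (i.succAbove j)|)⁻¹ := by
  classical
  choose C hCconv hCcov hCvol using hA
  set w : Fin (d + 1) → ℝ≥0∞ := fun i => ∏ j : Fin d, (ENNReal.ofReal |t i - t (i.succAbove j)|)⁻¹
    with hw
  have hprod : ∀ i, ENNReal.ofReal (∏ k ∈ Finset.univ.erase i, |t i - t k|)⁻¹ = w i := by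
    intro i
    rw [prod_erase_eq (fun k => |t i - t k|) i]
    have hpos : ∀ j : Fin d, 0 < |t i - t (i.succAbove j)| := by
      intro j
      rw [abs_pos, sub_ne_zero]
      intro h
      exact (Fin.succAbove_ne i j) (ht h).symm
    rw [ENNReal.ofReal_inv_of_pos (Finset.prod_pos fun j _ => hpos j),
      ENNReal.ofReal_prod_of_nonneg (fun j _ => (hpos j).le), hw]
    rw [ENNReal.prod_inv_distrib]
    intro i _ j _ _
    exact Or.inr ENNReal.ofReal_ne_top
  have hsub : {v : Fin d → ℝ | ∃ q : Fin d → ℝ, ∀ i, q + t i • v ∈ A i} ⊆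
      ⋃ f : Fin (d + 1) → Fin N,
        {v : Fin d → ℝ | ∃ q : Fin d → ℝ, ∀ i, q + t i • v ∈ C i (f i)} := by
    rintro v ⟨q, hq⟩
    have : ∀ i, ∃ j, q + t i • v ∈ C i j := fun i => by simpa using hCcov i (hq i)
    choose f hf using this
    exact mem_iUnion.2 ⟨f, q, hf⟩
  calc volume {v : Fin d → ℝ | ∃ q : Fin d → ℝ, ∀ i, q + t i • v ∈ A i}
      ≤ _ := measure_mono hsub
    _ ≤ ∑ f : Fin (d + 1) → Fin N,
        volume {v : Fin d → ℝ | ∃ q : Fin d → ℝ, ∀ i, q + t i • v ∈ C i (f i)} :=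
        measure_iUnion_fintype_le _ _
    _ ≤ ∑ f : Fin (d + 1) → Fin N, 4 ^ d * ∑ i, (d:ℝ≥0∞) ^ d * volume (C i (f i)) * w i := by
        refine Finset.sum_le_sum fun f _ => ?_
        refine (volume_velocities_le ht (fun i => hCconv i (f i))).trans (le_of_eq ?_)
        simp_rw [hprod]
    _ = 4 ^ d * (d:ℝ≥0∞) ^ d * ∑ i, w i * ∑ f : Fin (d + 1) → Fin N, volume (C i (f i)) := by
        simp_rw [Finset.mul_sum]
        rw [Finset.sum_comm]
        refine Finset.sum_congr rfl fun f _ => ?_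
        refine Finset.sum_congr rfl fun i _ => ?_
        ring
    _ = 4 ^ d * (d:ℝ≥0∞) ^ d * ∑ i, w i * ((N:ℝ≥0∞) ^ d * ∑ j, volume (C i j)) := by
        congr 1
        refine Finset.sum_congr rfl fun i _ => ?_
        congr 1
        exact sum_fun_coord N i (fun j => volume (C i j))
    _ ≤ 4 ^ d * (d:ℝ≥0∞) ^ d * ∑ i, w i * ((N:ℝ≥0∞) ^ d * m i) := by
        gcongr with i _
        exact hCvol i
    _ = _ := by
        rw [mul_assoc (4 ^ d * (d:ℝ≥0∞) ^ d), Finset.mul_sum (a := (N:ℝ≥0∞) ^ d)]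
        congr 1
        refine Finset.sum_congr rfl fun i _ => ?_
        ring

/-- The kernel. -/
noncomputable def ker (θ : ℝ) (t : Fin (d + 1) → ℝ) : ℝ≥0∞ :=
  ∏ k, ∏ j : Fin d, ENNReal.ofReal |t k - t (k.succAbove j)| ^ θ

lemma measurable_ker (θ : ℝ) : Measurable (ker θ : (Fin (d + 1) → ℝ) → ℝ≥0∞) := by
  unfold ker
  refine Finset.measurable_prod _ fun k _ => ?_
  refine Finset.measurable_prod _ fun j _ => ?_
  fun_prop

lemma ker_ge {θ g : ℝ} (hθ : 0 ≤ θ) {t : Fin (d + 1) → ℝ}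
    (h : ∀ i k, i ≠ k → g ≤ |t i - t k|) :
    (ENNReal.ofReal g ^ θ) ^ ((d + 1) * d) ≤ ker θ t := by
  unfold ker
  calc (ENNReal.ofReal g ^ θ) ^ ((d + 1) * d)
      = ∏ _k : Fin (d + 1), ∏ _j : Fin d, ENNReal.ofReal g ^ θ := by
        simp only [Finset.prod_const, Finset.card_univ, Fintype.card_fin]
        rw [← pow_mul, mul_comm d (d + 1)]
    _ ≤ _ := by
        refine Finset.prod_le_prod' fun k _ => Finset.prod_le_prod' fun j _ => ?_
        exact ENNReal.rpow_le_rpow (ENNReal.ofReal_le_ofReal (h _ _ (Fin.succAbove_ne k j).symm)) hθ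

lemma ker_le {θ : ℝ} (hθ : 0 ≤ θ) {t : Fin (d + 1) → ℝ}
    (h : ∀ i k, |t i - t k| ≤ 1) (k : Fin (d + 1)) :
    ker θ t ≤ ∏ j : Fin d, ENNReal.ofReal |t k - t (k.succAbove j)| ^ θ := by
  unfold ker
  rw [Fin.prod_univ_succAbove _ k]
  refine mul_le_of_le_one_right zero_le ?_
  refine Finset.prod_le_one' fun i _ => Finset.prod_le_one' fun j _ => ?_
  exact ENNReal.rpow_le_one (ENNReal.ofReal_le_one.2 (h _ _)) hθ

/-- `∫ ∏ φ (s j) = (∫ φ) ^ d`. -/
lemma lintegral_prod_pow (d : ℕ) {φ : ℝ → ℝ≥0∞} (hφ : Measurable φ) :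
    ∫⁻ s : Fin d → ℝ, ∏ j, φ (s j) = (∫⁻ x, φ x) ^ d := by
  induction d with
  | zero =>
    simp only [Finset.univ_eq_empty, Finset.prod_empty, lintegral_const, one_mul, pow_zero]
    rw [volume_pi, Measure.pi_of_empty (fun _ : Fin 0 => (volume : Measure ℝ)) (fun i => i.elim0)]
    simp
  | succ d ih =>
    have h := volume_preserving_piFinSuccAbove (fun _ : Fin (d + 1) => ℝ) 0
    have hmeas : Measurable fun s : Fin d → ℝ => ∏ j, φ (s j) :=
      Finset.measurable_prod _ fun j _ => hφ.comp (measurable_pi_apply j)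
    have hm2 : Measurable fun p : ℝ × (Fin d → ℝ) => φ p.1 * ∏ j, φ (p.2 j) :=
      (hφ.comp measurable_fst).mul (hmeas.comp measurable_snd)
    calc ∫⁻ s : Fin (d + 1) → ℝ, ∏ j, φ (s j)
        = ∫⁻ s : Fin (d + 1) → ℝ, (fun p : ℝ × (Fin d → ℝ) => φ p.1 * ∏ j, φ (p.2 j))
            (MeasurableEquiv.piFinSuccAbove (fun _ : Fin (d + 1) => ℝ) 0 s) := by
          refine lintegral_congr fun s => ?_
          rw [Fin.prod_univ_succAbove _ 0]
          rfl
      _ = ∫⁻ p : ℝ × (Fin d → ℝ), φ p.1 * ∏ j, φ (p.2 j) := h.lintegral_comp hm2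
      _ = ∫⁻ x, ∫⁻ s : Fin d → ℝ, φ x * ∏ j, φ (s j) := by
          rw [Measure.volume_eq_prod, lintegral_prod _ hm2.aemeasurable]
      _ = ∫⁻ x, φ x * (∫⁻ y, φ y) ^ d := by
          refine lintegral_congr fun x => ?_
          rw [lintegral_const_mul _ hmeas, ih]
      _ = _ := by
          rw [lintegral_mul_const _ hφ, pow_succ, mul_comm]

/-- The one dimensional kernel. -/
noncomputable def phi (θ : ℝ) (s : ℝ) : ℝ≥0∞ :=
  (Icc (-1:ℝ) 1).indicator (fun s => ENNReal.ofReal (|s| ^ (θ - 1))) s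

lemma measurable_phi (θ : ℝ) : Measurable (phi θ) := by
  unfold phi
  refine Measurable.indicator ?_ measurableSet_Icc
  fun_prop

lemma lintegral_phi {θ : ℝ} (hθ : 0 < θ) : ∫⁻ s, phi θ s = ENNReal.ofReal (2 / θ) := by
  unfold phi
  rw [lintegral_indicator measurableSet_Icc]
  have h1 : ∫⁻ s in Icc (0:ℝ) 1, ENNReal.ofReal (|s| ^ (θ - 1)) = ENNReal.ofReal (1 / θ) := by
    have h2 : ∫⁻ s in Icc (0:ℝ) 1, ENNReal.ofReal (|s| ^ (θ - 1)) =
        ∫⁻ s in Ioc (0:ℝ) 1, ENNReal.ofReal (s ^ (θ - 1)) := by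
      rw [setLIntegral_congr (Ioc_ae_eq_Icc (μ := volume)).symm]
      refine setLIntegral_congr_fun measurableSet_Ioc fun s hs => ?_
      simp only [abs_of_pos hs.1]
    rw [h2, ← ofReal_integral_eq_lintegral_ofReal]
    · rw [← intervalIntegral.integral_of_le zero_le_one, integral_rpow (Or.inl (by linarith))]
      simp [hθ.ne']
    · exact (intervalIntegrable_iff_integrableOn_Ioc_of_le zero_le_one).1
        (intervalIntegral.intervalIntegrable_rpow' (by linarith))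
    · exact (ae_restrict_iff' measurableSet_Ioc).2 (Filter.Eventually.of_forall fun s hs =>
        Real.rpow_nonneg hs.1.le _)
  have h3 : ∫⁻ s in Ico (-1:ℝ) 0, ENNReal.ofReal (|s| ^ (θ - 1)) =
      ∫⁻ s in Icc (0:ℝ) 1, ENNReal.ofReal (|s| ^ (θ - 1)) := by
    rw [setLIntegral_congr (Ioc_ae_eq_Icc (μ := volume) (a := (0:ℝ)) (b := 1)).symm]
    have h4 := (Measure.measurePreserving_neg (volume : Measure ℝ)).setLIntegral_comp_preimage
      (measurableSet_Ioc (a := (0:ℝ)) (b := 1)) (f := fun s => ENNReal.ofReal (|s| ^ (θ - 1)))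
      (by fun_prop)
    rw [← h4]
    have h5 : (fun x : ℝ => -x) ⁻¹' Ioc (0:ℝ) 1 = Ico (-1:ℝ) 0 := by
      ext x
      simp only [mem_preimage, mem_Ioc, mem_Ico]
      constructor
      · rintro ⟨h1, h2⟩; constructor <;> linarith
      · rintro ⟨h1, h2⟩; constructor <;> linarith
    have h6 : Neg.neg ⁻¹' Ioc (0:ℝ) 1 = Ico (-1:ℝ) 0 := h5
    rw [h6]
    simp only [abs_neg]
  have h7 : (Icc (-1:ℝ) 1) = Ico (-1:ℝ) 0 ∪ Icc 0 1 := by
    rw [Ico_union_Icc_eq_Icc (by norm_num) (by norm_num)]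
  rw [h7, lintegral_union measurableSet_Icc (by
    rw [Set.disjoint_left]; intro x hx hx'; exact absurd hx.2 (not_lt.2 hx'.1)), h3, h1,
    ← ENNReal.ofReal_add (by positivity) (by positivity)]
  congr 1
  ring

/-- Integral of the full kernel. -/
lemma lintegral_kernel {θ : ℝ} (hθ : 0 < θ) {m : ℝ → ℝ≥0∞} (hm : Measurable m) (k : Fin (d + 1)) :
    ∫⁻ t : Fin (d + 1) → ℝ, m (t k) * ∏ j : Fin d, phi θ (t k - t (k.succAbove j)) =
      (∫⁻ x, m x) * ENNReal.ofReal (2 / θ) ^ d := by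
  have h := volume_preserving_piFinSuccAbove (fun _ : Fin (d + 1) => ℝ) k
  have hm2 : Measurable fun p : ℝ × (Fin d → ℝ) => m p.1 * ∏ j, phi θ (p.1 - p.2 j) := by
    refine (hm.comp measurable_fst).mul (Finset.measurable_prod _ fun j _ => ?_)
    exact (measurable_phi θ).comp (by fun_prop)
  calc ∫⁻ t : Fin (d + 1) → ℝ, m (t k) * ∏ j : Fin d, phi θ (t k - t (k.succAbove j))
      = ∫⁻ s : Fin (d + 1) → ℝ, (fun p : ℝ × (Fin d → ℝ) => m p.1 * ∏ j, phi θ (p.1 - p.2 j))
            (MeasurableEquiv.piFinSuccAbove (fun _ : Fin (d + 1) => ℝ) k s) := by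
        refine lintegral_congr fun s => ?_
        rfl
    _ = ∫⁻ p : ℝ × (Fin d → ℝ), m p.1 * ∏ j, phi θ (p.1 - p.2 j) := h.lintegral_comp hm2
    _ = ∫⁻ x, ∫⁻ s : Fin d → ℝ, m x * ∏ j, phi θ (x - s j) := by
        rw [Measure.volume_eq_prod, lintegral_prod _ hm2.aemeasurable]
    _ = ∫⁻ x, m x * ENNReal.ofReal (2 / θ) ^ d := by
        refine lintegral_congr fun x => ?_
        have hφx : Measurable fun y => phi θ (x - y) := (measurable_phi θ).comp (by fun_prop)
        have hmp : Measurable fun s : Fin d → ℝ => ∏ j, phi θ (x - s j) :=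
          Finset.measurable_prod _ fun j _ => hφx.comp (measurable_pi_apply j)
        rw [lintegral_const_mul _ hmp, lintegral_prod_pow d hφx,
          lintegral_sub_left_eq_self (fun y => phi θ y) x, lintegral_phi hθ]
    _ = _ := lintegral_mul_const _ hm

end Pool.Agent.TH539
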