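import Pool.Agent.TH539.Tub

set_option autoImplicit false

/-!
The Kakeya maximal function.
-/

open MeasureTheory Set ENNReal NNReal Metric
open scoped Pointwise

namespace Pool.Agent.TH539

variable {d : ℕ}

/-- The closed tube of length `1` and radius `δ` with centre `b` and axis direction `e`. -/
def tube (δ : ℝ) (e b : EuclideanSpace ℝ (Fin (d + 1))) : Set (EuclideanSpace ℝ (Fin (d + 1))) :=
  {y | |inner ℝ (y - b) e| ≤ 1 / 2 ∧ ‖(y - b) - (inner ℝ (y - b) e : ℝ) • e‖ ≤ δ}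

/-- The Kakeya maximal function. -/
noncomputable def kakeyaMax (δ : ℝ) (f : EuclideanSpace ℝ (Fin (d + 1)) → ℝ)
    (e : EuclideanSpace ℝ (Fin (d + 1))) : ℝ≥0∞ :=
  ⨆ a : EuclideanSpace ℝ (Fin (d + 1)), (volume (tube δ e a))⁻¹ * ∫⁻ y in tube δ e a, ‖f y‖ₑ

lemma measurableSet_tube (δ : ℝ) (e b : EuclideanSpace ℝ (Fin (d + 1))) :
    MeasurableSet (tube δ e b) := by
  have h1 : Continuous fun y : EuclideanSpace ℝ (Fin (d + 1)) => |inner ℝ (y - b) e| := by fun_prop
  have h2 : Continuous fun y : EuclideanSpace ℝ (Fin (d + 1)) =>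
    ‖(y - b) - (inner ℝ (y - b) e : ℝ) • e‖ := by fun_prop
  exact ((isClosed_le h1 continuous_const).inter (isClosed_le h2 continuous_const)).measurableSet

lemma tube_le {δ : ℝ} (hδ : 0 < δ) (hδ1 : δ ≤ 1) {e a a' : EuclideanSpace ℝ (Fin (d + 1))}
    (he : ‖e‖ = 1) (haa : ‖a - a'‖ ≤ δ) {F : EuclideanSpace ℝ (Fin (d + 1)) → ℝ≥0∞}
    (hF : Measurable F) :
    ENNReal.ofReal δ * ∫⁻ y in tube δ e a, F y ≤
      ∫⁻ x in closedBall (0 : EuclideanSpace ℝ (Fin (d + 1))) (3 * δ),
        ∫⁻ s in Icc (-(3 / 2) : ℝ) (3 / 2), F (a' + x + s • e) := by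
  set B := closedBall (0 : EuclideanSpace ℝ (Fin (d + 1))) (3 * δ) with hB
  set I := Icc (-(3 / 2) : ℝ) (3 / 2) with hI
  set G : EuclideanSpace ℝ (Fin (d + 1)) → ℝ → ℝ≥0∞ := fun y s =>
    B.indicator 1 (y - a' - s • e) * F y with hG
  have hGm : Measurable (Function.uncurry G) := by
    have h1 : Measurable (B.indicator (1 : EuclideanSpace ℝ (Fin (d + 1)) → ℝ≥0∞)) :=
      measurable_one.indicator measurableSet_closedBall
    have h2 : Measurable fun z : EuclideanSpace ℝ (Fin (d + 1)) × ℝ => z.1 - a' - z.2 • e := by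
      fun_prop
    exact (h1.comp h2).mul (hF.comp measurable_fst)
  have hH : Measurable fun z : EuclideanSpace ℝ (Fin (d + 1)) × ℝ => F (a' + z.1 + z.2 • e) :=
    hF.comp (by fun_prop)
  calc ENNReal.ofReal δ * ∫⁻ y in tube δ e a, F y
      = ∫⁻ y in tube δ e a, ENNReal.ofReal δ * F y := by
        rw [lintegral_const_mul _ hF]
    _ ≤ ∫⁻ y in tube δ e a, ∫⁻ s in I, G y s := by
        refine setLIntegral_mono' (measurableSet_tube δ e a) fun y hy => ?_
        set σ : ℝ := inner ℝ (y - a) e with hσ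
        have h1 : Icc σ (σ + δ) ⊆ I := by
          intro s hs
          have := abs_le.1 hy.1
          exact ⟨by linarith [hs.1, this.1], by linarith [hs.2, this.2]⟩
        have h2 : ∀ s ∈ Icc σ (σ + δ), F y ≤ G y s := by
          intro s hs
          have hmem : y - a' - s • e ∈ B := by
            rw [hB, mem_closedBall, dist_zero_right]
            have h3 : y - a' - s • e = ((y - a) - σ • e) + (σ - s) • e + (a - a') := by
              rw [sub_smul]; abel
            calc ‖y - a' - s • e‖ ≤ ‖(y - a) - σ • e‖ + ‖(σ - s) • e‖ + ‖a - a'‖ := by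
                  rw [h3]; exact norm_add₃_le
              _ ≤ δ + δ + δ := by
                  have h4 : ‖(σ - s) • e‖ ≤ δ := by
                    rw [norm_smul, he, mul_one, Real.norm_eq_abs, abs_le]
                    exact ⟨by linarith [hs.2], by linarith [hs.1]⟩
                  have h5 := hy.2
                  gcongr
              _ = 3 * δ := by ring
          simp only [hG]
          rw [indicator_of_mem hmem]
          simp
        calc ENNReal.ofReal δ * F y = ∫⁻ _s in Icc σ (σ + δ), F y := by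
              rw [setLIntegral_const, Real.volume_Icc, mul_comm]
              congr 2
              ring
          _ ≤ ∫⁻ s in Icc σ (σ + δ), G y s := setLIntegral_mono' measurableSet_Icc h2
          _ ≤ ∫⁻ s in I, G y s := lintegral_mono_set h1
    _ ≤ ∫⁻ y, ∫⁻ s in I, G y s := setLIntegral_le_lintegral _ _
    _ = ∫⁻ s in I, ∫⁻ y, G y s := lintegral_lintegral_swap hGm.aemeasurable
    _ = ∫⁻ s in I, ∫⁻ x in B, F (a' + x + s • e) := by
        refine lintegral_congr fun s => ?_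
        have h1 : ∀ y, G y s = (fun x => B.indicator (fun x => F (a' + x + s • e)) x)
            (y - (a' + s • e)) := by
          intro y
          have e1 : y - (a' + s • e) = y - a' - s • e := by abel
          simp only [hG]
          rw [e1]
          by_cases h : y - a' - s • e ∈ B
          · rw [indicator_of_mem h, indicator_of_mem h]
            simp only [Pi.one_apply, one_mul]
            congr 1
            abel
          · rw [indicator_of_notMem h, indicator_of_notMem h, zero_mul]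
        simp_rw [h1]
        rw [lintegral_sub_right_eq_self (fun x => B.indicator (fun x => F (a' + x + s • e)) x)
          (a' + s • e), lintegral_indicator measurableSet_closedBall]
    _ = _ := by
        rw [lintegral_lintegral_swap]
        exact (hH.comp measurable_swap).aemeasurable

/-- The maximal function is bounded by the averages with centres in a dense sequence. -/
lemma kakeya_le_iSup (d : ℕ) : ∃ C : ℝ, 0 < C ∧ ∀ (δ : ℝ) (e : EuclideanSpace ℝ (Fin (d + 1)))
    (F : EuclideanSpace ℝ (Fin (d + 1)) → ℝ≥0∞), 0 < δ → δ ≤ 1 → ‖e‖ = 1 → Measurable F →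
    ⨆ a, (volume (tube δ e a))⁻¹ * ∫⁻ y in tube δ e a, F y ≤
      ENNReal.ofReal C *
        ⨆ k, ballAvg (3 * δ) F (TopologicalSpace.denseSeq (EuclideanSpace ℝ (Fin (d + 1))) k) e := by
  obtain ⟨c, hc, hvol⟩ := Pool.Agent.H742R2.Kk.volume_tube d
  set β : ℝ := (volume (closedBall (0 : EuclideanSpace ℝ (Fin (d + 1))) 1)).toReal with hβ
  have hβpos : 0 < β := ENNReal.toReal_pos (measure_closedBall_pos _ _ one_pos).ne'
    measure_closedBall_lt_top.ne
  refine ⟨c⁻¹ * 3 ^ (d + 1) * β, by positivity, ?_⟩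
  intro δ e F hδ hδ1 he hF
  refine iSup_le fun a => ?_
  obtain ⟨k, hk⟩ := (TopologicalSpace.denseRange_denseSeq
    (EuclideanSpace ℝ (Fin (d + 1)))).exists_dist_lt a hδ
  set q := TopologicalSpace.denseSeq (EuclideanSpace ℝ (Fin (d + 1))) k with hq
  have hdist : ‖a - q‖ ≤ δ := by rw [← dist_eq_norm]; exact hk.le
  have h1 := tube_le hδ hδ1 he hdist hF
  set B := closedBall (0 : EuclideanSpace ℝ (Fin (d + 1))) (3 * δ) with hB
  have hBvol : volume B = ENNReal.ofReal (3 ^ (d + 1) * β * δ ^ (d + 1)) := by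
    rw [hB, Measure.addHaar_closedBall' volume 0 (by positivity), finrank_euclideanSpace_fin,
      ← ENNReal.ofReal_toReal (a := volume (closedBall (0 : EuclideanSpace ℝ (Fin (d + 1))) 1))
        measure_closedBall_lt_top.ne, ← ENNReal.ofReal_mul (by positivity)]
    congr 1
    rw [mul_pow]; ring
  have hB0 : volume B ≠ 0 := (measure_closedBall_pos _ _ (by positivity)).ne'
  have hBt : volume B ≠ ∞ := measure_closedBall_lt_top.ne
  have h2 : (volume (tube δ e a))⁻¹ ≤ ENNReal.ofReal (c⁻¹ * (δ ^ d)⁻¹) := by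
    calc (volume (tube δ e a))⁻¹ ≤ (ENNReal.ofReal (c * δ ^ d))⁻¹ :=
          ENNReal.inv_le_inv.2 (hvol δ e a hδ he)
      _ = _ := by
          rw [← ENNReal.ofReal_inv_of_pos (by positivity), mul_inv]
  have hδinv : ENNReal.ofReal δ⁻¹ * ENNReal.ofReal δ = 1 := by
    rw [← ENNReal.ofReal_mul (by positivity), inv_mul_cancel₀ hδ.ne', ENNReal.ofReal_one]
  calc (volume (tube δ e a))⁻¹ * ∫⁻ y in tube δ e a, F y
      ≤ ENNReal.ofReal (c⁻¹ * (δ ^ d)⁻¹) * ∫⁻ y in tube δ e a, F y := by gcongr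
    _ = ENNReal.ofReal (c⁻¹ * (δ ^ d)⁻¹) * (ENNReal.ofReal δ⁻¹ * ENNReal.ofReal δ *
          ∫⁻ y in tube δ e a, F y) := by rw [hδinv, one_mul]
    _ ≤ ENNReal.ofReal (c⁻¹ * (δ ^ d)⁻¹) * (ENNReal.ofReal δ⁻¹ *
          ∫⁻ x in B, ∫⁻ s in Icc (-(3 / 2) : ℝ) (3 / 2), F (q + x + s • e)) := by
        rw [mul_assoc (ENNReal.ofReal δ⁻¹)]
        gcongr
    _ = ENNReal.ofReal (c⁻¹ * (δ ^ d)⁻¹) * (ENNReal.ofReal δ⁻¹ *
          (volume B * ballAvg (3 * δ) F q e)) := by
        unfold ballAvg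
        rw [← mul_assoc (volume B), ENNReal.mul_inv_cancel hB0 hBt, one_mul]
    _ = ENNReal.ofReal (c⁻¹ * 3 ^ (d + 1) * β) * ballAvg (3 * δ) F q e := by
        rw [hBvol, ← mul_assoc, ← mul_assoc, ← ENNReal.ofReal_mul (by positivity),
          ← ENNReal.ofReal_mul (by positivity)]
        congr 2
        rw [pow_succ δ d]
        field_simp
    _ ≤ _ := by
        gcongr
        exact le_iSup (fun k => ballAvg (3 * δ) F
          (TopologicalSpace.denseSeq (EuclideanSpace ℝ (Fin (d + 1))) k) e) k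

/-- Strong type for the Kakeya maximal function, with explicit constant. -/
lemma kakeya_strong (d : ℕ) : ∃ C : ℝ, 0 < C ∧ ∀ (f : EuclideanSpace ℝ (Fin (d + 1)) → ℝ)
    (N : ℕ) (M : ℝ≥0∞) (θ p κ δ : ℝ), Measurable f → (∀ x, 0 ≤ f x) → ConvexSliced N M f →
    0 < θ → qq d θ < p → 0 < κ → 0 < δ → δ ≤ 1 →
    ∫⁻ e in {e : sphere (0 : EuclideanSpace ℝ (Fin (d + 1))) 1 |
      κ ≤ |(e : EuclideanSpace ℝ (Fin (d + 1))) 0|}, kakeyaMax δ f e ^ p ∂(surf (d + 1)) ≤
      ENNReal.ofReal C ^ p * (nsh κ : ℝ≥0∞) *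
        (cP d θ p * (N:ℝ≥0∞) ^ d * M * ∫⁻ x, ENNReal.ofReal (f x ^ p)) := by
  obtain ⟨C, hC, hle⟩ := kakeya_le_iSup d
  refine ⟨C * 6 * (12 * (d + 1)), by positivity, ?_⟩
  intro f N M θ p κ δ hf hf0 hcov hθ hp hκ hδ hδ1
  have hq1 : 1 ≤ qq d θ := by
    unfold qq
    have h1 : (0:ℝ) ≤ d := by positivity
    have h2 : 0 ≤ θ * ((d + 1) * d) := by positivity
    linarith
  have hp1 : 1 < p := by linarith
  have hp0 : 0 < p := by linarith
  have h1 := steep_iSup hf hf0 hcov hθ hp hκ (ρ := 3 * δ) (by positivity)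
    (TopologicalSpace.denseSeq (EuclideanSpace ℝ (Fin (d + 1))))
  have hen : ∀ y, ‖f y‖ₑ = ENNReal.ofReal (f y) := fun y => Real.enorm_of_nonneg (hf0 y)
  calc ∫⁻ e in {e : sphere (0 : EuclideanSpace ℝ (Fin (d + 1))) 1 |
      κ ≤ |(e : EuclideanSpace ℝ (Fin (d + 1))) 0|}, kakeyaMax δ f e ^ p ∂(surf (d + 1))
      ≤ ∫⁻ e in {e : sphere (0 : EuclideanSpace ℝ (Fin (d + 1))) 1 |
      κ ≤ |(e : EuclideanSpace ℝ (Fin (d + 1))) 0|},
        ENNReal.ofReal C ^ p * (⨆ k, ballAvg (3 * δ) (fun x => ENNReal.ofReal (f x))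
          (TopologicalSpace.denseSeq (EuclideanSpace ℝ (Fin (d + 1))) k) e) ^ p
            ∂(surf (d + 1)) := by
        refine lintegral_mono fun e => ?_
        rw [← ENNReal.mul_rpow_of_nonneg _ _ hp0.le]
        refine ENNReal.rpow_le_rpow ?_ hp0.le
        have h2 := hle δ e (fun x => ENNReal.ofReal (f x)) hδ hδ1 (by simp) hf.ennreal_ofReal
        unfold kakeyaMax
        simp_rw [hen]
        exact h2
    _ = ENNReal.ofReal C ^ p * ∫⁻ e in {e : sphere (0 : EuclideanSpace ℝ (Fin (d + 1))) 1 |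
      κ ≤ |(e : EuclideanSpace ℝ (Fin (d + 1))) 0|},
        (⨆ k, ballAvg (3 * δ) (fun x => ENNReal.ofReal (f x))
          (TopologicalSpace.denseSeq (EuclideanSpace ℝ (Fin (d + 1))) k) e) ^ p
            ∂(surf (d + 1)) :=
        lintegral_const_mul' _ _ (ENNReal.rpow_ne_top_of_nonneg hp0.le ENNReal.ofReal_ne_top)
    _ ≤ ENNReal.ofReal C ^ p * (3 ^ p * (3 * ((nsh κ : ℝ≥0∞) * (4 * (d + 1) * 2 ^ p *
        (cP d θ p * (N:ℝ≥0∞) ^ d * M * ∫⁻ x, ENNReal.ofReal (f x ^ p)))))) := by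
        gcongr
    _ = ENNReal.ofReal C ^ p * 3 ^ p * 2 ^ p * (12 * (d + 1)) * (nsh κ : ℝ≥0∞) *
        (cP d θ p * (N:ℝ≥0∞) ^ d * M * ∫⁻ x, ENNReal.ofReal (f x ^ p)) := by ring
    _ ≤ ENNReal.ofReal C ^ p * 3 ^ p * 2 ^ p * (12 * (d + 1)) ^ p * (nsh κ : ℝ≥0∞) *
        (cP d θ p * (N:ℝ≥0∞) ^ d * M * ∫⁻ x, ENNReal.ofReal (f x ^ p)) := by
        gcongr
        have h3 : (1:ℝ≥0∞) ≤ 12 * (d + 1) := by
          calc (1:ℝ≥0∞) = 1 * 1 := (one_mul 1).symm
            _ ≤ 12 * (d + 1) := by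
                gcongr
                · norm_num
                · exact le_add_self
        calc (12 * ((d:ℝ≥0∞) + 1)) = (12 * ((d:ℝ≥0∞) + 1)) ^ (1:ℝ) := (ENNReal.rpow_one _).symm
          _ ≤ _ := ENNReal.rpow_le_rpow_of_exponent_le h3 hp1.le
    _ = _ := by
        rw [ENNReal.ofReal_mul (p := C * 6) (by positivity), ENNReal.ofReal_mul (p := C) hC.le,
          ENNReal.mul_rpow_of_nonneg (ENNReal.ofReal C * ENNReal.ofReal 6) _ hp0.le,
          ENNReal.mul_rpow_of_nonneg (ENNReal.ofReal C) _ hp0.le]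
        have e1 : ENNReal.ofReal 6 ^ p = 3 ^ p * 2 ^ p := by
          rw [← ENNReal.mul_rpow_of_nonneg _ _ hp0.le]
          norm_num
        have e2 : ENNReal.ofReal (12 * ((d:ℝ) + 1)) = 12 * (d + 1) := by
          rw [ENNReal.ofReal_mul (by norm_num), ENNReal.ofReal_add (by positivity) (by norm_num)]
          simp
        rw [e1, e2]
        ring

end Pool.Agent.TH539
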