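import Pool.Agent.TH539.Restr

set_option autoImplicit false

/-!
From sets to functions.
-/

open MeasureTheory Set ENNReal NNReal Metric
open scoped Pointwise

namespace Pool.Agent.TH539

variable {d : ℕ}

lemma lintegral_Ioc_rpow {p r : ℝ} (hp : 0 < p) (hr : 0 < r) :
    ∫⁻ s in Ioc (0:ℝ) r, ENNReal.ofReal (s ^ (p - 1)) = ENNReal.ofReal (r ^ p / p) := by
  rw [← ofReal_integral_eq_lintegral_ofReal]
  · rw [← intervalIntegral.integral_of_le hr.le, integral_rpow (Or.inl (by linarith))]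
    simp [hp.ne']
  · exact (intervalIntegrable_iff_integrableOn_Ioc_of_le hr.le).1
      (intervalIntegral.intervalIntegrable_rpow' (by linarith))
  · exact (ae_restrict_iff' measurableSet_Ioc).2 (Filter.Eventually.of_forall fun s hs =>
      Real.rpow_nonneg hs.1.le _)

/-- A one dimensional inequality for nonincreasing functions. -/
lemma layer_pow {L : ℝ → ℝ≥0∞} (hanti : ∀ r s, 0 < r → r ≤ s → L s ≤ L r) (h1 : ∀ r, L r ≤ 1)
    {p q : ℝ} (hq : 0 < q) (hqp : q < p) :
    (∫⁻ r in Ioi (0:ℝ), L r) ^ p ≤ ENNReal.ofReal ((p / (p - q)) ^ p) *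
      (ENNReal.ofReal p * ∫⁻ r in Ioi (0:ℝ), ENNReal.ofReal (r ^ (p - 1)) * L r ^ q) := by
  have hp : 0 < p := hq.trans hqp
  have hpq : 0 < p - q := by linarith
  set W : ℝ≥0∞ := ENNReal.ofReal p * ∫⁻ r in Ioi (0:ℝ), ENNReal.ofReal (r ^ (p - 1)) * L r ^ q with hW
  have hcoef : 0 < (p / (p - q)) ^ p := by positivity
  by_cases hWtop : W = ∞
  · rw [hWtop, ENNReal.mul_top (by simpa using hcoef)]; exact le_top
  -- pointwise bound
  have hpt : ∀ r : ℝ, 0 < r → ENNReal.ofReal (r ^ p) * L r ^ q ≤ W := by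
    intro r hr
    calc ENNReal.ofReal (r ^ p) * L r ^ q
        = ENNReal.ofReal p * (ENNReal.ofReal (r ^ p / p) * L r ^ q) := by
          rw [← mul_assoc, ← ENNReal.ofReal_mul hp.le]
          congr 2
          field_simp
      _ = ENNReal.ofReal p * ∫⁻ s in Ioc (0:ℝ) r, ENNReal.ofReal (s ^ (p - 1)) * L r ^ q := by
          rw [lintegral_mul_const'' _ (by fun_prop), lintegral_Ioc_rpow hp hr]
      _ ≤ ENNReal.ofReal p * ∫⁻ s in Ioc (0:ℝ) r, ENNReal.ofReal (s ^ (p - 1)) * L s ^ q := by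
          gcongr ENNReal.ofReal p * ?_
          refine setLIntegral_mono' measurableSet_Ioc fun s hs => ?_
          gcongr
          exact hanti s r hs.1 hs.2
      _ ≤ W := by
          rw [hW]
          gcongr ENNReal.ofReal p * ?_
          exact lintegral_mono_set Ioc_subset_Ioi_self
  by_cases hW0 : W = 0
  · have hL0 : ∀ r ∈ Ioi (0:ℝ), L r = 0 := by
      intro r hr
      have h := hpt r hr
      rw [hW0] at h
      have h2 := le_antisymm h zero_le
      rcases mul_eq_zero.1 h2 with h3 | h3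
      · rw [ENNReal.ofReal_eq_zero] at h3
        have : 0 < r ^ p := Real.rpow_pos_of_pos hr p
        linarith
      · rwa [ENNReal.rpow_eq_zero_iff_of_pos hq] at h3
    rw [setLIntegral_congr_fun measurableSet_Ioi hL0, lintegral_zero, ENNReal.zero_rpow_of_pos hp]
    exact zero_le
  set w := W.toReal with hw
  have hwpos : 0 < w := ENNReal.toReal_pos hW0 hWtop
  have hWw : W = ENNReal.ofReal w := (ENNReal.ofReal_toReal hWtop).symm
  set R := w ^ (1 / p) with hR
  have hRpos : 0 < R := by positivity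
  have hRp : R ^ p = w := by
    rw [hR, ← Real.rpow_mul hwpos.le, one_div_mul_cancel hp.ne', Real.rpow_one]
  -- the tail
  have htail : ∀ r ∈ Ioi R, L r ≤ ENNReal.ofReal (w ^ (1 / q) * r ^ (-(p / q))) := by
    intro r hr
    have hr0 : 0 < r := hRpos.trans hr
    have hrp : 0 < r ^ p := by positivity
    have h := hpt r hr0
    rw [hWw] at h
    have h2 : L r ^ q ≤ ENNReal.ofReal (w / r ^ p) := by
      rw [ENNReal.ofReal_div_of_pos hrp, ENNReal.le_div_iff_mul_le (by simpa using Or.inl hrp)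
        (Or.inl ENNReal.ofReal_ne_top), mul_comm]
      exact h
    have h3 : (L r ^ q) ^ (1 / q) ≤ ENNReal.ofReal (w / r ^ p) ^ (1 / q) :=
      ENNReal.rpow_le_rpow h2 (by positivity)
    rw [← ENNReal.rpow_mul, mul_one_div_cancel hq.ne', ENNReal.rpow_one,
      ENNReal.ofReal_rpow_of_pos (by positivity)] at h3
    refine h3.trans (le_of_eq ?_)
    congr 1
    rw [Real.div_rpow hwpos.le hrp.le, ← Real.rpow_mul hr0.le, Real.rpow_neg hr0.le, div_eq_mul_inv]
    congr 2
    ring_nf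
  have hpq1 : 1 < p / q := by rw [lt_div_iff₀ hq]; linarith
  have hint : ∫⁻ r in Ioi R, ENNReal.ofReal (w ^ (1 / q) * r ^ (-(p / q))) =
      ENNReal.ofReal (w ^ (1 / q) * (R ^ (1 - p / q) / (p / q - 1))) := by
    have hi := integrableOn_Ioi_rpow_of_lt (a := -(p / q)) (by linarith) hRpos
    rw [← ofReal_integral_eq_lintegral_ofReal]
    · rw [integral_const_mul, integral_Ioi_rpow_of_lt (by linarith) hRpos]
      congr 2
      have e1 : -(p / q) + 1 = 1 - p / q := by ring
      rw [e1]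
      have e2 : 1 - p / q ≠ 0 := by linarith
      have e3 : p / q - 1 ≠ 0 := by linarith
      rw [div_eq_div_iff e2 e3]
      ring
    · exact hi.const_mul _
    · exact (ae_restrict_iff' measurableSet_Ioi).2 (Filter.Eventually.of_forall fun s hs => by
        have : 0 < s := hRpos.trans hs
        positivity)
  have hval : w ^ (1 / q) * (R ^ (1 - p / q) / (p / q - 1)) = R * (q / (p - q)) := by
    have e1 : w ^ (1 / q) = R ^ (p / q) := by
      rw [← hRp, ← Real.rpow_mul hRpos.le]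
      congr 1
      ring
    rw [e1, mul_div_assoc', ← Real.rpow_add hRpos]
    have e2 : p / q + (1 - p / q) = 1 := by ring
    rw [e2, Real.rpow_one]
    have e3 : p / q - 1 = (p - q) / q := by field_simp
    rw [e3]
    field_simp
  have hmain : ∫⁻ r in Ioi (0:ℝ), L r ≤ ENNReal.ofReal (R * (p / (p - q))) := by
    have hun : Ioi (0:ℝ) = Ioc 0 R ∪ Ioi R := (Ioc_union_Ioi_eq_Ioi hRpos.le).symm
    calc ∫⁻ r in Ioi (0:ℝ), L r ≤ (∫⁻ r in Ioc 0 R, L r) + ∫⁻ r in Ioi R, L r := by
          rw [hun]; exact lintegral_union_le _ _ _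
      _ ≤ (∫⁻ _r in Ioc 0 R, 1) + ∫⁻ r in Ioi R, ENNReal.ofReal (w ^ (1 / q) * r ^ (-(p / q))) :=
          add_le_add (lintegral_mono fun r => h1 r) (setLIntegral_mono' measurableSet_Ioi htail)
      _ = ENNReal.ofReal R + ENNReal.ofReal (R * (q / (p - q))) := by
          rw [hint, hval, setLIntegral_const, Real.volume_Ioc, one_mul, sub_zero]
      _ = _ := by
          rw [← ENNReal.ofReal_add hRpos.le (by positivity)]
          congr 1
          field_simp
          ring
  calc (∫⁻ r in Ioi (0:ℝ), L r) ^ p ≤ ENNReal.ofReal (R * (p / (p - q))) ^ p :=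
        ENNReal.rpow_le_rpow hmain hp.le
    _ = _ := by
        rw [ENNReal.ofReal_rpow_of_pos (by positivity), Real.mul_rpow hRpos.le (by positivity), hRp,
          mul_comm, ENNReal.ofReal_mul (by positivity), ← hWw]

/-- The constant. -/
noncomputable def cP (d : ℕ) (θ p : ℝ) : ℝ≥0∞ :=
  ENNReal.ofReal ((p / (p - qq d θ)) ^ p) * (2 * d + 1) ^ (qq d θ) *
    (4 ^ d * (d:ℝ≥0∞) ^ d * (d + 1) * ENNReal.ofReal (2 / θ) ^ d)

/-- **Strong type for lines.** -/
theorem strong_lines {f : ℝ × (Fin d → ℝ) → ℝ} (hf : Measurable f) (hf0 : ∀ z, 0 ≤ f z)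
    {b : (Fin d → ℝ) → (Fin d → ℝ)} (hb : Measurable b) {c : (Fin d → ℝ) → ℝ} (hc : Measurable c)
    {θ : ℝ} (hθ : 0 < θ) {p : ℝ} (hp : qq d θ < p) {N : ℕ} {M : ℝ≥0∞}
    (hcov : ∀ r : ℝ, 0 < r → ∀ᵐ t : ℝ,
      ConvexCover N (M * volume {y | r < f (t, y)}) {y | r < f (t, y)}) :
    ∫⁻ v, (∫⁻ t in Icc (c v - 1 / 2) (c v + 1 / 2), ENNReal.ofReal (f (t, b v + t • v))) ^ p ≤
      cP d θ p * (N:ℝ≥0∞) ^ d * M * ∫⁻ z, ENNReal.ofReal (f z ^ p) := by
  have hq : 0 < qq d θ := by unfold qq; positivity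
  have hp0 : 0 < p := hq.trans hp
  set L : (Fin d → ℝ) → ℝ → ℝ≥0∞ := fun v r => volume (hts {z | r < f z} b c v) with hL
  have hlev : ∀ r, MeasurableSet {z | r < f z} := fun r => measurableSet_lt measurable_const hf
  -- joint measurability
  have hLm : Measurable (Function.uncurry L) := by
    have e1 : Measurable fun x : ((Fin d → ℝ) × ℝ) × ℝ => |x.2 - c x.1.1| := by fun_prop
    have e2 : Measurable fun x : ((Fin d → ℝ) × ℝ) × ℝ => (x.2, b x.1.1 + x.2 • x.1.1) := by
      fun_prop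
    have e3 : Measurable fun x : ((Fin d → ℝ) × ℝ) × ℝ => f (x.2, b x.1.1 + x.2 • x.1.1) :=
      hf.comp e2
    have e4 : Measurable fun x : ((Fin d → ℝ) × ℝ) × ℝ => x.1.2 := by fun_prop
    have hS : MeasurableSet {x : ((Fin d → ℝ) × ℝ) × ℝ | |x.2 - c x.1.1| ≤ 1 / 2 ∧
        x.1.2 < f (x.2, b x.1.1 + x.2 • x.1.1)} :=
      (measurableSet_le e1 measurable_const).inter (measurableSet_lt e4 e3)
    exact measurable_measure_prodMk_left hS
  have hcake : ∀ v, ∫⁻ t in Icc (c v - 1 / 2) (c v + 1 / 2), ENNReal.ofReal (f (t, b v + t • v)) =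
      ∫⁻ r in Ioi (0:ℝ), L v r := by
    intro v
    have hfm : Measurable fun t : ℝ => f (t, b v + t • v) := hf.comp (by fun_prop)
    rw [lintegral_eq_lintegral_meas_lt _ (Filter.Eventually.of_forall fun t => hf0 _)
      hfm.aemeasurable]
    refine lintegral_congr fun r => ?_
    rw [Measure.restrict_apply (measurableSet_lt measurable_const hfm)]
    congr 1
    ext t
    simp only [mem_inter_iff, hts, mem_Icc]
    constructor
    · rintro ⟨h1, h2, h3⟩
      exact ⟨abs_le.2 ⟨by linarith, by linarith⟩, h1⟩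
    · rintro ⟨h1, h2⟩
      have := abs_le.1 h1
      exact ⟨h2, by linarith [this.1], by linarith [this.2]⟩
  have hanti : ∀ v r s, 0 < r → r ≤ s → L v s ≤ L v r := by
    intro v r s _ hrs
    refine measure_mono ?_
    rintro t ⟨h1, h2⟩
    exact ⟨h1, lt_of_le_of_lt hrs h2⟩
  have hone : ∀ v r, L v r ≤ 1 := by
    intro v r
    calc L v r ≤ volume (Icc (c v - 1 / 2) (c v + 1 / 2)) := by
          refine measure_mono ?_
          rintro t ⟨h1, _⟩
          have := abs_le.1 h1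
          exact ⟨by linarith [this.1], by linarith [this.2]⟩
      _ = 1 := by rw [Real.volume_Icc]; ring_nf; simp
  have hD : (2 * (d:ℝ≥0∞) + 1) ≠ 0 := by positivity
  have hDt : (2 * (d:ℝ≥0∞) + 1) ≠ ∞ := by
    have h : ((d:ℝ≥0∞)) ≠ ∞ := ENNReal.natCast_ne_top d
    finiteness
  -- fixed level
  have hlevel : ∀ r : ℝ, 0 < r → ∫⁻ v, L v r ^ (qq d θ) ≤
      (2 * d + 1) ^ (qq d θ) * (4 ^ d * (d:ℝ≥0∞) ^ d * (d + 1) * ENNReal.ofReal (2 / θ) ^ d) *
        ((N:ℝ≥0∞) ^ d * M * volume {z | r < f z}) := by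
    intro r hr
    have hm : Measurable fun t : ℝ => M * volume {y : Fin d → ℝ | r < f (t, y)} :=
      (measurable_measure_prodMk_left (hlev r)).const_mul M
    have h := restricted (hlev r) hb hc hθ hm (hcov r hr)
    have hvol : ∫⁻ t, volume {y : Fin d → ℝ | r < f (t, y)} = volume {z | r < f z} := by
      rw [Measure.volume_eq_prod, Measure.prod_apply (hlev r)]
      rfl
    have hm' : Measurable fun t : ℝ => volume {y : Fin d → ℝ | r < f (t, y)} :=
      measurable_measure_prodMk_left (hlev r)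
    rw [lintegral_const_mul _ hm', hvol] at h
    calc ∫⁻ v, L v r ^ (qq d θ)
        = ∫⁻ v, (2 * d + 1) ^ (qq d θ) * (L v r / (2 * d + 1)) ^ (qq d θ) := by
          refine lintegral_congr fun v => ?_
          rw [← ENNReal.mul_rpow_of_nonneg _ _ hq.le, ENNReal.mul_div_cancel hD hDt]
      _ = (2 * d + 1) ^ (qq d θ) * ∫⁻ v, (L v r / (2 * d + 1)) ^ (qq d θ) := by
          rw [lintegral_const_mul' _ _ (ENNReal.rpow_ne_top_of_nonneg hq.le hDt)]
      _ ≤ (2 * d + 1) ^ (qq d θ) * (4 ^ d * (d:ℝ≥0∞) ^ d * (N:ℝ≥0∞) ^ d * (d + 1) *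
            ENNReal.ofReal (2 / θ) ^ d * (M * volume {z | r < f z})) := by
          gcongr
      _ = _ := by ring
  set C1 : ℝ≥0∞ := (2 * d + 1) ^ (qq d θ) *
    (4 ^ d * (d:ℝ≥0∞) ^ d * (d + 1) * ENNReal.ofReal (2 / θ) ^ d) with hC1
  have hrp : Measurable fun r : ℝ => ENNReal.ofReal (r ^ (p - 1)) := by fun_prop
  calc ∫⁻ v, (∫⁻ t in Icc (c v - 1 / 2) (c v + 1 / 2), ENNReal.ofReal (f (t, b v + t • v))) ^ p
      = ∫⁻ v, (∫⁻ r in Ioi (0:ℝ), L v r) ^ p := by
        refine lintegral_congr fun v => ?_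
        rw [hcake v]
    _ ≤ ∫⁻ v, ENNReal.ofReal ((p / (p - qq d θ)) ^ p) * (ENNReal.ofReal p *
          ∫⁻ r in Ioi (0:ℝ), ENNReal.ofReal (r ^ (p - 1)) * L v r ^ (qq d θ)) :=
        lintegral_mono fun v => layer_pow (hanti v) (hone v) hq hp
    _ = ENNReal.ofReal ((p / (p - qq d θ)) ^ p) * (ENNReal.ofReal p *
          ∫⁻ v, ∫⁻ r in Ioi (0:ℝ), ENNReal.ofReal (r ^ (p - 1)) * L v r ^ (qq d θ)) := by
        rw [lintegral_const_mul' _ _ ENNReal.ofReal_ne_top,
          lintegral_const_mul' _ _ ENNReal.ofReal_ne_top]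
    _ = ENNReal.ofReal ((p / (p - qq d θ)) ^ p) * (ENNReal.ofReal p *
          ∫⁻ r in Ioi (0:ℝ), ∫⁻ v, ENNReal.ofReal (r ^ (p - 1)) * L v r ^ (qq d θ)) := by
        rw [lintegral_lintegral_swap]
        refine Measurable.aemeasurable ?_
        exact (hrp.comp measurable_snd).mul (hLm.pow_const _)
    _ ≤ ENNReal.ofReal ((p / (p - qq d θ)) ^ p) * (ENNReal.ofReal p *
          ∫⁻ r in Ioi (0:ℝ), ENNReal.ofReal (r ^ (p - 1)) *
            (C1 * ((N:ℝ≥0∞) ^ d * M * volume {z | r < f z}))) := by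
        gcongr ENNReal.ofReal ((p / (p - qq d θ)) ^ p) * (ENNReal.ofReal p * ?_)
        refine setLIntegral_mono' measurableSet_Ioi fun r hr => ?_
        rw [lintegral_const_mul' _ _ ENNReal.ofReal_ne_top]
        gcongr
        exact hlevel r hr
    _ = ENNReal.ofReal ((p / (p - qq d θ)) ^ p) * (C1 * ((N:ℝ≥0∞) ^ d * M)) *
          (ENNReal.ofReal p * ∫⁻ r in Ioi (0:ℝ),
            volume {z | r < f z} * ENNReal.ofReal (r ^ (p - 1))) := by
        have e1 : ∀ r : ℝ, ENNReal.ofReal (r ^ (p - 1)) *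
            (C1 * ((N:ℝ≥0∞) ^ d * M * volume {z | r < f z})) =
            (C1 * ((N:ℝ≥0∞) ^ d * M)) * (volume {z | r < f z} * ENNReal.ofReal (r ^ (p - 1))) := by
          intro r; ring
        simp_rw [e1]
        have hvm : Measurable fun r : ℝ => volume {z | r < f z} * ENNReal.ofReal (r ^ (p - 1)) := by
          have hant : Antitone fun r : ℝ => volume {z | r < f z} := by
            intro r s hrs
            refine measure_mono ?_
            intro z hz
            exact lt_of_le_of_lt hrs hz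
          exact hant.measurable.mul hrp
        rw [lintegral_const_mul _ hvm]
        ring
    _ = ENNReal.ofReal ((p / (p - qq d θ)) ^ p) * (C1 * ((N:ℝ≥0∞) ^ d * M)) *
          ∫⁻ z, ENNReal.ofReal (f z ^ p) := by
        rw [lintegral_rpow_eq_lintegral_meas_lt_mul volume (Filter.Eventually.of_forall hf0)
          hf.aemeasurable hp0]
    _ = _ := by
        rw [cP, hC1]; ring

end Pool.Agent.TH539
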