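import Mathlib
import Pool.Agent.TH551.SU.CS
import Pool.Agent.TH551.SU.Sui

set_option autoImplicit false

/-!
# Vanishing sums of S-units with coefficients from a finite set

In a vanishing sum `∑ c i * u i` of `S`-units with nonzero coefficients from a finite set every
term has a partner such that the ratio of the two units lies in a finite set.
-/

namespace Pool.Agent.TH539.MSet

open Filter Topology Pool.Agent.TH932.Germs Pool.Agent.TH551.SU Pool.Agent.TH551.SU.SUI
  Pool.Agent.TH551.SU.CS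

/-- rationals with numerator and denominator at most `n` -/
noncomputable def box (n : ℕ) : Finset ℚ :=
  ((Finset.Icc (-(n : ℤ)) n) ×ˢ (Finset.Icc 1 n : Finset ℕ)).image
    (fun p => (p.1 : ℚ) / (p.2 : ℚ))

lemma mem_box {n : ℕ} {x : ℚ} (h1 : |(x.num : ℝ)| ≤ n) (h2 : (x.den : ℝ) ≤ n) : x ∈ box n := by
  unfold box
  rw [Finset.mem_image]
  refine ⟨(x.num, x.den), ?_, Rat.num_div_den x⟩
  rw [Finset.mem_product, Finset.mem_Icc, Finset.mem_Icc]
  have h3 : |x.num| ≤ (n : ℤ) := by exact_mod_cast h1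
  have h4 := abs_le.1 h3
  exact ⟨⟨h4.1, h4.2⟩, x.den_pos, by exact_mod_cast h2⟩

lemma sum_gm {ι : Type} (A : Finset ι) (f : ι → ℕ → ℚ) :
    ∑ i ∈ A, gm (f i) = gm (fun n => ∑ i ∈ A, f i n) := by
  classical
  induction A using Finset.induction_on with
  | empty => simp only [Finset.sum_empty]; exact gm_zero.symm
  | insert a s ha ih =>
    simp only [Finset.sum_insert ha]
    rw [ih, gm_add]

lemma isSU_one {s : ℕ} (b : Fin s → ℕ) : IsSU b 1 :=
  ⟨1, 0, Or.inl rfl, by simp⟩

lemma isSU_ne {s : ℕ} (b : Fin s → ℕ) (hb : ∀ v, (b v).Prime) {x : ℚ} (h : IsSU b x) : x ≠ 0 := by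
  obtain ⟨σ, e, hσ, rfl⟩ := h
  refine mul_ne_zero ?_ (Finset.prod_ne_zero_iff.2 fun v _ => zpow_ne_zero _ ?_)
  · rcases hσ with rfl | rfl <;> simp
  · exact_mod_cast (hb v).ne_zero

theorem ratio {s : ℕ} (b : Fin s → ℕ) (hb : ∀ v, (b v).Prime) (hbi : Function.Injective b)
    (ι : Type) [Fintype ι] (D : Finset ℚ) (hD : (0 : ℚ) ∉ D) :
    ∃ F : Finset ℚ, ∀ (A : Finset ι) (c u : ι → ℚ), (∀ i ∈ A, c i ∈ D) →
      (∀ i ∈ A, IsSU b (u i)) →
      ∑ i ∈ A, c i * u i = 0 → ∀ i ∈ A, ∃ j ∈ A, j ≠ i ∧ u i / u j ∈ F := by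
  classical
  by_contra hcon
  push Not at hcon
  choose A c u hc hu hsum i hi hbad using fun n : ℕ => hcon (box n)
  obtain ⟨⟨A0, i0⟩, hconst⟩ := const_of_ev (ι := Finset ι × ι)
    (p := fun q n => A n = q.1 ∧ i n = q.2) (Eventually.of_forall fun n => ⟨(A n, i n), rfl, rfl⟩)
  simp only at hconst
  have hL : Tendsto (fun n : ℕ => Real.log n) atTop atTop :=
    Real.tendsto_log_atTop.comp tendsto_natCast_atTop_atTop
  let c' : ι → ℕ → ℚ := fun j n => if A n = A0 ∧ j ∈ A0 then c n j else 0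
  let u' : ι → ℕ → ℚ := fun j n => if A n = A0 ∧ j ∈ A0 then u n j else 1
  have hi0 : i0 ∈ A0 := by
    obtain ⟨n, h1, h2⟩ := hconst.exists
    rw [← h1, ← h2]
    exact hi n
  have hu' : ∀ j n, IsSU b (u' j n) := by
    intro j n
    simp only [u']
    split_ifs with h
    · exact hu n j (h.1 ▸ h.2)
    · exact isSU_one b
  -- the coefficients are negligible
  have hKK : ∀ j, gm (c' j) ∈ KK (fun n : ℕ => Real.log n) hL := by
    intro j
    rw [mem_KK_iff hL]
    obtain ⟨B, hB⟩ : ∃ B : ℝ, ∀ x ∈ insert 0 D, |((x : ℚ).num : ℝ)| ≤ B ∧ ((x : ℚ).den : ℝ) ≤ B := by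
      refine ⟨∑ x ∈ insert 0 D, (|((x : ℚ).num : ℝ)| + (x : ℚ).den), fun x hx => ?_⟩
      have h1 := Finset.single_le_sum (f := fun x : ℚ => |((x : ℚ).num : ℝ)| + ((x : ℚ).den : ℝ))
        (fun y _ => by positivity) hx
      constructor
      · linarith [(Nat.cast_nonneg (x : ℚ).den : (0 : ℝ) ≤ _)]
      · linarith [abs_nonneg (((x : ℚ).num : ℝ))]
    have hmem : ∀ n, c' j n ∈ insert 0 D := by
      intro n
      simp only [c']
      split_ifs with h
      · exact Finset.mem_insert_of_mem (hc n j (h.1 ▸ h.2))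
      · exact Finset.mem_insert_self _ _
    have hbig : ∀ ε : ℝ, 0 < ε → ∀ᶠ n : ℕ in (UU : Filter ℕ), B ≤ Real.exp (ε * Real.log n) := by
      intro ε hε
      apply ev_of_atTop
      have h1 : Tendsto (fun n : ℕ => Real.exp (ε * Real.log n)) atTop atTop :=
        Real.tendsto_exp_atTop.comp (hL.const_mul_atTop hε)
      exact h1.eventually_ge_atTop B
    constructor
    · intro ε hε
      filter_upwards [hbig ε hε] with n hn
      exact (hB _ (hmem n)).1.trans hn
    · intro ε hε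
      filter_upwards [hbig ε hε] with n hn
      have h1 := (hB _ (hmem n)).2.trans hn
      push_cast
      rw [abs_of_nonneg (Nat.cast_nonneg _)]
      exact h1
  -- the ratios with the bad unit are not negligible
  have hnot : ∀ j ∈ A0, j ≠ i0 → gm (u' i0) / gm (u' j) ∉ KK (fun n : ℕ => Real.log n) hL := by
    intro j hj hji hmem
    rw [gm_div, mem_KK_iff hL] at hmem
    have h1 := hmem.1 1 one_pos
    have h2 := hmem.2 1 one_pos
    have h3 : ∀ᶠ n : ℕ in (UU : Filter ℕ), 1 ≤ n := ev_of_atTop (eventually_ge_atTop 1)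
    obtain ⟨n, h1, h2, h3, h4, h5⟩ := (h1.and (h2.and (h3.and hconst))).exists
    have h6 : (0 : ℝ) < n := by exact_mod_cast h3
    rw [one_mul, Real.exp_log h6] at h1 h2
    have h7 : u' i0 n = u n i0 := by simp only [u']; rw [if_pos ⟨h4, hi0⟩]
    have h8 : u' j n = u n j := by simp only [u']; rw [if_pos ⟨h4, hj⟩]
    have h1 : |(((u' i0 n / u' j n).num : ℤ) : ℝ)| ≤ n := h1
    have h2 : |((((u' i0 n / u' j n).den : ℤ)) : ℝ)| ≤ n := h2
    rw [h7, h8] at h1 h2
    have h9 : u n i0 / u n j ∈ box n := by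
      refine mem_box h1 ?_
      push_cast at h2
      rwa [abs_of_nonneg (Nat.cast_nonneg _)] at h2
    refine hbad n j (h4 ▸ hj) (by rw [h5]; exact hji) ?_
    rw [h5]
    exact h9
  have hzero : ∑ j ∈ A0, ((⟨gm (c' j), hKK j⟩ : KK (fun n : ℕ => Real.log n) hL) : GG) *
      gm (u' j) = 0 := by
    simp only [gm_mul]
    rw [sum_gm, ← gm_zero, gm_eq]
    filter_upwards [hconst] with n hn
    rw [← hsum n, hn.1]
    refine Finset.sum_congr rfl fun j hj => ?_
    simp only [c', u']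
    rw [if_pos ⟨hn.1, hj⟩, if_pos ⟨hn.1, hj⟩]
  have hcs := cs sui s b hb hbi (fun n : ℕ => Real.log n) hL ι A0
    (fun j => ⟨gm (c' j), hKK j⟩) (fun j => gm (u' j)) (fun j => if j = i0 then 1 else 0)
    (fun j _ => ⟨u' j, rfl, hu' j⟩) (by
      intro x hx y hy hxy
      by_cases h1 : x = i0
      · by_cases h2 : y = i0
        · rw [h1, h2]
        · exact absurd (h1 ▸ hxy) (hnot y hy h2)
      · by_cases h2 : y = i0
        · refine absurd ?_ (hnot x hx h1)
          have h3 := (KK (fun n : ℕ => Real.log n) hL).inv_mem hxy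
          rw [inv_div, h2] at h3
          exact h3
        · rw [if_neg h1, if_neg h2]) hzero
  have hcoef := congrArg (fun p : Polynomial GG => p.coeff 1) hcs
  simp only [Polynomial.finsetSum_coeff, Polynomial.coeff_C_mul, Polynomial.coeff_X_pow,
    Polynomial.coeff_zero] at hcoef
  rw [Finset.sum_eq_single i0] at hcoef
  · rw [if_pos rfl, if_pos rfl, mul_one] at hcoef
    rcases mul_eq_zero.1 hcoef with h1 | h1
    · have h1' : gm (c' i0) = gm (fun _ => 0) := by rw [gm_zero]; exact h1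
      rw [gm_eq] at h1'
      obtain ⟨n, h2, h3⟩ := (h1'.and hconst).exists
      simp only [c'] at h2
      rw [if_pos ⟨h3.1, hi0⟩] at h2
      exact hD (h2 ▸ hc n i0 (h3.1 ▸ hi0))
    · have h1' : gm (u' i0) = gm (fun _ => 0) := by rw [gm_zero]; exact h1
      rw [gm_eq] at h1'
      obtain ⟨n, h2⟩ := h1'.exists
      exact isSU_ne b hb (hu' i0 n) h2
  · intro j _ hj
    rw [if_neg hj]
    simp
  · intro h
    exact absurd hi0 h

end Pool.Agent.TH539.MSet
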