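import Pool.Agent.TH539.Kernel

set_option autoImplicit false

/-!
The restricted strong type inequality for lines, for sets with convex slices.
-/

open MeasureTheory Set ENNReal NNReal Metric
open scoped Pointwise

namespace Pool.Agent.TH539

variable {d : ℕ}

/-- The heights, in a window of length one, at which the line is in `A`. -/
def hts (A : Set (ℝ × (Fin d → ℝ))) (b : (Fin d → ℝ) → (Fin d → ℝ)) (c : (Fin d → ℝ) → ℝ)
    (v : Fin d → ℝ) : Set ℝ :=
  {t | |t - c v| ≤ 1 / 2 ∧ (t, b v + t • v) ∈ A}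

/-- The set of all `(v, t)` such that all `t i` are in `hts A b c v`. -/
def tup (A : Set (ℝ × (Fin d → ℝ))) (b : (Fin d → ℝ) → (Fin d → ℝ)) (c : (Fin d → ℝ) → ℝ) :
    Set ((Fin d → ℝ) × (Fin (d + 1) → ℝ)) :=
  {p | ∀ i, p.2 i ∈ hts A b c p.1}

lemma measurableSet_graph {A : Set (ℝ × (Fin d → ℝ))} (hA : MeasurableSet A)
    {b : (Fin d → ℝ) → (Fin d → ℝ)} (hb : Measurable b) {c : (Fin d → ℝ) → ℝ} (hc : Measurable c) :
    MeasurableSet {p : (Fin d → ℝ) × ℝ | p.2 ∈ hts A b c p.1} := by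
  have e1 : Measurable fun p : (Fin d → ℝ) × ℝ => |p.2 - c p.1| := by fun_prop
  have e2 : Measurable fun p : (Fin d → ℝ) × ℝ => (p.2, b p.1 + p.2 • p.1) := by fun_prop
  exact (measurableSet_le e1 measurable_const).inter (hA.preimage e2)

lemma measurableSet_hts {A : Set (ℝ × (Fin d → ℝ))} (hA : MeasurableSet A)
    {b : (Fin d → ℝ) → (Fin d → ℝ)} (hb : Measurable b) {c : (Fin d → ℝ) → ℝ} (hc : Measurable c)
    (v : Fin d → ℝ) : MeasurableSet (hts A b c v) :=
  (measurableSet_graph hA hb hc).preimage (measurable_prodMk_left (x := v))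

lemma measurableSet_tup {A : Set (ℝ × (Fin d → ℝ))} (hA : MeasurableSet A)
    {b : (Fin d → ℝ) → (Fin d → ℝ)} (hb : Measurable b) {c : (Fin d → ℝ) → ℝ} (hc : Measurable c) :
    MeasurableSet (tup A b c) := by
  have : tup A b c = ⋂ i, (fun p : (Fin d → ℝ) × (Fin (d + 1) → ℝ) => (p.1, p.2 i)) ⁻¹'
      {p : (Fin d → ℝ) × ℝ | p.2 ∈ hts A b c p.1} := by
    ext p
    simp [tup]
  rw [this]
  exact MeasurableSet.iInter fun i => (measurableSet_graph hA hb hc).preimage (by fun_prop)

/-- The exponent. -/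
noncomputable def qq (d : ℕ) (θ : ℝ) : ℝ := (d + 1) + θ * ((d + 1) * d)

lemma hts_lower {A : Set (ℝ × (Fin d → ℝ))} (hA : MeasurableSet A)
    {b : (Fin d → ℝ) → (Fin d → ℝ)} (hb : Measurable b) {c : (Fin d → ℝ) → ℝ} (hc : Measurable c)
    {θ : ℝ} (hθ : 0 ≤ θ) (v : Fin d → ℝ) :
    (volume (hts A b c v) / (2 * d + 1)) ^ (qq d θ) ≤
      ∫⁻ t, (tup A b c).indicator (fun p => ker θ p.2) (v, t) := by
  set T := hts A b c v with hT
  have hTm : MeasurableSet T := measurableSet_hts hA hb hc v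
  have hTI : T ⊆ Icc (c v - 1 / 2) (c v + 1 / 2) := by
    intro t ht
    have h1 := abs_le.1 ht.1
    exact ⟨by linarith [h1.1], by linarith [h1.2]⟩
  have hTfin : volume T ≠ ∞ :=
    ne_top_of_le_ne_top (by rw [Real.volume_Icc]; exact ENNReal.ofReal_ne_top) (measure_mono hTI)
  have hqpos : 0 < qq d θ := by unfold qq; positivity
  by_cases h0 : volume T = 0
  · rw [h0, ENNReal.zero_div, ENNReal.zero_rpow_of_pos hqpos]; exact zero_le
  set lam := (volume T).toReal with hlam
  have hlampos : 0 < lam := ENNReal.toReal_pos h0 hTfin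
  have hlameq : volume T = ENNReal.ofReal lam := (ENNReal.ofReal_toReal hTfin).symm
  have hTIoc : ENNReal.ofReal lam ≤ volume (T ∩ Ioc (c v - 1 / 2) (c v + 1 / 2)) := by
    rw [← hlameq]
    have h1 : volume (T ∩ Icc (c v - 1 / 2) (c v + 1 / 2)) =
        volume (T ∩ Ioc (c v - 1 / 2) (c v + 1 / 2)) := by
      refine measure_congr ?_
      exact (ae_eq_refl T).inter (Ioc_ae_eq_Icc (μ := volume)).symm
    rw [← h1, inter_eq_left.2 hTI]
  obtain ⟨P, hPT, hPvol, hPgap, hPm⟩ := exists_pieces T (by linarith) hlampos hTIoc d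
  have hPm' := hPm hTm
  have hd : (0:ℝ) < 2 * d + 1 := by positivity
  set g := lam / (2 * d + 1) with hg
  have hgpos : 0 < g := by positivity
  have hpi : MeasurableSet (Set.pi univ P) := MeasurableSet.univ_pi hPm'
  have hsub : ∀ t ∈ Set.pi univ P, (v, t) ∈ tup A b c := by
    intro t ht i
    exact (hPT i (ht i (mem_univ i))).1
  have hkerp : ∀ t ∈ Set.pi univ P, (ENNReal.ofReal g ^ θ) ^ ((d + 1) * d) ≤ ker θ t := by
    intro t ht
    exact ker_ge hθ fun i k hik => hPgap i k hik _ (ht i (mem_univ i)) _ (ht k (mem_univ k))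
  have hdiv : volume T / (2 * d + 1) = ENNReal.ofReal g := by
    rw [hlameq, hg, ENNReal.ofReal_div_of_pos hd]
    congr 1
    rw [ENNReal.ofReal_add (by positivity) (by positivity), ENNReal.ofReal_mul (by norm_num)]
    simp
  calc (volume T / (2 * d + 1)) ^ (qq d θ)
      = (ENNReal.ofReal g ^ θ) ^ ((d + 1) * d) * ENNReal.ofReal g ^ (d + 1) := by
        rw [hdiv, ← ENNReal.rpow_natCast, ← ENNReal.rpow_natCast, ← ENNReal.rpow_mul,
          ← ENNReal.rpow_add_of_nonneg _ _ (by positivity) (by positivity)]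
        congr 1
        unfold qq
        push_cast
        ring
    _ ≤ (ENNReal.ofReal g ^ θ) ^ ((d + 1) * d) * volume (Set.pi univ P) := by
        gcongr
        rw [volume_pi_pi]
        calc ENNReal.ofReal g ^ (d + 1) = ∏ _i : Fin (d + 1), ENNReal.ofReal g := by simp
          _ ≤ _ := Finset.prod_le_prod' fun i _ => hPvol i
    _ = ∫⁻ _t in Set.pi univ P, (ENNReal.ofReal g ^ θ) ^ ((d + 1) * d) := by
        rw [setLIntegral_const]
    _ ≤ ∫⁻ t in Set.pi univ P, (tup A b c).indicator (fun p => ker θ p.2) (v, t) := by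
        refine setLIntegral_mono' hpi fun t ht => ?_
        rw [indicator_of_mem (hsub t ht)]
        exact hkerp t ht
    _ ≤ _ := setLIntegral_le_lintegral _ _

/-- The upper bound for fixed heights. -/
lemma tup_upper {A : Set (ℝ × (Fin d → ℝ))}
    {b : (Fin d → ℝ) → (Fin d → ℝ)} {c : (Fin d → ℝ) → ℝ}
    {θ : ℝ} (hθ : 0 < θ) {N : ℕ} {m : ℝ → ℝ≥0∞} {t : Fin (d + 1) → ℝ}
    (hcov : ∀ i, ConvexCover N (m (t i)) {y | (t i, y) ∈ A}) :
    ker θ t * volume {v | (v, t) ∈ tup A b c} ≤ 4 ^ d * (d:ℝ≥0∞) ^ d * (N:ℝ≥0∞) ^ d *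
      ∑ k, m (t k) * ∏ j : Fin d, phi θ (t k - t (k.succAbove j)) := by
  by_cases hinj : Function.Injective t
  swap
  · -- the kernel vanishes
    have : ker θ t = 0 := by
      unfold ker
      simp only [Function.Injective, not_forall] at hinj
      obtain ⟨i, k, hik, hne⟩ := hinj
      obtain ⟨j, hj⟩ := Fin.exists_succAbove_eq (Ne.symm hne)
      refine Finset.prod_eq_zero (Finset.mem_univ i) (Finset.prod_eq_zero (Finset.mem_univ j) ?_)
      rw [hj, hik, sub_self, abs_zero, ENNReal.ofReal_zero, ENNReal.zero_rpow_of_pos hθ]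
    rw [this, zero_mul]; exact zero_le
  rcases ({v | (v, t) ∈ tup A b c} : Set (Fin d → ℝ)).eq_empty_or_nonempty with he | ⟨v0, hv0⟩
  · rw [he, measure_empty, mul_zero]; exact zero_le
  have hdist : ∀ i k, |t i - t k| ≤ 1 := by
    intro i k
    have h1 := abs_le.1 (hv0 i).1
    have h2 := abs_le.1 (hv0 k).1
    exact abs_le.2 ⟨by linarith [h1.1, h2.2], by linarith [h1.2, h2.1]⟩
  have hsub : {v | (v, t) ∈ tup A b c} ⊆
      {v : Fin d → ℝ | ∃ q : Fin d → ℝ, ∀ i, q + t i • v ∈ {y | (t i, y) ∈ A}} := by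
    intro v hv
    exact ⟨b v, fun i => (hv i).2⟩
  have h1 := (measure_mono hsub).trans (volume_velocities_cover_le' hinj hcov)
  calc ker θ t * volume {v | (v, t) ∈ tup A b c}
      ≤ ker θ t * (4 ^ d * (d:ℝ≥0∞) ^ d * (N:ℝ≥0∞) ^ d *
        ∑ i, m (t i) * ∏ j : Fin d, (ENNReal.ofReal |t i - t (i.succAbove j)|)⁻¹) := by
        gcongr
    _ = 4 ^ d * (d:ℝ≥0∞) ^ d * (N:ℝ≥0∞) ^ d *
        ∑ i, m (t i) * (ker θ t * ∏ j : Fin d, (ENNReal.ofReal |t i - t (i.succAbove j)|)⁻¹) := by
        rw [mul_left_comm, Finset.mul_sum (a := ker θ t)]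
        congr 1
        refine Finset.sum_congr rfl fun i _ => ?_
        ring
    _ ≤ _ := by
        gcongr with k _
        calc ker θ t * ∏ j : Fin d, (ENNReal.ofReal |t k - t (k.succAbove j)|)⁻¹
            ≤ (∏ j : Fin d, ENNReal.ofReal |t k - t (k.succAbove j)| ^ θ) *
              ∏ j : Fin d, (ENNReal.ofReal |t k - t (k.succAbove j)|)⁻¹ := by
              gcongr
              exact ker_le hθ.le hdist k
          _ = ∏ j : Fin d, (ENNReal.ofReal |t k - t (k.succAbove j)| ^ θ *
              (ENNReal.ofReal |t k - t (k.succAbove j)|)⁻¹) := by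
              rw [Finset.prod_mul_distrib]
          _ = _ := by
              refine Finset.prod_congr rfl fun j _ => ?_
              set x := t k - t (k.succAbove j) with hx
              have hx0 : 0 < |x| := by
                rw [abs_pos, hx, sub_ne_zero]
                intro h
                exact (Fin.succAbove_ne k j) (hinj h).symm
              have hx1 : x ∈ Icc (-1:ℝ) 1 := abs_le.1 (hdist _ _)
              unfold phi
              rw [indicator_of_mem hx1, ENNReal.ofReal_rpow_of_pos hx0,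
                ← ENNReal.ofReal_inv_of_pos hx0, ← ENNReal.ofReal_mul (by positivity)]
              congr 1
              rw [Real.rpow_sub_one hx0.ne', div_eq_mul_inv]

/-- **Restricted strong type.** -/
theorem restricted {A : Set (ℝ × (Fin d → ℝ))} (hA : MeasurableSet A)
    {b : (Fin d → ℝ) → (Fin d → ℝ)} (hb : Measurable b) {c : (Fin d → ℝ) → ℝ} (hc : Measurable c)
    {θ : ℝ} (hθ : 0 < θ) {N : ℕ} {m : ℝ → ℝ≥0∞} (hm : Measurable m)
    (hcov : ∀ᵐ t : ℝ, ConvexCover N (m t) {y | (t, y) ∈ A}) :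
    ∫⁻ v, (volume (hts A b c v) / (2 * d + 1)) ^ (qq d θ) ≤
      4 ^ d * (d:ℝ≥0∞) ^ d * (N:ℝ≥0∞) ^ d * (d + 1) * ENNReal.ofReal (2 / θ) ^ d * ∫⁻ t, m t := by
  have hEm := measurableSet_tup hA hb hc
  have hF : Measurable fun p : (Fin d → ℝ) × (Fin (d + 1) → ℝ) =>
      (tup A b c).indicator (fun p => ker θ p.2) p :=
    ((measurable_ker θ).comp measurable_snd).indicator hEm
  have hae : ∀ᵐ t : Fin (d + 1) → ℝ, ∀ i, ConvexCover N (m (t i)) {y | (t i, y) ∈ A} := by
    rw [Filter.eventually_all]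
    intro i
    exact (Measure.tendsto_eval_ae_ae (μ := fun _ : Fin (d + 1) => (volume : Measure ℝ))
      (i := i)).eventually hcov
  calc ∫⁻ v, (volume (hts A b c v) / (2 * d + 1)) ^ (qq d θ)
      ≤ ∫⁻ v, ∫⁻ t, (tup A b c).indicator (fun p => ker θ p.2) (v, t) :=
        lintegral_mono fun v => hts_lower hA hb hc hθ.le v
    _ = ∫⁻ t, ∫⁻ v, (tup A b c).indicator (fun p => ker θ p.2) (v, t) :=
        lintegral_lintegral_swap hF.aemeasurable
    _ ≤ ∫⁻ t : Fin (d + 1) → ℝ, 4 ^ d * (d:ℝ≥0∞) ^ d * (N:ℝ≥0∞) ^ d *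
          ∑ k, m (t k) * ∏ j : Fin d, phi θ (t k - t (k.succAbove j)) := by
        refine lintegral_mono_ae ?_
        filter_upwards [hae] with t ht
        refine le_trans (le_of_eq ?_) (tup_upper (b := b) (c := c) hθ ht)
        have hsec : MeasurableSet {v | (v, t) ∈ tup A b c} :=
          hEm.preimage (measurable_prodMk_right (y := t))
        have : (fun v => (tup A b c).indicator (fun p => ker θ p.2) (v, t)) =
            {v | (v, t) ∈ tup A b c}.indicator (fun _ => ker θ t) := by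
          funext v
          by_cases hv : (v, t) ∈ tup A b c
          · rw [indicator_of_mem hv, indicator_of_mem (show v ∈ {v | (v, t) ∈ tup A b c} from hv)]
          · rw [indicator_of_notMem hv,
              indicator_of_notMem (show v ∉ {v | (v, t) ∈ tup A b c} from hv)]
        rw [this, lintegral_indicator hsec, setLIntegral_const]
    _ = 4 ^ d * (d:ℝ≥0∞) ^ d * (N:ℝ≥0∞) ^ d *
          ∑ k : Fin (d + 1), ∫⁻ t : Fin (d + 1) → ℝ,
            m (t k) * ∏ j : Fin d, phi θ (t k - t (k.succAbove j)) := by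
        have hmk : ∀ k : Fin (d + 1), Measurable fun t : Fin (d + 1) → ℝ =>
            m (t k) * ∏ j : Fin d, phi θ (t k - t (k.succAbove j)) := by
          intro k
          refine (hm.comp (measurable_pi_apply k)).mul (Finset.measurable_prod _ fun j _ => ?_)
          exact (measurable_phi θ).comp (by fun_prop)
        rw [lintegral_const_mul _ (Finset.measurable_sum _ fun k _ => hmk k),
          lintegral_finsetSum _ fun k _ => hmk k]
    _ = _ := by
        simp_rw [lintegral_kernel hθ hm]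
        rw [Finset.sum_const, Finset.card_univ, Fintype.card_fin, nsmul_eq_mul]
        push_cast
        ring

end Pool.Agent.TH539
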