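import Pool.Agent.TH539.SAKey

set_option autoImplicit false

/-!
Lines meeting `d + 1` slices which are unrelated basic open semialgebraic sets.
-/

open MeasureTheory Set Filter Topology ENNReal NNReal Metric

namespace Pool.Agent.TH539.SA

open Pool.Agent.W770.SA

variable {n : ℕ}

/-- the product polynomial -/
noncomputable def bigS {m : Fin (n + 1) → ℕ} (t : Fin (n + 1) → ℝ)
    (P : (i : Fin (n + 1)) → Fin (m i) → MvPolynomial (Fin n) ℝ) (R : ℝ) :
    MvPolynomial (Fin n ⊕ Fin n) ℝ :=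
  rad R * ∏ i, ∏ j, sbst (t i) (P i j)

theorem ev_bigS {m : Fin (n + 1) → ℕ} (t : Fin (n + 1) → ℝ)
    (P : (i : Fin (n + 1)) → Fin (m i) → MvPolynomial (Fin n) ℝ) (R : ℝ)
    (x z : (EuclideanSpace ℝ (Fin n))) :
    ev (bigS t P R) (x, z) = (R ^ 2 - ‖z‖ ^ 2) * ∏ i, ∏ j, evl (P i j) (z + t i • x) := by
  have h1 : ∀ p q : MvPolynomial (Fin n ⊕ Fin n) ℝ, ev (p * q) (x, z) = ev p (x, z) * ev q (x, z) :=
    fun p q => by simp [ev]
  unfold bigS
  rw [h1, ev_rad]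
  congr 1
  have h2 : ∀ {ι : Type} (s : Finset ι) (f : ι → MvPolynomial (Fin n ⊕ Fin n) ℝ),
      ev (∏ j ∈ s, f j) (x, z) = ∏ j ∈ s, ev (f j) (x, z) := fun s f => by
    unfold ev; rw [map_prod]
  rw [h2]
  apply Finset.prod_congr rfl
  intro i _
  rw [h2]
  apply Finset.prod_congr rfl
  intro j _
  exact ev_sbst _ _ _ _

theorem totalDegree_bigS_le {m : Fin (n + 1) → ℕ} (t : Fin (n + 1) → ℝ)
    (P : (i : Fin (n + 1)) → Fin (m i) → MvPolynomial (Fin n) ℝ) {D : ℕ}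
    (hD : ∑ i, ∑ j, (P i j).totalDegree ≤ D) (R : ℝ) :
    (bigS t P R).totalDegree ≤ 2 + D := by
  unfold bigS
  refine (MvPolynomial.totalDegree_mul _ _).trans (add_le_add (totalDegree_rad_le R) ?_)
  refine (MvPolynomial.totalDegree_finsetProd _ _).trans (le_trans ?_ hD)
  apply Finset.sum_le_sum
  intro i _
  refine (MvPolynomial.totalDegree_finsetProd _ _).trans ?_
  apply Finset.sum_le_sum
  intro j _
  exact totalDegree_sbst_le _ _

/-- good starting points -/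
def goodS {m : Fin (n + 1) → ℕ} (t : Fin (n + 1) → ℝ)
    (P : (i : Fin (n + 1)) → Fin (m i) → MvPolynomial (Fin n) ℝ) (R : ℝ) :
    Set ((EuclideanSpace ℝ (Fin n)) × (EuclideanSpace ℝ (Fin n))) :=
  {p | ‖p.2‖ < R ∧ ∀ i, p.2 + t i • p.1 ∈ bas (P i)}

theorem isOpen_goodS {m : Fin (n + 1) → ℕ} (t : Fin (n + 1) → ℝ)
    (P : (i : Fin (n + 1)) → Fin (m i) → MvPolynomial (Fin n) ℝ) (R : ℝ) :
    IsOpen (goodS t P R) := by
  have : goodS t P R =
      {p : (EuclideanSpace ℝ (Fin n)) × (EuclideanSpace ℝ (Fin n)) | ‖p.2‖ < R} ∩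
      ⋂ i, {p : (EuclideanSpace ℝ (Fin n)) × (EuclideanSpace ℝ (Fin n)) |
        p.2 + t i • p.1 ∈ bas (P i)} := by
    ext p
    simp [goodS]
  rw [this]
  apply IsOpen.inter (isOpen_lt (by fun_prop) continuous_const)
  apply isOpen_iInter_of_finite
  intro i
  exact (isOpen_bas (P i)).preimage (by fun_prop)

theorem ev_bigS_pos {m : Fin (n + 1) → ℕ} (t : Fin (n + 1) → ℝ)
    (P : (i : Fin (n + 1)) → Fin (m i) → MvPolynomial (Fin n) ℝ) {R : ℝ}
    {p : (EuclideanSpace ℝ (Fin n)) × (EuclideanSpace ℝ (Fin n))}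
    (hp : p ∈ goodS t P R) : 0 < ev (bigS t P R) p := by
  obtain ⟨x, z⟩ := p
  rw [ev_bigS]
  obtain ⟨h1, h2⟩ := hp
  apply _root_.mul_pos
  · have := norm_nonneg z
    have h3 : ‖z‖ < R := h1
    nlinarith
  · apply Finset.prod_pos
    intro i _
    apply Finset.prod_pos
    intro j _
    exact h2 i j

/-- existence of critical points -/
theorem exists_critS {m : Fin (n + 1) → ℕ} (t : Fin (n + 1) → ℝ)
    (P : (i : Fin (n + 1)) → Fin (m i) → MvPolynomial (Fin n) ℝ) {R η : ℝ} (hR : 0 < R)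
    {x : (EuclideanSpace ℝ (Fin n))}
    (hx : ∃ z, (x, z) ∈ goodS t P R ∧ η < ev (bigS t P R) (x, z)) {ℓ : (EuclideanSpace ℝ (Fin n))}
    (hℓ : ‖ℓ‖ < η / (2 * R)) :
    ∃ z, (x, z) ∈ goodS t P R ∧ gz (bigS t P R) (x, z) = ℓ := by
  obtain ⟨z1, hz1, hη⟩ := hx
  set q := bigS t P R with hq
  set K : Set (EuclideanSpace ℝ (Fin n)) :=
    {z | ‖z‖ ≤ R ∧ ∀ i, ∀ j, 0 ≤ evl (P i j) (z + t i • x)} with hK
  have hKc : IsCompact K := by
    apply Metric.isCompact_of_isClosed_isBounded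
    · have : K = {z : (EuclideanSpace ℝ (Fin n)) | ‖z‖ ≤ R} ∩ ⋂ i, ⋂ j,
          {z : (EuclideanSpace ℝ (Fin n)) | 0 ≤ evl (P i j) (z + t i • x)} := by
        ext z; simp [hK]
      rw [this]
      apply IsClosed.inter (isClosed_le (by fun_prop) continuous_const)
      refine isClosed_iInter fun i => isClosed_iInter fun j => ?_
      exact isClosed_le continuous_const ((continuous_evl _).comp (by fun_prop))
    · refine (isBounded_closedBall (x := (0:(EuclideanSpace ℝ (Fin n)))) (r := R)).subset ?_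
      intro z hz
      rw [mem_closedBall_zero_iff]; exact hz.1
  have hlin : ∀ z : (EuclideanSpace ℝ (Fin n)), ‖z‖ ≤ R → |∑ l, ℓ l * z l| ≤ ‖ℓ‖ * R := by
    intro z hz
    have h1 : ∑ l, ℓ l * z l = inner ℝ ℓ z := by
      rw [PiLp.inner_apply]
      simp [mul_comm]
    rw [h1]
    exact (abs_real_inner_le_norm _ _).trans (by gcongr)
  have hcont : Continuous (fun z : (EuclideanSpace ℝ (Fin n)) => ev q (x, z) - ∑ l, ℓ l * z l) := by
    apply Continuous.sub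
    · exact (contDiff_ev q).continuous.comp (by fun_prop)
    · fun_prop
  have hgK : ∀ z, (x, z) ∈ goodS t P R → z ∈ K := by
    rintro z ⟨h1, h2⟩
    exact ⟨le_of_lt h1, fun i j => (h2 i j).le⟩
  obtain ⟨z, hzK, hz⟩ := hKc.exists_isMaxOn ⟨z1, hgK z1 hz1⟩ hcont.continuousOn
  have hR2 : ‖ℓ‖ * R < η / 2 := by
    rw [lt_div_iff₀ (by positivity)] at hℓ
    linarith
  have hval : η / 2 < ev q (x, z) - ∑ l, ℓ l * z l := by
    have h1 : ev q (x, z1) - ∑ l, ℓ l * z1 l ≤ ev q (x, z) - ∑ l, ℓ l * z l := hz (hgK z1 hz1)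
    have h2 := hlin z1 (le_of_lt hz1.1)
    have h3 := abs_le.1 h2
    linarith [h3.2]
  have hqpos : ev q (x, z) ≠ 0 := by
    intro h0
    have h2 := hlin z hzK.1
    have h3 := abs_le.1 h2
    linarith [h3.1]
  have hgood : (x, z) ∈ goodS t P R := by
    rw [hq, ev_bigS] at hqpos
    have h1 := left_ne_zero_of_mul hqpos
    have h2 := right_ne_zero_of_mul hqpos
    rw [Finset.prod_ne_zero_iff] at h2
    refine ⟨?_, ?_⟩
    · apply lt_of_le_of_ne hzK.1
      intro h3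
      have h3' : ‖z‖ = R := h3
      rw [h3'] at h1
      exact h1 (by ring)
    · intro i j
      have h3 := h2 i (Finset.mem_univ i)
      rw [Finset.prod_ne_zero_iff] at h3
      exact lt_of_le_of_ne (hzK.2 i j) (h3 j (Finset.mem_univ j)).symm
  refine ⟨z, hgood, gz_of_isLocalMax q x z ℓ ?_⟩
  have hopen : IsOpen {z : (EuclideanSpace ℝ (Fin n)) | (x, z) ∈ goodS t P R} :=
    (isOpen_goodS t P R).preimage (by fun_prop)
  filter_upwards [hopen.mem_nhds hgood] with z' hz'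
  exact hz (hgK z' hz')

/-- **Key theorem for `n + 1` unrelated basic open semialgebraic slices.** -/
theorem basicS (hn : 1 ≤ n) {t : Fin (n + 1) → ℝ} (ht : Function.Injective t)
    {m : Fin (n + 1) → ℕ} (P : (i : Fin (n + 1)) → Fin (m i) → MvPolynomial (Fin n) ℝ) {D : ℕ}
    (hD : ∑ i, ∑ j, (P i j).totalDegree ≤ D) :
    volume {x : (EuclideanSpace ℝ (Fin n)) | ∃ z, ∀ i, z + t i • x ∈ bas (P i)} ≤
      (((1 + n * (2 + D)) ^ n) ^ n : ℕ) * ∑ i, wt t i * volume (bas (P i)) := by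
  set B : ℕ → Set (EuclideanSpace ℝ (Fin n)) := fun k => {x | ∃ z, (x, z) ∈ goodS t P (k + 1) ∧
    1 / ((k:ℝ) + 1) < ev (bigS t P (k + 1)) (x, z)} with hB
  have hBk : ∀ k, volume (B k) ≤
      (((1 + n * (2 + D)) ^ n) ^ n : ℕ) * ∑ i, wt t i * volume (bas (P i)) := by
    intro k
    have hk0 : (0:ℝ) < (k:ℝ) + 1 := by positivity
    refine keyS ht (fun i => (isOpen_bas (P i)).measurableSet) (contDiff_gz (bigS t P (k + 1)))
      (gz_fibre hn _ (by omega) (totalDegree_bigS_le t P hD _)) (isOpen_goodS t P (k + 1)) ?_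
      (ε := 1 / ((k:ℝ) + 1) / (2 * ((k:ℝ) + 1))) (by positivity) ?_
    · rintro ⟨x, z⟩ hp i
      exact hp.2 i
    · intro ℓ hℓ x hx
      exact exists_critS t P hk0 hx hℓ
  have hmono : Monotone B := by
    intro k k' hkk'
    rintro x ⟨z, hz, hη⟩
    have hk0 : (0:ℝ) < (k:ℝ) + 1 := by positivity
    have hkk : (k:ℝ) + 1 ≤ (k':ℝ) + 1 := by
      have : (k:ℝ) ≤ k' := by exact_mod_cast hkk'
      linarith
    have hz' : (x, z) ∈ goodS t P (k' + 1) := ⟨lt_of_lt_of_le hz.1 hkk, hz.2⟩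
    refine ⟨z, hz', ?_⟩
    have h1 : 1 / ((k':ℝ) + 1) ≤ 1 / ((k:ℝ) + 1) := one_div_le_one_div_of_le hk0 hkk
    refine lt_of_le_of_lt h1 (lt_of_lt_of_le hη ?_)
    rw [ev_bigS, ev_bigS]
    apply mul_le_mul_of_nonneg_right
    · have : ((k:ℝ) + 1) ^ 2 ≤ ((k':ℝ) + 1) ^ 2 := by gcongr
      linarith
    · apply Finset.prod_nonneg
      intro i _
      apply Finset.prod_nonneg
      intro j _
      exact (hz.2 i j).le
  have hunion : {x : (EuclideanSpace ℝ (Fin n)) | ∃ z, ∀ i, z + t i • x ∈ bas (P i)} ⊆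
      ⋃ k, B k := by
    rintro x ⟨z, hz⟩
    obtain ⟨k0, hk0⟩ := exists_nat_gt ‖z‖
    have hgood0 : (x, z) ∈ goodS t P (k0 + 1) := ⟨by
      show ‖z‖ < (k0:ℝ) + 1
      linarith, hz⟩
    have hpos := ev_bigS_pos t P hgood0
    obtain ⟨k1, hk1⟩ := exists_nat_gt (1 / ev (bigS t P (k0 + 1)) (x, z))
    refine mem_iUnion.2 ⟨max k0 k1, z, ?_, ?_⟩
    · refine ⟨?_, hz⟩
      show ‖z‖ < ((max k0 k1 : ℕ):ℝ) + 1
      have : (k0:ℝ) ≤ ((max k0 k1 : ℕ):ℝ) := by exact_mod_cast le_max_left _ _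
      linarith
    · have hk0' : (k0:ℝ) ≤ ((max k0 k1 : ℕ):ℝ) := by exact_mod_cast le_max_left _ _
      have hk1' : (k1:ℝ) ≤ ((max k0 k1 : ℕ):ℝ) := by exact_mod_cast le_max_right _ _
      set k := max k0 k1 with hk
      have h1 : ev (bigS t P (k0 + 1)) (x, z) ≤ ev (bigS t P (k + 1)) (x, z) := by
        rw [ev_bigS, ev_bigS]
        apply mul_le_mul_of_nonneg_right
        · have : ((k0:ℝ) + 1) ^ 2 ≤ ((k:ℝ) + 1) ^ 2 := by gcongr
          linarith
        · apply Finset.prod_nonneg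
          intro i _
          apply Finset.prod_nonneg
          intro j _
          exact (hz i j).le
      refine lt_of_lt_of_le ?_ h1
      rw [div_lt_iff₀ (by positivity)]
      rw [div_lt_iff₀ hpos] at hk1
      nlinarith
  calc volume {x : (EuclideanSpace ℝ (Fin n)) | ∃ z, ∀ i, z + t i • x ∈ bas (P i)}
      ≤ volume (⋃ k, B k) := measure_mono hunion
    _ = ⨆ k, volume (B k) := hmono.measure_iUnion
    _ ≤ _ := iSup_le hBk

end Pool.Agent.TH539.SA
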