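import Pool.Agent.TH539.SABasic
import Pool.Agent.TH539.Kernel

set_option autoImplicit false

/-!
Velocities of lines meeting `d + 1` slices covered by semialgebraic sets of bounded complexity.
-/

open MeasureTheory Set ENNReal NNReal

namespace Pool.Agent.TH539.SA

variable {d : ℕ}

/-- `S` is given by finitely many inequalities `P i > 0`, of degrees adding up to at most `D`. -/
def BasicOpen (D : ℕ) (S : Set (Fin d → ℝ)) : Prop :=
  ∃ (m : ℕ) (P : Fin m → MvPolynomial (Fin d) ℝ), ∑ i, (P i).totalDegree ≤ D ∧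
    S = {x | ∀ i, 0 < MvPolynomial.eval x (P i)}

/-- `A` is the union of `D` basic open sets of degree at most `D`. -/
def ComplexityLE (D : ℕ) (A : Set (Fin d → ℝ)) : Prop :=
  ∃ S : Fin D → Set (Fin d → ℝ), (∀ i, BasicOpen D (S i)) ∧ A = ⋃ i, S i

/-- `A` is contained in a set of complexity at most `D` and volume at most `m`. -/
def SACover (D : ℕ) (m : ℝ≥0∞) (A : Set (Fin d → ℝ)) : Prop :=
  ∃ S : Set (Fin d → ℝ), ComplexityLE D S ∧ A ⊆ S ∧ volume S ≤ m

/-- Lines meeting `d + 1` sets of the class `C`. -/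
def Vel (d : ℕ) (Λ : ℝ≥0∞) (C : ℝ≥0∞ → Set (Fin d → ℝ) → Prop) : Prop :=
  ∀ (t : Fin (d + 1) → ℝ), Function.Injective t → ∀ (m : Fin (d + 1) → ℝ≥0∞)
    (A : Fin (d + 1) → Set (Fin d → ℝ)), (∀ i, C (m i) (A i)) →
    volume {v : Fin d → ℝ | ∃ q : Fin d → ℝ, ∀ i, q + t i • v ∈ A i} ≤
      4 ^ d * (d:ℝ≥0∞) ^ d * Λ *
        ∑ i, m i * ∏ j : Fin d, (ENNReal.ofReal |t i - t (i.succAbove j)|)⁻¹

theorem wt_eq {t : Fin (d + 1) → ℝ} (ht : Function.Injective t) (i : Fin (d + 1)) :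
    wt t i = ∏ j : Fin d, (ENNReal.ofReal |t i - t (i.succAbove j)|)⁻¹ := by
  classical
  unfold wt
  rw [prod_erase_eq (fun k => |t i - t k|) i]
  have hpos : ∀ j : Fin d, 0 < |t i - t (i.succAbove j)| := by
    intro j
    rw [abs_pos, sub_ne_zero]
    intro h
    exact (Fin.succAbove_ne i j) (ht h).symm
  rw [ENNReal.ofReal_inv_of_pos (Finset.prod_pos fun j _ => hpos j),
    ENNReal.ofReal_prod_of_nonneg (fun j _ => (hpos j).le)]
  rw [ENNReal.prod_inv_distrib]
  intro i _ j _ _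
  exact Or.inr ENNReal.ofReal_ne_top

theorem volume_eucl (s : Set (Fin d → ℝ)) :
    volume {x : EuclideanSpace ℝ (Fin d) | (fun i => x i) ∈ s} = volume s := by
  have h := (EuclideanSpace.volume_preserving_symm_measurableEquiv_toLp (Fin d)).measure_preimage_equiv s
  rw [← h]
  rfl

/-- Basic open slices, in coordinates. -/
theorem basic_vel (hd : 1 ≤ d) {t : Fin (d + 1) → ℝ} (ht : Function.Injective t) {D : ℕ}
    {S : Fin (d + 1) → Set (Fin d → ℝ)} (hS : ∀ i, BasicOpen D (S i)) :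
    volume {v : Fin d → ℝ | ∃ q : Fin d → ℝ, ∀ i, q + t i • v ∈ S i} ≤
      (((1 + d * (2 + (d + 1) * D)) ^ d) ^ d : ℕ) * ∑ i, wt t i * volume (S i) := by
  choose m P hP hSP using hS
  have h := basicS (n := d) hd ht (m := m) P (D := (d + 1) * D) (by
    calc ∑ i, ∑ j, (P i j).totalDegree ≤ ∑ _i : Fin (d + 1), D :=
          Finset.sum_le_sum fun i _ => hP i
      _ = (d + 1) * D := by simp)
  have e1 : volume {v : Fin d → ℝ | ∃ q : Fin d → ℝ, ∀ i, q + t i • v ∈ S i} =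
      volume {x : EuclideanSpace ℝ (Fin d) | ∃ z, ∀ i, z + t i • x ∈ Pool.Agent.W770.SA.bas (P i)} := by
    rw [← volume_eucl]
    congr 1
    ext x
    simp only [mem_ofPred_eq]
    constructor
    · rintro ⟨q, hq⟩
      refine ⟨WithLp.toLp 2 q, fun i => ?_⟩
      have h1 := hq i
      rw [hSP i] at h1
      exact h1
    · rintro ⟨z, hz⟩
      refine ⟨fun i => z i, fun i => ?_⟩
      have h1 := hz i
      rw [hSP i]
      exact h1
  have e2 : ∀ i, volume (Pool.Agent.W770.SA.bas (P i)) = volume (S i) := by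
    intro i
    rw [← volume_eucl (S i), hSP i]
    rfl
  rw [e1]
  refine h.trans (le_of_eq ?_)
  simp_rw [e2]

/-- The constant of the velocity estimate. -/
def lam (d D : ℕ) : ℕ := D ^ (d + 1) * ((1 + d * (2 + (d + 1) * D)) ^ d) ^ d

/-- Velocities of lines meeting `d + 1` semialgebraic slices. -/
theorem sa_vel (hd : 1 ≤ d) (D : ℕ) : Vel d (lam d D : ℝ≥0∞) (SACover (d := d) D) := by
  classical
  intro t ht m A hA
  choose S hS hAS hSm using hA
  choose T hT hST using hS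
  have hsub : {v : Fin d → ℝ | ∃ q : Fin d → ℝ, ∀ i, q + t i • v ∈ A i} ⊆
      ⋃ f : Fin (d + 1) → Fin D,
        {v : Fin d → ℝ | ∃ q : Fin d → ℝ, ∀ i, q + t i • v ∈ T i (f i)} := by
    rintro v ⟨q, hq⟩
    have : ∀ i, ∃ j, q + t i • v ∈ T i j := fun i => by
      have h1 := hAS i (hq i)
      rw [hST i] at h1
      simpa using h1
    choose f hf using this
    exact mem_iUnion.2 ⟨f, q, hf⟩
  have hone : (1:ℝ≥0∞) ≤ 4 ^ d * (d:ℝ≥0∞) ^ d := by
    have h1 : (1:ℝ≥0∞) ≤ 4 ^ d := one_le_pow₀ (by norm_num)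
    have h2 : (1:ℝ≥0∞) ≤ (d:ℝ≥0∞) ^ d := one_le_pow₀ (by exact_mod_cast hd)
    calc (1:ℝ≥0∞) = 1 * 1 := (one_mul 1).symm
      _ ≤ _ := mul_le_mul' h1 h2
  calc volume {v : Fin d → ℝ | ∃ q : Fin d → ℝ, ∀ i, q + t i • v ∈ A i}
      ≤ _ := measure_mono hsub
    _ ≤ ∑ f : Fin (d + 1) → Fin D,
        volume {v : Fin d → ℝ | ∃ q : Fin d → ℝ, ∀ i, q + t i • v ∈ T i (f i)} :=
        measure_iUnion_fintype_le _ _
    _ ≤ ∑ _f : Fin (d + 1) → Fin D,
        (((1 + d * (2 + (d + 1) * D)) ^ d) ^ d : ℕ) * ∑ i, wt t i * m i := by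
        refine Finset.sum_le_sum fun f _ => ?_
        refine (basic_vel hd ht (fun i => hT i (f i))).trans ?_
        gcongr with i _
        refine le_trans (measure_mono ?_) (hSm i)
        rw [hST i]
        exact subset_iUnion (T i) (f i)
    _ = (lam d D : ℝ≥0∞) * ∑ i, wt t i * m i := by
        rw [Finset.sum_const, Finset.card_univ, Fintype.card_fun, Fintype.card_fin,
          Fintype.card_fin, nsmul_eq_mul, ← mul_assoc]
        congr 1
        unfold lam
        push_cast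
        ring
    _ = 1 * (lam d D : ℝ≥0∞) * ∑ i, m i * ∏ j : Fin d,
          (ENNReal.ofReal |t i - t (i.succAbove j)|)⁻¹ := by
        rw [one_mul]
        congr 1
        refine Finset.sum_congr rfl fun i _ => ?_
        rw [wt_eq ht i, mul_comm]
    _ ≤ _ := by gcongr

end Pool.Agent.TH539.SA
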