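import Mathlib

set_option autoImplicit false

/-!
Convex sets, determinants and Lagrange interpolation.
-/

open MeasureTheory Set ENNReal NNReal Matrix
open scoped Pointwise

namespace Pool.Agent.TH539

variable {d : ℕ}

/-- The image of the cube `[0, 1/d]^d` under the map `y ↦ x₀ + ∑ y_j u_j`. -/
lemma volume_image_cube (a b : ℝ) (x0 : Fin d → ℝ) (U : Matrix (Fin d) (Fin d) ℝ) :
    volume ((fun y : Fin d → ℝ => x0 + Uᵀ *ᵥ y) '' (Set.pi univ (fun _ => Icc a b))) =
      ENNReal.ofReal |U.det| * ENNReal.ofReal (b - a) ^ d := by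
  have h1 : (fun y : Fin d → ℝ => x0 + Uᵀ *ᵥ y) '' (Set.pi univ (fun _ => Icc a b)) =
      (fun z => x0 + z) '' ((Matrix.toLin' Uᵀ) '' (Set.pi univ (fun _ => Icc a b))) := by
    rw [image_image]
    simp [Matrix.toLin'_apply]
  rw [h1]
  have h2 : (fun z : Fin d → ℝ => x0 + z) '' ((Matrix.toLin' Uᵀ) '' (Set.pi univ (fun _ => Icc a b))) =
    x0 +ᵥ ((Matrix.toLin' Uᵀ) '' (Set.pi univ (fun _ => Icc a b))) := rfl
  rw [h2, measure_vadd, Measure.addHaar_image_linearMap, LinearMap.det_toLin', det_transpose,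
    volume_pi_pi]
  simp

/-- A convex set containing `x₀` and all `x₀ + u_j` has volume at least `|det u| / d ^ d`. -/
lemma det_le_volume_convex {C : Set (Fin d → ℝ)} (hC : Convex ℝ C) {x0 : Fin d → ℝ}
    (U : Matrix (Fin d) (Fin d) ℝ) (h0 : x0 ∈ C) (hU : ∀ j, x0 + U j ∈ C) :
    ENNReal.ofReal |U.det| ≤ (d:ℝ≥0∞) ^ d * volume C := by
  rcases Nat.eq_zero_or_pos d with hd | hd
  · subst hd
    have : C = univ := by
      ext x
      simp only [mem_univ, iff_true]
      rw [Subsingleton.elim x x0]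
      exact h0
    have h1 : volume (univ : Set (Fin 0 → ℝ)) = 1 := by
      rw [volume_pi, Measure.pi_of_empty (fun _ : Fin 0 => (volume : Measure ℝ)) x0]
      simp
    simp [this, h1]
  have hd' : (0:ℝ) < d := by exact_mod_cast hd
  have hsub : (fun y : Fin d → ℝ => x0 + Uᵀ *ᵥ y) '' (Set.pi univ (fun _ => Icc (0:ℝ) (1/d))) ⊆ C := by
    rintro _ ⟨y, hy, rfl⟩
    have hy' : ∀ j, 0 ≤ y j ∧ y j ≤ 1 / d := fun j => by simpa using hy j (mem_univ j)
    have hsum : ∑ j, y j ≤ 1 := by
      calc ∑ j, y j ≤ ∑ _j : Fin d, (1:ℝ) / d := Finset.sum_le_sum fun j _ => (hy' j).2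
        _ = 1 := by
          rw [Finset.sum_const, Finset.card_univ, Fintype.card_fin, nsmul_eq_mul]
          field_simp
    have hcomb : x0 + Uᵀ *ᵥ y = (1 - ∑ j, y j) • x0 + ∑ j, y j • (x0 + U j) := by
      simp only [smul_add, Finset.sum_add_distrib, ← Finset.sum_smul, sub_smul, one_smul]
      ext i
      simp only [Pi.add_apply, Pi.sub_apply, Pi.smul_apply, smul_eq_mul, Finset.sum_apply,
        Matrix.mulVec, dotProduct, Matrix.transpose_apply]
      have : ∑ x, U x i * y x = ∑ c, y c * U c i := Finset.sum_congr rfl fun _ _ => mul_comm _ _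
      rw [this]; ring
    show x0 + Uᵀ *ᵥ y ∈ C
    rw [hcomb]
    have key := hC.sum_mem (t := (Finset.univ : Finset (Option (Fin d))))
      (w := fun o => o.elim (1 - ∑ j, y j) y) (z := fun o => o.elim x0 (fun j => x0 + U j))
      (by rintro (_ | j) _
          · simpa using hsum
          · simpa using (hy' j).1)
      (by rw [Fintype.sum_option]; simp)
      (by rintro (_ | j) _
          · simpa using h0
          · simpa using hU j)
    rw [Fintype.sum_option] at key
    simpa using key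
  have hvol := measure_mono (μ := volume) hsub
  rw [volume_image_cube] at hvol
  have hdd : (d:ℝ≥0∞) ^ d * ENNReal.ofReal (1 / d - 0) ^ d = 1 := by
    rw [← mul_pow, sub_zero, ENNReal.ofReal_div_of_pos hd']
    simp only [ofReal_one, ENNReal.ofReal_natCast]
    rw [ENNReal.mul_div_cancel (by exact_mod_cast hd.ne') (ENNReal.natCast_ne_top d), one_pow]
  calc ENNReal.ofReal |U.det|
      = (d:ℝ≥0∞) ^ d * (ENNReal.ofReal |U.det| * ENNReal.ofReal (1 / d - 0) ^ d) := by
        rw [mul_left_comm, hdd, mul_one]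
    _ ≤ _ := by gcongr

/-- Lagrange interpolation for the leading coefficient of `s ↦ det (A + s W)`. -/
lemma det_eq_sum_lagrange (A W : Matrix (Fin d) (Fin d) ℝ) (t : Fin (d + 1) → ℝ)
    (ht : Function.Injective t) :
    W.det = ∑ i, (A + t i • W).det / ∏ k ∈ Finset.univ.erase i, (t i - t k) := by
  classical
  have h1 := Polynomial.coeff_det_X_add_C_card W A
  have h2 := Polynomial.natDegree_det_X_add_C_le W A
  rw [Fintype.card_fin] at h1 h2
  have h3 := Lagrange.coeff_eq_sum (s := (Finset.univ : Finset (Fin (d + 1)))) (v := t) ht.injOn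
    (P := det ((Polynomial.X : Polynomial ℝ) • W.map Polynomial.C + A.map Polynomial.C)) (by
      rw [Finset.card_univ, Fintype.card_fin]
      refine lt_of_le_of_lt Polynomial.degree_le_natDegree ?_
      exact_mod_cast Nat.lt_succ_of_le h2)
  rw [Finset.card_univ, Fintype.card_fin, Nat.add_sub_cancel, h1] at h3
  rw [h3]
  refine Finset.sum_congr rfl fun i _ => ?_
  congr 1
  rw [← Polynomial.coe_evalRingHom, RingHom.map_det]
  congr 1
  ext a b
  simp [Matrix.add_apply, Matrix.smul_apply]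
  ring

/-- Determinant bound: lines `s ↦ q j + s v j` meeting convex sets `C i` at times `t i`. -/
lemma det_le_sum_volume {t : Fin (d + 1) → ℝ} (ht : Function.Injective t)
    {C : Fin (d + 1) → Set (Fin d → ℝ)} (hC : ∀ i, Convex ℝ (C i))
    (v q : Fin (d + 1) → (Fin d → ℝ)) (h : ∀ i j, q j + t i • v j ∈ C i) :
    ENNReal.ofReal |(Matrix.of fun j : Fin d => v j.succ - v 0).det| ≤
      ∑ i, (d:ℝ≥0∞) ^ d * volume (C i) *
        ENNReal.ofReal (∏ k ∈ Finset.univ.erase i, |t i - t k|)⁻¹ := by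
  classical
  set W : Matrix (Fin d) (Fin d) ℝ := Matrix.of fun j : Fin d => v j.succ - v 0 with hW
  set A : Matrix (Fin d) (Fin d) ℝ := Matrix.of fun j : Fin d => q j.succ - q 0 with hA
  have hdet : ∀ i, ENNReal.ofReal |(A + t i • W).det| ≤ (d:ℝ≥0∞) ^ d * volume (C i) := by
    intro i
    apply det_le_volume_convex (hC i) (x0 := q 0 + t i • v 0) _ (h i 0)
    intro j
    have : q 0 + t i • v 0 + (A + t i • W) j = q j.succ + t i • v j.succ := by
      ext l
      simp [hA, hW]
      ring
    rw [this]; exact h i j.succ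
  calc ENNReal.ofReal |W.det|
      = ENNReal.ofReal |∑ i, (A + t i • W).det / ∏ k ∈ Finset.univ.erase i, (t i - t k)| := by
        rw [← det_eq_sum_lagrange A W t ht]
    _ ≤ ENNReal.ofReal (∑ i, |(A + t i • W).det / ∏ k ∈ Finset.univ.erase i, (t i - t k)|) :=
        ENNReal.ofReal_le_ofReal (Finset.abs_sum_le_sum_abs _ _)
    _ = ∑ i, ENNReal.ofReal |(A + t i • W).det / ∏ k ∈ Finset.univ.erase i, (t i - t k)| := by
        rw [ENNReal.ofReal_sum_of_nonneg fun _ _ => abs_nonneg _]
    _ ≤ _ := by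
        refine Finset.sum_le_sum fun i _ => ?_
        rw [abs_div, div_eq_mul_inv, ENNReal.ofReal_mul (abs_nonneg _), Finset.abs_prod]
        gcongr
        exact hdet i

end Pool.Agent.TH539
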