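import Pool.Agent.W770.SA.Basic
import Pool.Agent.TH539.Simplex

set_option autoImplicit false

/-!
Lines meeting `d + 1` slices which are unrelated semialgebraic sets.
-/

open MeasureTheory Set Filter Topology ENNReal NNReal Metric

namespace Pool.Agent.TH539.SA

open Pool.Agent.W770.SA Pool.Agent.H803R2.Kak Pool.Agent.H803R2.KakFTO Pool.Agent.H805R3.Kk

variable {n : ℕ}

/-- Genericity of the fibre bound, for one height. -/
theorem fibreS {G : (EuclideanSpace ℝ (Fin n)) × (EuclideanSpace ℝ (Fin n)) → (EuclideanSpace ℝ (Fin n))}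
    (hG : Continuous G) {N : ℕ} (s : ℝ)
    (hN : ∀ (y : (EuclideanSpace ℝ (Fin n))), ∀ᵐ ℓ : (EuclideanSpace ℝ (Fin n)),
      {x | G (x, y - s • x) = ℓ}.encard ≤ N) :
    ∀ᵐ ℓ : (EuclideanSpace ℝ (Fin n)), ∀ᵐ y : (EuclideanSpace ℝ (Fin n)),
      {x | G (x, y - s • x) = ℓ}.encard ≤ N := by
  have hm : MeasurableSet {q : (EuclideanSpace ℝ (Fin n)) × (EuclideanSpace ℝ (Fin n)) |
      {x | G (x, q.1 - s • x) = q.2}.encard ≤ N} := by
    have h : {q : (EuclideanSpace ℝ (Fin n)) × (EuclideanSpace ℝ (Fin n)) |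
          {x | G (x, q.1 - s • x) = q.2}.encard ≤ N}ᶜ =
        (fun p : (Fin (N + 1) → (EuclideanSpace ℝ (Fin n))) ×
            ((EuclideanSpace ℝ (Fin n)) × (EuclideanSpace ℝ (Fin n))) => p.2) ''
          ({p | ∀ i j, i ≠ j → p.1 i ≠ p.1 j} ∩
            {p | ∀ i, G (p.1 i, p.2.1 - s • p.1 i) = p.2.2}) := by
      ext q
      rw [mem_compl_iff, mem_ofPred_eq, encard_gt_iff]
      constructor
      · rintro ⟨w, hw, hws⟩
        exact ⟨(w, q), ⟨fun i j hij h => hij (hw h), hws⟩, rfl⟩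
      · rintro ⟨p, ⟨h1, h2⟩, rfl⟩
        refine ⟨p.1, ?_, h2⟩
        intro i j hij
        by_contra h
        exact h1 i j h hij
    rw [← MeasurableSet.compl_iff, h]
    apply measurableSet_of_sigmaCompact
    apply IsSigmaCompact.image continuous_snd
    apply sigmaCompact_of_open_inter_closed
    · have : {p : (Fin (N + 1) → (EuclideanSpace ℝ (Fin n))) ×
            ((EuclideanSpace ℝ (Fin n)) × (EuclideanSpace ℝ (Fin n))) |
            ∀ i j, i ≠ j → p.1 i ≠ p.1 j} =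
          ⋂ i, ⋂ j, ⋂ (_ : i ≠ j), {p | p.1 i ≠ p.1 j} := by
        ext p; simp
      rw [this]
      refine isOpen_iInter_of_finite fun i => isOpen_iInter_of_finite fun j => ?_
      refine isOpen_iInter_of_finite fun _ => ?_
      exact isOpen_ne_fun (by fun_prop) (by fun_prop)
    · have : {p : (Fin (N + 1) → (EuclideanSpace ℝ (Fin n))) ×
            ((EuclideanSpace ℝ (Fin n)) × (EuclideanSpace ℝ (Fin n))) |
          ∀ i, G (p.1 i, p.2.1 - s • p.1 i) = p.2.2} =
          ⋂ i, {p | G (p.1 i, p.2.1 - s • p.1 i) = p.2.2} := by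
        ext p; simp
      rw [this]
      refine isClosed_iInter fun i => ?_
      refine isClosed_eq (hG.comp ?_) (by fun_prop)
      fun_prop
  exact (Measure.ae_ae_comm (μ := (volume : Measure (EuclideanSpace ℝ (Fin n))))
    (ν := (volume : Measure (EuclideanSpace ℝ (Fin n))))
    (p := fun q ℓ => {x | G (x, q - s • x) = ℓ}.encard ≤ N) hm).1
    (Eventually.of_forall fun q => hN q)

/-- The weights of Lagrange interpolation. -/
noncomputable def wt {d : ℕ} (t : Fin (d + 1) → ℝ) (i : Fin (d + 1)) : ℝ≥0∞ :=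
  ENNReal.ofReal (∏ k ∈ Finset.univ.erase i, |t i - t k|)⁻¹

theorem one_le_sum_det {t : Fin (n + 1) → ℝ} (ht : Function.Injective t)
    (L : (EuclideanSpace ℝ (Fin n)) →L[ℝ] (EuclideanSpace ℝ (Fin n))) :
    1 ≤ ∑ i, wt t i *
      ENNReal.ofReal |(L + t i • ContinuousLinearMap.id ℝ (EuclideanSpace ℝ (Fin n))).det| := by
  classical
  set b := (EuclideanSpace.basisFun (Fin n) ℝ).toBasis with hb
  set A : Matrix (Fin n) (Fin n) ℝ := LinearMap.toMatrix b b (L : _ →ₗ[ℝ] _) with hA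
  have hdet : ∀ s : ℝ, (L + s • ContinuousLinearMap.id ℝ (EuclideanSpace ℝ (Fin n))).det =
      (A + s • (1 : Matrix (Fin n) (Fin n) ℝ)).det := by
    intro s
    have h1 : A + s • (1 : Matrix (Fin n) (Fin n) ℝ) = LinearMap.toMatrix b b
        ((L + s • ContinuousLinearMap.id ℝ (EuclideanSpace ℝ (Fin n)) :
          (EuclideanSpace ℝ (Fin n)) →L[ℝ] (EuclideanSpace ℝ (Fin n))) : _ →ₗ[ℝ] _) := by
      have h2 : ((L + s • ContinuousLinearMap.id ℝ (EuclideanSpace ℝ (Fin n)) :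
          (EuclideanSpace ℝ (Fin n)) →L[ℝ] (EuclideanSpace ℝ (Fin n))) :
          (EuclideanSpace ℝ (Fin n)) →ₗ[ℝ] (EuclideanSpace ℝ (Fin n))) =
          (L : (EuclideanSpace ℝ (Fin n)) →ₗ[ℝ] (EuclideanSpace ℝ (Fin n))) + s • LinearMap.id := by
        ext x
        simp
      rw [h2, map_add, map_smul, LinearMap.toMatrix_id, hA]
    rw [h1, LinearMap.det_toMatrix]
  have hL := det_eq_sum_lagrange A 1 t ht
  rw [Matrix.det_one] at hL
  have h1 : ENNReal.ofReal 1 ≤ ENNReal.ofReal (∑ i,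
      |(A + t i • (1 : Matrix (Fin n) (Fin n) ℝ)).det / ∏ k ∈ Finset.univ.erase i, (t i - t k)|) := by
    apply ENNReal.ofReal_le_ofReal
    calc (1:ℝ) = |∑ i, (A + t i • (1 : Matrix (Fin n) (Fin n) ℝ)).det /
          ∏ k ∈ Finset.univ.erase i, (t i - t k)| := by rw [← hL, abs_one]
      _ ≤ _ := Finset.abs_sum_le_sum_abs _ _
  rw [ENNReal.ofReal_one, ENNReal.ofReal_sum_of_nonneg fun _ _ => abs_nonneg _] at h1
  refine h1.trans (le_of_eq ?_)
  refine Finset.sum_congr rfl fun i _ => ?_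
  rw [abs_div, div_eq_mul_inv, ENNReal.ofReal_mul (abs_nonneg _), Finset.abs_prod, hdet, wt,
    mul_comm]

/-- **The abstract key theorem for `n + 1` slices.** -/
theorem keyS {N : ℕ} {t : Fin (n + 1) → ℝ} (ht : Function.Injective t)
    {S : Fin (n + 1) → Set (EuclideanSpace ℝ (Fin n))} (hS : ∀ i, MeasurableSet (S i))
    {G : (EuclideanSpace ℝ (Fin n)) × (EuclideanSpace ℝ (Fin n)) → (EuclideanSpace ℝ (Fin n))}
    (hG : ContDiff ℝ 1 G)
    (hN : ∀ (s : ℝ) (y : (EuclideanSpace ℝ (Fin n))), ∀ᵐ ℓ : (EuclideanSpace ℝ (Fin n)),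
      {x | G (x, y - s • x) = ℓ}.encard ≤ N)
    {U : Set ((EuclideanSpace ℝ (Fin n)) × (EuclideanSpace ℝ (Fin n)))} (hU : IsOpen U)
    (hUS : ∀ p ∈ U, ∀ i, p.2 + t i • p.1 ∈ S i)
    {B : Set (EuclideanSpace ℝ (Fin n))} {ε : ℝ} (hε : 0 < ε)
    (hB : ∀ ℓ : (EuclideanSpace ℝ (Fin n)), ‖ℓ‖ < ε → ∀ x ∈ B, ∃ z, (x, z) ∈ U ∧ G (x, z) = ℓ) :
    volume B ≤ N * ∑ i, wt t i * volume (S i) := by
  classical
  -- choose a generic small ℓ
  have hfib : ∀ᵐ ℓ : (EuclideanSpace ℝ (Fin n)), ∀ i, ∀ᵐ y : (EuclideanSpace ℝ (Fin n)),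
      {x | G (x, y - t i • x) = ℓ}.encard ≤ N := by
    rw [ae_all_iff]
    intro i
    exact fibreS hG.continuous (t i) (hN (t i))
  have hgen := (sard hG).and hfib
  obtain ⟨ℓ, hℓε, hreg, hfib⟩ : ∃ ℓ : (EuclideanSpace ℝ (Fin n)), ‖ℓ‖ < ε ∧
      (∀ᵐ x : (EuclideanSpace ℝ (Fin n)), ∀ z, G (x, z) = ℓ → (dz G (x, z)).det ≠ 0) ∧
      ∀ i, ∀ᵐ y : (EuclideanSpace ℝ (Fin n)), {x | G (x, y - t i • x) = ℓ}.encard ≤ N := by
    by_contra hno
    have h1 : ball (0:(EuclideanSpace ℝ (Fin n))) ε ⊆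
      {ℓ | ¬ ((∀ᵐ x : (EuclideanSpace ℝ (Fin n)), ∀ z, G (x, z) = ℓ → (dz G (x, z)).det ≠ 0) ∧
      ∀ i, ∀ᵐ y : (EuclideanSpace ℝ (Fin n)), {x | G (x, y - t i • x) = ℓ}.encard ≤ N)} := by
      intro ℓ hℓ
      rw [mem_ball_zero_iff] at hℓ
      rintro ⟨h2, h3⟩
      exact hno ⟨ℓ, hℓ, h2, h3⟩
    have h2 := measure_mono_null h1 hgen
    exact (measure_ball_pos volume (0:(EuclideanSpace ℝ (Fin n))) hε).ne' h2
  obtain ⟨B1, a, hB1m, ha, haU, hB1⟩ := selection hG hU ℓ
  have hBB1 : volume B ≤ volume B1 := by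
    apply measure_mono_ae
    filter_upwards [hreg] with x hx hxB
    obtain ⟨z, hz, hz2⟩ := hB ℓ hℓε x hxB
    exact hB1 x z hz hz2 (hx z hz2)
  refine hBB1.trans ?_
  obtain ⟨P, a', a₀, hPm, hPd, hPB, hPae, hder, ha'm, ha₀m, ha₀⟩ := ha.exists_good hB1m
  set B2 := ⋃ k, P k with hB2
  have hB2m : MeasurableSet B2 := MeasurableSet.iUnion hPm
  have hv12 : volume B1 = volume B2 := (measure_congr hPae).symm
  rw [hv12]
  -- the area inequality at each height
  have harea : ∀ i, ∫⁻ x in B2,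
      ENNReal.ofReal |(a' x + t i • ContinuousLinearMap.id ℝ (EuclideanSpace ℝ (Fin n))).det| ≤
        N * volume (S i) := by
    intro i
    have hder' : ∀ k, ∀ x ∈ P k, HasFDerivWithinAt (fun x => a x + t i • x)
        (a' x + t i • ContinuousLinearMap.id ℝ (EuclideanSpace ℝ (Fin n))) (P k) x := by
      intro k x hx
      exact (hder k x hx).add ((hasFDerivWithinAt_id x (P k)).const_smul (t i))
    have h1 := lintegral_comp_det_leP (volume : Measure (EuclideanSpace ℝ (Fin n))) (N := N) hPm hPd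
      hder' (ha'm.add_const _) (by
        filter_upwards [hfib i] with y hy
        refine le_trans (Set.encard_le_encard ?_) hy
        rintro x ⟨hx, hxy, -⟩
        have h2 := (haU x (hPB hx)).2
        have h3 : y - t i • x = a x := by rw [← hxy]; abel
        show G (x, y - t i • x) = ℓ
        rw [h3, h2]) (H := (S i).indicator 1) (measurable_one.indicator (hS i))
    rw [lintegral_indicator_one (hS i)] at h1
    refine le_trans (le_of_eq ?_) h1
    apply setLIntegral_congr_fun hB2m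
    intro x hx
    have h2 := hUS _ (haU x (hPB hx)).1 i
    simp only
    rw [indicator_of_mem h2, Pi.one_apply, one_mul]
  have hmeas : ∀ i, Measurable (fun x => ENNReal.ofReal
      |(a' x + t i • ContinuousLinearMap.id ℝ (EuclideanSpace ℝ (Fin n))).det|) := by
    intro i
    apply Measurable.ennreal_ofReal
    apply Measurable.abs
    exact ContinuousLinearMap.continuous_det.measurable.comp (ha'm.add_const _)
  calc volume B2 = ∫⁻ x in B2, 1 := by simp
    _ ≤ ∫⁻ x in B2, ∑ i, wt t i *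
        ENNReal.ofReal |(a' x + t i • ContinuousLinearMap.id ℝ (EuclideanSpace ℝ (Fin n))).det| :=
        lintegral_mono fun x => one_le_sum_det ht (a' x)
    _ = ∑ i, wt t i * ∫⁻ x in B2,
        ENNReal.ofReal |(a' x + t i • ContinuousLinearMap.id ℝ (EuclideanSpace ℝ (Fin n))).det| := by
        rw [lintegral_finsetSum _ fun i _ => (hmeas i).const_mul _]
        refine Finset.sum_congr rfl fun i _ => ?_
        rw [lintegral_const_mul _ (hmeas i)]
    _ ≤ ∑ i, wt t i * (N * volume (S i)) := by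
        gcongr with i _
        exact harea i
    _ = _ := by
        rw [Finset.mul_sum]
        refine Finset.sum_congr rfl fun i _ => ?_
        ring

end Pool.Agent.TH539.SA
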