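import Pool.Agent.TH539.SACover

set_option autoImplicit false

/-!
Velocities of lines meeting `d + 1` slices covered by semialgebraic or by convex pieces.
-/

open MeasureTheory Set ENNReal NNReal Filter

namespace Pool.Agent.TH539.SA

variable {d : ℕ}

/-- `B` is given by finitely many inequalities `P i > 0` and `Q j ≥ 0`, of degrees adding up
to at most `D`. -/
def Basic (D : ℕ) (B : Set (Fin d → ℝ)) : Prop :=
  ∃ (a b : ℕ) (P : Fin a → MvPolynomial (Fin d) ℝ) (Q : Fin b → MvPolynomial (Fin d) ℝ),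
    ∑ i, (P i).totalDegree + ∑ j, (Q j).totalDegree ≤ D ∧
    B = {x | (∀ i, 0 < MvPolynomial.eval x (P i)) ∧ ∀ j, 0 ≤ MvPolynomial.eval x (Q j)}

/-- A piece of degree `D`. -/
def Piece (D : ℕ) (B : Set (Fin d → ℝ)) : Prop := if D = 0 then Convex ℝ B else Basic D B

/-- `A` is covered by `N` pieces of degree `D` of total volume at most `m`. -/
def Cover (N D : ℕ) (m : ℝ≥0∞) (A : Set (Fin d → ℝ)) : Prop :=
  ∃ B : Fin N → Set (Fin d → ℝ), (∀ j, Piece D (B j)) ∧ A ⊆ ⋃ j, B j ∧ ∑ j, volume (B j) ≤ m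

/-- `A` is the union of `N` pieces of degree `D`. -/
def UnionOf (N D : ℕ) (A : Set (Fin d → ℝ)) : Prop :=
  ∃ B : Fin N → Set (Fin d → ℝ), (∀ j, Piece D (B j)) ∧ A = ⋃ j, B j

lemma UnionOf.cover {N D : ℕ} {A B : Set (Fin d → ℝ)} (hA : UnionOf N D A) (hAB : A ⊆ B) :
    Cover N D ((N:ℝ≥0∞) * volume B) A := by
  obtain ⟨C, hC, rfl⟩ := hA
  refine ⟨C, hC, le_refl _, ?_⟩
  calc ∑ j, volume (C j) ≤ ∑ _j : Fin N, volume B :=
        Finset.sum_le_sum fun j _ => measure_mono ((subset_iUnion C j).trans hAB)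
    _ = _ := by simp

lemma piece_empty (D : ℕ) : Piece D (∅ : Set (Fin d → ℝ)) := by
  unfold Piece
  split_ifs with h
  · exact convex_empty
  · refine ⟨1, 0, fun _ => 0, fun i => i.elim0, by simp, ?_⟩
    ext x
    simp

lemma cover_empty (N D : ℕ) (m : ℝ≥0∞) : Cover N D m (∅ : Set (Fin d → ℝ)) :=
  ⟨fun _ => ∅, fun _ => piece_empty D, empty_subset _, by simp⟩

/-- The ball polynomial. -/
noncomputable def ballP (d : ℕ) (R : ℝ) : MvPolynomial (Fin d) ℝ :=
  MvPolynomial.C (R ^ 2) - ∑ l, MvPolynomial.X l ^ 2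

lemma eval_ballP (R : ℝ) (x : Fin d → ℝ) :
    MvPolynomial.eval x (ballP d R) = R ^ 2 - ∑ l, x l ^ 2 := by
  simp [ballP]

lemma deg_ballP (R : ℝ) : (ballP d R).totalDegree ≤ 2 := by
  unfold ballP
  refine (MvPolynomial.totalDegree_sub _ _).trans (max_le ?_ ?_)
  · rw [MvPolynomial.totalDegree_C]; omega
  · refine MvPolynomial.totalDegree_finsetSum_le fun l _ => ?_
    refine (MvPolynomial.totalDegree_pow _ _).trans ?_
    rw [MvPolynomial.totalDegree_X]

/-- The open approximation of a basic set. -/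
def approx {a b : ℕ} (P : Fin a → MvPolynomial (Fin d) ℝ) (Q : Fin b → MvPolynomial (Fin d) ℝ)
    (R : ℝ) (ε : ℝ) : Set (Fin d → ℝ) :=
  {x | (∀ i, 0 < MvPolynomial.eval x (P i)) ∧ (∀ j, -ε < MvPolynomial.eval x (Q j)) ∧
    ∑ l, x l ^ 2 < R ^ 2}

lemma basicOpen_approx {a b : ℕ} (P : Fin a → MvPolynomial (Fin d) ℝ)
    (Q : Fin b → MvPolynomial (Fin d) ℝ) (R ε : ℝ) {D : ℕ}
    (hD : ∑ i, (P i).totalDegree + ∑ j, (Q j).totalDegree ≤ D) :
    BasicOpen (D + 2) (approx P Q R ε) := by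
  classical
  refine ⟨a + b + 1, Fin.append (Fin.append P (fun j => Q j + MvPolynomial.C ε))
    (fun _ : Fin 1 => ballP d R), ?_, ?_⟩
  · rw [Fin.sum_univ_add, Fin.sum_univ_add]
    simp only [Fin.append_left, Fin.append_right, Finset.univ_unique, Finset.sum_singleton]
    have h1 : ∀ j, (Q j + MvPolynomial.C ε).totalDegree ≤ (Q j).totalDegree := by
      intro j
      refine (MvPolynomial.totalDegree_add _ _).trans (max_le le_rfl ?_)
      rw [MvPolynomial.totalDegree_C]; exact Nat.zero_le _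
    have h2 := deg_ballP (d := d) R
    have h3 : ∑ j, (Q j + MvPolynomial.C ε).totalDegree ≤ ∑ j, (Q j).totalDegree :=
      Finset.sum_le_sum fun j _ => h1 j
    omega
  · ext x
    simp only [approx, mem_ofPred_eq]
    constructor
    · rintro ⟨h1, h2, h3⟩ i
      refine Fin.addCases (fun i => ?_) (fun i => ?_) i
      · rw [Fin.append_left]
        refine Fin.addCases (fun i => ?_) (fun i => ?_) i
        · rw [Fin.append_left]; exact h1 i
        · rw [Fin.append_right, map_add, MvPolynomial.eval_C]; linarith [h2 i]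
      · rw [Fin.append_right, eval_ballP]; linarith
    · intro h
      refine ⟨fun i => ?_, fun j => ?_, ?_⟩
      · have := h (Fin.castAdd 1 (Fin.castAdd b i))
        rwa [Fin.append_left, Fin.append_left] at this
      · have := h (Fin.castAdd 1 (Fin.natAdd a j))
        rw [Fin.append_left, Fin.append_right, map_add, MvPolynomial.eval_C] at this
        linarith
      · have := h (Fin.natAdd (a + b) 0)
        rw [Fin.append_right, eval_ballP] at this
        linarith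

lemma measurableSet_approx {a b : ℕ} (P : Fin a → MvPolynomial (Fin d) ℝ)
    (Q : Fin b → MvPolynomial (Fin d) ℝ) (R ε : ℝ) : MeasurableSet (approx P Q R ε) := by
  have hc : ∀ p : MvPolynomial (Fin d) ℝ, Measurable fun x : Fin d → ℝ => MvPolynomial.eval x p :=
    fun p => (MvPolynomial.continuous_eval p).measurable
  have e : approx P Q R ε = (⋂ i, {x | 0 < MvPolynomial.eval x (P i)}) ∩
      ((⋂ j, {x | -ε < MvPolynomial.eval x (Q j)}) ∩ {x | ∑ l, x l ^ 2 < R ^ 2}) := by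
    ext x; simp [approx]
  rw [e]
  refine (MeasurableSet.iInter fun i => measurableSet_lt measurable_const (hc _)).inter
    ((MeasurableSet.iInter fun j => measurableSet_lt measurable_const (hc _)).inter ?_)
  exact measurableSet_lt (by fun_prop) measurable_const

lemma volume_approx_ne_top {a b : ℕ} (P : Fin a → MvPolynomial (Fin d) ℝ)
    (Q : Fin b → MvPolynomial (Fin d) ℝ) (R ε : ℝ) : volume (approx P Q R ε) ≠ ∞ := by
  refine ne_top_of_le_ne_top (b := volume (Metric.closedBall (0 : Fin d → ℝ) |R|)) ?_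
    (measure_mono ?_)
  · exact (isCompact_closedBall _ _).measure_lt_top.ne
  · rintro x ⟨_, _, hx⟩
    rw [mem_closedBall_zero_iff, pi_norm_le_iff_of_nonneg (abs_nonneg _)]
    intro l
    rw [Real.norm_eq_abs]
    refine sq_le_sq.1 ?_
    exact (Finset.single_le_sum (f := fun l => x l ^ 2) (fun i _ => sq_nonneg (x i))
      (Finset.mem_univ l)).trans hx.le

/-- The constant for one choice of pieces. -/
def lamB (d D : ℕ) : ℕ := ((1 + d * (2 + (d + 1) * (D + 2))) ^ d) ^ d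

lemma one_le_lamB (d D : ℕ) : 1 ≤ lamB d D :=
  Nat.one_le_pow _ _ (Nat.pos_of_ne_zero (by positivity))

/-- Basic slices. -/
theorem basic_vel' (hd : 1 ≤ d) {t : Fin (d + 1) → ℝ} (ht : Function.Injective t) {D : ℕ}
    {S : Fin (d + 1) → Set (Fin d → ℝ)} (hS : ∀ i, Basic D (S i)) :
    volume {v : Fin d → ℝ | ∃ q : Fin d → ℝ, ∀ i, q + t i • v ∈ S i} ≤
      (lamB d D : ℝ≥0∞) * ∑ i, wt t i * volume (S i) := by
  choose a b P Q hdeg hSe using hS
  set V : ℕ → Set (Fin d → ℝ) := fun R => {v : Fin d → ℝ | ∃ q : Fin d → ℝ, ∀ i,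
    q + t i • v ∈ S i ∧ ∑ l, (q + t i • v) l ^ 2 < (R:ℝ) ^ 2} with hV
  have hVmono : Monotone V := by
    rintro R R' hRR v ⟨q, hq⟩
    refine ⟨q, fun i => ⟨(hq i).1, (hq i).2.trans_le ?_⟩⟩
    have : (R:ℝ) ≤ R' := by exact_mod_cast hRR
    gcongr
  have hVun : {v : Fin d → ℝ | ∃ q : Fin d → ℝ, ∀ i, q + t i • v ∈ S i} = ⋃ R, V R := by
    ext v
    simp only [mem_iUnion, hV, mem_ofPred_eq]
    constructor
    · rintro ⟨q, hq⟩
      obtain ⟨R, hR⟩ := exists_nat_gt (∑ i, ∑ l, (q + t i • v) l ^ 2 + 1)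
      refine ⟨R, q, fun i => ⟨hq i, ?_⟩⟩
      have h1 : ∑ l, (q + t i • v) l ^ 2 ≤ ∑ i, ∑ l, (q + t i • v) l ^ 2 :=
        Finset.single_le_sum (f := fun i => ∑ l, (q + t i • v) l ^ 2)
          (fun i _ => Finset.sum_nonneg fun l _ => sq_nonneg _) (Finset.mem_univ i)
      have h0 : 0 ≤ ∑ l, (q + t i • v) l ^ 2 := Finset.sum_nonneg fun l _ => sq_nonneg _
      nlinarith
    · rintro ⟨R, q, hq⟩
      exact ⟨q, fun i => (hq i).1⟩
  rw [hVun, hVmono.measure_iUnion]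
  refine iSup_le fun R => ?_
  -- the approximations
  set T : Fin (d + 1) → ℕ → Set (Fin d → ℝ) := fun i k =>
    approx (P i) (Q i) (R:ℝ) (1 / ((k:ℝ) + 1)) with hT
  have hTanti : ∀ i, Antitone (T i) := by
    intro i k k' hkk x hx
    refine ⟨hx.1, fun j => lt_of_le_of_lt ?_ (hx.2.1 j), hx.2.2⟩
    have : (1:ℝ) / ((k':ℝ) + 1) ≤ 1 / ((k:ℝ) + 1) := by
      have : (k:ℝ) ≤ k' := by exact_mod_cast hkk
      gcongr
    linarith
  have hTint : ∀ i, ⋂ k, T i k ⊆ S i := by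
    intro i x hx
    rw [mem_iInter] at hx
    rw [hSe i]
    refine ⟨(hx 0).1, fun j => ?_⟩
    have hlim : Tendsto (fun k : ℕ => -((1:ℝ) / ((k:ℝ) + 1))) atTop (nhds (-0)) :=
      tendsto_one_div_add_atTop_nhds_zero_nat.neg
    rw [neg_zero] at hlim
    exact le_of_tendsto' hlim fun k => ((hx k).2.1 j).le
  have hVle : ∀ k, volume (V R) ≤ (lamB d D : ℝ≥0∞) * ∑ i, wt t i * volume (T i k) := by
    intro k
    have h := basic_vel hd ht (D := D + 2) (S := fun i => T i k)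
      (fun i => basicOpen_approx (P i) (Q i) _ _ (hdeg i))
    refine (measure_mono ?_).trans h
    rintro v ⟨q, hq⟩
    refine ⟨q, fun i => ?_⟩
    have h1 := (hq i).1
    rw [hSe i] at h1
    refine ⟨h1.1, fun j => lt_of_lt_of_le ?_ (h1.2 j), (hq i).2⟩
    have : (0:ℝ) < 1 / ((k:ℝ) + 1) := by positivity
    linarith
  have hlim : Tendsto (fun k => (lamB d D : ℝ≥0∞) * ∑ i, wt t i * volume (T i k)) atTop
      (nhds ((lamB d D : ℝ≥0∞) * ∑ i, wt t i * volume (⋂ k, T i k))) := by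
    refine ENNReal.Tendsto.const_mul ?_ (Or.inr (ENNReal.natCast_ne_top _))
    refine tendsto_finsetSum _ fun i _ => ?_
    refine ENNReal.Tendsto.const_mul ?_ (Or.inr (by unfold wt; exact ENNReal.ofReal_ne_top))
    exact tendsto_measure_iInter_atTop
      (fun k => (measurableSet_approx _ _ _ _).nullMeasurableSet) (hTanti i)
      ⟨0, volume_approx_ne_top _ _ _ _⟩
  refine (ge_of_tendsto' hlim hVle).trans ?_
  gcongr with i _
  exact hTint i

/-- Pieces. -/
theorem cover_vel (hd : 1 ≤ d) (N D : ℕ) :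
    Vel d ((N:ℝ≥0∞) ^ d * (lamB d D : ℝ≥0∞)) (Cover (d := d) N D) := by
  classical
  intro t ht m A hA
  rcases Nat.eq_zero_or_pos D with hD | hD
  · subst hD
    have hA' : ∀ i, ConvexCover N (m i) (A i) := by
      intro i
      obtain ⟨B, hB, h1, h2⟩ := hA i
      exact ⟨B, fun j => by simpa [Piece] using hB j, h1, h2⟩
    refine (volume_velocities_cover_le' ht hA').trans ?_
    gcongr
    calc (N:ℝ≥0∞) ^ d = (N:ℝ≥0∞) ^ d * 1 := (mul_one _).symm
      _ ≤ _ := by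
          gcongr
          exact_mod_cast one_le_lamB d 0
  choose T hT hAT hTm using hA
  have hT' : ∀ i j, Basic D (T i j) := fun i j => by
    have := hT i j
    rwa [Piece, if_neg hD.ne'] at this
  have hsub : {v : Fin d → ℝ | ∃ q : Fin d → ℝ, ∀ i, q + t i • v ∈ A i} ⊆
      ⋃ f : Fin (d + 1) → Fin N,
        {v : Fin d → ℝ | ∃ q : Fin d → ℝ, ∀ i, q + t i • v ∈ T i (f i)} := by
    rintro v ⟨q, hq⟩
    have : ∀ i, ∃ j, q + t i • v ∈ T i j := fun i => by simpa using hAT i (hq i)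
    choose f hf using this
    exact mem_iUnion.2 ⟨f, q, hf⟩
  have hone : (1:ℝ≥0∞) ≤ 4 ^ d * (d:ℝ≥0∞) ^ d := by
    have h1 : (1:ℝ≥0∞) ≤ 4 ^ d := one_le_pow₀ (by norm_num)
    have h2 : (1:ℝ≥0∞) ≤ (d:ℝ≥0∞) ^ d := one_le_pow₀ (by exact_mod_cast hd)
    calc (1:ℝ≥0∞) = 1 * 1 := (one_mul 1).symm
      _ ≤ _ := mul_le_mul' h1 h2
  calc volume {v : Fin d → ℝ | ∃ q : Fin d → ℝ, ∀ i, q + t i • v ∈ A i}
      ≤ _ := measure_mono hsub
    _ ≤ ∑ f : Fin (d + 1) → Fin N,
        volume {v : Fin d → ℝ | ∃ q : Fin d → ℝ, ∀ i, q + t i • v ∈ T i (f i)} :=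
        measure_iUnion_fintype_le _ _
    _ ≤ ∑ f : Fin (d + 1) → Fin N,
        (lamB d D : ℝ≥0∞) * ∑ i, wt t i * volume (T i (f i)) :=
        Finset.sum_le_sum fun f _ => basic_vel' hd ht (fun i => hT' i (f i))
    _ = (lamB d D : ℝ≥0∞) * ∑ i, wt t i * ∑ f : Fin (d + 1) → Fin N, volume (T i (f i)) := by
        rw [← Finset.mul_sum, Finset.sum_comm]
        simp_rw [Finset.mul_sum]
    _ = (lamB d D : ℝ≥0∞) * ∑ i, wt t i * ((N:ℝ≥0∞) ^ d * ∑ j, volume (T i j)) := by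
        congr 1
        refine Finset.sum_congr rfl fun i _ => ?_
        congr 1
        exact sum_fun_coord N i (fun j => volume (T i j))
    _ ≤ (lamB d D : ℝ≥0∞) * ∑ i, wt t i * ((N:ℝ≥0∞) ^ d * m i) := by
        gcongr with i _
        exact hTm i
    _ = 1 * ((N:ℝ≥0∞) ^ d * (lamB d D : ℝ≥0∞)) * ∑ i, m i * ∏ j : Fin d,
          (ENNReal.ofReal |t i - t (i.succAbove j)|)⁻¹ := by
        rw [one_mul, mul_comm ((N:ℝ≥0∞) ^ d), mul_assoc, Finset.mul_sum (a := (N:ℝ≥0∞) ^ d)]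
        congr 1
        refine Finset.sum_congr rfl fun i _ => ?_
        rw [wt_eq ht i]
        ring
    _ ≤ _ := by gcongr

/-- The constant, bounded. -/
def cB (d : ℕ) : ℕ := (2 * d ^ 2 + 4 * d + 1) ^ (d * d)

lemma lamB_le (d D : ℕ) : lamB d D ≤ cB d * (D + 1) ^ (d * d) := by
  unfold lamB cB
  rw [← pow_mul, ← mul_pow]
  refine Nat.pow_le_pow_left ?_ _
  nlinarith [Nat.zero_le (d * D), Nat.zero_le (d * d * D), Nat.zero_le D]

lemma lam_le (d N D : ℕ) : (N:ℝ≥0∞) ^ d * (lamB d D : ℝ≥0∞) ≤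
    ENNReal.ofReal (cB d) * ((N:ℝ≥0∞) ^ d * ((D:ℝ≥0∞) + 1) ^ (d ^ 2)) := by
  have h : (lamB d D : ℝ≥0∞) ≤ (cB d : ℝ≥0∞) * ((D:ℝ≥0∞) + 1) ^ (d ^ 2) := by
    have := lamB_le d D
    rw [sq d]
    exact_mod_cast this
  calc (N:ℝ≥0∞) ^ d * (lamB d D : ℝ≥0∞) ≤ (N:ℝ≥0∞) ^ d * ((cB d : ℝ≥0∞) * ((D:ℝ≥0∞) + 1) ^ (d ^ 2)) := by
        gcongr
    _ = _ := by rw [ENNReal.ofReal_natCast]; ring

lemma cB_pos (d : ℕ) : 0 < (cB d : ℝ) := by unfold cB; positivity

end Pool.Agent.TH539.SA
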