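import Pool.Agent.TH539.GKak
import Pool.Agent.H810R3.Tub.Poly

set_option autoImplicit false

/-!
Slices contained in countably many algebraic hypersurfaces.
-/

open MeasureTheory Set ENNReal NNReal Filter Metric
open scoped Pointwise

namespace Pool.Agent.TH539.SA

variable {d : ℕ}

/-- `A` is contained in a countable union of algebraic hypersurfaces. -/
def Thin (A : Set (Fin d → ℝ)) : Prop :=
  ∃ P : ℕ → MvPolynomial (Fin d) ℝ, (∀ j, P j ≠ 0) ∧
    A ⊆ ⋃ j, {x | MvPolynomial.eval x (P j) = 0}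

/-- `A` is a countable union of pieces. -/
def CUnion (A : Set (Fin d → ℝ)) : Prop :=
  ∃ B : ℕ → Set (Fin d → ℝ), (∀ j, ∃ D, Piece D (B j)) ∧ A = ⋃ j, B j

lemma thin_of_subset_zero {A : Set (Fin d → ℝ)} {P : MvPolynomial (Fin d) ℝ} (hP : P ≠ 0)
    (h : ∀ x ∈ A, MvPolynomial.eval x P = 0) : Thin A :=
  ⟨fun _ => P, fun _ => hP, fun x hx => mem_iUnion.2 ⟨0, h x hx⟩⟩

lemma thin_iUnion {A : ℕ → Set (Fin d → ℝ)} (h : ∀ j, Thin (A j)) : Thin (⋃ j, A j) := by
  choose P hP hA using h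
  obtain ⟨e⟩ : Nonempty (ℕ ≃ ℕ × ℕ) := ⟨Nat.pairEquiv.symm⟩
  refine ⟨fun k => P (e k).1 (e k).2, fun k => hP _ _, ?_⟩
  intro x hx
  obtain ⟨j, hj⟩ := mem_iUnion.1 hx
  obtain ⟨l, hl⟩ := mem_iUnion.1 (hA j hj)
  refine mem_iUnion.2 ⟨e.symm (j, l), ?_⟩
  simpa using hl

lemma thin_empty : Thin (∅ : Set (Fin d → ℝ)) :=
  ⟨fun _ => 1, fun _ => one_ne_zero, empty_subset _⟩

lemma thin_mono {A B : Set (Fin d → ℝ)} (h : A ⊆ B) (hB : Thin B) : Thin A := by
  obtain ⟨P, hP, hB⟩ := hB
  exact ⟨P, hP, h.trans hB⟩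

/-- Null basic sets are thin. -/
lemma thin_of_basic {D : ℕ} {B : Set (Fin d → ℝ)} (hB : Basic D B) (h0 : volume B = 0) :
    Thin B := by
  classical
  obtain ⟨a, b, P, Q, -, rfl⟩ := hB
  -- product of the nonzero `Q j`
  set R : MvPolynomial (Fin d) ℝ := ∏ j, (if Q j = 0 then 1 else Q j) with hR
  have hR0 : R ≠ 0 := by
    rw [hR, Finset.prod_ne_zero_iff]
    intro j _
    split_ifs with h
    · exact one_ne_zero
    · exact h
  refine thin_of_subset_zero hR0 ?_
  intro x hx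
  by_contra hne
  have hne' : ∀ j, MvPolynomial.eval x (if Q j = 0 then 1 else Q j) ≠ 0 := by
    intro j hj
    apply hne
    rw [hR, map_prod]
    exact Finset.prod_eq_zero (Finset.mem_univ j) hj
  have hc : ∀ p : MvPolynomial (Fin d) ℝ, Continuous fun x : Fin d → ℝ => MvPolynomial.eval x p :=
    fun p => MvPolynomial.continuous_eval p
  set U : Set (Fin d → ℝ) := (⋂ i, {y | 0 < MvPolynomial.eval y (P i)}) ∩
    ⋂ j, {y | 0 < MvPolynomial.eval y (if Q j = 0 then 1 else Q j)} with hU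
  have hUo : IsOpen U := by
    refine (isOpen_iInter_of_finite fun i => isOpen_lt continuous_const (hc _)).inter
      (isOpen_iInter_of_finite fun j => isOpen_lt continuous_const (hc _))
  have hxU : x ∈ U := by
    refine ⟨mem_iInter.2 fun i => hx.1 i, mem_iInter.2 fun j => ?_⟩
    have h1 := hne' j
    show 0 < MvPolynomial.eval x (if Q j = 0 then 1 else Q j)
    by_cases h : Q j = 0
    · simp [h]
    · rw [if_neg h] at h1 ⊢
      exact lt_of_le_of_ne (hx.2 j) (Ne.symm h1)
  have hsub : U ⊆ {x | (∀ i, 0 < MvPolynomial.eval x (P i)) ∧ ∀ j, 0 ≤ MvPolynomial.eval x (Q j)} := by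
    rintro y ⟨h1, h2⟩
    rw [mem_iInter] at h1 h2
    refine ⟨h1, fun j => ?_⟩
    have h3 : 0 < MvPolynomial.eval y (if Q j = 0 then 1 else Q j) := h2 j
    by_cases h : Q j = 0
    · rw [h, map_zero]
    · rw [if_neg h] at h3
      exact h3.le
  exact (hUo.measure_pos volume ⟨x, hxU⟩).ne' (measure_mono_null hsub h0)

/-- Null convex sets are thin. -/
lemma thin_of_convex {B : Set (Fin d → ℝ)} (hB : Convex ℝ B) (h0 : volume B = 0) : Thin B := by
  classical
  rcases B.eq_empty_or_nonempty with rfl | ⟨p, hp⟩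
  · exact thin_empty
  have hint : ¬(interior B).Nonempty := by
    intro h
    exact (isOpen_interior.measure_pos volume h).ne' (measure_mono_null interior_subset h0)
  rw [hB.interior_nonempty_iff_affineSpan_eq_top] at hint
  have hdir : (affineSpan ℝ B).direction < ⊤ := by
    refine lt_top_iff_ne_top.2 fun h => hint ?_
    exact (AffineSubspace.direction_eq_top_iff_of_nonempty
      ⟨p, subset_affineSpan ℝ B hp⟩).1 h
  obtain ⟨f, hf0, hf⟩ := Submodule.exists_le_ker_of_lt_top _ hdir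
  set P : MvPolynomial (Fin d) ℝ := ∑ l, MvPolynomial.C (f (Pi.single l 1)) * MvPolynomial.X l -
    MvPolynomial.C (f p) with hP
  have heval : ∀ x, MvPolynomial.eval x P = f x - f p := by
    intro x
    have h1 : f x = ∑ l, f (Pi.single l 1) * x l := by
      conv_lhs => rw [LinearMap.pi_apply_eq_sum_univ f x]
      refine Finset.sum_congr rfl fun l _ => ?_
      rw [smul_eq_mul, mul_comm]
      congr 2
      ext k
      simp [Pi.single_apply, eq_comm]
    rw [hP, h1]
    simp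
  have hP0 : P ≠ 0 := by
    intro h
    apply hf0
    refine LinearMap.ext fun x => ?_
    have h1 := heval (x + p)
    rw [h, map_zero, map_add] at h1
    have : f x = 0 := by linarith
    simpa using this
  refine thin_of_subset_zero hP0 ?_
  intro x hx
  rw [heval]
  have h1 : x - p ∈ (affineSpan ℝ B).direction := by
    have := AffineSubspace.vsub_mem_direction (subset_affineSpan ℝ B hx) (subset_affineSpan ℝ B hp)
    simpa using this
  have h2 := hf h1
  rw [LinearMap.mem_ker, map_sub] at h2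
  exact h2

lemma thin_of_piece {D : ℕ} {B : Set (Fin d → ℝ)} (hB : Piece D B) (h0 : volume B = 0) :
    Thin B := by
  unfold Piece at hB
  split_ifs at hB with h
  · exact thin_of_convex hB h0
  · exact thin_of_basic hB h0

/-- Null countable unions of pieces are thin. -/
lemma CUnion.thin {A : Set (Fin d → ℝ)} (hA : CUnion A) (h0 : volume A = 0) : Thin A := by
  obtain ⟨B, hB, rfl⟩ := hA
  refine thin_iUnion fun j => ?_
  obtain ⟨D, hD⟩ := hB j
  exact thin_of_piece hD (measure_mono_null (subset_iUnion B j) h0)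

/-- Zero sets as basic sets. -/
lemma basic_zero {P : MvPolynomial (Fin d) ℝ} {D : ℕ} (hD : 2 * P.totalDegree ≤ D) :
    Basic D {x | MvPolynomial.eval x P = 0} := by
  refine ⟨0, 2, fun i => i.elim0, ![P, -P], ?_, ?_⟩
  · simp only [Finset.univ_eq_empty, Finset.sum_empty, zero_add, Fin.sum_univ_two,
      Matrix.cons_val_zero, Matrix.cons_val_one, MvPolynomial.totalDegree_neg]
    omega
  · ext x
    simp only [mem_ofPred_eq]
    constructor
    · intro h
      refine ⟨fun i => i.elim0, fun j => ?_⟩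
      fin_cases j <;> simp [h]
    · rintro ⟨-, h⟩
      have h1 := h 0
      have h2 := h 1
      simp at h1 h2
      linarith

/-- **Velocities of the lines meeting `d + 1` thin sets.** -/
theorem thin_vel (hd : 1 ≤ d) {t : Fin (d + 1) → ℝ} (ht : Function.Injective t)
    {A : Fin (d + 1) → Set (Fin d → ℝ)} (hA : ∀ i, Thin (A i)) :
    volume {v : Fin d → ℝ | ∃ q : Fin d → ℝ, ∀ i, q + t i • v ∈ A i} = 0 := by
  classical
  choose P hP hAP using hA
  have hsub : {v : Fin d → ℝ | ∃ q : Fin d → ℝ, ∀ i, q + t i • v ∈ A i} ⊆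
      ⋃ f : Fin (d + 1) → ℕ, {v : Fin d → ℝ | ∃ q : Fin d → ℝ, ∀ i,
        q + t i • v ∈ {x | MvPolynomial.eval x (P i (f i)) = 0}} := by
    rintro v ⟨q, hq⟩
    have : ∀ i, ∃ j, q + t i • v ∈ {x | MvPolynomial.eval x (P i j) = 0} := fun i => by
      simpa using hAP i (hq i)
    choose f hf using this
    exact mem_iUnion.2 ⟨f, q, hf⟩
  refine measure_mono_null hsub (measure_iUnion_null fun f => ?_)
  set D : ℕ := ∑ i, 2 * (P i (f i)).totalDegree with hD
  have hdeg : ∀ i, 2 * (P i (f i)).totalDegree ≤ D := fun i =>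
    Finset.single_le_sum (f := fun i => 2 * (P i (f i)).totalDegree) (fun _ _ => Nat.zero_le _)
      (Finset.mem_univ i)
  have h := basic_vel' hd ht (D := D)
    (S := fun i => {x | MvPolynomial.eval x (P i (f i)) = 0}) (fun i => basic_zero (hdeg i))
  have h0 : ∀ i, volume {x | MvPolynomial.eval x (P i (f i)) = 0} = 0 := fun i =>
    Pool.Agent.H810R3.Tub.zero_null d _ (hP i (f i))
  simp only [h0, mul_zero, Finset.sum_const_zero] at h
  exact le_antisymm h zero_le

end Pool.Agent.TH539.SA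

namespace Pool.Agent.TH539.Gen

variable {d : ℕ}

open Pool.Agent.TH539.SA

/-- **All but `d` slices are not thin.** -/
theorem few_thin (hd : 1 ≤ d) {K : Set (EuclideanSpace ℝ (Fin (d + 1)))}
    {S : Set (sphere (0 : EuclideanSpace ℝ (Fin (d + 1))) 1)}
    (hS : ∀ e ∈ S, 1 / 2 ≤ |(e : EuclideanSpace ℝ (Fin (d + 1))) 0|)
    (hK : ∀ e ∈ S, ∃ z : EuclideanSpace ℝ (Fin (d + 1)),
      ∀ s ∈ Icc (0:ℝ) 1, z + s • (e : EuclideanSpace ℝ (Fin (d + 1))) ∈ K)
    (hS0 : surf (d + 1) S ≠ 0) :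
    ∃ a : ℝ, (∀ t ∈ Icc a (a + 1 / 4), (slice K t).Nonempty) ∧
      {t ∈ Icc a (a + 1 / 4) | Thin (slice K t)}.encard ≤ d := by
  classical
  have hne : ∀ e ∈ S, (e : EuclideanSpace ℝ (Fin (d + 1))) 0 ≠ 0 := by
    intro e he h
    have := hS e he
    rw [h, abs_zero] at this
    linarith
  set V : Set (Fin d → ℝ) := (fun e : sphere (0 : EuclideanSpace ℝ (Fin (d + 1))) 1 =>
        vel (e : EuclideanSpace ℝ (Fin (d + 1)))) '' S with hV
  have hV0 : volume V ≠ 0 := by
    intro h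
    have := surf_le hne
    rw [← hV, h, mul_zero] at this
    exact hS0 (le_antisymm this zero_le)
  set X : ℤ → Set (Fin d → ℝ) := fun k => {v : Fin d → ℝ | ∃ q : Fin d → ℝ,
    ∀ t ∈ Icc ((k:ℝ) * (1 / 4)) ((k:ℝ) * (1 / 4) + 1 / 4), q + t • v ∈ slice K t} with hX
  have hsub : V ⊆ ⋃ k, X k := by
    rintro _ ⟨e, he, rfl⟩
    obtain ⟨z, hz⟩ := hK e he
    obtain ⟨q, a, hqa⟩ := segment_height (hS e he) hz
    obtain ⟨k, hk⟩ := exists_cell (show (0:ℝ) < 1 / 4 by norm_num) a
    have heq : ((k:ℝ) + 1) * (1 / 4) = (k:ℝ) * (1 / 4) + 1 / 4 := by ring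
    rw [heq] at hk
    exact mem_iUnion.2 ⟨k, q, fun t ht => hqa t (hk ht)⟩
  have hXpos : ∃ k, volume (X k) ≠ 0 := by
    by_contra hcon
    push Not at hcon
    have : volume (⋃ k, X k) = 0 := measure_iUnion_null hcon
    exact hV0 (measure_mono_null hsub this)
  obtain ⟨k, hk⟩ := hXpos
  obtain ⟨v, q, hq⟩ : (X k).Nonempty := by
    rw [nonempty_iff_ne_empty]
    intro h; rw [h, measure_empty] at hk; exact hk rfl
  set a : ℝ := (k:ℝ) * (1 / 4) with ha
  refine ⟨a, fun t ht => ⟨_, hq t ht⟩, ?_⟩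
  by_contra hcon
  push Not at hcon
  -- `d + 1` heights
  have hcard : ((d + 1 : ℕ) : ℕ∞) ≤ {t ∈ Icc a (a + 1 / 4) | Thin (slice K t)}.encard := by
    push_cast
    exact Order.add_one_le_of_lt hcon
  obtain ⟨T, hT, hTc⟩ := exists_subset_encard_eq hcard
  have hTfin : T.Finite := finite_of_encard_eq_coe hTc
  have hTcard : hTfin.toFinset.card = d + 1 := by
    have h1 := hTfin.encard_eq_coe_toFinset_card
    rw [h1] at hTc
    exact_mod_cast hTc
  let e := hTfin.toFinset.equivFinOfCardEq hTcard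
  set t : Fin (d + 1) → ℝ := fun i => (e.symm i : ℝ) with ht
  have htinj : Function.Injective t := fun i j hij => e.symm.injective (Subtype.ext hij)
  have htmem : ∀ i, t i ∈ {t ∈ Icc a (a + 1 / 4) | Thin (slice K t)} := by
    intro i
    apply hT
    have := (e.symm i).2
    exact hTfin.mem_toFinset.1 this
  have h0 := thin_vel hd htinj (A := fun i => slice K (t i)) (fun i => (htmem i).2)
  refine hk (measure_mono_null ?_ h0)
  rintro w ⟨q', hq'⟩
  exact ⟨q', fun i => hq' _ (htmem i).1⟩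

/-- Slices which are countable unions of pieces. -/
theorem positive_countable (hd : 1 ≤ d) {K : Set (EuclideanSpace ℝ (Fin (d + 1)))}
    {S : Set (sphere (0 : EuclideanSpace ℝ (Fin (d + 1))) 1)}
    (hS : ∀ e ∈ S, 1 / 2 ≤ |(e : EuclideanSpace ℝ (Fin (d + 1))) 0|)
    (hK : ∀ e ∈ S, ∃ z : EuclideanSpace ℝ (Fin (d + 1)),
      ∀ s ∈ Icc (0:ℝ) 1, z + s • (e : EuclideanSpace ℝ (Fin (d + 1))) ∈ K)
    (hS0 : surf (d + 1) S ≠ 0)
    (hG : ∀ a : ℝ, (∀ t ∈ Icc a (a + 1 / 4), (slice K t).Nonempty) →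
      volume ({t | CUnion (slice K t)} ∩ Icc a (a + 1 / 4)) ≠ 0) :
    volume K ≠ 0 := by
  intro hK0
  set L := toMeasurable volume K with hL
  have hLm : MeasurableSet L := measurableSet_toMeasurable _ _
  obtain ⟨h1, h2⟩ := measurable_volume_slice hLm
  rw [hL, measure_toMeasurable, hK0, ← hL] at h2
  have hae : ∀ᵐ t : ℝ, volume (slice L t) = 0 := (lintegral_eq_zero_iff h1).1 h2
  obtain ⟨a, ha, hcard⟩ := few_thin hd hS hK hS0
  refine hG a ha ?_
  have hfin : {t ∈ Icc a (a + 1 / 4) | Thin (slice K t)}.Finite :=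
    finite_of_encard_le_coe hcard
  have hsub : {t | CUnion (slice K t)} ∩ Icc a (a + 1 / 4) ⊆
      {t ∈ Icc a (a + 1 / 4) | Thin (slice K t)} ∪ {t | ¬volume (slice L t) = 0} := by
    rintro t ⟨ht1, ht2⟩
    by_cases h : volume (slice L t) = 0
    · left
      refine ⟨ht2, CUnion.thin ht1 (measure_mono_null (slice_mono (subset_toMeasurable _ _) t) h)⟩
    · right; exact h
  exact measure_mono_null hsub (measure_union_null (hfin.measure_zero volume) (ae_iff.1 hae))

end Pool.Agent.TH539.Gen
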