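import Pool.Agent.TH539.Shell

set_option autoImplicit false

/-!
Segments with directions in a shell `τ / 2 ≤ |e 0| ≤ τ`.
-/

open MeasureTheory Set ENNReal NNReal Metric
open scoped Pointwise

namespace Pool.Agent.TH539

variable {d : ℕ}

/-- For every `r > 0`, almost every slice of `{f > r}` is covered by `N` convex sets of total
volume at most `M` times its volume. -/
def ConvexSliced (N : ℕ) (M : ℝ≥0∞) (f : EuclideanSpace ℝ (Fin (d + 1)) → ℝ) : Prop :=
  ∀ r : ℝ, 0 < r → ∀ᵐ t : ℝ,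
    ConvexCover N (M * volume (slice {x | r < f x} t)) (slice {x | r < f x} t)

lemma cov_le {ρ c : ℝ} (h1 : 1 / 2 ≤ |ρ|) (h2 : |ρ| ≤ 1) {h : ℝ → ℝ≥0∞} (hh : Measurable h) :
    ∫⁻ s in Icc (-(1 / 2) : ℝ) (1 / 2), h (c + s * ρ) ≤
      2 * ∫⁻ t in Icc (c - 1 / 2) (c + 1 / 2), h t := by
  have hρ : ρ ≠ 0 := by
    intro h; rw [h, abs_zero] at h1; linarith
  set k : ℝ → ℝ≥0∞ := (Icc (c - 1 / 2) (c + 1 / 2)).indicator h with hk
  have hkm : Measurable k := hh.indicator measurableSet_Icc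
  calc ∫⁻ s in Icc (-(1 / 2) : ℝ) (1 / 2), h (c + s * ρ)
      = ∫⁻ s in Icc (-(1 / 2) : ℝ) (1 / 2), k (c + ρ * s) := by
        refine setLIntegral_congr_fun measurableSet_Icc fun s hs => ?_
        have hs' : |s| ≤ 1 / 2 := abs_le.2 hs
        have : |ρ * s| ≤ 1 / 2 := by
          rw [abs_mul]
          calc |ρ| * |s| ≤ 1 * (1 / 2) := by gcongr
            _ = 1 / 2 := one_mul _
        have h3 := abs_le.1 this
        have hmem : c + ρ * s ∈ Icc (c - 1 / 2) (c + 1 / 2) :=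
          ⟨by linarith [h3.1], by linarith [h3.2]⟩
        simp only [hk]
        rw [indicator_of_mem hmem, mul_comm s ρ]
    _ ≤ ∫⁻ s, k (c + ρ * s) := setLIntegral_le_lintegral _ _
    _ = ∫⁻ x, k (c + x) ∂(Measure.map (ρ * ·) volume) := by
        have hkc : Measurable fun x => k (c + x) := hkm.comp (by fun_prop)
        rw [lintegral_map hkc (by fun_prop)]
    _ = ENNReal.ofReal |ρ⁻¹| * ∫⁻ x, k (c + x) := by
        rw [Real.map_volume_mul_left hρ, lintegral_smul_measure, smul_eq_mul]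
    _ = ENNReal.ofReal |ρ⁻¹| * ∫⁻ x, k x := by
        rw [lintegral_add_left_eq_self]
    _ ≤ 2 * ∫⁻ x, k x := by
        gcongr
        rw [abs_inv]
        have : |ρ|⁻¹ ≤ 2 := by
          rw [inv_le_comm₀ (by linarith) (by norm_num)]
          linarith
        calc ENNReal.ofReal |ρ|⁻¹ ≤ ENNReal.ofReal 2 := ENNReal.ofReal_le_ofReal this
          _ = 2 := by norm_num
    _ = _ := by rw [hk, lintegral_indicator measurableSet_Icc]

lemma lintegral_scale {τ : ℝ} (hτ : 0 < τ) {F : EuclideanSpace ℝ (Fin (d + 1)) → ℝ≥0∞}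
    (hF : Measurable F) :
    ∫⁻ z : ℝ × (Fin d → ℝ), F (pt (τ * z.1, z.2)) = ENNReal.ofReal τ⁻¹ * ∫⁻ x, F x := by
  have hFp : Measurable fun z : ℝ × (Fin d → ℝ) => F (pt z) := hF.comp volume_preserving_pt.measurable
  have hG : Measurable fun t : ℝ => ∫⁻ y : Fin d → ℝ, F (pt (t, y)) := hFp.lintegral_prod_right'
  calc ∫⁻ z : ℝ × (Fin d → ℝ), F (pt (τ * z.1, z.2))
      = ∫⁻ t : ℝ, ∫⁻ y : Fin d → ℝ, F (pt (τ * t, y)) := by
        rw [Measure.volume_eq_prod, lintegral_prod]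
        exact (hFp.comp (g := fun z : ℝ × (Fin d → ℝ) => F (pt z))
          (f := fun z : ℝ × (Fin d → ℝ) => (τ * z.1, z.2)) (by fun_prop)).aemeasurable
    _ = ∫⁻ t : ℝ, (∫⁻ y : Fin d → ℝ, F (pt (t, y))) ∂(Measure.map (τ * ·) volume) := by
        rw [lintegral_map hG (by fun_prop)]
    _ = ENNReal.ofReal τ⁻¹ * ∫⁻ t : ℝ, ∫⁻ y : Fin d → ℝ, F (pt (t, y)) := by
        rw [Real.map_volume_mul_left hτ.ne', lintegral_smul_measure, smul_eq_mul,
          abs_of_pos (by positivity)]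
    _ = ENNReal.ofReal τ⁻¹ * ∫⁻ z : ℝ × (Fin d → ℝ), F (pt z) := by
        rw [Measure.volume_eq_prod, lintegral_prod _ hFp.aemeasurable]
    _ = _ := by rw [volume_preserving_pt.lintegral_comp hF]

lemma ae_scale {τ : ℝ} (hτ : 0 < τ) {P : ℝ → Prop} (hP : ∀ᵐ t : ℝ, P t) : ∀ᵐ t : ℝ, P (τ * t) := by
  have hq : Measure.QuasiMeasurePreserving (fun t : ℝ => τ * t) volume volume := by
    refine ⟨by fun_prop, ?_⟩
    rw [Real.map_volume_mul_left hτ.ne']
    exact Measure.smul_absolutelyContinuous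
  exact hq.ae hP

/-- Half shells. -/
lemma half_shell {f : EuclideanSpace ℝ (Fin (d + 1)) → ℝ} (hf : Measurable f) (hf0 : ∀ x, 0 ≤ f x)
    {N : ℕ} {M : ℝ≥0∞} (hcov : ConvexSliced N M f)
    {b : EuclideanSpace ℝ (Fin (d + 1)) → EuclideanSpace ℝ (Fin (d + 1))} (hb : Measurable b)
    {θ : ℝ} (hθ : 0 < θ) {p : ℝ} (hp : qq d θ < p) {τ ε : ℝ} (hτ : 0 < τ) (hε : ε = 1 ∨ ε = -1) :
    ∫⁻ e in {e : sphere (0 : EuclideanSpace ℝ (Fin (d + 1))) 1 |
      0 < ε * (e : EuclideanSpace ℝ (Fin (d + 1))) 0 ∧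
      |(e : EuclideanSpace ℝ (Fin (d + 1))) 0| ≤ τ},
        ({x : EuclideanSpace ℝ (Fin (d + 1)) | τ / 2 ≤ |x 0|}.indicator
          (fun x => (∫⁻ s in Icc (-(1 / 2) : ℝ) (1 / 2), ENNReal.ofReal (f (b x + s • x))) ^ p) e)
        ∂(surf (d + 1)) ≤
      2 * (d + 1) * 2 ^ p * (cP d θ p * (N:ℝ≥0∞) ^ d * M * ∫⁻ x, ENNReal.ofReal (f x ^ p)) := by
  have hq : 0 < qq d θ := by unfold qq; positivity
  have hp0 : 0 < p := hq.trans hp
  set H : EuclideanSpace ℝ (Fin (d + 1)) → ℝ≥0∞ :=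
    {x : EuclideanSpace ℝ (Fin (d + 1)) | τ / 2 ≤ |x 0| ∧ |x 0| ≤ τ}.indicator
          (fun x => (∫⁻ s in Icc (-(1 / 2) : ℝ) (1 / 2), ENNReal.ofReal (f (b x + s • x))) ^ p) with hH
  have hHm : Measurable H := by
    refine Measurable.indicator ?_ ?_
    · have h1 : Measurable fun z : EuclideanSpace ℝ (Fin (d + 1)) × ℝ =>
          ENNReal.ofReal (f (b z.1 + z.2 • z.1)) :=
        (hf.comp ((hb.comp measurable_fst).add (measurable_snd.smul measurable_fst))).ennreal_ofReal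
      exact (h1.lintegral_prod_right' (ν := volume.restrict (Icc (-(1 / 2) : ℝ) (1 / 2)))).pow_const p
    · have e1 : Measurable fun x : EuclideanSpace ℝ (Fin (d + 1)) => |x 0| := by fun_prop
      exact (measurableSet_le measurable_const e1).inter (measurableSet_le e1 measurable_const)
  -- the rescaled function
  set fτ : ℝ × (Fin d → ℝ) → ℝ := fun z => f (pt (τ * z.1, z.2)) with hfτ
  have hfτm : Measurable fτ := hf.comp (volume_preserving_pt.measurable.comp (by fun_prop))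
  set c : (Fin d → ℝ) → ℝ := fun w => (b (dir τ ε w)) 0 / τ with hc
  have hbd : Measurable fun w : Fin d → ℝ => b (dir τ ε w) := hb.comp (measurable_dir τ ε)
  have hcm : Measurable c := by
    have : Measurable fun x : EuclideanSpace ℝ (Fin (d + 1)) => x 0 := by fun_prop
    exact (this.comp hbd).div_const τ
  set B : (Fin d → ℝ) → (Fin d → ℝ) := fun w => (fun i => (b (dir τ ε w)) i.succ) - c w • w with hB
  have hBm : Measurable B := by
    refine Measurable.sub ?_ (hcm.smul measurable_id)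
    refine measurable_pi_lambda _ fun i => ?_
    have : Measurable fun x : EuclideanSpace ℝ (Fin (d + 1)) => x i.succ := by fun_prop
    exact this.comp hbd
  have hcovτ : ∀ r : ℝ, 0 < r → ∀ᵐ t : ℝ,
      ConvexCover N (M * volume {y | r < fτ (t, y)}) {y | r < fτ (t, y)} := by
    intro r hr
    exact ae_scale hτ (hcov r hr)
  have hpoint : ∀ w : Fin d → ℝ, H (dir τ ε w) ≤
      2 ^ p * (∫⁻ t in Icc (c w - 1 / 2) (c w + 1 / 2), ENNReal.ofReal (fτ (t, B w + t • w))) ^ p := by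
    intro w
    by_cases hw : dir τ ε w ∈ {x : EuclideanSpace ℝ (Fin (d + 1)) | τ / 2 ≤ |x 0| ∧ |x 0| ≤ τ}
    swap
    · simp only [hH]
      rw [indicator_of_notMem hw]; exact zero_le
    · simp only [hH]
      rw [indicator_of_mem hw, ← ENNReal.mul_rpow_of_nonneg _ _ hp0.le]
      refine ENNReal.rpow_le_rpow ?_ hp0.le
      set ρ : ℝ := ε * ‖pt (τ, w)‖⁻¹ with hρ
      have hd0 : (dir τ ε w) 0 = ρ * τ := rfl
      have hds : ∀ i : Fin d, (dir τ ε w) i.succ = ρ * w i := fun i => rfl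
      have habs : |(dir τ ε w) 0| = |ρ| * τ := by rw [hd0, abs_mul, abs_of_pos hτ]
      have hρ1 : 1 / 2 ≤ |ρ| := by
        have := hw.1
        rw [habs] at this
        by_contra hcon
        push Not at hcon
        nlinarith
      have hρ2 : |ρ| ≤ 1 := by
        have := hw.2
        rw [habs] at this
        by_contra hcon
        push Not at hcon
        nlinarith
      have hfm : Measurable fun t : ℝ => ENNReal.ofReal (fτ (t, B w + t • w)) :=
        (hfτm.comp (by fun_prop)).ennreal_ofReal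
      refine le_trans (le_of_eq ?_) (cov_le (c := c w) hρ1 hρ2 hfm)
      refine lintegral_congr fun s => ?_
      congr 1
      simp only [hfτ]
      congr 1
      refine ext_pt ?_ ?_
      · simp only [PiLp.add_apply, PiLp.smul_apply, smul_eq_mul, pt_zero, hd0, hc]
        field_simp
      · intro i
        simp only [PiLp.add_apply, PiLp.smul_apply, smul_eq_mul, pt_succ, hds, hB, Pi.add_apply,
          Pi.sub_apply, Pi.smul_apply]
        ring
  calc ∫⁻ e in {e : sphere (0 : EuclideanSpace ℝ (Fin (d + 1))) 1 |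
      0 < ε * (e : EuclideanSpace ℝ (Fin (d + 1))) 0 ∧
      |(e : EuclideanSpace ℝ (Fin (d + 1))) 0| ≤ τ},
        ({x : EuclideanSpace ℝ (Fin (d + 1)) | τ / 2 ≤ |x 0|}.indicator
          (fun x => (∫⁻ s in Icc (-(1 / 2) : ℝ) (1 / 2), ENNReal.ofReal (f (b x + s • x))) ^ p) e)
        ∂(surf (d + 1))
      = ∫⁻ e in {e : sphere (0 : EuclideanSpace ℝ (Fin (d + 1))) 1 |
      0 < ε * (e : EuclideanSpace ℝ (Fin (d + 1))) 0 ∧
      |(e : EuclideanSpace ℝ (Fin (d + 1))) 0| ≤ τ}, H e ∂(surf (d + 1)) := by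
        have e1 : Measurable fun e : sphere (0 : EuclideanSpace ℝ (Fin (d + 1))) 1 =>
            |(e : EuclideanSpace ℝ (Fin (d + 1))) 0| := by fun_prop
        have e2 : Measurable fun e : sphere (0 : EuclideanSpace ℝ (Fin (d + 1))) 1 =>
            ε * (e : EuclideanSpace ℝ (Fin (d + 1))) 0 := by fun_prop
        refine setLIntegral_congr_fun (MeasurableSet.inter (measurableSet_lt measurable_const e2)
          (measurableSet_le e1 measurable_const)) fun e he => ?_
        simp only [hH]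
        by_cases h : τ / 2 ≤ |(e : EuclideanSpace ℝ (Fin (d + 1))) 0|
        · rw [indicator_of_mem (show (e : EuclideanSpace ℝ (Fin (d + 1))) ∈
              {x : EuclideanSpace ℝ (Fin (d + 1)) | τ / 2 ≤ |x 0|} from h),
            indicator_of_mem (show (e : EuclideanSpace ℝ (Fin (d + 1))) ∈
              {x : EuclideanSpace ℝ (Fin (d + 1)) | τ / 2 ≤ |x 0| ∧ |x 0| ≤ τ} from ⟨h, he.2⟩)]
        · rw [indicator_of_notMem (show (e : EuclideanSpace ℝ (Fin (d + 1))) ∉
              {x : EuclideanSpace ℝ (Fin (d + 1)) | τ / 2 ≤ |x 0|} from h),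
            indicator_of_notMem (show (e : EuclideanSpace ℝ (Fin (d + 1))) ∉
              {x : EuclideanSpace ℝ (Fin (d + 1)) | τ / 2 ≤ |x 0| ∧ |x 0| ≤ τ} from
                fun h' => h h'.1)]
    _ ≤ (d + 1) * ENNReal.ofReal (2 * τ) * ∫⁻ w : Fin d → ℝ, H (dir τ ε w) :=
        lintegral_sphere_le hτ hε hHm
    _ ≤ (d + 1) * ENNReal.ofReal (2 * τ) * ∫⁻ w : Fin d → ℝ, 2 ^ p *
          (∫⁻ t in Icc (c w - 1 / 2) (c w + 1 / 2), ENNReal.ofReal (fτ (t, B w + t • w))) ^ p := by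
        gcongr with w
        exact hpoint w
    _ ≤ (d + 1) * ENNReal.ofReal (2 * τ) * (2 ^ p *
          (cP d θ p * (N:ℝ≥0∞) ^ d * M * ∫⁻ z, ENNReal.ofReal (fτ z ^ p))) := by
        rw [lintegral_const_mul' _ _ (ENNReal.rpow_ne_top_of_nonneg hp0.le (by norm_num))]
        gcongr
        exact strong_lines hfτm (fun z => hf0 _) hBm hcm hθ hp hcovτ
    _ = (d + 1) * ENNReal.ofReal (2 * τ) * (2 ^ p *
          (cP d θ p * (N:ℝ≥0∞) ^ d * M * (ENNReal.ofReal τ⁻¹ * ∫⁻ x, ENNReal.ofReal (f x ^ p)))) := by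
        rw [← lintegral_scale hτ (F := fun x => ENNReal.ofReal (f x ^ p)) (hf.pow_const p).ennreal_ofReal]
    _ = _ := by
        have e1 : ENNReal.ofReal (2 * τ) * ENNReal.ofReal τ⁻¹ = 2 := by
          rw [← ENNReal.ofReal_mul (by positivity), mul_assoc, mul_inv_cancel₀ hτ.ne']
          norm_num
        calc _ = (d + 1) * 2 ^ p * (cP d θ p * (N:ℝ≥0∞) ^ d * M *
              ∫⁻ x, ENNReal.ofReal (f x ^ p)) * (ENNReal.ofReal (2 * τ) * ENNReal.ofReal τ⁻¹) := by
              ring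
          _ = _ := by rw [e1]; ring

end Pool.Agent.TH539
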