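import Pool.Agent.TH539.Lay

set_option autoImplicit false

/-!
From slopes to directions on the sphere.
-/

open MeasureTheory Set ENNReal NNReal Metric
open scoped Pointwise

namespace Pool.Agent.TH539

variable {d : ℕ}

/-- The point `(t, y)`. -/
def pt (z : ℝ × (Fin d → ℝ)) : EuclideanSpace ℝ (Fin (d + 1)) :=
  WithLp.toLp 2 (Fin.cons z.1 z.2 : Fin (d + 1) → ℝ)

lemma volume_preserving_pt : MeasurePreserving (pt : ℝ × (Fin d → ℝ) → EuclideanSpace ℝ (Fin (d + 1))) := by
  have h2 := (volume_preserving_piFinSuccAbove (fun _ : Fin (d + 1) => ℝ) 0).symm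
  have h1 := PiLp.volume_preserving_toLp (Fin (d + 1))
  have h3 := h1.comp h2
  have hFeq : (@WithLp.toLp 2 (Fin (d+1) → ℝ)) ∘
      (MeasurableEquiv.piFinSuccAbove (fun _ : Fin (d + 1) => ℝ) 0).symm = pt := by
    funext p
    simp only [Function.comp_apply, pt, MeasurableEquiv.piFinSuccAbove_symm_apply]
    congr 1
    funext j
    rw [Fin.insertNthEquiv_apply, Fin.insertNth_zero']
  rw [hFeq] at h3
  exact h3

lemma pt_zero (z : ℝ × (Fin d → ℝ)) : pt z 0 = z.1 := rfl

lemma pt_succ (z : ℝ × (Fin d → ℝ)) (i : Fin d) : pt z i.succ = z.2 i := rfl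

lemma ext_pt {x y : EuclideanSpace ℝ (Fin (d + 1))} (h0 : x 0 = y 0)
    (h : ∀ i : Fin d, x i.succ = y i.succ) : x = y := by
  ext i
  exact Fin.cases h0 h i

/-- Volume of a cone. -/
lemma volume_cone_le' {τ : ℝ} (hτ : 0 < τ) {W : Set (Fin d → ℝ)} (hW : MeasurableSet W) :
    volume {x : EuclideanSpace ℝ (Fin (d + 1)) | |x 0| ≤ τ ∧ x 0 ≠ 0 ∧ τ • vel x ∈ W} ≤
      ENNReal.ofReal (2 * τ) * volume W := by
  set A : Set (ℝ × (Fin d → ℝ)) := {p | |p.1| ≤ τ ∧ p.1 ≠ 0 ∧ (τ * p.1⁻¹) • p.2 ∈ W} with hA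
  have hAm : MeasurableSet A := by
    have e1 : Measurable fun p : ℝ × (Fin d → ℝ) => |p.1| := by fun_prop
    have e2 : Measurable fun p : ℝ × (Fin d → ℝ) => p.1 := by fun_prop
    have e3 : Measurable fun p : ℝ × (Fin d → ℝ) => (τ * p.1⁻¹) • p.2 := by fun_prop
    refine MeasurableSet.inter (measurableSet_le e1 measurable_const)
      (MeasurableSet.inter (measurableSet_eq_fun e2 measurable_const).compl (hW.preimage e3))
  have hCm : MeasurableSet {x : EuclideanSpace ℝ (Fin (d + 1)) | |x 0| ≤ τ ∧ x 0 ≠ 0 ∧ τ • vel x ∈ W} := by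
    have e1 : Measurable fun x : EuclideanSpace ℝ (Fin (d + 1)) => |x 0| := by fun_prop
    have e2 : Measurable fun x : EuclideanSpace ℝ (Fin (d + 1)) => x 0 := by fun_prop
    have e3 : Measurable fun x : EuclideanSpace ℝ (Fin (d + 1)) => τ • vel x :=
      measurable_vel.const_smul τ
    refine MeasurableSet.inter (measurableSet_le e1 measurable_const)
      (MeasurableSet.inter (measurableSet_eq_fun e2 measurable_const).compl (hW.preimage e3))
  have hpre : pt ⁻¹' {x : EuclideanSpace ℝ (Fin (d + 1)) | |x 0| ≤ τ ∧ x 0 ≠ 0 ∧ τ • vel x ∈ W} = A := by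
    ext z
    have : τ • vel (pt z) = (τ * z.1⁻¹) • z.2 := by
      ext j
      simp only [vel, pt_zero, pt_succ, Pi.smul_apply, smul_eq_mul]
      rw [div_eq_mul_inv]; ring
    simp only [hA, mem_preimage, mem_ofPred_eq, pt_zero, this]
  rw [← volume_preserving_pt.measure_preimage hCm.nullMeasurableSet, hpre]
  have hprod : volume A = ∫⁻ s, volume (Prod.mk s ⁻¹' A) := Measure.prod_apply hAm
  have hbound : ∀ s : ℝ, volume (Prod.mk s ⁻¹' A) ≤
      (Icc (-τ) τ).indicator (fun _ => volume W) s := by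
    intro s
    by_cases hs : s ∈ Icc (-τ) τ
    · rw [indicator_of_mem hs]
      by_cases hs0 : s = 0
      · have : Prod.mk s ⁻¹' A = ∅ := by
          ext y; simp [hA, hs0]
        rw [this, measure_empty]; exact zero_le
      · have hsub : Prod.mk s ⁻¹' A ⊆ (fun y : Fin d → ℝ => (τ * s⁻¹) • y) ⁻¹' W := by
          intro y hy
          exact hy.2.2
        refine (measure_mono hsub).trans ?_
        have hne : τ * s⁻¹ ≠ 0 := mul_ne_zero hτ.ne' (inv_ne_zero hs0)
        rw [Measure.addHaar_preimage_smul volume hne]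
        have hs1 : |s| ≤ τ := abs_le.2 hs
        have hs2 : 0 < |s| := abs_pos.2 hs0
        have : ENNReal.ofReal |((τ * s⁻¹) ^ Module.finrank ℝ (Fin d → ℝ))⁻¹| ≤ 1 := by
          rw [← inv_pow, mul_inv, inv_inv, abs_pow, abs_mul, abs_inv, abs_of_pos hτ]
          refine ENNReal.ofReal_le_one.2 (pow_le_one₀ (by positivity) ?_)
          rw [inv_mul_le_iff₀ hτ]; linarith
        calc _ ≤ 1 * volume W := by gcongr
          _ = volume W := one_mul _
    · have : Prod.mk s ⁻¹' A = ∅ := by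
        ext y
        simp only [hA, mem_preimage, mem_ofPred_eq, mem_empty_iff_false, iff_false, not_and]
        intro h
        exact absurd (abs_le.1 h) hs
      rw [this, measure_empty]; exact zero_le
  rw [hprod]
  calc ∫⁻ s, volume (Prod.mk s ⁻¹' A) ≤ ∫⁻ s, (Icc (-τ) τ).indicator (fun _ => volume W) s :=
        lintegral_mono hbound
    _ = ENNReal.ofReal (2 * τ) * volume W := by
        rw [lintegral_indicator measurableSet_Icc, setLIntegral_const, Real.volume_Icc, mul_comm]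
        ring_nf

/-- Coordinates. -/
lemma surf_slope_le {τ : ℝ} (hτ : 0 < τ) {W : Set (Fin d → ℝ)} (hW : MeasurableSet W) :
    surf (d + 1) {e | |(e : EuclideanSpace ℝ (Fin (d + 1))) 0| ≤ τ ∧
      (e : EuclideanSpace ℝ (Fin (d + 1))) 0 ≠ 0 ∧
      τ • vel (e : EuclideanSpace ℝ (Fin (d + 1))) ∈ W} ≤
      (d + 1) * ENNReal.ofReal (2 * τ) * volume W := by
  set S' : Set (sphere (0 : EuclideanSpace ℝ (Fin (d + 1))) 1) :=
    {e | |(e : EuclideanSpace ℝ (Fin (d + 1))) 0| ≤ τ ∧
      (e : EuclideanSpace ℝ (Fin (d + 1))) 0 ≠ 0 ∧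
      τ • vel (e : EuclideanSpace ℝ (Fin (d + 1))) ∈ W} with hS'
  have hS'm : MeasurableSet S' := by
    have e1 : Measurable fun e : sphere (0 : EuclideanSpace ℝ (Fin (d + 1))) 1 =>
        |(e : EuclideanSpace ℝ (Fin (d + 1))) 0| := by fun_prop
    have e2 : Measurable fun e : sphere (0 : EuclideanSpace ℝ (Fin (d + 1))) 1 =>
        (e : EuclideanSpace ℝ (Fin (d + 1))) 0 := by fun_prop
    have e3 : Measurable fun e : sphere (0 : EuclideanSpace ℝ (Fin (d + 1))) 1 =>
        τ • vel (e : EuclideanSpace ℝ (Fin (d + 1))) :=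
      (measurable_vel.comp measurable_subtype_coe).const_smul τ
    exact MeasurableSet.inter (measurableSet_le e1 measurable_const)
      (MeasurableSet.inter (measurableSet_eq_fun e2 measurable_const).compl (hW.preimage e3))
  have hcone : Ioo (0:ℝ) 1 • ((↑) '' S' : Set (EuclideanSpace ℝ (Fin (d + 1)))) ⊆
      {x : EuclideanSpace ℝ (Fin (d + 1)) | |x 0| ≤ τ ∧ x 0 ≠ 0 ∧ τ • vel x ∈ W} := by
    rintro _ ⟨r, hr, _, ⟨e, he, rfl⟩, rfl⟩
    have hr0 : r ≠ 0 := hr.1.ne'
    refine ⟨?_, ?_, ?_⟩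
    · simp only [PiLp.smul_apply, smul_eq_mul, abs_mul, abs_of_pos hr.1]
      calc r * |(e : EuclideanSpace ℝ (Fin (d + 1))) 0| ≤ 1 * τ := by
            have h1 := he.1
            have h2 := hr.2.le
            gcongr
        _ = τ := one_mul τ
    · simpa using ⟨hr0, he.2.1⟩
    · have : vel (r • (e : EuclideanSpace ℝ (Fin (d + 1)))) =
          vel (e : EuclideanSpace ℝ (Fin (d + 1))) := by
        ext j
        simp only [vel, PiLp.smul_apply, smul_eq_mul]
        rw [mul_div_mul_left _ _ hr0]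
      simp only [this]
      exact he.2.2
  calc surf (d + 1) S' = ((d + 1 : ℕ) : ℝ≥0∞) *
        volume (Ioo (0:ℝ) 1 • ((↑) '' S' : Set (EuclideanSpace ℝ (Fin (d + 1))))) := by
        unfold surf
        rw [Measure.toSphere_apply' _ hS'm, finrank_euclideanSpace_fin]
    _ ≤ ((d + 1 : ℕ) : ℝ≥0∞) * (ENNReal.ofReal (2 * τ) * volume W) := by
        gcongr
        exact (measure_mono hcone).trans (volume_cone_le' hτ hW)
    _ = _ := by
        push_cast
        ring

/-- The direction with slope `w / τ`. -/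
noncomputable def dir (τ ε : ℝ) (w : Fin d → ℝ) : EuclideanSpace ℝ (Fin (d + 1)) :=
  (ε * ‖pt (τ, w)‖⁻¹) • pt (τ, w)

lemma measurable_dir (τ ε : ℝ) : Measurable (dir τ ε : (Fin d → ℝ) → EuclideanSpace ℝ (Fin (d + 1))) := by
  unfold dir
  have h1 : Measurable fun w : Fin d → ℝ => pt (τ, w) :=
    volume_preserving_pt.measurable.comp (by fun_prop)
  exact ((h1.norm.inv).const_mul ε).smul h1

lemma dir_vel {τ ε : ℝ} (hτ : 0 < τ) (hε : ε = 1 ∨ ε = -1) {e : EuclideanSpace ℝ (Fin (d + 1))}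
    (he : ‖e‖ = 1) (he0 : 0 < ε * e 0) : dir τ ε (τ • vel e) = e := by
  have hne : e 0 ≠ 0 := by
    intro h; rw [h, mul_zero] at he0; exact lt_irrefl _ he0
  have h1 : pt (τ, τ • vel e) = (τ / e 0) • e := by
    refine ext_pt ?_ ?_
    · simp only [pt_zero, PiLp.smul_apply, smul_eq_mul]
      field_simp
    · intro i
      simp only [pt_succ, PiLp.smul_apply, smul_eq_mul, Pi.smul_apply, vel]
      field_simp
  have habs : |e 0| = ε * e 0 := by
    rcases hε with rfl | rfl
    · rw [one_mul] at he0 ⊢; exact abs_of_pos he0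
    · have : e 0 < 0 := by linarith
      rw [abs_of_neg this]; ring
  have hεne : ε ≠ 0 := by rcases hε with rfl | rfl <;> norm_num
  have hεε : ε * ε = 1 := by rcases hε with rfl | rfl <;> norm_num
  unfold dir
  rw [h1, norm_smul, he, mul_one, smul_smul, Real.norm_eq_abs, abs_div, abs_of_pos hτ, habs]
  have : ε * (τ / (ε * e 0))⁻¹ * (τ / e 0) = 1 := by
    field_simp
    linarith
  rw [this, one_smul]

/-- Integration over part of the sphere. -/
lemma lintegral_sphere_le {τ ε : ℝ} (hτ : 0 < τ) (hε : ε = 1 ∨ ε = -1)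
    {H : EuclideanSpace ℝ (Fin (d + 1)) → ℝ≥0∞} (hH : Measurable H) :
    ∫⁻ e in {e : sphere (0 : EuclideanSpace ℝ (Fin (d + 1))) 1 |
      0 < ε * (e : EuclideanSpace ℝ (Fin (d + 1))) 0 ∧
      |(e : EuclideanSpace ℝ (Fin (d + 1))) 0| ≤ τ}, H e ∂(surf (d + 1)) ≤
      (d + 1) * ENNReal.ofReal (2 * τ) * ∫⁻ w : Fin d → ℝ, H (dir τ ε w) := by
  set S : Set (sphere (0 : EuclideanSpace ℝ (Fin (d + 1))) 1) :=
    {e | 0 < ε * (e : EuclideanSpace ℝ (Fin (d + 1))) 0 ∧
      |(e : EuclideanSpace ℝ (Fin (d + 1))) 0| ≤ τ} with hS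
  have e1 : Measurable fun e : sphere (0 : EuclideanSpace ℝ (Fin (d + 1))) 1 =>
      |(e : EuclideanSpace ℝ (Fin (d + 1))) 0| := by fun_prop
  have e2 : Measurable fun e : sphere (0 : EuclideanSpace ℝ (Fin (d + 1))) 1 =>
      ε * (e : EuclideanSpace ℝ (Fin (d + 1))) 0 := by fun_prop
  have hSm : MeasurableSet S :=
    MeasurableSet.inter (measurableSet_lt measurable_const e2) (measurableSet_le e1 measurable_const)
  set ω : sphere (0 : EuclideanSpace ℝ (Fin (d + 1))) 1 → (Fin d → ℝ) :=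
    fun e => τ • vel (e : EuclideanSpace ℝ (Fin (d + 1))) with hω
  have hωm : Measurable ω := (measurable_vel.comp measurable_subtype_coe).const_smul τ
  have hHd : Measurable fun w : Fin d → ℝ => H (dir τ ε w) := hH.comp (measurable_dir τ ε)
  have hle : Measure.map ω ((surf (d + 1)).restrict S) ≤
      ((d + 1) * ENNReal.ofReal (2 * τ)) • (volume : Measure (Fin d → ℝ)) := by
    rw [Measure.le_iff]
    intro W hW
    rw [Measure.map_apply hωm hW, Measure.restrict_apply (hωm hW), Measure.smul_apply, smul_eq_mul]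
    refine (measure_mono ?_).trans (surf_slope_le hτ hW)
    rintro e ⟨he1, he2⟩
    refine ⟨he2.2, ?_, he1⟩
    intro h
    have := he2.1
    rw [h, mul_zero] at this
    exact lt_irrefl _ this
  calc ∫⁻ e in S, H e ∂(surf (d + 1)) = ∫⁻ e in S, H (dir τ ε (ω e)) ∂(surf (d + 1)) := by
        refine setLIntegral_congr_fun hSm fun e he => ?_
        have hnorm : ‖(e : EuclideanSpace ℝ (Fin (d + 1)))‖ = 1 := by simp
        simp only [hω]
        rw [dir_vel hτ hε hnorm he.1]
    _ = ∫⁻ w, H (dir τ ε w) ∂(Measure.map ω ((surf (d + 1)).restrict S)) := by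
        rw [lintegral_map hHd hωm]
    _ ≤ ∫⁻ w, H (dir τ ε w) ∂(((d + 1) * ENNReal.ofReal (2 * τ)) • (volume : Measure (Fin d → ℝ))) :=
        lintegral_mono' hle le_rfl
    _ = _ := by
        rw [lintegral_smul_measure, smul_eq_mul]

end Pool.Agent.TH539
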