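import Pool.Agent.TH539.Avg

set_option autoImplicit false

/-!
Averages over balls, selections and tubes.
-/

open MeasureTheory Set ENNReal NNReal Metric
open scoped Pointwise

namespace Pool.Agent.TH539

variable {d : ℕ}

/-- Jensen's inequality. -/
lemma jensen {α : Type*} [MeasurableSpace α] (μ : Measure α) {p : ℝ} (hp : 1 < p)
    {g : α → ℝ≥0∞} (hg : AEMeasurable g μ) (h0 : μ univ ≠ 0) (ht : μ univ ≠ ∞) :
    ((μ univ)⁻¹ * ∫⁻ x, g x ∂μ) ^ p ≤ (μ univ)⁻¹ * ∫⁻ x, g x ^ p ∂μ := by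
  have hp0 : 0 < p := by linarith
  have hpq := Real.HolderConjugate.conjExponent hp
  have h := ENNReal.lintegral_mul_le_Lp_mul_Lq μ hpq hg (aemeasurable_const (b := (1:ℝ≥0∞)))
  simp only [Pi.mul_apply, mul_one, ENNReal.one_rpow, lintegral_const, one_mul] at h
  have h2 := ENNReal.rpow_le_rpow h hp0.le
  rw [ENNReal.mul_rpow_of_nonneg _ _ hp0.le, ← ENNReal.rpow_mul, ← ENNReal.rpow_mul,
    one_div_mul_cancel hp0.ne', ENNReal.rpow_one] at h2
  have he : 1 / p.conjExponent * p = p - 1 := by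
    have h3 : p - 1 ≠ 0 := by linarith
    unfold Real.conjExponent
    field_simp
  rw [he] at h2
  calc ((μ univ)⁻¹ * ∫⁻ x, g x ∂μ) ^ p
      = (μ univ)⁻¹ ^ p * (∫⁻ x, g x ∂μ) ^ p := ENNReal.mul_rpow_of_nonneg _ _ hp0.le
    _ ≤ (μ univ)⁻¹ ^ p * ((∫⁻ x, g x ^ p ∂μ) * μ univ ^ (p - 1)) := by gcongr
    _ = (μ univ)⁻¹ ^ p * μ univ ^ (p - 1) * ∫⁻ x, g x ^ p ∂μ := by ring
    _ = _ := by
        congr 1
        rw [ENNReal.inv_rpow, ← ENNReal.rpow_neg, ← ENNReal.rpow_add _ _ h0 ht]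
        have : -p + (p - 1) = -1 := by ring
        rw [this, ENNReal.rpow_neg_one]

/-- The average over a ball of the segment integrals. -/
noncomputable def ballAvg (ρ : ℝ) (F : EuclideanSpace ℝ (Fin (d + 1)) → ℝ≥0∞)
    (a e : EuclideanSpace ℝ (Fin (d + 1))) : ℝ≥0∞ :=
  (volume (closedBall (0 : EuclideanSpace ℝ (Fin (d + 1))) ρ))⁻¹ *
    ∫⁻ x in closedBall (0 : EuclideanSpace ℝ (Fin (d + 1))) ρ,
      ∫⁻ s in Icc (-(3 / 2) : ℝ) (3 / 2), F (a + x + s • e)

lemma measurable_ballAvg {ρ : ℝ} {F : EuclideanSpace ℝ (Fin (d + 1)) → ℝ≥0∞} (hF : Measurable F) :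
    Measurable fun z : EuclideanSpace ℝ (Fin (d + 1)) × EuclideanSpace ℝ (Fin (d + 1)) =>
      ballAvg ρ F z.1 z.2 := by
  unfold ballAvg
  refine Measurable.const_mul ?_ _
  have h1 : Measurable fun z : ((EuclideanSpace ℝ (Fin (d + 1)) × EuclideanSpace ℝ (Fin (d + 1))) ×
      EuclideanSpace ℝ (Fin (d + 1))) × ℝ => F (z.1.1.1 + z.1.2 + z.2 • z.1.1.2) :=
    hF.comp (by fun_prop)
  have h2 := h1.lintegral_prod_right' (ν := volume.restrict (Icc (-(3 / 2) : ℝ) (3 / 2)))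
  exact h2.lintegral_prod_right'
    (ν := volume.restrict (closedBall (0 : EuclideanSpace ℝ (Fin (d + 1))) ρ))

/-- Bound for selections. -/
lemma steep_ballAvg {f : EuclideanSpace ℝ (Fin (d + 1)) → ℝ} (hf : Measurable f)
    (hf0 : ∀ x, 0 ≤ f x) {N : ℕ} {M : ℝ≥0∞} (hcov : ConvexSliced N M f)
    {b : EuclideanSpace ℝ (Fin (d + 1)) → EuclideanSpace ℝ (Fin (d + 1))} (hb : Measurable b)
    {θ : ℝ} (hθ : 0 < θ) {p : ℝ} (hp : qq d θ < p) {κ : ℝ} (hκ : 0 < κ) {ρ : ℝ} (hρ : 0 < ρ) :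
    ∫⁻ e in {e : sphere (0 : EuclideanSpace ℝ (Fin (d + 1))) 1 |
      κ ≤ |(e : EuclideanSpace ℝ (Fin (d + 1))) 0|},
        ballAvg ρ (fun x => ENNReal.ofReal (f x)) (b e) e ^ p ∂(surf (d + 1)) ≤
      3 ^ p * (3 * ((nsh κ : ℝ≥0∞) * (4 * (d + 1) * 2 ^ p *
        (cP d θ p * (N:ℝ≥0∞) ^ d * M * ∫⁻ x, ENNReal.ofReal (f x ^ p))))) := by
  have hq1 : 1 ≤ qq d θ := by
    unfold qq
    have h1 : (0:ℝ) ≤ d := by positivity
    have h2 : 0 ≤ θ * ((d + 1) * d) := by positivity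
    linarith
  have hp1 : 1 < p := by linarith
  have hp0 : 0 < p := by linarith
  set B := closedBall (0 : EuclideanSpace ℝ (Fin (d + 1))) ρ with hB
  set μ := (volume : Measure (EuclideanSpace ℝ (Fin (d + 1)))).restrict B with hμ
  have hμu : μ univ = volume B := by rw [hμ, Measure.restrict_apply_univ]
  have h0 : volume B ≠ 0 := (measure_closedBall_pos _ _ hρ).ne'
  have ht : volume B ≠ ∞ := measure_closedBall_lt_top.ne
  set K : ℝ≥0∞ := 3 ^ p * (3 * ((nsh κ : ℝ≥0∞) * (4 * (d + 1) * 2 ^ p *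
        (cP d θ p * (N:ℝ≥0∞) ^ d * M * ∫⁻ x, ENNReal.ofReal (f x ^ p))))) with hK
  set S : Set (sphere (0 : EuclideanSpace ℝ (Fin (d + 1))) 1) :=
    {e | κ ≤ |(e : EuclideanSpace ℝ (Fin (d + 1))) 0|} with hS
  have hc : Measurable fun z : sphere (0 : EuclideanSpace ℝ (Fin (d + 1))) 1 ×
      EuclideanSpace ℝ (Fin (d + 1)) => (z.1 : EuclideanSpace ℝ (Fin (d + 1))) :=
    measurable_subtype_coe.comp measurable_fst
  set I : sphere (0 : EuclideanSpace ℝ (Fin (d + 1))) 1 → EuclideanSpace ℝ (Fin (d + 1)) → ℝ≥0∞ :=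
    fun e x => ∫⁻ s in Icc (-(3 / 2) : ℝ) (3 / 2),
      ENNReal.ofReal (f (b e + x + s • (e : EuclideanSpace ℝ (Fin (d + 1))))) with hI
  have hIm : Measurable (Function.uncurry I) := by
    have hc2 : Measurable fun z : (sphere (0 : EuclideanSpace ℝ (Fin (d + 1))) 1 ×
      EuclideanSpace ℝ (Fin (d + 1))) × ℝ => (z.1.1 : EuclideanSpace ℝ (Fin (d + 1))) :=
      hc.comp measurable_fst
    have h1 : Measurable fun z : (sphere (0 : EuclideanSpace ℝ (Fin (d + 1))) 1 ×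
      EuclideanSpace ℝ (Fin (d + 1))) × ℝ =>
        ENNReal.ofReal (f (b z.1.1 + z.1.2 + z.2 • (z.1.1 : EuclideanSpace ℝ (Fin (d + 1))))) :=
      (hf.comp (((hb.comp hc2).add (measurable_snd.comp measurable_fst)).add
        (measurable_snd.smul hc2))).ennreal_ofReal
    exact h1.lintegral_prod_right' (ν := volume.restrict (Icc (-(3 / 2) : ℝ) (3 / 2)))
  calc ∫⁻ e in S, ballAvg ρ (fun x => ENNReal.ofReal (f x)) (b e) e ^ p ∂(surf (d + 1))
      ≤ ∫⁻ e in S, (volume B)⁻¹ * ∫⁻ x, I e x ^ p ∂μ ∂(surf (d + 1)) := by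
        refine lintegral_mono fun e => ?_
        have h := jensen μ hp1 (g := I e)
          (hIm.comp (measurable_prodMk_left (x := e))).aemeasurable (by rw [hμu]; exact h0)
          (by rw [hμu]; exact ht)
        rw [hμu] at h
        exact h
    _ = (volume B)⁻¹ * ∫⁻ e in S, ∫⁻ x, I e x ^ p ∂μ ∂(surf (d + 1)) :=
        lintegral_const_mul' _ _ (ENNReal.inv_ne_top.2 h0)
    _ = (volume B)⁻¹ * ∫⁻ x, ∫⁻ e in S, I e x ^ p ∂(surf (d + 1)) ∂μ := by
        have : IsFiniteMeasure (surf (d + 1)) := by unfold surf; infer_instance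
        rw [lintegral_lintegral_swap (hIm.pow_const p).aemeasurable]
    _ ≤ (volume B)⁻¹ * ∫⁻ _x, K ∂μ := by
        gcongr with x
        exact steep_long hf hf0 hcov (b := fun y => b y + x) (hb.add measurable_const) hθ hp hκ
    _ = K := by
        rw [lintegral_const, hμu, mul_comm K, ← mul_assoc, ENNReal.inv_mul_cancel h0 ht, one_mul]

/-- Selection of the largest of finitely many values. -/
lemma exists_selection {A : EuclideanSpace ℝ (Fin (d + 1)) × EuclideanSpace ℝ (Fin (d + 1)) → ℝ≥0∞}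
    (hA : Measurable A) (q : ℕ → EuclideanSpace ℝ (Fin (d + 1))) (n : ℕ) :
    ∃ b : EuclideanSpace ℝ (Fin (d + 1)) → EuclideanSpace ℝ (Fin (d + 1)), Measurable b ∧
      ∀ e, ∀ k ≤ n, A (q k, e) ≤ A (b e, e) := by
  classical
  induction n with
  | zero =>
    refine ⟨fun _ => q 0, measurable_const, ?_⟩
    intro e k hk
    obtain rfl : k = 0 := by omega
    exact le_rfl
  | succ n ih =>
    obtain ⟨b, hb, hbk⟩ := ih
    set S : Set (EuclideanSpace ℝ (Fin (d + 1))) := {e | A (b e, e) ≤ A (q (n + 1), e)} with hS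
    have hSm : MeasurableSet S :=
      measurableSet_le (hA.comp (hb.prodMk measurable_id))
        (hA.comp (measurable_const.prodMk measurable_id))
    refine ⟨fun e => if e ∈ S then q (n + 1) else b e, Measurable.ite hSm measurable_const hb, ?_⟩
    intro e k hk
    by_cases he : e ∈ S
    · simp only [he, if_true]
      rcases Nat.lt_or_ge n k with h | h
      · obtain rfl : k = n + 1 := by omega
        exact le_rfl
      · exact (hbk e k h).trans he
    · simp only [he, if_false]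
      rcases Nat.lt_or_ge n k with h | h
      · obtain rfl : k = n + 1 := by omega
        exact le_of_lt (not_le.1 he)
      · exact hbk e k h

/-- The supremum over a sequence of centres. -/
lemma steep_iSup {f : EuclideanSpace ℝ (Fin (d + 1)) → ℝ} (hf : Measurable f)
    (hf0 : ∀ x, 0 ≤ f x) {N : ℕ} {M : ℝ≥0∞} (hcov : ConvexSliced N M f)
    {θ : ℝ} (hθ : 0 < θ) {p : ℝ} (hp : qq d θ < p) {κ : ℝ} (hκ : 0 < κ) {ρ : ℝ} (hρ : 0 < ρ)
    (q : ℕ → EuclideanSpace ℝ (Fin (d + 1))) :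
    ∫⁻ e in {e : sphere (0 : EuclideanSpace ℝ (Fin (d + 1))) 1 |
      κ ≤ |(e : EuclideanSpace ℝ (Fin (d + 1))) 0|},
        (⨆ k, ballAvg ρ (fun x => ENNReal.ofReal (f x)) (q k) e) ^ p ∂(surf (d + 1)) ≤
      3 ^ p * (3 * ((nsh κ : ℝ≥0∞) * (4 * (d + 1) * 2 ^ p *
        (cP d θ p * (N:ℝ≥0∞) ^ d * M * ∫⁻ x, ENNReal.ofReal (f x ^ p))))) := by
  have hq : 0 < qq d θ := by unfold qq; positivity
  have hp0 : 0 < p := hq.trans hp
  have hFm : Measurable fun x => ENNReal.ofReal (f x) := hf.ennreal_ofReal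
  have hBm := measurable_ballAvg (ρ := ρ) hFm
  have hc : Measurable fun e : sphere (0 : EuclideanSpace ℝ (Fin (d + 1))) 1 =>
    (e : EuclideanSpace ℝ (Fin (d + 1))) := measurable_subtype_coe
  set Q : ℕ → sphere (0 : EuclideanSpace ℝ (Fin (d + 1))) 1 → ℝ≥0∞ := fun n e =>
    (⨆ k ∈ Iic n, ballAvg ρ (fun x => ENNReal.ofReal (f x)) (q k) e) ^ p with hQ
  have hkm : ∀ k, Measurable fun e : sphere (0 : EuclideanSpace ℝ (Fin (d + 1))) 1 =>
      ballAvg ρ (fun x => ENNReal.ofReal (f x)) (q k) (e : EuclideanSpace ℝ (Fin (d + 1))) := by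
    intro k
    have h1 : Measurable fun e : sphere (0 : EuclideanSpace ℝ (Fin (d + 1))) 1 =>
      ((q k, (e : EuclideanSpace ℝ (Fin (d + 1)))) :
        EuclideanSpace ℝ (Fin (d + 1)) × EuclideanSpace ℝ (Fin (d + 1))) :=
      measurable_const.prodMk hc
    have h2 := hBm.comp h1
    simp only [Function.comp_def] at h2
    exact h2
  have hQm : ∀ n, Measurable (Q n) := by
    intro n
    exact (Measurable.biSup (Iic n) (to_countable _) (fun k _ => hkm k)).pow_const p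
  have hmono : Monotone Q := by
    intro n m hnm e
    refine ENNReal.rpow_le_rpow ?_ hp0.le
    exact biSup_mono fun k hk => le_trans hk hnm
  have hsup : ∀ e : sphere (0 : EuclideanSpace ℝ (Fin (d + 1))) 1, (⨆ k, ballAvg ρ (fun x => ENNReal.ofReal (f x)) (q k)
      (e : EuclideanSpace ℝ (Fin (d + 1)))) ^ p = ⨆ n, Q n e := by
    intro e
    have h1 : (⨆ k, ballAvg ρ (fun x => ENNReal.ofReal (f x)) (q k)
      (e : EuclideanSpace ℝ (Fin (d + 1)))) = ⨆ n, ⨆ k ∈ Iic n,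
        ballAvg ρ (fun x => ENNReal.ofReal (f x)) (q k) (e : EuclideanSpace ℝ (Fin (d + 1))) := by
      refine le_antisymm ?_ ?_
      · exact iSup_le fun k => le_iSup_of_le k (le_iSup₂_of_le k (mem_Iic.2 le_rfl) le_rfl)
      · exact iSup_le fun n => iSup₂_le fun k _ => le_iSup (fun k =>
          ballAvg ρ (fun x => ENNReal.ofReal (f x)) (q k) (e : EuclideanSpace ℝ (Fin (d + 1)))) k
    rw [h1]
    exact (ENNReal.orderIsoRpow p hp0).map_iSup _
  simp_rw [hsup]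
  rw [lintegral_iSup hQm hmono]
  refine iSup_le fun n => ?_
  obtain ⟨b, hb, hbk⟩ := exists_selection hBm q n
  refine le_trans (lintegral_mono fun e => ?_) (steep_ballAvg hf hf0 hcov hb hθ hp hκ hρ)
  refine ENNReal.rpow_le_rpow ?_ hp0.le
  exact iSup₂_le fun k hk => hbk e k hk

end Pool.Agent.TH539
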