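import Pool.Agent.TH539.Box

set_option autoImplicit false

/-!
Velocities of lines meeting `d + 1` slices which are covered by convex sets.
-/

open MeasureTheory Set ENNReal NNReal Matrix
open scoped Pointwise

namespace Pool.Agent.TH539

variable {d : ℕ}

/-- `A` is covered by `N` convex sets of total volume at most `m`. -/
def ConvexCover (N : ℕ) (m : ℝ≥0∞) (A : Set (Fin d → ℝ)) : Prop :=
  ∃ C : Fin N → Set (Fin d → ℝ), (∀ j, Convex ℝ (C j)) ∧ A ⊆ ⋃ j, C j ∧ ∑ j, volume (C j) ≤ m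

/-- Velocities of lines meeting the convex sets `C i` at the times `t i`, `i = 0, …, d`. -/
lemma volume_velocities_le {t : Fin (d + 1) → ℝ} (ht : Function.Injective t)
    {C : Fin (d + 1) → Set (Fin d → ℝ)} (hC : ∀ i, Convex ℝ (C i)) :
    volume {v : Fin d → ℝ | ∃ q : Fin d → ℝ, ∀ i, q + t i • v ∈ C i} ≤
      4 ^ d * ∑ i, (d:ℝ≥0∞) ^ d * volume (C i) *
        ENNReal.ofReal (∏ k ∈ Finset.univ.erase i, |t i - t k|)⁻¹ := by
  classical
  set R := ∑ i, (d:ℝ≥0∞) ^ d * volume (C i) *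
        ENNReal.ofReal (∏ k ∈ Finset.univ.erase i, |t i - t k|)⁻¹ with hR
  by_cases hRtop : R = ∞
  · rw [hRtop, ENNReal.mul_top (by positivity)]; exact le_top
  have key := volume_le_of_det_le (X := {v : Fin d → ℝ | ∃ q : Fin d → ℝ, ∀ i, q + t i • v ∈ C i})
    (R := R.toReal) (by
      intro v hv
      choose q hq using hv
      have := det_le_sum_volume ht hC v q (fun i j => hq j i)
      exact (ENNReal.ofReal_le_iff_le_toReal hRtop).1 this)
  refine key.trans (le_of_eq ?_)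
  rw [ENNReal.ofReal_mul (by positivity), ENNReal.ofReal_toReal hRtop,
    ENNReal.ofReal_pow (by norm_num)]
  simp

/-- Summing a function of one coordinate of `f : Fin (d + 1) → Fin N`. -/
lemma sum_fun_coord (N : ℕ) (i : Fin (d + 1)) (g : Fin N → ℝ≥0∞) :
    ∑ f : Fin (d + 1) → Fin N, g (f i) = (N:ℝ≥0∞) ^ d * ∑ j, g j := by
  classical
  rw [← (Fin.insertNthEquiv (fun _ => Fin N) i).sum_comp, Fintype.sum_prod_type]
  simp only [Fin.insertNthEquiv_apply, Fin.insertNth_apply_same, Finset.sum_const,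
    Finset.card_univ, Fintype.card_pi, Finset.prod_const, Fintype.card_fin, nsmul_eq_mul]
  rw [← Finset.mul_sum]
  simp

/-- Velocities of lines meeting, at `d + 1` times with gaps at least `g`, sets `A i` covered
by `N` convex sets of total volume at most `m i`. -/
lemma volume_velocities_cover_le {t : Fin (d + 1) → ℝ} {g : ℝ} (hg : 0 < g)
    (hgap : ∀ i k, i ≠ k → g ≤ |t i - t k|) {N : ℕ} {m : Fin (d + 1) → ℝ≥0∞}
    {A : Fin (d + 1) → Set (Fin d → ℝ)} (hA : ∀ i, ConvexCover N (m i) (A i)) :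
    volume {v : Fin d → ℝ | ∃ q : Fin d → ℝ, ∀ i, q + t i • v ∈ A i} ≤
      4 ^ d * (d:ℝ≥0∞) ^ d * (N:ℝ≥0∞) ^ d * ENNReal.ofReal (g⁻¹) ^ d * ∑ i, m i := by
  classical
  have ht : Function.Injective t := by
    intro i k hik
    by_contra hne
    have := hgap i k hne
    rw [hik, sub_self, abs_zero] at this
    linarith
  choose C hCconv hCcov hCvol using hA
  have hprod : ∀ i, ENNReal.ofReal (∏ k ∈ Finset.univ.erase i, |t i - t k|)⁻¹ ≤
      ENNReal.ofReal (g⁻¹) ^ d := by
    intro i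
    rw [← ENNReal.ofReal_pow (by positivity)]
    refine ENNReal.ofReal_le_ofReal ?_
    rw [inv_pow]
    refine inv_anti₀ (by positivity) ?_
    calc g ^ d = ∏ _k ∈ (Finset.univ.erase i : Finset (Fin (d + 1))), g := by
          rw [Finset.prod_const, Finset.card_erase_of_mem (Finset.mem_univ _), Finset.card_univ,
            Fintype.card_fin, Nat.add_sub_cancel]
      _ ≤ _ := Finset.prod_le_prod (fun _ _ => hg.le) (fun k hk =>
          hgap i k (Finset.ne_of_mem_erase hk).symm)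
  have hsub : {v : Fin d → ℝ | ∃ q : Fin d → ℝ, ∀ i, q + t i • v ∈ A i} ⊆
      ⋃ f : Fin (d + 1) → Fin N,
        {v : Fin d → ℝ | ∃ q : Fin d → ℝ, ∀ i, q + t i • v ∈ C i (f i)} := by
    rintro v ⟨q, hq⟩
    have : ∀ i, ∃ j, q + t i • v ∈ C i j := fun i => by simpa using hCcov i (hq i)
    choose f hf using this
    exact mem_iUnion.2 ⟨f, q, hf⟩
  calc volume {v : Fin d → ℝ | ∃ q : Fin d → ℝ, ∀ i, q + t i • v ∈ A i}
      ≤ _ := measure_mono hsub
    _ ≤ ∑ f : Fin (d + 1) → Fin N,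
        volume {v : Fin d → ℝ | ∃ q : Fin d → ℝ, ∀ i, q + t i • v ∈ C i (f i)} :=
        measure_iUnion_fintype_le _ _
    _ ≤ ∑ f : Fin (d + 1) → Fin N, 4 ^ d * ∑ i, (d:ℝ≥0∞) ^ d * volume (C i (f i)) *
        ENNReal.ofReal (g⁻¹) ^ d := by
        refine Finset.sum_le_sum fun f _ => ?_
        refine (volume_velocities_le ht (fun i => hCconv i (f i))).trans ?_
        gcongr with i _
        exact hprod i
    _ = 4 ^ d * (d:ℝ≥0∞) ^ d * ENNReal.ofReal (g⁻¹) ^ d *
        ∑ i, ∑ f : Fin (d + 1) → Fin N, volume (C i (f i)) := by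
        rw [Finset.sum_comm, Finset.mul_sum]
        refine Finset.sum_congr rfl fun f _ => ?_
        rw [Finset.mul_sum, Finset.mul_sum]
        refine Finset.sum_congr rfl fun i _ => ?_
        ring
    _ = 4 ^ d * (d:ℝ≥0∞) ^ d * ENNReal.ofReal (g⁻¹) ^ d *
        ∑ i, (N:ℝ≥0∞) ^ d * ∑ j, volume (C i j) := by
        congr 1
        refine Finset.sum_congr rfl fun i _ => ?_
        exact sum_fun_coord N i (fun j => volume (C i j))
    _ ≤ 4 ^ d * (d:ℝ≥0∞) ^ d * ENNReal.ofReal (g⁻¹) ^ d * ∑ i, (N:ℝ≥0∞) ^ d * m i := by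
        gcongr with i _
        exact hCvol i
    _ = _ := by
        rw [← Finset.mul_sum]
        ring

end Pool.Agent.TH539
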